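import Pool.Agent.MP_9d78a0_co.fb.S2

-- ======== part 0: formerly Pool.Agent.MP_9d78a0_co.fb.Min
section MrgPart0

/-! First properties of minimal instances. -/

set_option autoImplicit false

namespace Pool.Agent.MP_9d78a0_co.fb

open Set Function

namespace Min

theorem io_io (n x : ℕ) : io n (io n x) = x := by
  unfold io; split_ifs <;> omega

theorem io_inv (n : ℕ) : Involutive (io n) := io_io n

theorem io_lt {n x : ℕ} (h : x < 2 * n) : io n x < 2 * n := by
  unfold io; split_ifs; omega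

theorem io_of_lt {n x : ℕ} (h : x < 2 * n) : io n x = 2 * n - 1 - x := by
  unfold io; rw [if_pos h]

theorem io_of_ge {n x : ℕ} (h : ¬ x < 2 * n) : io n x = x := by
  unfold io; rw [if_neg h]

theorem cc_s {σ μ : ℕ → ℕ} {a b : ℕ} (h : CC σ μ a b) : CC σ μ a (σ b) :=
  Relation.ReflTransGen.tail h (Or.inl rfl)

theorem cc_m {σ μ : ℕ → ℕ} {a b : ℕ} (h : CC σ μ a b) : CC σ μ a (μ b) :=
  Relation.ReflTransGen.tail h (Or.inr rfl)

theorem end_fst {T : Finset (ℕ × ℕ)} {p : ℕ × ℕ} (h : p ∈ T) : p.1 ∈ ends T := ⟨p, h, Or.inl rfl⟩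

theorem end_snd {T : Finset (ℕ × ℕ)} {p : ℕ × ℕ} (h : p ∈ T) : p.2 ∈ ends T := ⟨p, h, Or.inr rfl⟩

/-- A set closed under both maps, without fixed points and with a point below `2 n`, can be
removed. -/
theorem red_of_closed {k n : ℕ} {σ : ℕ → ℕ} {T : Finset (ℕ × ℕ)} (h : MinI k n σ T) (O : Set ℕ)
    (h1 : ∀ y ∈ O, σ y ∈ O) (h2 : ∀ y ∈ O, io n y ∈ O) (h3 : ∀ y ∈ O, σ y ≠ y) (x : ℕ)
    (hx : x < 2 * n) (hxO : x ∈ O) : False := by
  classical
  have hs := h.term.inv
  have h1' : ∀ y, y ∉ O → σ y ∉ O := fun y hy hh => hy (by simpa [hs y] using h1 _ hh)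
  have h2' : ∀ y, y ∉ O → io n y ∉ O := fun y hy hh => hy (by simpa [io_io] using h2 _ hh)
  apply h.min
  refine ⟨x, hx, fun y => if y ∈ O then y else io n y, ?_, ?_, ?_, ?_⟩
  · intro y
    by_cases hy : y ∈ O
    · simp [hy]
    · simp [hy, h2' y hy, io_io]
  · intro a b hab hb
    by_cases ha : a ∈ O
    · simp only [if_pos ha] at hb; omega
    · simp only [if_neg ha] at hb ⊢
      by_cases hb' : b ∈ O
      · simp only [if_pos hb']; exact ⟨hab, hb⟩
      · simp only [if_neg hb']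
        unfold io at hb ⊢
        split_ifs at hb ⊢ <;> omega
  · intro y hy
    by_cases hyO : y ∈ O
    · simp [hyO] at hy
    · simp only [if_neg hyO] at hy
      refine ⟨?_, ?_⟩
      · by_contra hc
        exact hy (io_of_ge hc)
      · intro e
        exact hyO (by rw [show y = x from e]; exact hxO)
  · intro p hp
    have ha : p.1 ∉ O := fun hh => h3 _ hh (h.term.fix _ (end_fst hp))
    have key : ∀ z, CC σ (io n) p.1 z →
        z ∉ O ∧ CC σ (fun y => if y ∈ O then y else io n y) p.1 z := by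
      intro z hz
      induction hz with
      | refl => exact ⟨ha, Relation.ReflTransGen.refl⟩
      | tail _ hstep ih =>
        rcases hstep with e | e
        · subst e; exact ⟨h1' _ ih.1, cc_s ih.2⟩
        · subst e
          refine ⟨h2' _ ih.1, ?_⟩
          have := cc_m ih.2
          simpa only [if_neg ih.1] using this
    exact (key _ (h.route p hp)).2

theorem acyc {k n : ℕ} {σ : ℕ → ℕ} {T : Finset (ℕ × ℕ)} (h : MinI k n σ T) (x : ℕ)
    (hx : x < 2 * n) : ∃ m, σ ((io n ∘ σ)^[m] x) = (io n ∘ σ)^[m] x := by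
  by_contra hc
  have hc' : ∀ m, σ ((io n ∘ σ)^[m] x) ≠ (io n ∘ σ)^[m] x := fun m e => hc ⟨m, e⟩
  have hs := h.term.inv
  have hinj : Injective (io n ∘ σ) := (io_inv n).injective.comp hs.injective
  have hlt : ∀ m, (io n ∘ σ)^[m] x ∈ Iio (2 * n) := by
    intro m
    induction m with
    | zero => exact hx
    | succ m ih =>
      rw [iterate_succ_apply']
      exact io_lt (h.lt _ ih)
  obtain ⟨a, b, hab, e⟩ := Set.Finite.exists_lt_map_eq_of_forall_mem hlt (finite_Iio _)
  obtain ⟨c, rfl⟩ : ∃ c, b = a + (c + 1) := ⟨b - a - 1, by omega⟩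
  have hper : (io n ∘ σ)^[c + 1] x = x := by
    rw [iterate_add_apply] at e
    exact ((hinj.iterate a) e).symm
  refine red_of_closed h {y | ∃ m, y = (io n ∘ σ)^[m] x ∨ y = σ ((io n ∘ σ)^[m] x)} ?_ ?_ ?_ x hx
    ⟨0, Or.inl rfl⟩
  · rintro y ⟨m, e | e⟩
    · exact ⟨m, Or.inr (by rw [e])⟩
    · exact ⟨m, Or.inl (by rw [e, hs])⟩
  · rintro y ⟨m, e | e⟩
    · refine ⟨m + c, Or.inr ?_⟩
      have : (io n ∘ σ)^[m] x = (io n ∘ σ)^[m + c + 1] x := by
        rw [add_assoc, iterate_add_apply, hper]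
      rw [e, this, iterate_succ_apply']
      exact io_io _ _
    · exact ⟨m + 1, Or.inl (by rw [e, iterate_succ_apply']; rfl)⟩
  · rintro y ⟨m, e | e⟩
    · rw [e]; exact hc' m
    · rw [e, hs]; exact (hc' m).symm

/-- the matching that shortcuts a short chord -/
def cut (n x y : ℕ) : ℕ :=
  if y = x ∨ y = x + 1 then y else if y = 2 * n - 2 - x then 2 * n - 1 - x
  else if y = 2 * n - 1 - x then 2 * n - 2 - x else io n y

theorem nohat {k n : ℕ} {σ : ℕ → ℕ} {T : Finset (ℕ × ℕ)} (h : MinI k n σ T) (x : ℕ)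
    (hx : x < 2 * n) : σ x ≠ x + 1 := by
  intro e
  have hs := h.term.inv
  have e' : σ (x + 1) = x := by rw [← e, hs]
  have hx1 : x + 1 < 2 * n := e ▸ h.lt x hx
  by_cases hn : 2 * n - 2 - x = x
  · refine red_of_closed h {x, x + 1} ?_ ?_ ?_ x hx (Or.inl rfl)
    · rintro y (r | r)
      · rw [r, e]; exact Or.inr rfl
      · rw [show y = x + 1 from r, e']; exact Or.inl rfl
    · rintro y (r | r)
      · right; rw [r, io_of_lt hx]; show _ = _; omega
      · left; rw [show y = x + 1 from r, io_of_lt hx1]; omega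
    · rintro y (r | r)
      · rw [r, e]; omega
      · rw [show y = x + 1 from r, e']; omega
  apply h.min
  have c1 : cut n x (2 * n - 2 - x) = 2 * n - 1 - x := by
    unfold cut; rw [if_neg (by omega), if_pos rfl]
  have c2 : cut n x (2 * n - 1 - x) = 2 * n - 2 - x := by
    unfold cut; rw [if_neg (by omega), if_neg (by omega), if_pos rfl]
  refine ⟨x, hx, cut n x, ?_, ?_, ?_, ?_⟩
  · intro y
    by_cases a1 : y = x ∨ y = x + 1
    · have : cut n x y = y := by unfold cut; rw [if_pos a1]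
      rw [this, this]
    by_cases a2 : y = 2 * n - 2 - x
    · rw [a2, c1, c2]
    by_cases a3 : y = 2 * n - 1 - x
    · rw [a3, c2, c1]
    have : cut n x y = io n y := by unfold cut; rw [if_neg a1, if_neg a2, if_neg a3]
    rw [this]
    have b1 : ¬ (io n y = x ∨ io n y = x + 1) := by unfold io; split_ifs <;> omega
    have b2 : ¬ io n y = 2 * n - 2 - x := by unfold io; split_ifs <;> omega
    have b3 : ¬ io n y = 2 * n - 1 - x := by unfold io; split_ifs <;> omega
    unfold cut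
    rw [if_neg b1, if_neg b2, if_neg b3, io_io]
  · intro a b hab hb
    unfold cut io at hb ⊢
    split_ifs at hb ⊢ <;> omega
  · intro y hy
    unfold cut io at hy
    refine ⟨?_, ?_⟩
    · show y < 2 * n
      split_ifs at hy <;> omega
    · show ¬ y = x
      split_ifs at hy <;> omega
  · intro p hp
    have ne1 : ∀ a ∈ ends T, ¬ (a = x ∨ a = x + 1) := by
      intro a ha r
      have := h.term.fix a ha
      rcases r with r | r
      · rw [r, e] at this; omega
      · rw [r, e'] at this; omega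
    have key : ∀ z, CC σ (io n) p.1 z →
        ((z = x ∨ z = x + 1) → CC σ (cut n x) p.1 (2 * n - 2 - x)) ∧
        (¬ (z = x ∨ z = x + 1) → CC σ (cut n x) p.1 z) := by
      intro z hz
      induction hz with
      | refl => exact ⟨fun r => absurd r (ne1 _ (end_fst hp)), fun _ => Relation.ReflTransGen.refl⟩
      | @tail b c _ hstep ih =>
        rcases hstep with r | r
        · subst r
          have iff1 : (σ b = x ∨ σ b = x + 1) ↔ (b = x ∨ b = x + 1) := by
            constructor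
            · rintro (r | r)
              · right; rw [← hs b, r, e]
              · left; rw [← hs b, r, e']
            · rintro (r | r)
              · right; rw [r, e]
              · left; rw [r, e']
          exact ⟨fun r => ih.1 (iff1.1 r), fun r => cc_s (ih.2 fun r' => r (iff1.2 r'))⟩
        · subst r
          by_cases a1 : b = x ∨ b = x + 1
          · have w := ih.1 a1
            refine ⟨fun _ => w, fun _ => ?_⟩
            rcases a1 with r | r
            · rw [r, io_of_lt hx, ← c1]; exact cc_m w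
            · rw [r, io_of_lt hx1, show 2 * n - 1 - (x + 1) = 2 * n - 2 - x by omega]; exact w
          have w := ih.2 a1
          by_cases a2 : b = 2 * n - 2 - x
          · refine ⟨fun _ => a2 ▸ w, fun r => absurd ?_ r⟩
            right; rw [a2, io_of_lt (by omega)]; omega
          by_cases a3 : b = 2 * n - 1 - x
          · refine ⟨fun _ => ?_, fun r => absurd ?_ r⟩
            · rw [← c2, ← a3]; exact cc_m w
            · left; rw [a3, io_of_lt (by omega)]; omega
          have : cut n x b = io n b := by unfold cut; rw [if_neg a1, if_neg a2, if_neg a3]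
          refine ⟨fun r => absurd r ?_, fun _ => this ▸ cc_m w⟩
          unfold io; split_ifs <;> omega
    exact (key _ (h.route p hp)).2 (ne1 _ (end_snd hp))

theorem cross {k n : ℕ} {σ : ℕ → ℕ} {T : Finset (ℕ × ℕ)} (h : MinI k n σ T) (a b : ℕ)
    (hab : a < b) (hb : b ≤ 2 * n) (hc : ∀ x ∈ Ico a b, σ x ∈ Ico a b ∧ σ x ≠ x) :
    ∃ p ∈ Ico a b, ∃ q ∈ Ico a b, p < q ∧ q < σ p ∧ σ p < σ q := by
  have hs := h.term.inv
  have key : ∀ d p, p ∈ Ico a b → p < σ p → σ p - p = d →
      ∃ p ∈ Ico a b, ∃ q ∈ Ico a b, p < q ∧ q < σ p ∧ σ p < σ q := by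
    intro d
    induction d using Nat.strong_induction_on with
    | _ d ih =>
      intro p hp hlt hd
      have h1 := hc p hp
      have h2 := nohat h p (lt_of_lt_of_le hp.2 hb)
      have hq : p + 1 ∈ Ico a b := ⟨by have := hp.1; omega, by have := h1.1.2; omega⟩
      have h3 := hc _ hq
      have n1 : σ (p + 1) ≠ p := fun e => h2 (by rw [← e, hs]; rw [e])
      have n2 : σ (p + 1) ≠ σ p := fun e => by have := hs.injective e; omega
      by_cases c1 : σ p < σ (p + 1)
      · exact ⟨p, hp, p + 1, hq, by omega, by omega, c1⟩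
      by_cases c2 : σ (p + 1) < p
      · exact ⟨σ (p + 1), h3.1, p, hp, c2, by rw [hs]; omega, by rw [hs]; omega⟩
      have := h3.2
      exact ih (σ (p + 1) - (p + 1)) (by omega) (p + 1) hq (by omega) rfl
  have ha : a ∈ Ico a b := ⟨le_rfl, hab⟩
  have h1 := hc a ha
  exact key _ a ha (lt_of_le_of_ne h1.1.1 h1.2.symm) rfl

theorem cc_conj {n : ℕ} {σ μ : ℕ → ℕ} {a b : ℕ} (h : CC σ μ a b) :
    CC (io n ∘ σ ∘ io n) (io n ∘ μ ∘ io n) (io n a) (io n b) := by
  induction h with
  | refl => exact Relation.ReflTransGen.refl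
  | tail _ hstep ih =>
    refine Relation.ReflTransGen.tail ih ?_
    rcases hstep with r | r
    · left; simp [r, io_io]
    · right; simp [r, io_io]

theorem conj_conj (n : ℕ) (σ : ℕ → ℕ) : io n ∘ (io n ∘ σ ∘ io n) ∘ io n = σ := by
  funext x; simp [io_io]

theorem conj_inv (n : ℕ) {σ : ℕ → ℕ} (hs : Involutive σ) : Involutive (io n ∘ σ ∘ io n) := by
  intro x; simp [io_io, hs _]

theorem refl {k n : ℕ} {σ : ℕ → ℕ} {T : Finset (ℕ × ℕ)} (h : MinI k n σ T) :
    MinI k n (io n ∘ σ ∘ io n) (T.image fun p => (io n p.1, io n p.2)) := by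
  have hs := h.term.inv
  have hi := (io_inv n).injective
  have hend : ∀ a, a ∈ ends (T.image fun p => (io n p.1, io n p.2)) ↔ io n a ∈ ends T := by
    intro a
    constructor
    · rintro ⟨q, hq, r⟩
      obtain ⟨p, hp, rfl⟩ := Finset.mem_image.1 hq
      refine ⟨p, hp, ?_⟩
      rcases r with r | r
      · left; rw [r]; exact io_io _ _
      · right; rw [r]; exact io_io _ _
    · rintro ⟨p, hp, r⟩
      refine ⟨_, Finset.mem_image_of_mem _ hp, ?_⟩
      rcases r with r | r
      · left; rw [← r]; exact (io_io _ _).symm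
      · right; rw [← r]; exact (io_io _ _).symm
  refine ⟨⟨conj_inv n hs, Finset.card_image_le.trans h.term.card, ?_, ?_, ?_⟩, ?_, ?_, ?_, ?_, ?_⟩
  · intro a ha
    have := h.term.fix _ ((hend a).1 ha)
    simp [this, io_io]
  · intro q hq
    obtain ⟨p, hp, rfl⟩ := Finset.mem_image.1 hq
    exact fun e => h.term.ne p hp (hi e)
  · intro q hq q' hq' hne
    obtain ⟨p, hp, rfl⟩ := Finset.mem_image.1 hq
    obtain ⟨p', hp', rfl⟩ := Finset.mem_image.1 hq'
    have := h.term.dis p hp p' hp' (fun e => hne (by rw [e]))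
    exact ⟨fun e => this.1 (hi e), fun e => this.2.1 (hi e), fun e => this.2.2.1 (hi e),
      fun e => this.2.2.2 (hi e)⟩
  · intro x hx
    exact io_lt (h.lt _ (io_lt hx))
  · intro a ha
    have := io_lt (h.elt _ ((hend a).1 ha))
    rwa [io_io] at this
  · intro x hx e
    refine (hend x).2 (h.all _ (io_lt hx) ?_)
    apply hi
    rw [io_io]; exact e
  · intro q hq
    obtain ⟨p, hp, rfl⟩ := Finset.mem_image.1 hq
    have := cc_conj (n := n) (h.route p hp)
    rwa [show io n ∘ io n ∘ io n = io n by funext x; simp [io_io]] at this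
  · rintro ⟨x, hx, μ, hm, hnc, hsup, hcc⟩
    apply h.min
    have hge : ∀ y, ¬ y < 2 * n → μ y = y := by
      intro y hy
      by_contra hc
      exact hy (hsup y hc).1
    have hlt : ∀ y, y < 2 * n → μ y < 2 * n := by
      intro y hy
      by_contra hc
      have := hge _ hc
      rw [hm] at this
      omega
    refine ⟨io n x, io_lt hx, io n ∘ μ ∘ io n, conj_inv n hm, ?_, ?_, ?_⟩
    · intro a b hab hb
      simp only [comp_apply] at hb ⊢
      have ha : a < 2 * n := by
        by_contra hc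
        rw [io_of_ge hc, hge a hc, io_of_ge hc] at hb
        omega
      have l1 := io_lt ha
      have l2 := hlt _ l1
      have l3 := io_lt l2
      have hb2 : b < 2 * n := by omega
      have l4 := hlt _ (io_lt hb2)
      have e1 := io_of_lt ha
      have e2 := io_of_lt hb2
      have e3 := io_of_lt l2
      have e4 := io_of_lt l4
      have := hnc (μ (io n a)) (io n b) (by omega) (by rw [hm]; omega)
      rw [hm] at this
      omega
    · intro y hy
      have h1 : μ (io n y) ≠ io n y := fun e => hy (by simp [e, io_io])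
      have h2 := hsup _ h1
      refine ⟨?_, fun e => h2.2 ?_⟩
      · have := io_lt (show io n y < 2 * n from h2.1)
        rwa [io_io] at this
      · show io n y = x
        rw [show y = io n x from e, io_io]
    · intro p hp
      have := cc_conj (n := n) (hcc _ (Finset.mem_image_of_mem _ hp))
      rwa [conj_conj, io_io, io_io] at this

theorem run {k n : ℕ} {σ : ℕ → ℕ} {T : Finset (ℕ × ℕ)} (h : MinI k n σ T) (w a : ℕ) (hw : 2 ≤ w)
    (hr : Run σ n w a) : (∀ y ∈ Ico a (a + w), σ y ≠ y ∧ σ y ∉ Ico a (a + w)) ∧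
      (((∀ i < w, σ (a + i) = σ a + i) ∧ Run σ n w (σ a)) ∨
        ((∀ i < w, σ (a + i) + i = σ a) ∧ Run σ n w (σ a + 1 - w))) := by
  have hs := h.term.inv
  have hle := hr.1
  have nf : ∀ i < w, σ (a + i) ≠ a + i := by
    intro i hi
    by_cases c : i + 1 < w
    · exact (hr.2 (a + i) (by omega) (by omega)).1
    · have := (hr.2 (a + i - 1) (by omega) (by omega)).2.1
      rwa [show a + i - 1 + 1 = a + i by omega] at this
  have nf' : ∀ i < w, σ (σ (a + i)) ≠ σ (a + i) := fun i hi e => nf i hi (hs.injective e)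
  have two : ∀ i, σ (a + i + 1 + 1) ≠ σ (a + i) := fun i e => by have := hs.injective e; omega
  rcases (hr.2 a le_rfl (by omega)).2.2 with d | d
  · have st : ∀ i, i + 1 < w → σ (a + i + 1) = σ (a + i) + 1 := by
      intro i
      induction i with
      | zero => exact fun _ => d
      | succ i ih =>
        intro hi
        have h1 := ih (by omega)
        have h2 := (hr.2 (a + i + 1) (by omega) (by omega)).2.2
        have h3 := two i
        rw [← add_assoc]
        omega
    have f : ∀ i < w, σ (a + i) = σ a + i := by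
      intro i
      induction i with
      | zero => exact fun _ => rfl
      | succ i ih =>
        intro hi
        have h1 := ih (by omega)
        have h2 := st i hi
        rw [← add_assoc]
        omega
    refine ⟨?_, Or.inl ⟨f, ?_, ?_⟩⟩
    · intro y hy
      obtain ⟨i, rfl⟩ : ∃ i, y = a + i := ⟨y - a, by have := hy.1; omega⟩
      have hi : i < w := by have := hy.2; omega
      refine ⟨nf i hi, fun hh => ?_⟩
      obtain ⟨j, e⟩ : ∃ j, σ (a + i) = a + j := ⟨σ (a + i) - a, by have := hh.1; omega⟩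
      have hj : j < w := by have := hh.2; omega
      have e' : σ (a + j) = a + i := by rw [← e, hs]
      have h1 := f i hi
      have h2 := f j hj
      have h3 := nf i hi
      omega
    · have h1 := f (w - 1) (by omega)
      have h2 := h.lt (a + (w - 1)) (by omega)
      omega
    · intro y h1 h2
      obtain ⟨i, rfl⟩ : ∃ i, y = σ a + i := ⟨y - σ a, by omega⟩
      have e1 := f i (by omega)
      have e2 := f (i + 1) (by omega)
      have n1 := nf' i (by omega)
      have n2 := nf' (i + 1) (by omega)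
      have s1 := hs (a + i)
      have s2 := hs (a + (i + 1))
      rw [e1] at n1 s1
      rw [e2, ← add_assoc] at n2 s2
      exact ⟨n1, n2, Or.inl (by omega)⟩
  · have st : ∀ i, i + 1 < w → σ (a + i) = σ (a + i + 1) + 1 := by
      intro i
      induction i with
      | zero => exact fun _ => d
      | succ i ih =>
        intro hi
        have h1 := ih (by omega)
        have h2 := (hr.2 (a + i + 1) (by omega) (by omega)).2.2
        have h3 := two i
        rw [← add_assoc]
        omega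
    have f : ∀ i < w, σ (a + i) + i = σ a := by
      intro i
      induction i with
      | zero => exact fun _ => rfl
      | succ i ih =>
        intro hi
        have h1 := ih (by omega)
        have h2 := st i hi
        show σ (a + i + 1) + (i + 1) = σ a
        omega
    have hw' := f (w - 1) (by omega)
    refine ⟨?_, Or.inr ⟨f, ?_, ?_⟩⟩
    · intro y hy
      obtain ⟨i, rfl⟩ : ∃ i, y = a + i := ⟨y - a, by have := hy.1; omega⟩
      have hi : i < w := by have := hy.2; omega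
      refine ⟨nf i hi, fun hh => ?_⟩
      obtain ⟨j, e⟩ : ∃ j, σ (a + i) = a + j := ⟨σ (a + i) - a, by have := hh.1; omega⟩
      have hj : j < w := by have := hh.2; omega
      have h1 := f i hi
      have h2 := f ((i + j) / 2) (by omega)
      have h3 := nf ((i + j) / 2) (by omega)
      have h4 := nohat h (a + (i + j) / 2) (by omega)
      omega
    · have h2 := h.lt a (by omega)
      omega
    · intro y h1 h2
      obtain ⟨i, hi⟩ : ∃ i, y + 1 + i = σ a := ⟨σ a - (y + 1), by omega⟩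
      have e1 : σ (a + i) = y + 1 := by have := f i (by omega); omega
      have e2 : σ (a + (i + 1)) = y := by have := f (i + 1) (by omega); omega
      have n1 := nf' i (by omega)
      have n2 := nf' (i + 1) (by omega)
      have s1 := hs (a + i)
      have s2 := hs (a + (i + 1))
      rw [e1] at n1 s1
      rw [e2] at n2 s2
      exact ⟨n2, n1, Or.inr (by omega)⟩

end Min

theorem minS (_h : SimS) : MinS := fun _ _ _ _ h =>
  ⟨Min.acyc h, Min.nohat h, Min.cross h, Min.refl h, Min.run h⟩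

end Pool.Agent.MP_9d78a0_co.fb

end MrgPart0

-- ======== part 1: formerly Pool.Agent.MP_9d78a0_co.fb.B31
section MrgPart1

/-! Chord diagrams: three band lemmas. -/

set_option autoImplicit false

namespace Pool.Agent.MP_9d78a0_co.fb

open Set Function

namespace B31

/-- keys determine the order of the points -/
def Ord (Pos : ℕ → ℕ → Prop) : Prop :=
  (∀ κ y κ' y', Pos κ y → Pos κ' y' → κ < κ' → y < y') ∨
    (∀ κ y κ' y', Pos κ y → Pos κ' y' → κ < κ' → y' < y)

/-- points of a band and points in its gaps -/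
def Pos2 (x : ℕ → ℕ) (M κ y : ℕ) : Prop :=
  (∃ j < M, κ = 2 * j ∧ y = x j) ∨ ∃ j, j + 1 < M ∧ κ = 2 * j + 1 ∧ Btw (x j) (x (j + 1)) y

lemma pos2_pt {x : ℕ → ℕ} {M j κ : ℕ} (h : j < M) (hκ : κ = 2 * j) : Pos2 x M κ (x j) :=
  Or.inl ⟨j, h, hκ, rfl⟩

lemma pos2_gap {x : ℕ → ℕ} {M j κ y : ℕ} (h : j + 1 < M) (hκ : κ = 2 * j + 1)
    (hy : Btw (x j) (x (j + 1)) y) : Pos2 x M κ y := Or.inr ⟨j, h, hκ, hy⟩

lemma pos2_inc {x : ℕ → ℕ} {M : ℕ} (h : ∀ i j, i < j → j < M → x i < x j) (κ y κ' y' : ℕ)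
    (h1 : Pos2 x M κ y) (h2 : Pos2 x M κ' y') (hκ : κ < κ') : y < y' := by
  have hle : ∀ i j, i ≤ j → j < M → x i ≤ x j := fun i j hij hj => by
    rcases hij.eq_or_lt with rfl | h'
    · exact le_rfl
    · exact (h i j h' hj).le
  rcases h1 with ⟨i, hi, rfl, rfl⟩ | ⟨i, hi, rfl, hy⟩ <;>
    rcases h2 with ⟨j, hj, rfl, rfl⟩ | ⟨j, hj, rfl, hy'⟩
  · exact h i j (by omega) hj
  · have := hle i j (by omega) (by omega)
    have := h j (j + 1) (by omega) hj
    unfold Btw at hy'
    omega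
  · have := hle (i + 1) j (by omega) hj
    have := h i (i + 1) (by omega) hi
    unfold Btw at hy
    omega
  · have := hle (i + 1) j (by omega) (by omega)
    have := h i (i + 1) (by omega) hi
    have := h j (j + 1) (by omega) hj
    unfold Btw at hy hy'
    omega

lemma pos2_dec {x : ℕ → ℕ} {M : ℕ} (h : ∀ i j, i < j → j < M → x j < x i) (κ y κ' y' : ℕ)
    (h1 : Pos2 x M κ y) (h2 : Pos2 x M κ' y') (hκ : κ < κ') : y' < y := by
  have hle : ∀ i j, i ≤ j → j < M → x j ≤ x i := fun i j hij hj => by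
    rcases hij.eq_or_lt with rfl | h'
    · exact le_rfl
    · exact (h i j h' hj).le
  rcases h1 with ⟨i, hi, rfl, rfl⟩ | ⟨i, hi, rfl, hy⟩ <;>
    rcases h2 with ⟨j, hj, rfl, rfl⟩ | ⟨j, hj, rfl, hy'⟩
  · exact h i j (by omega) hj
  · have := hle i j (by omega) (by omega)
    have := h j (j + 1) (by omega) hj
    unfold Btw at hy'
    omega
  · have := hle (i + 1) j (by omega) hj
    have := h i (i + 1) (by omega) hi
    unfold Btw at hy
    omega
  · have := hle (i + 1) j (by omega) (by omega)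
    have := h i (i + 1) (by omega) hi
    have := h j (j + 1) (by omega) hj
    unfold Btw at hy hy'
    omega

lemma ord2 {x : ℕ → ℕ} {M : ℕ} (h : Mo x M) : Ord (Pos2 x M) :=
  h.imp (fun h => pos2_inc h) fun h => pos2_dec h

lemma pos2_hull {x : ℕ → ℕ} {M κ y : ℕ} (h : Pos2 x M κ y) : y ∈ hull x M := by
  rcases h with ⟨j, hj, -, rfl⟩ | ⟨j, hj, -, hy | hy⟩
  · exact ⟨j, hj, j, hj, le_rfl, le_rfl⟩
  · exact ⟨j, by omega, j + 1, hj, hy.1.le, hy.2.le⟩
  · exact ⟨j + 1, hj, j, by omega, hy.1.le, hy.2.le⟩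

lemma hull_oc (x : ℕ → ℕ) (M : ℕ) : (hull x M).OrdConnected := by
  refine ⟨?_⟩
  rintro a ⟨i, hi, -, -, h1, -⟩ b ⟨-, -, j, hj, -, h2⟩ c hc
  exact ⟨i, hi, j, hj, h1.trans hc.1, hc.2.trans h2⟩

lemma mo2 {Pos : ℕ → ℕ → Prop} (h : Ord Pos) {Q W : ℕ} {y κ : ℕ → ℕ → ℕ}
    (h1 : ∀ s < Q, ∀ i < W, Pos (κ s i) (y s i))
    (h2 : ∀ s < Q, ∀ i < W, ∀ t < Q, ∀ j < W, s < t ∨ (s = t ∧ i < j) → κ s i < κ t j) :
    Mo2 y Q W :=
  h.imp (fun h s hs i hi t ht j hj hl => h _ _ _ _ (h1 s hs i hi) (h1 t ht j hj)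
      (h2 s hs i hi t ht j hj hl))
    fun h s hs i hi t ht j hj hl => h _ _ _ _ (h1 s hs i hi) (h1 t ht j hj)
      (h2 s hs i hi t ht j hj hl)

lemma caps (h1 : CapS) {Pos : ℕ → ℕ → Prop} (h : Ord Pos) {A : Set ℕ} (hA : A.OrdConnected)
    (hP : ∀ κ y, Pos κ y → y ∈ A) {ι : Type} (I : Set ι) (u v ku : ι → ℕ)
    (hu : ∀ i ∈ I, Pos (ku i) (u i) ∧ Pos (ku i + 1) (v i))
    (hs : ∀ i ∈ I, ∀ j ∈ I, i ≠ j → ku i + 1 < ku j ∨ ku j + 1 < ku i) :
    ∃ ν : ℕ → ℕ, Involutive ν ∧ NC ν ∧ (∀ i ∈ I, ν (u i) = v i ∧ ν (v i) = u i) ∧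
      (∀ x, ν x ≠ x → ∃ i ∈ I, x = u i ∨ x = v i) ∧
      ∀ y, (y ∉ A ∨ ∃ κ, Pos κ y ∧ ∀ i ∈ I, κ ≠ ku i ∧ κ ≠ ku i + 1) →
        ν y = y ∧ ∀ z, z < y → ν z ≤ y := by
  have hne : ∀ i ∈ I, u i ≠ v i := fun i hi => by
    rcases h with h | h <;> have := h _ _ _ _ (hu i hi).1 (hu i hi).2 (by omega) <;> omega
  have hsep : ∀ i ∈ I, ∀ j ∈ I, i ≠ j →
      max (u i) (v i) < min (u j) (v j) ∨ max (u j) (v j) < min (u i) (v i) := by
    intro i hi j hj hij
    rcases hs i hi j hj hij with hk | hk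
    · rcases h with h | h <;>
        have := h _ _ _ _ (hu i hi).1 (hu j hj).1 (by omega) <;>
        have := h _ _ _ _ (hu i hi).1 (hu j hj).2 (by omega) <;>
        have := h _ _ _ _ (hu i hi).2 (hu j hj).1 (by omega) <;>
        have := h _ _ _ _ (hu i hi).2 (hu j hj).2 (by omega) <;> omega
    · rcases h with h | h <;>
        have := h _ _ _ _ (hu j hj).1 (hu i hi).1 (by omega) <;>
        have := h _ _ _ _ (hu j hj).1 (hu i hi).2 (by omega) <;>
        have := h _ _ _ _ (hu j hj).2 (hu i hi).1 (by omega) <;>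
        have := h _ _ _ _ (hu j hj).2 (hu i hi).2 (by omega) <;> omega
  obtain ⟨ν, hi, hn, hv, hsup⟩ := h1 ι I (fun i => min (u i) (v i)) (fun i => max (u i) (v i))
    (fun i hi => by have := hne i hi; omega)
    (fun i hi j hj hij => by
      have := hne i hi; have := hne j hj; have := hsep i hi j hj hij; omega)
    (fun i hi j hj h2 h3 => by
      by_cases hij : i = j
      · subst hij; omega
      · have := hsep i hi j hj hij; omega)
  refine ⟨ν, hi, hn, fun i hi => ?_, fun x hx => ?_, fun y hy => ?_⟩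
  · have h2 := hv i hi
    rcases le_total (u i) (v i) with h3 | h3
    · rwa [min_eq_left h3, max_eq_right h3] at h2
    · rw [min_eq_right h3, max_eq_left h3] at h2
      exact h2.symm
  · obtain ⟨i, hi, h2⟩ := hsup x hx
    exact ⟨i, hi, by omega⟩
  · have hout : ∀ i ∈ I, y < min (u i) (v i) ∨ max (u i) (v i) < y := by
      intro i hi
      rcases hy with hy | ⟨κ, hκ, hk⟩
      · by_contra hc
        rcases le_total (u i) (v i) with h3 | h3
        · exact hy (hA.out (hP _ _ (hu i hi).1) (hP _ _ (hu i hi).2) ⟨by omega, by omega⟩)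
        · exact hy (hA.out (hP _ _ (hu i hi).2) (hP _ _ (hu i hi).1) ⟨by omega, by omega⟩)
      · have h2 := hk i hi
        rcases lt_or_gt_of_ne h2.1 with h3 | h3
        · rcases h with h | h <;>
            have := h _ _ _ _ hκ (hu i hi).1 (by omega) <;>
            have := h _ _ _ _ hκ (hu i hi).2 (by omega) <;> omega
        · rcases h with h | h <;>
            have := h _ _ _ _ (hu i hi).1 hκ (by omega) <;>
            have := h _ _ _ _ (hu i hi).2 hκ (by omega) <;> omega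
    constructor
    · by_contra hc
      obtain ⟨i, hi, h2⟩ := hsup y hc
      have := hout i hi
      omega
    · intro z hz
      by_cases hc : ν z = z
      · omega
      · obtain ⟨i, hi, h2⟩ := hsup z hc
        have h3 := hout i hi
        have h4 := hv i hi
        rcases h2 with h2 | h2
        · rw [h2, h4.1]; omega
        · rw [h2, h4.2]; omega

/-- the statement of the row `B0` for fixed parameters -/
def B0b (k Q : ℕ) : Prop :=
  ∀ (σ ν : ℕ → ℕ) (T : Finset (ℕ × ℕ)) (x ρ : ℕ → ℕ → ℕ) (A A' P : Set ℕ), Term k σ T →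
    Involutive ν → NC ν → (∀ z, ν z ≠ z → z ∈ P) → Mo2 x Q (4 * k + 4) → Mo2 ρ Q (4 * k + 4) →
    A.OrdConnected → A'.OrdConnected → Disjoint A A' → Disjoint (ends T) A →
    Disjoint (ends T) A' → (∀ s < Q, ∀ i < 4 * k + 4, x s i ∈ A ∧ ρ s i ∈ A') →
    (∀ y, (y ∈ ends T ∨ ∃ s < Q, ∃ i < 4 * k + 4, y = x s i ∨ y = ρ s i) →
      y ∈ P ∧ ν y = y ∧ ∀ z, z < y → ν z ≤ y) →
    (∀ s < Q, ∀ i < 4 * k + 4, CC σ ν (x s i) (ρ s (Equiv.swap (2 * k) (2 * k + 1) i))) →
    Good σ T P

lemma master {k Q : ℕ} (hB : B0b k Q) {σ ν : ℕ → ℕ} {T : Finset (ℕ × ℕ)} {M : ℕ} {x : ℕ → ℕ}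
    {P : Set ℕ} (hT : Term k σ T) (hb : Band σ T M x) (hE : ends T ⊆ P)
    {Pos : ℕ → ℕ → Prop} (ho : Ord Pos) (hP : ∀ κ y, Pos κ y → y ∈ hull x M)
    (hi : Involutive ν) (hn : NC ν) (hs : ∀ z, ν z ≠ z → z ∈ P) (x' ρ κ κ' : ℕ → ℕ → ℕ)
    (h1 : ∀ s < Q, ∀ i < 4 * k + 4, Pos (κ s i) (x' s i) ∧ x' s i ∈ P)
    (h2 : ∀ s < Q, ∀ i < 4 * k + 4, Pos2 (σ ∘ x) M (κ' s i) (ρ s i) ∧ ρ s i ∈ P)
    (h3 : ∀ s < Q, ∀ i < 4 * k + 4, ∀ t < Q, ∀ j < 4 * k + 4, s < t ∨ (s = t ∧ i < j) →
      κ s i < κ t j ∧ κ' s i < κ' t j)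
    (hf : ∀ y, (y ∉ hull x M ∨ ∃ s < Q, ∃ i < 4 * k + 4, y = x' s i) →
      ν y = y ∧ ∀ z, z < y → ν z ≤ y)
    (hc0 : ∀ s < Q, ∀ i < 4 * k + 4, i ≠ 2 * k → i ≠ 2 * k + 1 → ρ s i = σ (x' s i))
    (hc1 : ∀ s < Q, CC σ ν (x' s (2 * k)) (ρ s (2 * k + 1)))
    (hc2 : ∀ s < Q, CC σ ν (x' s (2 * k + 1)) (ρ s (2 * k))) : Good σ T P := by
  refine hB σ ν T x' ρ (hull x M) (hull (σ ∘ x) M) P hT hi hn hs
    (mo2 ho (fun s hs i hi => (h1 s hs i hi).1) fun s hs i hi t ht j hj hl =>
      (h3 s hs i hi t ht j hj hl).1)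
    (mo2 (ord2 hb.mo') (fun s hs i hi => (h2 s hs i hi).1) fun s hs i hi t ht j hj hl =>
      (h3 s hs i hi t ht j hj hl).2)
    (hull_oc _ _) (hull_oc _ _) hb.dis hb.noend hb.noend'
    (fun s hs i hi => ⟨hP _ _ (h1 s hs i hi).1, pos2_hull (h2 s hs i hi).1⟩) ?_ ?_
  · rintro y (hy | ⟨s, hs, i, hi, rfl | rfl⟩)
    · exact ⟨hE hy, hf y (Or.inl (Set.disjoint_left.1 hb.noend hy))⟩
    · exact ⟨(h1 s hs i hi).2, hf _ (Or.inr ⟨s, hs, i, hi, rfl⟩)⟩
    · exact ⟨(h2 s hs i hi).2, hf _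
        (Or.inl (Set.disjoint_right.1 hb.dis (pos2_hull (h2 s hs i hi).1)))⟩
  · intro s hs i hi
    by_cases e1 : i = 2 * k
    · rw [e1, Equiv.swap_apply_left]
      exact hc1 s hs
    by_cases e2 : i = 2 * k + 1
    · rw [e2, Equiv.swap_apply_right]
      exact hc2 s hs
    rw [Equiv.swap_apply_of_ne_of_ne e1 e2]
    exact Relation.ReflTransGen.single (Or.inl (hc0 s hs i hi e1 e2))

lemma cc3 {σ ν : ℕ → ℕ} {a b c : ℕ} (h1 : σ a = b) (h2 : ν b = c) : CC σ ν a (σ c) := by
  have e1 : CC σ ν a b := Relation.ReflTransGen.single (Or.inl h1.symm)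
  have e2 : CC σ ν a c := Relation.ReflTransGen.tail e1 (Or.inr h2.symm)
  exact Relation.ReflTransGen.tail e2 (Or.inl rfl)

lemma cc1 {σ ν : ℕ → ℕ} (a : ℕ) : CC σ ν a (σ a) := Relation.ReflTransGen.single (Or.inl rfl)

lemma b40 (h1 : CapS) {k Q : ℕ} (hB : B0b k Q) {σ : ℕ → ℕ} {T : Finset (ℕ × ℕ)} {M : ℕ}
    {x g : ℕ → ℕ} {P : Set ℕ} (hT : Term k σ T) (hb : Band σ T M x) (hS : Sup σ T M x P)
    (Y : ℕ → ℕ → ℕ)
    (hg : ∀ s < Q, 4 * k + 6 ≤ g s ∧ g s + (4 * k + 6) < M)
    (hsp : ∀ s t, s < t → t < Q → g s + (4 * k + 6) ≤ g t)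
    (hY : ∀ s < Q, ∀ m, 1 ≤ m → m ≤ 4 → Btw (x (g s)) (x (g s + 1)) (Y s m) ∧ Y s m ∈ P)
    (hσ : ∀ s < Q, σ (Y s 3) = Y s 1 ∧ σ (Y s 2) = Y s 4)
    (hd : ((∀ i j, i < j → j < M → x i < x j) ∧
        ∀ s < Q, ∀ m m', 1 ≤ m → m < m' → m' ≤ 4 → Y s m < Y s m') ∨
      ((∀ i j, i < j → j < M → x j < x i) ∧
        ∀ s < Q, ∀ m m', 1 ≤ m → m < m' → m' ≤ 4 → Y s m' < Y s m)) : Good σ T P := by
  let Pos : ℕ → ℕ → Prop := fun κ y => (∃ j < M, κ = 5 * j ∧ y = x j) ∨
    ∃ s < Q, ∃ m, 1 ≤ m ∧ m ≤ 4 ∧ κ = 5 * g s + m ∧ y = Y s m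
  have hinj : ∀ s < Q, ∀ t < Q, s = t ∨ g s + (4 * k + 6) ≤ g t ∨ g t + (4 * k + 6) ≤ g s := by
    intro s hs t ht
    rcases lt_trichotomy s t with h | h | h
    · exact Or.inr (Or.inl (hsp s t h ht))
    · exact Or.inl h
    · exact Or.inr (Or.inr (hsp t s h hs))
  have hgap : ∀ s < Q, ∀ m, 1 ≤ m → m ≤ 4 → Pos2 x M (2 * g s + 1) (Y s m) := fun s hs m a b =>
    pos2_gap (by have := hg s hs; omega) rfl (hY s hs m a b).1
  have hgen : ∀ R : ℕ → ℕ → Prop,
      (∀ κ y κ' y', Pos2 x M κ y → Pos2 x M κ' y' → κ < κ' → R y y') →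
      (∀ s < Q, ∀ m m', 1 ≤ m → m < m' → m' ≤ 4 → R (Y s m) (Y s m')) →
      ∀ κ y κ' y', Pos κ y → Pos κ' y' → κ < κ' → R y y' := by
    rintro R hR hR' κ y κ' y' (⟨i, hi, rfl, rfl⟩ | ⟨s, hs, m, a, b, rfl, rfl⟩)
      (⟨j, hj, rfl, rfl⟩ | ⟨t, ht, m', a', b', rfl, rfl⟩) hκ
    · exact hR _ _ _ _ (pos2_pt hi rfl) (pos2_pt hj rfl) (by omega)
    · exact hR _ _ _ _ (pos2_pt hi rfl) (hgap t ht m' a' b') (by omega)
    · exact hR _ _ _ _ (hgap s hs m a b) (pos2_pt hj rfl) (by omega)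
    · rcases hinj s hs t ht with rfl | h
      · exact hR' s hs m m' a (by omega) b'
      · exact hR _ _ _ _ (hgap s hs m a b) (hgap t ht m' a' b') (by omega)
  have ho : Ord Pos := hd.imp (fun h => hgen (fun a b => a < b) (pos2_inc h.1) h.2)
    fun h => hgen (fun a b => b < a) (pos2_dec h.1) h.2
  have hP : ∀ κ y, Pos κ y → y ∈ hull x M := by
    rintro κ y (⟨i, hi, rfl, rfl⟩ | ⟨s, hs, m, a, b, rfl, rfl⟩)
    · exact pos2_hull (pos2_pt hi rfl)
    · exact pos2_hull (hgap s hs m a b)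
  obtain ⟨ν, hi, hn, hv, hsup, hf⟩ := caps h1 ho (hull_oc x M) hP {i : ℕ × Bool | i.1 < Q}
    (fun i => cond i.2 (x (g i.1)) (Y i.1 4)) (fun i => cond i.2 (Y i.1 1) (x (g i.1 + 1)))
    (fun i => cond i.2 (5 * g i.1) (5 * g i.1 + 4))
    (by
      rintro ⟨s, _ | _⟩ hs
      · have := hg s hs
        exact ⟨Or.inr ⟨s, hs, 4, by omega, le_rfl, rfl, rfl⟩,
          Or.inl ⟨g s + 1, by omega, by simp only [cond_false]; omega, rfl⟩⟩
      · have := hg s hs
        exact ⟨Or.inl ⟨g s, by omega, rfl, rfl⟩, Or.inr ⟨s, hs, 1, le_rfl, by omega, rfl, rfl⟩⟩)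
    (by
      rintro ⟨s, c⟩ hs ⟨t, d⟩ ht hne
      rcases hinj s hs t ht with rfl | h
      · cases c <;> cases d <;> simp only [cond_true, cond_false, ne_eq, not_true] at hne ⊢ <;>
          omega
      · cases c <;> cases d <;> simp only [cond_true, cond_false] <;> omega)
  have hpos : ∀ s < Q, ∀ i < 4 * k + 4,
      Pos (if i = 2 * k then 5 * g s + 2 else if i = 2 * k + 1 then 5 * g s + 3
        else 5 * (g s - 2 * k + i))
      (if i = 2 * k then Y s 2 else if i = 2 * k + 1 then Y s 3 else x (g s - 2 * k + i)) := by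
    intro s hs i hi
    have := hg s hs
    split_ifs
    · exact Or.inr ⟨s, hs, 2, by omega, by omega, rfl, rfl⟩
    · exact Or.inr ⟨s, hs, 3, by omega, by omega, rfl, rfl⟩
    · exact Or.inl ⟨_, by omega, rfl, rfl⟩
  refine master hB hT hb hS.1 ho hP hi hn ?_
    (fun s i => if i = 2 * k then Y s 2 else if i = 2 * k + 1 then Y s 3
      else x (g s - 2 * k + i))
    (fun s i => σ (x (g s - 2 * k + i)))
    (fun s i => if i = 2 * k then 5 * g s + 2 else if i = 2 * k + 1 then 5 * g s + 3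
      else 5 * (g s - 2 * k + i))
    (fun s i => 2 * (g s - 2 * k + i)) (fun s hs i hi => ⟨hpos s hs i hi, ?_⟩)
    (fun s hs i hi => ?_) (fun s hs i hi t ht j hj hl => ?_) ?_ (fun s hs i hi e1 e2 => ?_)
    (fun s hs => ?_) (fun s hs => ?_)
  · intro z hz
    obtain ⟨⟨s, c⟩, hs, h2⟩ := hsup z hz
    have := hg s hs
    cases c <;> rcases h2 with rfl | rfl
    · exact (hY s hs 4 (by omega) le_rfl).2
    · exact (hS.2 (g s + 1) (by omega) (by omega)).1
    · exact (hS.2 (g s) (by omega) (by omega)).1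
    · exact (hY s hs 1 le_rfl (by omega)).2
  · have := hg s hs
    split_ifs
    · exact (hY s hs 2 (by omega) (by omega)).2
    · exact (hY s hs 3 (by omega) (by omega)).2
    · exact (hS.2 _ (by omega) (by omega)).1
  · have := hg s hs
    exact ⟨pos2_pt (x := σ ∘ x) (by omega) rfl, (hS.2 _ (by omega) (by omega)).2⟩
  · have := hg s hs
    have := hg t ht
    rcases hl with hl | ⟨rfl, hl⟩
    · have := hsp s t hl ht
      split_ifs <;> omega
    · split_ifs <;> omega
  · rintro y (hy | ⟨s, hs, i, hi, rfl⟩)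
    · exact hf y (Or.inl hy)
    · refine hf _ (Or.inr ⟨_, hpos s hs i hi, ?_⟩)
      rintro ⟨t, c⟩ ht
      have := hg s hs
      have := hg t ht
      rcases hinj s hs t ht with rfl | h <;> cases c <;> simp only [cond_true, cond_false] <;>
        split_ifs <;> omega
  · simp only [if_neg e1, if_neg e2]
  · have := hg s hs
    have e : g s - 2 * k + (2 * k + 1) = g s + 1 := by omega
    simp only [if_true, e]
    exact cc3 (hσ s hs).2 (hv (s, false) hs).1
  · have := hg s hs
    have e : g s - 2 * k + 2 * k = g s := by omega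
    have e' : ¬ (2 * k + 1 = 2 * k) := by omega
    simp only [if_true, if_neg e', e]
    exact cc3 (hσ s hs).1 (hv (s, true) hs).2

end B31

open B31

theorem b40S (h1 : CapS) (h2 : B0S) : B40S := by
  intro k
  obtain ⟨Q, hB⟩ := h2 k
  refine ⟨Q, 4 * k + 6, fun σ T M x g p q P hT hb hS h hsp => ?_⟩
  have hg : ∀ s < Q, 4 * k + 6 ≤ g s ∧ g s + (4 * k + 6) < M := fun s hs =>
    ⟨(h s hs).1, (h s hs).2.1⟩
  rcases hb.mo with hx | hx
  · refine b40 h1 hB hT hb hS
      (fun s m => if m = 1 then p s else if m = 2 then q s else if m = 3 then σ (p s) else σ (q s))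
      hg hsp (fun s hs m a b => ?_) (fun s _ => ?_) (Or.inl ⟨hx, fun s hs m m' a b c => ?_⟩)
    · obtain ⟨-, -, a1, a2, a3, a4, a5, a6, a7, a8, a9⟩ := h s hs
      unfold Btw at a1 a2 ⊢
      have := hx (g s) (g s + 1) (by omega) (by have := hg s hs; omega)
      split_ifs
      · exact ⟨by omega, a6⟩
      · exact ⟨by omega, a8⟩
      · exact ⟨by omega, a7⟩
      · exact ⟨by omega, a9⟩
    · simp [hT.inv (p s)]
    · obtain ⟨-, -, -, -, a3, a4, a5, -⟩ := h s hs
      split_ifs <;> omega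
  · refine b40 h1 hB hT hb hS
      (fun s m => if m = 1 then σ (q s) else if m = 2 then σ (p s) else if m = 3 then q s else p s)
      hg hsp (fun s hs m a b => ?_) (fun s _ => ?_) (Or.inr ⟨hx, fun s hs m m' a b c => ?_⟩)
    · obtain ⟨-, -, a1, a2, a3, a4, a5, a6, a7, a8, a9⟩ := h s hs
      unfold Btw at a1 a2 ⊢
      have := hx (g s) (g s + 1) (by omega) (by have := hg s hs; omega)
      split_ifs
      · exact ⟨by omega, a9⟩
      · exact ⟨by omega, a7⟩
      · exact ⟨by omega, a8⟩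
      · exact ⟨by omega, a6⟩
    · simp [hT.inv (p s)]
    · obtain ⟨-, -, -, -, a3, a4, a5, -⟩ := h s hs
      split_ifs <;> omega

theorem b31S (h1 : CapS) (h2 : B0S) : B31S := by
  intro k
  obtain ⟨Q, hB⟩ := h2 k
  refine ⟨Q, 4 * k + 6, fun σ T M x a c p P hT hb hS h hsp => ?_⟩
  have hg : ∀ s < Q, 4 * k + 6 ≤ a s ∧ a s < c s ∧ c s + (4 * k + 6) < M := fun s hs =>
    ⟨(h s hs).1, (h s hs).2.1, (h s hs).2.2.1⟩
  have hinj : ∀ s < Q, ∀ t < Q, s = t ∨ c s + (4 * k + 6) ≤ a t ∨ c t + (4 * k + 6) ≤ a s := by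
    intro s hs t ht
    rcases lt_trichotomy s t with h | h | h
    · exact Or.inr (Or.inl (hsp s t h ht))
    · exact Or.inl h
    · exact Or.inr (Or.inr (hsp t s h hs))
  obtain ⟨ν, hi, hn, hv, hsup, hf⟩ := caps h1 (ord2 hb.mo) (hull_oc x M)
    (fun _ _ h => pos2_hull h) {s : ℕ | s < Q} (fun s => x (a s)) p (fun s => 2 * a s)
    (fun s hs => by
      have := hg s hs
      exact ⟨pos2_pt (by omega) rfl, pos2_gap (by omega) rfl (h s hs).2.2.2.1⟩)
    (fun s hs t ht hne => by
      have := hg s hs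
      have := hg t ht
      have := hinj s hs t ht
      omega)
  have hpos : ∀ s < Q, ∀ i < 4 * k + 4,
      Pos2 x M (if i < 2 * k then 2 * (a s - 2 * k + i) else if i = 2 * k then 2 * (a s + 1)
        else if i = 2 * k + 1 then 2 * c s + 1 else 2 * (c s + i - 2 * k - 1))
      (if i < 2 * k then x (a s - 2 * k + i) else if i = 2 * k then x (a s + 1)
        else if i = 2 * k + 1 then σ (p s) else x (c s + i - 2 * k - 1)) := by
    intro s hs i hi
    have := hg s hs
    split_ifs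
    · exact pos2_pt (by omega) rfl
    · exact pos2_pt (by omega) rfl
    · exact pos2_gap (by omega) rfl (h s hs).2.2.2.2.1
    · exact pos2_pt (by omega) rfl
  refine master hB hT hb hS.1 (ord2 hb.mo) (fun _ _ h => pos2_hull h) hi hn ?_
    (fun s i => if i < 2 * k then x (a s - 2 * k + i) else if i = 2 * k then x (a s + 1)
        else if i = 2 * k + 1 then σ (p s) else x (c s + i - 2 * k - 1))
    (fun s i => σ (x (if i ≤ 2 * k + 1 then a s - 2 * k + i else c s + i - 2 * k - 1)))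
    (fun s i => if i < 2 * k then 2 * (a s - 2 * k + i) else if i = 2 * k then 2 * (a s + 1)
        else if i = 2 * k + 1 then 2 * c s + 1 else 2 * (c s + i - 2 * k - 1))
    (fun s i => 2 * (if i ≤ 2 * k + 1 then a s - 2 * k + i else c s + i - 2 * k - 1))
    (fun s hs i hi => ⟨hpos s hs i hi, ?_⟩)
    (fun s hs i hi => ?_) (fun s hs i hi t ht j hj hl => ?_) ?_ (fun s hs i hi e1 e2 => ?_)
    (fun s hs => ?_) (fun s hs => ?_)
  · intro z hz
    obtain ⟨s, hs, h2⟩ := hsup z hz
    have := hg s hs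
    rcases h2 with rfl | rfl
    · exact (hS.2 (a s) (by omega) (by omega)).1
    · exact (h s hs).2.2.2.2.2.1
  · have := hg s hs
    split_ifs
    · exact (hS.2 _ (by omega) (by omega)).1
    · exact (hS.2 _ (by omega) (by omega)).1
    · exact (h s hs).2.2.2.2.2.2
    · exact (hS.2 _ (by omega) (by omega)).1
  · have := hg s hs
    exact ⟨pos2_pt (x := σ ∘ x) (by split_ifs <;> omega) rfl,
      (hS.2 _ (by split_ifs <;> omega) (by split_ifs <;> omega)).2⟩
  · have := hg s hs
    have := hg t ht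
    rcases hl with hl | ⟨rfl, hl⟩
    · have := hsp s t hl ht
      split_ifs <;> omega
    · split_ifs <;> omega
  · rintro y (hy | ⟨s, hs, i, hi, rfl⟩)
    · exact hf y (Or.inl hy)
    · refine hf _ (Or.inr ⟨_, hpos s hs i hi, fun t ht => ?_⟩)
      have := hg s hs
      have := hg t ht
      rcases hinj s hs t ht with rfl | h <;> split_ifs <;> omega
  · split_ifs <;> first | rfl | omega
  · have := hg s hs
    have e : a s - 2 * k + (2 * k + 1) = a s + 1 := by omega
    simp only [lt_irrefl, if_false, if_true, le_refl, e]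
    exact cc1 _
  · have := hg s hs
    have e : a s - 2 * k + 2 * k = a s := by omega
    have e1 : ¬ (2 * k + 1 = 2 * k) := by omega
    have e2 : ¬ (2 * k + 1 < 2 * k) := by omega
    have e3 : 2 * k ≤ 2 * k + 1 := by omega
    simp only [if_true, if_neg e1, if_neg e2, if_pos e3, e]
    exact cc3 (hT.inv (p s)) (hv s hs).2

theorem bxS (h2 : B0S) : BxS := by
  intro k
  obtain ⟨Q, hB⟩ := h2 k
  refine ⟨Q, 4 * k + 6, fun σ T M x g γ u P hT hb hS h hsp => ?_⟩
  have hg : ∀ s < Q, 4 * k + 6 ≤ min (g s) (γ s) ∧ g s ≠ γ s ∧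
      max (g s) (γ s) + (4 * k + 6) < M := fun s hs => ⟨(h s hs).1, (h s hs).2.1, (h s hs).2.2.1⟩
  refine master (ν := id) hB hT hb hS.1 (ord2 hb.mo) (fun _ _ h => pos2_hull h)
    (fun _ => rfl) (fun a b h1 h2 => absurd (h1.trans h2) (lt_irrefl _)) (fun _ hz => absurd rfl hz)
    (fun s i => if i < 2 * k then x (min (g s) (γ s) + 1 - 2 * k + i)
      else if 2 * k + 2 ≤ i then x (max (g s) (γ s) + i - 2 * k - 1)
      else if g s < γ s then (if i = 2 * k then u s else x (g s + 1))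
      else (if i = 2 * k then x (g s) else u s))
    (fun s i => if i < 2 * k then σ (x (min (g s) (γ s) + 1 - 2 * k + i))
      else if 2 * k + 2 ≤ i then σ (x (max (g s) (γ s) + i - 2 * k - 1))
      else if g s < γ s then (if i = 2 * k then σ (x (g s + 1)) else σ (u s))
      else (if i = 2 * k then σ (u s) else σ (x (g s))))
    (fun s i => if i < 2 * k then 2 * (min (g s) (γ s) + 1 - 2 * k + i)
      else if 2 * k + 2 ≤ i then 2 * (max (g s) (γ s) + i - 2 * k - 1)
      else if g s < γ s then (if i = 2 * k then 2 * g s + 1 else 2 * (g s + 1))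
      else (if i = 2 * k then 2 * g s else 2 * g s + 1))
    (fun s i => if i < 2 * k then 2 * (min (g s) (γ s) + 1 - 2 * k + i)
      else if 2 * k + 2 ≤ i then 2 * (max (g s) (γ s) + i - 2 * k - 1)
      else if g s < γ s then (if i = 2 * k then 2 * (g s + 1) else 2 * γ s + 1)
      else (if i = 2 * k then 2 * γ s + 1 else 2 * g s))
    (fun s hs i hi => ?_) (fun s hs i hi => ?_) (fun s hs i hi t ht j hj hl => ?_)
    (fun y _ => ⟨rfl, fun z hz => hz.le⟩) (fun s hs i hi e1 e2 => ?_)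
    (fun s hs => ?_) (fun s hs => ?_)
  · have := hg s hs
    obtain ⟨-, -, -, a1, -, a3, -⟩ := h s hs
    split_ifs
    · exact ⟨pos2_pt (by omega) rfl, (hS.2 _ (by omega) (by omega)).1⟩
    · exact ⟨pos2_pt (by omega) rfl, (hS.2 _ (by omega) (by omega)).1⟩
    · exact ⟨pos2_gap (by omega) rfl a1, a3⟩
    · exact ⟨pos2_pt (by omega) rfl, (hS.2 _ (by omega) (by omega)).1⟩
    · exact ⟨pos2_pt (by omega) rfl, (hS.2 _ (by omega) (by omega)).1⟩
    · exact ⟨pos2_gap (by omega) rfl a1, a3⟩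
  · have := hg s hs
    obtain ⟨-, -, -, -, a2, -, a4⟩ := h s hs
    split_ifs
    · exact ⟨pos2_pt (x := σ ∘ x) (by omega) rfl, (hS.2 _ (by omega) (by omega)).2⟩
    · exact ⟨pos2_pt (x := σ ∘ x) (by omega) rfl, (hS.2 _ (by omega) (by omega)).2⟩
    · exact ⟨pos2_pt (x := σ ∘ x) (by omega) rfl, (hS.2 _ (by omega) (by omega)).2⟩
    · exact ⟨pos2_gap (x := σ ∘ x) (by omega) rfl a2, a4⟩
    · exact ⟨pos2_gap (x := σ ∘ x) (by omega) rfl a2, a4⟩
    · exact ⟨pos2_pt (x := σ ∘ x) (by omega) rfl, (hS.2 _ (by omega) (by omega)).2⟩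
  · have := hg s hs
    have := hg t ht
    rcases hl with hl | ⟨rfl, hl⟩
    · have := hsp s t hl ht
      split_ifs <;> omega
    · split_ifs <;> omega
  · split_ifs <;> first | rfl | omega
  · have e1 : ¬ (2 * k + 1 = 2 * k) := by omega
    have e2 : ¬ (2 * k + 1 < 2 * k) := by omega
    have e3 : ¬ (2 * k + 2 ≤ 2 * k + 1) := by omega
    have e4 : ¬ (2 * k + 2 ≤ 2 * k) := by omega
    simp only [lt_irrefl, if_false, if_true, if_neg e1, if_neg e2, if_neg e3, if_neg e4]
    split_ifs <;> exact cc1 _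
  · have e1 : ¬ (2 * k + 1 = 2 * k) := by omega
    have e2 : ¬ (2 * k + 1 < 2 * k) := by omega
    have e3 : ¬ (2 * k + 2 ≤ 2 * k + 1) := by omega
    have e4 : ¬ (2 * k + 2 ≤ 2 * k) := by omega
    simp only [lt_irrefl, if_false, if_true, if_neg e1, if_neg e2, if_neg e3, if_neg e4]
    split_ifs <;> exact cc1 _

end Pool.Agent.MP_9d78a0_co.fb

end MrgPart1

-- marker of a merged file
example : 731051 + 331289 = 731051 + 331289 := rfl
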