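import Pool.Agent.MP_9d78a0_co.fb.S2
import Pool.Agent.MP_9d78a0_co.pl.Step

-- ======== part 0: formerly Pool.Agent.MP_9d78a0_co.fb.Rep
section MrgPart0

/-! Replacing intervals in a vital linkage, and the number of children of a lane. -/

set_option autoImplicit false

namespace Pool.Agent.MP_9d78a0_co.fb

open Set Function

theorem repS : RepS := by
  intro k len E ι P Y hV hP hD hY
  let Q : Fin k → Set (Vx k) := fun i =>
    {v | (v.1 = i ∧ v.2 ≤ len i ∧ ∀ b, v ∉ (P b).set) ∨ ∃ b, (P b).p = i ∧ v ∈ Y b}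
  have hYQ : ∀ b i, (P b).p = i → Y b ⊆ Q i := fun b i e v hv => Or.inr ⟨b, e, hv⟩
  have hlo : ∀ b i p, (i, p) ∈ (P b).set → p ≤ (P b).lo → (i, p) ∈ Y b := fun b i p h h' => by
    obtain ⟨h1, h2, -⟩ := h
    have e : (i, p) = ((P b).p, (P b).lo) := Prod.ext h1 (le_antisymm h' h2)
    exact e ▸ (hY b).2.1
  have hhi : ∀ b i p, (i, p) ∈ (P b).set → (P b).hi ≤ p → (i, p) ∈ Y b := fun b i p h h' => by
    obtain ⟨h1, -, h2⟩ := h
    have e : (i, p) = ((P b).p, (P b).hi) := Prod.ext h1 (le_antisymm h2 h')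
    exact e ▸ (hY b).2.2.1
  have H : ∀ i p, p ≤ len i → (∀ b, (i, p) ∈ (P b).set → Link E (Q i) (i, 0) (i, (P b).lo)) ∧
      ((∀ b, (i, p) ∉ (P b).set) → Link E (Q i) (i, 0) (i, p)) := by
    intro i p
    induction p with
    | zero =>
      refine fun _ => ⟨fun b hb => ?_, fun _ => Link.refl _ _ _⟩
      rw [Nat.le_zero.1 hb.2.1]
      exact Link.refl _ _ _
    | succ p ih =>
      intro hp
      obtain ⟨ih1, ih2⟩ := ih (by omega)
      have K : (∀ b, (i, p) ∈ (P b).set → (i, p + 1) ∉ (P b).set) → (i, p + 1) ∈ Q i →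
          Link E (Q i) (i, 0) (i, p + 1) := by
        intro h1 h2
        by_cases c : ∃ b, (i, p) ∈ (P b).set
        · obtain ⟨b, hb⟩ := c
          have a1 : (P b).hi ≤ p := by
            by_contra c'
            exact h1 b hb ⟨hb.1, hb.2.1.trans (Nat.le_succ p), not_le.1 c'⟩
          have a2 := hhi b i p hb a1
          have a3 : (i, (P b).lo) ∈ Y b := hlo b i _ ⟨hb.1, le_rfl, (hP b).1⟩ le_rfl
          have a4 := hYQ b i hb.1.symm
          exact ((ih1 b hb).trans (((hY b).1.2 _ a3 _ a2).mono a4)).trans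
            (Link.single (a4 a2) h2 (hV.path i p hp))
        · have c' : ∀ b, (i, p) ∉ (P b).set := fun b hb => c ⟨b, hb⟩
          exact (ih2 c').trans
            (Link.single (Or.inl ⟨rfl, Nat.le_of_succ_le hp, c'⟩) h2 (hV.path i p hp))
      refine ⟨fun b hb => ?_, fun h => K (fun b _ => h b) (Or.inl ⟨rfl, hp, h⟩)⟩
      by_cases c : (P b).lo ≤ p
      · exact ih1 b ⟨hb.1, c, (Nat.le_succ p).trans hb.2.2⟩
      · have e : (P b).lo = p + 1 := le_antisymm hb.2.1 (not_le.1 c)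
        rw [e]
        refine K (fun b' h1 h2 => ?_) (hYQ b i hb.1.symm (hlo b i _ hb e.ge))
        by_cases e' : b = b'
        · subst e'
          exact c h1.2.1
        · exact disjoint_left.1 (hD b b' e').1 hb h2
  have h0 : ∀ i, (i, 0) ∈ Q i := fun i => by
    by_cases c : ∃ b, (i, 0) ∈ (P b).set
    · obtain ⟨b, hb⟩ := c
      exact hYQ b i hb.1.symm (hlo b i 0 hb (Nat.zero_le _))
    · exact Or.inl ⟨rfl, Nat.zero_le _, fun b hb => c ⟨b, hb⟩⟩
  have h1 : ∀ i, (i, len i) ∈ Q i := fun i => by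
    by_cases c : ∃ b, (i, len i) ∈ (P b).set
    · obtain ⟨b, hb⟩ := c
      have e : i = (P b).p := hb.1
      exact hYQ b i e.symm (hhi b i _ hb (e ▸ (hP b).2))
    · exact Or.inl ⟨rfl, le_rfl, fun b hb => c ⟨b, hb⟩⟩
  have hU := hV.uniq Q (fun i => ⟨?_, conn_of_center (h0 i) ?_, h0 i, h1 i⟩) ?_
  · intro b v hv
    have a1 : v.2 ≤ len v.1 := hv.1 ▸ hv.2.2.trans (hP b).2
    rcases hU v.1 v.2 a1 with h | h
    · exact absurd hv (h.2.2 b)
    · exact h
  · rintro v (hv | ⟨b, -, hv⟩)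
    · exact show v.2 ≤ len v.1 from hv.1 ▸ hv.2.1
    · obtain ⟨b', hb⟩ := (hY b).2.2.2 v hv
      exact show v.2 ≤ len v.1 from hb.1 ▸ hb.2.2.trans (hP b').2
  · rintro ⟨j, p⟩ (⟨rfl, h2, h3⟩ | ⟨b, rfl, hv⟩)
    · exact (H _ p h2).2 h3
    · exact ((H _ _ ((hP b).1.trans (hP b).2)).1 b ⟨rfl, le_rfl, (hP b).1⟩).trans
        (((hY b).1.2 _ (hY b).2.1 _ hv).mono (hYQ b _ rfl))
  · intro i j hij
    refine disjoint_left.2 ?_
    rintro v (hv | ⟨b, e, hv⟩) (hv' | ⟨b', e', hv'⟩)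
    · exact hij (hv.1.symm.trans hv'.1)
    · obtain ⟨c, hc⟩ := (hY b').2.2.2 v hv'
      exact hv.2.2 c hc
    · obtain ⟨c, hc⟩ := (hY b).2.2.2 v hv
      exact hv'.2.2 c hc
    · exact disjoint_left.1 (hD b b' fun h => hij (e.symm.trans (h ▸ e'))).2 hv hv'

namespace Rep

variable {k : ℕ} {len : Fin k → ℕ} {E : SimpleGraph (Vx k)}

/-- the interval between two positions -/
def btw (r : Fin k) (s t : ℕ) : Iv k := ⟨r, min s t, max s t⟩

theorem mem_btw {r : Fin k} {s t : ℕ} {v : Vx k} :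
    v ∈ (btw r s t).set ↔ v.1 = r ∧ min s t ≤ v.2 ∧ v.2 ≤ max s t := Iff.rfl

theorem conn_btw (hV : Vital len E) {r : Fin k} {s t : ℕ} (hs : s ≤ len r) (ht : t ≤ len r) :
    Conn E (btw r s t).set := by
  have e : (btw r s t).set = (fun j => (r, j)) '' Icc (min s t) (max s t) := by
    ext ⟨a, b⟩
    constructor
    · rintro ⟨rfl, h⟩
      exact ⟨b, h, rfl⟩
    · rintro ⟨j, h, e⟩
      obtain ⟨rfl, rfl⟩ := Prod.mk.inj e
      exact ⟨rfl, h⟩
  rw [e]
  exact conn_seg min_le_max fun i _ h => hV.path r i (by omega)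

theorem conn_two (hV : Vital len E) {r : Fin k} {s t : ℕ} (hs : s ≤ len r) (ht : t ≤ len r)
    {w w' : Vx k} (h : E.Adj w (r, s)) (h' : E.Adj w' (r, t)) :
    Conn E (insert w (insert w' (btw r s t).set)) :=
  ((conn_btw hV hs ht).insert (x := (r, t)) ⟨rfl, min_le_right _ _, le_max_right _ _⟩ h').insert
    (x := (r, s)) (Or.inr ⟨rfl, min_le_left _ _, le_max_left _ _⟩) h

theorem ends {r : Fin k} {s t : ℕ} {S : Set (Vx k)} :
    ((btw r s t).p, (btw r s t).lo) ∈ insert (r, s) (insert (r, t) S) ∧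
      ((btw r s t).p, (btw r s t).hi) ∈ insert (r, s) (insert (r, t) S) := by
  rcases le_total s t with h | h
  · simp [btw, h]
  · simp [btw, h]

/-- no chord of a path -/
theorem chord (h : RepS) (hV : Vital len E) {r : Fin k} {s t : ℕ} (hs : s ≤ len r)
    (ht : t ≤ len r) (e : E.Adj (r, s) (r, t)) : s ≤ t + 1 ∧ t ≤ s + 1 := by
  by_contra c
  obtain ⟨-, -, hb⟩ := h k len E Unit (fun _ => btw r s t) (fun _ => {(r, s), (r, t)}) hV
    (fun _ => ⟨min_le_max, max_le hs ht⟩) (fun _ _ n => absurd rfl n)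
    (fun _ => ⟨conn_pair e, by
      rcases le_total s t with h | h <;> simp [btw, h], by
      rcases le_total s t with h | h <;> simp [btw, h], by
      rintro v (rfl | rfl)
      · exact ⟨(), rfl, min_le_left _ _, le_max_left _ _⟩
      · exact ⟨(), rfl, min_le_right _ _, le_max_right _ _⟩⟩) () (r, min s t + 1)
    ⟨rfl, Nat.le_succ _, show min s t + 1 ≤ max s t by omega⟩
  rcases hb with hb | hb <;> have := (Prod.mk.inj hb).2 <;> omega

/-- no crossing of two paths -/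
theorem cross (h : RepS) (hV : Vital len E) {p q : Fin k} (hpq : p ≠ q)
    {u0 u1 u2 u3 x0 x3 y1 y2 : ℕ} (h0 : u0 ≤ len p) (h3 : u3 ≤ len p) (hy : y2 ≤ len q)
    (hu : (u0 < u1 ∧ u1 < u2 ∧ u2 < u3) ∨ (u1 < u0 ∧ u2 < u1 ∧ u3 < u2))
    (hx : y1 < x0 ∧ y1 < x3 ∧ x0 < y2 ∧ x3 < y2) (e0 : E.Adj (p, u0) (q, x0))
    (e3 : E.Adj (p, u3) (q, x3)) (e1 : E.Adj (q, y1) (p, u1)) (e2 : E.Adj (q, y2) (p, u2)) :
    False := by
  have hd : Disjoint (btw p u0 u3).set (btw q y1 y2).set :=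
    disjoint_left.2 fun v a b => hpq (a.1.symm.trans b.1)
  have hd' : Disjoint (insert (p, u0) (insert (p, u3) (btw q x0 x3).set))
      (insert (q, y1) (insert (q, y2) (btw p u1 u2).set)) := by
    refine disjoint_left.2 ?_
    rintro ⟨a, b⟩ c d
    simp only [mem_insert_iff, mem_btw, Prod.mk.injEq] at c d
    rcases c with ⟨rfl, c⟩ | ⟨rfl, c⟩ | ⟨rfl, c⟩ <;> rcases d with ⟨d, d'⟩ | ⟨d, d'⟩ | ⟨d, d'⟩ <;>
      first | exact hpq d | exact hpq d.symm | omega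
  obtain ⟨b, hb, hb'⟩ := h k len E Bool (fun b => cond b (btw p u0 u3) (btw q y1 y2))
    (fun b => cond b (insert (p, u0) (insert (p, u3) (btw q x0 x3).set))
      (insert (q, y1) (insert (q, y2) (btw p u1 u2).set))) hV
    (by
      rintro (_ | _)
      · exact ⟨min_le_max, max_le (show y1 ≤ len q by omega) hy⟩
      · exact ⟨min_le_max, max_le h0 h3⟩)
    (by
      rintro (_ | _) (_ | _) n
      · exact absurd rfl n
      · exact ⟨hd.symm, hd'.symm⟩
      · exact ⟨hd, hd'⟩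
      · exact absurd rfl n)
    (by
      rintro (_ | _)
      · refine ⟨conn_two hV (by omega) (by omega) e1 e2, ends.1, ends.2, ?_⟩
        rintro v (rfl | rfl | hv)
        · exact ⟨false, rfl, min_le_left _ _, le_max_left _ _⟩
        · exact ⟨false, rfl, min_le_right _ _, le_max_right _ _⟩
        · rw [mem_btw] at hv
          exact ⟨true, mem_btw.2 ⟨hv.1, by omega, by omega⟩⟩
      · refine ⟨conn_two hV (by omega) (by omega) e0 e3, ends.1, ends.2, ?_⟩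
        rintro v (rfl | rfl | hv)
        · exact ⟨true, rfl, min_le_left _ _, le_max_left _ _⟩
        · exact ⟨true, rfl, min_le_right _ _, le_max_right _ _⟩
        · rw [mem_btw] at hv
          exact ⟨false, mem_btw.2 ⟨hv.1, by omega, by omega⟩⟩)
    true (p, u1) (mem_btw.2 ⟨rfl, show min u0 u3 ≤ u1 by omega, show u1 ≤ max u0 u3 by omega⟩)
  cases b
  · exact hpq (Eq.symm hb)
  · simp only [cond_true, mem_insert_iff, mem_btw, Prod.mk.injEq] at hb'
    rcases hb' with c | c | c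
    · omega
    · omega
    · exact hpq c.1

theorem apart {L : ℕ → Iv k} {i a b : ℕ} (hI : Ivs len L i) (ha : a < i) (hb : b < i)
    (n : a ≠ b) (e : (L a).p = (L b).p) : (L a).hi < (L b).lo ∨ (L b).hi < (L a).lo := by
  by_contra c
  have h1 := (hI.1 a ha).1
  have h2 := (hI.1 b hb).1
  have m1 : ((L a).p, max (L a).lo (L b).lo) ∈ (L a).set :=
    ⟨rfl, le_max_left _ _, show max _ _ ≤ _ by omega⟩
  have m2 : ((L a).p, max (L a).lo (L b).lo) ∈ (L b).set :=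
    ⟨e, le_max_right _ _, show max _ _ ≤ _ by omega⟩
  exact disjoint_left.1 (hI.2 a ha b hb n) m1 m2

theorem three (h : RepS) (hV : Vital len E) {i T a b1 b2 b3 : ℕ} {L : ℕ → Iv k} {tm : Vx k → ℕ}
    (hT : 4 ≤ T) (hI : Ivs len L i) (ht : Timed (L a) tm T) (ha : a < i) (h3 : b3 < i)
    (n : (L a).p ≠ (L b2).p) (p1 : (L b1).p = (L b2).p) (p3 : (L b3).p = (L b2).p)
    (o1 : (L b1).hi < (L b2).lo) (o3 : (L b2).hi < (L b3).lo)
    (r1 : Rungs E (L b1) (L a) tm T) (r2 : Rungs E (L b2) (L a) tm T)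
    (r3 : Rungs E (L b3) (L a) tm T) : False := by
  obtain ⟨⟨_, x0⟩, ⟨rfl, a0⟩, ⟨_, u0⟩, ⟨rfl, c0⟩, -, t0, e0⟩ := r2 0 (by omega)
  obtain ⟨⟨_, x3⟩, ⟨rfl, a3⟩, ⟨_, u3⟩, ⟨rfl, c3⟩, -, t3, e3⟩ := r2 3 (by omega)
  obtain ⟨⟨_, y1⟩, ⟨rfl, a1⟩, ⟨_, u1⟩, ⟨rfl, c1⟩, -, t1, e1⟩ := r1 1 (by omega)
  obtain ⟨⟨_, y2⟩, ⟨rfl, a2⟩, ⟨_, u2⟩, ⟨rfl, c2⟩, -, t2, e2⟩ := r3 2 (by omega)
  have l1 := (hI.1 a ha).2
  have l2 := (hI.1 b3 h3).2
  rw [p3] at l2 e2
  rw [p1] at e1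
  simp only at a0 a1 a2 a3 c0 c1 c2 c3
  refine cross h hV n (by omega) (by omega) (by omega) ?_ (by omega) e0.symm e3.symm e1 e2
  rcases ht.2 with m | m
  · refine Or.inl ⟨not_le.1 fun c => ?_, not_le.1 fun c => ?_, not_le.1 fun c => ?_⟩
    · have := m ((L a).p, u1) ⟨rfl, c1⟩ ((L a).p, u0) ⟨rfl, c0⟩ c
      omega
    · have := m ((L a).p, u2) ⟨rfl, c2⟩ ((L a).p, u1) ⟨rfl, c1⟩ c
      omega
    · have := m ((L a).p, u3) ⟨rfl, c3⟩ ((L a).p, u2) ⟨rfl, c2⟩ c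
      omega
  · refine Or.inr ⟨not_le.1 fun c => ?_, not_le.1 fun c => ?_, not_le.1 fun c => ?_⟩
    · have := m ((L a).p, u0) ⟨rfl, c0⟩ ((L a).p, u1) ⟨rfl, c1⟩ c
      omega
    · have := m ((L a).p, u1) ⟨rfl, c1⟩ ((L a).p, u2) ⟨rfl, c2⟩ c
      omega
    · have := m ((L a).p, u2) ⟨rfl, c2⟩ ((L a).p, u3) ⟨rfl, c3⟩ c
      omega

theorem other (h : RepS) (hV : Vital len E) {i T a b : ℕ} {L : ℕ → Iv k} {tm : Vx k → ℕ}
    (hT : 4 ≤ T) (hI : Ivs len L i) (ha : a < i) (hb : b < i) (n : b ≠ a)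
    (r : Rungs E (L b) (L a) tm T) : (L a).p ≠ (L b).p := by
  intro e
  obtain ⟨⟨_, x0⟩, ⟨rfl, a0⟩, ⟨_, u0⟩, ⟨rfl, c0⟩, -, t0, e0⟩ := r 0 (by omega)
  obtain ⟨⟨_, x1⟩, ⟨rfl, a1⟩, ⟨_, u1⟩, ⟨rfl, c1⟩, -, t1, e1⟩ := r 1 (by omega)
  have l1 := (hI.1 a ha).2
  have l2 := (hI.1 b hb).2
  have n' : u0 ≠ u1 := fun c => by rw [c] at t0; omega
  have o := apart hI ha hb n.symm e
  rw [e] at e0 e1 l1
  simp only at a0 a1 c0 c1
  have d0 := chord h hV (by omega) (by omega) e0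
  have d1 := chord h hV (by omega) (by omega) e1
  omega

end Rep

theorem starS (h : RepS) : StarS := by
  classical
  intro k len E i T L tm a hV hT hI ht ha
  have e : {b | b < i ∧ b ≠ a ∧ Rungs E (L b) (L a) tm T} =
      ↑((Finset.range i).filter fun b => b ≠ a ∧ Rungs E (L b) (L a) tm T) := by
    ext b; simp
  rw [e, ncard_coe_finset]
  have key := Finset.card_le_mul_card_image_of_maps_to (f := fun b => (L b).p)
    (s := (Finset.range i).filter fun b => b ≠ a ∧ Rungs E (L b) (L a) tm T)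
    (t := Finset.univ) (fun _ _ => Finset.mem_univ _) 2 ?_
  · simpa using key
  intro q _
  by_contra c
  obtain ⟨b1, b2, b3, m1, m2, m3, n12, n13, n23⟩ := Finset.two_lt_card_iff.1 (not_le.1 c)
  simp only [Finset.mem_filter, Finset.mem_range] at m1 m2 m3
  obtain ⟨⟨i1, a1, r1⟩, p1⟩ := m1
  obtain ⟨⟨i2, a2, r2⟩, p2⟩ := m2
  obtain ⟨⟨i3, a3, r3⟩, p3⟩ := m3
  have T3 := fun {b1 b2 b3 : ℕ} (j2 : b2 < i) (j3 : b3 < i) (c2 : b2 ≠ a) (q1 : (L b1).p = q)
    (q2 : (L b2).p = q) (q3 : (L b3).p = q) (s1 : Rungs E (L b1) (L a) tm T)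
    (s2 : Rungs E (L b2) (L a) tm T) (s3 : Rungs E (L b3) (L a) tm T)
    (o1 : (L b1).hi < (L b2).lo) (o3 : (L b2).hi < (L b3).lo) =>
    Rep.three h hV hT hI (ht a ha) ha j3 (Rep.other h hV hT hI ha j2 c2 s2) (q1.trans q2.symm)
      (q3.trans q2.symm) o1 o3 s1 s2 s3
  rcases Rep.apart hI i1 i2 n12 (p1.trans p2.symm) with o12 | o12 <;>
    rcases Rep.apart hI i1 i3 n13 (p1.trans p3.symm) with o13 | o13 <;>
    rcases Rep.apart hI i2 i3 n23 (p2.trans p3.symm) with o23 | o23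
  · exact T3 i2 i3 a2 p1 p2 p3 r1 r2 r3 o12 o23
  · exact T3 i3 i2 a3 p1 p3 p2 r1 r3 r2 o13 o23
  · exact T3 i2 i3 a2 p1 p2 p3 r1 r2 r3 o12 o23
  · exact T3 i1 i2 a1 p3 p1 p2 r3 r1 r2 o13 o12
  · exact T3 i1 i3 a1 p2 p1 p3 r2 r1 r3 o12 o13
  · exact T3 i1 i3 a1 p2 p1 p3 r2 r1 r3 o12 o13
  · exact T3 i3 i1 a3 p2 p3 p1 r2 r3 r1 o23 o13
  · exact T3 i2 i1 a2 p3 p2 p1 r3 r2 r1 o23 o12

end Pool.Agent.MP_9d78a0_co.fb

end MrgPart0

-- ======== part 1: formerly Pool.Agent.MP_9d78a0_co.fb.S4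
section MrgPart1

/-! The application: definitions and the statements of part 4. -/

set_option autoImplicit false

namespace Pool.Agent.MP_9d78a0_co.fb

open Set Function

section defs

variable {V : Type}

/-- no large clique minor -/
def KF (h : ℕ) (G : SimpleGraph V) : Prop := ¬ IsMinor (⊤ : SimpleGraph (Fin (h + 2))) G

/-- all minors are sparse -/
def Sparse (c : ℕ) (G : SimpleGraph V) : Prop :=
  ∀ (U : Type) [Finite U] (H : SimpleGraph U), IsMinor H G → dd H ≤ c * Nat.card U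

/-- the outer neighbours of a set -/
def nbs (G : SimpleGraph V) (P : Set V) : Set V := {z | z ∉ P ∧ ∃ x ∈ P, G.Adj x z}

/-- the number of ordered adjacent pairs with an end in a set -/
noncomputable def eAt (G : SimpleGraph V) (R : Set V) : ℕ :=
  {p : V × V | G.Adj p.1 p.2 ∧ (p.1 ∈ R ∨ p.2 ∈ R)}.ncard

/-- all members have at most `s` vertices -/
def Bd (F : Family) (s : ℕ) : Prop := ∀ H ∈ F, H.1 ≤ s

/-- no member of the family has a model inside `S` -/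
def FreeOn (F : Family) (G : SimpleGraph V) (S : Set V) : Prop :=
  ∀ H ∈ F, ∀ B, ¬ Model H.2 G S B

/-- `Y` is irrelevant for all graphs that agree with `G` at `Z` -/
def Irr (s : ℕ) (G : SimpleGraph V) (Z Y : Set V) : Prop :=
  ∀ (G' : SimpleGraph V) (S : Set V) (k : ℕ) (H : SimpleGraph (Fin k)) (B : Fin k → Set V),
    k ≤ s → Z ⊆ S → (∀ z ∈ Z, ∀ x, G'.Adj z x ↔ G.Adj z x) → Model H G' S B →
    ∃ B', Model H G' (S \ Y) B'

/-- a set that contains an irrelevant vertex -/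
def Zone (s : ℕ) (G : SimpleGraph V) (W : Set V) : Prop :=
  ∃ (Win : Set V) (w : V), Win ⊆ W ∧ w ∈ Win ∧ Irr s G Win {w} ∧ ∀ x ∈ Win, Irr s G W {w, x}

/-- `q` disjoint sets that hang on a connected subset `M` of `X` and are separated by `A ∪ M` -/
def Zs (ok : Set V → Prop) (a q : ℕ) (G : SimpleGraph V) (X : Set V) : Prop :=
  ∃ (A M : Set V) (W : Fin q → Set V), A.ncard ≤ a ∧ M ⊆ X ∧ Conn G M ∧ Disjoint A M ∧
    (∀ i j, i ≠ j → Disjoint (W i) (W j)) ∧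
    (∀ j, ∀ x ∈ W j, ∃ m ∈ M, m ∈ W j ∧ Link G (W j) x m) ∧
    (∀ j, ∀ x ∈ W j, x ∉ M → ∀ y, G.Adj x y → y ∈ W j ∨ y ∈ A ∨ y ∈ M) ∧ ∀ j, ok (W j)

/-- all non-edges inside `R` are blocked inside `S` -/
def Blk (F : Family) (G : SimpleGraph V) (S R : Set V) : Prop :=
  ∀ u ∈ R, ∀ u' ∈ R, u ≠ u' → ¬ G.Adj u u' → ¬ FreeOn F (G ⊔ SimpleGraph.edge u u') S

/-- the invariant of the shrinking process -/
structure Inv (F : Family) (G : SimpleGraph V) (S R : Set V) : Prop where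
  supp : ∀ u v, G.Adj u v → u ∈ S
  sub : R ⊆ S
  free : FreeOn F G S
  blk : Blk F G S R
  safe : ∀ y ∈ S, y ∉ R →
    (∀ u ∈ R, ¬ G.Adj u y → ¬ FreeOn F (G ⊔ SimpleGraph.edge u y) S) ∨ Blk F G (S \ {y}) R

/-- a smaller state with the same region -/
def Smaller (F : Family) (G : SimpleGraph V) (S R : Set V) : Prop :=
  ∃ (V' : Type) (_ : Finite V') (G' : SimpleGraph V') (S' R' : Set V'), Inv F G' S' R' ∧
    S'.ncard < S.ncard ∧ R'.ncard = R.ncard ∧ eAt G' R' ≤ eAt G R ∧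
    (nbs G' R').ncard ≤ (nbs G R).ncard

/-- abstract patterns: owners of the roots, linked roots, touching parts, inner parts -/
abbrev PT (U ι : Type) : Type := Set (ι × U) × Set (U × ι × ι) × Set (U × U) × Set U

/-- the patterns realised in a piece `P` with root neighbourhoods `n` -/
def Pat (U : Type) {ι : Type} (G : SimpleGraph V) (P : Set V) (n : ι → Set V) : Set (PT U ι) :=
  {t | ∃ D : U → Set V, (∀ w, D w ⊆ P) ∧ (∀ w w', w ≠ w' → Disjoint (D w) (D w')) ∧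
    (∀ w i j, (w, i, j) ∈ t.2.1 → ∃ x ∈ D w ∩ n i, ∃ x' ∈ D w ∩ n j, Link G (D w) x x') ∧
    (∀ w w', (w, w') ∈ t.2.2.1 → Touch G (D w) (D w')) ∧ (∀ w ∈ t.2.2.2, Conn G (D w)) ∧
    ∀ w ∉ t.2.2.2, ∀ x ∈ D w, ∃ i, (i, w) ∈ t.1 ∧ ∃ x' ∈ D w ∩ n i, Link G (D w) x x'}

end defs

section tools

variable {V U : Type} {G G' : SimpleGraph V} {H : SimpleGraph U} {S S' : Set V} {B : U → Set V}
  {F : Family}

theorem link_congr {a b : V} (h : Link G S a b) (e : ∀ u ∈ S, ∀ v ∈ S, G.Adj u v → G'.Adj u v) :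
    Link G' S a b :=
  Link.map (G' := G') id (fun u hu v hv k => Link.single hu hv (e u hu v hv k)) h

theorem model_mono (h : Model H G S B) (hS : S ⊆ S')
    (e : ∀ u ∈ S, ∀ v ∈ S, G.Adj u v → G'.Adj u v) : Model H G' S' B := by
  refine ⟨fun w => (h.1 w).trans hS, fun w => ⟨(h.2.1 w).1, fun u hu v hv =>
    link_congr ((h.2.1 w).2 u hu v hv) fun a ha b hb => e a (h.1 w ha) b (h.1 w hb)⟩, h.2.2.1,
    fun w w' k => ?_⟩
  obtain ⟨u, hu, v, hv, c⟩ := h.2.2.2 w w' k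
  exact ⟨u, hu, v, hv, e u (h.1 w hu) v (h.1 w' hv) c⟩

theorem FreeOn.mono (h : FreeOn F G' S') (hS : S ⊆ S')
    (e : ∀ u ∈ S, ∀ v ∈ S, G.Adj u v → G'.Adj u v) : FreeOn F G S :=
  fun K hK B hB => h K hK B (model_mono hB hS e)

theorem freeOn_univ : FreeOn F G univ ↔ Free F G := by
  simp only [FreeOn, Free, isMinor_iff, not_exists]

theorem not_freeOn : ¬ FreeOn F G S ↔ ∃ K ∈ F, ∃ B, Model K.2 G S B := by
  simp only [FreeOn, not_forall, not_not, exists_prop]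

/-- A model of a connected graph with two vertices lies in the support. -/
theorem model_supp [Nontrivial U] (hc : H.Connected) (h : Model H G S B)
    (e : ∀ u v, G.Adj u v → u ∈ S') : Model H G S' B := by
  refine ⟨fun w x hx => ?_, h.2⟩
  obtain ⟨w', hw'⟩ := exists_ne w
  obtain ⟨p⟩ := hc.preconnected w w'
  cases p with
  | nil => exact absurd rfl hw'
  | cons k _ =>
    obtain ⟨u, hu, v, -, c⟩ := h.2.2.2 _ _ k
    rcases pl.conn_eq_or (h.2.1 w) hx hu with rfl | ⟨z, d⟩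
    exacts [e _ _ c, e _ _ d]

theorem KF.of_minor {h : ℕ} (k : KF h G) (m : IsMinor H G) : KF h H := fun c => k (c.trans m)

theorem KF.mono {h : ℕ} (k : KF h G') (e : G ≤ G') : KF h G :=
  k.of_minor (isMinor_of_inj id injective_id fun _ _ c => e c)

theorem exists_sparse (h : ℕ) : ∃ c, ∀ (V : Type) (G : SimpleGraph V), KF h G → Sparse c G := by
  obtain ⟨c, hc⟩ := mader_aux h
  refine ⟨c, fun V G k U _ H m => (hc U H (k.of_minor m)).trans (Nat.mul_le_mul_left _ ?_)⟩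
  rw [← ncard_univ]
  exact ncard_le_ncard (subset_univ _)

theorem Sparse.of_minor {c : ℕ} (k : Sparse c G) (m : IsMinor H G) : Sparse c H :=
  fun _ _ _ d => k _ _ (d.trans m)

theorem Sparse.induce [Finite V] {c : ℕ} (k : Sparse c G) (A : Set V) :
    dd (G.induce A) ≤ c * A.ncard :=
  k _ _ (isMinor_of_inj Subtype.val Subtype.val_injective fun _ _ d => d)

/-- The number of touching pairs in a family of disjoint connected sets. -/
theorem Sparse.touch [Finite V] {c : ℕ} (k : Sparse c G) {N : Set (Set V)}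
    (h1 : ∀ D ∈ N, Conn G D) (h2 : ∀ D ∈ N, ∀ D' ∈ N, D ≠ D' → Disjoint D D') :
    {p : Set V × Set V | p.1 ∈ N ∧ p.2 ∈ N ∧ p.1 ≠ p.2 ∧ Touch G p.1 p.2}.ncard ≤ c * N.ncard := by
  let Q : SimpleGraph (Set V) :=
    { Adj := fun D D' => D ≠ D' ∧ Touch G D D'
      symm := ⟨fun _ _ e => ⟨e.1.symm, e.2.symm⟩⟩
      loopless := ⟨fun _ e => e.1 rfl⟩ }
  have := k N (Q.induce N) (Model.isMinor (S := univ) (B := fun D => D.1)
    ⟨fun _ => subset_univ _, fun D => h1 _ D.2,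
      fun D D' e => h2 _ D.2 _ D'.2 fun d => e (Subtype.ext d), fun _ _ e => e.2⟩)
  rwa [pl.dd_induce] at this

theorem Inv.kf {s : ℕ} {R : Set V} (h : Inv F G S R) (hF : F.Nonempty) (hs : Bd F s) : KF s G := by
  intro m
  obtain ⟨K, hK⟩ := hF
  obtain ⟨B, hB⟩ := (isMinor_iff _ _).1 m
  have b := model_supp (S' := S) SimpleGraph.connected_top hB h.supp
  have l : K.1 ≤ s + 2 := (hs K hK).trans (Nat.le_add_right _ _)
  exact h.free K hK (fun i => B (Fin.castLE l i)) ⟨fun _ => b.1 _, fun _ => b.2.1 _,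
    fun i j e => b.2.2.1 _ _ fun d => e (Fin.castLE_injective l d),
    fun i j e => b.2.2.2 _ _ fun d => e.ne (Fin.castLE_injective l d)⟩

theorem inv_of_edgeMax (h : EdgeMax F G) (R : Set V) : Inv F G univ R :=
  ⟨fun _ _ _ => trivial, subset_univ _, freeOn_univ.2 h.1,
    fun u _ u' _ e k c => h.2 u u' e k (freeOn_univ.1 c),
    fun y _ hy => Or.inl fun u hu k c => h.2 u y (fun e => hy (e ▸ hu)) k (freeOn_univ.1 c)⟩

end tools

/-- The input from parts 1 to 3. -/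
def BlackS : Prop := ∀ s h c : ℕ, ∃ (a q K : ℕ) (U : Type) (_ : Finite U) (_ : Nontrivial U)
  (Γ : SimpleGraph U), Γ.Connected ∧ c * (a + 2) < q ∧
  (∀ (V : Type) [Finite V] (G : SimpleGraph V), ¬ IsMinor Γ G → pl.HasDec K G) ∧
  ∀ (V : Type) [Finite V] (G : SimpleGraph V) (X : Set V) (B : U → Set V), KF h G →
    Model Γ G X B → Zs (Zone s G) a q G X

/-- separators (Alon, Seymour and Thomas) -/
def AstS : Prop := ∀ (h l : ℕ) (V : Type) [Finite V] (G : SimpleGraph V) (X : Set V), KF h G →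
  1 ≤ l → X.ncard ≤ l ^ 2 → ∃ Z ⊆ X, Z.ncard ≤ (h + 2) ^ 2 * l ∧
    ∀ v, 2 * (cp G (X \ Z) v).ncard ≤ X.ncard

/-- divisions into bounded pieces with small total boundary -/
def RdivS : Prop := ∀ h d : ℕ, ∃ K : ℕ, ∀ (V : Type) [Finite V] (G : SimpleGraph V) (X : Set V),
  KF h G → ∃ P : Finset (Set V), (∀ p ∈ P, p ⊆ X ∧ p.ncard ≤ K) ∧
    (∀ p ∈ P, ∀ p' ∈ P, p ≠ p' → Disjoint p p' ∧ ¬ Touch G p p') ∧
    d * ((X \ ⋃₀ (P : Set (Set V))).ncard + ∑ p ∈ P, (nbs G p ∩ X).ncard) ≤ X.ncard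

/-- neighbourhoods of disjoint connected sets -/
def NcS : Prop := ∀ c : ℕ, ∃ c' : ℕ, ∀ (V : Type) [Finite V] (G : SimpleGraph V) (Z : Set V)
  (N : Set (Set V)), Sparse c G → (∀ D ∈ N, Conn G D ∧ Disjoint D Z) →
  (∀ D ∈ N, ∀ D' ∈ N, D ≠ D' → Disjoint D D') →
  {D ∈ N | c + 2 ≤ (nbs G D ∩ Z).ncard}.ncard ≤ c * Z.ncard ∧
    ((fun D => nbs G D ∩ Z) '' N).ncard ≤ c' * (Z.ncard + 1)

/-- a decomposition is cut into few light parts -/
def PartS : Prop := ∀ (ε : Type) [Finite ε] (f : Set ε → ℕ) (K : ℕ) (T : Set (Set ε))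
  (Pk : Set ε → ℕ → Prop), pl.Subm f → pl.Dec f K T → (∀ p, Pk p 0) →
  (∀ p q a, p ⊆ q → Pk p a → Pk q a) →
  (∀ p q a b, Disjoint p q → Pk p a → Pk q b → Pk (p ∪ q) (a + b)) →
  ∃ m a, pl.Parts (fun p => f p ≤ 2 * K ∧ (¬ Pk p 1 ∨ p.Subsingleton)) univ m ∧ Pk univ a ∧
    m ≤ 4 * a + 1

/-- protrusions -/
def PlS : Prop := ∀ c K : ℕ, ∃ b : ℕ, ∀ L : ℕ, ∃ C : ℕ, ∀ (V : Type) [Finite V]
  (G : SimpleGraph V) (X Z : Set V), Sparse c G → pl.HasDec K (within G X) → Disjoint X Z →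
  nbs G X ⊆ Z → C * (Z.ncard + 1) < X.ncard →
  ∃ P ⊆ X, (nbs G P).ncard ≤ b ∧ L < P.ncard

/-- one of many zones avoids a small set -/
def LeakS : Prop := ∀ (c a q : ℕ) (V : Type) [Finite V] (G : SimpleGraph V) (ok : Set V → Prop)
  (T : Set V) (P : Finset (Set V)), c * (a + 2) < q → Sparse c G →
  (∀ p ∈ P, Disjoint p T ∧ Zs ok a q G p) → (∀ p ∈ P, ∀ p' ∈ P, p ≠ p' → Disjoint p p') →
  (2 * a + 1) * (T.ncard + 1) ≤ P.card →
  ∃ p ∈ P, ∃ W, ok W ∧ Disjoint W T ∧ ∀ x ∈ W, ∃ m ∈ p, m ∈ W ∧ Link G W x m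

/-- patterns are kept by maps -/
def PmapS : Prop := ∀ (U ι V V' : Type) (G : SimpleGraph V) (G' : SimpleGraph V') (P : Set V)
  (P' : Set V') (n : ι → Set V) (n' : ι → Set V') (f : V → V'), InjOn f P → MapsTo f P P' →
  (∀ a ∈ P, ∀ b ∈ P, G.Adj a b → G'.Adj (f a) (f b)) → (∀ i, ∀ x ∈ P, x ∈ n i → f x ∈ n' i) →
  Pat U G P n ⊆ Pat U G' P' n'

/-- transfer of a model to a graph with another piece -/
def TrfS : Prop := ∀ (U ι V V' : Type) (H : SimpleGraph U) (G : SimpleGraph V)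
  (G' : SimpleGraph V') (O P : Set V) (P' : Set V') (e : V → V') (r : ι → V) (n : ι → Set V)
  (n' : ι → Set V') (B : U → Set V), Disjoint O P → InjOn e O → (∀ z ∈ O, e z ∉ P') →
  (∀ a ∈ O, ∀ b ∈ O, G.Adj a b → G'.Adj (e a) (e b)) →
  (∀ x ∈ P, ∀ z ∈ O, G.Adj x z → ∃ i, r i = z ∧ x ∈ n i) →
  (∀ i, r i ∈ O → ∀ x ∈ P', x ∈ n' i → G'.Adj x (e (r i))) →
  Pat U G P n ⊆ Pat U G' P' n' → Model H G (O ∪ P) B → ∃ B', Model H G' (e '' O ∪ P') B'

/-- a large piece with small boundary is replaced -/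
def RedS : Prop := ∀ (F : Family) (s b : ℕ), Bd F s → ∃ β : ℕ, ∀ (V : Type) [Finite V]
  (G : SimpleGraph V) (S R P : Set V), Inv F G S R → P ⊆ S → Disjoint P (R ∪ nbs G R) →
  (nbs G P).ncard ≤ b → β < P.ncard → Smaller F G S R

/-- an irrelevant vertex is deleted -/
def DelS : Prop := ∀ (F : Family) (s : ℕ) (V : Type) [Finite V] (G : SimpleGraph V)
  (S R W : Set V), Bd F s → Inv F G S R → W ⊆ S → Disjoint W R → Disjoint W (nbs G R) →
  Zone s G W → Smaller F G S R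

/-- a state with a large outside can be made smaller -/
def DichS : Prop := ∀ (F : Family) (s : ℕ), F.Nonempty → Bd F s → ∃ C : ℕ, ∀ (V : Type) [Finite V]
  (G : SimpleGraph V) (S R : Set V), Inv F G S R →
  C * ((nbs G R).ncard + 1) < (S \ R).ncard → Smaller F G S R

/-- saturation of a state -/
def FinS : Prop := ∀ (F : Family) (c h : ℕ) (V : Type) [Finite V] (G : SimpleGraph V)
  (S R : Set V), EdgeBound F c → CliqueBound F h → Inv F G S R →
  2 * Mminus F S.ncard ≤ eAt G R + (c + 2 * h) * (S \ R).ncard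

/-- the outside of a region is replaced by a graph of size linear in the boundary -/
def ReplS : Prop := ∀ (F : Family) (s : ℕ), F.Nonempty → Bd F s → ∃ C : ℕ, ∀ (V : Type) [Finite V]
  (G : SimpleGraph V) (R : Set V), EdgeMax F G → ∃ n, R.ncard ≤ n ∧
    n ≤ R.ncard + C * ((nbs G R).ncard + 1) ∧
    2 * Mminus F n ≤ eAt G R + C * ((nbs G R).ncard + 1)

/-- regions of prescribed size, with small boundary and typical density -/
def RegS : Prop := ∀ (h c : ℕ) (η δ : ℝ), 0 < η → 0 < δ → ∃ N0 : ℕ, ∀ N ≥ N0, ∃ n0 : ℕ,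
  ∀ (V : Type) [Finite V] (G : SimpleGraph V) (σ γ : ℝ), KF h G →
    (∀ A : Set V, dd (G.induce A) ≤ c * A.ncard) → (σ = 1 ∨ σ = -1) → 0 ≤ γ → γ ≤ c →
    σ * (dd G - γ * Nat.card V) ≤ 0 → n0 ≤ Nat.card V →
    ∃ R : Set V, ((nbs G R).ncard : ℝ) ≤ δ * N ∧ (1 - δ) * N ≤ R.ncard ∧ R.ncard ≤ N ∧
      σ * (eAt G R - γ * N) ≤ (η + c * δ) * N

/-- adding one vertex -/
def StepS : Prop := ∀ (F : Family) (s : ℕ), F.Nonempty → Bd F s → (∀ H ∈ F, H.2 ≠ ⊥) →
  ∃ C, ∀ n, Mminus F (n + 1) ≤ Mminus F n + C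

/-- the two limits -/
def LimS : Prop := ∀ (F : Family) (s : ℕ), F.Nonempty → Bd F s → (∀ H ∈ F, H.2 ≠ ⊥) →
  (∃ a, Filter.Tendsto (fun n => (Mminus F n : ℝ) / n) Filter.atTop (nhds a)) ∧
    ∃ b, Filter.Tendsto (fun n => (Mplus F n : ℝ) / n) Filter.atTop (nhds b)

end Pool.Agent.MP_9d78a0_co.fb

end MrgPart1

-- ======== part 2: formerly Pool.Agent.MP_9d78a0_co.fb.Rdiv
section MrgPart2

/-! Divisions into bounded pieces with small total boundary. -/

set_option autoImplicit false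

namespace Pool.Agent.MP_9d78a0_co.fb

open Set Function

namespace Rdiv

variable {V : Type} [Finite V] {G : SimpleGraph V}

/-- a union of components of intermediate size -/
theorem sides {X Z : Set V} (hZ : 4 * Z.ncard ≤ X.ncard) (h0 : 0 < X.ncard)
    (hc : ∀ v, 2 * (cp G (X \ Z) v).ncard ≤ X.ncard) :
    ∃ A ⊆ X \ Z, (∀ x ∈ A, ∀ y ∈ X \ Z, G.Adj x y → y ∈ A) ∧ X.ncard ≤ 4 * A.ncard ∧
      4 * A.ncard < 3 * X.ncard := by
  obtain ⟨A, ⟨h1, h2, h3⟩, hm⟩ := Set.exists_max_image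
    {A : Set V | A ⊆ X \ Z ∧ (∀ x ∈ A, ∀ y ∈ X \ Z, G.Adj x y → y ∈ A) ∧ 4 * A.ncard < X.ncard}
    Set.ncard (Set.toFinite _) ⟨∅, empty_subset _, fun _ hx => hx.elim, by simpa using h0⟩
  have hne : ¬ X \ Z ⊆ A := by
    intro hs
    have a1 : X.ncard ≤ (A ∪ Z).ncard := ncard_le_ncard fun x hx => by
      by_cases hz : x ∈ Z
      · exact Or.inr hz
      · exact Or.inl (hs ⟨hx, hz⟩)
    have a2 := ncard_union_le A Z
    omega
  obtain ⟨v, hv, hvA⟩ := not_subset.1 hne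
  have hsub : A ∪ cp G (X \ Z) v ⊆ X \ Z := union_subset h1 cp_sub
  have hcl : ∀ x ∈ A ∪ cp G (X \ Z) v, ∀ y ∈ X \ Z, G.Adj x y → y ∈ A ∪ cp G (X \ Z) v := by
    rintro x (hx | hx) y hy e
    · exact Or.inl (h2 x hx y hy e)
    · exact Or.inr (cp_closed hx hy e)
  have hlt : A.ncard < (A ∪ cp G (X \ Z) v).ncard :=
    ncard_lt_ncard ⟨subset_union_left, fun hs => hvA (hs (Or.inr (cp_self hv)))⟩
  refine ⟨_, hsub, hcl, ?_, ?_⟩
  · by_contra hn
    have := hm _ ⟨hsub, hcl, not_le.1 hn⟩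
    omega
  · have a1 := ncard_union_le A (cp G (X \ Z) v)
    have a2 := hc v
    omega

/-- covers of the vertices and edges by small sets -/
def Cov (G : SimpleGraph V) (K : ℕ) (X : Set V) (Q : Finset (Set V)) : Prop :=
  (∀ q ∈ Q, q ⊆ X ∧ q.ncard ≤ K) ∧ (∀ x ∈ X, ∃ q ∈ Q, x ∈ q) ∧
    ∀ x ∈ X, ∀ y ∈ X, G.Adj x y → ∃ q ∈ Q, x ∈ q ∧ y ∈ q

theorem sqrt_add {a b r : ℝ} (hr : 0 ≤ r) (h1 : r ≤ 4 * a) (h2 : r ≤ 4 * b) (h : r ≤ a + b) :
    6 * √r ≤ 5 * (√a + √b) := by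
  have ha : 0 ≤ a := by linarith
  have hb : 0 ≤ b := by linarith
  have e1 := Real.sq_sqrt ha
  have e2 := Real.sq_sqrt hb
  have e3 := Real.sq_sqrt hr
  have p1 := Real.sqrt_nonneg a
  have p2 := Real.sqrt_nonneg b
  have p3 := Real.sqrt_nonneg r
  have q1 : √r ≤ 2 * √a := by
    by_contra hc
    nlinarith
  have q2 : √r ≤ 2 * √b := by
    by_contra hc
    nlinarith
  have q3 : √r * √r ≤ (2 * √a) * (2 * √b) := mul_le_mul q1 q2 p3 (by linarith)
  by_contra hc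
  nlinarith

theorem cover (hA : AstS) {h t : ℕ} (ht : 1 ≤ t) (hG : KF h G) (m : ℕ) :
    ∀ X : Set V, X.ncard = m → (20 * (h + 2) ^ 2 * t) ^ 2 ≤ m →
      ∃ Q, Cov G (4 * (20 * (h + 2) ^ 2 * t) ^ 2) X Q ∧
        (t : ℝ) * ((∑ q ∈ Q, q.ncard : ℕ) : ℝ) ≤
          (t + 1) * m - (20 * (h + 2) ^ 2 * t : ℕ) * √(m : ℝ) := by
  classical
  induction m using Nat.strong_induction_on with
  | _ m ih =>
  intro X hX hm
  generalize hc : (h + 2) ^ 2 = c at *
  have hc1 : 1 ≤ c := by rw [← hc]; exact Nat.one_le_pow _ _ (by omega)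
  have hE : ((20 * c * t : ℕ) : ℝ) ≤ √(m : ℝ) := Real.le_sqrt_of_sq_le (by exact_mod_cast hm)
  have hsq : √(m : ℝ) * √(m : ℝ) = m := Real.mul_self_sqrt (Nat.cast_nonneg _)
  have hs0 := Real.sqrt_nonneg (m : ℝ)
  by_cases hK : m ≤ 4 * (20 * c * t) ^ 2
  · refine ⟨{X}, ⟨fun q hq => ?_, fun x hx => ⟨X, Finset.mem_singleton_self _, hx⟩,
      fun x hx y hy _ => ⟨X, Finset.mem_singleton_self _, hx, hy⟩⟩, ?_⟩
    · rw [Finset.mem_singleton.1 hq, hX]
      exact ⟨subset_rfl, hK⟩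
    · rw [Finset.sum_singleton, hX]
      nlinarith [mul_le_mul_of_nonneg_right hE hs0]
  · obtain ⟨Z, hZX, hZ, hcp⟩ := hA h (Nat.sqrt m + 1) V G X hG (by omega)
      (by rw [hX]; exact (Nat.lt_succ_sqrt' m).le)
    rw [hc] at hZ
    have ht' : (1 : ℝ) ≤ t := by exact_mod_cast ht
    have hc' : (1 : ℝ) ≤ c := by exact_mod_cast hc1
    have hE' : (20 : ℝ) * c * t ≤ √(m : ℝ) := by exact_mod_cast hE
    have hct : (c : ℝ) ≤ c * t := by nlinarith
    have hz : (Z.ncard : ℝ) ≤ 2 * c * √(m : ℝ) := by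
      have a1 : (Z.ncard : ℝ) ≤ c * ((Nat.sqrt m : ℝ) + 1) := by exact_mod_cast hZ
      have a2 : (Nat.sqrt m : ℝ) ≤ √(m : ℝ) := Real.nat_sqrt_le_real_sqrt
      have a3 : (Nat.sqrt m : ℝ) + 1 ≤ 2 * √(m : ℝ) := by linarith
      nlinarith
    have hz4 : 4 * Z.ncard ≤ m := by
      have : (4 : ℝ) * Z.ncard ≤ m := by nlinarith
      exact_mod_cast this
    obtain ⟨A, hA1, hA2, hA3, hA4⟩ := sides (G := G) (hX ▸ hz4) (by omega) hcp
    have hAX : A ⊆ X := fun x hx => (hA1 hx).1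
    have n1 := ncard_union_le A Z
    have n2 : A.ncard ≤ (A ∪ Z).ncard := ncard_le_ncard subset_union_left
    have n3 : (X \ A).ncard + A.ncard = X.ncard := ncard_sdiff_add_ncard_of_subset hAX
    obtain ⟨Q1, ⟨c1, c2, c3⟩, s1⟩ := ih _ (by omega) (A ∪ Z) rfl (by omega)
    obtain ⟨Q2, ⟨d1, d2, d3⟩, s2⟩ := ih _ (by omega) (X \ A) rfl (by omega)
    refine ⟨Q1 ∪ Q2, ⟨fun q hq => ?_, fun x hx => ?_, fun x hx y hy e => ?_⟩, ?_⟩
    · rcases Finset.mem_union.1 hq with hq | hq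
      · exact ⟨(c1 q hq).1.trans (union_subset hAX hZX), (c1 q hq).2⟩
      · exact ⟨(d1 q hq).1.trans sdiff_subset, (d1 q hq).2⟩
    · by_cases hx' : x ∈ A
      · obtain ⟨q, hq, k⟩ := c2 x (Or.inl hx')
        exact ⟨q, Finset.mem_union_left _ hq, k⟩
      · obtain ⟨q, hq, k⟩ := d2 x ⟨hx, hx'⟩
        exact ⟨q, Finset.mem_union_right _ hq, k⟩
    · have key : ∀ u ∈ A, ∀ v ∈ X, G.Adj u v → v ∈ A ∪ Z := fun u hu v hv k => by
        by_cases hz' : v ∈ Z
        · exact Or.inr hz'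
        · exact Or.inl (hA2 u hu v ⟨hv, hz'⟩ k)
      by_cases hx' : x ∈ A
      · obtain ⟨q, hq, k⟩ := c3 x (Or.inl hx') y (key x hx' y hy e) e
        exact ⟨q, Finset.mem_union_left _ hq, k⟩
      · by_cases hy' : y ∈ A
        · obtain ⟨q, hq, k⟩ := c3 x (key y hy' x hx e.symm) y (Or.inl hy') e
          exact ⟨q, Finset.mem_union_left _ hq, k⟩
        · obtain ⟨q, hq, k⟩ := d3 x ⟨hx, hx'⟩ y ⟨hy, hy'⟩ e
          exact ⟨q, Finset.mem_union_right _ hq, k⟩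
    · have u1 : ∑ q ∈ Q1 ∪ Q2, q.ncard ≤ ∑ q ∈ Q1, q.ncard + ∑ q ∈ Q2, q.ncard := by
        rw [← Finset.sum_union_inter]
        exact Nat.le_add_right _ _
      have u2 : ((∑ q ∈ Q1 ∪ Q2, q.ncard : ℕ) : ℝ) ≤
          ((∑ q ∈ Q1, q.ncard : ℕ) : ℝ) + ((∑ q ∈ Q2, q.ncard : ℕ) : ℝ) := by exact_mod_cast u1
      have u3 := sqrt_add (a := ((A ∪ Z).ncard : ℝ)) (b := ((X \ A).ncard : ℝ)) (r := (m : ℝ))
        (Nat.cast_nonneg _) (by exact_mod_cast (by omega : m ≤ 4 * (A ∪ Z).ncard))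
        (by exact_mod_cast (by omega : m ≤ 4 * (X \ A).ncard))
        (by exact_mod_cast (by omega : m ≤ (A ∪ Z).ncard + (X \ A).ncard))
      have u4 : ((A ∪ Z).ncard : ℝ) + ((X \ A).ncard : ℝ) ≤ m + Z.ncard := by
        exact_mod_cast (by omega : (A ∪ Z).ncard + (X \ A).ncard ≤ m + Z.ncard)
      have u5 := mul_le_mul_of_nonneg_left u2 (by linarith : (0 : ℝ) ≤ t)
      have u6 := mul_le_mul_of_nonneg_left u4 (by linarith : (0 : ℝ) ≤ t + 1)
      have u7 := mul_le_mul_of_nonneg_left u3 (by nlinarith : (0 : ℝ) ≤ c * t)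
      have u8 := mul_le_mul_of_nonneg_left hz (by linarith : (0 : ℝ) ≤ t + 1)
      have u9 := mul_le_mul_of_nonneg_right hct hs0
      push_cast at s1 s2 u5 ⊢
      nlinarith

/-- double counting -/
theorem dbl (Q : Finset (Set V)) (A : Set V) (t : ℕ)
    (h : ∀ v ∈ A, ∃ R ⊆ Q, R.card = t ∧ ∀ q ∈ R, v ∈ q) :
    t * A.ncard ≤ ∑ q ∈ Q, (q ∩ A).ncard := by
  classical
  have e : ∀ q : Set V, (q ∩ A).ncard = ∑ v ∈ (toFinite A).toFinset, if v ∈ q then 1 else 0 := by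
    intro q
    rw [← Finset.card_filter, ← ncard_coe_finset]
    congr 1
    ext v
    simp [and_comm]
  simp only [e]
  rw [Finset.sum_comm, ncard_eq_toFinset_card A, mul_comm, ← smul_eq_mul]
  refine Finset.card_nsmul_le_sum _ _ _ fun v hv => ?_
  obtain ⟨R, h1, h2, h3⟩ := h v ((toFinite A).mem_toFinset.1 hv)
  rw [← Finset.card_filter, ← h2]
  exact Finset.card_le_card fun q hq => Finset.mem_filter.2 ⟨h1 hq, h3 q hq⟩

end Rdiv

open Rdiv in
theorem rdivS (hA : AstS) : RdivS := by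
  classical
  intro h d
  refine ⟨4 * (20 * (h + 2) ^ 2 * (3 * d + 1)) ^ 2, fun V _ G X hG => ?_⟩
  by_cases hm : (20 * (h + 2) ^ 2 * (3 * d + 1)) ^ 2 ≤ X.ncard
  swap
  · refine ⟨{X}, fun p hp => ?_, fun p hp p' hp' hne => ?_, ?_⟩
    · rw [Finset.mem_singleton.1 hp]
      exact ⟨subset_rfl, by omega⟩
    · exact absurd ((Finset.mem_singleton.1 hp).trans (Finset.mem_singleton.1 hp').symm) hne
    · have : nbs G X ∩ X = ∅ := eq_empty_of_forall_notMem fun x hx => hx.1.1 hx.2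
      simp [this]
  obtain ⟨Q, ⟨c1, c2, c3⟩, hs⟩ := cover hA (t := 3 * d + 1) (by omega) hG _ X rfl hm
  have hs' : (3 * d + 1) * ∑ q ∈ Q, q.ncard ≤ (3 * d + 1 + 1) * X.ncard := by
    have h0 : (0 : ℝ) ≤ ((20 * (h + 2) ^ 2 * (3 * d + 1) : ℕ) : ℝ) * √(X.ncard : ℝ) := by positivity
    have : (((3 * d + 1 : ℕ) : ℝ)) * ((∑ q ∈ Q, q.ncard : ℕ) : ℝ) ≤
        (((3 * d + 1 : ℕ) : ℝ) + 1) * X.ncard := by linarith
    exact_mod_cast this
  let Mu : Set V := {v | ∃ q ∈ Q, ∃ q' ∈ Q, q ≠ q' ∧ v ∈ q ∧ v ∈ q'}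
  have uniq : ∀ v, v ∉ Mu → ∀ q ∈ Q, ∀ q' ∈ Q, v ∈ q → v ∈ q' → q = q' := by
    intro v hv q hq q' hq' h1 h2
    by_contra hne
    exact hv ⟨q, hq, q', hq', hne, h1, h2⟩
  have hMX : Mu ⊆ X := fun v ⟨q, hq, _, _, _, h1, _⟩ => (c1 q hq).1 h1
  refine ⟨Q.image (· \ Mu), fun p hp => ?_, fun p hp p' hp' hne => ?_, ?_⟩
  · obtain ⟨q, hq, rfl⟩ := Finset.mem_image.1 hp
    exact ⟨sdiff_subset.trans (c1 q hq).1, (ncard_le_ncard sdiff_subset).trans (c1 q hq).2⟩
  · obtain ⟨q, hq, rfl⟩ := Finset.mem_image.1 hp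
    obtain ⟨q', hq', rfl⟩ := Finset.mem_image.1 hp'
    have hqq : q ≠ q' := fun e => hne (by rw [e])
    refine ⟨disjoint_left.2 fun v h1 h2 => hqq (uniq v h1.2 q hq q' hq' h1.1 h2.1), ?_⟩
    rintro ⟨u, hu, v, hv, e⟩
    obtain ⟨r, hr, k1, k2⟩ := c3 u ((c1 q hq).1 hu.1) v ((c1 q' hq').1 hv.1) e
    exact hqq ((uniq u hu.2 q hq r hr hu.1 k1).trans (uniq v hv.2 r hr q' hq' k2 hv.1))
  · have a1 : (X \ ⋃₀ ((Q.image (· \ Mu) : Finset (Set V)) : Set (Set V))).ncard ≤ Mu.ncard := by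
      refine ncard_le_ncard fun x hx => ?_
      by_contra hn
      obtain ⟨q, hq, k⟩ := c2 x hx.1
      exact hx.2 ⟨q \ Mu, Finset.mem_coe.2 (Finset.mem_image_of_mem _ hq), k, hn⟩
    have a2 : ∑ p ∈ Q.image (· \ Mu), (nbs G p ∩ X).ncard ≤ ∑ q ∈ Q, (q ∩ Mu).ncard := by
      refine (Finset.sum_image_le_of_nonneg (fun _ _ => Nat.zero_le _)).trans
        (Finset.sum_le_sum fun q hq => ncard_le_ncard ?_)
      rintro y ⟨⟨h1, x, hx, e⟩, hy⟩
      obtain ⟨r, hr, k1, k2⟩ := c3 x ((c1 q hq).1 hx.1) y hy e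
      rw [← uniq x hx.2 q hq r hr hx.1 k1] at k2
      exact ⟨k2, by_contra fun hn => h1 ⟨k2, hn⟩⟩
    have a3 := dbl Q Mu 2 fun v ⟨q, hq, q', hq', hne, h1, h2⟩ =>
      ⟨{q, q'}, fun r hr => by
        rcases Finset.mem_insert.1 hr with rfl | hr
        · exact hq
        · exact Finset.mem_singleton.1 hr ▸ hq', Finset.card_pair hne, fun r hr => by
        rcases Finset.mem_insert.1 hr with rfl | hr
        · exact h1
        · exact Finset.mem_singleton.1 hr ▸ h2⟩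
    have a4 := dbl Q (X \ Mu) 1 fun v hv => by
      obtain ⟨q, hq, k⟩ := c2 v hv.1
      exact ⟨{q}, Finset.singleton_subset_iff.2 hq, Finset.card_singleton _,
        fun r hr => Finset.mem_singleton.1 hr ▸ k⟩
    have a5 : ∑ q ∈ Q, (q ∩ Mu).ncard + ∑ q ∈ Q, (q ∩ (X \ Mu)).ncard ≤ ∑ q ∈ Q, q.ncard := by
      rw [← Finset.sum_add_distrib]
      refine Finset.sum_le_sum fun q _ => ?_
      rw [← ncard_union_eq (disjoint_left.2 fun v h1 h2 => h2.2.2 h1.2)]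
      exact ncard_le_ncard (union_subset inter_subset_left inter_subset_left)
    have a6 : (X \ Mu).ncard + Mu.ncard = X.ncard := ncard_sdiff_add_ncard_of_subset hMX
    generalize (X \ ⋃₀ ((Q.image (· \ Mu) : Finset (Set V)) : Set (Set V))).ncard = z at a1 ⊢
    generalize ∑ p ∈ Q.image (· \ Mu), (nbs G p ∩ X).ncard = b at a2 ⊢
    generalize ∑ q ∈ Q, (q ∩ Mu).ncard = S at a2 a3 a5
    obtain ⟨w, hw⟩ : ∃ w, S = Mu.ncard + w := ⟨S - Mu.ncard, by omega⟩
    have b1 : z + b ≤ 3 * w := by omega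
    have b2 : X.ncard + w ≤ ∑ q ∈ Q, q.ncard := by omega
    nlinarith [Nat.mul_le_mul_left d b1, Nat.mul_le_mul_left (3 * d + 1) b2]

end Pool.Agent.MP_9d78a0_co.fb

end MrgPart2

-- ======== part 3: formerly Pool.Agent.MP_9d78a0_co.fb.Fin4
section MrgPart3

/-! Saturation of a state. -/

set_option autoImplicit false

namespace Pool.Agent.MP_9d78a0_co.fb

open Set Function

namespace Fin4

variable {V : Type} {F : Family} {G G2 : SimpleGraph V} {S R : Set V}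

theorem free_induce (h : FreeOn F G S) : Free F (G.induce S) := by
  intro K hK m
  obtain ⟨B, hB⟩ := (isMinor_iff _ _).1 m
  exact h K hK _ (hB.comp (T := S) (fun v => {v.1}) (fun v _ => singleton_subset_iff.2 v.2)
    (fun _ _ => conn_singleton _ _)
    (fun _ _ _ _ e => disjoint_singleton.2 fun d => e (Subtype.ext d))
    fun _ _ _ _ e => ⟨_, rfl, _, rfl, e⟩)

theorem freeOn_of_free {G' : SimpleGraph S} (h : Free F G')
    (e : ∀ u v : S, G.Adj u v → G'.Adj u v) : FreeOn F G S := by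
  intro K hK B hB
  refine h K hK (Model.isMinor (hB.comp (T := univ) (fun v => {x : S | x.1 = v})
    (fun _ _ => subset_univ _) (fun v hv => ?_) (fun v _ v' _ d => ?_) fun v hv v' hv' d =>
      ⟨⟨v, hv⟩, rfl, ⟨v', hv'⟩, rfl, e _ _ d⟩))
  · have : {x : S | x.1 = v} = {⟨v, hv⟩} := by
      ext x
      simp [Subtype.ext_iff]
    rw [this]
    exact conn_singleton _ _
  · exact disjoint_left.2 fun x h1 h2 => d (h1.symm.trans h2)

theorem exists_max [Finite V] (h : FreeOn F G S) :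
    ∃ G2, G ≤ G2 ∧ FreeOn F G2 S ∧ EdgeMax F (G2.induce S) := by
  obtain ⟨G2, h2, hm⟩ := Set.Finite.exists_maximal (s := {G' | G ≤ G' ∧ FreeOn F G' S})
    (toFinite _) ⟨G, le_rfl, h⟩
  refine ⟨G2, h2.1, h2.2, free_induce h2.2, fun u v huv hn hf => hn ?_⟩
  have k : FreeOn F (G2 ⊔ SimpleGraph.edge u.1 v.1) S := by
    refine freeOn_of_free hf fun a b d => ?_
    rcases sup_edge_adj d with d | ⟨d1, d2⟩ | ⟨d1, d2⟩
    · exact Or.inl d
    · refine Or.inr ?_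
      rw [SimpleGraph.edge_adj]
      exact ⟨Or.inl ⟨Subtype.ext d1, Subtype.ext d2⟩, fun c => d.ne (congrArg _ c)⟩
    · refine Or.inr ?_
      rw [SimpleGraph.edge_adj]
      exact ⟨Or.inr ⟨Subtype.ext d1, Subtype.ext d2⟩, fun c => d.ne (congrArg _ c)⟩
  refine hm (y := G2 ⊔ SimpleGraph.edge u.1 v.1) ⟨h2.1.trans le_sup_left, k⟩ le_sup_left
    (Or.inr ?_)
  rw [SimpleGraph.edge_adj]
  exact ⟨Or.inl ⟨rfl, rfl⟩, fun c => huv (Subtype.ext c)⟩

theorem free_edge (l : G ≤ G2) (h2 : FreeOn F G2 S) {u v : V} (e : G2.Adj u v) :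
    FreeOn F (G ⊔ SimpleGraph.edge u v) S := by
  refine h2.mono Subset.rfl fun a _ b _ d => ?_
  rcases sup_edge_adj d with d | ⟨rfl, rfl⟩ | ⟨rfl, rfl⟩
  exacts [l d, e, e.symm]

theorem free_path (l : G ≤ G2) (h2 : FreeOn F G2 S) {u u' y : V} (hy : y ∈ S) (e : G2.Adj u y)
    (e' : G2.Adj u' y) : FreeOn F (G ⊔ SimpleGraph.edge u u') (S \ {y}) := by
  classical
  intro K hK B hB
  have hm : ∀ v, v ∈ (if v = u then {u, y} else {v} : Set V) := by
    intro v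
    split_ifs with c
    · exact Or.inl c
    · rfl
  have hu : y ∈ (if u = u then {u, y} else {u} : Set V) := by simp
  refine h2 K hK _ (hB.comp (T := S) (fun v => if v = u then {u, y} else {v}) (fun v hv => ?_)
    (fun v _ => ?_) (fun v hv v' hv' d => ?_) fun v _ v' _ d => ?_)
  · split_ifs with c
    · exact insert_subset (c ▸ hv.1) (singleton_subset_iff.2 hy)
    · exact singleton_subset_iff.2 hv.1
  · split_ifs
    exacts [conn_pair e, conn_singleton _ _]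
  · have h1 : v ≠ y := hv.2
    have h3 : v' ≠ y := hv'.2
    rw [disjoint_left]
    intro z hz hz'
    split_ifs at hz hz' <;> simp only [mem_insert_iff, mem_singleton_iff] at hz hz' <;> grind
  · rcases sup_edge_adj d with d | ⟨rfl, rfl⟩ | ⟨rfl, rfl⟩
    exacts [⟨_, hm _, _, hm _, l d⟩, ⟨_, hu, _, hm _, e'.symm⟩, ⟨_, hm _, _, hu, e'⟩]

theorem new_le [Finite V] {h : ℕ} (hh : CliqueBound F h) (hI : Inv F G S R) (l : G ≤ G2)
    (h2 : FreeOn F G2 S) {y : V} (hy : y ∈ S \ R) :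
    {u | u ∈ R ∧ G2.Adj u y ∧ ¬ G.Adj u y}.ncard ≤ h := by
  rw [← Nat.card_coe_set_eq, ← ncard_univ]
  refine hh _ (G.induce _) univ (free_induce (hI.free.mono (fun u hu => hI.sub hu.1)
    fun _ _ _ _ d => d)) fun a _ b _ d => ?_
  rcases hI.safe y hy.1 hy.2 with k | k
  · exact absurd (free_edge l h2 a.2.2.1) (k _ a.2.1 a.2.2.2)
  · by_contra c
    exact k _ a.2.1 _ b.2.1 (fun e => d (Subtype.ext e)) c (free_path l h2 hy.1 a.2.2.1 b.2.2.1)

theorem fib_le [Finite V] {h : ℕ} {A : Set (V × V)} {T : Set V} (h1 : ∀ p ∈ A, p.2 ∈ T)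
    (h2 : ∀ y ∈ T, {u | (u, y) ∈ A}.ncard ≤ h) : A.ncard ≤ h * T.ncard := by
  classical
  rw [ncard_eq_toFinset_card A, ncard_eq_toFinset_card T]
  refine Finset.card_le_mul_card_image_of_maps_to (f := Prod.snd) (fun p hp => ?_) h fun y hy => ?_
  · simpa using h1 p (by simpa using hp)
  · refine le_trans ?_ (h2 y (by simpa using hy))
    rw [← ncard_coe_finset]
    refine ncard_le_ncard_of_injOn Prod.fst (fun p hp => ?_) (fun p hp q hq e => ?_)
    · simp only [Finset.coe_filter, Finite.mem_toFinset, mem_ofPred_eq] at hp ⊢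
      rw [← hp.2]
      exact hp.1
    · simp only [Finset.coe_filter, Finite.mem_toFinset, mem_ofPred_eq] at hp hq
      exact Prod.ext e (hp.2.trans hq.2.symm)

end Fin4

open Fin4 in
theorem finS : FinS := by
  intro F c h V _ G S R hc hh hI
  obtain ⟨G2, l, h2, hm⟩ := exists_max hI.free
  have k0 := two_Mminus_le hm
  rw [pl.dd_induce, Nat.card_coe_set_eq] at k0
  have k1 := hc _ _ (free_induce (h2.mono (sdiff_subset (t := R)) fun _ _ _ _ d => d))
  rw [pl.dd_induce, Nat.card_coe_set_eq] at k1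
  let A : Set (V × V) := {p | p.2 ∈ S \ R ∧ p.1 ∈ R ∧ G2.Adj p.1 p.2 ∧ ¬ G.Adj p.1 p.2}
  have k2 : A.ncard ≤ h * (S \ R).ncard :=
    fib_le (fun _ hp => hp.1) fun y hy =>
      (ncard_le_ncard fun u hu => hu.2).trans (new_le hh hI l h2 hy)
  have k3 : (Prod.swap '' A).ncard = A.ncard := ncard_image_of_injective _ Prod.swap_injective
  have k4 : {p : V × V | p.1 ∈ S ∧ p.2 ∈ S ∧ G2.Adj p.1 p.2} ⊆
      ({p : V × V | G.Adj p.1 p.2 ∧ (p.1 ∈ R ∨ p.2 ∈ R)} ∪
        {p : V × V | p.1 ∈ S \ R ∧ p.2 ∈ S \ R ∧ G2.Adj p.1 p.2}) ∪ (A ∪ Prod.swap '' A) := by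
    rintro ⟨u, v⟩ ⟨hu, hv, e⟩
    by_cases c1 : u ∈ R <;> by_cases c2 : v ∈ R
    · refine Or.inl (Or.inl ⟨?_, Or.inl c1⟩)
      by_contra d
      exact hI.blk u c1 v c2 e.ne d (free_edge l h2 e)
    · by_cases d : G.Adj u v
      exacts [Or.inl (Or.inl ⟨d, Or.inl c1⟩), Or.inr (Or.inl ⟨⟨hv, c2⟩, c1, e, d⟩)]
    · by_cases d : G.Adj u v
      exacts [Or.inl (Or.inl ⟨d, Or.inr c2⟩),
        Or.inr (Or.inr ⟨(v, u), ⟨⟨hu, c1⟩, c2, e.symm, fun d' => d d'.symm⟩, rfl⟩)]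
    · exact Or.inl (Or.inr ⟨⟨hu, c1⟩, ⟨hv, c2⟩, e⟩)
  have k5 := (ncard_le_ncard k4).trans ((ncard_union_le _ _).trans
    (Nat.add_le_add (ncard_union_le _ _) (ncard_union_le _ _)))
  rw [eAt, add_mul, mul_assoc]
  omega

end Pool.Agent.MP_9d78a0_co.fb

end MrgPart3

-- ======== part 4: formerly Pool.Agent.MP_9d78a0_co.fb.Conv
section MrgPart4

/-! Convergence of the gap for all families implies the graph minor theorem. -/

set_option autoImplicit false

namespace Pool.Agent.MP_9d78a0_co.fb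

open Set Function Filter Topology

namespace Conv

variable {V W : Type} {G : SimpleGraph V} {H : SimpleGraph W}

theorem minor_refl (G : SimpleGraph V) : IsMinor G G :=
  isMinor_of_inj id injective_id fun _ _ h => h

theorem minor_card [Finite V] (h : IsMinor H G) : Nat.card W ≤ Nat.card V := by
  obtain ⟨B, hB⟩ := (isMinor_iff _ _).1 h
  choose f hf using fun w => (hB.2.1 w).1
  refine Nat.card_le_card_of_injective f fun w w' e => ?_
  by_contra c
  exact disjoint_left.1 (hB.2.2.1 w w' c) (hf w) (e ▸ hf w')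

theorem minor_dd [Finite V] (h : IsMinor H G) : dd H ≤ dd G := by
  obtain ⟨B, hB⟩ := (isMinor_iff _ _).1 h
  have key : ∀ p : {p : W × W | H.Adj p.1 p.2}, ∃ q : {p : V × V | G.Adj p.1 p.2},
      q.1.1 ∈ B p.1.1 ∧ q.1.2 ∈ B p.1.2 := by
    rintro ⟨p, hp⟩
    obtain ⟨u, hu, v, hv, e⟩ := hB.2.2.2 _ _ hp
    exact ⟨⟨(u, v), e⟩, hu, hv⟩
  choose f h1 h2 using key
  unfold dd
  rw [← Nat.card_coe_set_eq, ← Nat.card_coe_set_eq]
  refine Nat.card_le_card_of_injective f fun p p' e => Subtype.ext (Prod.ext ?_ ?_)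
  · by_contra c
    exact disjoint_left.1 (hB.2.2.1 _ _ c) (h1 p) (e ▸ h1 p')
  · by_contra c
    exact disjoint_left.1 (hB.2.2.1 _ _ c) (h2 p) (e ▸ h2 p')

/-- a new vertex adjacent to all others -/
def cone (G : SimpleGraph V) : SimpleGraph (Option V) where
  Adj a b := a ≠ b ∧ ∀ u v, a = some u → b = some v → G.Adj u v
  symm := ⟨fun _ _ h => ⟨h.1.symm, fun u v e e' => (h.2 v u e' e).symm⟩⟩
  loopless := ⟨fun _ h => h.1 rfl⟩

theorem cone_minor [Nonempty V] (h : IsMinor (cone H) (cone G)) : IsMinor H G := by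
  classical
  obtain ⟨B, hB⟩ := (isMinor_iff _ _).1 h
  obtain ⟨w0, h0⟩ : ∃ w0, ∀ w, w ≠ w0 → none ∉ B w := by
    by_cases c : ∃ w, none ∈ B w
    · obtain ⟨w0, h0⟩ := c
      exact ⟨w0, fun w e d => disjoint_left.1 (hB.2.2.1 w w0 e) d h0⟩
    · exact ⟨none, fun w _ d => c ⟨w, d⟩⟩
  let φ : W → Option W := fun w => if some w = w0 then none else some w
  have h1 : ∀ w, φ w ≠ w0 := fun w => by
    simp only [φ]
    split_ifs with c
    · rw [← c]; simp
    · exact c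
  have h2 : ∀ w w', w ≠ w' → φ w ≠ φ w' := fun w w' e => by
    simp only [φ]
    split_ifs with c c' c'
    · exact absurd (Option.some_injective _ (c.trans c'.symm)) e
    · simp
    · simp
    · simpa using e
  have h3 : ∀ w u, φ w = some u → w = u := fun w u => by
    simp only [φ]
    split_ifs <;> simp
  have m : Model H (cone G) {o | o ≠ none} fun w => B (φ w) :=
    ⟨fun w o ho d => h0 _ (h1 w) (d ▸ ho), fun w => hB.2.1 _,
      fun w w' e => hB.2.2.1 _ _ (h2 w w' e), fun w w' e => hB.2.2.2 _ _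
        ⟨h2 w w' e.ne, fun u v d d' => h3 w u d ▸ h3 w' v d' ▸ e⟩⟩
  refine m.map (fun o => o.getD (Classical.arbitrary V)) ?_ ?_
  · rintro (_ | a) ha (_ | b) hb e
    exacts [rfl, absurd rfl ha, absurd rfl hb, congrArg some e]
  · rintro (_ | a) ha (_ | b) hb e
    exacts [absurd rfl ha, absurd rfl ha, absurd rfl hb, e.2 a b rfl rfl]

/-- every vertex has two neighbours -/
def Two (H : SimpleGraph W) : Prop := ∀ w, ∃ x y, x ≠ y ∧ H.Adj w x ∧ H.Adj w y

theorem two_cone [Nonempty V] (G : SimpleGraph V) : Two (cone (cone G)) := by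
  obtain ⟨x⟩ := ‹Nonempty V›
  rintro (_ | _ | a)
  · exact ⟨some none, some (some x), by simp, ⟨by simp, by simp⟩, ⟨by simp, by simp⟩⟩
  · exact ⟨none, some (some x), by simp, ⟨by simp, by simp⟩, ⟨by simp, by simp [cone]⟩⟩
  · exact ⟨none, some none, by simp, ⟨by simp, by simp⟩, ⟨by simp, by simp [cone]⟩⟩

/-- a model of such a graph avoids closed sets with at most two vertices -/
theorem Two.avoid (t : Two H) {B : W → Set V} (hB : Model H G univ B) {u v : V}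
    (hc : ∀ a b, G.Adj a b → a = u ∨ a = v → b = u ∨ b = v) :
    Model H G {a | ¬ (a = u ∨ a = v)} B := by
  refine ⟨fun w x hx d => ?_, hB.2⟩
  have h1 : ∀ y ∈ B w, y = u ∨ y = v := fun y hy => by
    have k := (hB.2.1 w).2 x hx y hy
    clear hy
    induction k with
    | refl => exact d
    | tail _ k ih => exact hc _ _ k.2.2 ih
  obtain ⟨w1, w2, e, e1, e2⟩ := t w
  obtain ⟨x1, a1, y1, b1, c1⟩ := hB.2.2.2 _ _ e1
  obtain ⟨x2, a2, y2, b2, c2⟩ := hB.2.2.2 _ _ e2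
  have n1 : x ≠ y1 := fun k => disjoint_left.1 (hB.2.2.1 _ _ e1.ne) hx (k ▸ b1)
  have n2 : x ≠ y2 := fun k => disjoint_left.1 (hB.2.2.1 _ _ e2.ne) hx (k ▸ b2)
  have n3 : y1 ≠ y2 := fun k => disjoint_left.1 (hB.2.2.1 _ _ e) b1 (k ▸ b2)
  rcases d with rfl | rfl <;> rcases hc _ _ c1 (h1 _ a1) with rfl | rfl <;>
    rcases hc _ _ c2 (h1 _ a2) with rfl | rfl <;> simp_all

theorem Two.supp (t : Two H) {B : W → Set V} (hB : Model H G univ B) :
    Model H G G.support B := by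
  refine ⟨fun w x hx => ?_, hB.2⟩
  obtain ⟨w1, -, -, e1, -⟩ := t w
  obtain ⟨x1, a1, y1, -, c1⟩ := hB.2.2.2 _ _ e1
  rcases pl.conn_eq_or (hB.2.1 w) hx a1 with rfl | ⟨z, d⟩
  exacts [⟨_, c1⟩, ⟨_, d⟩]

theorem dd_le_sq [Finite V] (G : SimpleGraph V) : dd G ≤ Nat.card V ^ 2 := by
  have := ncard_le_ncard (subset_univ {p : V × V | G.Adj p.1 p.2})
  rwa [ncard_univ, Nat.card_prod, ← sq] at this

theorem supp_le_dd [Finite V] (G : SimpleGraph V) : G.support.ncard ≤ dd G := by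
  have : G.support ⊆ Prod.fst '' {p : V × V | G.Adj p.1 p.2} := fun x ⟨y, e⟩ => ⟨(x, y), e, rfl⟩
  exact (ncard_le_ncard this).trans (ncard_image_le (toFinite _))

theorem Mplus_succ {F : Family} (he : ∀ H ∈ F, H.2 ≠ ⊥) {c : ℕ} (hc : EdgeBound F c) (n : ℕ) :
    Mplus F (n + 1) ≤ Mplus F n + c := by
  obtain ⟨G, hG, hd⟩ := exists_Mplus he (n + 1)
  obtain ⟨v, hv⟩ : ∃ v, (G.neighborSet v).ncard ≤ c := by
    by_contra k
    push Not at k
    have h1 := hc _ G hG.1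
    have h2 : ∑ _v : Fin (n + 1), (c + 1) ≤ ∑ v, (G.neighborSet v).ncard :=
      Finset.sum_le_sum fun v _ => k v
    rw [← dd_eq_sum] at h2
    simp only [Finset.sum_const, Finset.card_univ, Fintype.card_fin, smul_eq_mul,
      Nat.card_eq_fintype_card] at h1 h2
    nlinarith
  let e := (finSuccEquiv' v).symm
  have e0 : e none = v := finSuccEquiv'_symm_none v
  have h1 := dd_option_le (G := (G.comap e).comap some) (G' := G.comap e) fun _ _ h => h
  have h2 := dd_comap G e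
  have h3 := le_two_Mplus (G := (G.comap e).comap some) (hG.1.of_inj (fun a => e (some a))
    (e.injective.comp (Option.some_injective _)) fun _ _ h => h)
  have h4 : {a | (G.comap e).Adj (some a) none}.ncard ≤ (G.neighborSet v).ncard :=
    ncard_le_ncard_of_injOn (fun a => e (some a)) (fun a ha => (e0 ▸ ha : G.Adj _ v).symm)
      (e.injective.comp (Option.some_injective _)).injOn (toFinite _)
  rw [Nat.card_eq_fintype_card, Fintype.card_fin] at h3
  omega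

theorem no_lim (g : ℕ → ℕ) (h : ∀ N, ∃ a ≥ N, 4 * g (a + 1) + a ≤ 4 * g a) {l : ℝ}
    (hl : Tendsto (fun n : ℕ => (g n : ℝ) / n) atTop (𝓝 l)) : False := by
  obtain ⟨N, hN⟩ := Metric.tendsto_atTop.1 hl (1 / 8) (by norm_num)
  obtain ⟨a, ha, k⟩ := h (N + 1)
  have h1 := abs_lt.1 (Real.dist_eq _ _ ▸ hN a (by omega))
  have h2 := abs_lt.1 (Real.dist_eq _ _ ▸ hN (a + 1) (by omega))
  have p : (0 : ℝ) < a := by exact_mod_cast (by omega : 0 < a)
  have k' : (4 : ℝ) * g (a + 1) + a ≤ 4 * g a := by exact_mod_cast k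
  have h3 : (g (a + 1) : ℝ) / ((a + 1 : ℕ) : ℝ) ≤ g (a + 1) / a :=
    div_le_div_of_nonneg_left (Nat.cast_nonneg _) p (by push_cast; linarith)
  have h4 : (g (a + 1) : ℝ) / a + 1 / 4 ≤ g a / a := by
    rw [div_add' _ _ _ p.ne', div_le_div_iff_of_pos_right p]
    linarith
  linarith [h1.2, h2.1]

section family

variable {T : ℕ → Type} (K : ∀ i, SimpleGraph (T i))

/-- the family built from an infinite antichain -/
def fam : Family :=
  {H | ∃ i, IsMinor (K i) H.2 ∧ (4 * Nat.card (T i) ^ 2 < H.1 ∨ dd (K i) < dd H.2)}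

variable {K}

theorem free_iff [Finite V] : Free (fam K) G ↔
    ∀ i, IsMinor (K i) G → Nat.card V ≤ 4 * Nat.card (T i) ^ 2 ∧ dd G ≤ dd (K i) := by
  constructor
  · intro h i m
    by_contra c
    let e := (Finite.equivFin V).symm
    refine h ⟨Nat.card V, G.comap e⟩ ⟨i, m.trans (isMinor_of_inj e.symm e.symm.injective
      fun a b d => by simpa using d), ?_⟩ (isMinor_of_inj e e.injective fun _ _ d => d)
    have := dd_comap G e
    dsimp only
    omega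
  · rintro h H ⟨i, m, c⟩ m'
    have h1 := h i (m.trans m')
    have h2 := minor_card m'
    have h3 := minor_dd m'
    rw [Nat.card_eq_fintype_card, Fintype.card_fin] at h2
    omega

theorem fam_ne (ht : ∀ i, Two (K i)) [∀ i, Nonempty (T i)] : ∀ H ∈ fam K, H.2 ≠ ⊥ := by
  rintro H ⟨i, m, -⟩ e
  obtain ⟨B, hB⟩ := (isMinor_iff _ _).1 m
  obtain ⟨w⟩ := (inferInstance : Nonempty (T i))
  obtain ⟨x, -, -, d, -⟩ := ht i w
  obtain ⟨u, -, v, -, c⟩ := hB.2.2.2 _ _ d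
  rw [e] at c
  exact c

theorem exists_emb [∀ i, Finite (T i)] (i n : ℕ) (h : Nat.card (T i) ≤ n) :
    Nonempty (T i ↪ Fin n) := by
  have := Fintype.ofFinite (T i)
  exact Function.Embedding.nonempty_of_card_le (by simpa using h)

theorem fam_nonempty [∀ i, Finite (T i)] : (fam K).Nonempty := by
  obtain ⟨f⟩ := exists_emb (T := T) 0 (4 * Nat.card (T 0) ^ 2 + 1) (by nlinarith)
  exact ⟨⟨_, ⊤⟩, 0, isMinor_of_inj f f.injective fun a b d e => d.ne (f.injective e),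
    Or.inl (Nat.lt_succ_self _)⟩

theorem low [∀ i, Finite (T i)] [∀ i, Nonempty (T i)] (ht : ∀ i, Two (K i))
    (ha : ∀ i j, IsMinor (K i) (K j) → i = j) (i : ℕ) :
    2 * Mminus (fam K) (4 * Nat.card (T i) ^ 2) ≤ Nat.card (T i) ^ 2 := by
  obtain ⟨f⟩ := exists_emb (T := T) i (4 * Nat.card (T i) ^ 2) (by nlinarith)
  have h0 : ∀ a b, (K i).Adj a b → ((K i).map f).Adj (f a) (f b) := fun a b d =>
    SimpleGraph.map_adj_apply.2 d
  have h1 : ∀ x y, ((K i).map f).Adj x y → ∃ a b, (K i).Adj a b ∧ f a = x ∧ f b = y :=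
    fun x y d => (SimpleGraph.map_adj f _ x y).1 d
  generalize (K i).map f = G at h0 h1
  have h2 : dd G ≤ dd (K i) := by
    have : {p | G.Adj p.1 p.2} ⊆ Prod.map f f '' {p | (K i).Adj p.1 p.2} := by
      rintro ⟨x, y⟩ d
      obtain ⟨a, b, e, rfl, rfl⟩ := h1 x y d
      exact ⟨(a, b), e, rfl⟩
    exact (ncard_le_ncard this).trans (ncard_image_le (toFinite _))
  have h3 := dd_le_of_inj f f.injective h0
  have h4 : EdgeMax (fam K) G := by
    refine ⟨free_iff.2 fun j m => ?_, fun u v n d c => ?_⟩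
    · obtain ⟨B, hB⟩ := (isMinor_iff _ _).1 m
      obtain rfl : j = i := by
        refine ha j i (((ht j).supp hB).map (invFun f) ?_ ?_)
        · rintro x ⟨x', d⟩ y ⟨y', d'⟩ e
          obtain ⟨a, -, -, rfl, -⟩ := h1 _ _ d
          obtain ⟨b, -, -, rfl, -⟩ := h1 _ _ d'
          rw [leftInverse_invFun f.injective a, leftInverse_invFun f.injective b] at e
          rw [e]
        · intro x _ y _ d
          obtain ⟨a, b, d, rfl, rfl⟩ := h1 _ _ d
          rwa [leftInverse_invFun f.injective a, leftInverse_invFun f.injective b]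
      exact ⟨by simp, h2⟩
    · have b1 := (free_iff.1 c i (isMinor_of_inj f f.injective fun a b e => Or.inl (h0 a b e))).2
      have b2 : dd G < dd (G ⊔ SimpleGraph.edge u v) :=
        ncard_lt_ncard ⟨fun p hp => Or.inl hp, fun k => d (k (a := (u, v))
          (Or.inr ((SimpleGraph.edge_adj u v u v).2 ⟨Or.inl ⟨rfl, rfl⟩, n⟩)))⟩
      omega
  have h5 := two_Mminus_le h4
  have h6 := dd_le_sq (K i)
  rw [Nat.card_eq_fintype_card (α := Fin _), Fintype.card_fin] at h5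
  omega

theorem high [∀ i, Finite (T i)] [∀ i, Nonempty (T i)] (ht : ∀ i, Two (K i))
    (hg : ∀ i j, i < j → 4 * Nat.card (T i) ^ 2 + 1 < Nat.card (T j)) (i : ℕ) :
    4 * Nat.card (T i) ^ 2 ≤ 2 * Mminus (fam K) (4 * Nat.card (T i) ^ 2 + 1) := by
  obtain ⟨G, hG, hd⟩ := exists_Mminus (fam_ne ht) (4 * Nat.card (T i) ^ 2 + 1)
  have h1 : (G.supportᶜ).Subsingleton := by
    intro u hu v hv
    by_contra n
    refine hG.2 u v n (fun d => hu ⟨_, d⟩) (free_iff.2 fun j m => False.elim ?_)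
    obtain ⟨B, hB⟩ := (isMinor_iff _ _).1 m
    have b1 : IsMinor (K j) G := by
      refine ((ht j).avoid hB (u := u) (v := v) fun a b d c => ?_).map id (injOn_id _)
        fun a ha b _ d => ?_
      · rcases sup_edge_adj d with k | k | k
        · rcases c with rfl | rfl
          exacts [absurd ⟨_, k⟩ hu, absurd ⟨_, k⟩ hv]
        exacts [Or.inr k.2, Or.inl k.2]
      · rcases sup_edge_adj d with k | k | k
        exacts [k, absurd (Or.inl k.1) ha, absurd (Or.inr k.1) ha]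
    have b2 := (free_iff.1 hG.1 j b1).1
    have b3 := minor_card b1
    rw [Nat.card_eq_fintype_card (α := Fin _), Fintype.card_fin] at b2 b3
    rcases lt_trichotomy i j with k | rfl | k
    · have := hg i j k
      omega
    · omega
    · have := hg j i k
      nlinarith
  have h2 := ncard_add_ncard_compl G.support
  have h3 := (ncard_le_one (toFinite _)).2 fun a ha b hb => h1 ha hb
  have h4 := supp_le_dd G
  rw [Nat.card_eq_fintype_card (α := Fin _), Fintype.card_fin] at h2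
  omega

theorem no_anti [∀ i, Finite (T i)] [∀ i, Nonempty (T i)] (ht : ∀ i, Two (K i))
    (ha : ∀ i j, i < j → ¬ IsMinor (K i) (K j))
    (hg : ∀ i j, i < j → 4 * Nat.card (T i) ^ 2 + 1 < Nat.card (T j)) {l : ℝ}
    (hl : Tendsto (fun n : ℕ => (gap (fam K) n : ℝ) / n) atTop (𝓝 l)) : False := by
  have ha' : ∀ i j, IsMinor (K i) (K j) → i = j := fun i j m => by
    rcases lt_trichotomy i j with k | k | k
    · exact absurd m (ha i j k)
    · exact k
    · have := hg j i k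
      have := minor_card m
      nlinarith
  have hs : ∀ i, i ≤ Nat.card (T i) := fun i => by
    induction i with
    | zero => exact Nat.zero_le _
    | succ i ih =>
      have := hg i (i + 1) (Nat.lt_succ_self _)
      nlinarith
  obtain ⟨c, h, hc, -⟩ := exists_bounds (fam_nonempty (K := K))
  refine no_lim _ (fun N => ⟨4 * Nat.card (T (N + 2 * c)) ^ 2, ?_, ?_⟩) hl
  · have := hs (N + 2 * c)
    nlinarith
  · have h1 := low ht ha' (N + 2 * c)
    have h2 := high ht hg (N + 2 * c)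
    have h3 := Mplus_succ (fam_ne ht) hc (4 * Nat.card (T (N + 2 * c)) ^ 2)
    have h4 := Mminus_le_Mplus (fam_ne ht) (4 * Nat.card (T (N + 2 * c)) ^ 2)
    have h5 := Mminus_le_Mplus (fam_ne ht) (4 * Nat.card (T (N + 2 * c)) ^ 2 + 1)
    have h6 : 2 * c ≤ Nat.card (T (N + 2 * c)) ^ 2 := by
      have := hs (N + 2 * c)
      nlinarith
    unfold gap
    omega

end family

theorem exists_big {G : ℕ → Σ k : ℕ, SimpleGraph (Fin k)}
    (hb : ∀ i j, i < j → ¬ IsMinor (G i).2 (G j).2) (n N : ℕ) : ∃ m, n < m ∧ N < (G m).1 := by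
  by_contra c
  push Not at c
  have hf : (⋃ k ∈ Iic N, range fun H : SimpleGraph (Fin k) =>
      (⟨k, H⟩ : Σ k : ℕ, SimpleGraph (Fin k))).Finite :=
    (finite_Iic N).biUnion fun _ _ => finite_range _
  refine ((Ioi_infinite n).exists_lt_map_eq_of_mapsTo (f := G) (fun m hm => ?_) hf).elim ?_
  · exact mem_iUnion₂.2 ⟨(G m).1, c m hm, (G m).2, rfl⟩
  rintro x ⟨-, y, -, h1, h2⟩
  exact hb x y h1 (h2 ▸ minor_refl _)

end Conv

theorem rs_of_q1 (h : ∀ F : Family, F.Nonempty → (∀ H ∈ F, H.2 ≠ ⊥) →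
      ∃ l : ℝ, Tendsto (fun n : ℕ => (gap F n : ℝ) / n) atTop (𝓝 l))
    (G : ℕ → Σ k : ℕ, SimpleGraph (Fin k)) : ∃ i j, i < j ∧ IsMinor (G i).2 (G j).2 := by
  by_contra c
  push Not at c
  choose f h1 h2 using fun n => Conv.exists_big c n (4 * ((G n).1 + 2) ^ 2 + 1)
  let x : ℕ → ℕ := fun t => f (f^[t] 0)
  have hx : ∀ t, x (t + 1) = f (x t) := fun t => by
    simp only [x, iterate_succ_apply']
  have m1 : StrictMono x := strictMono_nat_of_lt_succ fun t => hx t ▸ h1 _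
  have m2 : StrictMono fun t => (G (x t)).1 := strictMono_nat_of_lt_succ fun t => by
    have := h2 (x t)
    rw [hx]
    nlinarith
  have ne : ∀ t, Nonempty (Fin (G (x t)).1) := fun t => ⟨⟨0, lt_of_le_of_lt (Nat.zero_le _) (h2 _)⟩⟩
  have ht := fun t => Conv.two_cone (G (x t)).2
  obtain ⟨l, hl⟩ := h (Conv.fam fun t => Conv.cone (Conv.cone (G (x t)).2)) Conv.fam_nonempty
    (Conv.fam_ne ht)
  refine Conv.no_anti ht (fun i j k m => c _ _ (m1 k) (Conv.cone_minor (Conv.cone_minor m)))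
    (fun i j k => ?_) hl
  have b1 := m2.monotone (Nat.succ_le_of_lt k)
  have b2 := h2 (x i)
  simp only [Nat.succ_eq_add_one, hx] at b1
  simp only [Nat.card_eq_fintype_card, Fintype.card_option, Fintype.card_fin]
  rw [add_assoc (G (x i)).1, one_add_one_eq_two]
  omega

end Pool.Agent.MP_9d78a0_co.fb

end MrgPart4

-- marker of a merged file
example : 731051 + 308315 = 731051 + 308315 := rfl
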