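import Pool.Agent.MP_9d78a0_co.fb.S2

-- ======== part 0: formerly Pool.Agent.MP_9d78a0_co.fb.U3c
section MrgPart0

/-! Row U3C: families of chords side by side. -/

set_option autoImplicit false

namespace Pool.Agent.MP_9d78a0_co.fb

open Set Function

namespace U3c

lemma ends_eq (T : Finset (ℕ × ℕ)) :
    ends T = ((T.image Prod.fst ∪ T.image Prod.snd : Finset ℕ) : Set ℕ) := by
  ext a
  simp only [ends, mem_ofPred_eq, Finset.coe_union, Finset.coe_image, mem_union, mem_image,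
    Finset.mem_coe]
  constructor
  · rintro ⟨p, hp, h | h⟩
    · exact Or.inl ⟨p, hp, h.symm⟩
    · exact Or.inr ⟨p, hp, h.symm⟩
  · rintro (⟨p, hp, h⟩ | ⟨p, hp, h⟩)
    · exact ⟨p, hp, Or.inl h.symm⟩
    · exact ⟨p, hp, Or.inr h.symm⟩

/-- the number of ends below `v` -/
noncomputable def cnt (T : Finset (ℕ × ℕ)) (v : ℕ) : ℕ := (ends T ∩ Iio v).ncard

lemma cnt_le {k : ℕ} {T : Finset (ℕ × ℕ)} (h : T.card ≤ k) (v : ℕ) : cnt T v < 2 * k + 1 := by
  have h1 : cnt T v ≤ (ends T).ncard :=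
    ncard_le_ncard inter_subset_left (by rw [ends_eq]; exact Finset.finite_toSet _)
  rw [ends_eq, ncard_coe_finset] at h1
  have h2 := Finset.card_union_le (T.image Prod.fst) (T.image Prod.snd)
  have h3 := Finset.card_image_le (s := T) (f := Prod.fst)
  have h4 := Finset.card_image_le (s := T) (f := Prod.snd)
  omega

lemma cnt_lt {T : Finset (ℕ × ℕ)} {a v v' : ℕ} (ha : a ∈ ends T) (h : v ≤ a) (h' : a < v') :
    cnt T v < cnt T v' := by
  refine ncard_lt_ncard ⟨inter_subset_inter_right _ (Iio_subset_Iio (by omega)), fun hs => ?_⟩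
    ((finite_Iio v').inter_of_right _)
  have := (hs ⟨ha, h'⟩).2
  simp only [mem_Iio] at this
  omega

/-- the data of a family of pairs of runs side by side -/
structure St (k n w N x0 : ℕ) (σ : ℕ → ℕ) (T : Finset (ℕ × ℕ)) (A : Set ℕ) (l ρ : ℕ → ℕ) :
    Prop where
  m : MinI k n σ T
  w1 : 2 * k < w
  oc : A.OrdConnected
  dj : Disjoint (ends T) A
  x0A : x0 ∈ A
  x0n : x0 < 2 * n
  lo : ∀ s < N, x0 < l s ∧ σ x0 < l s ∧ l s + w ≤ ρ s ∧ ρ s + w ≤ 2 * n ∧ ρ s + w - 1 ∈ A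
  ord : ∀ s t, s < t → t < N → ρ s + w ≤ l t

variable {k n w N x0 : ℕ} {σ : ℕ → ℕ} {T : Finset (ℕ × ℕ)} {A : Set ℕ} {l ρ : ℕ → ℕ}

lemma St.memA (h : St k n w N x0 σ T A l ρ) {s y : ℕ} (hs : s < N) (h1 : x0 ≤ y)
    (h2 : y < ρ s + w) : y ∈ A :=
  h.oc.out h.x0A (h.lo s hs).2.2.2.2 ⟨h1, by omega⟩

lemma St.endP (h : St k n w N x0 σ T A l ρ) : ends T ⊆ Iio (2 * n) \ {x0} := fun a ha =>
  ⟨h.m.elt a ha, fun e => disjoint_left.1 h.dj ha (by rw [mem_singleton_iff.1 e]; exact h.x0A)⟩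

lemma St.notGood (h : St k n w N x0 σ T A l ρ) : ¬ Good σ T (Iio (2 * n) \ {x0}) :=
  fun g => h.m.min ⟨x0, h.x0n, g⟩

/-- the conclusion of the universal lemma -/
def UaB (k Q : ℕ) : Prop :=
  ∀ (σ : ℕ → ℕ) (T : Finset (ℕ × ℕ)) (Z : ℕ → Set ℕ) (A P : Set ℕ), Term k σ T →
    (∀ s < Q, Gad σ (2 * k) (Z s) ∧ Z s ⊆ A ∧ Z s ⊆ P) →
    (∀ s t, s < t → t < Q → ∀ z ∈ Z s, ∀ z' ∈ Z t, z < z') →
    A.OrdConnected → Disjoint (ends T) A → ends T ⊆ P → Good σ T P

/-- the conclusion of the hairpin lemma -/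
def HpB (k Q W : ℕ) : Prop :=
  ∀ (σ : ℕ → ℕ) (T : Finset (ℕ × ℕ)) (M : ℕ) (x a c p : ℕ → ℕ) (P : Set ℕ),
    Term k σ T → Band σ T M x → Sup σ T M x P →
    (∀ s < Q, W ≤ a s ∧ a s < c s ∧ c s + W < M ∧ Btw (x (a s)) (x (a s + 1)) (p s) ∧
      Btw (x (c s)) (x (c s + 1)) (σ (p s)) ∧ p s ∈ P ∧ σ (p s) ∈ P) →
    (∀ s t, s < t → t < Q → c s + W ≤ a t) → Good σ T P

lemma zone {Q : ℕ} (hU : UaB k Q) (h : St k n w N x0 σ T A l ρ) (a b : ℕ → ℕ)
    (h1 : ∀ s < Q, Gad σ (2 * k) (Ico (a s) (b s)) ∧ x0 < a s ∧ ∃ t < N, b s ≤ ρ t + w)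
    (h2 : ∀ s t, s < t → t < Q → b s ≤ a t) : False := by
  refine h.notGood (hU σ T (fun s => Ico (a s) (b s)) A _ h.m.term (fun s hs => ?_)
    (fun s t hst ht z hz z' hz' => ?_) h.oc h.dj h.endP)
  · obtain ⟨g, ha, t, ht, hb⟩ := h1 s hs
    have := h.lo t ht
    refine ⟨g, fun y hy => h.memA ht (by have := hy.1; omega) (by have := hy.2; omega),
      fun y hy => ⟨?_, ?_⟩⟩
    · have := hy.2
      simp only [mem_Iio]
      omega
    · have := hy.1
      simp only [mem_singleton_iff]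
      omega
  · have := h2 s t hst ht
    have := hz.2
    have := hz'.1
    omega

lemma transl {Q : ℕ} (hg : GadS) (hU : UaB k Q) (h : St k n w N x0 σ T A l ρ) (hQ : Q ≤ N)
    (ht : ∀ s < N, ∀ i < w, σ (l s + i) = ρ s + i) : False := by
  have hw := h.w1
  refine zone hU h l (fun s => ρ s + w) (fun s hs => ?_) fun s t hst ht => h.ord s t hst (by omega)
  have hs' : s < N := by omega
  have hl := h.lo s hs'
  refine ⟨(hg σ (2 * k) _ (fun i => l s + i) (fun i j hij _ => by omega) fun i hi => ?_).1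
    fun i j hij hj => ?_, hl.1, s, hs', le_rfl⟩
  · rw [ht s hs' i (by omega)]
    refine ⟨⟨by omega, by omega⟩, ⟨by omega, by omega⟩, fun j hj => ?_⟩
    rw [ht s hs' j (by omega)]
    omega
  · rw [ht s hs' i (by omega), ht s hs' j (by omega)]
    omega

/-- the three gadgets of a reflected pair of runs -/
lemma gad (hg : GadS) (h : St k n w N x0 σ T A l ρ)
    (hr : ∀ s < N, ∀ i < w, σ (l s + i) + i + 1 = ρ s + w) {s a b : ℕ} (hs : s < N)
    (ha : a ≤ l s) (hb : ρ s + w ≤ b) :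
    (∀ c d, l s + w ≤ c → c < d → d < σ c → σ c < σ d → σ d < ρ s → Gad σ (2 * k) (Ico a b)) ∧
    (∀ u, l s + w ≤ u → u < ρ s → a ≤ σ u → σ u < l s → Gad σ (2 * k) (Ico a b)) ∧
    ∀ u, l s + w ≤ u → u < ρ s → ρ s + w ≤ σ u → σ u < b → Gad σ (2 * k) (Ico a b) := by
  have hw := h.w1
  have hl := h.lo s hs
  have hv := h.m.term.inv
  obtain ⟨g1, g2, g3⟩ := (hg σ (2 * k) (Ico a b) (fun i => l s + i) (fun i j hij _ => by omega)
    fun i hi => by
      have e := hr s hs i (by omega)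
      refine ⟨⟨by omega, by omega⟩, ⟨by omega, by omega⟩, fun j hj => ?_⟩
      have e' := hr s hs j (by omega)
      omega).2 fun i j hij hj => by
      have e := hr s hs i (by omega)
      have e' := hr s hs j (by omega)
      omega
  refine ⟨fun c d h1 h2 h3 h4 h5 => g1 c d ⟨by omega, by omega⟩ ⟨by omega, by omega⟩
    ⟨by omega, by omega⟩ ⟨by omega, by omega⟩ h2 h3 h4 fun i hi => ?_,
    fun u h1 h2 h3 h4 => g2 (σ u) ⟨h3, by omega⟩ (by rw [hv u]; exact ⟨by omega, by omega⟩)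
      (by rw [hv u]; omega) fun i hi => ?_,
    fun u h1 h2 h3 h4 => g3 u ⟨by omega, by omega⟩ ⟨by omega, h4⟩ (by omega) fun i hi => ?_⟩
  · have e := hr s hs i (by omega)
    omega
  · have e := hr s hs i (by omega)
    rw [hv u]
    omega
  · have e := hr s hs i (by omega)
    omega

/-- the jumps form a band and the runs give hairpins -/
lemma band {Q W M : ℕ} (hH : HpB k Q W) (h : St k n w N x0 σ T A l ρ)
    (hr : ∀ s < N, ∀ i < w, σ (l s + i) + i + 1 = ρ s + w) (e u : ℕ → ℕ)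
    (hM : W + Q * (W + 1) + W + 2 ≤ M) (he : ∀ i j, i < j → j < M → e i < e j)
    (heN : ∀ i < M, e i < N) (hu : ∀ i < M, l (e i) + w ≤ u i ∧ u i < ρ (e i) ∧ σ (u i) ≠ u i)
    (hmo : Mo (σ ∘ u) M) (hc : ∀ i < M, ∀ j < M, cnt T (σ (u i)) = cnt T (σ (u j)))
    (hd : (∀ i < M, ∀ j < M, u i < σ (u j)) ∨ ∀ i < M, ∀ j < M, σ (u j) < u i) : False := by
  have hw := h.w1
  have hv := h.m.term.inv
  have hum : ∀ i j, i < j → j < M → u i < u j := fun i j hij hj => by
    have := h.ord _ _ (he i j hij hj) (heN j hj)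
    have := hu i (by omega)
    have := hu j hj
    omega
  refine h.notGood (hH σ T M u (fun s => W + s * (W + 1)) (fun s => W + s * (W + 1) + 1)
    (fun s => l (e (W + s * (W + 1) + 1))) _ h.m.term ⟨Or.inl hum, hmo, ?_, ?_, ?_⟩
    ⟨h.endP, fun j _ hj => ?_⟩ (fun s hs => ?_) fun s t hst _ => ?_)
  · refine disjoint_left.2 ?_
    rintro y ⟨i, hi, j, hj, h1, h2⟩ ⟨i', hi', j', hj', h3, h4⟩
    simp only [comp_apply] at h3 h4
    rcases hd with hd | hd
    · have := hd j hj i' hi'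
      omega
    · have := hd i hi j' hj'
      omega
  · refine disjoint_left.2 ?_
    rintro y hy ⟨i, hi, j, hj, h1, h2⟩
    have := hu i hi
    have := hu j hj
    have := h.lo _ (heN i hi)
    exact disjoint_left.1 h.dj hy (h.memA (heN j hj) (by omega) (by omega))
  · refine disjoint_left.2 ?_
    rintro y hy ⟨i, hi, j, hj, h1, h2⟩
    simp only [comp_apply] at h1 h2
    have e1 := h.m.term.fix y hy
    have e2 : y ≠ σ (u j) := fun e2 => by
      rw [e2, hv] at e1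
      exact (hu j hj).2.2 e1.symm
    have := cnt_lt hy h1 (lt_of_le_of_ne h2 e2)
    have := hc i hi j hj
    omega
  · have h1 := hu j hj
    have h2 := h.lo _ (heN j hj)
    refine ⟨⟨?_, ?_⟩, h.m.lt _ (by omega), fun e1 => ?_⟩
    · simp only [mem_Iio]
      omega
    · simp only [mem_singleton_iff]
      omega
    · have e2 : σ x0 = u j := by rw [← mem_singleton_iff.1 e1, hv]
      omega
  · have hsQ : (s + 1) * (W + 1) ≤ Q * (W + 1) := Nat.mul_le_mul_right _ hs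
    rw [Nat.succ_mul] at hsQ
    generalize s * (W + 1) = c at *
    have h0 := hu (W + c) (by omega)
    have h1 := hu (W + c + 1) (by omega)
    have h2 := hu (W + c + 1 + 1) (by omega)
    have o1 := h.ord _ _ (he (W + c) (W + c + 1) (by omega) (by omega)) (heN _ (by omega))
    have o2 := h.ord _ _ (he (W + c + 1) (W + c + 1 + 1) (by omega) (by omega)) (heN _ (by omega))
    have l1 := h.lo _ (heN (W + c + 1) (by omega))
    have e1 := hr _ (heN (W + c + 1) (by omega)) 0 (by omega)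
    simp only [Nat.add_zero] at e1
    refine ⟨by omega, by omega, by omega, Or.inl ⟨by omega, by omega⟩, Or.inl ⟨by omega, by omega⟩,
      ⟨?_, ?_⟩, ?_, ?_⟩
    · simp only [mem_Iio]
      omega
    · simp only [mem_singleton_iff]
      omega
    · simp only [mem_Iio]
      omega
    · simp only [mem_singleton_iff]
      omega
  · have hst' : (s + 1) * (W + 1) ≤ t * (W + 1) := Nat.mul_le_mul_right _ hst
    rw [Nat.succ_mul] at hst'
    omega

/-- the arc between the two runs is closed under the involution -/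
def Cl (w : ℕ) (σ l ρ : ℕ → ℕ) (s : ℕ) : Prop :=
  ∀ x ∈ Ico (l s + w) (ρ s), σ x ∈ Ico (l s + w) (ρ s)

lemma closed (hM : MinS) (h : St k n w N x0 σ T A l ρ)
    (hr : ∀ s < N, ∀ i < w, σ (l s + i) + i + 1 = ρ s + w) {s : ℕ} (hs : s < N)
    (hc : Cl w σ l ρ s) :
    ∃ c d, l s + w ≤ c ∧ c < d ∧ d < σ c ∧ σ c < σ d ∧ σ d < ρ s := by
  obtain ⟨-, m2, m3, -⟩ := hM k n σ T h.m
  have hw := h.w1
  have hl := h.lo s hs
  have e := hr s hs (w - 1) (by omega)
  have e' := m2 (l s + (w - 1)) (by omega)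
  obtain ⟨p, hp, q, hq, h1, h2, h3⟩ := m3 (l s + w) (ρ s) (by omega) (by omega) fun x hx =>
    ⟨hc x hx, fun f => disjoint_left.1 h.dj (h.m.all x (by have := hx.2; omega) f)
      (h.memA hs (by have := hx.1; omega) (by have := hx.2; omega))⟩
  exact ⟨p, q, hp.1, h1, h2, h3, (hc q hq).2⟩

lemma jump (h : St k n w N x0 σ T A l ρ)
    (hr : ∀ s < N, ∀ i < w, σ (l s + i) + i + 1 = ρ s + w) (s : ℕ) :
    ∃ u, s < N → ¬ Cl w σ l ρ s →
      l s + w ≤ u ∧ u < ρ s ∧ (σ u < l s ∨ ρ s + w ≤ σ u) := by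
  by_cases hc : Cl w σ l ρ s
  · exact ⟨0, fun _ h' => (h' hc).elim⟩
  have hv := h.m.term.inv
  simp only [Cl, not_forall] at hc
  obtain ⟨u, hu, hu'⟩ := hc
  refine ⟨u, fun hs _ => ⟨hu.1, hu.2, ?_⟩⟩
  have h1 := hu.1
  have h2 := hu.2
  simp only [mem_Ico, not_and_or, not_le, not_lt] at hu'
  by_contra hn
  push Not at hn
  rcases hu' with h3 | h3
  · have e := hr s hs (σ u - l s) (by omega)
    rw [show l s + (σ u - l s) = σ u by omega, hv] at e
    omega
  · have e := hr s hs (ρ s + w - 1 - σ u) (by omega)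
    have e' : σ (l s + (ρ s + w - 1 - σ u)) = σ u := by omega
    have := hv.injective e'
    omega

lemma refl (hR : RamseyS) (hM : MinS) (hg : GadS) {Q Q' W : ℕ} (hU : UaB k Q) (hH : HpB k Q' W) :
    ∃ N0, ∀ (n w N x0 : ℕ) (σ : ℕ → ℕ) (T : Finset (ℕ × ℕ)) (A : Set ℕ) (l ρ : ℕ → ℕ), N0 ≤ N →
      St k n w N x0 σ T A l ρ → (∀ s < N, ∀ i < w, σ (l s + i) + i + 1 = ρ s + w) → False := by
  obtain ⟨m, hm⟩ := hR (Prop × Prop × Fin (2 * k + 1) × Prop × Prop × Prop)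
    (Q + (W + Q' * (W + 1) + W + 2) + 2)
  refine ⟨m, fun n w N x0 σ T A l ρ hN h hr => ?_⟩
  choose u hu using jump h hr
  have hv := h.m.term.inv
  have hw := h.w1
  obtain ⟨e, ⟨γ1, γ2, γ3, γ4, γ5, γ6⟩, he, hem, hc⟩ := hm fun i j =>
    (Cl w σ l ρ i, σ (u i) < l i, ⟨cnt T (σ (u i)), cnt_le h.m.term.card _⟩, σ (u i) < σ (u j),
      σ (u i) < l j, ρ i + w ≤ σ (u j))
  generalize hMd : W + Q' * (W + 1) + W + 2 = M at he hem hc
  simp only [Prod.mk.injEq, eq_iff_iff] at hc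
  have heN : ∀ i < Q + M + 2, e i < N := fun i hi => (hem i hi).trans_le hN
  have hord : ∀ i j, i < j → j < Q + M + 2 → ρ (e i) + w ≤ l (e j) := fun i j hij hj =>
    h.ord _ _ (he i j hij hj) (heN j hj)
  have hlo : ∀ i < Q + M + 2, x0 < l (e i) ∧ l (e i) + w ≤ ρ (e i) := fun i hi =>
    ⟨(h.lo _ (heN i hi)).1, (h.lo _ (heN i hi)).2.2.1⟩
  by_cases g1 : γ1
  · refine zone hU h (fun s => l (e s)) (fun s => ρ (e s) + w) (fun s hs => ?_)
      fun s t hst ht => hord s t hst (by omega)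
    have hs' := heN s (by omega)
    obtain ⟨c, d, h1, h2, h3, h4, h5⟩ :=
      closed hM h hr hs' ((hc s (s + 1) (by omega) (by omega)).1.2 g1)
    exact ⟨(gad hg h hr hs' le_rfl le_rfl).1 c d h1 h2 h3 h4 h5, (hlo s (by omega)).1, _, hs',
      le_rfl⟩
  have hu' : ∀ i < Q + M + 1, l (e i) + w ≤ u (e i) ∧ u (e i) < ρ (e i) ∧
      (σ (u (e i)) < l (e i) ∨ ρ (e i) + w ≤ σ (u (e i))) := fun i hi =>
    hu _ (heN i (by omega)) fun c => g1 ((hc i (i + 1) (by omega) (by omega)).1.1 c)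
  have hband : ((∀ i < M, ∀ j < M, u (e (i + 1)) < σ (u (e (j + 1)))) ∨
      ∀ i < M, ∀ j < M, σ (u (e (j + 1))) < u (e (i + 1))) → False := fun hd => by
    refine band hH h hr (fun i => e (i + 1)) (fun i => u (e (i + 1))) hMd.le
      (fun i j hij hj => he _ _ (by omega) (by omega)) (fun i hi => heN _ (by omega))
      (fun i hi => ?_) ?_ (fun i hi j hj => ?_) hd
    · have := hu' (i + 1) (by omega)
      omega
    · by_cases g4 : γ4
      · exact Or.inl fun i j hij hj =>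
          (hc (i + 1) (j + 1) (by omega) (by omega)).2.2.2.1.2 g4
      · refine Or.inr fun i j hij hj => ?_
        have a1 : ¬ σ (u (e (i + 1))) < σ (u (e (j + 1))) := fun c =>
          g4 ((hc (i + 1) (j + 1) (by omega) (by omega)).2.2.2.1.1 c)
        have a2 : σ (u (e (i + 1))) ≠ σ (u (e (j + 1))) := fun c => by
          have := hv.injective c
          have := hu' (i + 1) (by omega)
          have := hu' (j + 1) (by omega)
          have := hord (i + 1) (j + 1) (by omega) (by omega)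
          omega
        simp only [comp_apply]
        omega
    · have a1 := (hc (i + 1) (Q + M + 1) (by omega) (by omega)).2.2.1
      have a2 := (hc (j + 1) (Q + M + 1) (by omega) (by omega)).2.2.1
      exact congrArg Fin.val (a1.trans a2.symm)
  by_cases g2 : γ2
  · have hb : ∀ i < Q + M + 1, σ (u (e i)) < l (e i) := fun i hi =>
      (hc i (i + 1) (by omega) (by omega)).2.1.2 g2
    by_cases g6 : γ6
    · have hz : ∀ i j, i < j → j < Q + M + 2 → ρ (e i) + w ≤ σ (u (e j)) := fun i j hij hj =>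
        (hc i j hij hj).2.2.2.2.2.2 g6
      refine zone hU h (fun s => σ (u (e (s + 1)))) (fun s => ρ (e (s + 1)) + w) (fun s hs => ?_)
        fun s t hst ht => hz _ _ (by omega) (by omega)
      have hs' := heN (s + 1) (by omega)
      have a1 := hu' (s + 1) (by omega)
      have a2 := hb (s + 1) (by omega)
      have a3 := hz 0 (s + 1) (by omega) (by omega)
      have a4 := hlo 0 (by omega)
      exact ⟨(gad hg h hr hs' a2.le le_rfl).2.1 _ a1.1 a1.2.1 le_rfl a2, by omega, _, hs', le_rfl⟩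
    · refine hband (Or.inr fun i hi j hj => ?_)
      have a1 : ¬ ρ (e 0) + w ≤ σ (u (e (j + 1))) := fun c =>
        g6 ((hc 0 (j + 1) (by omega) (by omega)).2.2.2.2.2.1 c)
      have a2 := hord 0 (i + 1) (by omega) (by omega)
      have a3 := hu' (i + 1) (by omega)
      omega
  · have hb : ∀ i < Q + M + 1, ρ (e i) + w ≤ σ (u (e i)) := fun i hi => by
      have a1 : ¬ σ (u (e i)) < l (e i) := fun c =>
        g2 ((hc i (i + 1) (by omega) (by omega)).2.1.1 c)
      have := hu' i hi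
      omega
    by_cases g5 : γ5
    · have hz : ∀ i j, i < j → j < Q + M + 2 → σ (u (e i)) < l (e j) := fun i j hij hj =>
        (hc i j hij hj).2.2.2.2.1.2 g5
      refine zone hU h (fun s => l (e s)) (fun s => σ (u (e s)) + 1) (fun s hs => ?_)
        fun s t hst ht => hz _ _ hst (by omega)
      have hs' := heN s (by omega)
      have a1 := hu' s (by omega)
      have a2 := hb s (by omega)
      have a3 := hz s (s + 1) (by omega) (by omega)
      have a4 := hlo (s + 1) (by omega)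
      exact ⟨(gad hg h hr hs' le_rfl (by omega)).2.2 _ a1.1 a1.2.1 a2 (by omega),
        (hlo s (by omega)).1, _, heN (s + 1) (by omega), by omega⟩
    · refine hband (Or.inl fun i hi j hj => ?_)
      have a1 : ¬ σ (u (e (j + 1))) < l (e (Q + M + 1)) := fun c =>
        g5 ((hc (j + 1) (Q + M + 1) (by omega) (by omega)).2.2.2.2.1.1 c)
      have a2 := hord (i + 1) (Q + M + 1) (by omega) (by omega)
      have a3 := hu' (i + 1) (by omega)
      omega

/-- a run does not cross an unclean gap -/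
lemma nocross {a x : ℕ} (hr : Run σ n w a) (hx : ¬ Clean σ x) : x < a ∨ a + w ≤ x + 1 := by
  by_contra hn
  push Not at hn
  exact hx (hr.2 x hn.1 hn.2)

/-- the pair of runs at one index of the family -/
lemma pair (hM : MinS) {r : ℕ} {X : ℕ → ℕ} (h : MinI k n σ T) (hw : 2 ≤ w) (hF : Fam σ n w r X)
    (hs : ∀ i j, i < j → j < r → σ (X i) < X j ∧ X i < σ (X j)) (i : ℕ) :
    ∃ a b, i + 2 < r → X i < a ∧ a + w ≤ b ∧ b + w ≤ X (i + 2) + 1 ∧
      (σ (X (i + 1) - 1) < σ (X (i + 1)) → ∀ j < w, σ (a + j) = b + j) ∧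
      (σ (X (i + 1)) < σ (X (i + 1) - 1) → ∀ j < w, σ (a + j) + j + 1 = b + w) := by
  by_cases hi : i + 2 < r
  swap
  · exact ⟨0, 0, fun c => (hi c).elim⟩
  have hv := h.term.inv
  obtain ⟨r1, r2⟩ := hF.run (i + 1) (by omega)
  obtain ⟨p1, p2⟩ := (hM k n σ T h).2.2.2.2 w _ hw r2
  have m1 := hF.mono i (i + 1) (by omega) (by omega)
  have m2 := hF.mono (i + 1) (i + 2) (by omega) hi
  have s1 := (hs i (i + 1) (by omega) (by omega)).2
  have s2 := (hs (i + 1) (i + 2) (by omega) hi).1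
  have b1 := (hF.brk i (by omega)).2
  have b2 := (hF.brk (i + 2) hi).2
  have n1 := nocross r2 b1
  obtain ⟨a, ha⟩ : ∃ a, a + w = X (i + 1) + 1 := ⟨X (i + 1) + 1 - w, by omega⟩
  rw [show X (i + 1) + 1 - w = a by omega] at r2 p1 p2 n1
  have q1 : a + (w - 1) = X (i + 1) := by omega
  have q2 : a + (w - 2) = X (i + 1) - 1 := by omega
  have d1 := (p1 a ⟨le_rfl, by omega⟩).2
  have d2 := (p1 (X (i + 1)) ⟨by omega, by omega⟩).2
  simp only [mem_Ico, not_and_or, not_le, not_lt] at d1 d2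
  rcases p2 with ⟨t1, t2⟩ | ⟨t1, t2⟩
  · have n2 := nocross t2 b1
    have n3 := nocross t2 b2
    have e1 := t1 (w - 1) (by omega)
    have e2 := t1 (w - 2) (by omega)
    rw [q1] at e1
    rw [q2] at e2
    rcases d1 with d1 | d1
    · refine ⟨σ a, a, fun _ => ⟨by omega, ?_, by omega, fun _ j hj => ?_, fun c => by omega⟩⟩
      · by_contra c
        have e3 := t1 (a - σ a) (by omega)
        have := (p1 (a + (a - σ a)) ⟨by omega, by omega⟩).2
        simp only [mem_Ico, not_and_or, not_le, not_lt] at this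
        omega
      · rw [← t1 j hj, hv]
    · exact ⟨a, σ a, fun _ => ⟨by omega, d1, by omega, fun _ => t1, fun c => by omega⟩⟩
  · have n2 := nocross t2 b1
    have n3 := nocross t2 b2
    have e1 := t1 (w - 1) (by omega)
    have e2 := t1 (w - 2) (by omega)
    rw [q1] at e1
    rw [q2] at e2
    rcases d1 with d1 | d1
    · refine ⟨σ (X (i + 1)), a, fun _ => ⟨by omega, by omega, by omega, fun c => by omega,
        fun _ j hj => ?_⟩⟩
      have e3 := t1 (w - 1 - j) (by omega)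
      have e4 : σ (X (i + 1)) + j = σ (a + (w - 1 - j)) := by omega
      rw [e4, hv]
      omega
    · refine ⟨a, σ (X (i + 1)), fun _ => ⟨by omega, ?_, by omega, fun c => by omega,
        fun _ j hj => ?_⟩⟩
      · by_contra c
        have e3 := t1 (σ a - (a + w - 1)) (by omega)
        have := (p1 (a + (σ a - (a + w - 1))) ⟨by omega, by omega⟩).2
        simp only [mem_Ico, not_and_or, not_le, not_lt] at this
        omega
      · have e3 := t1 j hj
        omega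

lemma hull_oc (X : ℕ → ℕ) (r : ℕ) : (hull X r).OrdConnected := by
  constructor
  rintro x ⟨i, hi, -, -, h1, -⟩ y ⟨-, -, j, hj, -, h2⟩ z hz
  exact ⟨i, hi, j, hj, h1.trans hz.1, hz.2.trans h2⟩

end U3c

open U3c in
theorem u3cS (hR : RamseyS) (hM : MinS) (hg : GadS) (hu : UaS) (h31 : B31S) : U3cS := by
  intro k
  obtain ⟨Q, hU⟩ := hu k
  obtain ⟨Q', W, hH⟩ := h31 k
  obtain ⟨N0, hN0⟩ := refl hR hM hg (k := k) (Q := Q) hU (Q' := Q') (W := W) hH
  refine ⟨2 * k + 2, 2 * (N0 + Q) + 4, fun w hw n σ T X h hF hd _ hs => ?_⟩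
  choose a b hab using pair hM h (by omega) hF hs
  have hm : ∀ i j, i ≤ j → j < 2 * (N0 + Q) + 4 → X i ≤ X j := fun i j hij hj => by
    rcases hij.eq_or_lt with rfl | hij
    · exact le_rfl
    · exact (hF.mono i j hij hj).le
  have hS : St k n w (N0 + Q) (X 0) σ T (hull X (2 * (N0 + Q) + 4)) (fun s => a (2 * s + 1))
      fun s => b (2 * s + 1) := by
    refine ⟨h, by omega, hull_oc _ _, hd, ⟨0, by omega, 0, by omega, le_rfl, le_rfl⟩, ?_,
      fun s hs' => ?_, fun s t hst ht => ?_⟩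
    · have := (hF.brk 0 (by omega)).1
      omega
    · obtain ⟨a1, a2, a3, -⟩ := hab (2 * s + 1) (by omega)
      have a4 := hm 0 (2 * s + 1) (by omega) (by omega)
      have a5 := (hs 0 (2 * s + 1) (by omega) (by omega)).1
      have a6 := (hF.brk (2 * s + 1 + 2) (by omega)).1
      exact ⟨by omega, by omega, a2, by omega, 0, by omega, 2 * s + 1 + 2, by omega, by omega,
        by omega⟩
    · have a1 := (hab (2 * s + 1) (by omega)).2.2.1
      have a2 := (hab (2 * t + 1) (by omega)).1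
      have a3 := hm (2 * s + 1 + 2) (2 * t + 1) (by omega) (by omega)
      omega
  rcases hF.dir with hdir | hdir
  · exact transl hg hU hS (by omega) fun s hs' =>
      (hab (2 * s + 1) (by omega)).2.2.2.1 (hdir _ (by omega))
  · exact hN0 n w (N0 + Q) (X 0) σ T _ _ _ (by omega) hS fun s hs' =>
      (hab (2 * s + 1) (by omega)).2.2.2.2 (hdir _ (by omega))

end Pool.Agent.MP_9d78a0_co.fb

end MrgPart0

-- ======== part 1: formerly Pool.Agent.MP_9d78a0_co.fb.Gridv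
section MrgPart1

/-! A vital linkage does not contain a large grid of lanes. -/

set_option autoImplicit false

namespace Pool.Agent.MP_9d78a0_co.fb

open Set Function

namespace Gridv

variable {k n : ℕ} {len : Fin k → ℕ} {E : SimpleGraph (Vx k)} {L : ℕ → Iv k} {tm : Vx k → ℕ}

theorem step_ex {P : ℕ → Prop} {a b : ℕ} (hab : a ≤ b) (ha : P a) (hb : ¬ P b) :
    ∃ p, a ≤ p ∧ p < b ∧ P p ∧ ¬ P (p + 1) := by
  induction b, hab using Nat.le_induction with
  | base => exact absurd ha hb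
  | succ m hm ih =>
    by_cases c : P m
    · exact ⟨m, hm, by omega, c, hb⟩
    · obtain ⟨p, h1, h2, h3⟩ := ih c
      exact ⟨p, h1, by omega, h3⟩

theorem cc_symm {σ μ : ℕ → ℕ} (h1 : Involutive σ) (h2 : Involutive μ) {a b : ℕ}
    (h : CC σ μ a b) : CC σ μ b a := by
  induction h with
  | refl => exact Relation.ReflTransGen.refl
  | tail _ hs ih =>
    refine Relation.ReflTransGen.head ?_ ih
    rcases hs with rfl | rfl
    · exact Or.inl (h1 _).symm
    · exact Or.inr (h2 _).symm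

/-- the standing hypotheses -/
structure H (n : ℕ) (len : Fin k → ℕ) (E : SimpleGraph (Vx k)) (L : ℕ → Iv k)
    (tm : Vx k → ℕ) : Prop where
  path : ∀ i p, p < len i → E.Adj (i, p) (i, p + 1)
  ivs : Ivs len L n
  timed : ∀ c < n, Timed (L c) tm (3 * n + 3)
  all : ∀ c < n, ∀ t < 3 * n + 3, ∃ v ∈ (L c).set, tm v = t
  rungs : ∀ c, c + 1 < n → Rungs E (L c) (L (c + 1)) tm (3 * n + 3)

theorem link_seg (h : H n len E L tm) {S : Set (Vx k)} {i : Fin k} {a b : ℕ} (hab : a ≤ b)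
    (hb : b ≤ len i) (hS : ∀ p, a ≤ p → p ≤ b → (i, p) ∈ S) : Link E S (i, a) (i, b) := by
  induction b, hab using Nat.le_induction with
  | base => exact Link.refl _ _ _
  | succ m hm ih =>
    exact (ih (by omega) fun p h1 h2 => hS p h1 (by omega)).trans
      (Link.single (hS m hm (by omega)) (hS (m + 1) (by omega) le_rfl) (h.path i m (by omega)))

theorem lane_eq (h : H n len E L tm) {c c' : ℕ} (hc : c < n) (hc' : c' < n) {v : Vx k}
    (h1 : v ∈ (L c).set) (h2 : v ∈ (L c').set) : c = c' := by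
  by_contra e
  exact Set.disjoint_left.1 (h.ivs.2 c hc c' hc' e) h1 h2

theorem lane_vs (h : H n len E L tm) {c : ℕ} (hc : c < n) {v : Vx k} (h1 : v ∈ (L c).set) :
    v.2 ≤ len v.1 := by
  rw [h1.1]
  exact h1.2.2.trans (h.ivs.1 c hc).2

/-- time increases along the lane -/
def Up (L : ℕ → Iv k) (tm : Vx k → ℕ) (c : ℕ) : Prop :=
  ∀ u ∈ (L c).set, ∀ v ∈ (L c).set, u.2 ≤ v.2 → tm u ≤ tm v

theorem down (h : H n len E L tm) {c : ℕ} (hc : c < n) (hu : ¬ Up L tm c) :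
    ∀ u ∈ (L c).set, ∀ v ∈ (L c).set, u.2 ≤ v.2 → tm v ≤ tm u :=
  (h.timed c hc).2.resolve_left hu

/-- the vertices of a lane at a time -/
def cell (L : ℕ → Iv k) (tm : Vx k → ℕ) (z : ℕ × ℕ) : Set (Vx k) :=
  {v | v ∈ (L z.1).set ∧ tm v = z.2}

theorem mem_mid {c : ℕ} {u v : Vx k} (hu : u ∈ (L c).set) (hv : v ∈ (L c).set) {p : ℕ}
    (h1 : u.2 ≤ p) (h2 : p ≤ v.2) : (u.1, p) ∈ (L c).set :=
  ⟨hu.1, hu.2.1.trans h1, h2.trans hv.2.2⟩

theorem cell_link (h : H n len E L tm) {z : ℕ × ℕ} (hz : z.1 < n) {u v : Vx k}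
    (hu : u ∈ cell L tm z) (hv : v ∈ cell L tm z) (huv : u.2 ≤ v.2) :
    Link E (cell L tm z) u v := by
  have e : v = (u.1, v.2) := Prod.ext (hv.1.1.trans hu.1.1.symm) rfl
  have hl : v.2 ≤ len u.1 := by
    have := lane_vs h hz hv.1
    rwa [hv.1.1.trans hu.1.1.symm] at this
  rw [e]
  refine link_seg h (i := u.1) huv hl fun p h1 h2 => ⟨mem_mid hu.1 hv.1 h1 h2, ?_⟩
  have hm := mem_mid hu.1 hv.1 h1 h2
  have e1 := hu.2
  have e2 := hv.2
  by_cases c : Up L tm z.1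
  · have a1 := c u hu.1 _ hm h1
    have a2 := c _ hm v hv.1 h2
    omega
  · have a1 := down h hz c u hu.1 _ hm h1
    have a2 := down h hz c _ hm v hv.1 h2
    omega

theorem cell_conn (h : H n len E L tm) {z : ℕ × ℕ} (hz : z.1 < n) (hz' : z.2 < 3 * n + 3) :
    Conn E (cell L tm z) := by
  obtain ⟨w, hw, e⟩ := h.all z.1 hz z.2 hz'
  refine ⟨⟨w, hw, e⟩, fun u hu v hv => ?_⟩
  rcases le_total u.2 v.2 with c | c
  · exact cell_link h hz hu hv c
  · exact (cell_link h hz hv hu c).symm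

theorem cell_touch (h : H n len E L tm) {c t : ℕ} (hc : c < n) (ht : t + 1 < 3 * n + 3) :
    Touch E (cell L tm (c, t)) (cell L tm (c, t + 1)) := by
  obtain ⟨u, hu, eu⟩ := h.all c hc t (by omega)
  obtain ⟨v, hv, ev⟩ := h.all c hc (t + 1) ht
  have e : v.1 = u.1 := hv.1.trans hu.1.symm
  by_cases d : Up L tm c
  · have h1 : u.2 ≤ v.2 := by
      by_contra h1
      have := d v hv u hu (by omega)
      omega
    obtain ⟨p, a1, a2, a3, a4⟩ := step_ex (P := fun p => tm (u.1, p) ≤ t) h1 (le_of_eq eu)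
      (by rw [← e]; change ¬ tm v ≤ t; omega)
    have m1 := mem_mid hu hv a1 a2.le
    have m2 := mem_mid hu hv (p := p + 1) (by omega) a2
    have b1 := d u hu _ m1 a1
    have b2 := d _ m2 v hv a2
    have hl := lane_vs h hc m2
    exact ⟨_, ⟨m1, by change _ = t; omega⟩, _, ⟨m2, by change _ = t + 1; omega⟩, h.path _ _ hl⟩
  · have d' := down h hc d
    have h1 : v.2 ≤ u.2 := by
      by_contra h1
      have := d' u hu v hv (by omega)
      omega
    obtain ⟨p, a1, a2, a3, a4⟩ := step_ex (P := fun p => t + 1 ≤ tm (v.1, p)) h1 (ge_of_eq ev)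
      (by rw [e]; change ¬ t + 1 ≤ tm u; omega)
    have m1 := mem_mid hv hu a1 a2.le
    have m2 := mem_mid hv hu (p := p + 1) (by omega) a2
    have b1 := d' v hv _ m1 a1
    have b2 := d' _ m2 u hu a2
    have hl := lane_vs h hc m2
    exact ⟨_, ⟨m2, by change _ = t; omega⟩, _, ⟨m1, by change _ = t + 1; omega⟩,
      (h.path _ _ hl).symm⟩

theorem cell_adj (h : H n len E L tm) {z z' : ℕ × ℕ} (hz : z.1 < n ∧ z.2 < 3 * n + 3)
    (hz' : z'.1 < n ∧ z'.2 < 3 * n + 3) (e : gridN.Adj z z') :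
    Touch E (cell L tm z) (cell L tm z') := by
  obtain ⟨c, t⟩ := z
  obtain ⟨c', t'⟩ := z'
  rcases e with ⟨e1, e2 | e2⟩ | ⟨e1, e2 | e2⟩ <;> dsimp only at e1 e2 hz hz' <;> subst e1 e2
  · exact cell_touch h hz.1 hz'.2
  · exact (cell_touch h hz.1 hz.2).symm
  · obtain ⟨u, hu, v, hv, a1, a2, a3⟩ := h.rungs c hz'.1 t hz.2
    exact ⟨u, ⟨hu, a1⟩, v, ⟨hv, a2⟩, a3⟩
  · obtain ⟨u, hu, v, hv, a1, a2, a3⟩ := h.rungs c' hz.1 t hz.2
    exact ⟨v, ⟨hv, a2⟩, u, ⟨hu, a1⟩, a3.symm⟩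

theorem cells_conn (h : H n len E L tm) {S : Set (ℕ × ℕ)} (hS : Conn gridN S)
    (hr : ∀ z ∈ S, z.1 < n ∧ z.2 < 3 * n + 3) : Conn E (⋃ z ∈ S, cell L tm z) := by
  obtain ⟨z0, h0⟩ := hS.1
  refine conn_biUnion h0 (fun z hz => cell_conn h (hr z hz).1 (hr z hz).2) fun z hz => ?_
  have key := hS.2 z0 h0 z hz
  clear hz
  induction key with
  | refl => exact Relation.ReflTransGen.refl
  | tail _ hab ih =>
    exact ih.tail ⟨hab.1, hab.2.1, Or.inr (cell_adj h (hr _ hab.1) (hr _ hab.2.1) hab.2.2)⟩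

/-- the column of a point -/
def col (n x : ℕ) : ℕ := (node n x).1

theorem col_lt {x : ℕ} (hx : x < 2 * n) : col n x < n := by
  unfold col node; split_ifs <;> dsimp only <;> omega

theorem io_lt {x : ℕ} (hx : x < 2 * n) : io n x < 2 * n := by
  unfold io; split_ifs; omega

theorem io_io {x : ℕ} (hx : x < 2 * n) : io n (io n x) = x := by
  unfold io; split_ifs <;> omega

theorem col_io {x : ℕ} (hx : x < 2 * n) : col n (io n x) = col n x := by
  unfold col node io; split_ifs <;> dsimp only <;> omega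

theorem io_lt_iff {x : ℕ} (hx : x < 2 * n) : io n x < n ↔ ¬ x < n := by
  unfold io; split_ifs; omega

theorem col_eq {x y : ℕ} (hx : x < 2 * n) (hy : y < 2 * n) (e : col n x = col n y) :
    y = x ∨ y = io n x := by
  unfold col node at e; unfold io; split_ifs at e ⊢ <;> dsimp only at e <;> omega

/-- the point sits at the lower end of its lane -/
def Lo (n : ℕ) (L : ℕ → Iv k) (tm : Vx k → ℕ) (x : ℕ) : Prop := x < n ↔ Up L tm (col n x)

theorem lo_io {x : ℕ} (hx : x < 2 * n) : Lo n L tm (io n x) ↔ ¬ Lo n L tm x := by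
  unfold Lo
  rw [col_io hx, io_lt_iff hx]
  tauto

open Classical in
/-- the vertex of a point -/
noncomputable def pos (n : ℕ) (L : ℕ → Iv k) (tm : Vx k → ℕ) (x : ℕ) : Vx k :=
  ((L (col n x)).p, if Lo n L tm x then (L (col n x)).lo else (L (col n x)).hi)

theorem pos_lo {x : ℕ} (hx : Lo n L tm x) : (pos n L tm x).2 = (L (col n x)).lo := if_pos hx

theorem pos_hi {x : ℕ} (hx : ¬ Lo n L tm x) : (pos n L tm x).2 = (L (col n x)).hi := if_neg hx

theorem pos_mem (h : H n len E L tm) {x : ℕ} (hx : x < 2 * n) :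
    pos n L tm x ∈ (L (col n x)).set := by
  have := (h.ivs.1 _ (col_lt hx)).1
  by_cases c : Lo n L tm x
  · exact ⟨rfl, by rw [pos_lo c], by rw [pos_lo c]; exact this⟩
  · exact ⟨rfl, by rw [pos_hi c]; exact this, by rw [pos_hi c]⟩

theorem pos_cell (h : H n len E L tm) {x : ℕ} (hx : x < 2 * n) :
    pos n L tm x ∈ cell L tm (node n x) := by
  have hc := col_lt hx
  have hm := pos_mem h hx
  refine ⟨hm, ?_⟩
  obtain ⟨u, hu, eu⟩ := h.all _ hc 0 (by omega)
  obtain ⟨v, hv, ev⟩ := h.all _ hc (3 * n + 2) (by omega)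
  have ht := (h.timed _ hc).1 _ hm
  by_cases c : x < n
  · have e : (node n x).2 = 0 := by unfold node; rw [if_pos c]
    rw [e]
    by_cases d : Up L tm (col n x)
    · have := d _ hm u hu (by rw [pos_lo (iff_of_true c d)]; exact hu.2.1)
      omega
    · have := down h hc d u hu _ hm (by rw [pos_hi fun a => d (a.1 c)]; exact hu.2.2)
      omega
  · have e : (node n x).2 = 3 * n + 2 := by unfold node; rw [if_neg c]
    rw [e]
    by_cases d : Up L tm (col n x)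
    · have := d v hv _ hm (by rw [pos_hi fun a => c (a.2 d)]; exact hv.2.2)
      omega
    · have := down h hc d _ hm v hv (by rw [pos_lo (iff_of_false c d)]; exact hv.2.1)
      omega

theorem cell_eq (h : H n len E L tm) {z z' : ℕ × ℕ} (hz : z.1 < n) (hz' : z'.1 < n) {v : Vx k}
    (h1 : v ∈ cell L tm z) (h2 : v ∈ cell L tm z') : z = z' :=
  Prod.ext (lane_eq h hz hz' h1.1 h2.1) (h1.2.symm.trans h2.2)

theorem pos_inj (h : H n len E L tm) {x y : ℕ} (hx : x < 2 * n) (hy : y < 2 * n)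
    (e : pos n L tm x = pos n L tm y) : x = y := by
  have := cell_eq h (col_lt hx) (col_lt hy) (pos_cell h hx) (e ▸ pos_cell h hy)
  unfold node at this
  split_ifs at this <;> simp only [Prod.mk.injEq] at this <;> omega

theorem ex_lo {c : ℕ} (hc : c < n) : ∃ x < 2 * n, col n x = c ∧ Lo n L tm x := by
  have e : col n c = c := by unfold col node; rw [if_pos hc]
  by_cases d : Lo n L tm c
  · exact ⟨c, by omega, e, d⟩
  · exact ⟨io n c, io_lt (by omega), (col_io (by omega)).trans e, (lo_io (by omega)).2 d⟩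

theorem ex_hi {c : ℕ} (hc : c < n) : ∃ x < 2 * n, col n x = c ∧ ¬ Lo n L tm x := by
  obtain ⟨x, h1, h2, h3⟩ := ex_lo (L := L) (tm := tm) hc
  exact ⟨io n x, io_lt h1, (col_io h1).trans h2, fun a => (lo_io h1).1 a h3⟩

theorem lo_lt_hi (h : H n len E L tm) {c : ℕ} (hc : c < n) : (L c).lo < (L c).hi := by
  obtain ⟨x, h1, rfl, h3⟩ := ex_lo (L := L) (tm := tm) hc
  refine lt_of_le_of_ne (h.ivs.1 _ hc).1 fun e => ?_
  have h4 : ¬ Lo n L tm (io n x) := fun a => (lo_io h1).1 a h3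
  have h5 : x = io n x := pos_inj h h1 (io_lt h1) (Prod.ext
    (by change (L _).p = (L _).p; rw [col_io h1]) (by rw [pos_lo h3, pos_hi h4, col_io h1, e]))
  exact h4 (h5 ▸ h3)

/-- the vertices of all lanes -/
def W (n : ℕ) (L : ℕ → Iv k) : Set (Vx k) := {v | ∃ c < n, v ∈ (L c).set}

theorem pos_W (h : H n len E L tm) {x : ℕ} (hx : x < 2 * n) : pos n L tm x ∈ W n L :=
  ⟨_, col_lt hx, pos_mem h hx⟩

theorem lo_succ (h : H n len E L tm) {x : ℕ} (hx : x < 2 * n) (hl : Lo n L tm x) :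
    ((pos n L tm x).1, (pos n L tm x).2 + 1) ∈ W n L := by
  have := lo_lt_hi h (col_lt hx)
  refine ⟨_, col_lt hx, rfl, ?_, ?_⟩ <;> rw [pos_lo hl] <;> dsimp only <;> omega

theorem hi_pred (h : H n len E L tm) {x : ℕ} (hx : x < 2 * n) (hl : ¬ Lo n L tm x) :
    0 < (pos n L tm x).2 ∧ ((pos n L tm x).1, (pos n L tm x).2 - 1) ∈ W n L := by
  have := lo_lt_hi h (col_lt hx)
  refine ⟨?_, _, col_lt hx, rfl, ?_, ?_⟩ <;> rw [pos_hi hl] <;> (try dsimp only) <;> omega

/-- `x` and `y` are the ends of a gap between two lanes -/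
def Gp (n : ℕ) (L : ℕ → Iv k) (tm : Vx k → ℕ) (x y : ℕ) : Prop :=
  x < 2 * n ∧ y < 2 * n ∧ ¬ Lo n L tm x ∧ Lo n L tm y ∧ (pos n L tm x).1 = (pos n L tm y).1 ∧
    (pos n L tm x).2 < (pos n L tm y).2 ∧
    ∀ q, (pos n L tm x).2 < q → q < (pos n L tm y).2 → ((pos n L tm x).1, q) ∉ W n L

theorem gp_uniq (h : H n len E L tm) {x y y' : ℕ} (h1 : Gp n L tm x y ∨ Gp n L tm y x)
    (h2 : Gp n L tm x y' ∨ Gp n L tm y' x) : y = y' := by
  rcases h1 with ⟨a1, a2, a3, a4, a5, a6, a7⟩ | ⟨a1, a2, a3, a4, a5, a6, a7⟩ <;>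
    rcases h2 with ⟨b1, b2, b3, b4, b5, b6, b7⟩ | ⟨b1, b2, b3, b4, b5, b6, b7⟩
  · refine pos_inj h a2 b2 (Prod.ext (a5.symm.trans b5) ?_)
    rcases lt_trichotomy (pos n L tm y).2 (pos n L tm y').2 with c | c | c
    · exact absurd (a5 ▸ pos_W h a2) (b7 _ a6 c)
    · exact c
    · exact absurd (b5 ▸ pos_W h b2) (a7 _ b6 c)
  · exact absurd b4 a3
  · exact absurd a4 b3
  · refine pos_inj h a1 b1 (Prod.ext (a5.trans b5.symm) ?_)
    rcases lt_trichotomy (pos n L tm y).2 (pos n L tm y').2 with c | c | c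
    · exact absurd ((a5.trans b5.symm) ▸ pos_W h b1) (a7 _ c b6)
    · exact c
    · exact absurd ((b5.trans a5.symm) ▸ pos_W h a1) (b7 _ c a6)

open Classical in
/-- the other end of the gap -/
noncomputable def sg (n : ℕ) (L : ℕ → Iv k) (tm : Vx k → ℕ) (x : ℕ) : ℕ :=
  if h : ∃ y, Gp n L tm x y ∨ Gp n L tm y x then h.choose else x

theorem sg_eq (h : H n len E L tm) {x y : ℕ} (h1 : Gp n L tm x y ∨ Gp n L tm y x) :
    sg n L tm x = y := by
  have e : ∃ y, Gp n L tm x y ∨ Gp n L tm y x := ⟨y, h1⟩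
  unfold sg
  rw [dif_pos e]
  exact gp_uniq h e.choose_spec h1

theorem sg_cases (x : ℕ) :
    (sg n L tm x = x ∧ ∀ y, ¬ (Gp n L tm x y ∨ Gp n L tm y x)) ∨
      Gp n L tm x (sg n L tm x) ∨ Gp n L tm (sg n L tm x) x := by
  unfold sg
  split_ifs with e
  · exact Or.inr e.choose_spec
  · exact Or.inl ⟨rfl, fun y hy => e ⟨y, hy⟩⟩

theorem sg_inv (h : H n len E L tm) : Involutive (sg n L tm) := fun x => by
  rcases sg_cases (n := n) (L := L) (tm := tm) x with c | c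
  · rw [c.1, c.1]
  · exact sg_eq h c.symm

theorem sg_lt {x : ℕ} (hx : x < 2 * n) : sg n L tm x < 2 * n := by
  rcases sg_cases (n := n) (L := L) (tm := tm) x with c | c | c
  · rw [c.1]; exact hx
  · exact c.2.1
  · exact c.1

theorem gp_prev (h : H n len E L tm) {x q : ℕ} (hx : x < 2 * n) (hl : Lo n L tm x)
    (hq : q < (pos n L tm x).2) (hW : ((pos n L tm x).1, q) ∈ W n L) : ∃ y, Gp n L tm y x := by
  classical
  obtain ⟨p, ⟨hp1, c, hc, hp2⟩, hmax⟩ : ∃ p, (p < (pos n L tm x).2 ∧ ((pos n L tm x).1, p) ∈ W n L) ∧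
      ∀ p', p' < (pos n L tm x).2 ∧ ((pos n L tm x).1, p') ∈ W n L → p' ≤ p :=
    ⟨Nat.findGreatest (fun p => p < (pos n L tm x).2 ∧ ((pos n L tm x).1, p) ∈ W n L)
      (pos n L tm x).2, Nat.findGreatest_spec (P := fun p => p < (pos n L tm x).2 ∧
        ((pos n L tm x).1, p) ∈ W n L) hq.le ⟨hq, hW⟩, fun p' hp' => Nat.le_findGreatest hp'.1.le hp'⟩
  obtain ⟨y, hy, rfl, hyl⟩ := ex_hi (L := L) (tm := tm) hc
  have e1 : (pos n L tm y).1 = (pos n L tm x).1 := hp2.1.symm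
  have e2 : (pos n L tm y).2 = p := by
    rw [pos_hi hyl]
    refine le_antisymm ?_ hp2.2.2
    by_contra d
    have m : ((pos n L tm x).1, p + 1) ∈ (L (col n y)).set :=
      ⟨hp2.1, by have := hp2.2.1; dsimp only at this ⊢; omega, by dsimp only; omega⟩
    by_cases d' : p + 1 < (pos n L tm x).2
    · have := hmax (p + 1) ⟨d', _, hc, m⟩
      omega
    · have e : p + 1 = (pos n L tm x).2 := by omega
      rw [e] at m
      have e' := lane_eq h hc (col_lt hx) m (pos_mem h hx)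
      have := hp2.2.1
      rw [pos_lo hl, ← e'] at hp1
      dsimp only at this
      omega
  refine ⟨y, hy, hx, hyl, hl, e1, e2 ▸ hp1, fun r h1 h2 h3 => ?_⟩
  have := hmax r ⟨h2, e1 ▸ h3⟩
  omega

theorem gp_next (h : H n len E L tm) {x q : ℕ} (hx : x < 2 * n) (hl : ¬ Lo n L tm x)
    (hq : (pos n L tm x).2 < q) (hW : ((pos n L tm x).1, q) ∈ W n L) : ∃ y, Gp n L tm x y := by
  classical
  have ex : ∃ p, (pos n L tm x).2 < p ∧ ((pos n L tm x).1, p) ∈ W n L := ⟨q, hq, hW⟩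
  obtain ⟨p, ⟨hp1, c, hc, hp2⟩, hmin⟩ : ∃ p, ((pos n L tm x).2 < p ∧ ((pos n L tm x).1, p) ∈ W n L) ∧
      ∀ p', (pos n L tm x).2 < p' ∧ ((pos n L tm x).1, p') ∈ W n L → p ≤ p' :=
    ⟨Nat.find ex, Nat.find_spec ex, fun p' hp' => Nat.find_min' ex hp'⟩
  obtain ⟨y, hy, rfl, hyl⟩ := ex_lo (L := L) (tm := tm) hc
  have e1 : (pos n L tm x).1 = (pos n L tm y).1 := hp2.1
  have e2 : (pos n L tm y).2 = p := by
    rw [pos_lo hyl]
    refine le_antisymm hp2.2.1 ?_
    by_contra d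
    have m : ((pos n L tm x).1, p - 1) ∈ (L (col n y)).set :=
      ⟨hp2.1, by dsimp only; omega, by have := hp2.2.2; dsimp only at this ⊢; omega⟩
    by_cases d' : (pos n L tm x).2 < p - 1
    · have := hmin (p - 1) ⟨d', _, hc, m⟩
      omega
    · have e : p - 1 = (pos n L tm x).2 := by omega
      rw [e] at m
      have e' := lane_eq h hc (col_lt hx) m (pos_mem h hx)
      have := hp2.2.2
      rw [pos_hi hl, ← e'] at hp1
      dsimp only at this
      omega
  refine ⟨y, hx, hy, hl, hyl, e1, e2 ▸ hp1, fun r h1 h2 h3 => ?_⟩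
  have := hmin r ⟨h1, h3⟩
  omega

/-- the first point on a path -/
def First (n : ℕ) (L : ℕ → Iv k) (tm : Vx k → ℕ) (x : ℕ) : Prop :=
  x < 2 * n ∧ ∀ y < 2 * n, (pos n L tm y).1 = (pos n L tm x).1 → (pos n L tm x).2 ≤ (pos n L tm y).2

/-- the last point on a path -/
def Last (n : ℕ) (L : ℕ → Iv k) (tm : Vx k → ℕ) (x : ℕ) : Prop :=
  x < 2 * n ∧ ∀ y < 2 * n, (pos n L tm y).1 = (pos n L tm x).1 → (pos n L tm y).2 ≤ (pos n L tm x).2

theorem pos_io1 {x : ℕ} (hx : x < 2 * n) : (pos n L tm (io n x)).1 = (pos n L tm x).1 := by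
  change (L _).p = (L _).p
  rw [col_io hx]

theorem hi_io (h : H n len E L tm) {x : ℕ} (hx : x < 2 * n) (hl : ¬ Lo n L tm x) :
    (pos n L tm (io n x)).2 < (pos n L tm x).2 := by
  rw [pos_lo ((lo_io hx).2 hl), pos_hi hl, col_io hx]
  exact lo_lt_hi h (col_lt hx)

theorem lo_io' (h : H n len E L tm) {x : ℕ} (hx : x < 2 * n) (hl : Lo n L tm x) :
    (pos n L tm x).2 < (pos n L tm (io n x)).2 := by
  rw [pos_hi fun a => (lo_io hx).1 a hl, pos_lo hl, col_io hx]
  exact lo_lt_hi h (col_lt hx)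

theorem first_lo (h : H n len E L tm) {x : ℕ} (hx : First n L tm x) : Lo n L tm x := by
  by_contra c
  exact absurd (hx.2 _ (io_lt hx.1) (pos_io1 hx.1)) (not_le.2 (hi_io h hx.1 c))

theorem last_hi (h : H n len E L tm) {x : ℕ} (hx : Last n L tm x) : ¬ Lo n L tm x := fun c =>
  absurd (hx.2 _ (io_lt hx.1) (pos_io1 hx.1)) (not_le.2 (lo_io' h hx.1 c))

theorem first_fix (h : H n len E L tm) {x : ℕ} (hx : First n L tm x) : sg n L tm x = x := by
  rcases sg_cases (n := n) (L := L) (tm := tm) x with c | c | c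
  · exact c.1
  · exact absurd (first_lo h hx) c.2.2.1
  · exact absurd (hx.2 _ c.1 c.2.2.2.2.1) (not_le.2 c.2.2.2.2.2.1)

theorem last_fix (h : H n len E L tm) {x : ℕ} (hx : Last n L tm x) : sg n L tm x = x := by
  rcases sg_cases (n := n) (L := L) (tm := tm) x with c | c | c
  · exact c.1
  · exact absurd (hx.2 _ c.2.1 c.2.2.2.2.1.symm) (not_le.2 c.2.2.2.2.2.1)
  · exact absurd c.2.2.2.1 (last_hi h hx)

theorem first_uniq (h : H n len E L tm) {x y : ℕ} (hx : First n L tm x) (hy : First n L tm y)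
    (e : (pos n L tm x).1 = (pos n L tm y).1) : x = y :=
  pos_inj h hx.1 hy.1 (Prod.ext e (le_antisymm (hx.2 y hy.1 e.symm) (hy.2 x hx.1 e)))

theorem last_uniq (h : H n len E L tm) {x y : ℕ} (hx : Last n L tm x) (hy : Last n L tm y)
    (e : (pos n L tm x).1 = (pos n L tm y).1) : x = y :=
  pos_inj h hx.1 hy.1 (Prod.ext e (le_antisymm (hy.2 x hx.1 e) (hx.2 y hy.1 e.symm)))

theorem ex_first {x : ℕ} (hx : x < 2 * n) :
    ∃ a, First n L tm a ∧ (pos n L tm a).1 = (pos n L tm x).1 := by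
  obtain ⟨a, ha, hm⟩ := Set.exists_min_image
    {y | y < 2 * n ∧ (pos n L tm y).1 = (pos n L tm x).1} (fun y => (pos n L tm y).2)
    ((Set.finite_lt_nat (2 * n)).subset fun y hy => hy.1) ⟨x, hx, rfl⟩
  exact ⟨a, ⟨ha.1, fun y hy e => hm y ⟨hy, e.trans ha.2⟩⟩, ha.2⟩

theorem ex_last {x : ℕ} (hx : x < 2 * n) :
    ∃ a, Last n L tm a ∧ (pos n L tm a).1 = (pos n L tm x).1 := by
  obtain ⟨a, ha, hm⟩ := Set.exists_max_image
    {y | y < 2 * n ∧ (pos n L tm y).1 = (pos n L tm x).1} (fun y => (pos n L tm y).2)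
    ((Set.finite_lt_nat (2 * n)).subset fun y hy => hy.1) ⟨x, hx, rfl⟩
  exact ⟨a, ⟨ha.1, fun y hy e => hm y ⟨hy, e.trans ha.2⟩⟩, ha.2⟩

theorem route (h : H n len E L tm) {a : ℕ} (ha : First n L tm a) :
    ∀ m x, x < 2 * n → (pos n L tm x).1 = (pos n L tm a).1 → (pos n L tm x).2 < m →
      CC (sg n L tm) (io n) a x := by
  intro m
  induction m with
  | zero => intro x _ _ h3; omega
  | succ m ih =>
    intro x h1 h2 h3
    by_cases c : Lo n L tm x
    · rcases (ha.2 x h1 h2).eq_or_lt with d | d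
      · rw [pos_inj h ha.1 h1 (Prod.ext h2.symm d)]
        exact Relation.ReflTransGen.refl
      · obtain ⟨y, hy⟩ := gp_prev h h1 c d (h2 ▸ pos_W h ha.1)
        have := hy.2.2.2.2.2.1
        exact (ih y hy.1 (hy.2.2.2.2.1.trans h2) (by omega)).tail
          (Or.inl (sg_eq h (Or.inl hy)).symm)
    · have := hi_io h h1 c
      exact (ih _ (io_lt h1) ((pos_io1 h1).trans h2) (by omega)).tail (Or.inr (io_io h1).symm)

open Classical in
/-- the terminal pairs -/
noncomputable def TT (n : ℕ) (L : ℕ → Iv k) (tm : Vx k → ℕ) : Finset (ℕ × ℕ) :=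
  (Finset.range (2 * n) ×ˢ Finset.range (2 * n)).filter fun p =>
    First n L tm p.1 ∧ Last n L tm p.2 ∧ (pos n L tm p.1).1 = (pos n L tm p.2).1

theorem mem_TT {p : ℕ × ℕ} : p ∈ TT n L tm ↔
    First n L tm p.1 ∧ Last n L tm p.2 ∧ (pos n L tm p.1).1 = (pos n L tm p.2).1 := by
  unfold TT
  simp only [Finset.mem_filter, Finset.mem_product, Finset.mem_range]
  exact ⟨fun h => h.2, fun h => ⟨⟨h.1.1, h.2.1.1⟩, h⟩⟩

theorem TT_inj (h : H n len E L tm) {p q : ℕ × ℕ} (hp : p ∈ TT n L tm) (hq : q ∈ TT n L tm)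
    (e : (pos n L tm p.1).1 = (pos n L tm q.1).1) : p = q := by
  rw [mem_TT] at hp hq
  exact Prod.ext (first_uniq h hp.1 hq.1 e)
    (last_uniq h hp.2.1 hq.2.1 (hp.2.2.symm.trans (e.trans hq.2.2)))

theorem red (h : H n len E L tm) (hn : ¬ MinI k n (sg n L tm) (TT n L tm)) :
    Red n (sg n L tm) (TT n L tm) := by
  by_contra c
  refine hn ⟨⟨sg_inv h, ?_, ?_, ?_, ?_⟩, fun x hx => sg_lt hx, ?_, ?_, ?_, c⟩
  · have := Finset.card_le_card_of_injOn (s := TT n L tm) (t := Finset.univ)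
      (fun p => (pos n L tm p.1).1) (fun _ _ => by simp) fun p hp q hq e => TT_inj h hp hq e
    simpa using this
  · rintro a ⟨p, hp, rfl | rfl⟩
    · exact first_fix h (mem_TT.1 hp).1
    · exact last_fix h (mem_TT.1 hp).2.1
  · intro p hp e
    exact last_hi h (mem_TT.1 hp).2.1 (e ▸ first_lo h (mem_TT.1 hp).1)
  · intro p hp q hq e
    have a := (mem_TT.1 hp).2.2
    have b := (mem_TT.1 hq).2.2
    refine ⟨fun d => e (TT_inj h hp hq ?_), fun d => e (TT_inj h hp hq ?_),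
      fun d => e (TT_inj h hp hq ?_), fun d => e (TT_inj h hp hq ?_)⟩
    · rw [d]
    · rw [b, d]
    · rw [a, d]
    · rw [a, b, d]
  · rintro a ⟨p, hp, rfl | rfl⟩
    · exact (mem_TT.1 hp).1.1
    · exact (mem_TT.1 hp).2.1.1
  · intro x hx e
    obtain ⟨a, ha, ea⟩ := ex_first (L := L) (tm := tm) hx
    obtain ⟨b, hb, eb⟩ := ex_last (L := L) (tm := tm) hx
    refine ⟨(a, b), mem_TT.2 ⟨ha, hb, ea.trans eb.symm⟩, ?_⟩
    by_cases d : Lo n L tm x
    · rcases (ha.2 x hx ea.symm).eq_or_lt with d' | d'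
      · exact Or.inl (pos_inj h ha.1 hx (Prod.ext ea d')).symm
      · obtain ⟨y, hy⟩ := gp_prev h hx d d' (ea ▸ pos_W h ha.1)
        have e' := (sg_eq h (Or.inr hy)).symm.trans e
        exact absurd d (e' ▸ hy.2.2.1)
    · rcases (hb.2 x hx eb.symm).eq_or_lt with d' | d'
      · exact Or.inr (pos_inj h hb.1 hx (Prod.ext eb d'.symm)).symm
      · obtain ⟨y, hy⟩ := gp_next h hx d d' (eb ▸ pos_W h hb.1)
        have e' := (sg_eq h (Or.inl hy)).symm.trans e
        exact absurd (e' ▸ hy.2.2.2.1) d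
  · intro p hp
    obtain ⟨a1, a2, a3⟩ := mem_TT.1 hp
    exact route h a1 _ _ a2.1 a3.symm (Nat.lt_succ_self _)

/-- a vertex outside the lanes that is joined to the point along its path -/
def Att (n : ℕ) (len : Fin k → ℕ) (L : ℕ → Iv k) (tm : Vx k → ℕ) (x : ℕ) : Set (Vx k) :=
  {v | v.2 ≤ len v.1 ∧ v ∉ W n L ∧ v.1 = (pos n L tm x).1 ∧
    ∀ q, Btw v.2 (pos n L tm x).2 q → (v.1, q) ∉ W n L}

theorem att_ne (h : H n len E L tm) {x : ℕ} (hx : x < 2 * n) {v : Vx k}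
    (hv : v ∈ Att n len L tm x) : v.2 ≠ (pos n L tm x).2 := fun e =>
  hv.2.1 ((Prod.ext hv.2.2.1 e : v = pos n L tm x) ▸ pos_W h hx)

theorem att_link (h : H n len E L tm) {x : ℕ} (hx : x < 2 * n) {v : Vx k}
    (hv : v ∈ Att n len L tm x) {S : Set (Vx k)} (h1 : pos n L tm x ∈ S)
    (h2 : Att n len L tm x ⊆ S) : Link E S (pos n L tm x) v := by
  obtain ⟨i, p⟩ := v
  obtain ⟨a1, a2, a3, a4⟩ := hv
  dsimp only at a1 a3 a4
  have hl := lane_vs h (col_lt hx) (pos_mem h hx)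
  rw [← a3] at hl
  have e : pos n L tm x = (i, (pos n L tm x).2) := Prod.ext a3.symm rfl
  have key : ∀ q, (p ≤ q ∧ q ≤ (pos n L tm x).2) ∨ ((pos n L tm x).2 ≤ q ∧ q ≤ p) → (i, q) ∈ S := by
    intro q hq
    by_cases c : q = (pos n L tm x).2
    · rw [c, ← e]; exact h1
    · refine h2 ⟨by dsimp only; omega, ?_, a3, fun r hr => a4 r ?_⟩
      · by_cases c' : q = p
        · rw [c']; exact a2
        · exact a4 q (by unfold Btw; omega)
      · unfold Btw at hr ⊢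
        dsimp only at hr
        omega
  rw [e]
  rcases le_total p (pos n L tm x).2 with c | c
  · exact (link_seg h c hl fun q b1 b2 => key q (Or.inl ⟨b1, b2⟩)).symm
  · exact link_seg h c a1 fun q b1 b2 => key q (Or.inr ⟨b1, b2⟩)

theorem att_gp (h : H n len E L tm) {x y : ℕ} (hx : x < 2 * n) (hy : y < 2 * n) {v : Vx k}
    (h1 : v ∈ Att n len L tm x) (h2 : v ∈ Att n len L tm y) (a : (pos n L tm x).2 < v.2)
    (b : v.2 < (pos n L tm y).2) : Gp n L tm x y := by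
  have key : ∀ q, (pos n L tm x).2 < q → q < (pos n L tm y).2 → (v.1, q) ∉ W n L := by
    intro q c1 c2
    rcases lt_trichotomy q v.2 with c | c | c
    · exact h1.2.2.2 q (Or.inr ⟨c1, c⟩)
    · rw [c]; exact h1.2.1
    · exact h2.2.2.2 q (Or.inl ⟨c, c2⟩)
  refine ⟨hx, hy, fun c => ?_, ?_, h1.2.2.1.symm.trans h2.2.2.1, a.trans b,
    fun q c1 c2 => h1.2.2.1 ▸ key q c1 c2⟩
  · exact key _ (Nat.lt_succ_self _) (by omega) (h1.2.2.1 ▸ lo_succ h hx c)
  · by_contra c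
    exact key ((pos n L tm y).2 - 1) (by omega) (by omega) (h2.2.2.1 ▸ (hi_pred h hy c).2)

theorem att_uniq (h : H n len E L tm) {x y : ℕ} (hx : x < 2 * n) (hy : y < 2 * n) {v : Vx k}
    (h1 : v ∈ Att n len L tm x) (h2 : v ∈ Att n len L tm y) : y = x ∨ y = sg n L tm x := by
  have n1 := att_ne h hx h1
  have n2 := att_ne h hy h2
  have e := h1.2.2.1.symm.trans h2.2.2.1
  have b1 : ¬ Btw v.2 (pos n L tm x).2 (pos n L tm y).2 := fun c =>
    h1.2.2.2 _ c (h2.2.2.1 ▸ pos_W h hy)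
  have b2 : ¬ Btw v.2 (pos n L tm y).2 (pos n L tm x).2 := fun c =>
    h2.2.2.2 _ c (h1.2.2.1 ▸ pos_W h hx)
  unfold Btw at b1 b2
  by_cases c : (pos n L tm x).2 = (pos n L tm y).2
  · exact Or.inl (pos_inj h hx hy (Prod.ext e c)).symm
  · rcases lt_or_gt_of_ne n1 with d | d
    · exact Or.inr (sg_eq h (Or.inr (att_gp h hy hx h2 h1 (by omega) d))).symm
    · exact Or.inr (sg_eq h (Or.inl (att_gp h hx hy h1 h2 d (by omega)))).symm

theorem gp_link (h : H n len E L tm) {x y : ℕ} (hg : Gp n L tm x y) {S : Set (Vx k)}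
    (h1 : pos n L tm x ∈ S) (h2 : pos n L tm y ∈ S) (h3 : Att n len L tm x ⊆ S) :
    Link E S (pos n L tm x) (pos n L tm y) := by
  obtain ⟨a1, a2, -, -, a5, a6, a7⟩ := hg
  have hl := lane_vs h (col_lt a2) (pos_mem h a2)
  rw [← a5] at hl
  have e : pos n L tm y = ((pos n L tm x).1, (pos n L tm y).2) := Prod.ext a5.symm rfl
  rw [e]
  refine link_seg h (i := (pos n L tm x).1) a6.le hl fun q b1 b2 => ?_
  rcases b1.eq_or_lt with c | c
  · rw [← c]; exact h1
  rcases b2.eq_or_lt with d | d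
  · rw [d, ← e]; exact h2
  refine h3 ⟨by dsimp only; omega, a7 q c d, rfl, fun r hr => ?_⟩
  have hr' : Btw q (pos n L tm x).2 r := hr
  have c' : (pos n L tm x).2 < q := c
  clear c b1
  unfold Btw at hr'
  exact a7 r (by omega) (by omega)

theorem first_zero (h : H n len E L tm) {a : ℕ} (ha : First n L tm a) :
    ((pos n L tm a).1, 0) = pos n L tm a ∨ ((pos n L tm a).1, 0) ∈ Att n len L tm a := by
  have key : ∀ q < (pos n L tm a).2, ((pos n L tm a).1, q) ∉ W n L := by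
    rintro q hq ⟨c, hc, hm⟩
    obtain ⟨y, hy, rfl, hl⟩ := ex_lo (L := L) (tm := tm) hc
    have a1 := ha.2 y hy hm.1.symm
    have a2 := hm.2.1
    rw [pos_lo hl] at a1
    dsimp only at a2
    omega
  rcases Nat.eq_zero_or_pos (pos n L tm a).2 with c | c
  · exact Or.inl (Prod.ext rfl c.symm)
  · refine Or.inr ⟨Nat.zero_le _, key 0 c, rfl, fun q hq => key q ?_⟩
    unfold Btw at hq
    omega

theorem last_len (h : H n len E L tm) {a : ℕ} (ha : Last n L tm a) :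
    ((pos n L tm a).1, len (pos n L tm a).1) = pos n L tm a ∨
      ((pos n L tm a).1, len (pos n L tm a).1) ∈ Att n len L tm a := by
  have key : ∀ q, (pos n L tm a).2 < q → ((pos n L tm a).1, q) ∉ W n L := by
    rintro q hq ⟨c, hc, hm⟩
    obtain ⟨y, hy, rfl, hl⟩ := ex_hi (L := L) (tm := tm) hc
    have a1 := ha.2 y hy hm.1.symm
    have a2 := hm.2.2
    rw [pos_hi hl] at a1
    dsimp only at a2
    omega
  rcases (lane_vs h (col_lt ha.1) (pos_mem h ha.1)).eq_or_lt with c | c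
  · exact Or.inl (Prod.ext rfl c.symm)
  · refine Or.inr ⟨le_rfl, key _ c, rfl, fun q hq => key q ?_⟩
    unfold Btw at hq
    dsimp only at hq
    omega

theorem final (hD : DiS) (hW : DrawS) (h : H n len E L tm) (hV : Vital len E)
    (hR : Red n (sg n L tm) (TT n L tm)) : False := by
  obtain ⟨x0, hx0, μ, hμ, hN, hs, hc⟩ := hR
  have hσ := sg_inv h
  have hlt : ∀ x < 2 * n, μ x < 2 * n := fun x hx => by
    by_cases c : μ x = x
    · rwa [c]
    · exact (hs (μ x) (by rw [hμ x]; exact Ne.symm c)).1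
  have h0 : μ x0 = x0 := by
    by_contra c
    exact (hs x0 c).2 rfl
  obtain ⟨S, hS⟩ := hW n μ hμ hN hlt
  obtain ⟨D1, D2⟩ := hD _ _ hσ hμ
  let O : Fin k → Set ℕ := fun i =>
    {x | ∃ a, First n L tm a ∧ (pos n L tm a).1 = i ∧ CC (sg n L tm) μ a x}
  have Olt : ∀ i, ∀ x ∈ O i, x < 2 * n := by
    rintro i x ⟨a, ha, -, hx⟩
    induction hx with
    | refl => exact ha.1
    | tail _ e ih =>
      rcases e with rfl | rfl
      exacts [sg_lt ih, hlt _ ih]
  have pair : ∀ a, First n L tm a → ∃ b, Last n L tm b ∧ (pos n L tm b).1 = (pos n L tm a).1 ∧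
      a ≠ b ∧ CC (sg n L tm) μ a b := fun a ha => by
    obtain ⟨b, hb, e⟩ := ex_last (L := L) (tm := tm) ha.1
    exact ⟨b, hb, e, fun d => last_hi h hb (d ▸ first_lo h ha),
      hc (a, b) (mem_TT.2 ⟨ha, hb, e.symm⟩)⟩
  have Omv : ∀ i, ∀ x ∈ O i, μ x ≠ x := by
    rintro i x ⟨a, ha, -, hx⟩ e
    obtain ⟨b, hb, -, hne, hab⟩ := pair a ha
    exact hne (D2 a b x (first_fix h ha) (last_fix h hb) e hab hx)
  have Odis : ∀ i j x, x ∈ O i → x ∈ O j → i = j := by
    rintro _ _ x ⟨a, ha, rfl, hx⟩ ⟨a', ha', rfl, hx'⟩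
    obtain ⟨b, hb, e, hne, hab⟩ := pair a ha
    rcases D1 a b a' (first_fix h ha) (last_fix h hb) (first_fix h ha') hab
      (hx.trans (cc_symm hσ hμ hx')) with d | d | d
    · exact absurd d hne
    · rw [d]
    · rw [← e, d]
  have Osg : ∀ i, ∀ x ∈ O i, sg n L tm x ∈ O i := fun i x ⟨a, a1, a2, a3⟩ =>
    ⟨a, a1, a2, a3.tail (Or.inl rfl)⟩
  have Omu : ∀ i, ∀ x ∈ O i, μ x ∈ O i := fun i x ⟨a, a1, a2, a3⟩ =>
    ⟨a, a1, a2, a3.tail (Or.inr rfl)⟩
  let C : ℕ → Set (Vx k) := fun x => ⋃ z ∈ S x, cell L tm z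
  let Q : Fin k → Set (Vx k) := fun i =>
    {v | (∃ x ∈ O i, v ∈ C x ∨ v ∈ Att n len L tm x) ∨
      ((∀ c < n, (L c).p ≠ i) ∧ v.1 = i ∧ v.2 ≤ len i)}
  have HS := fun i x (hx : x ∈ O i) => hS x (Olt i x hx) (Omv i x hx)
  have Cpos : ∀ i, ∀ x ∈ O i, pos n L tm x ∈ C x := fun i x hx =>
    mem_biUnion (HS i x hx).2.2.1 (pos_cell h (Olt i x hx))
  have CQ : ∀ i, ∀ x ∈ O i, C x ⊆ Q i := fun i x hx v hv => Or.inl ⟨x, hx, Or.inl hv⟩
  have AQ : ∀ i, ∀ x ∈ O i, Att n len L tm x ⊆ Q i := fun i x hx v hv => Or.inl ⟨x, hx, Or.inr hv⟩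
  have Cconn : ∀ i, ∀ x ∈ O i, Conn E (C x) := fun i x hx =>
    cells_conn h (HS i x hx).1 (HS i x hx).2.1
  have Clane : ∀ i, ∀ x ∈ O i, ∀ v ∈ C x, ∃ c < n, v ∈ (L c).set := fun i x hx v hv => by
    obtain ⟨z, hz, hv⟩ := mem_iUnion₂.1 hv
    exact ⟨z.1, ((HS i x hx).2.1 z hz).1, hv.1⟩
  have hQ : ∀ i, Q i ⊆ Vs len ∧ Conn E (Q i) ∧ (i, 0) ∈ Q i ∧ (i, len i) ∈ Q i := by
    intro i
    refine ⟨?_, ?_⟩
    · rintro v (⟨x, hx, hv | hv⟩ | ⟨-, e, hv⟩)
      · obtain ⟨c, hc, hm⟩ := Clane i x hx v hv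
        exact lane_vs h hc hm
      · exact hv.1
      · change v.2 ≤ len v.1
        rwa [e]
    by_cases hl : ∀ c < n, (L c).p ≠ i
    · have hmem : ∀ p ≤ len i, (i, p) ∈ Q i := fun p hp => Or.inr ⟨hl, rfl, hp⟩
      refine ⟨conn_of_center (hmem 0 (Nat.zero_le _)) ?_, hmem 0 (Nat.zero_le _), hmem _ le_rfl⟩
      rintro ⟨j, p⟩ (⟨x, ⟨a, ha, e, -⟩, -⟩ | ⟨-, e, hv⟩)
      · exact absurd e (hl _ (col_lt ha.1))
      · dsimp only at e hv
        subst e
        exact link_seg h (Nat.zero_le _) hv fun q _ b2 => hmem q (b2.trans hv)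
    · push Not at hl
      obtain ⟨c, hc, e⟩ := hl
      obtain ⟨x1, hx1, rfl, -⟩ := ex_lo (L := L) (tm := tm) hc
      obtain ⟨a, ha, ea⟩ := ex_first (L := L) (tm := tm) hx1
      have ei : (pos n L tm a).1 = i := ea.trans e
      obtain ⟨b, hb, eb, -, hab⟩ := pair a ha
      have aO : a ∈ O i := ⟨a, ha, ei, Relation.ReflTransGen.refl⟩
      have bO : b ∈ O i := ⟨a, ha, ei, hab⟩
      have lk : ∀ x, CC (sg n L tm) μ a x → Link E (Q i) (pos n L tm a) (pos n L tm x) := by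
        intro x hx
        induction hx with
        | refl => exact Link.refl _ _ _
        | @tail y y' hy e' ih =>
          have yO : y ∈ O i := ⟨a, ha, ei, hy⟩
          refine ih.trans ?_
          rcases e' with rfl | rfl
          · have sO := Osg i y yO
            rcases sg_cases (n := n) (L := L) (tm := tm) y with d | d | d
            · rw [d.1]; exact Link.refl _ _ _
            · exact gp_link h d (CQ i y yO (Cpos i y yO)) (CQ i _ sO (Cpos i _ sO)) (AQ i y yO)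
            · exact (gp_link h d (CQ i _ sO (Cpos i _ sO)) (CQ i y yO (Cpos i y yO))
                (AQ i _ sO)).symm
          · have m : pos n L tm (μ y) ∈ C y := by
              have := Cpos i _ (Omu i y yO)
              change _ ∈ ⋃ z ∈ S (μ y), cell L tm z at this
              rwa [(HS i y yO).2.2.2.1] at this
            exact ((Cconn i y yO).2 _ (Cpos i y yO) _ m).mono (CQ i y yO)
      refine ⟨conn_of_center (CQ i a aO (Cpos i a aO)) ?_, ?_, ?_⟩
      · rintro v (⟨x, hx, hv⟩ | ⟨d, -⟩)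
        · obtain ⟨a', ha', e', hx'⟩ := id hx
          obtain rfl := first_uniq h ha ha' (ei.trans e'.symm)
          refine (lk x hx').trans ?_
          rcases hv with hv | hv
          · exact ((Cconn i x hx).2 _ (Cpos i x hx) _ hv).mono (CQ i x hx)
          · exact att_link h (Olt i x hx) hv (CQ i x hx (Cpos i x hx)) (AQ i x hx)
        · exact absurd e (d _ hc)
      · rcases first_zero (len := len) h ha with d | d <;> rw [ei] at d
        · rw [d]; exact CQ i a aO (Cpos i a aO)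
        · exact AQ i a aO d
      · rcases last_len h hb with d | d <;> rw [eb.trans ei] at d
        · rw [d]; exact CQ i b bO (Cpos i b bO)
        · exact AQ i b bO d
  have path : ∀ i, ∀ x ∈ O i, ∀ v, v ∈ C x ∨ v ∈ Att n len L tm x → ∃ c < n, (L c).p = v.1 := by
    rintro i x hx v (hv | hv)
    · obtain ⟨c, hc, hm⟩ := Clane i x hx v hv
      exact ⟨c, hc, hm.1.symm⟩
    · exact ⟨_, col_lt (Olt i x hx), hv.2.2.1.symm⟩
  have hdis : Pairwise (Disjoint on Q) := by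
    intro i j hij
    refine Set.disjoint_left.2 ?_
    rintro v (⟨x, hx, hv⟩ | ⟨d, e, -⟩) (⟨y, hy, hv'⟩ | ⟨d', e', -⟩)
    · have n1 : y ≠ x := fun c => hij (Odis i j x hx (c ▸ hy))
      rcases hv with hv | hv <;> rcases hv' with hv' | hv'
      · have n2 : y ≠ μ x := fun c => hij (Odis i j y (c ▸ Omu i x hx) hy)
        obtain ⟨z, hz, hv⟩ := mem_iUnion₂.1 hv
        obtain ⟨z', hz', hv'⟩ := mem_iUnion₂.1 hv'
        obtain rfl := cell_eq h ((HS i x hx).2.1 z hz).1 ((HS j y hy).2.1 z' hz').1 hv hv'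
        exact Set.disjoint_left.1 (((HS i x hx).2.2.2.2 y (Olt j y hy) n1 n2).2 (Omv j y hy)) hz hz'
      · exact hv'.2.1 (Clane i x hx v hv)
      · exact hv.2.1 (Clane j y hy v hv')
      · rcases att_uniq h (Olt i x hx) (Olt j y hy) hv hv' with c | c
        · exact n1 c
        · exact hij (Odis i j y (c ▸ Osg i x hx) hy)
    · obtain ⟨c, hc, e⟩ := path i x hx v hv
      exact d' c hc (e.trans e')
    · obtain ⟨c, hc, e'⟩ := path j y hy v hv'
      exact d c hc (e'.trans e)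
    · exact hij (e.symm.trans e')
  have hm : pos n L tm x0 ∈ Q (pos n L tm x0).1 :=
    hV.uniq Q hQ hdis _ _ (lane_vs h (col_lt hx0) (pos_mem h hx0))
  rcases hm with ⟨x, hx, hv | hv⟩ | ⟨d, -⟩
  · obtain ⟨z, hz, hv⟩ := mem_iUnion₂.1 hv
    obtain rfl := cell_eq h ((HS _ x hx).2.1 z hz).1 (col_lt hx0) hv (pos_cell h hx0)
    have n1 : x0 ≠ x := fun c => Omv _ x hx (c ▸ h0)
    have n2 : x0 ≠ μ x := fun c => n1 (by rw [← h0, c, hμ])
    exact ((HS _ x hx).2.2.2.2 x0 hx0 n1 n2).1 hz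
  · exact hv.2.1 (pos_W h hx0)
  · exact d _ (col_lt hx0) rfl

end Gridv

theorem gridvS (hC : CoreS) (hD : DiS) (hW : DrawS) : GridvS := by
  intro k
  obtain ⟨n0, hn0⟩ := hC k
  refine ⟨n0 + 2, fun len E L tm hV hI hT hR => ?_⟩
  have h : Gridv.H (n0 + 2) len E L tm := by
    refine ⟨hV.path, hI, hT, fun c hc t ht => ?_, hR⟩
    by_cases d : c + 1 < n0 + 2
    · obtain ⟨u, hu, -, -, e, -⟩ := hR c d t ht
      exact ⟨u, hu, e⟩
    · obtain ⟨c', rfl⟩ : ∃ c', c = c' + 1 := ⟨c - 1, by omega⟩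
      obtain ⟨-, -, v, hv, -, e, -⟩ := hR c' hc t ht
      exact ⟨v, hv, e⟩
  exact Gridv.final hD hW h hV (Gridv.red h fun hm => absurd (hn0 _ _ _ hm) (by omega))

end Pool.Agent.MP_9d78a0_co.fb

end MrgPart1

-- ======== part 2: formerly Pool.Agent.MP_9d78a0_co.fb.Extb
section MrgPart2

/-! A configuration with small covers contradicts vitality. -/

set_option autoImplicit false

namespace Pool.Agent.MP_9d78a0_co.fb

open Set Function

namespace Extb

theorem block (m Q a : ℕ) (X : Finset ℕ) (hX : X.card ≤ m) :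
    ∃ c, c ≤ m ∧ ∀ t, a + c * Q ≤ t → t < a + (c + 1) * Q → t ∉ X := by
  by_contra h
  push Not at h
  choose! t h1 h2 h3 using h
  have := Finset.card_le_card_of_injOn (s := Finset.range (m + 1)) (t := X) t
    (fun c hc => h3 c (by simpa [Nat.lt_succ_iff] using hc)) (by
      intro c hc d hd e
      have hc' : c ≤ m := by simpa [Nat.lt_succ_iff] using hc
      have hd' : d ≤ m := by simpa [Nat.lt_succ_iff] using hd
      have a1 := h1 c hc'
      have a2 := h2 c hc'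
      have a3 := h1 d hd'
      have a4 := h2 d hd'
      rw [e] at a1 a2
      rcases lt_trichotomy c d with l | l | l
      · have := Nat.mul_le_mul_right Q (Nat.succ_le_of_lt l)
        simp only [Nat.succ_eq_add_one] at this
        omega
      · exact l
      · have := Nat.mul_le_mul_right Q (Nat.succ_le_of_lt l)
        simp only [Nat.succ_eq_add_one] at this
        omega)
  simp at this
  omega

theorem runs (m Q : ℕ) (hQ : 0 < Q) (S : ℕ) : ∃ T, 0 < T ∧ ∀ (X : ℕ → ℕ → Finset ℕ),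
    (∀ a b, (X a b).card ≤ m) → ∀ a0, ∃ α β : ℕ → ℕ, α 0 = a0 ∧ β 0 + 1 = a0 + T ∧
      β S + 1 = α S + Q ∧ ∀ s < S, α s < α (s + 1) ∧ β (s + 1) < β s ∧
        ∀ t, α (s + 1) ≤ t → t ≤ β (s + 1) → t ∉ X (α s) (β s) := by
  induction S with
  | zero =>
    exact ⟨Q, hQ, fun X _ a0 => ⟨fun _ => a0, fun _ => a0 + Q - 1, rfl, by simp only; omega,
      by simp only; omega, fun _ h => by omega⟩⟩
  | succ S ih =>
    obtain ⟨T, hT, ih⟩ := ih
    refine ⟨(m + 1) * T + 2, by omega, fun X hX a0 => ?_⟩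
    obtain ⟨c, hc, h⟩ := block m T (a0 + 1) _ (hX a0 (a0 + (m + 1) * T + 1))
    obtain ⟨α, β, h1, h2, h3, h4⟩ := ih X hX (a0 + 1 + c * T)
    have h5 := Nat.mul_le_mul_right T (Nat.succ_le_succ hc)
    simp only [Nat.succ_eq_add_one] at h5
    have h6 : (c + 1) * T = c * T + T := by ring
    refine ⟨fun s => Nat.casesOn s a0 α, fun s => Nat.casesOn s (a0 + (m + 1) * T + 1) β, rfl,
      by simp only [Nat.rec_zero]; omega, h3, fun s hs => ?_⟩
    cases s with
    | zero =>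
      refine ⟨?_, ?_, fun t t1 t2 => h t ?_ ?_⟩
      · change a0 < α 0
        omega
      · change β 0 < a0 + (m + 1) * T + 1
        omega
      · change α 0 ≤ t at t1
        omega
      · change t ≤ β 0 at t2
        omega
    | succ s => exact h4 s (by omega)

variable {k : ℕ}

/-- a lane listed from one of its ends -/
def en (L : Iv k) (d : Bool) (j : ℕ) : Vx k := (L.p, if d then L.lo + j else L.hi - j)

theorem en_mem {L : Iv k} (h : L.lo ≤ L.hi) (d : Bool) {j : ℕ} (hj : j ≤ L.hi - L.lo) :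
    en L d j ∈ L.set := by
  cases d <;> refine ⟨rfl, ?_, ?_⟩ <;> simp [en] <;> omega

theorem en_surj {L : Iv k} (d : Bool) {v : Vx k} (hv : v ∈ L.set) :
    ∃ j ≤ L.hi - L.lo, en L d j = v := by
  obtain ⟨p, x⟩ := v
  obtain ⟨h1, h2, h3⟩ := hv
  simp only at h1 h2 h3
  cases d
  · exact ⟨L.hi - x, by omega, by simp [en, h1]; omega⟩
  · exact ⟨x - L.lo, by omega, by simp [en, h1]; omega⟩

theorem en_inj {L : Iv k} (d : Bool) {i j : ℕ} (hi : i ≤ L.hi - L.lo) (hj : j ≤ L.hi - L.lo)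
    (e : en L d i = en L d j) : i = j := by
  cases d <;> simp [en] at e <;> omega

theorem en_adj {len : Fin k → ℕ} {E : SimpleGraph (Vx k)} (hV : Vital len E) {L : Iv k}
    (h : L.hi ≤ len L.p) (d : Bool) {j : ℕ} (hj : j < L.hi - L.lo) :
    E.Adj (en L d j) (en L d (j + 1)) := by
  cases d
  · have := (hV.path L.p (L.hi - (j + 1)) (by omega)).symm
    rw [show L.hi - (j + 1) + 1 = L.hi - j by omega] at this
    simpa [en] using this
  · simpa [en, add_assoc] using hV.path L.p (L.lo + j) (by omega)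

theorem en_iv {L : Iv k} (h : L.lo ≤ L.hi) (d : Bool) {i j : ℕ} (hi : i ≤ j)
    (hj : j ≤ L.hi - L.lo) : ∃ P : Iv k, P.p = L.p ∧ P.lo ≤ P.hi ∧ P.hi ≤ L.hi ∧
      (∀ v, v ∈ P.set ↔ ∃ x, i ≤ x ∧ x ≤ j ∧ en L d x = v) ∧
      ∀ Y : Set (Vx k), en L d i ∈ Y → en L d j ∈ Y → (P.p, P.lo) ∈ Y ∧ (P.p, P.hi) ∈ Y := by
  cases d
  · refine ⟨⟨L.p, L.hi - j, L.hi - i⟩, rfl, by simp only; omega, by simp only; omega, ?_,
      fun Y a b => ⟨b, a⟩⟩
    rintro ⟨p, x⟩
    constructor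
    · rintro ⟨h1, h2, h3⟩
      simp only at h1 h2 h3
      exact ⟨L.hi - x, by omega, by omega, by simp [en, h1]; omega⟩
    · rintro ⟨y, h1, h2, h3⟩
      rw [← h3]
      refine ⟨rfl, ?_, ?_⟩ <;> simp [en] <;> omega
  · refine ⟨⟨L.p, L.lo + i, L.lo + j⟩, rfl, by simp only; omega, by simp only; omega, ?_,
      fun Y a b => ⟨a, b⟩⟩
    rintro ⟨p, x⟩
    constructor
    · rintro ⟨h1, h2, h3⟩
      simp only at h1 h2 h3
      exact ⟨x - L.lo, by omega, by omega, by simp [en, h1]; omega⟩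
    · rintro ⟨y, h1, h2, h3⟩
      rw [← h3]
      refine ⟨rfl, ?_, ?_⟩ <;> simp [en] <;> omega

/-- time counted from one of the two ends -/
def ut (T : ℕ) (σ : Bool) (t : ℕ) : ℕ := if σ then t else T - 1 - t

theorem dir {L : Iv k} (h : L.lo ≤ L.hi) {tm : Vx k → ℕ} {T : ℕ} (ht : Timed L tm T) (σ : Bool) :
    ∃ d, ∀ i j, i ≤ j → j ≤ L.hi - L.lo → ut T σ (tm (en L d i)) ≤ ut T σ (tm (en L d j)) := by
  have k1 : ∀ i j, i ≤ j → (en L true i).2 ≤ (en L true j).2 := fun i j e => by simpa [en] using e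
  have k2 : ∀ i j, i ≤ j → (en L false j).2 ≤ (en L false i).2 := fun i j e => by
    simp [en]; omega
  rcases ht.2 with c | c <;> cases σ
  · refine ⟨false, fun i j e f => ?_⟩
    have := c _ (en_mem h false f) _ (en_mem h false (e.trans f)) (k2 i j e)
    simp only [ut, Bool.false_eq_true, if_false]; omega
  · exact ⟨true, fun i j e f => c _ (en_mem h true (e.trans f)) _ (en_mem h true f) (k1 i j e)⟩
  · refine ⟨true, fun i j e f => ?_⟩
    have := c _ (en_mem h true (e.trans f)) _ (en_mem h true f) (k1 i j e)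
    simp only [ut, Bool.false_eq_true, if_false]; omega
  · exact ⟨false, fun i j e f => c _ (en_mem h false f) _ (en_mem h false (e.trans f)) (k2 i j e)⟩

theorem cell {len : Fin k → ℕ} {E : SimpleGraph (Vx k)} (hV : Vital len E) {L : Iv k}
    (h : L.lo ≤ L.hi) (h' : L.hi ≤ len L.p) {tm : Vx k → ℕ} {T : ℕ} (ht : Timed L tm T)
    {u v : Vx k} (hu : u ∈ L.set) (hv : v ∈ L.set) (e : tm u = tm v) :
    Link E {y | y ∈ L.set ∧ tm y = tm u} u v := by
  obtain ⟨d, hd⟩ := dir h ht true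
  simp only [ut, if_true] at hd
  have k : ∀ i j, i ≤ j → j ≤ L.hi - L.lo → tm (en L d i) = tm (en L d j) →
      Link E {y | y ∈ L.set ∧ tm y = tm (en L d i)} (en L d i) (en L d j) := by
    intro i j a b c
    refine ((conn_seg (G := E) (f := en L d) a fun x _ x2 => en_adj hV h' d (by omega)).2 _
      ⟨i, ⟨le_rfl, a⟩, rfl⟩ _ ⟨j, ⟨a, le_rfl⟩, rfl⟩).mono ?_
    rintro _ ⟨x, ⟨x1, x2⟩, rfl⟩
    have := hd i x x1 (x2.trans b)
    have := hd x j x2 b
    exact ⟨en_mem h d (x2.trans b), by omega⟩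
  obtain ⟨i, hi, rfl⟩ := en_surj d hu
  obtain ⟨j, hj, rfl⟩ := en_surj d hv
  rcases le_total i j with c | c
  · exact k i j c hj e
  · rw [e]
    exact (k j i c hi e.symm).symm

variable {len : Fin k → ℕ} {E : SimpleGraph (Vx k)} {n : ℕ} {I : ℕ → Iv k} {T0 : ℕ}
  {D : ℕ → Set (Vx k)} {i T : ℕ} {L : ℕ → Iv k} {tm : Vx k → ℕ} {par dj : ℕ → ℕ}

theorem times (hc : Config len E n I T0 D i T L tm par dj) {a t : ℕ} (ha : a < i) (ht : t < T) :
    ∃ u ∈ (L a).set, tm u = t := by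
  rcases Nat.eq_zero_or_pos a with rfl | h
  · obtain ⟨-, u, h1, h2, -⟩ := hc.meet t ht
    exact ⟨u, h1, h2⟩
  · obtain ⟨u, h1, -, -, h2, -⟩ := (hc.rungs a ha h).2 t ht
    exact ⟨u, h1, h2⟩

theorem slab (hV : Vital len E) (hc : Config len E n I T0 D i T L tm par dj) (hi : 0 < i) {t : ℕ}
    (ht : t < T) : Conn E {y | (∃ a < i, y ∈ (L a).set) ∧ tm y = t} := by
  obtain ⟨u, u1, u2⟩ := times hc hi ht
  have k : ∀ a < i, ∀ x ∈ (L a).set, ∀ y ∈ (L a).set, tm x = t → tm y = t →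
      Link E {y | (∃ a < i, y ∈ (L a).set) ∧ tm y = t} x y := fun a ha x hx y hy e f =>
    (cell hV (hc.ivs.1 a ha).1 (hc.ivs.1 a ha).2 (hc.timed a ha) hx hy (e.trans f.symm)).mono
      fun z hz => And.intro (Exists.intro a (And.intro ha hz.1)) (hz.2.trans e)
  refine conn_of_center (a := u) ⟨⟨0, hi, u1⟩, u2⟩ ?_
  rintro v ⟨⟨a, ha, hv⟩, e⟩
  induction a using Nat.strong_induction_on generalizing v with
  | _ a ih =>
    rcases Nat.eq_zero_or_pos a with rfl | h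
    · exact k 0 hi u u1 v hv u2 e
    · obtain ⟨p1, p2⟩ := hc.rungs a ha h
      obtain ⟨x, x1, y, y1, x2, y2, xy⟩ := p2 t ht
      refine ((ih _ p1 y y2 (by omega) y1).trans ?_).trans (k a ha x x1 v hv x2 e)
      exact Link.single ⟨⟨par a, by omega, y1⟩, y2⟩ ⟨⟨a, ha, x1⟩, x2⟩ xy.symm

theorem free_iv (hc : Config len E n I T0 D i T L tm par dj) (hn : i < n) :
    ∃ b < n, ∀ a < i, ∀ v ∈ (I b).set, v ∉ (L a).set := by
  by_contra h
  push Not at h
  choose! a h1 h2 using h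
  have := Finset.card_le_card_of_injOn (s := Finset.range n) (t := Finset.range i) a
    (fun c hc => by simpa using h1 c (by simpa using hc)) (by
      intro c h4 d h5 e
      have h4 : c < n := by simpa using h4
      have h5 : d < n := by simpa using h5
      obtain ⟨x, x1, x2⟩ := h2 c h4
      obtain ⟨y, y1, y2⟩ := h2 d h5
      exact hc.one (a c) (h1 c h4) c h4 d h5 ⟨x, x2, x1⟩ ⟨y, e ▸ y2, y1⟩)
  simp at this
  omega

theorem good_times (hs : Setup len E n I T0 D) (hc : Config len E n I T0 D i T L tm par dj)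
    (Z : Finset (Vx k)) {a N : ℕ} (h : a + (Z.card + N) ≤ T) :
    ∃ t : ℕ → ℕ, (∀ j < N, a ≤ t j ∧ t j < a + (Z.card + N) ∧ ∀ z ∈ Z, z ∉ D (dj (t j))) ∧
      ∀ j < N, ∀ j' < N, t j = t j' → j = j' := by
  classical
  let J := Finset.Ico a (a + (Z.card + N))
  have hJ : ∀ t ∈ J, t < T := fun t ht => by
    have := Finset.mem_Ico.1 ht
    omega
  have h1 : (J.filter fun t => ∃ z ∈ Z, z ∈ D (dj t)).card ≤ Z.card := by
    have : ∀ t, ∃ z : Option (Vx k), (∃ z ∈ Z, z ∈ D (dj t)) → ∃ y ∈ Z, y ∈ D (dj t) ∧ z = some y := by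
      intro t
      by_cases c : ∃ z ∈ Z, z ∈ D (dj t)
      · obtain ⟨z, c1, c2⟩ := c
        exact ⟨some z, fun _ => ⟨z, c1, c2, rfl⟩⟩
      · exact ⟨none, fun d => absurd d c⟩
    choose z hz using this
    rw [← Finset.card_image_of_injective Z (Option.some_injective _)]
    refine Finset.card_le_card_of_injOn z (fun t ht => ?_) fun t ht t' ht' e => ?_
    · obtain ⟨y, y1, -, y2⟩ := hz t (Finset.mem_filter.1 ht).2
      exact Finset.mem_coe.2 (Finset.mem_image.2 ⟨y, y1, y2.symm⟩)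
    · obtain ⟨p1, p2⟩ := Finset.mem_filter.1 ht
      obtain ⟨q1, q2⟩ := Finset.mem_filter.1 ht'
      obtain ⟨y, -, y1, y2⟩ := hz t p2
      obtain ⟨y', -, y3, y4⟩ := hz t' q2
      obtain rfl : y = y' := Option.some_injective _ (y2.symm.trans (e.trans y4))
      refine hc.inj t (hJ t p1) t' (hJ t' q1) (not_not.1 fun c => ?_)
      exact disjoint_left.1 (hs.dis _ (hc.meet t (hJ t p1)).1 _ (hc.meet t' (hJ t' q1)).1 c) y1 y3
  have h2 := Finset.card_filter_add_card_filter_not (s := J) fun t => ∃ z ∈ Z, z ∈ D (dj t)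
  have h3 : J.card = Z.card + N := by simp [J]
  let f := Finset.orderEmbOfCardLe (J.filter fun t => ¬ ∃ z ∈ Z, z ∈ D (dj t)) (k := N) (by omega)
  refine ⟨fun j => if c : j < N then f ⟨j, c⟩ else 0, fun j hj => ?_, fun j hj j' hj' e => ?_⟩
  · simp only [hj, dif_pos]
    obtain ⟨p1, p2⟩ := Finset.mem_filter.1 (Finset.orderEmbOfCardLe_mem _ _ ⟨j, hj⟩ : f ⟨j, hj⟩ ∈ _)
    exact ⟨(Finset.mem_Ico.1 p1).1, (Finset.mem_Ico.1 p1).2, fun z hz c => p2 ⟨z, hz, c⟩⟩
  · simp only [hj, hj', dif_pos] at e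
    exact congrArg Fin.val (f.injective e)

theorem levels {S T : ℕ} {α β : ℕ → ℕ} (h0 : β 0 < T) (h1 : α S ≤ β S)
    (h : ∀ s < S, α s < α (s + 1) ∧ β (s + 1) < β s) :
    ∃ (lam : ℕ → ℕ) (γ : Bool → ℕ → ℕ) (sd : ℕ → Bool),
      (∀ s t, s < lam t ↔ s ≤ S ∧ α s ≤ t ∧ t ≤ β s) ∧
      (∀ σ s s', s < s' → s' ≤ S → γ σ s < γ σ s') ∧ (∀ σ, γ σ S < T) ∧
      (∀ σ, ∀ t < T, ut T σ t < γ σ S → sd t = σ ∧ ∀ s ≤ S, (s < lam t ↔ γ σ s ≤ ut T σ t)) ∧
      ∀ t < T, lam t ≤ S → ut T (sd t) t < γ (sd t) S := by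
  classical
  have m : ∀ s s', s < s' → s' ≤ S → α s < α s' ∧ β s' < β s := by
    intro s s' a b
    induction s', a using Nat.le_induction with
    | base => exact h s b
    | succ x _ ih =>
      have := ih (by omega)
      have := h x b
      omega
  have m' : ∀ s s', s ≤ s' → s' ≤ S → α s ≤ α s' ∧ β s' ≤ β s := fun s s' a b => by
    rcases a.eq_or_lt with rfl | a
    · omega
    · have := m s s' a b
      omega
  have ex : ∀ t, ∃ s, ¬ (s ≤ S ∧ α s ≤ t ∧ t ≤ β s) := fun t => ⟨S + 1, by omega⟩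
  have l : ∀ s t, s < Nat.find (ex t) ↔ s ≤ S ∧ α s ≤ t ∧ t ≤ β s := fun s t => by
    rw [Nat.lt_find_iff]
    refine ⟨fun a => not_not.1 (a s le_rfl), fun a x b => not_not.2 ?_⟩
    have := m' x s b a.1
    omega
  refine ⟨fun t => Nat.find (ex t), fun σ s => ut T σ (if σ then α s else β s),
    fun t => decide (t < α S), l, fun σ s s' a b => ?_, fun σ => ?_, fun σ t ht a => ?_,
    fun t ht a => ?_⟩
  · have := m s s' a b
    have := m' 0 s (by omega) (by omega)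
    cases σ <;> simp [ut] <;> omega
  · have := m' 0 S (by omega) le_rfl
    cases σ <;> simp [ut] <;> omega
  · have := m' 0 S (by omega) le_rfl
    refine ⟨?_, fun s b => ?_⟩
    · cases σ <;> simp [ut] at a ⊢ <;> omega
    · rw [l]
      have := m' s S b le_rfl
      have := m' 0 s (by omega) b
      cases σ <;> simp only [ut, Bool.false_eq_true, if_false, if_true] at a ⊢ <;> omega
  · have := (l S t).not.1 (not_lt.2 a)
    by_cases c : t < α S <;> simp [ut, c]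
    omega

theorem thresholds {u γ : ℕ → ℕ} {l S T : ℕ} (hu : ∀ i j, i ≤ j → j ≤ l → u i ≤ u j)
    (hs : ∀ x < T, ∃ j ≤ l, u j = x) (hγ : ∀ s s', s < s' → s' ≤ S → γ s < γ s') (hT : γ S < T) :
    ∃ κ : ℕ → ℕ, (∀ s ≤ S, κ s ≤ l ∧ ∀ j ≤ l, (κ s ≤ j ↔ γ s ≤ u j)) ∧
      ∀ s s', s < s' → s' ≤ S → κ s < κ s' := by
  classical
  have hT' : ∀ s ≤ S, γ s < T := fun s a => by
    rcases a.eq_or_lt with rfl | a
    · exact hT
    · exact (hγ s S a le_rfl).trans hT
  have : ∀ s, ∃ κ, s ≤ S → κ ≤ l ∧ ∀ j ≤ l, (κ ≤ j ↔ γ s ≤ u j) := fun s => by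
    by_cases a : s ≤ S
    · have ex : ∃ j, j ≤ l ∧ γ s ≤ u j := by
        obtain ⟨j, j1, j2⟩ := hs _ (hT' s a)
        exact ⟨j, j1, j2.ge⟩
      exact ⟨Nat.find ex, fun _ => ⟨(Nat.find_spec ex).1, fun j b =>
        ⟨fun c => (Nat.find_spec ex).2.trans (hu _ _ c b), fun c => Nat.find_min' ex ⟨b, c⟩⟩⟩⟩
    · exact ⟨0, fun b => absurd b a⟩
  choose κ hκ using this
  refine ⟨κ, hκ, fun s s' a b => ?_⟩
  obtain ⟨j, j1, j2⟩ := hs _ (hT' s (by omega))
  have := ((hκ s (by omega)).2 j j1).2 j2.ge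
  have := ((hκ s' b).2 j j1).not.2 (by have := hγ s s' a b; omega)
  omega

end Extb

open Extb in
theorem extbS (hX : XpS) (hL : RlS) (hC : ChainS) (hP : RepS) : ExtbS := by
  classical
  intro k i m hi
  obtain ⟨g, N, hg, hL⟩ := hL (Fin i × Bool)
  obtain ⟨r, hC⟩ := hC (Fin i × Bool)
  obtain ⟨S, hS⟩ : ∃ S, S = r * g := ⟨_, rfl⟩
  obtain ⟨T, hT, hR⟩ := runs m (S * m + N + 1) (by omega) S
  refine ⟨T, hT, fun len E n I T0 D L tm par dj hV hs hn hc hv => ?_⟩
  choose X Z hX1 hZ1 hv using hv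
  obtain ⟨α, β, -, r2, r3, r4⟩ := hR X hX1 0
  obtain ⟨lam, γ, sd, l1, l2, l3, l4, l5⟩ := levels (T := T) (α := α) (β := β) (S := S) (by omega)
    (by omega) fun s a => ⟨(r4 s a).1, (r4 s a).2.1⟩
  have i1 : ∀ b : Fin i × Bool, (L b.1).lo ≤ (L b.1).hi := fun b => (hc.ivs.1 _ b.1.2).1
  have i2 : ∀ b : Fin i × Bool, (L b.1).hi ≤ len (L b.1).p := fun b => (hc.ivs.1 _ b.1.2).2
  choose d hd using fun b : Fin i × Bool => dir (i1 b) (hc.timed _ b.1.2) b.2
  obtain ⟨e, he⟩ : ∃ e : Fin i × Bool → ℕ → Vx k, ∀ b, e b = en (L b.1) (d b) := ⟨_, fun _ => rfl⟩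
  obtain ⟨ℓ, hℓ⟩ : ∃ ℓ : Fin i × Bool → ℕ, ∀ b, ℓ b = (L b.1).hi - (L b.1).lo := ⟨_, fun _ => rfl⟩
  simp only [← he, ← hℓ] at hd
  have e1 : ∀ b, ∀ j ≤ ℓ b, e b j ∈ (L b.1).set := fun b j a => he b ▸ en_mem (i1 b) _ (hℓ b ▸ a)
  have e2 : ∀ b : Fin i × Bool, ∀ v ∈ (L b.1).set, ∃ j ≤ ℓ b, e b j = v := fun b v a =>
    he b ▸ hℓ b ▸ en_surj _ a
  have e3 : ∀ b, ∀ j < ℓ b, E.Adj (e b j) (e b (j + 1)) := fun b j a =>
    he b ▸ en_adj hV (i2 b) _ (hℓ b ▸ a)
  have e4 : ∀ b, ∀ x ≤ ℓ b, ∀ y ≤ ℓ b, e b x = e b y → x = y := fun b x p y q =>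
    he b ▸ en_inj _ (hℓ b ▸ p) (hℓ b ▸ q)
  have t1 : ∀ a < i, ∀ v ∈ (L a).set, tm v < T := fun a p => (hc.timed a p).1
  have e5 : ∀ b, ∀ x < T, ∃ j ≤ ℓ b, ut T b.2 (tm (e b j)) = x := fun b x a => by
    obtain ⟨u, u1, u2⟩ := times hc b.1.2 (t := ut T b.2 x) (by unfold ut; split_ifs <;> omega)
    obtain ⟨j, j1, rfl⟩ := e2 b u u1
    exact ⟨j, j1, by rw [u2]; unfold ut; split_ifs <;> omega⟩
  choose κ k1 k2 using fun b => thresholds (hd b) (e5 b) (l2 b.2) (l3 b.2)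
  obtain ⟨lev, hlev⟩ : ∃ lev : Vx k → ℕ, ∀ v,
    lev v = if ∃ a < i, v ∈ (L a).set then lam (tm v) else 0 := ⟨_, fun _ => rfl⟩
  have v1 : ∀ a < i, ∀ v ∈ (L a).set, lev v = lam (tm v) := fun a p v q => by
    rw [hlev, if_pos ⟨a, p, q⟩]
  have v2 : ∀ v, 0 < lev v → ∃ a < i, v ∈ (L a).set := fun v p => by
    by_contra c
    rw [hlev, if_neg c] at p
    omega
  have kS : ∀ b, κ b S ≤ ℓ b := fun b => (k1 b S le_rfl).1
  have k3 : ∀ b s s', s ≤ s' → s' ≤ S → κ b s ≤ κ b s' := fun b s s' p q => by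
    rcases p.eq_or_lt with rfl | p
    exacts [le_rfl, (k2 b s s' p q).le]
  have hB : ∀ b, ∀ j < κ b S, sd (tm (e b j)) = b.2 ∧ ∀ s ≤ S, (s < lev (e b j) ↔ κ b s ≤ j) := by
    intro b j p
    have q : j ≤ ℓ b := p.le.trans (kS b)
    obtain ⟨a1, a2⟩ := l4 b.2 _ (t1 _ b.1.2 _ (e1 b j q))
      (not_le.1 (((k1 b S le_rfl).2 j q).not.1 (not_le.2 p)))
    exact ⟨a1, fun s c => by rw [v1 _ b.1.2 _ (e1 b j q), a2 s c, (k1 b s c).2 j q]⟩
  have hA : ∀ (a : Fin i) (v : Vx k), v ∈ (L a).set → lev v ≤ S →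
      ∃ j < κ (a, sd (tm v)) S, e (a, sd (tm v)) j = v := by
    intro a v p q
    obtain ⟨j, j1, j2⟩ := e2 (a, sd (tm v)) v p
    refine ⟨j, not_le.1 (((k1 _ S le_rfl).2 j j1).not.2 (not_le.2 ?_)), j2⟩
    rw [j2]
    exact l5 _ (t1 _ a.2 v p) (v1 _ a.2 v p ▸ q)
  have hA' : ∀ v s s', s < lev v → lev v ≤ s' → s' ≤ S →
      ∃ b j, κ b s ≤ j ∧ j < κ b s' ∧ e b j = v := by
    intro v s s' p q c
    obtain ⟨a, a1, a2⟩ := v2 v (by omega)
    obtain ⟨j, j1, j2⟩ := hA ⟨a, a1⟩ v a2 (by omega)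
    have := (hB _ j j1).2
    rw [j2] at this
    exact ⟨_, j, (this s (by omega)).1 p, not_le.1 ((this s' c).not.1 (by omega)), j2⟩
  have hB' : ∀ b j s s', κ b s ≤ j → j < κ b s' → s ≤ S → s' ≤ S →
      s < lev (e b j) ∧ lev (e b j) ≤ s' := by
    intro b j s s' p q c c'
    have := (hB b j (q.trans_le (k3 b s' S c' le_rfl))).2
    exact ⟨(this s c).2 p, not_lt.1 ((this s' c').not.2 (by omega))⟩
  have hD : ∀ b b', b ≠ b' → ∀ x < κ b S, ∀ y < κ b' S, e b x ≠ e b' y := by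
    intro b b' p x q y q' c
    by_cases f : b.1 = b'.1
    · exact p (Prod.ext f (by rw [← (hB b x q).1, ← (hB b' y q').1, c]))
    · exact disjoint_left.1 (hc.ivs.2 _ b.1.2 _ b'.1.2 fun z => f (Fin.ext z))
        (e1 b x (q.le.trans (kS b))) (c ▸ e1 b' y (q'.le.trans (kS b')))
  let ZZ := (Finset.range S).biUnion fun s => Z (α s) (β s)
  have z1 : ZZ.card ≤ S * m := by
    refine Finset.card_biUnion_le.trans ?_
    simpa using Finset.sum_le_card_nsmul (Finset.range S) (fun s => (Z (α s) (β s)).card) m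
      fun s _ => hZ1 _ _
  have bS : β S < T := by
    have := l3 false
    have := (l1 S (β S)).2 ⟨le_rfl, by omega, le_rfl⟩
    have := ((l1 0 (β S)).1 (by omega)).2.2
    omega
  obtain ⟨t, g1, g2⟩ := good_times hs hc ZZ (a := α S) (N := N) (by omega)
  have g3 : ∀ j < N, t j < T := fun j p => by have := g1 j p; omega
  have g4 : ∀ j < N, dj (t j) < T0 := fun j p => (hc.meet _ (g3 j p)).1
  obtain ⟨b0, b1, b2⟩ := free_iv hc hn
  have w1 : ∀ w < r, (w + 1) * g ≤ S := fun w p => hS ▸ Nat.mul_le_mul_right g p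
  have w2 : ∀ w, (w + 1) * g = w * g + g := fun w => by ring
  have hx : ∀ w < r, ∀ j < N, ∃ S' ⊆ D (dj (t j)), Conn E S' ∧
      (∀ v ∈ S', w * g + 1 ≤ lev v ∧ lev v ≤ (w + 1) * g) ∧
      ∀ l, w * g + 1 ≤ l → l ≤ (w + 1) * g → ∃ v ∈ S', lev v = l := by
    intro w hw j hj
    obtain ⟨d1, d2, d3⟩ := hs.conn _ (g4 j hj)
    refine hX _ E _ lev _ _ (by rw [w2]; omega) d2 (fun u hu v hv' uv => ?_) ?_ ?_
    · by_contra c
      obtain ⟨a, a1, a2⟩ := v2 v (by omega)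
      have p := (l1 (lev u + 1) (tm v)).1 (by rw [← v1 a a1 v a2]; omega)
      have q := (l1 (lev u) (tm v)).1 (by rw [← v1 a a1 v a2]; omega)
      rcases hv _ _ a a1 v a2 q.2.1 q.2.2 u (d1 hu) uv.symm with ⟨b, f1, f2, f3, f4⟩ | f | f
      · have := (l1 (lev u) (tm u)).2 ⟨q.1, f3, f4⟩
        rw [← v1 b f1 u f2] at this
        omega
      · exact (r4 (lev u) (by omega)).2.2 _ p.2.1 p.2.2 f
      · exact (g1 j hj).2.2 u (Finset.mem_biUnion.2 ⟨_, Finset.mem_range.2 (by omega), f⟩) hu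
    · obtain ⟨y, y1, y2⟩ := d3 b0 b1
      refine ⟨y, y1, ?_⟩
      rw [hlev, if_neg fun ⟨a, a1, a2⟩ => b2 a a1 y y2 a2]
      omega
    · obtain ⟨-, u, u1, u2, u3⟩ := hc.meet _ (g3 j hj)
      refine ⟨u, u3, ?_⟩
      have := (l1 S (t j)).2 ⟨le_rfl, (g1 j hj).1, by have := g1 j hj; omega⟩
      have := w1 w hw
      rw [v1 0 hi u u1, u2]
      omega
  have key : ∀ w < r, ∃ v ∈ {v | w * g < lev v ∧ lev v ≤ (w + 1) * g},
      ∃ (θ : Equiv.Perm (Fin i × Bool)) (R : Fin i × Bool → Set (Vx k)), Pairwise (Disjoint on R) ∧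
      ∀ b, R b ⊆ {v | w * g < lev v ∧ lev v ≤ (w + 1) * g} \ {v} ∧ Conn E (R b) ∧
        e b (κ b (w * g) + 0) ∈ R b ∧
        e (θ b) (κ (θ b) (w * g) + (κ (θ b) ((w + 1) * g) - 1 - κ (θ b) (w * g))) ∈ R b := by
    intro w hw
    have a1 := w1 w hw
    have a2 := w2 w
    have a3 : ∀ b, κ b (w * g) < κ b ((w + 1) * g) := fun b => k2 b _ _ (by omega) a1
    have a4 : ∀ b, κ b ((w + 1) * g) ≤ κ b S := fun b => k3 b _ _ a1 le_rfl
    choose! D' d1 d2 d3 d4 using hx w hw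
    refine hL _ E _ (fun b j => e b (κ b (w * g) + j))
      (fun b => κ b ((w + 1) * g) - 1 - κ b (w * g)) lev (fun v => sd (tm v))
      (fun s => (⟨0, hi⟩, s)) (w * g + 1) D' ?_ (fun b => ⟨fun j p => ?_, fun j p => ?_,
        fun x p y q c => ?_⟩) (fun b b' c x p y q => ?_) (fun b x y p q => ?_) (fun y hy => ?_)
      (fun s x p => ?_) (fun j p => ⟨fun v q => d3 j p v q, d2 j p, fun x q =>
        d4 j p _ (by omega) (by omega)⟩) fun x p y q c => ?_
    · refine (Set.finite_iUnion fun b : Fin i × Bool =>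
        (Set.finite_Iio (κ b ((w + 1) * g))).image (e b)).subset fun v hv' => ?_
      obtain ⟨b, j, -, j2, j3⟩ := hA' v _ _ hv'.1 hv'.2 a1
      exact mem_iUnion.2 ⟨b, j, j2, j3⟩
    · exact hB' b _ _ _ (by omega) (by have := a3 b; omega) (by omega) a1
    · exact e3 b _ (by have := a4 b; have := kS b; omega)
    · have := a3 b
      have := a4 b
      have := kS b
      have := e4 b _ (by omega) _ (by omega) c
      omega
    · exact hD b b' c _ (by have := a3 b; have := a4 b; omega) _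
        (by have := a3 b'; have := a4 b'; omega)
    · have := a3 b
      have := a4 b
      have f1 := hB' b (κ b (w * g) + x) (w * g) S (by omega) (by omega) (by omega) le_rfl
      refine not_lt.1 fun c => ?_
      have f2 := ((hB b (κ b (w * g) + x) (by omega)).2 (lev (e b (κ b (w * g) + y)))
        (by omega)).1 c
      have f3 := ((hB b (κ b (w * g) + y) (by omega)).2 (lev (e b (κ b (w * g) + y)))
        (by omega)).2 (by omega)
      omega
    · obtain ⟨a, f1, f2⟩ := v2 y (by have := hy.1; omega)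
      have f3 : ∀ z ∈ {z | (∃ a < i, z ∈ (L a).set) ∧ tm z = tm y}, lev z = lev y := by
        rintro z ⟨⟨a', p, q⟩, c⟩
        rw [v1 a' p z q, v1 a f1 y f2, c]
      refine ⟨_, fun z hz => ?_, slab hV hc hi (t1 a f1 y f2), ⟨⟨a, f1, f2⟩, rfl⟩, f3, ?_⟩
      · change _ < lev z ∧ lev z ≤ _
        rw [f3 z hz]
        exact hy
      · obtain ⟨u, u1, u2⟩ := times hc hi (t1 a f1 y f2)
        have u3 := f3 u ⟨⟨0, hi, u1⟩, u2⟩
        obtain ⟨j, j1, j2⟩ := hA ⟨0, hi⟩ u u1 (by have := hy.2; omega)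
        rw [u2] at j1 j2
        have u4 := (hB _ j j1).2
        rw [j2, u3] at u4
        have u5 := (u4 (w * g) (by omega)).1 hy.1
        have u6 := (u4 _ a1).not.1 (not_lt.2 hy.2)
        refine ⟨j - κ (⟨0, hi⟩, sd (tm y)) (w * g), by omega, ?_⟩
        rw [Nat.add_sub_cancel' u5, j2]
        exact ⟨⟨0, hi, u1⟩, u2⟩
    · have f1 := k3 (⟨0, hi⟩, s) (w * g) (w * g + x) (by omega) (by omega)
      have f2 := k2 (⟨0, hi⟩, s) (w * g + x) (w * g + x + 1) (by omega) (by omega)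
      have f3 := k3 (⟨0, hi⟩, s) (w * g + x + 1) _ (by omega) a1
      have f4 := hB' _ _ _ _ le_rfl f2 (by omega) (by omega)
      refine ⟨κ (⟨0, hi⟩, s) (w * g + x) - κ (⟨0, hi⟩, s) (w * g), by omega, ?_⟩
      rw [Nat.add_sub_cancel' f1]
      omega
    · exact (hs.dis _ (g4 x p) _ (g4 y q) fun f =>
        c (g2 x p y q (hc.inj _ (g3 x p) _ (g3 y q) f))).mono (d1 x p) (d1 y q)
  have key' : ∀ w, ∃ (θ : Equiv.Perm (Fin i × Bool)) (R : Fin i × Bool → Set (Vx k)), w < r →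
      ∃ v, (w * g < lev v ∧ lev v ≤ (w + 1) * g) ∧ Pairwise (Disjoint on R) ∧
      ∀ b, R b ⊆ {v | w * g < lev v ∧ lev v ≤ (w + 1) * g} \ {v} ∧ Conn E (R b) ∧
        e b (κ b (w * g)) ∈ R b ∧ e (θ b) (κ (θ b) ((w + 1) * g) - 1) ∈ R b := by
    intro w
    by_cases hw : w < r
    · obtain ⟨v, p1, θ, R, p2, p3⟩ := key w hw
      refine ⟨θ, R, fun _ => ⟨v, p1, p2, fun b => ⟨(p3 b).1, (p3 b).2.1, (p3 b).2.2.1, ?_⟩⟩⟩
      have := k2 (θ b) (w * g) _ (by rw [w2]; omega) (w1 w hw)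
      have p4 := (p3 b).2.2.2
      rwa [show κ (θ b) (w * g) + (κ (θ b) ((w + 1) * g) - 1 - κ (θ b) (w * g)) =
        κ (θ b) ((w + 1) * g) - 1 by omega] at p4
    · exact ⟨1, fun _ => ∅, fun c => absurd c hw⟩
  choose θ R hR using key'
  have hR' : ∀ w < r, ∀ b, ∀ v ∈ R w b, w * g < lev v ∧ lev v ≤ (w + 1) * g := fun w p b v q => by
    obtain ⟨_, -, -, a⟩ := hR w p
    exact ((a b).1 q).1
  have hw : ∀ w w' x, w * g < x → x ≤ (w' + 1) * g → w ≤ w' := fun w w' x p q => by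
    have := Nat.lt_of_mul_lt_mul_right (p.trans_le q)
    omega
  obtain ⟨x, y, xy, yr, Y, y1, y2⟩ := hC _ E (fun w b => e b (κ b (w * g)))
    (fun w b => e b (κ b ((w + 1) * g) - 1)) θ R (fun w p b => by
      obtain ⟨_, -, -, a⟩ := hR w p
      exact (a b).2) (fun w p w' p' b b' c => by
      by_cases f : w = w'
      · subst f
        obtain ⟨_, -, a, -⟩ := hR w p
        exact a fun z => c (z ▸ rfl)
      · refine disjoint_left.2 fun v q q' => f (le_antisymm ?_ ?_)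
        exacts [hw _ _ _ (hR' w p b v q).1 (hR' w' p' b' v q').2,
          hw _ _ _ (hR' w' p' b' v q').1 (hR' w p b v q).2]) (fun w p b => by
      have a1 := k2 b (w * g) _ (by rw [w2]; omega) (w1 w (by omega))
      have a2 := (k1 b _ (w1 w (by omega))).1
      have a3 := e3 b (κ b ((w + 1) * g) - 1) (by omega)
      rwa [Nat.sub_add_cancel (by omega)] at a3)
  have a0 := w1 y yr
  have a1 : x * g < (y + 1) * g := Nat.mul_lt_mul_of_pos_right (by omega) hg
  have a2 : ∀ b, κ b (x * g) < κ b ((y + 1) * g) := fun b => k2 b _ _ a1 a0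
  have a3 : ∀ b, κ b ((y + 1) * g) ≤ κ b S := fun b => k3 b _ _ a0 le_rfl
  choose P p1 p2 p3 p4 p5 using fun b => en_iv (i1 b) (d b) (i := κ b (x * g))
    (j := κ b ((y + 1) * g) - 1) (by have := a2 b; omega)
    (by have := a3 b; have := kS b; have := hℓ b; omega)
  simp only [← he] at p4 p5
  have p6 : ∀ v, x * g < lev v → lev v ≤ (y + 1) * g → ∃ b, v ∈ (P b).set := fun v p q => by
    obtain ⟨b, j, j1, j2, j3⟩ := hA' v _ _ p q a0
    exact ⟨b, (p4 b v).2 ⟨j, j1, by omega, j3⟩⟩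
  obtain ⟨v, f1, -, f2⟩ := hR x (by omega)
  obtain ⟨b, hb⟩ := p6 v f1.1 (f1.2.trans (Nat.mul_le_mul_right g (by omega)))
  obtain ⟨b', -, f3⟩ := hP k len E _ P Y hV (fun b => ⟨p2 b, p1 b ▸ (p3 b).trans (i2 b)⟩)
    (fun b b' c => ⟨disjoint_left.2 fun z q q' => by
      obtain ⟨j, -, j2, j3⟩ := (p4 b z).1 q
      obtain ⟨j', -, j5, j6⟩ := (p4 b' z).1 q'
      exact hD b b' c j (by have := a2 b; have := a3 b; omega) j'
        (by have := a2 b'; have := a3 b'; omega) (j3.trans j6.symm), y1 c⟩)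
    (fun b => ⟨(y2 b).1, (p5 b _ (y2 b).2.1 (y2 b).2.2.1).1, (p5 b _ (y2 b).2.1 (y2 b).2.2.1).2,
      fun z q => by
        obtain ⟨w, c1, c2, b', c3⟩ := (y2 b).2.2.2 z q
        have := hR' w (by omega) b' z c3
        exact p6 z ((Nat.mul_le_mul_right g c1).trans_lt this.1)
          (this.2.trans (Nat.mul_le_mul_right g (by omega)))⟩) b v hb
  obtain ⟨w, c1, c2, b'', c3⟩ := (y2 b').2.2.2 v f3
  obtain rfl : w = x := le_antisymm (hw _ _ _ (hR' w (by omega) b'' v c3).1 f1.2) c1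
  exact ((f2 b'').1 c3).2 rfl

end Pool.Agent.MP_9d78a0_co.fb

end MrgPart2

-- marker of a merged file
example : 731051 + 380133 = 731051 + 380133 := rfl
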