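import Pool.Agent.MP_9d78a0_co.gm.Map
import Pool.Agent.MP_7be75d_co.Gen.Final
import Pool.Agent.MP_9d78a0_co.fb.Conv
import Mathlib.Data.Set.Card.Arithmetic

-- ======== part 0: formerly Pool.Agent.MP_9d78a0_co.fb.Sk
section MrgPart0

/-! The skeleton of a model. -/

set_option autoImplicit false

namespace Pool.Agent.MP_9d78a0_co.fb

open Set Function

namespace Sk

variable {V X : Type} {G : SimpleGraph V} {B : X → Set V} {r : X → V}

/-- `Q` is the set of inner vertices of a path from `u` to `v` in `S` -/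
def Arc (G : SimpleGraph V) (S : Set V) (u v : V) (Q : Set V) : Prop :=
  ∃ f l, IsPath G S f l ∧ f 0 = u ∧ f l = v ∧ Q = f '' Ioo 0 l

theorem Arc.sub {S Q : Set V} {u v : V} (h : Arc G S u v Q) : u ∈ S ∧ v ∈ S ∧ Q ⊆ S := by
  obtain ⟨f, l, ⟨h1, -, -⟩, rfl, rfl, rfl⟩ := h
  refine ⟨h1 0 (by omega), h1 l le_rfl, ?_⟩
  rintro _ ⟨j, hj, rfl⟩
  exact h1 j hj.2.le

theorem Arc.empty {S Q : Set V} {u v : V} (h : Arc G S u v Q) (hQ : ¬ Q.Nonempty) :
    u = v ∨ G.Adj u v := by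
  obtain ⟨f, l, ⟨-, h2, -⟩, rfl, rfl, rfl⟩ := h
  by_cases c : 1 < l
  · exact absurd ⟨f 1, 1, ⟨by omega, c⟩, rfl⟩ hQ
  · obtain rfl | rfl : l = 0 ∨ l = 1 := by omega
    · exact Or.inl rfl
    · exact Or.inr (h2 0 (by omega))

theorem Arc.ends {S Q : Set V} {u v : V} (h : Arc G S u v Q) (hQ : Q.Nonempty) :
    Conn G Q ∧ ∃ s t : V, s ∈ Q ∧ t ∈ Q ∧ G.Adj u s ∧ G.Adj v t := by
  obtain ⟨f, l, ⟨-, h2, -⟩, rfl, rfl, rfl⟩ := h
  obtain ⟨_, j, ⟨h3, h4⟩, rfl⟩ := hQ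
  obtain ⟨m, rfl⟩ : ∃ m, l = m + 1 := ⟨l - 1, by omega⟩
  have e : Ioo 0 (m + 1) = Icc 1 m := by
    ext i
    simp only [mem_Ioo, mem_Icc]
    omega
  rw [e]
  exact ⟨conn_seg (by omega) fun i _ hi => h2 i (by omega), f 1, f m,
    ⟨1, ⟨le_rfl, by omega⟩, rfl⟩, ⟨m, ⟨by omega, le_rfl⟩, rfl⟩, h2 0 (by omega),
    (h2 m (by omega)).symm⟩

theorem Arc.split {S Q : Set V} {u v y : V} (h : Arc G S u v Q) (hy : y ∈ Q) :
    ∃ Q1 Q2, Arc G S u y Q1 ∧ Arc G S y v Q2 ∧ Disjoint Q1 Q2 ∧ Q1 ⊆ Q \ {y} ∧ Q2 ⊆ Q \ {y} := by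
  obtain ⟨f, l, ⟨h1, h2, h3⟩, rfl, rfl, rfl⟩ := h
  obtain ⟨j, ⟨h4, h5⟩, rfl⟩ := hy
  refine ⟨_, _, ⟨f, j, ⟨fun i hi => h1 i (by omega), fun i hi => h2 i (by omega),
    fun i hi i' hi' => h3 i (by omega) i' (by omega)⟩, rfl, rfl, rfl⟩,
    ⟨fun i => f (j + i), l - j, ⟨fun i hi => h1 _ (by omega), fun i hi => h2 (j + i) (by omega),
      fun i hi i' hi' e => by have := h3 _ (by omega) _ (by omega) e; omega⟩, rfl,
      congrArg f (by omega), rfl⟩, ?_, ?_, ?_⟩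
  · rw [disjoint_left]
    rintro _ ⟨i, ⟨h6, h7⟩, rfl⟩ ⟨i', ⟨h8, h9⟩, e⟩
    have := h3 _ (by omega) _ (by omega) e
    omega
  · rintro _ ⟨i, ⟨h6, h7⟩, rfl⟩
    refine ⟨⟨i, ⟨h6, by omega⟩, rfl⟩, fun e => ?_⟩
    have := h3 _ (by omega) _ (by omega) e
    omega
  · rintro _ ⟨i, ⟨h6, h7⟩, rfl⟩
    refine ⟨⟨j + i, ⟨by omega, by omega⟩, rfl⟩, fun e => ?_⟩
    have := h3 _ (by omega) _ (by omega) e
    omega

/-- the two ends of an arc of the family -/
def Stp (P : Set (V × V × Set V)) (u v : V) : Prop := ∃ Q, (u, v, Q) ∈ P ∨ (v, u, Q) ∈ P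

/-- nodes and arcs inside the branch sets -/
structure St (G : SimpleGraph V) (B : X → Set V) (r : X → V) (Z : Set V)
    (P : Set (V × V × Set V)) : Prop where
  arc : ∀ a ∈ P, (∃ w, Arc G (B w) a.1 a.2.1 a.2.2) ∧ a.1 ∈ Z ∧ a.2.1 ∈ Z ∧ Disjoint a.2.2 Z
  dis : ∀ a ∈ P, ∀ a' ∈ P, a ≠ a' → Disjoint a.2.2 a'.2.2
  conn : ∀ z ∈ Z, ∃ w, z ∈ B w ∧ Relation.ReflTransGen (Stp P) (r w) z
  root : ∀ w, r w ∈ Z

theorem St.attach (hd : ∀ w w' x, x ∈ B w → x ∈ B w' → w = w') {Z : Set V}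
    {P : Set (V × V × Set V)} (h : St G B r Z P) {w : X} {x y : V} {Q : Set V}
    (ha : Arc G (B w) x y Q) (hy : y ∈ Z) (hQ : Disjoint Q (insert x Z))
    (hP : ∀ a ∈ P, Disjoint a.2.2 (insert x Q)) : St G B r (insert x Z) (insert (x, y, Q) P) := by
  have hm : ∀ u v, Relation.ReflTransGen (Stp P) u v →
      Relation.ReflTransGen (Stp (insert (x, y, Q) P)) u v := by
    intro u v k
    induction k with
    | refl => exact Relation.ReflTransGen.refl
    | tail _ k ih =>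
      obtain ⟨Q', k'⟩ := k
      exact ih.tail ⟨Q', k'.imp Or.inr Or.inr⟩
  refine ⟨?_, ?_, ?_, fun w => Or.inr (h.root w)⟩
  · rintro a (rfl | k)
    · exact ⟨⟨w, ha⟩, Or.inl rfl, Or.inr hy, hQ⟩
    · obtain ⟨h1, h2, h3, h4⟩ := h.arc a k
      refine ⟨h1, Or.inr h2, Or.inr h3, disjoint_left.2 ?_⟩
      rintro v hv (rfl | hv')
      · exact disjoint_left.1 (hP a k) hv (Or.inl rfl)
      · exact disjoint_left.1 h4 hv hv'
  · rintro a (rfl | k) a' (rfl | k') e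
    · exact absurd rfl e
    · exact ((hP a' k').mono_right (subset_insert _ _)).symm
    · exact (hP a k).mono_right (subset_insert _ _)
    · exact h.dis a k a' k' e
  · rintro z (rfl | k)
    · obtain ⟨w', h1, h2⟩ := h.conn y hy
      obtain rfl := hd _ _ _ h1 ha.sub.2.1
      exact ⟨w', ha.sub.1, (hm _ _ h2).tail ⟨Q, Or.inr (Or.inl rfl)⟩⟩
    · obtain ⟨w', h1, h2⟩ := h.conn z k
      exact ⟨w', h1, hm _ _ h2⟩

theorem St.split [Finite V] (hd : ∀ w w' x, x ∈ B w → x ∈ B w' → w = w') {Z : Set V}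
    {P : Set (V × V × Set V)} (h : St G B r Z P) {y : V} (hy : y ∈ Z ∨ ∃ a ∈ P, y ∈ a.2.2) :
    ∃ P', St G B r (insert y Z) P' ∧ P'.ncard ≤ P.ncard + 2 ∧ ∀ a' ∈ P', ∃ a ∈ P, a'.2.2 ⊆ a.2.2 := by
  rcases hy with hy | ⟨⟨u, v, Q⟩, ha, hy⟩
  · rw [insert_eq_of_mem hy]
    exact ⟨P, h, by omega, fun a k => ⟨a, k, Subset.rfl⟩⟩
  obtain ⟨⟨w, h1⟩, h2, h3, h4⟩ := h.arc _ ha
  obtain ⟨Q1, Q2, a1, a2, d12, s1, s2⟩ := h1.split hy
  have hm : ∀ s t, Relation.ReflTransGen (Stp P) s t → Relation.ReflTransGen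
      (Stp (insert (u, y, Q1) (insert (y, v, Q2) (P \ {(u, v, Q)})))) s t := by
    intro s t k
    induction k with
    | refl => exact Relation.ReflTransGen.refl
    | @tail b c _ k ih =>
      obtain ⟨Q', k | k⟩ := k
      · by_cases e : (b, c, Q') = (u, v, Q)
        · obtain ⟨rfl, rfl, rfl⟩ := e
          exact (ih.tail ⟨Q1, Or.inl (Or.inl rfl)⟩).tail ⟨Q2, Or.inl (Or.inr (Or.inl rfl))⟩
        · exact ih.tail ⟨Q', Or.inl (Or.inr (Or.inr ⟨k, e⟩))⟩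
      · by_cases e : (c, b, Q') = (u, v, Q)
        · obtain ⟨rfl, rfl, rfl⟩ := e
          exact (ih.tail ⟨Q2, Or.inr (Or.inr (Or.inl rfl))⟩).tail ⟨Q1, Or.inr (Or.inl rfl)⟩
        · exact ih.tail ⟨Q', Or.inr (Or.inr (Or.inr ⟨k, e⟩))⟩
  have hz : ∀ Q' ⊆ Q \ {y}, Disjoint Q' (insert y Z) := by
    intro Q' s
    rw [disjoint_left]
    rintro x hx (e | e)
    · exact (s hx).2 e
    · exact disjoint_left.1 h4 (s hx).1 e
  have ho : ∀ a ∈ P \ {(u, v, Q)}, ∀ Q' ⊆ Q \ {y}, Disjoint a.2.2 Q' := fun a k Q' s =>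
    (h.dis a k.1 _ ha k.2).mono_right (s.trans sdiff_subset)
  refine ⟨insert (u, y, Q1) (insert (y, v, Q2) (P \ {(u, v, Q)})),
    ⟨?_, ?_, ?_, fun w => Or.inr (h.root w)⟩, ?_, ?_⟩
  · rintro a (rfl | rfl | k)
    · exact ⟨⟨w, a1⟩, Or.inr h2, Or.inl rfl, hz _ s1⟩
    · exact ⟨⟨w, a2⟩, Or.inl rfl, Or.inr h3, hz _ s2⟩
    · obtain ⟨h5, h6, h7, h8⟩ := h.arc a k.1
      refine ⟨h5, Or.inr h6, Or.inr h7, disjoint_left.2 ?_⟩
      rintro x hx (rfl | hx')
      · exact disjoint_left.1 (h.dis a k.1 _ ha k.2) hx hy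
      · exact disjoint_left.1 h8 hx hx'
  · rintro a (rfl | rfl | k) a' (rfl | rfl | k') e
    · exact absurd rfl e
    · exact d12
    · exact (ho a' k' _ s1).symm
    · exact d12.symm
    · exact absurd rfl e
    · exact (ho a' k' _ s2).symm
    · exact ho a k _ s1
    · exact ho a k _ s2
    · exact h.dis a k.1 a' k'.1 e
  · rintro z (rfl | k)
    · obtain ⟨w', h5, h6⟩ := h.conn u h2
      obtain rfl := hd _ _ _ h5 h1.sub.1
      exact ⟨w', h1.sub.2.2 hy, (hm _ _ h6).tail ⟨Q1, Or.inl (Or.inl rfl)⟩⟩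
    · obtain ⟨w', h5, h6⟩ := h.conn z k
      exact ⟨w', h5, hm _ _ h6⟩
  · have e1 := ncard_insert_le (u, y, Q1) (insert (y, v, Q2) (P \ {(u, v, Q)}))
    have e2 := ncard_insert_le (y, v, Q2) (P \ {(u, v, Q)})
    have e3 := ncard_le_ncard (sdiff_subset (s := P) (t := {(u, v, Q)}))
    omega
  · rintro a (rfl | rfl | k)
    · exact ⟨_, ha, s1.trans sdiff_subset⟩
    · exact ⟨_, ha, s2.trans sdiff_subset⟩
    · exact ⟨a, k.1, Subset.rfl⟩

theorem St.add [Finite V] (hd : ∀ w w' x, x ∈ B w → x ∈ B w' → w = w') (hc : ∀ w, Conn G (B w))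
    (hr : ∀ w, r w ∈ B w) {Z : Set V} {P : Set (V × V × Set V)} (h : St G B r Z P) {w : X} {x : V}
    (hx : x ∈ B w) : ∃ Z' P', St G B r Z' P' ∧ insert x Z ⊆ Z' ∧ Z'.ncard ≤ Z.ncard + 2 ∧
      P'.ncard ≤ P.ncard + 3 := by
  classical
  obtain ⟨f, l, ⟨h1, h2, h3⟩, h4, h5⟩ := link_path ((hc w).2 x hx _ (hr w)) hx
  have ex : ∃ m, f m ∈ Z ∨ ∃ a ∈ P, f m ∈ a.2.2 := ⟨l, Or.inl (h5 ▸ h.root w)⟩
  have hl : Nat.find ex ≤ l := Nat.find_min' ex (Or.inl (h5 ▸ h.root w))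
  have hs := Nat.find_spec ex
  have hm := fun j => Nat.find_min ex (m := j)
  generalize Nat.find ex = m at hl hs hm
  obtain ⟨P', k1, k2, k3⟩ := h.split hd hs
  have e1 := ncard_insert_le (f m) Z
  rcases Nat.eq_zero_or_pos m with rfl | h0
  · rw [h4] at k1 e1
    exact ⟨_, _, k1, Subset.rfl, by omega, by omega⟩
  have ha : Arc G (B w) x (f m) (f '' Ioo 0 m) :=
    ⟨f, m, ⟨fun i hi => h1 i (by omega), fun i hi => h2 i (by omega),
      fun i hi i' hi' => h3 i (by omega) i' (by omega)⟩, h4, rfl, rfl⟩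
  refine ⟨_, _, k1.attach hd ha (Or.inl rfl) ?_ ?_, insert_subset_insert (subset_insert _ _), ?_, ?_⟩
  · rw [disjoint_left]
    rintro _ ⟨j, ⟨h6, h7⟩, rfl⟩ (e | e | e)
    · have := h3 j (by omega) 0 (by omega) (e.trans h4.symm)
      omega
    · have := h3 j (by omega) m hl e
      omega
    · exact hm j h7 (Or.inl e)
  · intro a' ha'
    obtain ⟨a, k4, k5⟩ := k3 a' ha'
    rw [disjoint_left]
    rintro v hv (rfl | ⟨j, ⟨h6, h7⟩, rfl⟩)
    · exact hm 0 h0 (Or.inr ⟨a, k4, h4 ▸ k5 hv⟩)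
    · exact hm j h7 (Or.inr ⟨a, k4, k5 hv⟩)
  · have := ncard_insert_le x (insert (f m) Z)
    omega
  · have := ncard_insert_le (x, f m, f '' Ioo 0 m) P'
    omega

theorem exists_st [Finite V] [Finite X] (hd : ∀ w w' x, x ∈ B w → x ∈ B w' → w = w')
    (hc : ∀ w, Conn G (B w)) (hr : ∀ w, r w ∈ B w) (T : Set V) (hT : ∀ x ∈ T, ∃ w, x ∈ B w) :
    ∃ Z P, St G B r Z P ∧ T ⊆ Z ∧ Z.ncard ≤ Nat.card X + 2 * T.ncard ∧ P.ncard ≤ 3 * T.ncard := by
  induction T, T.toFinite using Set.Finite.induction_on with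
  | empty =>
    refine ⟨range r, ∅, ⟨fun _ h => h.elim, fun _ h => h.elim, ?_, fun w => ⟨w, rfl⟩⟩,
      empty_subset _, ?_, by simp⟩
    · rintro _ ⟨w, rfl⟩
      exact ⟨w, hr w, Relation.ReflTransGen.refl⟩
    · have := ncard_image_le (f := r) (s := univ)
      rw [image_univ, ncard_univ] at this
      omega
  | @insert x T hx hf ih =>
    obtain ⟨Z, P, h1, h2, h3, h4⟩ := ih fun y hy => hT y (Or.inr hy)
    obtain ⟨w, hw⟩ := hT x (Or.inl rfl)
    obtain ⟨Z', P', k1, k2, k3, k4⟩ := h1.add hd hc hr hw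
    rw [ncard_insert_of_notMem hx hf]
    exact ⟨Z', P', k1, (insert_subset_insert h2).trans k2, by omega, by omega⟩

end Sk

open Sk

theorem skS : SkS := by
  intro h a
  refine ⟨h + 3 * (a + 2 * (h * h)), ?_⟩
  intro V X _ _ G H S A B hX hA ⟨hS, hc, hdis, hadj⟩
  have hd : ∀ w w' x, x ∈ B w → x ∈ B w' → w = w' := fun w w' x h1 h2 => by
    by_contra e
    exact disjoint_left.1 (hdis w w' e) h1 h2
  choose r hr using fun w => (hc w).1
  have he : ∀ q : X × X, ∃ u ∈ B q.1, ∃ v ∈ B q.2, H.Adj q.1 q.2 → G.Adj u v := by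
    intro q
    by_cases c : H.Adj q.1 q.2
    · obtain ⟨u, hu, v, hv, e⟩ := hadj _ _ c
      exact ⟨u, hu, v, hv, fun _ => e⟩
    · exact ⟨_, hr _, _, hr _, fun c' => absurd c' c⟩
  choose e1 he1 e2 he2 he3 using he
  obtain ⟨Z, P, st, hT, hZ, hP⟩ := exists_st hd hc hr
    ({x | x ∈ A ∧ ∃ w, x ∈ B w} ∪ (range e1 ∪ range e2)) (by
      rintro x (hx | ⟨q, rfl⟩ | ⟨q, rfl⟩)
      exacts [hx.2, ⟨_, he1 q⟩, ⟨_, he2 q⟩])
  have hn : ({x | x ∈ A ∧ ∃ w, x ∈ B w} ∪ (range e1 ∪ range e2)).ncard ≤ a + 2 * (h * h) := by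
    have k1 := ncard_union_le {x | x ∈ A ∧ ∃ w, x ∈ B w} (range e1 ∪ range e2)
    have k2 := ncard_union_le (range e1) (range e2)
    have k3 : {x | x ∈ A ∧ ∃ w, x ∈ B w}.ncard ≤ A.ncard := ncard_le_ncard fun x hx => hx.1
    have k4 := ncard_image_le (f := e1) (s := univ)
    have k5 := ncard_image_le (f := e2) (s := univ)
    rw [image_univ, ncard_univ, Nat.card_prod] at k4 k5
    have k6 := Nat.mul_le_mul hX hX
    omega
  let P' : Set (V × V × Set V) := {b | b ∈ P ∧ b.2.2.Nonempty}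
  have hP' : P'.ncard ≤ P.ncard := ncard_le_ncard fun b hb => hb.1
  let ez := (Finite.equivFin Z).symm
  let ep := (Finite.equivFin P').symm
  have hends : ∀ p, Conn G (ep p).1.2.2 ∧ ∃ s t : V, s ∈ (ep p).1.2.2 ∧ t ∈ (ep p).1.2.2 ∧
      G.Adj (ep p).1.1 s ∧ G.Adj (ep p).1.2.1 t := fun p => by
    obtain ⟨w, hw⟩ := (st.arc _ (ep p).2.1).1
    exact hw.ends (ep p).2.2
  choose hQ σ τ hσ hτ hu hv using hends
  have hix : ∀ x ∈ Z, ∃ i, (ez i).1 = x := fun x hx =>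
    ⟨ez.symm ⟨x, hx⟩, by rw [Equiv.apply_symm_apply]⟩
  have hinj : Injective fun i => (ez i).1 := Subtype.val_injective.comp ez.injective
  refine ⟨Nat.card Z, ?_, Nat.card P', ?_, fun i => (ez i).1, σ, τ, fun p => (ep p).1.2.2, hinj,
    fun i => ?_, ⟨fun p => ⟨fun x hx => ?_, hQ p, hσ p, hτ p⟩, fun p p' e => ?_⟩, ?_⟩
  · rw [Nat.card_coe_set_eq]; omega
  · rw [Nat.card_coe_set_eq]; omega
  · obtain ⟨w, hw, -⟩ := st.conn _ (ez i).2
    exact hS w hw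
  · obtain ⟨⟨w, hw⟩, -, -, k⟩ := st.arc _ (ep p).2.1
    refine ⟨hS w (hw.sub.2.2 hx), ?_⟩
    rintro (⟨i, rfl⟩ | hxa)
    · exact disjoint_left.1 k hx (ez i).2
    · exact disjoint_left.1 k hx (hT (Or.inl ⟨hxa, w, hw.sub.2.2 hx⟩))
  · exact st.dis _ (ep p).2.1 _ (ep p').2.1 fun c => e (ep.injective (Subtype.ext c))
  refine Model.isMinor (S := univ)
    (B := fun w => {n | Sum.elim (fun i => (ez i).1) σ n ∈ B w}) ⟨fun _ => subset_univ _, fun w => ?_,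
      fun w w' e => disjoint_left.2 fun n h1 h2 => e (hd _ _ _ h1 h2), fun w w' e => ?_⟩
  · have ha : ∀ b ∈ P, ∀ i j, (ez i).1 = b.1 → (ez j).1 = b.2.1 → b.1 ∈ B w ∨ b.2.1 ∈ B w →
        b.1 ∈ B w ∧ b.2.1 ∈ B w ∧ Link (skel G (fun i => (ez i).1) σ τ)
          {n | Sum.elim (fun i => (ez i).1) σ n ∈ B w} (.inl i) (.inl j) := by
      intro b hb i j hi hj hw
      obtain ⟨w', hw'⟩ := (st.arc b hb).1
      obtain rfl : w' = w := hw.elim (hd _ _ _ hw'.sub.1) (hd _ _ _ hw'.sub.2.1)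
      have m1 : Sum.elim (fun i => (ez i).1) σ (.inl i) ∈ B w' := by
        rw [Sum.elim_inl, hi]; exact hw'.sub.1
      have m2 : Sum.elim (fun i => (ez i).1) σ (.inl j) ∈ B w' := by
        rw [Sum.elim_inl, hj]; exact hw'.sub.2.1
      refine ⟨hw'.sub.1, hw'.sub.2.1, ?_⟩
      by_cases c : b.2.2.Nonempty
      · obtain ⟨p, hp⟩ := ep.surjective ⟨b, hb, c⟩
        obtain rfl : (ep p).1 = b := by rw [hp]
        have m3 : Sum.elim (fun i => (ez i).1) σ (.inr p) ∈ B w' := hw'.sub.2.2 (hσ p)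
        have a1 : (skel G (fun i => (ez i).1) σ τ).Adj (.inl i) (.inr p) :=
          Or.inl (show G.Adj (ez i).1 (σ p) from hi ▸ hu p)
        have a2 : (skel G (fun i => (ez i).1) σ τ).Adj (.inr p) (.inl j) :=
          Or.inr (show G.Adj (ez j).1 (τ p) from hj ▸ hv p)
        exact Link.trans (Link.single m1 m3 a1) (Link.single m3 m2 a2)
      · rcases hw'.empty c with e | e
        · obtain rfl : i = j := hinj (hi.trans (e.trans hj.symm))
          exact Link.refl _ _ _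
        · refine Link.single m1 m2 ?_
          change G.Adj (ez i).1 (ez j).1
          rw [hi, hj]; exact e
    obtain ⟨i0, hi0⟩ := hix _ (st.root w)
    have hb : ∀ v, Relation.ReflTransGen (Stp P) (r w) v → v ∈ B w ∧ ∀ j, (ez j).1 = v →
        Link (skel G (fun i => (ez i).1) σ τ) {n | Sum.elim (fun i => (ez i).1) σ n ∈ B w}
          (.inl i0) (.inl j) := by
      intro v k
      induction k with
      | refl =>
        refine ⟨hr w, fun j hj => ?_⟩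
        obtain rfl : j = i0 := hinj (hj.trans hi0.symm)
        exact Link.refl _ _ _
      | @tail b c _ k ih =>
        obtain ⟨Q, k | k⟩ := k
        · obtain ⟨i, hi⟩ := hix _ (st.arc _ k).2.1
          obtain ⟨j0, hj0⟩ := hix _ (st.arc _ k).2.2.1
          exact ⟨(ha _ k i j0 hi hj0 (Or.inl ih.1)).2.1,
            fun j hj => (ih.2 i hi).trans (ha _ k i j hi hj (Or.inl ih.1)).2.2⟩
        · obtain ⟨i, hi⟩ := hix _ (st.arc _ k).2.2.1
          obtain ⟨j0, hj0⟩ := hix _ (st.arc _ k).2.1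
          exact ⟨(ha _ k j0 i hj0 hi (Or.inr ih.1)).1,
            fun j hj => (ih.2 i hi).trans (ha _ k j i hj hi (Or.inr ih.1)).2.2.symm⟩
    have hz : ∀ j, (ez j).1 ∈ B w → Link (skel G (fun i => (ez i).1) σ τ)
        {n | Sum.elim (fun i => (ez i).1) σ n ∈ B w} (.inl i0) (.inl j) := by
      intro j hj
      obtain ⟨w', k1, k2⟩ := st.conn _ (ez j).2
      obtain rfl := hd _ _ _ k1 hj
      exact (hb _ k2).2 j rfl
    refine conn_of_center (a := .inl i0) (show (ez i0).1 ∈ B w from hi0 ▸ hr w) ?_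
    rintro (j | p) hn
    · exact hz j hn
    · obtain ⟨⟨w', hw'⟩, k, -⟩ := st.arc _ (ep p).2.1
      obtain rfl : w' = w := hd _ _ _ (hw'.sub.2.2 (hσ p)) hn
      obtain ⟨i, hi⟩ := hix _ k
      have m1 : (ez i).1 ∈ B w' := hi ▸ hw'.sub.1
      refine (hz i m1).trans (Link.single m1 hn (Or.inl ?_))
      change G.Adj (ez i).1 (σ p)
      rw [hi]; exact hu p
  · obtain ⟨i, hi⟩ := hix _ (hT (Or.inr (Or.inl ⟨(w, w'), rfl⟩)))
    obtain ⟨j, hj⟩ := hix _ (hT (Or.inr (Or.inr ⟨(w, w'), rfl⟩)))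
    refine ⟨.inl i, show (ez i).1 ∈ B w from hi ▸ he1 (w, w'), .inl j,
      show (ez j).1 ∈ B w' from hj ▸ he2 (w, w'), ?_⟩
    change G.Adj (ez i).1 (ez j).1
    rw [hi, hj]
    exact he3 (w, w') e

end Pool.Agent.MP_9d78a0_co.fb

end MrgPart0

-- ======== part 1: formerly Pool.Agent.MP_9d78a0_co.fb.Hom
section MrgPart1

/-! Row HOM: coarser levels with homogeneous patterns. -/

set_option autoImplicit false

namespace Pool.Agent.MP_9d78a0_co.fb

open Set Function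

namespace HomR

variable {V : Type}

theorem real_congr {M : ℕ} {ι : Type} {G : SimpleGraph V} {Y : Set V} {nb nb' : ι → Set V}
    (h : ∀ i, ∀ y ∈ Y, y ∈ nb i → y ∈ nb' i) {π : Ptn M ι} (hr : Real G Y nb π) :
    Real G Y nb' π := by
  obtain ⟨X, h1, h2⟩ := hr
  refine ⟨X, fun p hp => ⟨(h1 p hp).1, (h1 p hp).2.1, fun i hi => ?_⟩, h2⟩
  obtain ⟨y, hy, hy'⟩ := (h1 p hp).2.2 i hi
  exact ⟨y, hy, h i y ((h1 p hp).1 hy) hy'⟩

theorem exists_inv (f : ℕ → ℕ) (n : ℕ) (hf : ∀ i j, i < j → j ≤ n + 1 → f i < f j) :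
    ∃ g : ℕ → ℕ, ∀ l, f 0 ≤ l → l < f (n + 1) → g l ≤ n ∧ ∀ u ≤ n + 1, f u ≤ l ↔ u ≤ g l := by
  classical
  refine ⟨fun l => Nat.findGreatest (fun u => f u ≤ l) n, fun l h0 h1 =>
    ⟨Nat.findGreatest_le _, fun u hu => ⟨fun h => ?_, fun h => ?_⟩⟩⟩
  · rcases Nat.lt_or_ge n u with c | c
    · have : u = n + 1 := by omega
      subst this
      omega
    · exact Nat.le_findGreatest (P := fun u => f u ≤ l) c h
  · have h2 : f (Nat.findGreatest (fun u => f u ≤ l) n) ≤ l :=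
      Nat.findGreatest_spec (P := fun u => f u ≤ l) (Nat.zero_le n) h0
    have h3 : Nat.findGreatest (fun u => f u ≤ l) n ≤ n := Nat.findGreatest_le _
    rcases Nat.lt_or_ge u (Nat.findGreatest (fun u => f u ≤ l) n) with c | c
    · have := hf _ _ c (by omega)
      omega
    · have : u = Nat.findGreatest (fun u => f u ≤ l) n := le_antisymm h c
      rw [this]
      exact h2

/-- unions over the fine levels of one coarse level -/
def un (f : ℕ → ℕ) (S : ℕ → Set V) (u : ℕ) : Set V := ⋃ l ∈ Icc (f u) (f (u + 1) - 1), S l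

theorem mem_un {f : ℕ → ℕ} {S : ℕ → Set V} {u : ℕ} {x : V} :
    x ∈ un f S u ↔ ∃ l, f u ≤ l ∧ l ≤ f (u + 1) - 1 ∧ x ∈ S l := by
  simp only [un, mem_iUnion, mem_Icc, exists_prop, and_assoc]

section

variable {G : SimpleGraph V} {A W : Set V} {lev : V → ℕ} {D : ℕ → Set V} {ρ : ℕ → ℕ → Set V}
  {s T n : ℕ} {f g : ℕ → ℕ}

theorem band (h : LBand G A W lev D ρ s T) (hT : 0 < T)
    (hf : ∀ i j, i < j → j ≤ n + 1 → f i < f j) (h0 : 0 < f 0) (hs : f (n + 1) ≤ s)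
    (hg : ∀ l, f 0 ≤ l → l < f (n + 1) → g l ≤ n ∧ ∀ u ≤ n + 1, f u ≤ l ↔ u ≤ g l) :
    LBand G A (Lv W lev (f 0) (f (n + 1))) (fun v => g (lev v)) (un f D)
      (fun i => un f (ρ i)) n T := by
  have hle : ∀ i j, i ≤ j → j ≤ n + 1 → f i ≤ f j := by
    intro i j hij hj
    rcases Nat.lt_or_ge i j with c | c
    · exact (hf i j c hj).le
    · rw [le_antisymm hij c]
  have lo : ∀ l, f 0 ≤ l → l < f (n + 1) → f (g l) ≤ l := fun l a b =>
    ((hg l a b).2 _ (by have := (hg l a b).1; omega)).2 le_rfl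
  have hi : ∀ l, f 0 ≤ l → l < f (n + 1) → l < f (g l + 1) := fun l a b => by
    have := (hg l a b).2 (g l + 1) (by have := (hg l a b).1; omega)
    omega
  have st : ∀ l l', f 0 ≤ l → l < f (n + 1) → f 0 ≤ l' → l' < f (n + 1) → l' ≤ l + 1 →
      g l' ≤ g l + 1 := by
    intro l l' a b a' b' c
    by_contra d
    have e1 := (hg l' a' b').1
    have e2 := ((hg l' a' b').2 (g l + 2) (by omega)).2 (by omega)
    have e3 := hi l a b
    have e4 := hf (g l + 1) (g l + 2) (by omega) (by omega)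
    omega
  have rng : ∀ u ≤ n, ∀ l, f u ≤ l → l ≤ f (u + 1) - 1 →
      f 0 ≤ l ∧ l < f (n + 1) ∧ l < s ∧ g l = u := by
    intro u hu l a b
    have e1 := hle 0 u (by omega) (by omega)
    have e2 := hle (u + 1) (n + 1) (by omega) le_rfl
    have e3 := hf u (u + 1) (by omega) (by omega)
    have a' : f 0 ≤ l := by omega
    have b' : l < f (n + 1) := by omega
    have e4 := (hg l a' b').2 u (by omega)
    have e5 := (hg l a' b').2 (u + 1) (by omega)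
    omega
  have cn : ∀ S : ℕ → Set V, (∀ l ≤ s, Conn G (S l)) → (∀ l < s, Touch G (S l) (S (l + 1))) →
      ∀ u ≤ n, Conn G (un f S u) := by
    intro S c1 c2 u hu
    have e3 := hf u (u + 1) (by omega) (by omega)
    refine conn_chain (by omega) (fun l hl => c1 l ?_) fun l a b => Or.inr (c2 l ?_)
    · exact (rng u hu l hl.1 hl.2).2.2.1.le
    · exact (rng u hu l a b.le).2.2.1
  refine ⟨h.dis.mono_left fun v hv => hv.1, fun v hv => (hg _ hv.2.1 hv.2.2).1, ?_, ?_, ?_, ?_,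
    ?_, ?_⟩
  · rintro v ⟨hv, a, b⟩ c d y e
    rcases h.nbr v hv (by omega) (by omega) y e with k | ⟨k1, k2, k3⟩
    · exact Or.inl k
    · have e1 := ((hg _ a b).2 1 (by omega)).2 c
      have e2 := hf 0 1 (by omega) (by omega)
      have e3 := hi _ a b
      have e4 := hf (g (lev v) + 1) (n + 1) (by omega) le_rfl
      have a' : f 0 ≤ lev y := by omega
      have b' : lev y < f (n + 1) := by omega
      exact Or.inr ⟨⟨k1, a', b'⟩, st _ _ a b a' b' k2, st _ _ a' b' a b k3⟩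
  · rintro u ⟨hu, a, b⟩ v ⟨hv, a', b'⟩ e c
    have e1 := hi _ a b
    have e2 := lo _ a' b'
    have e3 := hi _ a' b'
    rw [← c] at e1
    rcases h.nbr u hu (by omega) (by omega) v e with k | ⟨-, k2, -⟩
    · exact absurd k (disjoint_left.1 h.dis hv)
    · exact mem_un.2 ⟨lev v, e2, by omega, h.up u hu v hv e (by omega)⟩
  · intro u hu
    refine ⟨cn D (fun l hl => (h.ring l hl).1) (fun l hl => (h.rail 0 hT l hl).mono
      (h.cell 0 hT l hl.le).2 (h.cell 0 hT (l + 1) hl).2) u hu, fun v hv => ?_⟩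
    obtain ⟨l, a, b, hv⟩ := mem_un.1 hv
    obtain ⟨r1, r2, r3, r4⟩ := rng u hu l a b
    obtain ⟨k1, k2⟩ := (h.ring l r3.le).2 v hv
    exact ⟨⟨k1, k2 ▸ r1, k2 ▸ r2⟩, by rw [k2, r4]⟩
  · intro i hi u hu
    refine ⟨cn (ρ i) (fun l hl => (h.cell i hi l hl).1) (h.rail i hi) u hu, fun v hv => ?_⟩
    obtain ⟨l, a, b, hv⟩ := mem_un.1 hv
    exact mem_un.2 ⟨l, a, b, (h.cell i hi l (rng u hu l a b).2.2.1.le).2 hv⟩
  · intro i hi j hj hij u hu
    refine disjoint_left.2 fun v hv hv' => ?_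
    obtain ⟨l, a, b, hv⟩ := mem_un.1 hv
    obtain ⟨l', a', b', hv'⟩ := mem_un.1 hv'
    have r := (rng u hu l a b).2.2.1.le
    have r' := (rng u hu l' a' b').2.2.1.le
    have k := ((h.ring l r).2 v ((h.cell i hi l r).2 hv)).2
    have k' := ((h.ring l' r').2 v ((h.cell j hj l' r').2 hv')).2
    have : l' = l := by omega
    subst this
    exact disjoint_left.1 (h.rdis i hi j hj hij l' r) hv hv'
  · intro i hi u hu
    have e1 := hf u (u + 1) (by omega) (by omega)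
    have e2 := hf (u + 1) (u + 1 + 1) (by omega) (by omega)
    have e3 := hle (u + 1) (n + 1) (by omega) le_rfl
    have k := h.rail i hi (f (u + 1) - 1) (by omega)
    rw [show f (u + 1) - 1 + 1 = f (u + 1) by omega] at k
    exact k.mono (fun x hx => mem_un.2 ⟨_, by omega, le_rfl, hx⟩)
      fun x hx => mem_un.2 ⟨_, le_rfl, by omega, hx⟩

theorem real_iff {a t o M : ℕ} (α : Fin a → V) (h : LBand G A W lev D ρ s T) (ho : o + t ≤ T)
    (hf : ∀ i j, i < j → j ≤ n + 1 → f i < f j) (h0 : 0 < f 0) (hs : f (n + 1) ≤ s)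
    (hg : ∀ l, f 0 ≤ l → l < f (n + 1) → g l ≤ n ∧ ∀ u ≤ n + 1, f u ≤ l ↔ u ≤ g l)
    {u v : ℕ} (hu : 0 < u) (huv : u < v) (hv : v ≤ n) (π : Ptn M (Fin a ⊕ Fin t ⊕ Fin t)) :
    Real G (Lv (Lv W lev (f 0) (f (n + 1))) (fun v => g (lev v)) u v)
        (roles G α (fun i => un f (ρ (o + i))) t u v) π ↔
      Real G (Lv W lev (f u) (f v)) (roles G α (fun i => ρ (o + i)) t (f u) (f v)) π := by
  have e1 := hf 0 u hu (by omega)
  have e2 := hf u v huv (by omega)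
  have e3 := hf v (v + 1) (by omega) (by omega)
  have e4 : f (v + 1) ≤ f (n + 1) := by
    rcases Nat.lt_or_ge v n with c | c
    · exact (hf _ _ (by omega) le_rfl).le
    · rw [le_antisymm hv c]
  have e5 := hf (u - 1) u (by omega) (by omega)
  have e6 : f 0 ≤ f (u - 1) := by
    rcases Nat.eq_zero_or_pos (u - 1) with c | c
    · rw [c]
    · exact (hf _ _ c (by omega)).le
  have e7 : u - 1 + 1 = u := by omega
  have eq : Lv (Lv W lev (f 0) (f (n + 1))) (fun v => g (lev v)) u v = Lv W lev (f u) (f v) := by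
    ext x
    constructor
    · rintro ⟨⟨hx, c1, c2⟩, c3, c4⟩
      have k1 := (hg _ c1 c2).2 u (by omega)
      have k2 := (hg _ c1 c2).2 v (by omega)
      exact ⟨hx, k1.2 c3, Nat.lt_of_not_le fun c => absurd (k2.1 c) (Nat.not_le.2 c4)⟩
    · rintro ⟨hx, c3, c4⟩
      have c1 : f 0 ≤ lev x := by omega
      have c2 : lev x < f (n + 1) := by omega
      have k1 := (hg _ c1 c2).2 u (by omega)
      have k2 := (hg _ c1 c2).2 v (by omega)
      exact ⟨⟨hx, c1, c2⟩, k1.1 c3, Nat.lt_of_not_le fun c => absurd (k2.2 c) (Nat.not_le.2 c4)⟩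
  have near : ∀ (i : Fin t) l x y, 0 < l → l < s → x ∈ ρ (o + i) l → y ∈ W → G.Adj x y →
      lev y ≤ l + 1 ∧ l ≤ lev y + 1 := by
    intro i l x y c1 c2 hx hy e
    have hi : o + i < T := by have := i.2; omega
    obtain ⟨k1, k2⟩ := (h.ring l c2.le).2 x ((h.cell _ hi l c2.le).2 hx)
    rcases h.nbr x k1 (by omega) (by omega) y e with k | ⟨-, k3, k4⟩
    · exact absurd k (disjoint_left.1 h.dis hy)
    · omega
  rw [eq]
  constructor
  · refine real_congr ?_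
    rintro (i | i | i) y ⟨hy, c1, c2⟩ k
    · exact k
    · obtain ⟨x, hx, e⟩ := k
      obtain ⟨l, d1, d2, hx⟩ := mem_un.1 hx
      rw [e7] at d2
      have := near i l x y (by omega) (by omega) hx hy e
      have : l = f u - 1 := by omega
      exact ⟨x, this ▸ hx, e⟩
    · obtain ⟨x, hx, e⟩ := k
      obtain ⟨l, d1, d2, hx⟩ := mem_un.1 hx
      have := near i l x y (by omega) (by omega) hx hy e
      have : l = f v := by omega
      exact ⟨x, this ▸ hx, e⟩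
  · refine real_congr ?_
    rintro (i | i | i) y - k
    · exact k
    · obtain ⟨x, hx, e⟩ := k
      exact ⟨x, mem_un.2 ⟨_, by omega, by rw [e7], hx⟩, e⟩
    · obtain ⟨x, hx, e⟩ := k
      exact ⟨x, mem_un.2 ⟨_, le_rfl, by omega, hx⟩, e⟩

end

end HomR

open HomR in
theorem homS (h : RamseyS) : HomS := by
  intro a t M s'
  obtain ⟨m, hm⟩ := h (Set (Ptn M (Fin a ⊕ Fin t ⊕ Fin t)) × Set (Ptn M (Fin a ⊕ Fin t ⊕ Fin t)))
    (s' + 2)
  refine ⟨m, fun V G A W lev D ρ α hb => ?_⟩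
  obtain ⟨p, γ, p1, p2, p3⟩ := hm fun j j' =>
    ({π | Real G (Lv W lev (j + 1) (j' + 1)) (roles G α (fun i => ρ (0 + i)) t (j + 1) (j' + 1)) π},
      {π | Real G (Lv W lev (j + 1) (j' + 1)) (roles G α (fun i => ρ (t + i)) t (j + 1) (j' + 1)) π})
  have hf : ∀ i j, i < j → j ≤ s' + 1 → p i + 1 < p j + 1 := fun i j c d =>
    Nat.succ_lt_succ (p1 i j c (by omega))
  have hs : p (s' + 1) + 1 ≤ m := p2 _ (by omega)
  obtain ⟨g, hg⟩ := exists_inv (fun u => p u + 1) s' hf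
  refine ⟨_, fun v hv => hv.1, _, _, _,
    band (f := fun u => p u + 1) hb (by omega) hf (Nat.succ_pos _) hs hg, ?_, ?_⟩
  · intro u v u' v' c1 c2 c3 d1 d2 d3 π k
    rw [real_iff (f := fun u => p u + 1) α hb (by omega) hf (Nat.succ_pos _) hs hg c1 c2 c3] at k
    rw [real_iff (f := fun u => p u + 1) α hb (by omega) hf (Nat.succ_pos _) hs hg d1 d2 d3]
    have e := congrArg Prod.fst ((p3 u v c2 (by omega)).trans (p3 u' v' d2 (by omega)).symm)
    exact (Set.ext_iff.1 e π).1 k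
  · intro u v u' v' c1 c2 c3 d1 d2 d3 π k
    rw [real_iff (f := fun u => p u + 1) α hb (by omega) hf (Nat.succ_pos _) hs hg c1 c2 c3] at k
    rw [real_iff (f := fun u => p u + 1) α hb (by omega) hf (Nat.succ_pos _) hs hg d1 d2 d3]
    have e := congrArg Prod.snd ((p3 u v c2 (by omega)).trans (p3 u' v' d2 (by omega)).symm)
    exact (Set.ext_iff.1 e π).1 k

end Pool.Agent.MP_9d78a0_co.fb

end MrgPart1

-- ======== part 2: formerly Pool.Agent.MP_9d78a0_co.fb.IrrB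
section MrgPart2

/-! Irrelevant vertices in bands, and the result of part 3. -/

set_option autoImplicit false

namespace Pool.Agent.MP_9d78a0_co.fb

open Set Function

namespace IrrB

theorem exists_enum {V : Type} [Finite V] (v0 : V) {A : Set V} {a : ℕ} (h : A.ncard ≤ a) :
    ∃ α : Fin a → V, A ⊆ range α := by
  classical
  have := Fintype.ofFinite A
  have hc : Fintype.card A ≤ Fintype.card (Fin a) := by
    rw [Fintype.card_fin, ← Nat.card_eq_fintype_card, Nat.card_coe_set_eq]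
    exact h
  obtain ⟨f⟩ := Function.Embedding.nonempty_of_card_le hc
  exact ⟨Function.extend f Subtype.val fun _ => v0,
    fun x hx => ⟨f ⟨x, hx⟩, f.injective.extend_apply _ _ _⟩⟩

end IrrB

theorem irrS (h1 : HomS) (h2 : CentreS) (h3 : SubS) : IrrS := by
  intro h a
  obtain ⟨t0, M, z, hC⟩ := h2 h a
  obtain ⟨s, hH⟩ := h1 a t0 M (4 * z)
  refine ⟨s, 2 * t0 + 1, fun V _ G A W lev D ρ hA hB => ?_⟩
  obtain ⟨v0, -⟩ := (hB.ring 0 (Nat.zero_le _)).1.1
  obtain ⟨α, hα⟩ := IrrB.exists_enum v0 hA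
  obtain ⟨W', hW', lev', D', ρ', hB', hom0, homt⟩ := hH V G A W lev D ρ α hB
  have key : ∀ (a' s' o m1 m2 : ℕ) (Z Y : Set V), a' + s' ≤ 4 * z → (o = 0 ∨ o = t0) →
      Lv W' lev' a' (a' + s' + 1) ⊆ Z → z ≤ m1 → m1 ≤ m2 → m2 + z ≤ s' →
      (∀ y ∈ Y, y ∈ W' ∧ a' + m1 ≤ lev' y ∧ lev' y ≤ a' + m2 ∧
        ∀ i < t0, y ∉ ρ' (o + i) (lev' y)) → Irl h G Z Y := by
    intro a' s' o m1 m2 Z Y e1 ho hZ e2 e3 e4 hY G' S k H B hk hS hag hM
    obtain ⟨b1, b2⟩ := h3 V G G' A W' lev' D' ρ' (4 * z) (2 * t0 + 1) a' s' o t0 hB' e1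
      (by omega) fun y hy => hag y (hZ hy)
    have hom : Hom G α W' lev' (fun i => ρ' (o + i)) (4 * z) t0 M := by
      rcases ho with rfl | rfl
      exacts [hom0, homt]
    obtain ⟨B', hB2⟩ := hC V (Fin k) G' H A _ S _ _ _ s' m1 m2 α B (by simpa using hk) hα b1
      (b2 a α M hom) (hZ.trans hS) e2 e3 e4 hM
    refine ⟨B', fun w y hy => ?_, hB2.2⟩
    obtain ⟨hyS, hyn⟩ := hB2.1 w hy
    refine ⟨hyS, fun hyY => hyn ?_⟩
    obtain ⟨y1, y2, y3, y4⟩ := hY y hyY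
    have l1 : m1 ≤ lev' y - a' := by omega
    have l2 : lev' y - a' < m2 + 1 := by omega
    refine ⟨⟨⟨y1, by omega, by omega⟩, l1, l2⟩, fun i hi => ?_⟩
    have e : a' + (lev' y - a') = lev' y := by omega
    rw [e]
    exact y4 i hi
  obtain ⟨hc, hcD⟩ := hB'.cell (2 * t0) (by omega) (2 * z) (by omega)
  obtain ⟨w, hw⟩ := hc.1
  obtain ⟨hwW, hwl⟩ := (hB'.ring (2 * z) (by omega)).2 w (hcD hw)
  have hwρ : ∀ i < 2 * t0, w ∉ ρ' i (lev' w) := fun i hi hm => by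
    rw [hwl] at hm
    exact Set.disjoint_left.1
      (hB'.rdis i (by omega) (2 * t0) (by omega) (by omega) (2 * z) (by omega)) hm hw
  refine ⟨Lv W' lev' z (z + 2 * z + 1), fun y hy => hW' hy.1, w, ⟨hwW, by omega, by omega⟩,
    key z (2 * z) 0 z z _ _ (by omega) (Or.inl rfl) subset_rfl le_rfl le_rfl (by omega) ?_,
    fun x hx => ?_⟩
  · rintro y rfl
    exact ⟨hwW, by omega, by omega, fun i hi => hwρ _ (by omega)⟩
  · obtain ⟨x1, x2, x3⟩ := hx
    have ho : ∃ o, (o = 0 ∨ o = t0) ∧ ∀ i < t0, x ∉ ρ' (o + i) (lev' x) := by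
      by_cases hx0 : ∀ i < t0, x ∉ ρ' (0 + i) (lev' x)
      · exact ⟨0, Or.inl rfl, hx0⟩
      · push Not at hx0
        obtain ⟨i, hi, hm⟩ := hx0
        exact ⟨t0, Or.inr rfl, fun j hj hm' => Set.disjoint_left.1
          (hB'.rdis (0 + i) (by omega) (t0 + j) (by omega) (by omega) (lev' x) (by omega)) hm hm'⟩
    obtain ⟨o, ho1, ho2⟩ := ho
    refine key 0 (4 * z) o z (3 * z) _ _ (by omega) ho1 (fun y hy => hW' hy.1) le_rfl (by omega)
      (by omega) ?_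
    rintro y (rfl | rfl)
    · exact ⟨hwW, by omega, by omega, fun i hi => hwρ _ (by omega)⟩
    · exact ⟨x1, by omega, by omega, ho2⟩

theorem bbS (h1 : CylS) (h2 : LevaS) (h3 : LevbS) (h4 : IrrS) : BBS := by
  intro s h c
  obtain ⟨a, q, hq, hN⟩ := h2 h c
  obtain ⟨s1, t, hI⟩ := h4 s a
  obtain ⟨N, hA⟩ := hN ((s1 + 1) * (2 * h + 1))
  obtain ⟨g, hg, hC⟩ := h1 N (2 * h + 3 + a + t) (by omega)
  refine ⟨a, q, g, hg, hq, fun V _ G X B0 hK hM => ?_⟩
  obtain ⟨C, hCyl⟩ := hC V G X B0 hM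
  obtain ⟨A, α, hAc, hr, hs⟩ := hA V G X _ C (by omega) hK hCyl
  obtain ⟨M, W, m1, m2, m3, m4, m5⟩ := h3 V G X A N _ (2 * h + 1) s1 t q C α (by omega) (by omega)
    (by omega) (by omega) hCyl hr hs
  have hj : ∀ j : Fin q, Disjoint (W j) A ∧ ∃ Win ⊆ W j, ∃ w ∈ Win,
      Irl s G Win {w} ∧ ∀ x ∈ Win, Irl s G (W j) {w, x} := fun j => by
    obtain ⟨lev, D, ρ, hb⟩ := (m5 j j.2).1
    exact ⟨hb.dis, hI V G A (W j) lev D ρ hAc hb⟩
  choose d Win w1 w w2 w3 w4 using hj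
  exact ⟨A, M, fun j => W j, Win, w, hAc, m1, m2, m3,
    fun i j hij => m4 i i.2 j j.2 fun e => hij (Fin.ext e),
    fun j => ⟨d j, (m5 j j.2).2.1, (m5 j j.2).2.2, w1 j, w2 j, w3 j, w4 j⟩⟩

end Pool.Agent.MP_9d78a0_co.fb

end MrgPart2

-- ======== part 3: formerly Pool.Agent.MP_9d78a0_co.fb.GridT
section MrgPart3

/-! The grid theorem for the square grid. -/

set_option autoImplicit false

namespace Pool.Agent.MP_9d78a0_co.fb

open Set Function

namespace GridT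

open MP_7be75d_co in
theorem host_thm : Gen.HOSTStmt :=
  Gen.host (Gen.spos Gen.fe) (Gen.step Gen.fat (Gen.pass Gen.fe)
    (Gen.cell_of Gen.cp_thm (Gen.cellp (Gen.pass Gen.fe) Gen.fe)
      (Gen.cells (Gen.pass Gen.fe) Gen.fat Gen.gl))) Gen.link

open MP_7be75d_co in
theorem minor_of_tw (g : ℕ) : ∃ t, ∀ (V : Type) [Fintype V] (G : SimpleGraph V),
    t ≤ treewidth G → MP_9d78a0_co.IsMinor (grid g) G := by
  obtain ⟨N, M, hs⟩ := Gen.sim g
  obtain ⟨c, hc⟩ := host_thm N M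
  refine ⟨c * 2, fun V _ G h => ?_⟩
  obtain ⟨ω, Γ, x, x', Wr, S, s1, s2⟩ := hc G 2 le_rfl h
  obtain ⟨Eh, Ev, S', hg⟩ := hs le_rfl s1 s2
  obtain ⟨Y, hY⟩ := Gen.Asm.exists_blob hg (by omega)
  have hin : ∀ p : Fin g × Fin g, Gen.Asm.In g (p.1.1, p.2.1) := fun p => ⟨p.1.2, p.2.2⟩
  refine ⟨fun p => Y (p.1.1, p.2.1), fun p => (hY _ (hin p)).conn.connected, fun p q hn => ?_,
    fun p q e => Gen.Asm.blob_adj hY (hin p) (hin q) ?_⟩
  · refine disjoint_left.2 fun v h1 h2 => hn ?_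
    have := Gen.Asm.terr hg (hin p) (hin q) ((hY _ (hin p)).sub h1) ((hY _ (hin q)).sub h2)
    simp only [Prod.mk.injEq] at this
    exact Prod.ext (Fin.ext this.1) (Fin.ext this.2)
  · have e' : (p.1.1 = q.1.1 ∧ (p.2.1 + 1 = q.2.1 ∨ q.2.1 + 1 = p.2.1)) ∨
        (p.2.1 = q.2.1 ∧ (p.1.1 + 1 = q.1.1 ∨ q.1.1 + 1 = p.1.1)) := e
    simp only [Gen.gridN, SimpleGraph.fromRel_adj, ne_eq, Prod.mk.injEq]
    omega

end GridT

open MP_7be75d_co in
theorem gridS : GridS := by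
  intro g
  obtain ⟨t, ht⟩ := GridT.minor_of_tw g
  refine ⟨4 * t + 2, fun V _ G hG => ?_⟩
  have := Fintype.ofFinite V
  exact pl.exists_dec (Gen.EP.sep_of_tw (not_le.1 fun c => hG (ht V G c)))

theorem grid_conn (g : ℕ) (hg : 0 < g) : (grid g).Connected := by
  have : Nonempty (Fin g × Fin g) := ⟨(⟨0, hg⟩, ⟨0, hg⟩)⟩
  have h1 : ∀ (j : ℕ) (hj : j < g), (grid g).Reachable (⟨0, hg⟩, ⟨0, hg⟩) (⟨0, hg⟩, ⟨j, hj⟩) := by
    intro j
    induction j with
    | zero => exact fun _ => SimpleGraph.Reachable.refl _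
    | succ j ih =>
      exact fun hj => (ih (by omega)).trans
        (SimpleGraph.Adj.reachable (Or.inl ⟨rfl, Or.inl rfl⟩))
  have h2 : ∀ (i : ℕ) (hi : i < g) (j : Fin g),
      (grid g).Reachable (⟨0, hg⟩, ⟨0, hg⟩) (⟨i, hi⟩, j) := by
    intro i
    induction i with
    | zero => exact fun _ j => h1 j.1 j.2
    | succ i ih =>
      exact fun hi j => (ih (by omega) j).trans
        (SimpleGraph.Adj.reachable (Or.inr ⟨rfl, Or.inl rfl⟩))
  exact ⟨fun u v => (h2 u.1.1 u.1.2 u.2).symm.trans (h2 v.1.1 v.1.2 v.2)⟩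

end Pool.Agent.MP_9d78a0_co.fb

end MrgPart3

-- ======== part 4: formerly Pool.Agent.MP_9d78a0_co.fb.Cut
section MrgPart4

/-! A small cut confines the jumps from a family of ranges of rows. -/

set_option autoImplicit false

namespace Pool.Agent.MP_9d78a0_co.fb

open Set Function

namespace Cut

variable {V : Type}

/-- the graph with one new vertex for each source set -/
def ext (G : SimpleGraph V) (Rg : ℕ → Set V) : SimpleGraph (V ⊕ ℕ) where
  Adj a b := match a, b with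
    | .inl x, .inl y => G.Adj x y
    | .inl x, .inr e => ∃ z ∈ Rg e, G.Adj z x
    | .inr e, .inl x => ∃ z ∈ Rg e, G.Adj z x
    | .inr _, .inr _ => False
  symm := ⟨by
    rintro (a | a) (b | b) h
    exacts [h.symm, h, h, h]⟩
  loopless := ⟨by
    rintro (a | a) h
    exacts [G.irrefl h, h]⟩

/-- a connection from a source set to `x` inside `R` -/
def Arc (G : SimpleGraph V) (Rg : ℕ → Set V) (M : Set V) (R : Set (V ⊕ ℕ)) (x : V) : Prop :=
  ∃ e u J, Sum.inr e ∈ R ∧ u ∈ Rg e ∧ Conn G J ∧ u ∈ J ∧ x ∈ J ∧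
    ∀ z ∈ J, z = u ∨ (Sum.inl z ∈ R ∧ (z = x ∨ z ∉ M))

theorem exists_arc {G : SimpleGraph V} {Rg : ℕ → Set V} {M T : Set V} {R : Set (V ⊕ ℕ)}
    (hR : ∀ x, Sum.inl x ∈ R → x ∉ M ∨ x ∈ T) {e : ℕ} {v : V} (hv : v ∈ T)
    (h : Link (ext G Rg) R (Sum.inr e) (Sum.inl v)) : ∃ v ∈ T, Arc G Rg M R v := by
  have key : ∀ y, Link (ext G Rg) R (Sum.inr e) y → (∃ v ∈ T, Arc G Rg M R v) ∨
      (∃ e', y = Sum.inr e') ∨ ∃ x, y = Sum.inl x ∧ Arc G Rg M R x := by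
    intro y l
    induction l with
    | refl => exact Or.inr (Or.inl ⟨e, rfl⟩)
    | @tail y y' _ c ih =>
      obtain ⟨c1, c2, c3⟩ := c
      rcases y' with x' | e'
      swap
      · exact Or.inr (Or.inl ⟨e', rfl⟩)
      rcases ih with ih | ⟨e', rfl⟩ | ⟨x, rfl, ih⟩
      · exact Or.inl ih
      · obtain ⟨u, hu, a⟩ := c3
        refine Or.inr (Or.inr ⟨x', rfl, e', u, {u, x'}, c1, hu, conn_pair a, by simp, by simp, ?_⟩)
        rintro z (rfl | rfl)
        exacts [Or.inl rfl, Or.inr ⟨c2, Or.inl rfl⟩]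
      · rcases hR x c1 with d | d
        · obtain ⟨e', u, J, a1, a2, a3, a4, a5, a6⟩ := ih
          refine Or.inr (Or.inr ⟨x', rfl, e', u, insert x' J, a1, a2,
            a3.insert a5 (SimpleGraph.Adj.symm c3), Or.inr a4, Or.inl rfl, ?_⟩)
          rintro z (rfl | hz)
          · exact Or.inr ⟨c2, Or.inl rfl⟩
          · exact (a6 z hz).imp id fun b => ⟨b.1, Or.inr (b.2.elim (fun f => f ▸ d) id)⟩
        · exact Or.inl ⟨x, d, ih⟩
  rcases key _ h with a | ⟨_, a⟩ | ⟨x, a, b⟩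
  · exact a
  · cases a
  · cases a
    exact ⟨v, hv, b⟩

theorem row_eq {G : SimpleGraph V} {U : Set V} {N p : ℕ} {C : ℕ → ℕ → Set V} (h : Cyl G U N p C)
    {r r' : ℕ} {x : V} (hr : r < N) (hr' : r' < N) (a : x ∈ Row C p r) (b : x ∈ Row C p r') :
    r = r' := by
  obtain ⟨j, hj, a⟩ := a
  obtain ⟨j', hj', b⟩ := b
  by_contra c
  exact disjoint_left.1 (h.dis r hr j hj r' hr' j' hj' fun d => c (congrArg Prod.fst d)) a b

end Cut

open Cut in
theorem cutS (h1 : MengerS) (h2 : JumpsS) : CutS := by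
  classical
  intro h
  obtain ⟨κ, hκ⟩ := h2 h
  refine ⟨κ, fun V _ G U N p l C α F hp hN hK hC hF hF' => ?_⟩
  rcases isEmpty_or_nonempty V with hV | hV
  · exact ⟨∅, ∅, by simp, by simp, fun _ _ _ _ u => isEmptyElim u⟩
  let Rg : ℕ → Set V := fun e => {x | ∃ r, α e ≤ r ∧ r < α e + l ∧ x ∈ Row C p r}
  let T : Set V := {x | ∃ r' < N, x ∈ Row C p r' ∧
    ¬ ∃ e' ∈ F, α e' < r' + 2 * h + 1 ∧ r' < α e' + l + 2 * h + 1}
  let U' : Set (V ⊕ ℕ) := Sum.inr '' (F : Set ℕ) ∪ Sum.inl '' {x | x ∉ Mesh C N p ∨ x ∈ T}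
  have hU : U'.Finite := (F.finite_toSet.image _).union ((toFinite _).image _)
  have ul : ∀ x, Sum.inl x ∈ U' → x ∉ Mesh C N p ∨ x ∈ T := by
    rintro x (⟨_, -, a⟩ | ⟨_, b, a⟩) <;> cases a
    exact b
  have ur : ∀ e, Sum.inr e ∈ U' → e ∈ F := by
    rintro x (⟨_, b, a⟩ | ⟨_, -, a⟩) <;> cases a
    exact b
  have nT : ∀ e ∈ F, ∀ x ∈ Rg e, x ∈ Mesh C N p ∧ x ∉ T := by
    rintro e he x ⟨r, a1, a2, a3⟩
    have := hF e he
    refine ⟨⟨r, by omega, a3⟩, fun ⟨r', b1, b2, b3⟩ => b3 ⟨e, he, ?_⟩⟩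
    have := row_eq hC (by omega) b1 a3 b2
    omega
  by_cases hc : ∀ X ⊆ U', X.ncard < κ → ∃ S ⊆ U' \ X, Conn (ext G Rg) S ∧
      (S ∩ range Sum.inr).Nonempty ∧ (S ∩ Sum.inl '' T).Nonempty
  · obtain ⟨R, r1, r2⟩ := h1 _ _ _ _ _ κ hU hc
    have key : ∀ i : Fin κ, ∃ e u v r r' J, Sum.inr e ∈ R i ∧ u ∈ Rg e ∧ α e ≤ r ∧ r < α e + l ∧
        u ∈ Row C p r ∧ r' < N ∧ v ∈ Row C p r' ∧
        (¬ ∃ e' ∈ F, α e' < r' + 2 * h + 1 ∧ r' < α e' + l + 2 * h + 1) ∧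
        Jump G (Mesh C N p) J u v ∧ ∀ z ∈ J, z = u ∨ Sum.inl z ∈ R i := by
      intro i
      obtain ⟨a1, a2, ⟨_, a3, e, rfl⟩, _, a4, v, hv, rfl⟩ := r1 i
      obtain ⟨v, ⟨r', b1, b2, b3⟩, e, u, J, c1, c2, c3, c4, c5, c6⟩ :=
        exists_arc (fun x hx => ul x (a1 hx)) hv (a2.2 _ a3 _ a4)
      obtain ⟨r, d1, d2, d3⟩ := id c2
      exact ⟨e, u, v, r, r', J, c1, c2, d1, d2, d3, b1, b2, b3,
        ⟨c3, c4, c5, fun z hz k => (c6 z hz).imp id fun b => b.2.resolve_right (not_not.2 k)⟩,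
        fun z hz => (c6 z hz).imp id And.left⟩
    choose e u v r r' J k1 k2 k3 k4 k5 k6 k7 k8 k9 k10 using key
    have eF : ∀ i, e i ∈ F := fun i => ur _ ((r1 i).1 (k1 i))
    have far : ∀ i j, i ≠ j → r i + 2 * h < r j + 1 ∧ r i < r j ∨
        r j + 2 * h < r i + 1 ∧ r j < r i := by
      intro i j hij
      have hne : e i ≠ e j := fun c => disjoint_left.1 (r2 hij) (k1 i) (c ▸ k1 j)
      have := k3 i
      have := k4 i
      have := k3 j
      have := k4 j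
      rcases Nat.lt_or_gt_of_ne hne with c | c
      · have := hF' _ (eF i) _ (eF j) c
        omega
      · have := hF' _ (eF j) _ (eF i) c
        omega
    have rN : ∀ i, r i < N := fun i => by
      have := hF _ (eF i)
      have := k4 i
      omega
    have off : ∀ i j, Sum.inl (u i) ∉ R j := fun i j c =>
      (ul _ ((r1 j).1 c)).elim (fun d => d (nT _ (eF i) _ (k2 i)).1) (nT _ (eF i) _ (k2 i)).2
    rcases Nat.eq_zero_or_pos κ with rfl | hpos
    · exact absurd (hκ V G U N p C (fun _ => ∅) (fun _ => hV.some) (fun _ => hV.some) id id hp hN hC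
        (fun _ c => absurd c (Nat.not_lt_zero _)) fun _ c => absurd c (Nat.not_lt_zero _)) hK
    let ι : ℕ → Fin κ := fun i => ⟨i % κ, Nat.mod_lt _ hpos⟩
    refine absurd (hκ V G U N p C (J ∘ ι) (u ∘ ι) (v ∘ ι) (r ∘ ι) (r' ∘ ι) hp hN hC
      (fun i _ => ⟨k9 _, rN _, k6 _, k5 _, k7 _⟩) fun i hi j hj => ⟨?_, fun hij => ?_⟩) hK
    · have := k3 (ι i)
      have := k4 (ι i)
      have := k8 (ι j)
      by_contra c
      simp only [comp_apply] at c
      exact this ⟨_, eF (ι i), by omega, by omega⟩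
    · have hne : ι i ≠ ι j := fun c => hij (by
        have := congrArg Fin.val c
        simpa only [ι, Nat.mod_eq_of_lt hi, Nat.mod_eq_of_lt hj] using this)
      have f := far _ _ hne
      refine ⟨disjoint_left.2 fun z a b => ?_, by simp only [comp_apply]; omega⟩
      rcases k10 _ z a with c | c <;> rcases k10 _ z b with d | d
      · have := row_eq hC (rN _) (rN _) (c ▸ k5 (ι i)) (d ▸ k5 (ι j))
        omega
      · exact off _ _ (c ▸ d)
      · exact off _ _ (d ▸ c)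
      · exact disjoint_left.1 (r2 hne) c d
  · push Not at hc
    obtain ⟨X, x1, x2, x3⟩ := hc
    have hX := hU.subset x1
    refine ⟨Sum.inl ⁻¹' X, F.filter fun e => Sum.inr e ∈ X,
      (ncard_le_ncard_of_injOn Sum.inl (fun _ a => a) Sum.inl_injective.injOn hX).trans x2.le,
      ?_, fun e he hb J u v r r' hJ hA a1 a2 a3 a4 a5 => ?_⟩
    · rw [← ncard_coe_finset]
      exact (ncard_le_ncard_of_injOn Sum.inr (fun _ a => (Finset.mem_filter.1 a).2)
        Sum.inr_injective.injOn hX).trans x2.le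
    by_contra hn
    have hv : v ∈ T := ⟨r', a3, a5, hn⟩
    have hu : u ∈ Rg e := ⟨r, a1, a2, a4⟩
    have hne : v ≠ u := fun c => (nT e he u hu).2 (c ▸ hv)
    obtain ⟨x, y, -, -, -, b1, b2, b3⟩ := link_exit (T := {u}ᶜ)
      (hJ.1.2 v hJ.2.2.1 u hJ.2.1) hne (by simp)
    obtain rfl : y = u := not_not.1 b1
    have hm : v ∈ J ∩ {y}ᶜ := ⟨hJ.2.2.1, hne⟩
    have c0 := cp_conn (G := G) hm
    have c1 : Conn (ext G Rg) (Sum.inl '' cp G (J ∩ {y}ᶜ) v) := ⟨c0.1.image _, by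
      rintro _ ⟨a, ha, rfl⟩ _ ⟨b, hb, rfl⟩
      exact Link.map Sum.inl (fun a ha b hb k => Link.single (mem_image_of_mem _ ha)
        (mem_image_of_mem _ hb) k) (c0.2 a ha b hb)⟩
    have c2 := c1.insert (a := Sum.inr e) (mem_image_of_mem _ ⟨b3.mem hm, b3⟩) ⟨y, hu, b2.symm⟩
    have := x3 _ ?_ c2 ⟨_, Or.inl rfl, e, rfl⟩
    · exact (this ▸ ⟨Or.inr (mem_image_of_mem _ (cp_self hm)), mem_image_of_mem _ hv⟩ :
        Sum.inl v ∈ (∅ : Set (V ⊕ ℕ)))
    rintro _ (rfl | ⟨z, hz, rfl⟩)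
    · exact ⟨Or.inl (mem_image_of_mem _ he), fun c => hb (Finset.mem_filter.2 ⟨he, c⟩)⟩
    · refine ⟨Or.inr (mem_image_of_mem _ (or_iff_not_imp_left.2 fun c => ?_)),
        fun c => disjoint_left.1 hA hz.1.1 c⟩
      exact ((hJ.2.2.2 z hz.1.1 (not_not.1 c)).resolve_left hz.1.2) ▸ hv

end Pool.Agent.MP_9d78a0_co.fb

end MrgPart4

-- ======== part 5: formerly Pool.Agent.MP_9d78a0_co.fb.Black
section MrgPart5

/-! From part 3 to part 4, and finite bases from the well-quasi-order. -/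

set_option autoImplicit false

namespace Pool.Agent.MP_9d78a0_co.fb

open Set Function

theorem blackS (hG : GridS) (hB : BBS) (hc : ∀ g, 0 < g → (grid g).Connected) : BlackS := by
  intro s h c
  obtain ⟨a, q, g, -, h1, h2⟩ := hB s (h + 2) c
  obtain ⟨K, hK⟩ := hG (g + 2)
  refine ⟨a, q, K, Fin (g + 2) × Fin (g + 2), inferInstance, inferInstance, grid (g + 2),
    hc _ (by omega), h1, hK, fun V _ G X B k m => ?_⟩
  have l : g ≤ g + 2 := by omega
  have i : Injective (Prod.map (Fin.castLE l) (Fin.castLE l)) :=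
    (Fin.castLE_injective l).prodMap (Fin.castLE_injective l)
  obtain ⟨A, M, W, Win, w, a1, a2, a3, a4, a5, a6⟩ := h2 V G X
    (fun p => B (Prod.map (Fin.castLE l) (Fin.castLE l) p)) k ⟨fun _ => m.1 _, fun _ => m.2.1 _,
      fun u v e => m.2.2.1 _ _ fun d => e (i d), fun u v e => m.2.2.2 _ _ e⟩
  exact ⟨A, M, W, a1, a2, a3, a4, fun i j e => a5 e, fun j => (a6 j).2.1, fun j => (a6 j).2.2.1,
    fun j => ⟨Win j, w j, (a6 j).2.2.2⟩⟩

/-- If the minor order is a well-quasi-order, every family has a finite basis. -/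
theorem basis_of_rs (h : ∀ G : ℕ → Σ k : ℕ, SimpleGraph (Fin k),
    ∃ i j, i < j ∧ IsMinor (G i).2 (G j).2) (F : Family) :
    ∃ F0 : Family, F0.Finite ∧ ∀ (n : ℕ) (G : SimpleGraph (Fin n)), Free F G ↔ Free F0 G := by
  by_contra hn
  have key : ∀ F0 : {F0 : Family // F0.Finite ∧ F0 ⊆ F}, ∃ H ∈ F, Free F0.1 H.2 := by
    rintro ⟨F0, h1, h2⟩
    by_contra d
    push Not at d
    exact hn ⟨F0, h1, fun n G => ⟨fun k H hH => k H (h2 hH),
      fun k H hH m => d H hH (k.of_minor m)⟩⟩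
  choose f f1 f2 using key
  let S : ℕ → {F0 : Family // F0.Finite ∧ F0 ⊆ F} := fun n => Nat.rec ⟨∅, finite_empty,
    empty_subset _⟩ (fun _ T => ⟨insert (f T) T.1, T.2.1.insert _, insert_subset (f1 T) T.2.2⟩) n
  have mono : Monotone fun n => (S n).1 := monotone_nat_of_le_succ fun n => subset_insert _ _
  obtain ⟨i, j, e, m⟩ := h fun n => f (S n)
  exact f2 (S j) _ (mono (Nat.succ_le_of_lt e) (mem_insert _ _)) m

end Pool.Agent.MP_9d78a0_co.fb

end MrgPart5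

-- ======== part 6: formerly Pool.Agent.MP_9d78a0_co.fb.Nc
section MrgPart6

/-! Neighbourhoods of disjoint connected sets in a graph with sparse minors. -/

set_option autoImplicit false

namespace Pool.Agent.MP_9d78a0_co.fb

open Set Function

namespace Nc

variable {V : Type} [Finite V] {Q : SimpleGraph V} {Z : Set V} {c : ℕ}

theorem low (h : ∀ A ⊆ Z, dd (Q.induce A) ≤ c * A.ncard) {A : Set V} (hA : A ⊆ Z)
    (hne : A.Nonempty) : ∃ v ∈ A, {u | u ∈ A ∧ Q.Adj v u}.ncard ≤ c := by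
  classical
  have := Fintype.ofFinite A
  have : Nonempty A := hne.to_subtype
  have h1 := h A hA
  rw [dd_eq_sum] at h1
  have h2 : ∑ v : A, ((Q.induce A).neighborSet v).ncard ≤ ∑ _v : A, c := by
    rw [Finset.sum_const, Finset.card_univ, smul_eq_mul, mul_comm, ← Nat.card_eq_fintype_card]
    exact h1
  obtain ⟨v, -, hv⟩ := Finset.exists_le_of_sum_le Finset.univ_nonempty h2
  refine ⟨v, v.2, le_trans (le_of_eq ?_) hv⟩
  rw [← ncard_image_of_injective _ Subtype.val_injective]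
  congr 1
  ext u
  exact ⟨fun k => ⟨⟨u, k.1⟩, k.2, rfl⟩, by rintro ⟨w, k, rfl⟩; exact ⟨w.2, k⟩⟩

theorem clique_le (h : ∀ A ⊆ Z, dd (Q.induce A) ≤ c * A.ncard) {A : Set V} (hA : A ⊆ Z)
    (hc : A.Pairwise Q.Adj) : A.ncard ≤ c + 1 := by
  rcases A.eq_empty_or_nonempty with rfl | hne
  · simp
  obtain ⟨v, hv, k⟩ := low h hA hne
  have : A ⊆ insert v {u | u ∈ A ∧ Q.Adj v u} := fun u hu => by
    by_cases e : u = v
    · exact Or.inl e
    · exact Or.inr ⟨hu, hc hv hu (Ne.symm e)⟩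
  exact (ncard_le_ncard this).trans ((ncard_insert_le _ _).trans (by omega))

theorem cliques_le (h : ∀ A ⊆ Z, dd (Q.induce A) ≤ c * A.ncard) (n : ℕ) :
    ∀ A ⊆ Z, A.ncard = n → {K | K ⊆ A ∧ K.Pairwise Q.Adj}.ncard ≤ 2 ^ c * n + 1 := by
  induction n with
  | zero =>
    intro A _ h0
    obtain rfl : A = ∅ := (ncard_eq_zero (toFinite _)).1 h0
    refine le_trans (ncard_le_ncard (t := {∅}) fun K k => subset_empty_iff.1 k.1) (by simp)
  | succ n ih =>
    intro A hA h0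
    obtain ⟨v, hv, k⟩ := low h hA (nonempty_of_ncard_ne_zero (by omega))
    have h1 := ih (A \ {v}) (sdiff_subset.trans hA) (by rw [ncard_sdiff_singleton_of_mem hv]; omega)
    have h2 : {K | K ⊆ A ∧ K.Pairwise Q.Adj} ⊆ {K | K ⊆ A \ {v} ∧ K.Pairwise Q.Adj} ∪
        insert v '' 𝒫 {u | u ∈ A ∧ Q.Adj v u} := by
      rintro K ⟨k1, k2⟩
      by_cases e : v ∈ K
      · refine Or.inr ⟨K \ {v}, fun u hu => ⟨k1 hu.1, k2 e hu.1 (Ne.symm hu.2)⟩, ?_⟩
        simp [e]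
      · exact Or.inl ⟨fun u hu => ⟨k1 hu, fun d => e (d ▸ hu)⟩, k2⟩
    have h3 : (insert v '' 𝒫 {u | u ∈ A ∧ Q.Adj v u}).ncard ≤ 2 ^ c := by
      refine (ncard_image_le (toFinite _)).trans ?_
      rw [ncard_powerset _ (toFinite _)]
      exact Nat.pow_le_pow_right (by omega) k
    refine (ncard_le_ncard h2).trans ((ncard_union_le _ _).trans ?_)
    rw [Nat.mul_succ]
    omega

/-- a system of sets with different pairs of neighbours -/
def Sys (G : SimpleGraph V) (Z : Set V) (N : Set (Set V)) (E : Set (Set V × V × V)) : Prop :=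
  (∀ t ∈ E, t.1 ∈ N ∧ t.2.1 ∈ nbs G t.1 ∩ Z ∧ t.2.2 ∈ nbs G t.1 ∩ Z ∧ t.2.1 ≠ t.2.2) ∧
    ∀ t ∈ E, ∀ t' ∈ E, t.1 = t'.1 ∨ t.2 = t'.2 → t = t'

end Nc

open Nc in
theorem ncS : NcS := by
  intro c
  refine ⟨c + 2 ^ c, fun V _ G Z N hS h1 h2 => ?_⟩
  obtain ⟨E, hE, hmax⟩ := (toFinite {E | Sys G Z N E}).exists_maximal
    ⟨∅, fun _ k => k.elim, fun _ k => k.elim⟩
  have g1 := hE.1
  have g2 := hE.2
  let Q : SimpleGraph V :=
    { Adj := fun a b => ∃ t ∈ E, t.2 = (a, b) ∨ t.2 = (b, a)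
      symm := ⟨fun _ _ ⟨t, k, e⟩ => ⟨t, k, e.symm⟩⟩
      loopless := ⟨fun a ⟨t, k, e⟩ => (g1 t k).2.2.2 (by rcases e with e | e <;> rw [e])⟩ }
  let B : V → Set V := fun z => {x | x = z ∨ ∃ t ∈ E, t.2.1 = z ∧ x ∈ t.1}
  have hB : ∀ z, Conn G (B z) := by
    intro z
    refine conn_of_center (a := z) (Or.inl rfl) ?_
    rintro x (rfl | ⟨t, k, rfl, hx⟩)
    · exact Link.refl _ _ _
    · obtain ⟨y, hy, e⟩ := (g1 t k).2.1.1.2
      exact (Link.single (S := B t.2.1) (Or.inl rfl) (Or.inr ⟨t, k, rfl, hy⟩) e.symm).trans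
        (((h1 _ (g1 t k).1).1.2 y hy x hx).mono fun u hu => Or.inr ⟨t, k, rfl, hu⟩)
  have hD : ∀ z ∈ Z, ∀ z' ∈ Z, z ≠ z' → Disjoint (B z) (B z') := by
    intro z hz z' hz' e
    refine disjoint_left.2 ?_
    rintro x (rfl | ⟨t, k, rfl, hx⟩) (d | ⟨t', k', d, hx'⟩)
    · exact e d
    · exact disjoint_left.1 (h1 _ (g1 t' k').1).2 hx' hz
    · exact disjoint_left.1 (h1 _ (g1 t k).1).2 hx (d ▸ hz')
    · by_cases f : t.1 = t'.1
      · exact e (by rw [g2 t k t' k' (Or.inl f), d])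
      · exact disjoint_left.1 (h2 _ (g1 t k).1 _ (g1 t' k').1 f) hx hx'
  have hT : ∀ t ∈ E, Touch G (B t.2.1) (B t.2.2) := fun t k => by
    obtain ⟨y, hy, e⟩ := (g1 t k).2.2.1.1.2
    exact ⟨y, Or.inr ⟨t, k, rfl, hy⟩, _, Or.inl rfl, e⟩
  have hQ : ∀ A ⊆ Z, dd (Q.induce A) ≤ c * A.ncard := by
    intro A hA
    refine hS A (Q.induce A) (Model.isMinor (S := univ) (B := fun z => B z.1)
      ⟨fun _ => subset_univ _, fun z => hB _,
        fun z z' e => hD _ (hA z.2) _ (hA z'.2) fun d => e (Subtype.ext d), ?_⟩)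
    rintro z z' ⟨t, k, e | e⟩
    · have := hT t k
      rw [e] at this
      exact this
    · have := (hT t k).symm
      rw [e] at this
      exact this
  have hU : (Prod.fst '' E).ncard ≤ c * Z.ncard := by
    refine (ncard_image_le (toFinite _)).trans (le_trans ?_ (hQ Z Subset.rfl))
    rw [pl.dd_induce]
    exact ncard_le_ncard_of_injOn Prod.snd
      (fun t k => ⟨(g1 t k).2.1.2, (g1 t k).2.2.1.2, t, k, Or.inl rfl⟩)
      (fun t k t' k' e => g2 t k t' k' (Or.inr e))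
  have hC : ∀ D ∈ N, D ∉ Prod.fst '' E → (nbs G D ∩ Z).Pairwise Q.Adj := by
    intro D hD' hn z hz z' hz' e
    by_contra hq
    have a1 : ∀ t ∈ E, ¬ (D = t.1 ∨ (z, z') = t.2) := by
      rintro t k (d | d)
      · exact hn ⟨t, k, d.symm⟩
      · exact hq ⟨t, k, Or.inl d.symm⟩
    have : Sys G Z N (insert (D, z, z') E) := by
      refine ⟨?_, ?_⟩
      · rintro t (rfl | k)
        exacts [⟨hD', hz, hz', e⟩, g1 t k]
      · rintro t (rfl | k) t' (rfl | k') d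
        · rfl
        · exact absurd d (a1 t' k')
        · exact absurd (d.imp Eq.symm Eq.symm) (a1 t k)
        · exact g2 t k t' k' d
    exact hn ⟨_, hmax this (subset_insert _ _) (mem_insert _ _), rfl⟩
  refine ⟨le_trans (ncard_le_ncard fun D k => ?_) hU, ?_⟩
  · by_contra hn
    have := clique_le hQ inter_subset_right (hC D k.1 hn)
    have := k.2
    omega
  · have a1 : (fun D => nbs G D ∩ Z) '' N ⊆ (fun D => nbs G D ∩ Z) '' (Prod.fst '' E) ∪
        {K | K ⊆ Z ∧ K.Pairwise Q.Adj} := by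
      rintro _ ⟨D, k, rfl⟩
      by_cases hn : D ∈ Prod.fst '' E
      · exact Or.inl ⟨D, hn, rfl⟩
      · exact Or.inr ⟨inter_subset_right, hC D k hn⟩
    have a2 := cliques_le hQ _ Z Subset.rfl rfl
    have a3 := (ncard_image_le (f := fun D => nbs G D ∩ Z) (toFinite (Prod.fst '' E))).trans hU
    have a4 : 1 ≤ 2 ^ c := Nat.one_le_two_pow
    refine (ncard_le_ncard a1).trans ((ncard_union_le _ _).trans ?_)
    nlinarith

end Pool.Agent.MP_9d78a0_co.fb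

end MrgPart6

-- ======== part 7: formerly Pool.Agent.MP_9d78a0_co.fb.Pl
section MrgPart7

/-! Light parts of a decomposition, and protrusions. -/

set_option autoImplicit false

namespace Pool.Agent.MP_9d78a0_co.fb

open Set Function

theorem partS : PartS := by
  intro ε _ f K T Pk hf h h0 hm hu
  have key : ∀ X ∈ T, ∃ Y ⊆ X, f Y ≤ K ∧ (¬ Pk (X \ Y) 1 ∨ (X \ Y).Subsingleton) ∧
      ∃ m a, pl.Parts (fun p => f p ≤ 2 * K ∧ (¬ Pk p 1 ∨ p.Subsingleton)) Y m ∧ Pk Y a ∧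
        (m = 0 ∨ m + 2 ≤ 4 * a) := by
    intro X
    induction X using (wellFounded_lt (α := Set ε)).induction with
    | _ X ih =>
    intro hX
    have hK := h.wid X hX
    by_cases hl : ¬ Pk X 1 ∨ X.Subsingleton
    · exact ⟨∅, empty_subset _, by rw [hf.emp]; exact Nat.zero_le _, by rwa [sdiff_empty], 0, 0,
        ⟨∅, by simp, by simp, by simp, by simp⟩, h0 _, Or.inl rfl⟩
    rw [not_or, not_not, not_subsingleton_iff] at hl
    have e0 : ¬ Pk (X \ X) 1 ∨ (X \ X).Subsingleton :=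
      Or.inr (by rw [sdiff_self]; exact subsingleton_empty)
    obtain ⟨A, hA, h1, ⟨x, h2⟩, ⟨y, h3⟩, hB⟩ := h.split X hX hl.2
    have s1 : A ⊂ X := (ssubset_iff_of_subset h1).2 ⟨y, h3.1, h3.2⟩
    have s2 : X \ A ⊂ X := (ssubset_iff_of_subset sdiff_subset).2 ⟨x, h1 h2, fun k => k.2 h2⟩
    obtain ⟨Y, a1, a2, a3, m, a, a4, a5, a6⟩ := ih A s1 hA
    obtain ⟨Z, b1, b2, b3, n, b, b4, b5, b6⟩ := ih _ s2 hB
    have c3 := hf.pos A Y
    have c4 := hf.pos (X \ A) Z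
    have c5 := h.wid _ hA
    have c6 := h.wid _ hB
    have full : pl.Parts (fun p => f p ≤ 2 * K ∧ (¬ Pk p 1 ∨ p.Subsingleton)) X
        (m + 1 + (n + 1)) := union_sdiff_cancel h1 ▸
      (a4.add a1 ⟨by omega, a3⟩).union (b4.add b1 ⟨by omega, b3⟩) disjoint_sdiff_right
    have one : ∀ W ⊆ X, ∀ k e, f W ≤ K →
        pl.Parts (fun p => f p ≤ 2 * K ∧ (¬ Pk p 1 ∨ p.Subsingleton)) W k → Pk W e →
        k + 2 ≤ 4 * e → m + n = k → ∃ Y ⊆ X, f Y ≤ K ∧ (¬ Pk (X \ Y) 1 ∨ (X \ Y).Subsingleton) ∧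
        ∃ m a, pl.Parts (fun p => f p ≤ 2 * K ∧ (¬ Pk p 1 ∨ p.Subsingleton)) Y m ∧ Pk Y a ∧
          (m = 0 ∨ m + 2 ≤ 4 * a) := by
      intro W hW k e d1 d2 d3 d4 d5
      by_cases c : Pk (X \ W) 1
      · refine ⟨X, subset_rfl, hK, e0, _, e + 1, full, ?_, Or.inr (by omega)⟩
        exact union_sdiff_cancel hW ▸ hu _ _ _ _ disjoint_sdiff_right d3 c
      · exact ⟨W, hW, d1, Or.inl c, k, e, d2, d3, Or.inr d4⟩
    rcases a6 with a6 | a6 <;> rcases b6 with b6 | b6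
    · exact ⟨X, subset_rfl, hK, e0, _, 1, full, hl.1, Or.inr (by omega)⟩
    · exact one Z (b1.trans sdiff_subset) n b b2 b4 b5 b6 (by omega)
    · exact one Y (a1.trans h1) m a a2 a4 a5 a6 (by omega)
    · refine ⟨X, subset_rfl, hK, e0, _, a + b, full, ?_, Or.inr (by omega)⟩
      exact hm _ _ _ (union_subset (a1.trans h1) (b1.trans sdiff_subset))
        (hu _ _ _ _ (disjoint_sdiff_right.mono a1 b1) a5 b5)
  obtain ⟨Y, a1, a2, a3, m, a, a4, a5, a6⟩ := key univ h.top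
  have b1 := hf.pos univ Y
  have b2 := h.wid _ h.top
  exact ⟨m + 1, a, a4.add a1 ⟨by omega, a3⟩, hm _ _ _ a1 a5, by omega⟩

namespace Pl

variable {V : Type} {G : SimpleGraph V}

theorem ncard_bu {ι : Type} [Finite V] (g : ι → Set V) (P : Finset ι) {M : ℕ}
    (h : ∀ p ∈ P, (g p).ncard ≤ M) : {v | ∃ p ∈ P, v ∈ g p}.ncard ≤ P.card * M := by
  classical
  induction P using Finset.induction_on with
  | empty => simp
  | insert p P hp ih =>
    have a1 := ih fun q hq => h q (Finset.mem_insert_of_mem hq)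
    have a2 := h p (Finset.mem_insert_self _ _)
    have a3 : {v | ∃ q ∈ insert p P, v ∈ g q} ⊆ g p ∪ {v | ∃ q ∈ P, v ∈ g q} := by
      rintro v ⟨q, hq, hv⟩
      rcases Finset.mem_insert.1 hq with rfl | hq
      exacts [Or.inl hv, Or.inr ⟨q, hq, hv⟩]
    have a4 := (ncard_le_ncard a3).trans (ncard_union_le _ _)
    rw [Finset.card_insert_of_notMem hp, add_one_mul]
    omega

/-- the vertices all of whose pairs lie in `p` -/
def In (G : SimpleGraph V) (X : Set V) (p : Set (V × V)) : Set V :=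
  {v | v ∈ X ∧ v ∉ pl.VX (within G X) pᶜ}

theorem In_mono {X : Set V} {p q : Set (V × V)} (h : p ⊆ q) : In G X p ⊆ In G X q :=
  fun _ hv => ⟨hv.1, fun k => hv.2 (pl.VX_mono (compl_subset_compl.2 h) k)⟩

theorem In_pair {X : Set V} {p : Set (V × V)} {v : V} (h : v ∈ In G X p) {e : V × V}
    (he : v ∈ pl.inc (within G X) e) : e ∈ p := by
  by_contra k
  exact h.2 ⟨e, k, he⟩

theorem In_adj {X : Set V} {p : Set (V × V)} {x u : V} (h : x ∈ In G X p) (hu : u ∈ X)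
    (e : G.Adj x u) : u ∈ pl.VX (within G X) p :=
  ⟨(x, u), In_pair h ⟨Or.inl rfl, Or.inr ⟨h.1, hu, e⟩⟩, Or.inr rfl, Or.inr ⟨h.1, hu, e⟩⟩

theorem In_dis {X : Set V} {p q : Set (V × V)} (h : Disjoint p q) :
    Disjoint (In G X p) (In G X q) :=
  disjoint_left.2 fun v h1 h2 =>
    disjoint_left.1 h (In_pair h1 (pl.inc_self v)) (In_pair h2 (pl.inc_self v))

/-- packings of connected sets with many neighbours in `Z` -/
def Pk (c : ℕ) (G : SimpleGraph V) (X Z : Set V) (p : Set (V × V)) (a : ℕ) : Prop :=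
  ∃ N : Finset (Set V), N.card = a ∧
    (∀ D ∈ N, Conn G D ∧ D ⊆ In G X p ∧ c + 2 ≤ (nbs G D ∩ Z).ncard) ∧
    ∀ D ∈ N, ∀ D' ∈ N, D ≠ D' → Disjoint D D'

theorem Pk_union {c : ℕ} {X Z : Set V} (p q : Set (V × V)) (a b : ℕ) (h : Disjoint p q)
    (h1 : Pk c G X Z p a) (h2 : Pk c G X Z q b) : Pk c G X Z (p ∪ q) (a + b) := by
  classical
  obtain ⟨N, rfl, a1, a2⟩ := h1
  obtain ⟨M, rfl, b1, b2⟩ := h2
  have d : ∀ D ∈ N, ∀ D' ∈ M, Disjoint D D' := fun D hD D' hD' =>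
    (In_dis h).mono (a1 D hD).2.1 (b1 D' hD').2.1
  refine ⟨N ∪ M, Finset.card_union_of_disjoint (Finset.disjoint_left.2 fun D hD hD' => ?_),
    fun D hD => ?_, fun D hD D' hD' e => ?_⟩
  · obtain ⟨x, hx⟩ := (a1 D hD).1.1
    exact disjoint_left.1 (d D hD D hD') hx hx
  · rcases Finset.mem_union.1 hD with k | k
    · exact ⟨(a1 D k).1, (a1 D k).2.1.trans (In_mono subset_union_left), (a1 D k).2.2⟩
    · exact ⟨(b1 D k).1, (b1 D k).2.1.trans (In_mono subset_union_right), (b1 D k).2.2⟩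
  · rcases Finset.mem_union.1 hD with k | k <;> rcases Finset.mem_union.1 hD' with k' | k'
    exacts [a2 D k D' k' e, d D k D' k', (d D' k' D k).symm, b2 D k D' k' e]

/-- the vertices that a part puts into the separator -/
def yb (G : SimpleGraph V) (p : Set (V × V)) : Set V :=
  pl.bd G p ∪ {v | v ∈ pl.VX G p ∧ p.Subsingleton}

theorem yb_le [Finite V] (p : Set (V × V)) : (yb G p).ncard ≤ pl.fb G p + 2 := by
  refine (ncard_union_le _ _).trans (Nat.add_le_add_left ?_ _)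
  rcases p.eq_empty_or_nonempty with rfl | ⟨e, he⟩
  · simp [pl.VX]
  · have a : {v | v ∈ pl.VX G p ∧ p.Subsingleton} ⊆ {e.1, e.2} := by
      rintro v ⟨⟨e', he', hv⟩, hs⟩
      obtain rfl := hs he he'
      exact hv.1
    exact (ncard_le_ncard a).trans ((ncard_insert_le _ _).trans (by rw [ncard_singleton]))

theorem yb_sub {p : Set (V × V)} : yb G p ⊆ pl.VX G p := by
  rintro v (h | h)
  exacts [h.1, h.1]

theorem cp_eq {U : Set V} {a b x : V} (ha : a ∈ U) (hb : b ∈ U) (h1 : x ∈ cp G U a)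
    (h2 : x ∈ cp G U b) : cp G U a = cp G U b :=
  (conn_sub_cp (cp_conn ha) cp_sub h1 h2).antisymm (conn_sub_cp (cp_conn hb) cp_sub h2 h1)

end Pl

theorem plS (hN : NcS) (hP : PartS) : PlS := by
  intro c K
  obtain ⟨c', hc⟩ := hN c
  refine ⟨c + 1 + 2 * K, fun L => ⟨(4 * c + 1) * (2 * K + 2) +
    L * (c' * ((4 * c + 1) * (2 * K + 2) + 1)), ?_⟩⟩
  intro V _ G X Z hs ⟨T, hT, _⟩ hXZ hnb hbig
  obtain ⟨m, a, ⟨P, p1, p2, p3, p4⟩, ⟨N, rfl, n1, n2⟩, hma⟩ := hP (V × V) (pl.fb (within G X)) K T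
    (Pl.Pk c G X Z) pl.subm hT (fun p => ⟨∅, rfl, by simp, by simp⟩)
    (fun p q a h ⟨N, a1, a2, a3⟩ => ⟨N, a1, fun D hD =>
      ⟨(a2 D hD).1, (a2 D hD).2.1.trans (Pl.In_mono h), (a2 D hD).2.2⟩, a3⟩) Pl.Pk_union
  have ha : N.card ≤ c * Z.ncard := by
    have k := (hc V G Z (N : Set (Set V)) hs (fun D hD => ⟨(n1 D hD).1,
      hXZ.mono_left fun v hv => ((n1 D hD).2.1 hv).1⟩) n2).1
    have e : {D ∈ (N : Set (Set V)) | c + 2 ≤ (nbs G D ∩ Z).ncard} = N :=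
      sep_eq_self_iff_mem_true.2 fun D hD => (n1 D hD).2.2
    rwa [e, ncard_coe_finset] at k
  obtain ⟨Y, hY⟩ : ∃ Y, Y = {v | ∃ p ∈ P, v ∈ Pl.yb (within G X) p} := ⟨_, rfl⟩
  have hYc : Y.ncard ≤ P.card * (2 * K + 2) := hY ▸ Pl.ncard_bu _ P fun p hp =>
    (Pl.yb_le p).trans (Nat.add_le_add_right (p3 p hp).1 2)
  have hYm : ∀ p ∈ P, Pl.yb (within G X) p ⊆ Y := fun p hp v hv => hY ▸ ⟨p, hp, hv⟩
  have hout : ∀ v, ∀ u ∈ nbs G (cp G (X \ Y) v), (u ∈ X ∧ u ∈ Y) ∨ (u ∉ X ∧ u ∈ Z) := by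
    rintro v u ⟨h1, x, hx, e⟩
    by_cases k : u ∈ X
    · refine Or.inl ⟨k, ?_⟩
      by_contra k'
      exact h1 (cp_closed hx ⟨k, k'⟩ e)
    · exact Or.inr ⟨k, hnb ⟨k, x, hx.1.1, e⟩⟩
  have hsm : ∀ v ∈ X \ Y, (nbs G (cp G (X \ Y) v)).ncard ≤ c + 1 + 2 * K := by
    intro v hv
    obtain ⟨p, hp, hvp⟩ : (v, v) ∈ ⋃₀ (P : Set (Set (V × V))) := p2 ▸ mem_univ _
    have hvx : v ∈ pl.VX (within G X) p := ⟨_, hvp, pl.inc_self v⟩
    have hin : ∀ u ∈ X \ Y, u ∈ pl.VX (within G X) p → u ∈ Pl.In G X p := fun u hu k =>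
      ⟨hu.1, fun k' => hu.2 (hYm p hp (Or.inl ⟨k, k'⟩))⟩
    have hD : cp G (X \ Y) v ⊆ Pl.In G X p := by
      rintro u ⟨h1, h2⟩
      clear h1
      induction h2 with
      | refl => exact hin v hv hvx
      | tail _ h4 ih => exact hin _ h4.2.1 (Pl.In_adj ih h4.2.1.1 h4.2.2)
    have hns : ¬ p.Subsingleton := fun k => hv.2 (hYm p hp (Or.inr ⟨hvx, k⟩))
    have h1 : (nbs G (cp G (X \ Y) v) ∩ Z).ncard ≤ c + 1 := by
      by_contra k
      refine (p3 p hp).2.resolve_right hns ⟨{cp G (X \ Y) v}, Finset.card_singleton _, ?_, ?_⟩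
      · intro D hD'
        obtain rfl := Finset.mem_singleton.1 hD'
        exact ⟨cp_conn hv, hD, by omega⟩
      · intro D h1 D' h2 e
        exact absurd ((Finset.mem_singleton.1 h1).trans (Finset.mem_singleton.1 h2).symm) e
    have h2 : nbs G (cp G (X \ Y) v) ⊆ (nbs G (cp G (X \ Y) v) ∩ Z) ∪ pl.bd (within G X) p := by
      intro u hu
      rcases hout v u hu with ⟨k1, k2⟩ | k
      · obtain ⟨-, x, hx, e⟩ := hu
        have k3 := Pl.In_adj (hD hx) k1 e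
        refine Or.inr ⟨k3, ?_⟩
        by_contra k4
        rw [hY] at k2
        obtain ⟨q, hq, k5⟩ := k2
        obtain ⟨e', k6, k7⟩ := Pl.yb_sub k5
        have k8 : e' ∈ p := Pl.In_pair ⟨k1, k4⟩ k7
        obtain rfl : p = q := by
          by_contra k9
          exact disjoint_left.1 (p1 hp hq k9) k8 k6
        rcases k5 with k5 | k5
        exacts [k4 k5.2, hns k5.2]
      · exact Or.inl ⟨hu, k.2⟩
    have h3 := (ncard_le_ncard h2).trans (ncard_union_le _ _)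
    have h4 : (pl.bd (within G X) p).ncard ≤ 2 * K := (p3 p hp).1
    omega
  have htr := (hc V G (Z ∪ Y) {D | ∃ v ∈ X \ Y, D = cp G (X \ Y) v} hs (by
      rintro D ⟨v, hv, rfl⟩
      refine ⟨cp_conn hv, disjoint_left.2 ?_⟩
      rintro u hu (k | k)
      exacts [disjoint_left.1 hXZ hu.1.1 k, hu.1.2 k]) (by
      rintro D ⟨v, hv, rfl⟩ D' ⟨v', hv', rfl⟩ e
      exact disjoint_left.2 fun u h1 h2 => e (Pl.cp_eq hv hv' h1 h2))).2
  by_contra hcon
  have hL : ∀ τ ∈ (toFinite ((fun D => nbs G D ∩ (Z ∪ Y)) ''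
      {D | ∃ v ∈ X \ Y, D = cp G (X \ Y) v})).toFinset,
      {v | v ∈ X \ Y ∧ nbs G (cp G (X \ Y) v) ∩ (Z ∪ Y) = τ}.ncard ≤ L := by
    intro τ hτ
    obtain ⟨D, ⟨v, hv, rfl⟩, e⟩ := (Finite.mem_toFinset _).1 hτ
    by_contra k
    refine hcon ⟨_, fun u hu => hu.1.1, ?_, not_le.1 k⟩
    refine le_trans (ncard_le_ncard ?_) (hsm v hv)
    rintro u ⟨h1, x, ⟨hx, hx'⟩, e'⟩
    have h2 : u ∉ X \ Y := fun k' => h1 ⟨k', by
      rw [← Pl.cp_eq hx k' (cp_closed (cp_self hx) k' e') (cp_self k')]; exact hx'⟩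
    have h3 : u ∈ nbs G (cp G (X \ Y) x) := ⟨fun k' => h2 k'.1, x, cp_self hx, e'⟩
    have h4 : u ∈ nbs G (cp G (X \ Y) x) ∩ (Z ∪ Y) :=
      ⟨h3, (hout x u h3).elim (fun k' => Or.inr k'.2) fun k' => Or.inl k'.2⟩
    rw [hx', ← e] at h4
    exact h4.1
  have h5 := Pl.ncard_bu _ _ hL
  rw [← ncard_eq_toFinset_card] at h5
  have h6 : X ⊆ Y ∪ {v | ∃ τ ∈ (toFinite ((fun D => nbs G D ∩ (Z ∪ Y)) ''
      {D | ∃ v ∈ X \ Y, D = cp G (X \ Y) v})).toFinset,
      v ∈ {v | v ∈ X \ Y ∧ nbs G (cp G (X \ Y) v) ∩ (Z ∪ Y) = τ}} := by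
    intro v hv
    by_cases k : v ∈ Y
    · exact Or.inl k
    · exact Or.inr ⟨_, (Finite.mem_toFinset _).2 ⟨_, ⟨v, ⟨hv, k⟩, rfl⟩, rfl⟩, ⟨hv, k⟩, rfl⟩
  have h7 := (ncard_le_ncard h6).trans (ncard_union_le _ _)
  have h8 := ncard_union_le Z Y
  have h9 : Y.ncard ≤ (4 * c + 1) * (2 * K + 2) * (Z.ncard + 1) := by
    refine hYc.trans ?_
    rw [mul_right_comm]
    exact Nat.mul_le_mul_right _ (by nlinarith)
  have h10 : (Z ∪ Y).ncard + 1 ≤ ((4 * c + 1) * (2 * K + 2) + 1) * (Z.ncard + 1) := by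
    rw [add_one_mul]
    omega
  have h11 := Nat.mul_le_mul_right L (htr.trans (Nat.mul_le_mul_left c' h10))
  have h12 : c' * (((4 * c + 1) * (2 * K + 2) + 1) * (Z.ncard + 1)) * L =
      L * (c' * ((4 * c + 1) * (2 * K + 2) + 1)) * (Z.ncard + 1) := by ring
  rw [add_mul] at hbig
  omega

end Pool.Agent.MP_9d78a0_co.fb

end MrgPart7

-- ======== part 8: formerly Pool.Agent.MP_9d78a0_co.fb.Leak
section MrgPart8

/-! One of many zones avoids a small set. -/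

set_option autoImplicit false

namespace Pool.Agent.MP_9d78a0_co.fb

open Set Function

namespace Leak

/-- A digraph of small out-degree has a large independent set. -/
theorem thin {α : Type} (R : α → α → Prop) (a t : ℕ) : ∀ P : Finset α,
    (∀ p ∈ P, {x | x ∈ P ∧ R p x}.ncard ≤ a) → (2 * a + 1) * t ≤ P.card →
    ∃ I ⊆ P, I.card = t ∧ ∀ p ∈ I, ∀ p' ∈ I, p ≠ p' → ¬ R p p' := by
  classical
  induction t with
  | zero => exact fun P _ _ => ⟨∅, Finset.empty_subset _, rfl, by simp⟩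
  | succ t ih =>
    intro P h1 h2
    have h3 : ∀ p ∈ P, (P.filter (R p)).card ≤ a := fun p hp => by
      have := h1 p hp
      rwa [← Finset.coe_filter, ncard_coe_finset] at this
    have hne : P.Nonempty := Finset.card_pos.1 (by nlinarith)
    obtain ⟨v, hv, hin⟩ : ∃ v ∈ P, (P.filter fun x => R x v).card ≤ a := by
      refine Finset.exists_le_of_sum_le hne (g := fun _ => a) ?_
      have e : ∑ v ∈ P, (P.filter fun x => R x v).card = ∑ x ∈ P, (P.filter (R x)).card := by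
        simp only [Finset.card_filter]
        exact Finset.sum_comm
      rw [e]
      exact Finset.sum_le_sum h3
    let Q : Finset α := insert v (P.filter (R v) ∪ P.filter fun x => R x v)
    have hQ : Q.card ≤ 2 * a + 1 := by
      refine (Finset.card_insert_le _ _).trans ?_
      have := Finset.card_union_le (P.filter (R v)) (P.filter fun x => R x v)
      have := h3 v hv
      omega
    have hc : (2 * a + 1) * t ≤ (P \ Q).card := by
      have := Finset.le_card_sdiff Q P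
      have e : (2 * a + 1) * (t + 1) = (2 * a + 1) * t + (2 * a + 1) := by ring
      omega
    obtain ⟨I, hI, hcard, hind⟩ := ih (P \ Q) (fun p hp =>
      le_trans (ncard_le_ncard (fun x hx => And.intro (Finset.mem_sdiff.1 hx.1).1 hx.2)
        (P.finite_toSet.subset fun x hx => hx.1)) (h1 p (Finset.mem_sdiff.1 hp).1)) hc
    have hq : ∀ x ∈ I, x ∈ P ∧ x ≠ v ∧ ¬ R v x ∧ ¬ R x v := fun x hx => by
      have k := Finset.mem_sdiff.1 (hI hx)
      have k2 := k.2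
      simp only [Q, Finset.mem_insert, Finset.mem_union, Finset.mem_filter, not_or, not_and] at k2
      exact ⟨k.1, k2.1, k2.2.1 k.1, k2.2.2 k.1⟩
    refine ⟨insert v I, Finset.insert_subset hv fun x hx => (hq x hx).1, ?_, ?_⟩
    · rw [Finset.card_insert_of_notMem fun k => (hq v k).2.1 rfl, hcard]
    · intro p hp p' hp' e
      rcases Finset.mem_insert.1 hp with e1 | h
      · rcases Finset.mem_insert.1 hp' with e2 | h'
        · exact absurd (e1.trans e2.symm) e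
        · exact e1 ▸ (hq p' h').2.2.1
      · rcases Finset.mem_insert.1 hp' with e2 | h'
        · exact e2 ▸ (hq p h).2.2.2
        · exact hind p h p' h' e

variable {V ι : Type} {G : SimpleGraph V}

/-- Disjoint connected sets are grown until they are saturated. -/
theorem grow [Finite V] [Finite ι] (M : ι → Set V) (S : Set V) (h1 : ∀ i, Conn G (M i))
    (h2 : ∀ i i', i ≠ i' → Disjoint (M i) (M i')) (h3 : ∀ i, Disjoint (M i) S) :
    ∃ B : ι → Set V, (∀ i, M i ⊆ B i) ∧ (∀ i, Conn G (B i)) ∧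
      (∀ i i', i ≠ i' → Disjoint (B i) (B i')) ∧ (∀ i, Disjoint (B i) S) ∧
      ∀ i, ∀ x ∈ B i, ∀ y, G.Adj x y → y ∈ S ∨ ∃ k, y ∈ B k := by
  classical
  obtain ⟨B, hB⟩ := Set.Finite.exists_maximal (s := {B : ι → Set V | (∀ i, M i ⊆ B i) ∧
    (∀ i, Conn G (B i)) ∧ (∀ i i', i ≠ i' → Disjoint (B i) (B i')) ∧ ∀ i, Disjoint (B i) S})
    (toFinite _) ⟨M, fun _ => Subset.rfl, h1, h2, h3⟩
  obtain ⟨b1, b2, b3, b4⟩ := hB.prop
  refine ⟨B, b1, b2, b3, b4, fun i x hx y e => ?_⟩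
  by_contra k
  simp only [not_or, not_exists] at k
  let B' : ι → Set V := fun j => if j = i then insert y (B j) else B j
  have m : ∀ j z, z ∈ B' j ↔ (z = y ∧ j = i) ∨ z ∈ B j := fun j z => by
    by_cases d : j = i <;> simp [B', d]
  have le : B ≤ B' := fun j z hz => (m j z).2 (Or.inr hz)
  have := hB.le_of_ge (y := B') ⟨fun j => (b1 j).trans (le j), fun j => ?_, fun j j' d => ?_,
    fun j => ?_⟩ le
  · exact k.2 i (this i ((m i y).2 (Or.inl ⟨rfl, rfl⟩)))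
  · by_cases d : j = i
    · subst d
      simpa [B'] using (b2 j).insert hx e.symm
    · simpa [B', d] using b2 j
  · refine disjoint_left.2 fun z hz hz' => ?_
    rcases (m _ _).1 hz with ⟨e1, e2⟩ | h
    · rcases (m _ _).1 hz' with ⟨-, e3⟩ | h'
      · exact d (e2.trans e3.symm)
      · exact k.2 _ (e1 ▸ h')
    · rcases (m _ _).1 hz' with ⟨e1, -⟩ | h'
      · exact k.2 _ (e1 ▸ h)
      · exact disjoint_left.1 (b3 _ _ d) h h'
  · refine disjoint_left.2 fun z hz hz' => ?_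
    rcases (m _ _).1 hz with ⟨e1, -⟩ | h
    · exact k.1 (e1 ▸ hz')
    · exact disjoint_left.1 (b4 _) h hz'

/-- The counting argument. -/
theorem core [Finite V] [Fintype ι] {c a q : ℕ} (hG : Sparse c G) (T : Set V) (A M : ι → Set V)
    (W : ι → Fin q → Set V) (hA : ∀ i, (A i).ncard ≤ a) (hM : ∀ i, Conn G (M i))
    (hMM : ∀ i i', i ≠ i' → Disjoint (M i) (M i')) (hMA : ∀ i i', Disjoint (M i) (A i'))
    (hMT : ∀ i, Disjoint (M i) T) (hW : ∀ i j j', j ≠ j' → Disjoint (W i j) (W i j'))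
    (hL : ∀ i j, ∀ x ∈ W i j, ∃ m ∈ M i, m ∈ W i j ∧ Link G (W i j) x m)
    (hC : ∀ i j, ∀ x ∈ W i j, x ∉ M i → ∀ y, G.Adj x y → y ∈ W i j ∨ y ∈ A i ∨ y ∈ M i)
    (hT : ∀ i j, ¬ Disjoint (W i j) T) (hc : T.ncard ≤ Fintype.card ι) :
    Fintype.card ι * q ≤ c * ((a + 2) * Fintype.card ι) := by
  classical
  let S : Set V := T ∪ ⋃ i, A i
  have hS : S.ncard ≤ (a + 1) * Fintype.card ι := by
    have k1 : (⋃ i, A i).ncard ≤ ∑ i, (A i).ncard := by
      have := ncard_iUnion_le_of_fintype A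
      exact this
    have k2 : ∑ i, (A i).ncard ≤ ∑ _i : ι, a := Finset.sum_le_sum fun i _ => hA i
    have k3 := ncard_union_le T (⋃ i, A i)
    rw [Finset.sum_const, Finset.card_univ, smul_eq_mul] at k2
    have e : (a + 1) * Fintype.card ι = Fintype.card ι * a + Fintype.card ι := by ring
    change (T ∪ ⋃ i, A i).ncard ≤ _
    omega
  obtain ⟨B, b1, b2, b3, b4, b5⟩ := grow (G := G) M S hM hMM fun i =>
    disjoint_union_right.2 ⟨hMT i, disjoint_iUnion_right.2 fun i' => hMA i i'⟩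
  let N : Set (Set V) := range B ∪ (fun z => ({z} : Set V)) '' S
  have hN : N.ncard ≤ (a + 2) * Fintype.card ι := by
    have k1 : (range B).ncard ≤ Fintype.card ι := by
      rw [← image_univ, ← Nat.card_eq_fintype_card, ← ncard_univ]
      exact ncard_image_le
    have k2 : ((fun z => ({z} : Set V)) '' S).ncard ≤ S.ncard := ncard_image_le
    have k3 := ncard_union_le (range B) ((fun z => ({z} : Set V)) '' S)
    have e : (a + 2) * Fintype.card ι = (a + 1) * Fintype.card ι + Fintype.card ι := by ring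
    change (range B ∪ (fun z => ({z} : Set V)) '' S).ncard ≤ _
    omega
  have t := hG.touch (N := N) (by
    rintro D (⟨i, rfl⟩ | ⟨z, -, rfl⟩)
    exacts [b2 i, conn_singleton G z]) (by
    rintro D (⟨i, rfl⟩ | ⟨z, hz, rfl⟩) D' (⟨i', rfl⟩ | ⟨z', hz', rfl⟩) d
    · exact b3 _ _ fun e => d (e ▸ rfl)
    · exact disjoint_singleton_right.2 fun k => disjoint_left.1 (b4 i) k hz'
    · exact disjoint_singleton_left.2 fun k => disjoint_left.1 (b4 i') k hz
    · exact disjoint_singleton.2 fun e => d (e ▸ rfl))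
  have key : ∀ i j, ∃ D ∈ N, B i ≠ D ∧ Touch G (B i) D ∧ D.Nonempty ∧ D ⊆ W i j := by
    intro i j
    obtain ⟨s, hs, hs'⟩ := not_disjoint_iff.1 (hT i j)
    obtain ⟨m, hm, -, l⟩ := hL i j s hs
    obtain ⟨x, y, -, hy, hx', hy', e, -⟩ := link_exit l.symm (b1 i hm)
      fun k => disjoint_left.1 (b4 i) k (Or.inl hs')
    rcases b5 i x hx' y e with k | ⟨k, hk⟩
    · exact ⟨{y}, Or.inr ⟨y, k, rfl⟩, fun d => hy' (d ▸ rfl), ⟨x, hx', y, rfl, e⟩,
        singleton_nonempty y, singleton_subset_iff.2 hy⟩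
    · have d : k ≠ i := fun d => hy' (d ▸ hk)
      refine ⟨B k, Or.inl ⟨k, rfl⟩, fun d => hy' (d ▸ hk), ⟨x, hx', y, hk, e⟩, ⟨y, hk⟩,
        fun z hz => ?_⟩
      have nM : ∀ u ∈ B k, u ∉ M i := fun u hu c => disjoint_left.1 (b3 _ _ d) hu (b1 i c)
      have l2 := (b2 k).2 y hk z hz
      clear hz
      induction l2 with
      | refl => exact hy
      | tail _ s ih =>
        rcases hC i j _ ih (nM _ s.1) _ s.2.2 with r | r | r
        · exact r
        · exact absurd (Or.inr (mem_iUnion.2 ⟨i, r⟩)) (disjoint_left.1 (b4 k) s.2.1)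
        · exact absurd r (nM _ s.2.1)
  choose D d1 d2 d3 d4 d5 using key
  have inj : InjOn (fun x : ι × Fin q => (B x.1, D x.1 x.2)) univ := by
    rintro ⟨i, j⟩ - ⟨i', j'⟩ - e
    obtain ⟨e1, e2⟩ := Prod.mk.inj e
    obtain rfl : i = i' := by
      by_contra k
      obtain ⟨z, hz⟩ := (b2 i).1
      exact disjoint_left.1 (b3 _ _ k) hz (e1 ▸ hz)
    obtain rfl : j = j' := by
      by_contra k
      obtain ⟨z, hz⟩ := d4 i j
      exact disjoint_left.1 (hW i _ _ k) (d5 i j hz) (d5 i j' (e2 ▸ hz))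
    rfl
  have le := ncard_le_ncard_of_injOn _ (t := {p : Set V × Set V | p.1 ∈ N ∧ p.2 ∈ N ∧
    p.1 ≠ p.2 ∧ Touch G p.1 p.2}) (fun x _ => ⟨Or.inl ⟨x.1, rfl⟩, d1 _ _, d2 _ _, d3 _ _⟩) inj
  rw [ncard_univ, Nat.card_eq_fintype_card, Fintype.card_prod, Fintype.card_fin] at le
  exact le.trans (t.trans (Nat.mul_le_mul_left _ hN))

end Leak

theorem leakS : LeakS := by
  classical
  intro c a q V _ G ok T P hq hG hP hd hc
  choose! A M W z1 z2 z3 z4 z5 z6 z7 z8 using fun p hp => (hP p hp).2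
  obtain ⟨I, hI, hcard, hind⟩ := Leak.thin (fun p p' => ¬ Disjoint (A p) p') a (T.ncard + 1) P
    (fun p hp => by
      refine le_trans ?_ (z1 p hp)
      have k : ∀ x : Set V, ∃ o : Option V, ¬ Disjoint (A p) x → ∃ v ∈ A p, v ∈ x ∧ o = some v := by
        intro x
        by_cases d : Disjoint (A p) x
        · exact ⟨none, fun e => absurd d e⟩
        · obtain ⟨v, h1, h2⟩ := not_disjoint_iff.1 d
          exact ⟨some v, fun _ => ⟨v, h1, h2, rfl⟩⟩
      choose g hg using k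
      rw [← ncard_image_of_injective (A p) (Option.some_injective V)]
      refine ncard_le_ncard_of_injOn g (fun x hx => ?_) fun x hx x' hx' e => ?_
      · obtain ⟨v, h1, -, h3⟩ := hg x hx.2
        exact ⟨v, h1, h3.symm⟩
      · obtain ⟨v, -, h2, h3⟩ := hg x hx.2
        obtain ⟨v', -, h2', h3'⟩ := hg x' hx'.2
        obtain rfl : v = v' := Option.some_injective V (h3.symm.trans (e.trans h3'))
        by_contra d
        exact disjoint_left.1 (hd x hx.1 x' hx'.1 d) h2 h2') hc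
  by_contra hno
  have hcI : Fintype.card I = T.ncard + 1 := by rw [Fintype.card_coe, hcard]
  have := Leak.core (ι := I) hG T (fun i => A i) (fun i => M i) (fun i => W i)
    (fun i => z1 i (hI i.2)) (fun i => z3 i (hI i.2))
    (fun i i' e => (hd i (hI i.2) i' (hI i'.2) fun d => e (Subtype.ext d)).mono
      (z2 i (hI i.2)) (z2 i' (hI i'.2)))
    (fun i i' => by
      by_cases e : i' = i
      · subst e
        exact (z4 i' (hI i'.2)).symm
      · exact ((not_not.1 (hind i' i'.2 i i.2 fun d => e (Subtype.ext d))).mono_right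
          (z2 i (hI i.2))).symm)
    (fun i => (hP i (hI i.2)).1.mono_left (z2 i (hI i.2)))
    (fun i => z5 i (hI i.2)) (fun i => z6 i (hI i.2)) (fun i => z7 i (hI i.2))
    (fun i j d => hno ⟨i, hI i.2, W i j, z8 i (hI i.2) j, d, fun x hx => by
      obtain ⟨m, h1, h2, h3⟩ := z6 i (hI i.2) j x hx
      exact ⟨m, z2 i (hI i.2) h1, h2, h3⟩⟩)
    (by omega)
  rw [hcI, ← mul_assoc, mul_comm] at this
  exact absurd (Nat.le_of_mul_le_mul_right this (Nat.succ_pos _)) (not_le.2 hq)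

end Pool.Agent.MP_9d78a0_co.fb

end MrgPart8

-- ======== part 9: formerly Pool.Agent.MP_9d78a0_co.fb.Red
section MrgPart9

/-! Deleting an irrelevant vertex and replacing a large piece with small boundary. -/

set_option autoImplicit false

namespace Pool.Agent.MP_9d78a0_co.fb

open Set Function

namespace red

variable {V V1 : Type}

theorem edge_iff {G : SimpleGraph V} {a b z x : V} (ha : z ≠ a) (hb : z ≠ b) :
    (G ⊔ SimpleGraph.edge a b).Adj z x ↔ G.Adj z x := by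
  refine ⟨fun h => ?_, fun h => Or.inl h⟩
  rcases h with h | h
  · exact h
  · rw [SimpleGraph.edge_adj] at h
    rcases h.1 with e | e
    exacts [absurd e.1 ha, absurd e.1 hb]

theorem edge_cases {G : SimpleGraph V} {a b z x : V}
    (h : (G ⊔ SimpleGraph.edge a b).Adj z x) :
    G.Adj z x ∨ (z = a ∧ x = b) ∨ (z = b ∧ x = a) := by
  rcases h with h | h
  · exact Or.inl h
  · rw [SimpleGraph.edge_adj] at h
    exact Or.inr h.1

theorem edge_left {G : SimpleGraph V} {a b : V} (h : a ≠ b) :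
    (G ⊔ SimpleGraph.edge a b).Adj a b :=
  Or.inr ((SimpleGraph.edge_adj _ _ _ _).2 ⟨Or.inl ⟨rfl, rfl⟩, h⟩)

/-- One application of irrelevance to a graph with one more edge. -/
theorem irr_step {F : Family} {s : ℕ} {G : SimpleGraph V} {Z Y T T' U : Set V} {a b : V}
    (hs : Bd F s) (hi : Irr s G Z Y) (hZ : Z ⊆ T) (ha : a ∉ Z) (hb : b ∉ Z)
    (h1 : T \ Y ⊆ T') (h2 : T \ Y ⊆ U)
    (h : ¬ FreeOn F (G ⊔ SimpleGraph.edge a b) T) :
    ¬ FreeOn F (within G U ⊔ SimpleGraph.edge a b) T' := by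
  obtain ⟨K, hK, B, hB⟩ := not_freeOn.1 h
  obtain ⟨B', hB'⟩ := hi _ T K.1 K.2 B (hs K hK) hZ
    (fun z hz x => edge_iff (fun e : z = a => ha (e ▸ hz)) (fun e : z = b => hb (e ▸ hz))) hB
  refine not_freeOn.2 ⟨K, hK, B', model_mono hB' h1 fun u hu v hv e => ?_⟩
  rcases e with e | e
  exacts [Or.inl ⟨h2 hu, h2 hv, e⟩, Or.inr e]

end red

theorem delS : DelS := by
  intro F s V _ G S R W hs h hW hWR _ hz
  obtain ⟨Win, w, h1, hw, i1, i2⟩ := hz
  have hwR : ∀ x ∈ W, x ∉ R := fun x hx => disjoint_left.1 hWR hx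
  have hR : R ⊆ S \ {w} := fun u hu => ⟨h.sub hu, fun e => hwR w (h1 hw) (e ▸ hu)⟩
  have nadj : ∀ u ∈ S \ {w}, ∀ v ∈ S \ {w}, ¬ (within G (S \ {w})).Adj u v → ¬ G.Adj u v :=
    fun u hu v hv k e => k ⟨hu, hv, e⟩
  refine ⟨V, inferInstance, within G (S \ {w}), S \ {w}, R,
    ⟨fun u v e => e.1, hR, h.free.mono sdiff_subset fun u _ v _ e => e.2.2, ?_, ?_⟩,
    ?_, rfl, ?_, ?_⟩
  · intro u hu v hv e k
    exact red.irr_step hs i1 (h1.trans hW) (fun c => hwR _ (h1 c) hu) (fun c => hwR _ (h1 c) hv)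
      subset_rfl subset_rfl (h.blk u hu v hv e (nadj u (hR hu) v (hR hv) k))
  · intro y hy hyR
    by_cases hyw : y ∈ Win
    · refine Or.inr fun u hu v hv e k => ?_
      refine red.irr_step hs (i2 y hyw) hW (fun c => hwR _ c hu) (fun c => hwR _ c hv)
        ?_ ?_ (h.blk u hu v hv e (nadj u (hR hu) v (hR hv) k))
      · exact fun x hx => ⟨⟨hx.1, fun c => hx.2 (Or.inl c)⟩, fun c => hx.2 (Or.inr c)⟩
      · exact fun x hx => ⟨hx.1, fun c => hx.2 (Or.inl c)⟩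
    · rcases h.safe y hy.1 hyR with a | a
      · refine Or.inl fun u hu k => ?_
        exact red.irr_step hs i1 (h1.trans hW) (fun c => hwR _ (h1 c) hu) hyw
          subset_rfl subset_rfl (a u hu (nadj u (hR hu) y hy k))
      · refine Or.inr fun u hu v hv e k => ?_
        refine red.irr_step hs i1 (T := S \ {y}) ?_ (fun c => hwR _ (h1 c) hu)
          (fun c => hwR _ (h1 c) hv) ?_ ?_ (a u hu v hv e (nadj u (hR hu) v (hR hv) k))
        · exact fun x hx => ⟨hW (h1 hx), fun c => hyw (c ▸ hx)⟩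
        · exact fun x hx => ⟨⟨hx.1.1, hx.2⟩, hx.1.2⟩
        · exact fun x hx => ⟨hx.1.1, hx.2⟩
  · exact ncard_sdiff_singleton_lt_of_mem (hW (h1 hw))
  · exact ncard_le_ncard (fun p hp => ⟨hp.1.2.2, hp.2⟩)
  · refine ncard_le_ncard (fun z hz => ?_)
    obtain ⟨a, x, hx, e⟩ := hz
    exact ⟨a, x, hx, e.2.2⟩

namespace red

variable {V V1 : Type} {b : ℕ}

/-- the patterns of a piece for all small pattern sizes -/
abbrev T0 (s b : ℕ) : Type := (k : Fin (s + 1)) → Set (PT (Fin k.1) (Option (Fin b)))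

/-- root neighbourhoods with one extra root -/
def nb (Y : Set V) (n : Fin b → Set V) : Option (Fin b) → Set V := fun o => o.elim Y n

/-- the basic type of a piece -/
def ty0 (s : ℕ) (G : SimpleGraph V) (P : Set V) (n : Fin b → Set V) (Y : Set V) : T0 s b :=
  fun k => Pat (Fin k.1) G P (nb Y n)

/-- the type of a piece -/
def ty (s : ℕ) (G : SimpleGraph V) (P : Set V) (n : Fin b → Set V) :
    T0 s b × Set (T0 s b × T0 s b) :=
  (ty0 s G P n ∅, (fun y => (ty0 s G P n {y}, ty0 s G (P \ {y}) n ∅)) '' P)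

theorem exists_small (s b : ℕ) : ∃ β : ℕ, ∀ (V : Type) [Finite V] [Nonempty V]
    (G : SimpleGraph V) (P : Set V) (n : Fin b → Set V),
    ∃ (V1 : Type) (_ : Finite V1) (_ : Nonempty V1) (G1 : SimpleGraph V1) (P1 : Set V1)
      (n1 : Fin b → Set V1), ty s G1 P1 n1 = ty s G P n ∧ P1.ncard ≤ β := by
  let Q : T0 s b × Set (T0 s b × T0 s b) → ℕ → Prop := fun t m =>
    ∃ (V1 : Type) (_ : Finite V1) (_ : Nonempty V1) (G1 : SimpleGraph V1) (P1 : Set V1)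
      (n1 : Fin b → Set V1), ty s G1 P1 n1 = t ∧ P1.ncard = m
  have h : ∀ t, ∃ m, (∃ m', Q t m') → Q t m := by
    intro t
    by_cases c : ∃ m', Q t m'
    · obtain ⟨m, hm⟩ := c
      exact ⟨m, fun _ => hm⟩
    · exact ⟨0, fun d => absurd d c⟩
  choose f hf using h
  obtain ⟨β, hβ⟩ := (finite_range f).bddAbove
  refine ⟨β, fun V _ _ G P n => ?_⟩
  obtain ⟨V1, a1, a2, G1, P1, n1, e1, e2⟩ :=
    hf (ty s G P n) ⟨_, V, inferInstance, inferInstance, G, P, n, rfl, rfl⟩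
  exact ⟨V1, a1, a2, G1, P1, n1, e1, e2 ▸ hβ ⟨_, rfl⟩⟩

theorem exists_roots [Finite V] (N : Set V) (h : N.ncard ≤ b) (v : V) :
    ∃ r : Fin b → V, (∀ z ∈ N, ∃ i, r i = z) ∧ ∀ i, r i ∈ N ∨ r i = v := by
  have e : N ≃ Fin N.ncard := Finite.equivFinOfCardEq (Nat.card_coe_set_eq N)
  refine ⟨fun i => if c : i.1 < N.ncard then (e.symm ⟨i.1, c⟩).1 else v, fun z hz => ?_,
    fun i => ?_⟩
  · refine ⟨Fin.castLE h (e ⟨z, hz⟩), ?_⟩
    have c : (Fin.castLE h (e ⟨z, hz⟩)).1 < N.ncard := (e ⟨z, hz⟩).2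
    simp only [dif_pos c]
    have : (⟨(Fin.castLE h (e ⟨z, hz⟩)).1, c⟩ : Fin N.ncard) = e ⟨z, hz⟩ := rfl
    rw [this, Equiv.symm_apply_apply]
  · by_cases c : i.1 < N.ncard
    · left
      simp only [dif_pos c]
      exact (e.symm ⟨i.1, c⟩).2
    · right
      simp only [dif_neg c]

/-- the adjacency of the glued graph -/
def gadj (G : SimpleGraph V) (P : Set V) (r : Fin b → V) (G1 : SimpleGraph V1) (P1 : Set V1)
    (n1 : Fin b → Set V1) : V ⊕ V1 → V ⊕ V1 → Prop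
  | .inl u, .inl v => u ∉ P ∧ v ∉ P ∧ G.Adj u v
  | .inl z, .inr a => z ∉ P ∧ a ∈ P1 ∧ ∃ i, r i = z ∧ a ∈ n1 i
  | .inr a, .inl z => z ∉ P ∧ a ∈ P1 ∧ ∃ i, r i = z ∧ a ∈ n1 i
  | .inr a, .inr c => a ∈ P1 ∧ c ∈ P1 ∧ G1.Adj a c

/-- the piece `P` is replaced by the piece `P1` -/
def glue (G : SimpleGraph V) (P : Set V) (r : Fin b → V) (G1 : SimpleGraph V1) (P1 : Set V1)
    (n1 : Fin b → Set V1) : SimpleGraph (V ⊕ V1) where
  Adj := gadj G P r G1 P1 n1
  symm := ⟨by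
    rintro (u | u) (v | v) h
    · exact ⟨h.2.1, h.1, h.2.2.symm⟩
    · exact h
    · exact h
    · exact ⟨h.2.1, h.1, h.2.2.symm⟩⟩
  loopless := ⟨by
    rintro (u | u) h
    · exact h.2.2.ne rfl
    · exact h.2.2.ne rfl⟩

variable {F : Family} {s : ℕ} {G : SimpleGraph V} {P : Set V} {r : Fin b → V}
  {G1 : SimpleGraph V1} {P1 : Set V1} {n1 : Fin b → Set V1} {n : Fin b → Set V}

/-- Transfer from the old graph to the glued graph. -/
theorem fwd (pm : PmapS) (tr : TrfS) (hs : Bd F s)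
    (hn : ∀ x ∈ P, ∀ z ∉ P, G.Adj x z → ∃ i, r i = z ∧ x ∈ n i)
    {Ga : SimpleGraph V} {Gb : SimpleGraph (V ⊕ V1)} {O Pa T : Set V} {Pb : Set V1}
    {T' : Set (V ⊕ V1)} (u : V) {Y : Set V} {Y1 : Set V1}
    (hO : ∀ z ∈ O, z ∉ P) (ha : Pa ⊆ P) (hb : Pb ⊆ P1) (hT : T ⊆ O ∪ Pa)
    (hT' : Sum.inl '' O ∪ Sum.inr '' Pb ⊆ T')
    (hle : glue G P r G1 P1 n1 ≤ Gb)
    (hOO : ∀ a ∈ O, ∀ c ∈ O, Ga.Adj a c → Gb.Adj (.inl a) (.inl c))
    (hPO : ∀ x ∈ P, ∀ z ∈ O, Ga.Adj x z → G.Adj x z ∨ (z = u ∧ x ∈ Y))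
    (hPP : ∀ a ∈ P, ∀ c ∈ P, Ga.Adj a c → G.Adj a c)
    (hY : ∀ x ∈ Y1, Gb.Adj (.inr x) (.inl u))
    (ht : ty0 s G1 Pb n1 Y1 = ty0 s G Pa n Y) (h : ¬ FreeOn F Ga T) : ¬ FreeOn F Gb T' := by
  obtain ⟨K, hK, B, hB⟩ := not_freeOn.1 h
  have e : Pat (Fin K.1) G1 Pb (nb Y1 n1) = Pat (Fin K.1) G Pa (nb Y n) :=
    congrFun ht ⟨K.1, Nat.lt_succ_of_le (hs K hK)⟩
  have p1 := pm (Fin K.1) _ V V Ga G Pa Pa (nb Y n) (nb Y n) id (injOn_id _) (mapsTo_id _)
    (fun a h1 c h2 k => hPP a (ha h1) c (ha h2) k) (fun _ _ _ k => k)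
  have p2 := pm (Fin K.1) _ V1 (V ⊕ V1) G1 Gb Pb (Sum.inr '' Pb) (nb Y1 n1)
    (fun o => Sum.inr '' nb Y1 n1 o) Sum.inr Sum.inr_injective.injOn (mapsTo_image _ _)
    (fun a h1 c h2 k => hle (show gadj G P r G1 P1 n1 (.inr a) (.inr c) from ⟨hb h1, hb h2, k⟩))
    (fun _ x _ k => ⟨x, k, rfl⟩)
  obtain ⟨B', hB'⟩ := tr (Fin K.1) (Option (Fin b)) V (V ⊕ V1) K.2 Ga Gb O Pa (Sum.inr '' Pb)
    Sum.inl (fun o => o.elim u r) (nb Y n) (fun o => Sum.inr '' nb Y1 n1 o) B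
    (disjoint_left.2 fun z hz c => hO z hz (ha c)) Sum.inl_injective.injOn
    (by rintro z - ⟨x, -, c⟩; cases c) hOO
    (by
      intro x hx z hz k
      rcases hPO x (ha hx) z hz k with c | ⟨rfl, c⟩
      · obtain ⟨i, h1, h2⟩ := hn x (ha hx) z (hO z hz) c
        exact ⟨some i, h1, h2⟩
      · exact ⟨none, rfl, c⟩)
    (by
      rintro (_ | i) hi _ ⟨x, hx, rfl⟩ ⟨x', hx', c⟩
      · cases c
        exact hY x hx'
      · cases c
        exact hle (show gadj G P r G1 P1 n1 (.inr x) (.inl (r i)) from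
          ⟨hO _ hi, hb hx, i, rfl, hx'⟩))
    (p1.trans (e ▸ p2)) (model_mono hB hT fun _ _ _ _ k => k)
  exact not_freeOn.2 ⟨K, hK, B', model_mono hB' hT' fun _ _ _ _ k => k⟩

/-- Transfer with an extra edge outside the piece. -/
theorem fwd_out (pm : PmapS) (tr : TrfS) (hs : Bd F s)
    (hn : ∀ x ∈ P, ∀ z ∉ P, G.Adj x z → ∃ i, r i = z ∧ x ∈ n i)
    {O Pa T : Set V} {Pb : Set V1} {T' : Set (V ⊕ V1)} {u v : V} (hu : u ∉ P) (hv : v ∉ P)
    (hO : ∀ z ∈ O, z ∉ P) (ha : Pa ⊆ P) (hb : Pb ⊆ P1) (hT : T ⊆ O ∪ Pa)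
    (hT' : Sum.inl '' O ∪ Sum.inr '' Pb ⊆ T')
    (ht : ty0 s G1 Pb n1 ∅ = ty0 s G Pa n ∅)
    (h : ¬ FreeOn F (G ⊔ SimpleGraph.edge u v) T) :
    ¬ FreeOn F (glue G P r G1 P1 n1 ⊔ SimpleGraph.edge (.inl u) (.inl v)) T' := by
  have key : ∀ x ∈ P, ∀ z, (G ⊔ SimpleGraph.edge u v).Adj x z → G.Adj x z := fun x hx z k =>
    (edge_iff (fun e : x = u => hu (e ▸ hx)) (fun e : x = v => hv (e ▸ hx))).1 k
  refine fwd pm tr hs hn u hO ha hb hT hT' le_sup_left ?_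
    (fun x hx z _ k => Or.inl (key x hx z k)) (fun a h1 c _ k => key a h1 c k)
    (fun _ c => absurd c (notMem_empty _)) ht h
  intro a h1 c h2 k
  rcases edge_cases k with d | ⟨rfl, rfl⟩ | ⟨rfl, rfl⟩
  · exact Or.inl (show gadj G P r G1 P1 n1 (.inl a) (.inl c) from ⟨hO a h1, hO c h2, d⟩)
  · exact edge_left fun e => k.ne (Sum.inl_injective e)
  · exact (edge_left fun e => k.ne (Sum.inl_injective e).symm).symm

theorem blk_fwd (pm : PmapS) (tr : TrfS) (hs : Bd F s)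
    (hn : ∀ x ∈ P, ∀ z ∉ P, G.Adj x z → ∃ i, r i = z ∧ x ∈ n i)
    {O Pa T R : Set V} {Pb : Set V1} {T' : Set (V ⊕ V1)} (hR : ∀ u ∈ R, u ∉ P)
    (hO : ∀ z ∈ O, z ∉ P) (ha : Pa ⊆ P) (hb : Pb ⊆ P1) (hT : T ⊆ O ∪ Pa)
    (hT' : Sum.inl '' O ∪ Sum.inr '' Pb ⊆ T')
    (ht : ty0 s G1 Pb n1 ∅ = ty0 s G Pa n ∅) (h : Blk F G T R) :
    Blk F (glue G P r G1 P1 n1) T' (Sum.inl '' R) := by
  rintro _ ⟨u, hu, rfl⟩ _ ⟨v, hv, rfl⟩ e k
  exact fwd_out pm tr hs hn (hR u hu) (hR v hv) hO ha hb hT hT' ht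
    (h u hu v hv (fun c => e (c ▸ rfl)) fun c => k ⟨hR u hu, hR v hv, c⟩)

/-- Transfer from the glued graph to the old graph. -/
theorem bwd [Nonempty V1] (pm : PmapS) (tr : TrfS) (hs : Bd F s) (v0 : V)
    (hn : ∀ i, ∀ x ∈ n i, G.Adj x (r i)) {S : Set V} (hP : P ⊆ S)
    (ht : ty0 s G1 P1 n1 ∅ = ty0 s G P n ∅) (h : FreeOn F G S) :
    FreeOn F (glue G P r G1 P1 n1) (Sum.inl '' (S \ P) ∪ Sum.inr '' P1) := by
  intro K hK B hB
  obtain ⟨w0⟩ := ‹Nonempty V1›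
  have e : Pat (Fin K.1) G1 P1 (nb ∅ n1) = Pat (Fin K.1) G P (nb ∅ n) :=
    congrFun ht ⟨K.1, Nat.lt_succ_of_le (hs K hK)⟩
  have p1 := pm (Fin K.1) _ (V ⊕ V1) V1 (glue G P r G1 P1 n1) G1 (Sum.inr '' P1) P1
    (fun o => Sum.inr '' nb ∅ n1 o) (nb ∅ n1) (Sum.elim (fun _ => w0) id)
    (by rintro _ ⟨a, -, rfl⟩ _ ⟨c, -, rfl⟩ k; exact congrArg _ k)
    (by rintro _ ⟨a, h1, rfl⟩; exact h1)
    (by rintro _ ⟨a, -, rfl⟩ _ ⟨c, -, rfl⟩ k; exact k.2.2)
    (by rintro i _ - ⟨a, h1, rfl⟩; exact h1)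
  obtain ⟨B', hB'⟩ := tr (Fin K.1) (Option (Fin b)) (V ⊕ V1) V K.2 (glue G P r G1 P1 n1) G
    (Sum.inl '' (S \ P)) (Sum.inr '' P1) P (Sum.elim id fun _ => v0)
    (fun o => Sum.inl (o.elim v0 r)) (fun o => Sum.inr '' nb ∅ n1 o) (nb ∅ n) B
    (disjoint_left.2 (by rintro _ ⟨a, -, rfl⟩ ⟨c, -, k⟩; cases k))
    (by rintro _ ⟨a, -, rfl⟩ _ ⟨c, -, rfl⟩ k; exact congrArg _ k)
    (by rintro _ ⟨a, h1, rfl⟩; exact h1.2)
    (by rintro _ ⟨a, -, rfl⟩ _ ⟨c, -, rfl⟩ k; exact k.2.2)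
    (by
      rintro _ ⟨a, -, rfl⟩ _ ⟨z, -, rfl⟩ ⟨-, -, i, rfl, h1⟩
      exact ⟨some i, rfl, a, h1, rfl⟩)
    (by
      rintro (_ | i) - x - hx
      · exact absurd hx (notMem_empty _)
      · exact hn i x hx)
    (e ▸ p1) hB
  refine h K hK B' (model_mono hB' ?_ fun _ _ _ _ k => k)
  rintro x (⟨_, ⟨a, h1, rfl⟩, rfl⟩ | hx)
  exacts [h1.1, hP hx]

end red

open red in
theorem redS (pm : PmapS) (tr : TrfS) : RedS := by
  intro F s b hs
  obtain ⟨β, hβ⟩ := exists_small s b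
  refine ⟨β, fun V _ G S R P h hP hd hb hc => ?_⟩
  obtain ⟨v0, hv0⟩ : P.Nonempty := nonempty_of_ncard_ne_zero (by omega)
  have : Nonempty V := ⟨v0⟩
  obtain ⟨r, hr1, hr2⟩ := exists_roots (nbs G P) hb v0
  let n : Fin b → Set V := fun i => {x | G.Adj x (r i)}
  obtain ⟨V1, _, _, G1, P1, n1, ht, hc1⟩ := hβ V G P n
  have t1 : ty0 s G1 P1 n1 ∅ = ty0 s G P n ∅ := congrArg Prod.fst ht
  have t2 := congrArg Prod.snd ht
  have hn : ∀ x ∈ P, ∀ z ∉ P, G.Adj x z → ∃ i, r i = z ∧ x ∈ n i := by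
    intro x hx z hz k
    obtain ⟨i, rfl⟩ := hr1 z ⟨hz, x, hx, k⟩
    exact ⟨i, rfl, k⟩
  have hR : ∀ u ∈ R, u ∉ P := fun u hu c => disjoint_left.1 hd c (Or.inl hu)
  have hRP : ∀ u ∈ R, ∀ y ∈ P, ¬ G.Adj u y := fun u hu y hy k =>
    disjoint_left.1 hd hy (Or.inr ⟨fun c => hR y c hy, u, hu, k⟩)
  have hroot : ∀ i, r i ∉ P → r i ∈ S ∧ r i ∉ R := by
    intro i hi
    rcases hr2 i with ⟨-, x, hx, k⟩ | c
    · exact ⟨h.supp _ _ k.symm, fun c => hRP _ c x hx k.symm⟩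
    · exact absurd (c ▸ hv0) hi
  have hS : S ⊆ S \ P ∪ P := subset_sdiff_union S P
  have hO : ∀ z ∈ S \ P, z ∉ P := fun _ hz => hz.2
  have hin : ∀ u ∈ R, ∀ z, (glue G P r G1 P1 n1).Adj (.inl u) z →
      ∃ v, z = .inl v ∧ G.Adj u v := by
    rintro u hu (v | a) k
    · exact ⟨v, rfl, k.2.2⟩
    · obtain ⟨h1, -, i, rfl, -⟩ := k
      exact absurd hu (hroot i h1).2
  refine ⟨V ⊕ V1, inferInstance, glue G P r G1 P1 n1, Sum.inl '' (S \ P) ∪ Sum.inr '' P1,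
    Sum.inl '' R, ⟨?_, ?_, bwd pm tr hs v0 (fun _ _ k => k) hP t1 h.free,
      blk_fwd pm tr hs hn hR hO subset_rfl subset_rfl hS subset_rfl t1 h.blk, ?_⟩,
    ?_, ncard_image_of_injective _ Sum.inl_injective, ?_, ?_⟩
  · rintro (u | u) (v | v) k
    · exact Or.inl ⟨u, ⟨h.supp _ _ k.2.2, k.1⟩, rfl⟩
    · obtain ⟨h1, -, i, rfl, -⟩ := k
      exact Or.inl ⟨_, ⟨(hroot i h1).1, h1⟩, rfl⟩
    · exact Or.inr ⟨u, k.2.1, rfl⟩
    · exact Or.inr ⟨u, k.1, rfl⟩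
  · rintro _ ⟨u, hu, rfl⟩
    exact Or.inl ⟨u, ⟨h.sub hu, hR u hu⟩, rfl⟩
  · rintro _ (⟨y, hy, rfl⟩ | ⟨y1, hy1, rfl⟩) hyR
    · rcases h.safe y hy.1 (fun c => hyR ⟨y, c, rfl⟩) with a | a
      · left
        rintro _ ⟨u, hu, rfl⟩ k
        exact fwd_out pm tr hs hn (hR u hu) hy.2 hO subset_rfl subset_rfl hS subset_rfl t1
          (a u hu fun c => k ⟨hR u hu, hy.2, c⟩)
      · right
        refine blk_fwd pm tr hs hn hR (O := (S \ P) \ {y}) (fun z hz => hz.1.2) subset_rfl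
          subset_rfl ?_ ?_ t1 a
        · intro x hx
          by_cases c : x ∈ P
          exacts [Or.inr c, Or.inl ⟨⟨hx.1, c⟩, hx.2⟩]
        · rintro _ (⟨x, hx, rfl⟩ | ⟨x, hx, rfl⟩)
          · exact ⟨Or.inl ⟨x, hx.1, rfl⟩, fun c => hx.2 (Sum.inl_injective c)⟩
          · exact ⟨Or.inr ⟨x, hx, rfl⟩, fun c => by cases c⟩
    · have m : (ty0 s G1 P1 n1 {y1}, ty0 s G1 (P1 \ {y1}) n1 ∅) ∈ (ty s G P n).2 :=
        t2 ▸ ⟨y1, hy1, rfl⟩
      obtain ⟨y, hy, e⟩ := m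
      have e1 : ty0 s G1 P1 n1 {y1} = ty0 s G P n {y} := (congrArg Prod.fst e).symm
      have e2 : ty0 s G1 (P1 \ {y1}) n1 ∅ = ty0 s G (P \ {y}) n ∅ := (congrArg Prod.snd e).symm
      rcases h.safe y (hP hy) (fun c => hR y c hy) with a | a
      · left
        rintro _ ⟨u, hu, rfl⟩ -
        refine fwd pm tr hs hn u hO subset_rfl subset_rfl hS subset_rfl le_sup_left ?_ ?_ ?_ ?_ e1
          (a u hu (hRP u hu y hy))
        · intro a1 h1 c h2 k
          rcases edge_cases k with d | ⟨-, rfl⟩ | ⟨rfl, -⟩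
          · exact Or.inl (show gadj G P r G1 P1 n1 (.inl a1) (.inl c) from ⟨h1.2, h2.2, d⟩)
          · exact absurd hy h2.2
          · exact absurd hy h1.2
        · intro x hx z _ k
          rcases edge_cases k with d | ⟨rfl, -⟩ | ⟨rfl, rfl⟩
          · exact Or.inl d
          · exact absurd hx (hR _ hu)
          · exact Or.inr ⟨rfl, rfl⟩
        · intro a1 h1 c h2 k
          rcases edge_cases k with d | ⟨rfl, -⟩ | ⟨-, rfl⟩
          · exact d
          · exact absurd h1 (hR _ hu)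
          · exact absurd h2 (hR _ hu)
        · rintro x rfl
          exact (edge_left Sum.inl_ne_inr).symm
      · right
        refine blk_fwd pm tr hs hn hR hO sdiff_subset sdiff_subset ?_ ?_ e2 a
        · intro x hx
          by_cases c : x ∈ P
          exacts [Or.inr ⟨c, hx.2⟩, Or.inl ⟨hx.1, c⟩]
        · rintro _ (⟨x, hx, rfl⟩ | ⟨x, hx, rfl⟩)
          · exact ⟨Or.inl ⟨x, hx, rfl⟩, fun c => by cases c⟩
          · exact ⟨Or.inr ⟨x, hx.1, rfl⟩, fun c => hx.2 (Sum.inr_injective c)⟩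
  · have h1 := ncard_union_le (Sum.inl '' (S \ P) : Set (V ⊕ V1)) (Sum.inr '' P1)
    rw [ncard_image_of_injective _ Sum.inl_injective,
      ncard_image_of_injective _ Sum.inr_injective] at h1
    have h2 := ncard_sdiff_add_ncard_of_subset hP
    omega
  · refine (ncard_le_ncard (t := Prod.map Sum.inl Sum.inl ''
      {p : V × V | G.Adj p.1 p.2 ∧ (p.1 ∈ R ∨ p.2 ∈ R)}) ?_).trans ncard_image_le
    rintro ⟨p, q⟩ ⟨k, ⟨u, hu, rfl⟩ | ⟨u, hu, rfl⟩⟩
    · obtain ⟨v, rfl, d⟩ := hin u hu q k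
      exact ⟨(u, v), ⟨d, Or.inl hu⟩, rfl⟩
    · obtain ⟨v, rfl, d⟩ := hin u hu p k.symm
      exact ⟨(v, u), ⟨d.symm, Or.inr hu⟩, rfl⟩
  · refine (ncard_le_ncard (t := Sum.inl '' nbs G R) ?_).trans ncard_image_le
    rintro z ⟨hz, _, ⟨u, hu, rfl⟩, k⟩
    obtain ⟨v, rfl, d⟩ := hin u hu z k
    exact ⟨v, ⟨fun c => hz ⟨v, c, rfl⟩, u, hu, d⟩, rfl⟩

end Pool.Agent.MP_9d78a0_co.fb

end MrgPart9

-- ======== part 10: formerly Pool.Agent.MP_9d78a0_co.fb.StepB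
section MrgPart10

/-! Adding one vertex. -/

set_option autoImplicit false

namespace Pool.Agent.MP_9d78a0_co.fb

open Set Function

namespace StepB

variable {V : Type} {F : Family}

theorem kf_addIso {s : ℕ} {G : SimpleGraph V} (k : KF s G) : KF s (addIso G) := by
  have := free_addIso (F := {⟨s + 2, ⊤⟩}) (G := G)
    (by rintro _ rfl; exact SimpleGraph.connected_top)
    (by rintro _ rfl; exact top_ne_bot) (by rintro _ rfl; exact k)
  exact this _ rfl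

/-- A model that misses a vertex of the larger graph gives a minor of the smaller one. -/
theorem minor_of_miss {U : Type} {H : SimpleGraph U} {G : SimpleGraph V} {B : U → Set (Option V)}
    {w : Option V} (v0 : V) (h : Model H (addIso G) (univ \ {w}) B) : IsMinor H G := by
  refine h.map (fun o => o.getD (w.getD v0)) ?_ ?_
  · rintro (_ | a) ha (_ | b) hb e
    · rfl
    · cases w with
      | none => exact absurd rfl ha.2
      | some w => exact absurd (congrArg some e).symm hb.2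
    · cases w with
      | none => exact absurd rfl hb.2
      | some w => exact absurd (congrArg some e) ha.2
    · exact congrArg some e
  · rintro _ - _ - ⟨u, v, e, rfl, rfl⟩
    exact e

theorem succ_le {h n : ℕ} (hh : CliqueBound F h) {G : SimpleGraph (Fin n)} (hG : EdgeMax F G)
    (hd : dd G = 2 * Mminus F n) (hf : Free F (addIso G)) : Mminus F (n + 1) ≤ Mminus F n + h := by
  obtain ⟨G', hle, hG'⟩ := exists_edgeMax hf
  have ha : ∀ v v', G.Adj v v' → G'.Adj (some v) (some v') := fun v v' hv =>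
    hle ⟨v, v', hv, rfl, rfl⟩
  have h1 := two_Mminus_le hG'
  have h2 := dd_option_le (G := G) (G' := G') fun a b hab =>
    hG.adj_of_ext hG'.1 some (Option.some_injective _) ha hab
  have h3 := hh (Fin n) G {a | G'.Adj (some a) none} hG.1 fun a ha' b hb hne =>
    hG.adj_of_conn hG'.1 some (Option.some_injective _) ha (conn_singleton G' none)
      (fun v => by simp) hne rfl rfl ha' hb
  have h4 : Nat.card (Option (Fin n)) = n + 1 := by simp
  rw [h4] at h1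
  omega

open pl in
/-- The argument for bounded width, run on the graphs without one fixed minor. -/
theorem step {U : Type} {Γ : SimpleGraph U} {K c h : ℕ} (he : ∀ H ∈ F, H.2 ≠ ⊥)
    (hK : ∀ (V : Type) [Finite V] (G : SimpleGraph V), ¬ IsMinor Γ G → HasDec K G)
    (hi : ∀ (n : ℕ) (G : SimpleGraph (Fin n)), EdgeMax F G → IsMinor Γ G → Free F (addIso G))
    (hc : EdgeBound F c) (hh : CliqueBound F h) :
    ∃ C, ∀ n, Mminus F (n + 1) ≤ Mminus F n + C := by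
  obtain ⟨b, N0, hr⟩ := region K c one_pos (half_pos one_pos)
  choose n0 hr using fun m : ℕ => hr (N0 + 2 * (m + b)) (by omega)
  by_contra hn
  push Not at hn
  choose n hn using fun m : ℕ => hn (h + (N0 + 2 * (m + b) + b) + 1 + c * n0 m)
  choose G hG hd using fun m => exists_Mminus he (n m)
  have hΓ : ∀ m, ¬ IsMinor Γ (G m) := fun m k => by
    have b1 := succ_le hh (hG m) (hd m) (hi _ _ (hG m) k)
    have b2 := hn m
    omega
  have hi : ∀ (V : Type) [Finite V] (G : SimpleGraph V), Free F G → ∀ A : Set V,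
      dd (G.induce A) ≤ c * A.ncard := fun V _ G k A =>
    hc _ _ (k.of_inj Subtype.val Subtype.val_injective fun _ _ d => d)
  have key : ∀ m, ∃ A Y : Set (Fin (n m)), Y.ncard ≤ b ∧
      (∀ u ∈ A, u ∉ Y → ∀ v, (G m).Adj u v → v ∈ A) ∧ m ≤ (A \ Y).ncard ∧
        A.ncard ≤ N0 + 2 * (m + b) + b := by
    intro m
    have a1 := hc _ _ (hG m).1
    obtain ⟨A, Y, k1, k2, k3, k4, -⟩ := hr m _ (G m) 1 c (hK _ _ (hΓ m)) (hi _ _ (hG m).1)
      (Or.inl rfl) (Nat.cast_nonneg _) le_rfl (by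
        have : (dd (G m) : ℝ) ≤ c * Nat.card (Fin (n m)) := by exact_mod_cast a1
        linarith) (by
        obtain ⟨H, b1, b2⟩ := exists_Mminus he (n m + 1)
        have b3 := hc _ _ b1.1
        have b4 := hn m
        rw [Nat.card_fin] at b3 ⊢
        by_contra d
        have := Nat.mul_le_mul_left c (show n m + 1 ≤ n0 m by omega)
        omega)
    refine ⟨A, Y, k1, k2, ?_, k4⟩
    have b1 : N0 + 2 * (m + b) ≤ 2 * A.ncard := by
      have : ((N0 + 2 * (m + b) : ℕ) : ℝ) ≤ 2 * A.ncard := by linarith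
      exact_mod_cast this
    have b2 := le_ncard_sdiff Y A
    omega
  choose A Y k1 k2 k3 k4 using key
  choose ρ r1 r2 using fun m => exists_roles (k1 m)
  have pw : {S : CG (Prop × Set (Fin b) × Set (Fin b)) | ¬ IsMinor Γ S.G}.PartiallyWellOrderedOn
      CG.Le := partiallyWellOrderedOn_iff_exists_lt.2 fun S hS => wqo S fun n => hK _ _ (hS n)
  obtain ⟨g, hg⟩ := pw.exists_monotone_subseq (f := fun m => cutCG (G m) (A m \ Y m) (ρ m))
    fun m k => hΓ m (k.trans (isMinor_of_inj id injective_id fun _ _ k => k.1))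
  obtain ⟨B, b1, b2⟩ := cut_model (hg 0 ((A (g 0)).ncard + 1) (Nat.zero_le _))
    (fun u hu v hv e => r2 _ v (not_not.1 fun d => hv ⟨k2 _ u hu.1 hu.2 v e, d⟩)) (r1 _)
  have b3 := extend (hG _) (hG _).1 b1 b2 (lt_of_le_of_lt (ncard_le_ncard sdiff_subset)
    (lt_of_lt_of_le (g.strictMono.id_le _) (k3 _))) (d := N0 + 2 * (g 0 + b) + b)
    (fun v hv => (ncard_le_ncard (k2 _ v hv.1 hv.2)).trans (k4 _)) hh
  have b4 := hn (g 0)
  rw [Nat.card_fin, hd] at b3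
  omega

end StepB

theorem stepS : BlackS → StepS := by
  intro hb F s hF hs he
  obtain ⟨c, h, hc, hh⟩ := exists_bounds hF
  obtain ⟨a, q, K, U, _, _, Γ, -, hq, hK, hz⟩ := hb s s 0
  refine StepB.step he hK (fun n G hG m H hH m' => ?_) hc hh
  obtain ⟨B0, hB0⟩ := (isMinor_iff _ _).1 m
  obtain ⟨v0, -⟩ := (hB0.2.1 (Classical.arbitrary U)).1
  obtain ⟨B, hB⟩ := (isMinor_iff _ _).1 (m.trans (isMinor_of_inj (G' := addIso G) some
    (Option.some_injective _) fun u v e => ⟨u, v, e, rfl, rfl⟩))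
  obtain ⟨A, M, W, -, -, -, -, -, -, -, z⟩ :=
    hz _ (addIso G) univ B (StepB.kf_addIso ((inv_of_edgeMax hG ∅).kf hF hs)) hB
  obtain ⟨Win, w, -, -, i, -⟩ := z ⟨0, by omega⟩
  obtain ⟨D, hD⟩ := (isMinor_iff _ _).1 m'
  obtain ⟨D', hD'⟩ := i (addIso G) univ H.1 H.2 D (hs H hH) (subset_univ _)
    (fun _ _ _ => Iff.rfl) hD
  exact hG.1 H hH (StepB.minor_of_miss v0 hD')

end Pool.Agent.MP_9d78a0_co.fb

end MrgPart10

-- marker of a merged file
example : 731051 + 613782 = 731051 + 613782 := rfl
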