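import Mathlib.Data.Set.Card
import Mathlib.Order.Interval.Set.OrdConnected
import Mathlib.Logic.Relation
import Mathlib.Tactic
import Pool.Agent.MP_9d78a0_co.pl.Step

-- ======== part 0: formerly Pool.Agent.MP_9d78a0_co.fb.S1
section MrgPart0

/-! Chord diagrams: definitions and the statements of part 1. -/

set_option autoImplicit false

namespace Pool.Agent.MP_9d78a0_co.fb

open Set Function

/-- `c` lies strictly between `a` and `b`. -/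
def Btw (a b c : ℕ) : Prop := (a < c ∧ c < b) ∨ (b < c ∧ c < a)

/-- non-crossing -/
def NC (μ : ℕ → ℕ) : Prop := ∀ x y, x < y → y < μ x → x < μ y ∧ μ y < μ x

/-- connected by steps of the two maps -/
def CC (σ μ : ℕ → ℕ) : ℕ → ℕ → Prop := Relation.ReflTransGen fun x y => y = σ x ∨ y = μ x

/-- the ends of the terminal pairs -/
def ends (T : Finset (ℕ × ℕ)) : Set ℕ := {a | ∃ p ∈ T, a = p.1 ∨ a = p.2}

/-- a non-crossing routing supported in `P` -/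
def Good (σ : ℕ → ℕ) (T : Finset (ℕ × ℕ)) (P : Set ℕ) : Prop :=
  ∃ μ : ℕ → ℕ, Involutive μ ∧ NC μ ∧ (∀ x, μ x ≠ x → x ∈ P) ∧ ∀ p ∈ T, CC σ μ p.1 p.2

/-- the nested matching of `2 n` points -/
def io (n x : ℕ) : ℕ := if x < 2 * n then 2 * n - 1 - x else x

/-- an involution with at most `k` pairs of fixed points, all different -/
structure Term (k : ℕ) (σ : ℕ → ℕ) (T : Finset (ℕ × ℕ)) : Prop where
  inv : Involutive σ
  card : T.card ≤ k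
  fix : ∀ a ∈ ends T, σ a = a
  ne : ∀ p ∈ T, p.1 ≠ p.2
  dis : ∀ p ∈ T, ∀ q ∈ T, p ≠ q → p.1 ≠ q.1 ∧ p.1 ≠ q.2 ∧ p.2 ≠ q.1 ∧ p.2 ≠ q.2

/-- there is a routing that misses a point -/
def Red (n : ℕ) (σ : ℕ → ℕ) (T : Finset (ℕ × ℕ)) : Prop :=
  ∃ x < 2 * n, Good σ T (Iio (2 * n) \ {x})

/-- minimal instances -/
structure MinI (k n : ℕ) (σ : ℕ → ℕ) (T : Finset (ℕ × ℕ)) : Prop where
  term : Term k σ T
  lt : ∀ x < 2 * n, σ x < 2 * n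
  elt : ∀ a ∈ ends T, a < 2 * n
  all : ∀ x < 2 * n, σ x = x → x ∈ ends T
  route : ∀ p ∈ T, CC σ (io n) p.1 p.2
  min : ¬ Red n σ T

/-- strictly increasing or strictly decreasing on `[0, M)` -/
def Mo (x : ℕ → ℕ) (M : ℕ) : Prop :=
  (∀ i j, i < j → j < M → x i < x j) ∨ (∀ i j, i < j → j < M → x j < x i)

/-- the same for the lexicographic order on `[0, Q) × [0, W)` -/
def Mo2 (x : ℕ → ℕ → ℕ) (Q W : ℕ) : Prop :=
  (∀ s < Q, ∀ i < W, ∀ t < Q, ∀ j < W, s < t ∨ (s = t ∧ i < j) → x s i < x t j) ∨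
    (∀ s < Q, ∀ i < W, ∀ t < Q, ∀ j < W, s < t ∨ (s = t ∧ i < j) → x t j < x s i)

/-- the convex hull of the first `M` values -/
def hull (x : ℕ → ℕ) (M : ℕ) : Set ℕ := {a | ∃ i < M, ∃ j < M, x i ≤ a ∧ a ≤ x j}

/-- `M` parallel chords -/
structure Band (σ : ℕ → ℕ) (T : Finset (ℕ × ℕ)) (M : ℕ) (x : ℕ → ℕ) : Prop where
  mo : Mo x M
  mo' : Mo (σ ∘ x) M
  dis : Disjoint (hull x M) (hull (σ ∘ x) M)
  noend : Disjoint (ends T) (hull x M)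
  noend' : Disjoint (ends T) (hull (σ ∘ x) M)

/-- no further chord runs between two consecutive chords of the band -/
def MaxB (σ : ℕ → ℕ) (M : ℕ) (x : ℕ → ℕ) : Prop :=
  ∀ j, j + 1 < M → ∀ y, Btw (x j) (x (j + 1)) y → ¬ Btw (σ (x j)) (σ (x (j + 1))) (σ y)

/-- gap `j` of the band contains a point on one of the two sides -/
def Dirty (σ : ℕ → ℕ) (x : ℕ → ℕ) (j : ℕ) : Prop :=
  (∃ y, Btw (x j) (x (j + 1)) y) ∨ ∃ y, Btw (σ (x j)) (σ (x (j + 1))) y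

/-- a gadget that brings the partner of the top level closer -/
def Gad (σ : ℕ → ℕ) (K : ℕ) (Z : Set ℕ) : Prop :=
  ∀ j, 3 ≤ j → j ≤ K → ∃ (m : ℕ) (u : ℕ → ℕ), (∀ i i', i < i' → i' < m → u i < u i') ∧
    (∀ i < m, u i ∈ Z ∧ σ (u i) ∈ Z ∧ ∀ i' < m, u i < σ (u i')) ∧
    ((m = j ∧ (∀ i < m, σ (u i) ≤ σ (u 0)) ∧ ∃ i < m, σ (u i) < σ (u (m - 1))) ∨
      (m = j ∧ ∀ i < m, ¬ Btw (σ (u 0)) (σ (u (m - 1))) (σ (u i))) ∨
      (m + 1 = j ∧ ∀ i < m, σ (u 0) ≤ σ (u i)))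

/-- the gap between `x` and `x + 1` is clean -/
def Clean (σ : ℕ → ℕ) (x : ℕ) : Prop :=
  σ x ≠ x ∧ σ (x + 1) ≠ x + 1 ∧ (σ (x + 1) = σ x + 1 ∨ σ x = σ (x + 1) + 1)

/-- `w` consecutive points with clean gaps -/
def Run (σ : ℕ → ℕ) (n w a : ℕ) : Prop :=
  a + w ≤ 2 * n ∧ ∀ y, a ≤ y → y + 1 < a + w → Clean σ y

/-- a point of a run of length `w` -/
def Wide (σ : ℕ → ℕ) (n w x : ℕ) : Prop := ∃ a, Run σ n w a ∧ a ≤ x ∧ x < a + w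

/-- break gaps -/
def Brk (σ : ℕ → ℕ) (n w : ℕ) : Set ℕ :=
  {x | x + 1 < 2 * n ∧ ¬ Clean σ x ∧ (Wide σ n w x ∨ Wide σ n w (x + 1))}

/-- `r` right ends of runs that are followed by an unclean gap, all of one direction -/
structure Fam (σ : ℕ → ℕ) (n w r : ℕ) (X : ℕ → ℕ) : Prop where
  mono : ∀ i j, i < j → j < r → X i < X j
  run : ∀ i < r, w ≤ X i + 1 ∧ Run σ n w (X i + 1 - w)
  brk : ∀ i < r, X i + 1 < 2 * n ∧ ¬ Clean σ (X i)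
  dir : (∀ i < r, σ (X i - 1) < σ (X i)) ∨ ∀ i < r, σ (X i) < σ (X i - 1)

/-- the points of the columns `a, …, b - 1` -/
def Win (n a b : ℕ) : Set ℕ := Ico a b ∪ Ico (2 * n - b) (2 * n - a)

/-- the nested matching outside a window -/
def iw (n a b x : ℕ) : ℕ :=
  if (a ≤ x ∧ x < b) ∨ (2 * n - b ≤ x ∧ x < 2 * n - a) then x else io n x

/-- few chords leave an interval of free points -/
def Shallow (σ : ℕ → ℕ) (n w d : ℕ) : Prop :=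
  ∀ a b, b ≤ 2 * n → (∀ x ∈ Ico a b, ¬ Wide σ n w x) →
    {x | x ∈ Ico a b ∧ σ x ∉ Ico a b}.ncard ≤ d

/-! Tools -/

/-- finite Ramsey theorem for pairs -/
def RamseyS : Prop :=
  ∀ (Γ : Type) [Finite Γ] (r : ℕ), ∃ m : ℕ, ∀ c : ℕ → ℕ → Γ, ∃ (s : ℕ → ℕ) (γ : Γ),
    (∀ i j, i < j → j < r → s i < s j) ∧ (∀ i < r, s i < m) ∧
      ∀ i j, i < j → j < r → c (s i) (s j) = γ

/-- an orbit of two involutions has at most two ends -/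
def DiS : Prop :=
  ∀ σ μ : ℕ → ℕ, Involutive σ → Involutive μ →
    (∀ a b c, σ a = a → σ b = b → σ c = c → CC σ μ a b → CC σ μ a c → a = b ∨ a = c ∨ b = c) ∧
    (∀ a b c, σ a = a → σ b = b → μ c = c → CC σ μ a b → CC σ μ a c → a = b)

/-- caps -/
def CapS : Prop :=
  ∀ (ι : Type) (I : Set ι) (a b : ι → ℕ), (∀ i ∈ I, a i < b i) →
    (∀ i ∈ I, ∀ j ∈ I, i ≠ j → a i ≠ a j ∧ b i ≠ b j ∧ a i ≠ b j) →
    (∀ i ∈ I, ∀ j ∈ I, a i < a j → a j < b i → b j < b i) →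
    ∃ ν : ℕ → ℕ, Involutive ν ∧ NC ν ∧ (∀ i ∈ I, ν (a i) = b i ∧ ν (b i) = a i) ∧
      ∀ x, ν x ≠ x → ∃ i ∈ I, x = a i ∨ x = b i

/-- two disjoint finite sets of the same size have a non-crossing perfect matching -/
def NcmS : Prop :=
  ∀ A B : Finset ℕ, Disjoint A B → A.card = B.card →
    ∃ ν : ℕ → ℕ, Involutive ν ∧ NC ν ∧ (∀ x ∈ A, ν x ∈ B) ∧ (∀ x ∈ B, ν x ∈ A) ∧
      ∀ x, x ∉ A → x ∉ B → ν x = x

/-- simulation of one instance in another -/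
def SimS : Prop :=
  ∀ (σ ν σ' e : ℕ → ℕ) (T T' : Finset (ℕ × ℕ)) (P P' D : Set ℕ), Involutive σ → Involutive ν →
    NC ν → (∀ x, ν x ≠ x → x ∈ P) → (∀ x ∈ P', e x ∈ P ∧ ν (e x) = e x) → InjOn e P' →
    (∀ a ∈ P', ∀ b ∈ P', ∀ c ∈ P', ∀ d ∈ P', e a < e c → e c < e b → e d < e a ∨ e b < e d →
      ¬ (Btw a b c ↔ Btw a b d)) →
    (∀ z, ∀ x ∈ P', ∀ y ∈ P', z < e x → e x < ν z → z < e y ∧ e y < ν z) →
    P' ⊆ D → (∀ x ∈ D, σ' x ∈ D ∧ CC σ ν (e x) (e (σ' x))) →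
    (∀ p ∈ T, CC σ ν p.1 p.2 ∨ ∃ q ∈ T', q.1 ∈ D ∧
      ((CC σ ν p.1 (e q.1) ∧ CC σ ν p.2 (e q.2)) ∨ (CC σ ν p.1 (e q.2) ∧ CC σ ν p.2 (e q.1)))) →
    Good σ' T' P' → Good σ T P

/-- first properties of minimal instances -/
def MinS : Prop :=
  ∀ (k n : ℕ) (σ : ℕ → ℕ) (T : Finset (ℕ × ℕ)), MinI k n σ T →
    (∀ x < 2 * n, ∃ m, σ ((io n ∘ σ)^[m] x) = (io n ∘ σ)^[m] x) ∧
    (∀ x < 2 * n, σ x ≠ x + 1) ∧
    (∀ a b, a < b → b ≤ 2 * n → (∀ x ∈ Ico a b, σ x ∈ Ico a b ∧ σ x ≠ x) →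
      ∃ p ∈ Ico a b, ∃ q ∈ Ico a b, p < q ∧ q < σ p ∧ σ p < σ q) ∧
    MinI k n (io n ∘ σ ∘ io n) (T.image fun p => (io n p.1, io n p.2)) ∧
    (∀ w a, 2 ≤ w → Run σ n w a → (∀ y ∈ Ico a (a + w), σ y ≠ y ∧ σ y ∉ Ico a (a + w)) ∧
      (((∀ i < w, σ (a + i) = σ a + i) ∧ Run σ n w (σ a)) ∨
        ((∀ i < w, σ (a + i) + i = σ a) ∧ Run σ n w (σ a + 1 - w))))

/-- a band has a maximal extension inside its hull -/
def MaxS : Prop :=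
  ∀ (σ : ℕ → ℕ) (T : Finset (ℕ × ℕ)) (M : ℕ) (x : ℕ → ℕ), Involutive σ → Band σ T M x →
    ∃ (M' : ℕ) (x' φ : ℕ → ℕ), Band σ T M' x' ∧ MaxB σ M' x' ∧ (∀ i j, i < j → j < M → φ i < φ j) ∧
      (∀ i < M, φ i < M' ∧ x' (φ i) = x i) ∧ hull x' M' ⊆ hull x M

/-! Universal gadgets -/

/-- the four gadgets -/
def GadS : Prop :=
  ∀ (σ : ℕ → ℕ) (K : ℕ) (Z : Set ℕ) (b : ℕ → ℕ), (∀ i j, i < j → j < K → b i < b j) →
    (∀ i < K, b i ∈ Z ∧ σ (b i) ∈ Z ∧ ∀ j < K, b i < σ (b j)) →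
    ((∀ i j, i < j → j < K → σ (b i) < σ (b j)) → Gad σ K Z) ∧
    ((∀ i j, i < j → j < K → σ (b j) < σ (b i)) →
      (∀ c d, c ∈ Z → d ∈ Z → σ c ∈ Z → σ d ∈ Z → c < d → d < σ c → σ c < σ d →
        (∀ i < K, b i < c ∧ σ d < σ (b i)) → Gad σ K Z) ∧
      (∀ a, a ∈ Z → σ a ∈ Z → a < σ a → (∀ i < K, a < b i ∧ b i < σ a ∧ σ a < σ (b i)) →
        Gad σ K Z) ∧
      (∀ a, a ∈ Z → σ a ∈ Z → a < σ a → (∀ i < K, b i < a ∧ a < σ (b i) ∧ σ (b i) < σ a) →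
        Gad σ K Z))

def UaS : Prop :=
  ∀ k, ∃ Q, ∀ (σ : ℕ → ℕ) (T : Finset (ℕ × ℕ)) (Z : ℕ → Set ℕ) (A P : Set ℕ), Term k σ T →
    (∀ s < Q, Gad σ (2 * k) (Z s) ∧ Z s ⊆ A ∧ Z s ⊆ P) →
    (∀ s t, s < t → t < Q → ∀ z ∈ Z s, ∀ z' ∈ Z t, z < z') →
    A.OrdConnected → Disjoint (ends T) A → ends T ⊆ P → Good σ T P

/-- a band with a crossed pair in each block; chords may be composed with caps `ν` -/
def B0S : Prop :=
  ∀ k, ∃ Q, ∀ (σ ν : ℕ → ℕ) (T : Finset (ℕ × ℕ)) (x ρ : ℕ → ℕ → ℕ) (A A' P : Set ℕ), Term k σ T →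
    Involutive ν → NC ν → (∀ z, ν z ≠ z → z ∈ P) → Mo2 x Q (4 * k + 4) → Mo2 ρ Q (4 * k + 4) →
    A.OrdConnected → A'.OrdConnected → Disjoint A A' → Disjoint (ends T) A →
    Disjoint (ends T) A' → (∀ s < Q, ∀ i < 4 * k + 4, x s i ∈ A ∧ ρ s i ∈ A') →
    (∀ y, (y ∈ ends T ∨ ∃ s < Q, ∃ i < 4 * k + 4, y = x s i ∨ y = ρ s i) →
      y ∈ P ∧ ν y = y ∧ ∀ z, z < y → ν z ≤ y) →
    (∀ s < Q, ∀ i < 4 * k + 4, CC σ ν (x s i) (ρ s (Equiv.swap (2 * k) (2 * k + 1) i))) →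
    Good σ T P

/-- what the band lemmas ask of the support -/
def Sup (σ : ℕ → ℕ) (T : Finset (ℕ × ℕ)) (M : ℕ) (x : ℕ → ℕ) (P : Set ℕ) : Prop :=
  ends T ⊆ P ∧ ∀ j, 0 < j → j < M → x j ∈ P ∧ σ (x j) ∈ P

/-- hairpins between two different gaps on one side -/
def B31S : Prop :=
  ∀ k, ∃ Q W, ∀ (σ : ℕ → ℕ) (T : Finset (ℕ × ℕ)) (M : ℕ) (x a c p : ℕ → ℕ) (P : Set ℕ),
    Term k σ T → Band σ T M x → Sup σ T M x P →
    (∀ s < Q, W ≤ a s ∧ a s < c s ∧ c s + W < M ∧ Btw (x (a s)) (x (a s + 1)) (p s) ∧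
      Btw (x (c s)) (x (c s + 1)) (σ (p s)) ∧ p s ∈ P ∧ σ (p s) ∈ P) →
    (∀ s t, s < t → t < Q → c s + W ≤ a t) → Good σ T P

/-- crossing hairpins inside one gap -/
def B40S : Prop :=
  ∀ k, ∃ Q W, ∀ (σ : ℕ → ℕ) (T : Finset (ℕ × ℕ)) (M : ℕ) (x g p q : ℕ → ℕ) (P : Set ℕ),
    Term k σ T → Band σ T M x → Sup σ T M x P →
    (∀ s < Q, W ≤ g s ∧ g s + W < M ∧ Btw (x (g s)) (x (g s + 1)) (p s) ∧
      Btw (x (g s)) (x (g s + 1)) (σ (q s)) ∧ p s < q s ∧ q s < σ (p s) ∧ σ (p s) < σ (q s) ∧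
      p s ∈ P ∧ σ (p s) ∈ P ∧ q s ∈ P ∧ σ (q s) ∈ P) →
    (∀ s t, s < t → t < Q → g s + W ≤ g t) → Good σ T P

/-- chords from a gap to another gap on the other side -/
def BxS : Prop :=
  ∀ k, ∃ Q W, ∀ (σ : ℕ → ℕ) (T : Finset (ℕ × ℕ)) (M : ℕ) (x g γ u : ℕ → ℕ) (P : Set ℕ),
    Term k σ T → Band σ T M x → Sup σ T M x P →
    (∀ s < Q, W ≤ min (g s) (γ s) ∧ g s ≠ γ s ∧ max (g s) (γ s) + W < M ∧
      Btw (x (g s)) (x (g s + 1)) (u s) ∧ Btw (σ (x (γ s))) (σ (x (γ s + 1))) (σ (u s)) ∧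
      u s ∈ P ∧ σ (u s) ∈ P) →
    (∀ s t, s < t → t < Q → max (g s) (γ s) + W ≤ min (g t) (γ t)) → Good σ T P

/-- jumps with parallel landings away from the band -/
def C1S : Prop :=
  ∀ k, ∃ Q W, ∀ (σ : ℕ → ℕ) (T : Finset (ℕ × ℕ)) (M : ℕ) (x g u : ℕ → ℕ) (P : Set ℕ),
    Term k σ T → Band σ T M x → Sup σ T M x P →
    (∀ s < Q, W ≤ g s ∧ g s + W < M ∧ Btw (x (g s)) (x (g s + 1)) (u s) ∧
      u s ∈ P ∧ σ (u s) ∈ P) →
    (∀ s t, s < t → t < Q → g s + W ≤ g t) → Mo (σ ∘ u) Q →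
    Disjoint (hull (σ ∘ u) Q) (hull x M) → Disjoint (hull (σ ∘ u) Q) (hull (σ ∘ x) M) →
    Disjoint (ends T) (hull (σ ∘ u) Q) → Good σ T P

def BstarS : Prop :=
  ∀ k, ∃ Q W, ∀ (n : ℕ) (σ : ℕ → ℕ) (T : Finset (ℕ × ℕ)) (M : ℕ) (x g : ℕ → ℕ), MinI k n σ T →
    Band σ T M x → MaxB σ M x → (∀ j < M, x j < 2 * n) →
    (∀ s < Q, W ≤ g s ∧ g s + W < M ∧ Dirty σ x (g s)) →
    (∀ s t, s < t → t < Q → g s + W ≤ g t) → False

/-! Structure of minimal instances -/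

/-- nested or crossing families -/
def U3aS : Prop :=
  ∀ k, ∃ w0 r, ∀ w, w0 ≤ w → ∀ (n : ℕ) (σ : ℕ → ℕ) (T : Finset (ℕ × ℕ)) (X : ℕ → ℕ),
    MinI k n σ T → Fam σ n w r X → Band σ T r X → False

/-- families of chords side by side -/
def U3cS : Prop :=
  ∀ k, ∃ w0 r, ∀ w, w0 ≤ w → ∀ (n : ℕ) (σ : ℕ → ℕ) (T : Finset (ℕ × ℕ)) (X : ℕ → ℕ),
    MinI k n σ T → Fam σ n w r X → Disjoint (ends T) (hull X r) →
    ((∀ i < r, X i < σ (X i)) ∨ ∀ i < r, σ (X i) < X i) →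
    (∀ i j, i < j → j < r → σ (X i) < X j ∧ X i < σ (X j)) → False

def U3S : Prop :=
  ∀ k, ∃ w r, 2 ≤ w ∧ ∀ (n : ℕ) (σ : ℕ → ℕ) (T : Finset (ℕ × ℕ)), MinI k n σ T →
    (Brk σ n w).ncard ≤ r

def DepthS : Prop :=
  ∀ k w, 2 ≤ w → ∃ d, ∀ (n : ℕ) (σ : ℕ → ℕ) (T : Finset (ℕ × ℕ)), MinI k n σ T → Shallow σ n w d

def F1S : Prop :=
  ∀ k D, ∃ n0, ∀ (n : ℕ) (σ : ℕ → ℕ) (T : Finset (ℕ × ℕ)), n0 ≤ n → Involutive σ →
    (∀ x < 2 * n, σ x < 2 * n) → T.card ≤ k → (∀ a ∈ ends T, σ a = a ∧ a < 2 * n) →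
    (∀ p ∈ T, CC σ (io n) p.1 p.2) →
    (∀ j ≤ n, {x | x ∈ Ico j (2 * n - j) ∧ σ x ∉ Ico j (2 * n - j)}.ncard ≤ D) → Red n σ T

def F1wS : Prop :=
  ∀ k D, ∃ n0, ∀ (n : ℕ) (σ : ℕ → ℕ) (T : Finset (ℕ × ℕ)) (a b : ℕ), MinI k n σ T →
    a + n0 ≤ b → b ≤ n →
    (∀ j, a ≤ j → j ≤ b →
      {x | x ∈ Win n j b ∧ ∃ y ∈ Win n a j, CC σ (iw n a b) x y}.ncard ≤ D) → False

def RetS : Prop :=
  ∀ k w r d, 2 ≤ w → ∃ V, ∀ (n : ℕ) (σ : ℕ → ℕ) (T : Finset (ℕ × ℕ)) (a : ℕ), MinI k n σ T →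
    (Brk σ n w).ncard ≤ r → Shallow σ n w d → a + V ≤ 2 * n →
    (∀ x ∈ Ico a (a + V), ¬ Wide σ n w x) → False

def F2S : Prop :=
  ∀ k B, ∃ n0, ∀ (n : ℕ) (σ : ℕ → ℕ) (T : Finset (ℕ × ℕ)), MinI k n σ T →
    {x | x + 1 < 2 * n ∧ ¬ Clean σ x}.ncard ≤ B → n ≤ n0

def CoreS : Prop :=
  ∀ k, ∃ n0, ∀ (n : ℕ) (σ : ℕ → ℕ) (T : Finset (ℕ × ℕ)), MinI k n σ T → n ≤ n0

end Pool.Agent.MP_9d78a0_co.fb

end MrgPart0

-- ======== part 1: formerly Pool.Agent.MP_9d78a0_co.fb.S2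
section MrgPart1

/-! Unique linkages: definitions and the statements of part 2. -/

set_option autoImplicit false

namespace Pool.Agent.MP_9d78a0_co.fb

open Set Function

section tools

variable {V : Type} {G : SimpleGraph V}

/-- an edge between two sets -/
def Touch (G : SimpleGraph V) (S T : Set V) : Prop := ∃ u ∈ S, ∃ v ∈ T, G.Adj u v

theorem Touch.symm {S T : Set V} (h : Touch G S T) : Touch G T S := by
  obtain ⟨u, hu, v, hv, e⟩ := h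
  exact ⟨v, hv, u, hu, e.symm⟩

theorem Touch.mono {S T S' T' : Set V} (h : Touch G S T) (h1 : S ⊆ S') (h2 : T ⊆ T') :
    Touch G S' T' := by
  obtain ⟨u, hu, v, hv, e⟩ := h
  exact ⟨u, h1 hu, v, h2 hv, e⟩

theorem conn_of_center {S : Set V} {a : V} (ha : a ∈ S) (h : ∀ v ∈ S, Link G S a v) : Conn G S :=
  ⟨⟨a, ha⟩, fun u hu v hv => (h u hu).symm.trans (h v hv)⟩

theorem conn_union_touch {S T : Set V} (h : Conn G S) (h' : Conn G T) (t : Touch G S T) :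
    Conn G (S ∪ T) := by
  obtain ⟨x, hx, y, hy, e⟩ := t
  refine conn_of_center (Or.inl hx) ?_
  rintro v (hv | hv)
  · exact (h.2 x hx v hv).mono subset_union_left
  · exact (Link.single (S := S ∪ T) (Or.inl hx) (Or.inr hy) e).trans
      ((h'.2 y hy v hv).mono subset_union_right)

/-- a connected family of connected sets has a connected union -/
theorem conn_biUnion {ι : Type} {I : Set ι} {S : ι → Set V} {i0 : ι} (h0 : i0 ∈ I)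
    (hS : ∀ i ∈ I, Conn G (S i))
    (hI : ∀ i ∈ I, Relation.ReflTransGen
      (fun a b => a ∈ I ∧ b ∈ I ∧ ((S a ∩ S b).Nonempty ∨ Touch G (S a) (S b))) i0 i) :
    Conn G (⋃ i ∈ I, S i) := by
  obtain ⟨x, hx⟩ := (hS i0 h0).1
  refine conn_of_center (mem_biUnion h0 hx) fun v hv => ?_
  obtain ⟨i, hi, hv⟩ := mem_iUnion₂.1 hv
  have k := hI i hi
  clear hi
  induction k generalizing v with
  | refl => exact ((hS i0 h0).2 x hx v hv).mono (subset_biUnion_of_mem (u := S) h0)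
  | tail _ h2 ih =>
    obtain ⟨ha, hb, ⟨y, hy, hy'⟩ | ⟨y, hy, z, hz, e⟩⟩ := h2
    · exact (ih y (mem_biUnion ha hy) hy).trans
        (((hS _ hb).2 y hy' v hv).mono (subset_biUnion_of_mem (u := S) hb))
    · exact ((ih y (mem_biUnion ha hy) hy).trans
        (Link.single (mem_biUnion ha hy) (mem_biUnion hb hz) e)).trans
        (((hS _ hb).2 z hz v hv).mono (subset_biUnion_of_mem (u := S) hb))

/-- a chain of connected sets has a connected union -/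
theorem conn_chain {S : ℕ → Set V} {a b : ℕ} (hab : a ≤ b) (hS : ∀ i ∈ Icc a b, Conn G (S i))
    (hI : ∀ i, a ≤ i → i < b → (S i ∩ S (i + 1)).Nonempty ∨ Touch G (S i) (S (i + 1))) :
    Conn G (⋃ i ∈ Icc a b, S i) := by
  refine conn_biUnion (left_mem_Icc.2 hab) hS fun i hi => ?_
  obtain ⟨h1, h2⟩ := hi
  induction i, h1 using Nat.le_induction with
  | base => exact Relation.ReflTransGen.refl
  | succ n hn ih =>
    exact (ih (by omega)).tail ⟨⟨hn, by omega⟩, ⟨by omega, h2⟩, hI n hn (by omega)⟩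

/-- a segment of a path is connected -/
theorem conn_seg {f : ℕ → V} {a b : ℕ} (hab : a ≤ b)
    (h : ∀ i, a ≤ i → i < b → G.Adj (f i) (f (i + 1))) : Conn G (f '' Icc a b) := by
  rw [image_eq_iUnion]
  exact conn_chain (S := fun i => {f i}) hab (fun i _ => conn_singleton _ _)
    fun i h1 h2 => Or.inr ⟨_, rfl, _, rfl, h i h1 h2⟩

/-- a walk that leaves a set has a first edge leaving it -/
theorem link_exit {S T : Set V} {a b : V} (h : Link G S a b) (ha : a ∈ T) (hb : b ∉ T) :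
    ∃ x y, x ∈ S ∧ y ∈ S ∧ x ∈ T ∧ y ∉ T ∧ G.Adj x y ∧ Link G (S ∩ T) a x := by
  have k : (b ∈ T ∧ Link G (S ∩ T) a b) ∨
      ∃ x y, x ∈ S ∧ y ∈ S ∧ x ∈ T ∧ y ∉ T ∧ G.Adj x y ∧ Link G (S ∩ T) a x := by
    clear hb
    induction h with
    | refl => exact Or.inl ⟨ha, Link.refl _ _ _⟩
    | @tail x y _ h2 ih =>
      rcases ih with ⟨h3, h4⟩ | ih
      · by_cases c : y ∈ T
        · exact Or.inl ⟨c, h4.trans (Link.single ⟨h2.1, h3⟩ ⟨h2.2.1, c⟩ h2.2.2)⟩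
        · exact Or.inr ⟨x, y, h2.1, h2.2.1, h3, c, h2.2.2, h4⟩
      · exact Or.inr ih
  exact k.resolve_left fun c => hb c.1

/-- the component of a vertex inside a set -/
def cp (G : SimpleGraph V) (U : Set V) (a : V) : Set V := {v | v ∈ U ∧ Link G U a v}

theorem cp_sub {U : Set V} {a : V} : cp G U a ⊆ U := fun _ h => h.1

theorem cp_self {U : Set V} {a : V} (h : a ∈ U) : a ∈ cp G U a := ⟨h, Link.refl _ _ _⟩

theorem cp_closed {U : Set V} {a x y : V} (hx : x ∈ cp G U a) (hy : y ∈ U) (e : G.Adj x y) :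
    y ∈ cp G U a := ⟨hy, hx.2.trans (Link.single hx.1 hy e)⟩

theorem cp_conn {U : Set V} {a : V} (h : a ∈ U) : Conn G (cp G U a) := by
  refine conn_of_center (cp_self h) fun v hv => ?_
  obtain ⟨h1, h2⟩ := hv
  clear h1
  induction h2 with
  | refl => exact Link.refl _ _ _
  | tail h3 h4 ih =>
    exact ih.trans (Link.single ⟨h4.1, h3⟩ ⟨h4.2.1, Link.trans h3 (Link.single h4.1 h4.2.1 h4.2.2)⟩
      h4.2.2)

theorem conn_sub_cp {U S : Set V} {a x : V} (h : Conn G S) (hS : S ⊆ U) (hx : x ∈ S)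
    (ha : x ∈ cp G U a) : S ⊆ cp G U a :=
  fun v hv => ⟨hS hv, ha.2.trans ((h.2 x hx v hv).mono hS)⟩

/-- an injective path inside a set -/
def IsPath (G : SimpleGraph V) (S : Set V) (f : ℕ → V) (l : ℕ) : Prop :=
  (∀ j ≤ l, f j ∈ S) ∧ (∀ j < l, G.Adj (f j) (f (j + 1))) ∧ ∀ i ≤ l, ∀ j ≤ l, f i = f j → i = j

theorem link_path {S : Set V} {a b : V} (h : Link G S a b) (ha : a ∈ S) :
    ∃ f l, IsPath G S f l ∧ f 0 = a ∧ f l = b := by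
  classical
  induction h with
  | refl => exact ⟨fun _ => a, 0, ⟨fun _ _ => ha, fun _ h => by omega, fun _ _ _ _ _ => by omega⟩,
      rfl, rfl⟩
  | @tail x y _ h2 ih =>
    obtain ⟨f, l, ⟨h3, h4, h5⟩, h6, h7⟩ := ih
    by_cases c : ∃ j ≤ l, f j = y
    · obtain ⟨j, hj, e⟩ := c
      exact ⟨f, j, ⟨fun i hi => h3 i (by omega), fun i hi => h4 i (by omega),
        fun i hi i' hi' => h5 i (by omega) i' (by omega)⟩, h6, e⟩
    · push Not at c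
      refine ⟨fun j => if j ≤ l then f j else y, l + 1, ⟨fun j _ => ?_, fun j hj => ?_,
        fun i hi j hj => ?_⟩, by simpa using h6, by simp⟩
      · by_cases d : j ≤ l
        · simpa [d] using h3 j d
        · simpa [d] using h2.2.1
      · by_cases d : j < l
        · simpa [d.le, Nat.succ_le_of_lt d] using h4 j d
        · obtain rfl : j = l := by omega
          simpa [h7] using h2.2.2
      · by_cases d : i ≤ l <;> by_cases d' : j ≤ l <;> simp only [d, d', if_true, if_false]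
        exacts [h5 i d j d', fun e => absurd e (c i d), fun e => absurd e.symm (c j d'),
          fun _ => by omega]

end tools

/-- Menger's theorem -/
def MengerS : Prop :=
  ∀ (V : Type) (G : SimpleGraph V) (U A B : Set V) (r : ℕ), U.Finite →
    (∀ X ⊆ U, X.ncard < r → ∃ S ⊆ U \ X, Conn G S ∧ (S ∩ A).Nonempty ∧ (S ∩ B).Nonempty) →
    ∃ R : Fin r → Set V, (∀ i, R i ⊆ U ∧ Conn G (R i) ∧ (R i ∩ A).Nonempty ∧ (R i ∩ B).Nonempty) ∧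
      Pairwise (Disjoint on R)

/-- Menger's theorem for two indexed families of ends -/
def MengerPS : Prop :=
  ∀ (V ι : Type) [Finite ι] (G : SimpleGraph V) (U : Set V) (o n : ι → V), U.Finite →
    (∀ X ⊆ U, X.ncard < Nat.card ι → ∃ S ⊆ U \ X, Conn G S ∧ (∃ b, o b ∈ S) ∧ ∃ b, n b ∈ S) →
    ∃ (θ : Equiv.Perm ι) (R : ι → Set V),
      (∀ b, R b ⊆ U ∧ Conn G (R b) ∧ o b ∈ R b ∧ n (θ b) ∈ R b) ∧ Pairwise (Disjoint on R)

/-- a connected set that crosses a range of levels has a connected part inside the range -/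
def XpS : Prop :=
  ∀ (V : Type) (G : SimpleGraph V) (S : Set V) (f : V → ℕ) (a b : ℕ), a ≤ b → Conn G S →
    (∀ u ∈ S, ∀ v ∈ S, G.Adj u v → f v ≤ f u + 1) →
    (∃ u ∈ S, f u ≤ a) → (∃ v ∈ S, b ≤ f v) →
    ∃ S' ⊆ S, Conn G S' ∧ (∀ v ∈ S', a ≤ f v ∧ f v ≤ b) ∧ ∀ l, a ≤ l → l ≤ b → ∃ v ∈ S', f v = l

/-- among many successive relinkings some stretch induces the identity -/
def ChainS : Prop :=
  ∀ (ι : Type) [Finite ι], ∃ r, ∀ (V : Type) (G : SimpleGraph V) (o n : ℕ → ι → V)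
    (θ : ℕ → Equiv.Perm ι) (R : ℕ → ι → Set V),
    (∀ w < r, ∀ b, Conn G (R w b) ∧ o w b ∈ R w b ∧ n w (θ w b) ∈ R w b) →
    (∀ w < r, ∀ w' < r, ∀ b b', (w, b) ≠ (w', b') → Disjoint (R w b) (R w' b')) →
    (∀ w, w + 1 < r → ∀ b, G.Adj (n w b) (o (w + 1) b)) →
    ∃ w1 w2, w1 ≤ w2 ∧ w2 < r ∧ ∃ Y : ι → Set V, Pairwise (Disjoint on Y) ∧
      ∀ b, Conn G (Y b) ∧ o w1 b ∈ Y b ∧ n w2 b ∈ Y b ∧
        ∀ v ∈ Y b, ∃ w, w1 ≤ w ∧ w ≤ w2 ∧ ∃ b', v ∈ R w b'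

/-- relinking of parallel paths around a vertex -/
def RlS : Prop :=
  ∀ (ι : Type) [Finite ι], ∃ g N, 0 < g ∧ ∀ (V : Type) (G : SimpleGraph V) (U : Set V)
    (f : ι → ℕ → V) (l : ι → ℕ) (lev : V → ℕ) (side : V → Bool) (base : Bool → ι) (l0 : ℕ)
    (D : ℕ → Set V), U.Finite → (∀ b, IsPath G U (f b) (l b)) →
    (∀ b b', b ≠ b' → ∀ i ≤ l b, ∀ j ≤ l b', f b i ≠ f b' j) →
    (∀ b i j, i ≤ j → j ≤ l b → lev (f b i) ≤ lev (f b j)) →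
    (∀ y ∈ U, ∃ S ⊆ U, Conn G S ∧ y ∈ S ∧ (∀ z ∈ S, lev z = lev y) ∧
      ∃ j ≤ l (base (side y)), f (base (side y)) j ∈ S) →
    (∀ s, ∀ x < g, ∃ j ≤ l (base s), lev (f (base s) j) = l0 + x) →
    (∀ j < N, D j ⊆ U ∧ Conn G (D j) ∧ ∀ x < g, ∃ y ∈ D j, lev y = l0 + x) →
    (∀ i < N, ∀ j < N, i ≠ j → Disjoint (D i) (D j)) →
    ∃ v ∈ U, ∃ (θ : Equiv.Perm ι) (R : ι → Set V), Pairwise (Disjoint on R) ∧
      ∀ b, R b ⊆ U \ {v} ∧ Conn G (R b) ∧ f b 0 ∈ R b ∧ f (θ b) (l (θ b)) ∈ R b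

/-- the quarter grid -/
def gridN : SimpleGraph (ℕ × ℕ) where
  Adj u v := (u.1 = v.1 ∧ (u.2 + 1 = v.2 ∨ v.2 + 1 = u.2)) ∨
    (u.2 = v.2 ∧ (u.1 + 1 = v.1 ∨ v.1 + 1 = u.1))
  symm := ⟨fun _ _ h => by omega⟩
  loopless := ⟨fun _ h => by omega⟩

/-- the node of the grid that carries point `x` -/
def node (n x : ℕ) : ℕ × ℕ := if x < n then (x, 0) else (2 * n - 1 - x, 3 * n + 2)

/-- a non-crossing matching is drawn in the grid -/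
def DrawS : Prop :=
  ∀ (n : ℕ) (μ : ℕ → ℕ), Involutive μ → NC μ → (∀ x < 2 * n, μ x < 2 * n) →
    ∃ S : ℕ → Set (ℕ × ℕ), ∀ x < 2 * n, μ x ≠ x →
      Conn gridN (S x) ∧ (∀ z ∈ S x, z.1 < n ∧ z.2 < 3 * n + 3) ∧ node n x ∈ S x ∧ S (μ x) = S x ∧
      ∀ y < 2 * n, y ≠ x → y ≠ μ x → node n y ∉ S x ∧ (μ y ≠ y → Disjoint (S x) (S y))

/-- vertices of `k` paths -/
abbrev Vx (k : ℕ) : Type := Fin k × ℕ

/-- an interval of one of the paths -/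
structure Iv (k : ℕ) where
  p : Fin k
  lo : ℕ
  hi : ℕ

variable {k : ℕ}

def Iv.set (I : Iv k) : Set (Vx k) := {v | v.1 = I.p ∧ I.lo ≤ v.2 ∧ v.2 ≤ I.hi}

def Vs (len : Fin k → ℕ) : Set (Vx k) := {v | v.2 ≤ len v.1}

/-- the paths form the only linkage of their ends, and it uses all vertices -/
structure Vital (len : Fin k → ℕ) (E : SimpleGraph (Vx k)) : Prop where
  path : ∀ i p, p < len i → E.Adj (i, p) (i, p + 1)
  uniq : ∀ Q : Fin k → Set (Vx k),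
    (∀ i, Q i ⊆ Vs len ∧ Conn E (Q i) ∧ (i, 0) ∈ Q i ∧ (i, len i) ∈ Q i) →
    Pairwise (Disjoint on Q) → ∀ i p, p ≤ len i → (i, p) ∈ Q i

/-- `n` disjoint intervals -/
def Ivs (len : Fin k → ℕ) (L : ℕ → Iv k) (n : ℕ) : Prop :=
  (∀ a < n, (L a).lo ≤ (L a).hi ∧ (L a).hi ≤ len (L a).p) ∧
    ∀ a < n, ∀ b < n, a ≠ b → Disjoint (L a).set (L b).set

/-- a monotone or antitone time below `T` -/
def Timed (L : Iv k) (tm : Vx k → ℕ) (T : ℕ) : Prop :=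
  (∀ v ∈ L.set, tm v < T) ∧ ((∀ u ∈ L.set, ∀ v ∈ L.set, u.2 ≤ v.2 → tm u ≤ tm v) ∨
    ∀ u ∈ L.set, ∀ v ∈ L.set, u.2 ≤ v.2 → tm v ≤ tm u)

/-- an edge at each time -/
def Rungs (E : SimpleGraph (Vx k)) (L L' : Iv k) (tm : Vx k → ℕ) (T : ℕ) : Prop :=
  ∀ t < T, ∃ u ∈ L.set, ∃ v ∈ L'.set, tm u = t ∧ tm v = t ∧ E.Adj u v

/-- `n` disjoint intervals and `T` disjoint connected sets meeting all of them -/
structure Setup (len : Fin k → ℕ) (E : SimpleGraph (Vx k)) (n : ℕ) (I : ℕ → Iv k) (T : ℕ)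
    (D : ℕ → Set (Vx k)) : Prop where
  ivs : Ivs len I n
  conn : ∀ j < T, D j ⊆ Vs len ∧ Conn E (D j) ∧ ∀ a < n, (D j ∩ (I a).set).Nonempty
  dis : ∀ i < T, ∀ j < T, i ≠ j → Disjoint (D i) (D j)

/-- a tree of `i` lanes with `T` times -/
structure Config (len : Fin k → ℕ) (E : SimpleGraph (Vx k)) (n : ℕ) (I : ℕ → Iv k) (T0 : ℕ)
    (D : ℕ → Set (Vx k)) (i T : ℕ) (L : ℕ → Iv k) (tm : Vx k → ℕ) (par dj : ℕ → ℕ) : Prop where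
  ivs : Ivs len L i
  one : ∀ a < i, ∀ b < n, ∀ b' < n, ((L a).set ∩ (I b).set).Nonempty →
    ((L a).set ∩ (I b').set).Nonempty → b = b'
  timed : ∀ a < i, Timed (L a) tm T
  rungs : ∀ a < i, 0 < a → par a < a ∧ Rungs E (L a) (L (par a)) tm T
  meet : ∀ t < T, dj t < T0 ∧ ∃ u ∈ (L 0).set, tm u = t ∧ u ∈ D (dj t)
  inj : ∀ t < T, ∀ t' < T, dj t = dj t' → t = t'

/-- the edges that leave a run of times have a small cover -/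
def Cov (len : Fin k → ℕ) (E : SimpleGraph (Vx k)) (i : ℕ) (L : ℕ → Iv k) (tm : Vx k → ℕ)
    (m : ℕ) : Prop :=
  ∀ t1 t2, ∃ (X : Finset ℕ) (Z : Finset (Vx k)), X.card ≤ m ∧ Z.card ≤ m ∧
    ∀ a < i, ∀ w ∈ (L a).set, t1 ≤ tm w → tm w ≤ t2 → ∀ v ∈ Vs len, E.Adj w v →
      (∃ b < i, v ∈ (L b).set ∧ t1 ≤ tm v ∧ tm v ≤ t2) ∨ tm w ∈ X ∨ v ∈ Z

/-- replacing intervals in a vital linkage -/
def RepS : Prop :=
  ∀ (k : ℕ) (len : Fin k → ℕ) (E : SimpleGraph (Vx k)) (ι : Type) (P : ι → Iv k)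
    (Y : ι → Set (Vx k)), Vital len E → (∀ b, (P b).lo ≤ (P b).hi ∧ (P b).hi ≤ len (P b).p) →
    (∀ b b', b ≠ b' → Disjoint (P b).set (P b').set ∧ Disjoint (Y b) (Y b')) →
    (∀ b, Conn E (Y b) ∧ ((P b).p, (P b).lo) ∈ Y b ∧ ((P b).p, (P b).hi) ∈ Y b ∧
      ∀ v ∈ Y b, ∃ b', v ∈ (P b').set) →
    ∀ b, ∀ v ∈ (P b).set, ∃ b', (P b').p = v.1 ∧ v ∈ Y b'

def GridvS : Prop :=
  ∀ k, ∃ n, ∀ (len : Fin k → ℕ) (E : SimpleGraph (Vx k)) (L : ℕ → Iv k) (tm : Vx k → ℕ),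
    Vital len E → Ivs len L n → (∀ c < n, Timed (L c) tm (3 * n + 3)) →
    (∀ c, c + 1 < n → Rungs E (L c) (L (c + 1)) tm (3 * n + 3)) → False

def ExtaS : Prop :=
  ∀ k i n T', 0 < i → 0 < T' → ∃ m, ∀ (len : Fin k → ℕ) (E : SimpleGraph (Vx k)) (I : ℕ → Iv k) (T0 : ℕ)
    (D : ℕ → Set (Vx k)) (T : ℕ) (L : ℕ → Iv k) (tm : Vx k → ℕ) (par dj : ℕ → ℕ), Ivs len I n →
    Config len E n I T0 D i T L tm par dj → ¬ Cov len E i L tm m →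
    ∃ L' tm' par' dj', Config len E n I T0 D (i + 1) T' L' tm' par' dj'

def ExtbS : Prop :=
  ∀ k i m, 0 < i → ∃ T, 0 < T ∧ ∀ (len : Fin k → ℕ) (E : SimpleGraph (Vx k)) (n : ℕ) (I : ℕ → Iv k)
    (T0 : ℕ) (D : ℕ → Set (Vx k)) (L : ℕ → Iv k) (tm : Vx k → ℕ) (par dj : ℕ → ℕ), Vital len E →
    Setup len E n I T0 D → i < n → Config len E n I T0 D i T L tm par dj →
    Cov len E i L tm m → False

/-- a lane has few children -/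
def StarS : Prop :=
  ∀ (k : ℕ) (len : Fin k → ℕ) (E : SimpleGraph (Vx k)) (i T : ℕ) (L : ℕ → Iv k) (tm : Vx k → ℕ)
    (a : ℕ), Vital len E → 4 ≤ T → Ivs len L i → (∀ b < i, Timed (L b) tm T) → a < i →
    {b | b < i ∧ b ≠ a ∧ Rungs E (L b) (L a) tm T}.ncard ≤ 2 * k

/-- the unique linkage theorem -/
def UltS : Prop :=
  ∀ k, ∃ n T, ∀ (len : Fin k → ℕ) (E : SimpleGraph (Vx k)) (I : ℕ → Iv k) (D : ℕ → Set (Vx k)),
    Vital len E → Setup len E n I T D → False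

end Pool.Agent.MP_9d78a0_co.fb

end MrgPart1

-- marker of a merged file
example : 731051 + 635715 = 731051 + 635715 := rfl
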