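import Pool.Agent.MP_9d78a0_co.gm.Map
import Pool.Agent.MP_9d78a0_co.fb.S2
import Pool.Agent.MP_9d78a0_co.fb.Conv

-- ======== part 0: formerly Pool.Agent.MP_9d78a0_co.fb.One
section MrgPart0

/-! One stage of the combing: from the rivers to the rails and back. -/

set_option autoImplicit false

namespace Pool.Agent.MP_9d78a0_co.fb

open Set Function

namespace OneAux

variable {V : Type} {G : SimpleGraph V}

theorem conn_inter {S T : Set V} (h : Conn G S) (h' : Conn G T) (t : (S ∩ T).Nonempty) :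
    Conn G (S ∪ T) := by
  obtain ⟨x, hx, hx'⟩ := t
  refine conn_of_center (Or.inl hx) ?_
  rintro v (hv | hv)
  · exact (h.2 x hx v hv).mono subset_union_left
  · exact (h'.2 x hx' v hv).mono subset_union_right

/-- a small set misses one member of a large disjoint family -/
theorem miss {κ : Type} [Finite V] {X : Set V} (S : κ → Set V) (hX : X.ncard < Nat.card κ)
    (hS : Pairwise (Disjoint on S)) : ∃ k, ∀ v ∈ S k, v ∉ X := by
  by_contra c
  push Not at c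
  choose x h1 h2 using c
  have inj : Injective (fun k => (⟨x k, h2 k⟩ : X)) := fun k k' e => by
    by_contra ne
    have e' : x k = x k' := congrArg Subtype.val e
    exact disjoint_left.1 (hS ne) (h1 k) (e' ▸ h1 k')
  have := Nat.card_le_card_of_injective _ inj
  rw [Nat.card_coe_set_eq] at this
  omega

/-- the first passage into a level -/
theorem first_hit (lv : ℕ → ℕ) (p q l : ℕ) (hs : ∀ u, p ≤ u → u < q → lv (u + 1) ≤ lv u + 1)
    (hpq : p ≤ q) (h1 : lv p < l) (h2 : l ≤ lv q) :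
    ∃ u, p ≤ u ∧ u < q ∧ lv (u + 1) = l ∧ lv u + 1 = l := by
  induction q, hpq using Nat.le_induction with
  | base => omega
  | succ q hq ih =>
    by_cases c : l ≤ lv q
    · obtain ⟨u, a1, a2, a3⟩ := ih (fun u h h' => hs u h (by omega)) c
      exact ⟨u, a1, by omega, a3⟩
    · have := hs q hq (by omega)
      exact ⟨q, hq, by omega, by omega, by omega⟩

/-- an initial segment below a level that reaches the level -/
theorem exists_first (lv : ℕ → ℕ) (L m : ℕ) (hs : ∀ u < L, lv (u + 1) ≤ lv u + 1)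
    (h0 : lv 0 ≤ m) (hL : m ≤ lv L) : ∃ f ≤ L, m ≤ lv f ∧ ∀ u ≤ f, lv u ≤ m := by
  classical
  have ex : ∃ f, f ≤ L ∧ m ≤ lv f := ⟨L, le_rfl, hL⟩
  obtain ⟨a1, a2⟩ := Nat.find_spec ex
  have k : ∀ u < Nat.find ex, lv u < m := fun u hu => by
    have := Nat.find_min ex hu
    omega
  refine ⟨Nat.find ex, a1, a2, fun u hu => ?_⟩
  rcases u with _ | u
  · exact h0
  · have := k u (by omega)
    have := hs u (by omega)
    omega

/-- the last index with level at most `m` -/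
theorem exists_last (lv : ℕ → ℕ) (L m : ℕ) (h0 : lv 0 ≤ m) (hL : m < lv L) :
    ∃ x < L, lv x ≤ m ∧ ∀ u, x < u → u ≤ L → m < lv u := by
  classical
  have a1 := Nat.findGreatest_spec (P := fun u => lv u ≤ m) (Nat.zero_le L) h0
  have a2 := Nat.findGreatest_le (P := fun u => lv u ≤ m) L
  refine ⟨Nat.findGreatest (fun u => lv u ≤ m) L, ?_, a1, fun u h1 h2 => ?_⟩
  · rcases a2.lt_or_eq with c | c
    · exact c
    · rw [c] at a1
      omega
  · exact not_le.1 (Nat.findGreatest_is_greatest (P := fun u => lv u ≤ m) h1 h2)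

end OneAux

open OneAux in
theorem oneS (h1 : MengerQS) (h2 : MengerPS) : OneS := by
  intro V ι _ _ G A W lev D ρ s t n lo hi b lv L o e hn hnt hB hlo hhi hs hb ht hd he
  -- steps of the levels along the rivers
  have step : ∀ a, ∀ u < L a, lv a (u + 1) ≤ lv a u + 1 ∧
      (lv a (u + 1) = lv a u + 1 → (b a (u + 1) ∩ D (lv a (u + 1))).Nonempty) := by
    intro a u hu
    obtain ⟨x, hx, y, hy, exy⟩ := ht a u hu
    obtain ⟨-, p1, p2, p3⟩ := hb a u hu.le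
    obtain ⟨-, -, -, p4⟩ := hb a (u + 1) hu
    obtain ⟨x1, x2⟩ := p3 x hx
    obtain ⟨y1, y2⟩ := p4 y hy
    refine ⟨?_, fun c => ⟨y, hy, ?_⟩⟩
    · rcases hB.nbr x x1 (by omega) (by omega) y exy with c | c
      · exact absurd c (disjoint_left.1 hB.dis y1)
      · omega
    · rw [← y2]
      exact hB.up x x1 y y1 exy (by omega)
  have meet : ∀ a p q l, p ≤ q → q ≤ L a → lv a p < l → l ≤ lv a q →
      ((⋃ u ∈ Icc p q, b a u) ∩ D l).Nonempty := by
    intro a p q l hpq hq c1 c2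
    obtain ⟨u, a1, a2, a3, a4⟩ := first_hit (lv a) p q l
      (fun u _ h => (step a u (by omega)).1) hpq c1 c2
    obtain ⟨y, hy, hy'⟩ := (step a u (by omega)).2 (by omega)
    exact ⟨y, mem_biUnion (show u + 1 ∈ Icc p q from ⟨by omega, by omega⟩) hy, a3 ▸ hy'⟩
  have seg : ∀ a p q, p ≤ q → q ≤ L a → Conn G (⋃ u ∈ Icc p q, b a u) := fun a p q hpq hq =>
    conn_chain hpq (fun u hu => (hb a u (hu.2.trans hq)).1)
      fun u _ hu => Or.inr (ht a u (by omega))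
  have segd : ∀ (p q : ι → ℕ), (∀ a, q a ≤ L a) →
      Pairwise (Disjoint on fun a => ⋃ u ∈ Icc (p a) (q a), b a u) := by
    intro p q hq a a' ne
    refine disjoint_left.2 fun v hv hv' => ?_
    obtain ⟨u, hu, hv⟩ := mem_iUnion₂.1 hv
    obtain ⟨u', hu', hv'⟩ := mem_iUnion₂.1 hv'
    exact disjoint_left.1 (hd a a' u (hu.2.trans (hq a)) u' (hu'.2.trans (hq a'))
      fun c => ne (congrArg Prod.fst c)) hv hv'
  have rlev : ∀ i < t, ∀ l ≤ s, ∀ v ∈ ρ i l, v ∈ W ∧ lev v = l := fun i hi l hl v hv =>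
    (hB.ring l hl).2 v ((hB.cell i hi l hl).2 hv)
  have railc : ∀ i < t, ∀ p q, p ≤ q → q ≤ s → Conn G (⋃ l ∈ Icc p q, ρ i l) :=
    fun i hi p q hpq hq => conn_chain hpq (fun l hl => (hB.cell i hi l (hl.2.trans hq)).1)
      fun l _ hl => Or.inr (hB.rail i hi l (by omega))
  have raild : ∀ i < t, ∀ i' < t, i ≠ i' → ∀ p q, q ≤ s →
      Disjoint (⋃ l ∈ Icc p q, ρ i l) (⋃ l ∈ Icc p q, ρ i' l) := by
    intro i hi i' hi' ne p q hq
    refine disjoint_left.2 fun v hv hv' => ?_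
    obtain ⟨l, hl, hv⟩ := mem_iUnion₂.1 hv
    obtain ⟨l', hl', hv'⟩ := mem_iUnion₂.1 hv'
    have c1 := (rlev i hi l (hl.2.trans hq) v hv).2
    have c2 := (rlev i' hi' l' (hl'.2.trans hq) v hv').2
    obtain rfl : l = l' := c1.symm.trans c2
    exact disjoint_left.1 (hB.rdis i hi i' hi' ne l (hl.2.trans hq)) hv hv'
  have ringd : ∀ p, p + n ≤ s + 1 → Pairwise (Disjoint on fun k : Fin n => D (p + k)) := by
    intro p hp k k' ne
    refine disjoint_left.2 fun v hv hv' => ne (Fin.ext ?_)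
    have c1 := ((hB.ring (p + k) (by omega)).2 v hv).2
    have c2 := ((hB.ring (p + k') (by omega)).2 v hv').2
    omega
  -- a river segment, a ring and a piece of a rail
  have join : ∀ a p q i l c d, p ≤ q → q ≤ L a → i < t → lv a p < l → l ≤ lv a q → c ≤ l →
      l ≤ d → d ≤ s →
      Conn G ((⋃ u ∈ Icc p q, b a u) ∪ D l ∪ ⋃ l' ∈ Icc c d, ρ i l') := by
    intro a p q i l c d hpq hq hi c1 c2 c3 c4 c5
    refine conn_inter (conn_inter (seg a p q hpq hq) (hB.ring l (by omega)).1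
      (meet a p q l hpq hq c1 c2)) (railc i hi c d (by omega) c5) ?_
    obtain ⟨⟨⟨v, hv⟩, -⟩, k⟩ := hB.cell i hi l (by omega)
    exact ⟨v, Or.inr (k hv), mem_biUnion (show l ∈ Icc c d from ⟨c3, c4⟩) hv⟩
  choose f f1 f2 f3 using fun a => exists_first (lv a) (L a) (lo + n)
    (fun u hu => (step a u hu).1) (by have := (he a).1; omega) (by have := (he a).2.1; omega)
  choose g g1 g2 g3 using fun a => exists_last (lv a) (L a) (lo + n + 1)
    (by have := (he a).1; omega) (by have := (he a).2.1; omega)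
  choose x x1 x2 x3 using fun a => exists_last (lv a) (L a) hi
    (by have := (he a).1; omega) (he a).2.1
  have gx : ∀ a, g a + 1 ≤ x a := fun a => by
    by_contra c
    have := x3 a (g a + 1) (by omega) (g1 a)
    have := (step a (g a) (g1 a)).1
    have := g2 a
    omega
  -- first part
  have ez : ∀ i : Fin t, ∃ z ∈ ρ i (lo + n), ∃ z' ∈ ρ i (lo + n + 1), G.Adj z z' :=
    fun i => hB.rail i i.2 _ (by omega)
  choose z z1 z2 using ez
  obtain ⟨R1, r1, r1d⟩ := h1 V ι G (Lv W lev lo (lo + n + 1) ∪ ⋃ a, ⋃ u ∈ Icc 0 (f a), b a u)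
    (range z) o (toFinite _) (by
      intro X _ hX
      obtain ⟨a, ha⟩ := miss _ hX (segd (fun _ => 0) f f1)
      obtain ⟨k, hk⟩ := miss (X := X) (fun k : Fin n => D (lo + 1 + k))
        (by rw [Nat.card_fin]; omega) (ringd (lo + 1) (by omega))
      obtain ⟨i, hi⟩ := miss (X := X) (fun i : Fin t => ⋃ l ∈ Icc lo (lo + n), ρ i l)
        (by rw [Nat.card_fin]; omega)
        fun i i' ne => raild i i.2 i' i'.2 (fun c => ne (Fin.ext c)) _ _ (by omega)
      have k2 := k.2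
      refine ⟨_, ?_, join a 0 (f a) i (lo + 1 + k) lo (lo + n) (Nat.zero_le _) (f1 a) i.2
        (by have := (he a).1; omega) (by have := f2 a; omega) (by omega) (by omega) (by omega),
        ⟨a, Or.inl (Or.inl (mem_biUnion (left_mem_Icc.2 (Nat.zero_le _)) (he a).2.2.1))⟩,
        z i, Or.inr (mem_biUnion (right_mem_Icc.2 (by omega)) (z1 i)), i, rfl⟩
      rintro v ((hv | hv) | hv)
      · exact ⟨Or.inr (mem_iUnion.2 ⟨a, hv⟩), ha v hv⟩
      · obtain ⟨c1, c2⟩ := (hB.ring (lo + 1 + k) (by omega)).2 v hv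
        exact ⟨Or.inl ⟨c1, by omega, by omega⟩, hk v hv⟩
      · refine ⟨Or.inl ?_, hi v hv⟩
        obtain ⟨l, hl, hv⟩ := mem_iUnion₂.1 hv
        obtain ⟨c1, c2⟩ := rlev i i.2 l (by have := hl.2; omega) v hv
        exact ⟨c1, by have := hl.1; omega, by have := hl.2; omega⟩)
  have ei : ∀ a, ∃ i, z i ∈ R1 a := fun a => by
    obtain ⟨v, hv, i, rfl⟩ := (r1 a).2.2.2
    exact ⟨i, hv⟩
  choose I hI using ei
  have Iinj : ∀ a a', a ≠ a' → (I a).1 ≠ (I a').1 := fun a a' ne c =>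
    disjoint_left.1 (r1d ne) (hI a) (Fin.ext c ▸ hI a')
  -- second part
  have ew : ∀ a, ∃ w ∈ ρ (I a) (lo + n + 1), ∃ w' ∈ ρ (I a) (lo + n + 1 + 1), G.Adj w w' :=
    fun a => hB.rail _ (I a).2 _ (by omega)
  choose w w1 w' w2 w3 using ew
  choose y y1 y' y2 y3 using fun a => ht a (x a) (x1 a)
  obtain ⟨θ, R2, r2, r2d⟩ := h2 V ι G
    (Lv W lev (lo + n + 2) (hi + 1) ∪ ⋃ a, ⋃ u ∈ Icc (g a + 1) (x a), b a u) w' y (toFinite _) (by
      intro X _ hX
      obtain ⟨a, ha⟩ := miss _ hX (segd (fun a => g a + 1) x fun a => (x1 a).le)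
      obtain ⟨k, hk⟩ := miss (X := X) (fun k : Fin n => D (lo + n + 3 + k))
        (by rw [Nat.card_fin]; omega) (ringd (lo + n + 3) (by omega))
      obtain ⟨c, hc⟩ := miss (X := X) (fun c => ⋃ l ∈ Icc (lo + n + 2) hi, ρ (I c) l) hX
        fun c c' ne => raild _ (I c).2 _ (I c').2 (Iinj c c' ne) _ _ (by omega)
      have k2 := k.2
      refine ⟨_, ?_, join a (g a + 1) (x a) (I c) (lo + n + 3 + k) (lo + n + 2) hi (gx a)
        (x1 a).le (I c).2
        (by have := (step a (g a) (g1 a)).1; have := g2 a; omega)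
        (by have := (step a (x a) (x1 a)).1; have := x3 a (x a + 1) (by omega) (x1 a); omega)
        (by omega) (by omega) (by omega),
        ⟨c, Or.inr (mem_biUnion (left_mem_Icc.2 (by omega)) (w2 c))⟩,
        a, Or.inl (Or.inl (mem_biUnion (right_mem_Icc.2 (gx a)) (y1 a)))⟩
      rintro v ((hv | hv) | hv)
      · exact ⟨Or.inr (mem_iUnion.2 ⟨a, hv⟩), ha v hv⟩
      · obtain ⟨c1, c2⟩ := (hB.ring (lo + n + 3 + k) (by omega)).2 v hv
        exact ⟨Or.inl ⟨c1, by omega, by omega⟩, hk v hv⟩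
      · refine ⟨Or.inl ?_, hc v hv⟩
        obtain ⟨l, hl, hv⟩ := mem_iUnion₂.1 hv
        obtain ⟨c1, c2⟩ := rlev _ (I c).2 l (by have := hl.2; omega) v hv
        exact ⟨c1, by have := hl.1; omega, by have := hl.2; omega⟩)
  -- levels of the pieces
  have l1 : ∀ a, ∀ v ∈ R1 a, lev v < lo + n + 1 ∧
      (v ∈ Lv W lev lo (hi + 1) ∨ ∃ a', ∃ u ≤ L a', v ∈ b a' u) := by
    intro a v hv
    rcases (r1 a).1 hv with c | c
    · exact ⟨c.2.2, Or.inl ⟨c.1, c.2.1, by have := c.2.2; omega⟩⟩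
    · obtain ⟨a', c⟩ := mem_iUnion.1 c
      obtain ⟨u, hu, c⟩ := mem_iUnion₂.1 c
      have c1 := hu.2.trans (f1 a')
      have := ((hb a' u c1).2.2.2 v c).2
      have := f3 a' u hu.2
      exact ⟨by omega, Or.inr ⟨a', u, c1, c⟩⟩
  have l2 : ∀ a, ∀ v ∈ ρ (I a) (lo + n + 1), v ∈ W ∧ lev v = lo + n + 1 := fun a =>
    rlev _ (I a).2 _ (by omega)
  have l3 : ∀ a, ∀ v ∈ R2 a, lo + n + 1 < lev v ∧
      (v ∈ Lv W lev lo (hi + 1) ∨ ∃ a', ∃ u ≤ x a', v ∈ b a' u) := by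
    intro a v hv
    rcases (r2 a).1 hv with c | c
    · exact ⟨c.2.1, Or.inl ⟨c.1, by have := c.2.1; omega, c.2.2⟩⟩
    · obtain ⟨a', c⟩ := mem_iUnion.1 c
      obtain ⟨u, hu, c⟩ := mem_iUnion₂.1 c
      have c1 := hu.2.trans (x1 a').le
      have := ((hb a' u c1).2.2.2 v c).2
      have := g3 a' u hu.1 c1
      exact ⟨by omega, Or.inr ⟨a', u, hu.2, c⟩⟩
  have l4 : ∀ a, ∀ v ∈ ⋃ u ∈ Icc (x a + 1) (L a), b a u,
      hi < lev v ∧ ∃ u ≤ L a, x a < u ∧ v ∈ b a u := by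
    intro a v hv
    obtain ⟨u, hu, c⟩ := mem_iUnion₂.1 hv
    have := ((hb a u hu.2).2.2.2 v c).2
    have := x3 a u hu.1 hu.2
    exact ⟨by omega, u, hu.2, hu.1, c⟩
  have l34 : ∀ a a', ∀ v ∈ R2 a, v ∉ ⋃ u ∈ Icc (x a' + 1) (L a'), b a' u := by
    intro a a' v hv hv'
    obtain ⟨c1, u, c2, c3, c4⟩ := l4 a' v hv'
    rcases (l3 a v hv).2 with c | ⟨a2, u2, c5, c6⟩
    · have := c.2.2
      omega
    · refine disjoint_left.1 (hd a' a2 u c2 u2 (c5.trans (x1 a2).le) fun c => ?_) c4 c6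
      obtain ⟨rfl, rfl⟩ := Prod.mk.inj c
      omega
  refine ⟨θ, fun a => R1 a ∪ ρ (I a) (lo + n + 1) ∪ R2 a ∪
    ⋃ u ∈ Icc (x (θ a) + 1) (L (θ a)), b (θ a) u, fun a a' ne => ?_, fun a => ⟨?_, ?_, ?_, ?_, ?_⟩⟩
  · refine disjoint_left.2 ?_
    rintro v (((c | c) | c) | c) (((c' | c') | c') | c')
    · exact disjoint_left.1 (r1d ne) c c'
    · have := (l1 a v c).1; have := (l2 a' v c').2; omega
    · have := (l1 a v c).1; have := (l3 a' v c').1; omega
    · have := (l1 a v c).1; have := (l4 _ v c').1; omega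
    · have := (l2 a v c).2; have := (l1 a' v c').1; omega
    · exact disjoint_left.1 (hB.rdis _ (I a).2 _ (I a').2 (Iinj a a' ne) _ (by omega)) c c'
    · have := (l2 a v c).2; have := (l3 a' v c').1; omega
    · have := (l2 a v c).2; have := (l4 _ v c').1; omega
    · have := (l3 a v c).1; have := (l1 a' v c').1; omega
    · have := (l3 a v c).1; have := (l2 a' v c').2; omega
    · exact disjoint_left.1 (r2d ne) c c'
    · exact l34 a _ v c c'
    · have := (l4 _ v c).1; have := (l1 a' v c').1; omega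
    · have := (l4 _ v c).1; have := (l2 a' v c').2; omega
    · exact l34 a' _ v c' c
    · exact disjoint_left.1 (segd (fun a => x a + 1) L (fun _ => le_rfl)
        (θ.injective.ne ne)) c c'
  · obtain ⟨z', c1, c2⟩ := z2 (I a)
    refine conn_union_touch (conn_union_touch (conn_union_touch (r1 a).2.1
      (hB.cell _ (I a).2 _ (by omega)).1 ⟨_, hI a, z', c1, c2⟩) (r2 a).2.1
      ⟨w a, Or.inr (w1 a), w' a, (r2 a).2.2.1, w3 a⟩) (seg _ _ _ (x1 _) le_rfl)
      ⟨y (θ a), Or.inr (r2 a).2.2.2, y' (θ a), mem_biUnion (left_mem_Icc.2 (x1 _)) (y2 _), y3 _⟩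
  · exact Or.inl (Or.inl (Or.inl (r1 a).2.2.1))
  · exact Or.inr (mem_biUnion (right_mem_Icc.2 (x1 _)) (he _).2.2.2)
  · rintro v (((c | c) | c) | c)
    · exact (l1 a v c).2
    · obtain ⟨c1, c2⟩ := l2 a v c
      exact Or.inl ⟨c1, by omega, by omega⟩
    · rcases (l3 a v c).2 with c | ⟨a2, u2, c5, c6⟩
      · exact Or.inl c
      · exact Or.inr ⟨a2, u2, c5.trans (x1 a2).le, c6⟩
    · obtain ⟨-, u, c2, -, c4⟩ := l4 _ v c
      exact Or.inr ⟨_, u, c2, c4⟩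
  · rintro v (((c | c) | c) | c) hv
    · have := (l1 a v c).1; omega
    · exact ⟨I a, (I a).2, c, fun _ h => Or.inl (Or.inl (Or.inr h))⟩
    · have := (l3 a v c).1; omega
    · have := (l4 _ v c).1; omega

end Pool.Agent.MP_9d78a0_co.fb

end MrgPart0

-- ======== part 1: formerly Pool.Agent.MP_9d78a0_co.fb.Tr
section MrgPart1

/-! Row TR: transfer of a model when a part with few roots is exchanged. -/

set_option autoImplicit false

namespace Pool.Agent.MP_9d78a0_co.fb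

open Set Function

namespace Tr

/-- transfer of a model whose branch sets lie on one side -/
theorem transfer {V V' ν ι : Type} {M : ℕ} (e : ν → Fin M) (he : Injective e)
    {G : SimpleGraph V} {G' : SimpleGraph V'} {K : SimpleGraph ν} {O Y : Set V} {O' Y' : Set V'}
    {r : ι → V} {nb : ι → Set V} {nb' : ι → Set V'} {φ : V → Set V'} {N : ν → Set V}
    (hd' : Disjoint O' Y')
    (h1 : ∀ u ∈ O, ∀ y ∈ Y, G.Adj u y → ∃ i, u = r i ∧ y ∈ nb i)
    (h2 : ∀ π : Ptn M ι, Real G Y nb π → Real G' Y' nb' π)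
    (h3 : ∀ u ∈ O, φ u ⊆ O' ∧ Conn G' (φ u))
    (h4 : ∀ u ∈ O, ∀ v ∈ O, u ≠ v →
      Disjoint (φ u) (φ v) ∧ (G.Adj u v → Touch G' (φ u) (φ v)))
    (h5 : ∀ i, r i ∈ O → ∀ y ∈ nb' i, y ∈ Y' → ∃ x ∈ φ (r i), G'.Adj x y)
    (hN : Model K G (O ∪ Y) N) (hs : ∀ n, ¬ N n ⊆ Y → N n ⊆ O) :
    ∃ N', Model K G' (O' ∪ Y') N' := by
  classical
  obtain ⟨-, n2, n3, n4⟩ := hN
  let X : Fin M → Set V := fun m => {v | ∃ n, e n = m ∧ v ∈ N n}
  have hX : ∀ n, X (e n) = N n := fun n => Set.ext fun v =>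
    ⟨fun ⟨_, a, b⟩ => he a ▸ b, fun b => ⟨n, rfl, b⟩⟩
  obtain ⟨X', x1, x2⟩ := h2 ({m | ∃ n, e n = m ∧ N n ⊆ Y}, {q | Touch G (X q.1) (X q.2)},
    {q | (X q.1 ∩ nb q.2).Nonempty}) ⟨X, by
      rintro _ ⟨n, rfl, hn⟩
      refine ⟨by rw [hX]; exact hn, by rw [hX]; exact n2 n, fun i hi => hi⟩, by
      rintro _ ⟨n, rfl, -⟩ _ ⟨n', rfl, -⟩ hne
      refine ⟨?_, fun h => h⟩
      rw [hX, hX]
      exact n3 n n' fun c => hne (by rw [c])⟩
  have mO : Model (K.comap (Subtype.val : {n // ¬ N n ⊆ Y} → ν)) G O fun n => N n.1 :=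
    ⟨fun n => hs n.1 n.2, fun n => n2 n.1, fun n n' h => n3 _ _ fun c => h (Subtype.ext c),
      fun n n' h => n4 _ _ h⟩
  obtain ⟨o1, o2, o3, o4⟩ := mO.comp (T := O') φ (fun v hv => (h3 v hv).1)
    (fun v hv => (h3 v hv).2) (fun v hv v' hv' h => (h4 v hv v' hv' h).1)
    fun v hv v' hv' h => (h4 v hv v' hv' h.ne).2 h
  have y1 : ∀ n, N n ⊆ Y → X' (e n) ⊆ Y' := fun n hn => (x1 _ ⟨n, rfl, hn⟩).1
  have mix : ∀ n n', ¬ N n ⊆ Y → N n' ⊆ Y → K.Adj n n' →
      Touch G' (⋃ v ∈ N n, φ v) (X' (e n')) := by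
    intro n n' hn hn' h
    obtain ⟨u, hu, v, hv, huv⟩ := n4 n n' h
    obtain ⟨i, rfl, hi⟩ := h1 u (hs n hn hu) v (hn' hv) huv
    obtain ⟨y, hy, hy'⟩ := (x1 _ ⟨n', rfl, hn'⟩).2.2 i ⟨v, by rw [hX]; exact hv, hi⟩
    obtain ⟨x, hx, hxy⟩ := h5 i (hs n hn hu) y hy' (y1 n' hn' hy)
    exact ⟨x, mem_biUnion hu hx, y, hy, hxy⟩
  refine ⟨fun n => if N n ⊆ Y then X' (e n) else ⋃ v ∈ N n, φ v, fun n => ?_, fun n => ?_,
    fun n n' h => ?_, fun n n' h => ?_⟩
  · by_cases c : N n ⊆ Y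
    · simp only [if_pos c]
      exact (y1 n c).trans subset_union_right
    · simp only [if_neg c]
      exact (o1 ⟨n, c⟩).trans subset_union_left
  · by_cases c : N n ⊆ Y
    · simp only [if_pos c]
      exact (x1 _ ⟨n, rfl, c⟩).2.1
    · simp only [if_neg c]
      exact o2 ⟨n, c⟩
  · by_cases c : N n ⊆ Y <;> by_cases c' : N n' ⊆ Y
    · simp only [if_pos c, if_pos c']
      exact (x2 _ ⟨n, rfl, c⟩ _ ⟨n', rfl, c'⟩ fun d => h (he d)).1
    · simp only [if_pos c, if_neg c']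
      exact (hd'.mono (o1 ⟨n', c'⟩) (y1 n c)).symm
    · simp only [if_neg c, if_pos c']
      exact hd'.mono (o1 ⟨n, c⟩) (y1 n' c')
    · simp only [if_neg c, if_neg c']
      exact o3 ⟨n, c⟩ ⟨n', c'⟩ fun d => h (congrArg Subtype.val d)
  · by_cases c : N n ⊆ Y <;> by_cases c' : N n' ⊆ Y
    · simp only [if_pos c, if_pos c']
      refine (x2 _ ⟨n, rfl, c⟩ _ ⟨n', rfl, c'⟩ fun d => h.ne (he d)).2 ?_
      show Touch G (X (e n)) (X (e n'))
      rw [hX, hX]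
      exact n4 n n' h
    · simp only [if_pos c, if_neg c']
      exact (mix n' n c' c h.symm).symm
    · simp only [if_neg c, if_pos c']
      exact mix n n' c c' h
    · simp only [if_neg c, if_neg c']
      exact o4 ⟨n, c⟩ ⟨n', c'⟩ h

/-- the nodes of a skeleton form a model of it -/
theorem skel_model {V : Type} {k1 k2 : ℕ} {G : SimpleGraph V} {S A : Set V} {z : Fin k1 → V}
    {σ τ : Fin k2 → V} {Q : Fin k2 → Set V} (hz : Injective z) (hS : ∀ i, z i ∈ S)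
    (hQ : Lk G (S \ (range z ∪ A)) σ τ Q) :
    Model (skel G z σ τ) G S (Sum.elim (fun i => {z i}) Q) := by
  have d : ∀ i p, Disjoint ({z i} : Set V) (Q p) := fun i p =>
    disjoint_singleton_left.2 fun c => ((hQ.mem p).1 c).2 (Or.inl ⟨i, rfl⟩)
  have t : ∀ i p, G.Adj (z i) (σ p) ∨ G.Adj (z i) (τ p) → Touch G {z i} (Q p) := by
    rintro i p (h | h)
    exacts [⟨_, rfl, _, (hQ.mem p).2.2.1, h⟩, ⟨_, rfl, _, (hQ.mem p).2.2.2, h⟩]
  refine ⟨?_, ?_, ?_, ?_⟩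
  · rintro (i | p)
    exacts [singleton_subset_iff.2 (hS i), (hQ.mem p).1.trans sdiff_subset]
  · rintro (i | p)
    exacts [conn_singleton _ _, (hQ.mem p).2.1]
  · rintro (i | p) (j | q) h
    exacts [disjoint_singleton.2 fun c => h (by rw [hz c]), d i q, (d j p).symm,
      hQ.dis fun c => h (by rw [c])]
  · rintro (i | p) (j | q) h
    exacts [⟨_, rfl, _, rfl, h⟩, t i q h, (t j p h).symm, h.elim]

end Tr

open Tr

theorem trS (h : SkS) : TrS := by
  intro n b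
  obtain ⟨k, hk⟩ := h n b
  refine ⟨k + k, fun V V' X ι _ _ _ G G' H O Y O' Y' r nb nb' φ B hX hι _ hd' h1 h2 h3 h4 h5 hB =>
    ?_⟩
  have hA : (range r).ncard ≤ b := by
    rw [← image_univ]
    exact (ncard_image_le finite_univ).trans (by rw [ncard_univ]; exact hι)
  obtain ⟨k1, a1, k2, a2, z, σ, τ, Q, hz, hS, hQ, hm⟩ := hk V X G H (O ∪ Y) (range r) B hX hA hB
  obtain ⟨C, hC⟩ := (isMinor_iff _ _).1 hm
  obtain ⟨N', m1, m2, m3, m4⟩ := transfer
    (fun a : Fin k1 ⊕ Fin k2 => finSumFinEquiv (Sum.map (Fin.castLE a1) (Fin.castLE a2) a))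
    (finSumFinEquiv.injective.comp
      (Sum.map_injective.2 ⟨Fin.castLE_injective a1, Fin.castLE_injective a2⟩))
    hd' h1 h2 h3 h4 h5 (skel_model hz hS hQ) (by
      rintro (i | p) hn
      · exact singleton_subset_iff.2 ((hS i).resolve_right fun c => hn (singleton_subset_iff.2 c))
      · obtain ⟨v, hv, hv'⟩ := not_subset.1 hn
        intro w hw
        refine ((hQ.mem p).1 hw).1.resolve_right fun c => ?_
        obtain ⟨x, y, -, hy, hx', hy', e, -⟩ :=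
          link_exit (T := Y) ((hQ.mem p).2.1.2 w hw v hv) c hv'
        obtain ⟨i, hi, -⟩ := h1 y (((hQ.mem p).1 hy).1.resolve_right hy') x hx' e.symm
        exact ((hQ.mem p).1 hy).2 (Or.inr ⟨i, hi.symm⟩))
  exact ⟨_, hC.comp N' (fun v _ => m1 v) (fun v _ => m2 v) (fun v _ v' _ => m3 v v')
    fun v _ v' _ => m4 v v'⟩

end Pool.Agent.MP_9d78a0_co.fb

end MrgPart1

-- ======== part 2: formerly Pool.Agent.MP_9d78a0_co.fb.Centre
section MrgPart2

/-! A small model avoids the centre of a homogeneous band, except for the rails. -/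

set_option autoImplicit false

namespace Pool.Agent.MP_9d78a0_co.fb

open Set Function

namespace Centre

variable {V : Type} {G : SimpleGraph V} {A W : Set V} {lev : V → ℕ} {D : ℕ → Set V}
  {ρ : ℕ → ℕ → Set V} {s t : ℕ}

/-- few values miss one of many intervals -/
theorem gap {κ : Type} [Fintype κ] (f : κ → ℕ) {n : ℕ} (b w : ℕ) (h : Fintype.card κ ≤ n) :
    ∃ q ≤ n, ∀ x, ¬ (b + q * (w + 1) ≤ f x ∧ f x < b + q * (w + 1) + w + 1) := by
  by_contra c
  push Not at c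
  choose g hg using fun q : Fin (n + 1) => c q.1 (Nat.lt_succ_iff.1 q.2)
  have hi : Injective g := by
    intro p q e
    have k1 := hg p
    have k2 := hg q
    rw [e] at k1
    apply Fin.ext
    rcases lt_trichotomy p.1 q.1 with d | d | d
    · have := Nat.mul_le_mul_right (w + 1) (Nat.succ_le_of_lt d)
      rw [Nat.succ_mul] at this
      omega
    · exact d
    · have := Nat.mul_le_mul_right (w + 1) (Nat.succ_le_of_lt d)
      rw [Nat.succ_mul] at this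
      omega
  have := Fintype.card_le_of_injective g hi
  rw [Fintype.card_fin] at this
  omega

theorem cell_lev (hb : LBand G A W lev D ρ s t) {i l : ℕ} (hi : i < t) (hl : l ≤ s) {x : V}
    (hx : x ∈ ρ i l) : x ∈ W ∧ lev x = l :=
  (hb.ring l hl).2 x ((hb.cell i hi l hl).2 hx)

theorem cell_eq (hb : LBand G A W lev D ρ s t) {i i' l l' : ℕ} (hi : i < t) (hl : l ≤ s)
    (hi' : i' < t) (hl' : l' ≤ s) {x : V} (hx : x ∈ ρ i l) (hx' : x ∈ ρ i' l') :
    i = i' ∧ l = l' := by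
  obtain rfl : l = l' := (cell_lev hb hi hl hx).2.symm.trans (cell_lev hb hi' hl' hx').2
  exact ⟨not_not.1 fun e => disjoint_left.1 (hb.rdis i hi i' hi' e l hl) hx hx', rfl⟩

theorem le_cut (G : SimpleGraph V) (c : ℕ → Set V) (r : ℕ → V) (t : ℕ) : G ≤ cutG G c r t :=
  fun u v e => ⟨e.ne, u, Or.inl rfl, v, Or.inl rfl, e⟩

/-- combing and contracting at one level of a range of levels -/
theorem step [Finite V] {k s0 : ℕ}
    (h2 : ∀ (V : Type) [Finite V] (G : SimpleGraph V) (A W S : Set V) (lev : V → ℕ)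
      (D : ℕ → Set V) (ρ : ℕ → ℕ → Set V) (σ τ : Fin k → V) (Q : Fin k → Set V),
      LBand G A W lev D ρ s0 t → W ⊆ S → Disjoint S A →
      (∀ p, σ p ∉ W ∧ τ p ∉ W) → Lk G S σ τ Q →
      ∃ j Q', 0 < j ∧ j < s0 ∧ Lk G S σ τ Q' ∧ Combed W lev ρ t j Q')
    (h3 : SubS) (h4 : QuoS) (hb : LBand G A W lev D ρ s t) {G' : SimpleGraph V} {a : ℕ}
    (ha : a + s0 ≤ s) (hg : Agree G G' (Lv W lev a (a + s0 + 1))) {S : Set V}
    (hS : Lv W lev a (a + s0 + 1) ⊆ S) (hA : Disjoint S A) {σ τ : Fin k → V} {Q : Fin k → Set V}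
    (he : ∀ p, σ p ∉ Lv W lev a (a + s0 + 1) ∧ τ p ∉ Lv W lev a (a + s0 + 1))
    (hl : Lk G' S σ τ Q) :
    ∃ j, a < j ∧ j < a + s0 ∧ ∃ r : ℕ → V, (∀ i < t, r i ∈ ρ i j) ∧
      ∃ Q', Lk (cutG G' (fun i => ρ i j) r t)
        {v | v ∈ S ∧ (v ∉ Lv W lev j (j + 1) ∨ ∃ i < t, r i = v)} σ τ Q' := by
  obtain ⟨b1, -⟩ := h3 V G G' A W lev D ρ s t a s0 0 t hb ha (by omega) hg
  obtain ⟨j, Q', j1, j2, b2, b3⟩ := h2 V G' A _ S _ _ _ σ τ Q b1 hS hA he hl
  have : Nonempty V := ⟨(hb.ring 0 (Nat.zero_le _)).1.1.some⟩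
  choose! r hr using fun i (hi : i < t) => (hb.cell i hi (a + j) (by omega)).1.1
  have hZ : Lv W lev (a + j) (a + j + 1) ⊆ Lv W lev a (a + s0 + 1) :=
    fun v hv => ⟨hv.1, by have := hv.2; omega, by have := hv.2; omega⟩
  refine ⟨a + j, by omega, by omega, r, hr, h4 V k t G' S _ _ r σ τ Q' (fun i hi => ⟨hr i hi, ?_⟩)
    (fun i hi i' hi' e => hb.rdis i hi i' hi' e _ (by omega))
    (fun p => ⟨fun c => (he p).1 (hZ c), fun c => (he p).2 (hZ c)⟩) b2 fun p v hv hz => ?_⟩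
  · intro x hx
    have := cell_lev hb hi (by omega) hx
    exact ⟨this.1, by omega, by omega⟩
  · obtain ⟨i, hi, k⟩ := b3 p v hv (hZ hz) (by have := hz.2; change lev v - a = j; omega)
    simp only [Nat.zero_add] at k
    exact ⟨i, hi, k⟩

/-- the skeleton has a model along every linkage -/
theorem skel_model {G' : SimpleGraph V} (hle : G ≤ G') {k1 k2 : ℕ} {z : Fin k1 → V}
    {σ τ : Fin k2 → V} {Q : Fin k2 → Set V} {S T : Set V} (hz : Injective z) (hT : ∀ i, z i ∈ T)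
    (hST : S ⊆ T) (hS : ∀ i, z i ∉ S) (hl : Lk G' S σ τ Q) :
    Model (skel G z σ τ) G' T (Sum.elim (fun i => {z i}) Q) := by
  refine ⟨?_, ?_, ?_, ?_⟩
  · rintro (i | p)
    exacts [singleton_subset_iff.2 (hT i), (hl.mem p).1.trans hST]
  · rintro (i | p)
    exacts [conn_singleton _ _, (hl.mem p).2.1]
  · rintro (i | p) (j | q) e
    · exact disjoint_singleton.2 fun c => e (congrArg _ (hz c))
    · exact disjoint_singleton_left.2 fun c => hS i ((hl.mem q).1 c)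
    · exact disjoint_singleton_right.2 fun c => hS j ((hl.mem p).1 c)
    · exact hl.dis fun c => e (congrArg _ c)
  · rintro (i | p) (j | q) e
    · exact ⟨_, rfl, _, rfl, hle e⟩
    · rcases e with e | e
      exacts [⟨_, rfl, _, (hl.mem q).2.2.1, hle e⟩, ⟨_, rfl, _, (hl.mem q).2.2.2, hle e⟩]
    · rcases e with e | e
      exacts [⟨_, (hl.mem p).2.2.1, _, rfl, hle e.symm⟩, ⟨_, (hl.mem p).2.2.2, _, rfl, hle e.symm⟩]
    · exact e.elim

theorem real_of {G' : SimpleGraph V} {Y : Set V} (h : ∀ u ∈ Y, ∀ v ∈ Y, G'.Adj u v → G.Adj u v)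
    {M : ℕ} {ι : Type} {nb : ι → Set V} {π : Ptn M ι} (hr : Real G' Y nb π) : Real G Y nb π := by
  obtain ⟨X, h1, h2⟩ := hr
  refine ⟨X, fun p hp => ⟨(h1 p hp).1, ⟨(h1 p hp).2.1.1, fun u hu v hv => ?_⟩, (h1 p hp).2.2⟩,
    fun p hp q hq e => ⟨(h2 p hp q hq e).1, fun c => ?_⟩⟩
  · exact Link.map (G' := G) id (fun a ha b hb e => Link.single ha hb
      (h a ((h1 p hp).1 ha) b ((h1 p hp).1 hb) e)) ((h1 p hp).2.1.2 u hu v hv)
  · obtain ⟨u, hu, v, hv, k⟩ := (h2 p hp q hq e).2 c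
    exact ⟨u, hu, v, hv, h u ((h1 p hp).1 hu) v ((h1 q hq).1 hv) k⟩

/-- the sets that replace the outer vertices -/
def rep (ρ : ℕ → ℕ → Set V) (t j1 m j2 : ℕ) (r1 r2 : ℕ → V) (u : V) : Set V :=
  {x | x = u ∨ ∃ i < t, (r1 i = u ∧ ∃ l, j1 ≤ l ∧ l ≤ m ∧ x ∈ ρ i l) ∨ (r2 i = u ∧ x ∈ ρ i j2)}

section two

variable {j1 m j2 : ℕ} {r1 r2 : ℕ → V}

theorem rep_conn (hb : LBand G A W lev D ρ s t) (h1 : j1 ≤ m) (h2 : m < j2) (h3 : j2 ≤ s)
    (k1 : ∀ i < t, r1 i ∈ ρ i j1) (k2 : ∀ i < t, r2 i ∈ ρ i j2) (u : V) :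
    Conn G (rep ρ t j1 m j2 r1 r2 u) := by
  refine conn_of_center (Or.inl rfl) ?_
  rintro x (rfl | ⟨i, hi, ⟨rfl, l, l1, l2, hx⟩ | ⟨rfl, hx⟩⟩)
  · exact Link.refl _ _ _
  · have c := conn_chain (S := ρ i) h1 (fun l hl => (hb.cell i hi l (by have := hl.2; omega)).1)
      fun l _ hl => Or.inr (hb.rail i hi l (by omega))
    refine (c.2 _ (mem_biUnion (left_mem_Icc.2 h1) (k1 i hi)) x
      (mem_biUnion (⟨l1, l2⟩ : l ∈ Icc j1 m) hx)).mono fun y hy => ?_
    obtain ⟨l', hl', hy⟩ := mem_iUnion₂.1 hy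
    exact Or.inr ⟨i, hi, Or.inl ⟨rfl, l', hl'.1, hl'.2, hy⟩⟩
  · exact ((hb.cell i hi j2 h3).1.2 _ (k2 i hi) x hx).mono fun y hy =>
      Or.inr ⟨i, hi, Or.inr ⟨rfl, hy⟩⟩

/-- an edge of the doubly contracted graph comes from an edge between cells -/
theorem unfold_adj (hb : LBand G A W lev D ρ s t) (h1 : j1 < j2) (h3 : j2 ≤ s)
    (k1 : ∀ i < t, r1 i ∈ ρ i j1) {u v : V}
    (e : (cutG (cutG G (fun i => ρ i j1) r1 t) (fun i => ρ i j2) r2 t).Adj u v) :
    Touch G (rep ρ t j1 j1 j2 r1 r2 u) (rep ρ t j1 j1 j2 r1 r2 v) := by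
  have key : ∀ u x y, x ∈ cellOf (fun i => ρ i j2) r2 t u → y ∈ cellOf (fun i => ρ i j1) r1 t x →
      y ∈ rep ρ t j1 j1 j2 r1 r2 u := by
    rintro u x y (rfl | ⟨i, hi, rfl, hx⟩) (rfl | ⟨i', hi', rfl, hy⟩)
    · exact Or.inl rfl
    · exact Or.inr ⟨i', hi', Or.inl ⟨rfl, j1, le_rfl, le_rfl, hy⟩⟩
    · exact Or.inr ⟨i, hi, Or.inr ⟨rfl, hx⟩⟩
    · have := (cell_eq hb hi h3 hi' (by omega) hx (k1 i' hi')).2
      omega
  obtain ⟨-, x, hx, y, hy, -, x', hx', y', hy', e⟩ := e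
  exact ⟨x', key _ _ _ hx hx', y', key _ _ _ hy hy', e⟩

theorem rep_mono (h : j1 ≤ m) (u : V) : rep ρ t j1 j1 j2 r1 r2 u ⊆ rep ρ t j1 m j2 r1 r2 u := by
  rintro x (rfl | ⟨i, hi, ⟨e, l, l1, l2, hx⟩ | k⟩)
  exacts [Or.inl rfl, Or.inr ⟨i, hi, Or.inl ⟨e, l, l1, l2.trans h, hx⟩⟩, Or.inr ⟨i, hi, Or.inr k⟩]

theorem rep_in (hb : LBand G A W lev D ρ s t) (h3 : j2 ≤ s)
    (k1 : ∀ i < t, r1 i ∈ ρ i j1) (k2 : ∀ i < t, r2 i ∈ ρ i j2) {y x : V}
    (hy : y ∈ Lv W lev (j1 + 1) j2) (hx : x ∈ rep ρ t j1 m j2 r1 r2 y) : x = y := by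
  have := hy.2
  rcases hx with rfl | ⟨i, hi, ⟨rfl, -⟩ | ⟨rfl, -⟩⟩
  · rfl
  · have := (cell_lev hb hi (by omega) (k1 i hi)).2
    omega
  · have := (cell_lev hb hi h3 (k2 i hi)).2
    omega

end two

/-- the exchange of the part between the two contracted levels -/
theorem swap [Finite V] {X : Type} [Finite X] {H : SimpleGraph X} {a M : ℕ} {α : Fin a → V}
    (h5 : ∀ (G G' : SimpleGraph V) (O Y O' Y' : Set V) (r : Fin a ⊕ Fin t ⊕ Fin t → V)
      (nb nb' : Fin a ⊕ Fin t ⊕ Fin t → Set V) (φ : V → Set V) (B : X → Set V),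
      Disjoint O Y → Disjoint O' Y' →
      (∀ u ∈ O, ∀ y ∈ Y, G.Adj u y → ∃ i, u = r i ∧ y ∈ nb i) →
      (∀ π : Ptn M (Fin a ⊕ Fin t ⊕ Fin t), Real G Y nb π → Real G' Y' nb' π) →
      (∀ u ∈ O, φ u ⊆ O' ∧ Conn G' (φ u)) →
      (∀ u ∈ O, ∀ v ∈ O, u ≠ v → Disjoint (φ u) (φ v) ∧ (G.Adj u v → Touch G' (φ u) (φ v))) →
      (∀ i, r i ∈ O → ∀ y ∈ nb' i, y ∈ Y' → ∃ x ∈ φ (r i), G'.Adj x y) →
      Model H G (O ∪ Y) B → ∃ B', Model H G' (O' ∪ Y') B')
    (hA : A ⊆ range α) (hb : LBand G A W lev D ρ s t) (hh : Hom G α W lev ρ s t M) {S : Set V}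
    (hS : W ⊆ S) {j1 m1 m2 j2 : ℕ} (l1 : j1 < m1) (l2 : m1 ≤ m2) (l3 : m2 + 1 < j2) (l4 : j2 ≤ s)
    {r1 r2 : ℕ → V} (k1 : ∀ i < t, r1 i ∈ ρ i j1) (k2 : ∀ i < t, r2 i ∈ ρ i j2) {B : X → Set V}
    (hB : Model H (cutG (cutG G (fun i => ρ i j1) r1 t) (fun i => ρ i j2) r2 t)
      {v | v ∈ S ∧ (v ∉ Lv W lev j1 (j1 + 1) ∨ ∃ i < t, r1 i = v) ∧
        (v ∉ Lv W lev j2 (j2 + 1) ∨ ∃ i < t, r2 i = v)} B) :
    ∃ B', Model H G (S \ {v | v ∈ Lv W lev m1 (m2 + 1) ∧ ∀ i < t, v ∉ ρ i (lev v)}) B' := by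
  set T : Set V := {v | v ∈ S ∧ (v ∉ Lv W lev j1 (j1 + 1) ∨ ∃ i < t, r1 i = v) ∧
    (v ∉ Lv W lev j2 (j2 + 1) ∨ ∃ i < t, r2 i = v)} with hT
  have o1 : ∀ u ∈ T, u ∈ W → lev u = j1 → ∃ i < t, r1 i = u := fun u hu w e =>
    hu.2.1.resolve_left fun c => c ⟨w, by omega, by omega⟩
  have o2 : ∀ u ∈ T, u ∈ W → lev u = j2 → ∃ i < t, r2 i = u := fun u hu w e =>
    hu.2.2.resolve_left fun c => c ⟨w, by omega, by omega⟩
  obtain ⟨B', hB'⟩ := h5 (cutG (cutG G (fun i => ρ i j1) r1 t) (fun i => ρ i j2) r2 t) G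
    (T \ Lv W lev (j1 + 1) j2) (Lv W lev (j1 + 1) j2)
    (⋃ u ∈ T \ Lv W lev (j1 + 1) j2, rep ρ t j1 m2 j2 r1 r2 u) (Lv W lev (m2 + 1) j2)
    (Sum.elim α (Sum.elim (fun i => r1 i) fun i => r2 i)) (roles G α ρ t (j1 + 1) j2)
    (roles G α ρ t (m2 + 1) j2) (rep ρ t j1 m2 j2 r1 r2) B disjoint_sdiff_left
    (by
      rw [disjoint_left]
      intro x hx hy
      have := hy.2
      obtain ⟨u, hu, rfl | ⟨i, hi, ⟨-, l, c1, c2, hx⟩ | ⟨-, hx⟩⟩⟩ := mem_iUnion₂.1 hx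
      · exact hu.2 ⟨hy.1, by omega, by omega⟩
      · have := (cell_lev hb hi (by omega) hx).2
        omega
      · have := (cell_lev hb hi l4 hx).2
        omega)
    (by
      intro u hu y hy e0
      obtain ⟨x, hx, y', hy', e⟩ := unfold_adj hb (by omega) l4 k1 e0
      clear e0
      obtain rfl := rep_in hb l4 k1 k2 hy hy'
      have := hy.2
      rcases hx with rfl | ⟨i, hi, ⟨rfl, l, c1, c2, hx⟩ | ⟨rfl, hx⟩⟩
      · rcases hb.nbr _ hy.1 (by omega) (by omega) _ e.symm with c | ⟨c1, c2, c3⟩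
        · obtain ⟨i, rfl⟩ := hA c
          exact ⟨.inl i, rfl, e⟩
        · by_cases d : lev x = j1
          · obtain ⟨i, hi, rfl⟩ := o1 x hu.1 c1 d
            exact ⟨.inr (.inl ⟨i, hi⟩), rfl, _, k1 i hi, e⟩
          · by_cases d' : lev x = j2
            · obtain ⟨i, hi, rfl⟩ := o2 x hu.1 c1 d'
              exact ⟨.inr (.inr ⟨i, hi⟩), rfl, _, k2 i hi, e⟩
            · exact absurd ⟨c1, by omega, by omega⟩ hu.2
      · obtain rfl : l = j1 := by omega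
        exact ⟨.inr (.inl ⟨i, hi⟩), rfl, _, hx, e⟩
      · exact ⟨.inr (.inr ⟨i, hi⟩), rfl, _, hx, e⟩)
    (fun π hr => hh _ _ _ _ (by omega) (by omega) l4 (by omega) l3 l4 π (real_of (by
      intro u hu v hv e0
      obtain ⟨x, hx, y, hy, e⟩ := unfold_adj hb (by omega) l4 k1 e0
      obtain rfl := rep_in hb l4 k1 k2 hu hx
      obtain rfl := rep_in hb l4 k1 k2 hv hy
      exact e) hr))
    (fun u hu => ⟨subset_biUnion_of_mem (u := rep ρ t j1 m2 j2 r1 r2) hu,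
      rep_conn hb (by omega) (by omega) l4 k1 k2 u⟩)
    (by
      have key : ∀ u ∈ T \ Lv W lev (j1 + 1) j2, ∀ v, u ∈ rep ρ t j1 m2 j2 r1 r2 v → u = v := by
        rintro u hu v (rfl | ⟨i, hi, ⟨rfl, l, c1, c2, hx⟩ | ⟨rfl, hx⟩⟩)
        · rfl
        · have c := cell_lev hb hi (by omega) hx
          obtain ⟨i', hi', rfl⟩ := o1 u hu.1 c.1 (not_not.1 fun d =>
            hu.2 ⟨c.1, by omega, by omega⟩)
          rw [(cell_eq hb hi (by omega) hi' (by omega) hx (k1 i' hi')).1]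
        · have c := cell_lev hb hi l4 hx
          obtain ⟨i', hi', rfl⟩ := o2 u hu.1 c.1 c.2
          rw [(cell_eq hb hi l4 hi' l4 hx (k2 i' hi')).1]
      intro u hu v hv e
      refine ⟨disjoint_left.2 ?_, fun c => (unfold_adj hb (by omega) l4 k1 c).mono
        (rep_mono (by omega) _) (rep_mono (by omega) _)⟩
      intro x hx hx'
      rcases hx with rfl | ⟨i, hi, c⟩
      · exact e (key _ hu _ hx')
      rcases hx' with rfl | ⟨i', hi', c'⟩
      · exact e (key _ hv _ (Or.inr ⟨i, hi, c⟩)).symm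
      rcases c with ⟨rfl, l, c1, c2, hx⟩ | ⟨rfl, hx⟩ <;>
        rcases c' with ⟨rfl, l', d1, d2, hx'⟩ | ⟨rfl, hx'⟩
      · exact e (by rw [(cell_eq hb hi (by omega) hi' (by omega) hx hx').1])
      · have := (cell_eq hb hi (by omega) hi' l4 hx hx').2
        omega
      · have := (cell_eq hb hi l4 hi' (by omega) hx hx').2
        omega
      · exact e (by rw [(cell_eq hb hi l4 hi' l4 hx hx').1]))
    (by
      rintro (i | i | i) - y hy -
      · exact ⟨_, Or.inl rfl, hy⟩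
      · obtain ⟨x, hx, e⟩ := hy
        exact ⟨x, Or.inr ⟨i, i.2, Or.inl ⟨rfl, m2, by omega, le_rfl, hx⟩⟩, e⟩
      · obtain ⟨x, hx, e⟩ := hy
        exact ⟨x, Or.inr ⟨i, i.2, Or.inr ⟨rfl, hx⟩⟩, e⟩)
    ⟨fun w x hx => by
      by_cases c : x ∈ Lv W lev (j1 + 1) j2
      exacts [Or.inr c, Or.inl ⟨hB.1 w hx, c⟩], hB.2⟩
  refine ⟨B', fun w => (hB'.1 w).trans ?_, hB'.2⟩
  rintro x (hx | hx)
  · obtain ⟨u, hu, rfl | ⟨i, hi, ⟨-, l, c1, c2, hx⟩ | ⟨-, hx⟩⟩⟩ := mem_iUnion₂.1 hx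
    · exact ⟨hu.1.1, fun c => hu.2 ⟨c.1.1, by have := c.1.2; omega, by have := c.1.2; omega⟩⟩
    · have c := cell_lev hb hi (by omega) hx
      exact ⟨hS c.1, fun d => d.2 i hi (c.2 ▸ hx)⟩
    · have c := cell_lev hb hi l4 hx
      exact ⟨hS c.1, fun d => d.2 i hi (c.2 ▸ hx)⟩
  · exact ⟨hS hx.1, fun c => by have := c.1.2; have := hx.2; omega⟩

end Centre

theorem centreS (h1 : SkS) (h2 : CombS) (h3 : SubS) (h4 : QuoS) (h5 : TrS) : CentreS := by
  intro h a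
  obtain ⟨k, h1⟩ := h1 h a
  choose sf tf h2 using h2
  obtain ⟨s0, hs0⟩ : ∃ s0, ∀ k' ≤ k, sf k' ≤ s0 :=
    ⟨(Finset.range (k + 1)).sup sf, fun k' hk =>
      Finset.le_sup (Finset.mem_range.2 (Nat.lt_succ_of_le hk))⟩
  obtain ⟨t, ht⟩ : ∃ t, ∀ k' ≤ k, tf k' ≤ t :=
    ⟨(Finset.range (k + 1)).sup tf, fun k' hk =>
      Finset.le_sup (Finset.mem_range.2 (Nat.lt_succ_of_le hk))⟩
  obtain ⟨M, h5⟩ := h5 h (a + 2 * t)
  refine ⟨t, M, 3 * k * (s0 + 1) + s0 + 2, ?_⟩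
  intro V X _ _ G H A W S lev D ρ s m1 m2 α B hX hA hb hh hS l1 l2 l3 hB
  obtain ⟨k1, hk1, k2, hk2, z, σ, τ, Q, hz, hzS, hl, hm⟩ := h1 V X G H S A B hX
    ((ncard_le_ncard hA).trans (by
      rw [← image_univ]
      exact (ncard_image_le).trans (by simp))) hB
  have hc : Fintype.card (Fin k1 ⊕ Fin k2 ⊕ Fin k2) ≤ 3 * k := by
    simp only [Fintype.card_sum, Fintype.card_fin]
    omega
  have free : ∀ b, ∃ c, b ≤ c ∧ c ≤ b + 3 * k * (s0 + 1) ∧ (∀ i, z i ∉ Lv W lev c (c + s0 + 1)) ∧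
      ∀ p, σ p ∉ Lv W lev c (c + s0 + 1) ∧ τ p ∉ Lv W lev c (c + s0 + 1) := by
    intro b
    obtain ⟨q, hq, k⟩ := Centre.gap (lev ∘ Sum.elim z (Sum.elim σ τ)) b s0 hc
    exact ⟨b + q * (s0 + 1), Nat.le_add_right _ _,
      Nat.add_le_add_left (Nat.mul_le_mul_right _ hq) _, fun i c => k (.inl i) c.2,
      fun p => ⟨fun c => k (.inr (.inl p)) c.2, fun c => k (.inr (.inr p)) c.2⟩⟩
  obtain ⟨a1, -, p1, p2, p3⟩ := free 0
  obtain ⟨a2, q0, q1, q2, q3⟩ := free (m2 + 1)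
  have comb := fun (V : Type) [Finite V] (G : SimpleGraph V) (A W S : Set V) (lev : V → ℕ)
    (D : ℕ → Set V) (ρ : ℕ → ℕ → Set V) (σ τ : Fin k2 → V) (Q : Fin k2 → Set V) =>
    h2 k2 V G A W S lev D ρ s0 t σ τ Q (hs0 k2 hk2) (ht k2 hk2)
  have sub : ∀ c, (∀ i, z i ∉ Lv W lev c (c + s0 + 1)) →
      Lv W lev c (c + s0 + 1) ⊆ S \ (range z ∪ A) := by
    rintro c hc v hv
    refine ⟨hS hv.1, ?_⟩
    rintro (⟨i, rfl⟩ | d)
    exacts [hc i hv, disjoint_left.1 hb.dis hv.1 d]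
  have dA : Disjoint (S \ (range z ∪ A)) A := disjoint_left.2 fun v hv c => hv.2 (Or.inr c)
  obtain ⟨j1, i1, i2, r1, k1', Q1, hl1⟩ := Centre.step comb h3 h4 hb (G' := G) (a := a1) (by omega)
    (fun _ _ _ => Iff.rfl) (sub a1 p2) dA p3 hl
  obtain ⟨j2, i3, i4, r2, k2', Q2, hl2⟩ := Centre.step comb h3 h4 hb (a := a2) (by omega)
    (by
      intro y hy x
      refine ⟨?_, fun e => Centre.le_cut G _ _ _ e⟩
      have := hy.2
      rintro ⟨-, y', rfl | ⟨i, hi, rfl, -⟩, x', rfl | ⟨i', hi', rfl, hx⟩, e⟩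
      · exact e
      · have c := Centre.cell_lev hb hi' (by omega) hx
        rcases hb.nbr _ hy.1 (by omega) (by omega) _ e with d | d
        · exact absurd d (disjoint_left.1 hb.dis c.1)
        · omega
      all_goals
        have := (Centre.cell_lev hb hi (by omega) (k1' i hi)).2
        omega)
    (S := {v | v ∈ S \ (range z ∪ A) ∧ (v ∉ Lv W lev j1 (j1 + 1) ∨ ∃ i < t, r1 i = v)})
    (fun v hv => ⟨sub a2 q2 hv, Or.inl fun c => by have := c.2; have := hv.2; omega⟩)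
    (dA.mono_left fun v hv => hv.1) q3 hl1
  obtain ⟨C, hC⟩ := (isMinor_iff _ _).1 hm
  have hM := Centre.skel_model ((Centre.le_cut G _ _ _).trans (Centre.le_cut _ _ _ _))
    (T := {v | v ∈ S ∧ (v ∉ Lv W lev j1 (j1 + 1) ∨ ∃ i < t, r1 i = v) ∧
      (v ∉ Lv W lev j2 (j2 + 1) ∨ ∃ i < t, r2 i = v)}) hz
    (fun i => ⟨hzS i, Or.inl fun c => p2 i ⟨c.1, by have := c.2; omega, by have := c.2; omega⟩,
      Or.inl fun c => q2 i ⟨c.1, by have := c.2; omega, by have := c.2; omega⟩⟩)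
    (fun v hv => ⟨hv.1.1.1, hv.1.2, hv.2⟩) (fun i c => c.1.1.2 (Or.inl ⟨i, rfl⟩)) hl2
  exact Centre.swap (fun G G' O Y O' Y' r nb nb' φ B => h5 V V X _ G G' H O Y O' Y' r nb nb' φ B hX
      (by simp only [Nat.card_eq_fintype_card, Fintype.card_sum, Fintype.card_fin]; omega))
    hA hb hh hS (by omega) l2 (by omega) (by omega) k1' k2'
    (hC.comp _ (fun v _ => hM.1 v) (fun v _ => hM.2.1 v) (fun v _ v' _ => hM.2.2.1 v v')
      fun v _ v' _ => hM.2.2.2 v v')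

end Pool.Agent.MP_9d78a0_co.fb

end MrgPart2

-- ======== part 3: formerly Pool.Agent.MP_9d78a0_co.fb.BusCore
section MrgPart3

/-! Clique minors from connectors between distant rows of a cylinder. -/

set_option autoImplicit false

namespace Pool.Agent.MP_9d78a0_co.fb

open Set Function

namespace BusCore

theorem offset {ι : Type} (n : ℕ) (hn : 0 < n) (row τ : ι → ℕ) (hτ : ∀ x, τ x < n)
    (hs : ∀ x y, x ≠ y → row x + n ≤ row y ∨ row y + n ≤ row x) (R : ℕ) :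
    ∃ φ : ℕ → ℕ, (∀ r, φ (r + 1) = φ r ∨ φ (r + 1) = φ r + 1) ∧
      ∀ x, row x < R → φ (row x) % n = τ x := by
  induction R with
  | zero => exact ⟨fun _ => 0, fun _ => Or.inl rfl, fun _ h => by omega⟩
  | succ R ih =>
    obtain ⟨φ, h1, h2⟩ := ih
    by_cases c : ∃ x, row x = R
    · obtain ⟨x, hx⟩ := c
      by_cases d : R < n
      · refine ⟨fun _ => τ x, fun _ => Or.inl rfl, fun y hy => ?_⟩
        obtain rfl : y = x := not_not.1 fun e => by have := hs y x e; omega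
        exact Nat.mod_eq_of_lt (hτ y)
      · obtain ⟨δ, d1, d2⟩ : ∃ δ < n, (φ (R - n) + δ) % n = τ x := by
          refine ⟨(τ x + (n - φ (R - n) % n)) % n, Nat.mod_lt _ hn, ?_⟩
          have := Nat.mod_lt (φ (R - n)) hn
          rw [Nat.add_mod_mod, ← Nat.mod_add_mod,
            show φ (R - n) % n + (τ x + (n - φ (R - n) % n)) = τ x + n by omega, Nat.add_mod_right]
          exact Nat.mod_eq_of_lt (hτ x)
        refine ⟨fun r => φ (min r (R - n)) + min (r - (R - n)) δ, fun r => ?_, fun y hy => ?_⟩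
        · simp only
          by_cases e : r < R - n
          · rw [min_eq_left (by omega : r + 1 ≤ R - n), min_eq_left e.le]
            have := h1 r
            omega
          · rw [min_eq_right (by omega : R - n ≤ r + 1), min_eq_right (by omega : R - n ≤ r)]
            omega
        · by_cases e : y = x
          · subst e
            simp only [hx]
            rw [min_eq_right (by omega), min_eq_right (by omega), d2]
          · have := hs y x e
            simp only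
            rw [min_eq_left (by omega), min_eq_left (by omega),
              show row y - (R - n) = 0 by omega, add_zero]
            exact h2 y (by omega)
    · push Not at c
      exact ⟨φ, h1, fun y hy => h2 y (by have := c y; omega)⟩

theorem mod_step {n a : ℕ} (hn : 0 < n) :
    (a % n + 1 < n ∧ (a + 1) % n = a % n + 1) ∨ (a % n + 1 = n ∧ (a + 1) % n = 0) := by
  have := Nat.mod_lt a hn
  rw [← Nat.mod_add_mod]
  by_cases c : a % n + 1 < n
  · exact Or.inl ⟨c, Nat.mod_eq_of_lt c⟩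
  · have e : a % n + 1 = n := by omega
    exact Or.inr ⟨e, by rw [e, Nat.mod_self]⟩

theorem bus {V : Type} {G : SimpleGraph V} {h ρ a N : ℕ} (hρ : 2 * h ≤ ρ) {C : ℕ → ℕ → Set V}
    (c1 : ∀ r, a ≤ r → r < N → ∀ i < ρ, Conn G (C r i))
    (c2 : ∀ r, a ≤ r → r < N → ∀ i < ρ, ∀ r', a ≤ r' → r' < N → ∀ i' < ρ, (r, i) ≠ (r', i') →
      Disjoint (C r i) (C r' i'))
    (c3 : ∀ r, a ≤ r → r < N → ∀ i, i + 1 < ρ → Touch G (C r i) (C r (i + 1)))
    (c4 : ∀ r, a ≤ r → r < N → Touch G (C r (ρ - 1)) (C r 0))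
    (c5 : ∀ r, a ≤ r → r + 1 < N → ∀ i < ρ, Touch G (C r i) (C (r + 1) i))
    (row col : (Fin h × Fin h) × Bool → ℕ) (K : Fin h × Fin h → Set V)
    (k1 : ∀ x, a ≤ row x ∧ row x < N ∧ col x < ρ)
    (k2 : ∀ x y, x ≠ y → row x + 2 * h ≤ row y ∨ row y + 2 * h ≤ row x)
    (k3 : ∀ p, ∀ r, a ≤ r → r < N → ∀ i < ρ, Disjoint (K p) (C r i))
    (k4 : ∀ p q, p ≠ q → Disjoint (K p) (K q))
    (k5 : ∀ p, Conn G (C (row (p, true)) (col (p, true)) ∪ K p) ∧
      Touch G (C (row (p, true)) (col (p, true)) ∪ K p) (C (row (p, false)) (col (p, false)))) :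
    IsMinor (⊤ : SimpleGraph (Fin h)) G := by
  classical
  rcases Nat.eq_zero_or_pos h with rfl | hh
  · exact ⟨fun _ => ∅, fun w => w.elim0, fun w => w.elim0, fun w => w.elim0⟩
  obtain ⟨n, hn⟩ : ∃ n, n = 2 * h := ⟨_, rfl⟩
  have n0 : 0 < n := by omega
  let u : (Fin h × Fin h) × Bool → Fin h := fun x => if x.2 then x.1.1 else x.1.2
  obtain ⟨φ, f1, f2⟩ := offset n n0 row (fun x => (2 * u x + (n - min (col x) (n - 1))) % n)
    (fun x => Nat.mod_lt _ n0) (hn ▸ k2) N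
  obtain ⟨ps, hps⟩ : ∃ ps : ℕ → ℕ → ℕ, ∀ r i, ps r i = (min i (n - 1) + φ r) % n := ⟨_, fun _ _ => rfl⟩
  have o1 : ∀ x, ps (row x) (col x) / 2 = u x := fun x => by
    have := (u x).2
    rw [hps, ← Nat.add_mod_mod, f2 x (k1 x).2.1, Nat.add_mod_mod,
      show min (col x) (n - 1) + (2 * u x + (n - min (col x) (n - 1))) = 2 * u x + n by omega,
      Nat.add_mod_right, Nat.mod_eq_of_lt (by omega)]
    omega
  have o2 : ∀ r, ∀ y < n, ∃ i < n, ps r i = y := fun r y hy => by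
    have := Nat.mod_lt (φ r) n0
    have e := Nat.mod_lt (y + (n - φ r % n)) n0
    refine ⟨_, e, ?_⟩
    rw [hps, min_eq_left (by omega), Nat.mod_add_mod, ← Nat.add_mod_mod,
      show y + (n - φ r % n) + φ r % n = y + n by omega, Nat.add_mod_right, Nat.mod_eq_of_lt hy]
  have o3 : ∀ r, ∀ i < n, ∀ j < n, ps r i = ps r j → i = j := fun r i hi j hj e => by
    rw [hps, hps, min_eq_left (by omega), min_eq_left (by omega)] at e
    exact Nat.ModEq.eq_of_lt_of_lt (Nat.ModEq.add_right_cancel' _ e) hi hj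
  have o4 : ∀ r i, ps r i = ps r (min i (n - 1)) := fun r i => by
    rw [hps, hps, min_assoc, min_self]
  let I : Fin h → Set (ℕ × ℕ) := fun w => {z | a ≤ z.1 ∧ z.1 < N ∧ z.2 < ρ ∧ ps z.1 z.2 / 2 = w}
  let rel : Fin h → ℕ × ℕ → ℕ × ℕ → Prop := fun w x y => x ∈ I w ∧ y ∈ I w ∧
    ((C x.1 x.2 ∩ C y.1 y.2).Nonempty ∨ Touch G (C x.1 x.2) (C y.1 y.2))
  have sy : ∀ w x y, Relation.ReflTransGen (rel w) x y → Relation.ReflTransGen (rel w) y x := by
    intro w x y e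
    induction e with
    | refl => exact Relation.ReflTransGen.refl
    | tail _ d ih =>
      exact Relation.ReflTransGen.head ⟨d.2.1, d.1, d.2.2.imp (inter_comm _ _ ▸ id) Touch.symm⟩ ih
  have l1 : ∀ w r i, (r, i) ∈ I w → Relation.ReflTransGen (rel w) (r, min i (n - 1)) (r, i) := by
    intro w r i e
    induction i with
    | zero => rw [Nat.zero_min]
    | succ i ih =>
      by_cases c : i + 1 ≤ n - 1
      · rw [min_eq_left c]
      · obtain ⟨e1, e2, e3, e4⟩ := e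
        have e5 : (r, i) ∈ I w := ⟨e1, e2, by simp only at e3 ⊢; omega, by
          simp only at e4 ⊢
          rw [o4, min_eq_right (by omega)] at e4 ⊢
          exact e4⟩
        have := ih e5
        rw [min_eq_right (by omega)] at this ⊢
        exact this.tail ⟨e5, ⟨e1, e2, e3, e4⟩, Or.inr (c3 r e1 e2 i e3)⟩
  have l2 : ∀ (w : Fin h) r i j, a ≤ r → r < N → i < n → j < n → ps r i = 2 * w →
      ps r j = 2 * w + 1 → Relation.ReflTransGen (rel w) (r, i) (r, j) := by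
    intro w r i j e1 e2 e3 e4 e5 e6
    have m : ∀ x < ρ, ps r x = 2 * w ∨ ps r x = 2 * w + 1 → (r, x) ∈ I w := fun x p q =>
      ⟨e1, e2, p, by simp only; omega⟩
    have hw := w.2
    by_cases c : i + 1 < n
    · have : ps r (i + 1) = 2 * w + 1 := by
        rw [hps, min_eq_left (by omega)] at e5 ⊢
        rw [add_right_comm]
        rcases mod_step (a := i + φ r) n0 with d | d <;> omega
      obtain rfl := o3 r _ c _ e4 (this.trans e6.symm)
      exact Relation.ReflTransGen.single ⟨m _ (by omega) (Or.inl e5), m _ (by omega) (Or.inr e6),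
        Or.inr (c3 r e1 e2 i (by omega))⟩
    · obtain rfl : i = n - 1 := by omega
      have : ps r 0 = 2 * w + 1 := by
        rw [hps, min_self] at e5
        rw [hps, Nat.zero_min, zero_add, ← Nat.add_mod_left n,
          show n + φ r = n - 1 + φ r + 1 by omega]
        rcases mod_step (a := n - 1 + φ r) n0 with d | d <;> omega
      obtain rfl := o3 r _ n0 _ e4 (this.trans e6.symm)
      have e7 : (r, ρ - 1) ∈ I w := m _ (by omega) (Or.inl (by
        rw [o4, min_eq_right (by omega)]; exact e5))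
      have := l1 w r _ e7
      rw [min_eq_right (by omega)] at this
      exact this.tail ⟨e7, m _ (by omega) (Or.inr e6), Or.inr (c4 r e1 e2)⟩
  have l3 : ∀ (w : Fin h) r i j, (r, i) ∈ I w → (r, j) ∈ I w →
      Relation.ReflTransGen (rel w) (r, i) (r, j) := by
    intro w r i j e1 e2
    refine ((sy _ _ _ (l1 w r i e1)).trans ?_).trans (l1 w r j e2)
    have p := e1.2.2.2
    have q := e2.2.2.2
    simp only at p q
    rw [o4] at p q
    have p1 : min i (n - 1) < n := by omega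
    have q1 : min j (n - 1) < n := by omega
    by_cases c : ps r (min i (n - 1)) = ps r (min j (n - 1))
    · rw [o3 r _ p1 _ q1 c]
    · by_cases d : ps r (min i (n - 1)) = 2 * w
      · exact l2 w r _ _ e1.1 e1.2.1 p1 q1 d (by omega)
      · exact sy _ _ _ (l2 w r _ _ e1.1 e1.2.1 q1 p1 (by omega) (by omega))
  have aN : a < N := by have := k1 ((⟨0, hh⟩, ⟨0, hh⟩), true); omega
  have b1 : ∀ w, Conn G (⋃ z ∈ I w, C z.1 z.2) := by
    intro w
    have hw := w.2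
    obtain ⟨i0, i1, i2⟩ := o2 a (2 * w) (by omega)
    have i3 : (a, i0) ∈ I w := ⟨le_rfl, aN, by simp only; omega, by simp only; omega⟩
    refine conn_biUnion (S := fun z => C z.1 z.2) i3 (fun z e => c1 _ e.1 e.2.1 _ e.2.2.1) ?_
    rintro ⟨r, i⟩ e
    have e1 : a ≤ r := e.1
    induction r, e1 using Nat.le_induction generalizing i with
    | base => exact l3 w a _ _ i3 e
    | succ r e1 ih =>
      have e2 : r + 1 < N := e.2.1
      obtain ⟨j, j1, j2⟩ := o2 r (2 * w) (by omega)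
      have j3 : (r, j) ∈ I w := ⟨e1, by simp only; omega, by simp only; omega, by simp only; omega⟩
      have j4 : (r + 1, j) ∈ I w := ⟨by simp only; omega, e2, by simp only; omega, by
        simp only
        rw [hps] at j2 ⊢
        rcases f1 r with d | d <;> rw [d]
        · omega
        · rw [← add_assoc]
          rcases mod_step (a := min j (n - 1) + φ r) n0 with d | d <;> omega⟩
      exact ((ih j j3).tail ⟨j3, j4, Or.inr (c5 r e1 e2 j (by omega))⟩).trans (l3 w _ _ _ j4 e)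
  have b2 : ∀ x, C (row x) (col x) ⊆ ⋃ z ∈ I (u x), C z.1 z.2 := fun x =>
    subset_biUnion_of_mem (u := fun z : ℕ × ℕ => C z.1 z.2)
      (show (row x, col x) ∈ I (u x) from ⟨(k1 x).1, (k1 x).2.1, (k1 x).2.2, o1 x⟩)
  refine Model.isMinor (S := univ) (B := fun w => (⋃ z ∈ I w, C z.1 z.2) ∪ ⋃ y, K (w, y))
    ⟨fun _ => subset_univ _, fun w => ?_, fun w w' e => ?_, fun w w' _ => ?_⟩
  · obtain ⟨x, hx⟩ := (b1 w).1
    refine conn_of_center (Or.inl hx) ?_
    rintro v (hv | hv)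
    · exact ((b1 w).2 x hx v hv).mono subset_union_left
    · obtain ⟨y, hy⟩ := mem_iUnion.1 hv
      obtain ⟨z, hz⟩ := (c1 _ (k1 ((w, y), true)).1 (k1 _).2.1 _ (k1 _).2.2).1
      exact (((b1 w).2 x hx z (b2 ((w, y), true) hz)).mono subset_union_left).trans
        (((k5 (w, y)).1.2 z (Or.inl hz) v (Or.inr hy)).mono (union_subset_union
          (b2 ((w, y), true)) (subset_iUnion (fun y => K (w, y)) y)))
  · simp only [disjoint_union_left, disjoint_union_right, disjoint_iUnion_left,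
      disjoint_iUnion_right]
    refine ⟨fun z' q => ⟨fun z p => c2 _ p.1 p.2.1 _ p.2.2.1 _ q.1 q.2.1 _ q.2.2.1 fun d => e ?_,
      fun y => k3 _ _ q.1 q.2.1 _ q.2.2.1⟩, fun y => ⟨fun z p => (k3 _ _ p.1 p.2.1 _ p.2.2.1).symm,
      fun y' => k4 _ _ fun d => e (congrArg Prod.fst d)⟩⟩
    obtain rfl : z = z' := d
    exact Fin.ext (p.2.2.2.symm.trans q.2.2.2)
  · obtain ⟨x, hx, y, hy, e⟩ := (k5 (w, w')).2
    exact ⟨x, union_subset_union (b2 ((w, w'), true)) (subset_iUnion (fun y => K (w, y)) w') hx,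
      y, Or.inl (b2 ((w, w'), false) hy), e⟩

theorem spread {ι : Type} (f : ι → ℕ) (S : Finset ι) (n d : ℕ) (hd : 0 < d)
    (h : n * d ≤ (S.image f).card) :
    ∃ g : Fin n → ι, (∀ x, g x ∈ S) ∧ ∀ x y, x < y → f (g x) + d ≤ f (g y) := by
  let e := Finset.orderEmbOfCardLe _ h
  have k : ∀ (j : ℕ) (x y : Fin (n * d)), x.1 + j = y.1 → e x + j ≤ e y := by
    intro j
    induction j with
    | zero => exact fun x y c => by rw [Fin.ext c]; omega
    | succ j ih =>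
      intro x y c
      have := ih x ⟨x + j, by omega⟩ rfl
      have := e.strictMono (show (⟨x + j, by omega⟩ : Fin (n * d)) < y from
        Fin.lt_def.2 (by simp only; omega))
      omega
  have l : ∀ x : Fin n, x.1 * d < n * d := fun x => Nat.mul_lt_mul_of_pos_right x.2 hd
  choose g g1 g2 using fun x : Fin n =>
    Finset.mem_image.1 (Finset.orderEmbOfCardLe_mem _ h ⟨x.1 * d, l x⟩)
  refine ⟨g, g1, fun x y c => ?_⟩
  have := Nat.mul_le_mul_right d (Nat.succ_le_of_lt (Fin.lt_def.1 c))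
  rw [Nat.succ_mul] at this
  have := k (y.1 * d - x.1 * d) ⟨_, l x⟩ ⟨_, l y⟩ (by simp only; omega)
  rw [g2, g2]
  change e _ + d ≤ e _
  omega

theorem fiber {ι β : Type} [DecidableEq β] (f : ι → β) (S : Finset ι) (n d : ℕ)
    (h : (S.image f).card ≤ n) (h' : n * d < S.card) :
    ∃ b, d < (S.filter fun x => f x = b).card := by
  by_contra c
  push Not at c
  have := Finset.card_le_mul_card_image (f := f) S d fun b _ => c b
  have := Nat.mul_le_mul_left d h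
  rw [mul_comm n d] at h'
  omega

theorem pairing {V ι : Type} {G : SimpleGraph V} {S : ℕ → Set V} {L n : ℕ} {U : Set V}
    (s1 : ∀ j ≤ L, Conn G (S j) ∧ S j ⊆ U) (s2 : ∀ j < L, Touch G (S j) (S (j + 1)))
    (s3 : ∀ i ≤ L, ∀ j ≤ L, i ≠ j → Disjoint (S i) (S j)) (e : ι → V) (pos : ι → ℕ) (X : Finset ι)
    (h1 : ∀ x ∈ X, pos x ≤ L ∧ e x ∈ S (pos x)) (h2 : n * 2 ≤ (X.image pos).card) :
    ∃ (g : Fin n × Bool → ι) (J : Fin n → Set V), Injective g ∧ (∀ x, g x ∈ X ∧ e (g x) ∈ J x.1) ∧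
      (∀ p, Conn G (J p) ∧ J p ⊆ U) ∧ ∀ p q, p ≠ q → Disjoint (J p) (J q) := by
  obtain ⟨g, g1, g2⟩ := spread pos X (n * 2) 1 one_pos (by omega)
  let ν : Fin n × Bool → Fin (n * 2) := fun x =>
    ⟨2 * x.1 + if x.2 then 0 else 1, by have := x.1.2; split_ifs <;> omega⟩
  have g3 : ∀ x y, x ≤ y → pos (g x) ≤ pos (g y) := fun x y c => by
    rcases c.eq_or_lt with rfl | c
    · exact le_rfl
    · have := g2 x y c
      omega
  have n1 : ∀ p, ν (p, true) ≤ ν (p, false) := fun p => Fin.le_def.2 (by simp [ν])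
  have n2 : ∀ p q, p < q → Disjoint (⋃ j ∈ Icc (pos (g (ν (p, true)))) (pos (g (ν (p, false)))), S j)
      (⋃ j ∈ Icc (pos (g (ν (q, true)))) (pos (g (ν (q, false)))), S j) := fun p q c => by
    have := g2 (ν (p, false)) (ν (q, true)) (Fin.lt_def.2 (by
      have := Fin.lt_def.1 c
      simp [ν]; omega))
    have := (h1 _ (g1 (ν (q, false)))).1
    simp only [disjoint_iUnion_left, disjoint_iUnion_right]
    exact fun i a j b => s3 j (by have := a.1; have := a.2; have := b.2; omega) i (a.2.trans this)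
      (by have := a.1; have := b.2; omega)
  refine ⟨fun x => g (ν x), fun p => ⋃ j ∈ Icc (pos (g (ν (p, true)))) (pos (g (ν (p, false)))), S j,
    fun x y c => ?_, fun x => ⟨g1 _, ?_⟩, fun p => ⟨?_, ?_⟩, fun p q c => ?_⟩
  · have c1 : ν x = ν y := by
      simp only at c
      rcases lt_trichotomy (ν x) (ν y) with d | d | d
      · have := g2 _ _ d
        rw [c] at this
        omega
      · exact d
      · have := g2 _ _ d
        rw [c] at this
        omega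
    have c2 := congrArg Fin.val c1
    obtain ⟨p, σ⟩ := x
    obtain ⟨q, τ⟩ := y
    cases σ <;> cases τ <;> simp [ν] at c2 ⊢ <;> omega
  · obtain ⟨p, σ⟩ := x
    refine mem_biUnion (x := pos (g (ν (p, σ)))) ?_ (h1 _ (g1 _)).2
    cases σ
    exacts [⟨g3 _ _ (n1 p), le_rfl⟩, ⟨le_rfl, g3 _ _ (n1 p)⟩]
  · have := (h1 _ (g1 (ν (p, false)))).1
    exact conn_chain (g3 _ _ (n1 p)) (fun i a => (s1 i (a.2.trans this)).1)
      fun i _ b => Or.inr (s2 i (by omega))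
  · exact iUnion₂_subset fun i a => (s1 i (a.2.trans (h1 _ (g1 _)).1)).2
  · rcases lt_or_gt_of_ne c with d | d
    exacts [n2 p q d, (n2 q p d).symm]

theorem flip {V : Type} {G : SimpleGraph V} {A K : Set V} {e : V} (hA : A.Nonempty)
    (h : Conn G (A ∪ K)) (t : Touch G (A ∪ K) {e}) :
    ∃ K' ⊆ K, Conn G (insert e K') ∧ Touch G (insert e K') A := by
  obtain ⟨x, hx, _, rfl, xe⟩ := t
  by_cases c : x ∈ A
  · exact ⟨∅, empty_subset _, by simpa using conn_singleton G _, _, Or.inl rfl, x, c, xe.symm⟩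
  · obtain ⟨a, ha⟩ := hA
    obtain ⟨y, z, -, z1, y2, z2, yz, l⟩ := link_exit (T := Aᶜ) (h.2 x hx a (Or.inl ha)) c
      (not_not.2 ha)
    have k : (A ∪ K) ∩ Aᶜ ⊆ K := fun v hv => hv.1.resolve_left hv.2
    have x1 := k ⟨hx, c⟩
    exact ⟨cp G K x, cp_sub, (cp_conn x1).insert (cp_self x1) xe.symm, y,
      Or.inr ⟨(l.mono k).mem x1, l.mono k⟩, z, not_not.1 z2, yz⟩

theorem jumps (h : ℕ) : ∃ κ, ∀ {V : Type} {G : SimpleGraph V} {ρ N : ℕ}, 2 * h ≤ ρ →
    ∀ {C : ℕ → ℕ → Set V}, (∀ r < N, ∀ i < ρ, Conn G (C r i)) →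
    (∀ r < N, ∀ i < ρ, ∀ r' < N, ∀ i' < ρ, (r, i) ≠ (r', i') → Disjoint (C r i) (C r' i')) →
    (∀ r < N, ∀ i, i + 1 < ρ → Touch G (C r i) (C r (i + 1))) →
    (∀ r < N, Touch G (C r (ρ - 1)) (C r 0)) →
    (∀ r, r + 1 < N → ∀ i < ρ, Touch G (C r i) (C (r + 1) i)) →
    (∀ r < N, ∀ i < ρ, ∃ (f : Fin 3 → ℕ → V) (l : Fin 3 → ℕ), (∀ t, IsPath G (C r i) (f t) (l t)) ∧
      ∀ v ∈ C r i, ∃ t, ∃ j ≤ l t, f t j = v) →
    ∀ (sr sc er ec : Fin κ → ℕ) (K : Fin κ → Set V) (e : Fin κ → V), Injective e →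
    (∀ p, sr p < N ∧ sc p < ρ ∧ er p < N ∧ ec p < ρ ∧ e p ∈ C (er p) (ec p)) →
    (∀ p q, p ≠ q → sr p + 2 * h ≤ sr q ∨ sr q + 2 * h ≤ sr p) →
    (∀ p q, sr p + 2 * h ≤ er q ∨ er q + 2 * h ≤ sr p) →
    (∀ p, ∀ r < N, ∀ i < ρ, Disjoint (K p) (C r i)) → (∀ p q, p ≠ q → Disjoint (K p) (K q)) →
    (∀ p, Conn G (C (sr p) (sc p) ∪ K p) ∧ Touch G (C (sr p) (sc p) ∪ K p) {e p}) →
    IsMinor (⊤ : SimpleGraph (Fin h)) G := by
  classical
  refine ⟨h * h * (2 * h) * (2 * (h * h * 2 * (3 * (h * h * 2)))) + 1,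
    fun {V G ρ N} hρ {C} c1 c2 c3 c4 c5 c6 sr sc er ec K e k0 k1 k2 k3 k4 k5 k6 => ?_⟩
  rcases Nat.eq_zero_or_pos h with rfl | hh
  · exact ⟨fun _ => ∅, fun w => w.elim0, fun w => w.elim0, fun w => w.elim0⟩
  let ν : Fin h × Fin h ≃ Fin (h * h) := finProdFinEquiv
  by_cases d1 : h * h * (2 * h) ≤ (Finset.univ.image er).card
  · obtain ⟨g, -, g2⟩ := spread er _ _ _ (by omega) d1
    have g3 : ∀ p q, p ≠ q → er (g (ν p)) + 2 * h ≤ er (g (ν q)) ∨
        er (g (ν q)) + 2 * h ≤ er (g (ν p)) := fun p q c =>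
      (lt_or_gt_of_ne (ν.injective.ne c)).imp (g2 _ _) (g2 _ _)
    have g4 : ∀ p q, p ≠ q → g (ν p) ≠ g (ν q) := fun p q c f => by
      have := g3 p q c
      rw [f] at this
      omega
    refine bus (a := 0) (N := N) hρ (fun r _ => c1 r) (fun r _ a i b r' _ => c2 r a i b r')
      (fun r _ => c3 r) (fun r _ => c4 r) (fun r _ => c5 r)
      (fun x => if x.2 then sr (g (ν x.1)) else er (g (ν x.1)))
      (fun x => if x.2 then sc (g (ν x.1)) else ec (g (ν x.1))) (fun p => K (g (ν p)))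
      (fun x => ?_) ?_ (fun p r _ => k4 _ r) (fun p q c => k5 _ _ (g4 p q c))
      fun p => ⟨(k6 _).1, (k6 _).2.mono Subset.rfl (singleton_subset_iff.2 (k1 _).2.2.2.2)⟩
    · have := k1 (g (ν x.1))
      split_ifs <;> omega
    · rintro ⟨p, _ | _⟩ ⟨q, _ | _⟩ c
      exacts [g3 p q fun f => c (f ▸ rfl), (k3 _ _).symm, k3 _ _,
        k2 _ _ (g4 p q fun f => c (f ▸ rfl))]
  obtain ⟨r0, h1⟩ := fiber er Finset.univ _ (2 * (h * h * 2 * (3 * (h * h * 2))))
    (not_le.1 d1).le (by simp)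
  obtain ⟨σ, h2⟩ := fiber (fun p => decide (sr p < r0)) _ 2 _
    ((Finset.card_le_univ _).trans (by simp)) h1
  obtain ⟨X, hX⟩ : ∃ X, X = (Finset.univ.filter fun p => er p = r0).filter
    fun p => decide (sr p < r0) = σ := ⟨_, rfl⟩
  rw [← hX] at h2
  have x1 : ∀ p ∈ X, er p = r0 ∧ decide (sr p < r0) = σ := fun p hp => by
    rw [hX] at hp
    simpa using hp
  obtain ⟨p0, hp0⟩ := Finset.card_pos.1 (show 0 < X.card by omega)
  have r1 : r0 < N := (x1 p0 hp0).1 ▸ (k1 p0).2.2.1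
  obtain ⟨g, J, g1, g2, g3, g4⟩ : ∃ (g : Fin (h * h) × Bool → _) (J : Fin (h * h) → Set V),
      Injective g ∧ (∀ x, g x ∈ X ∧ e (g x) ∈ J x.1) ∧
      (∀ p, Conn G (J p) ∧ J p ⊆ ⋃ i < ρ, C r0 i) ∧ ∀ p q, p ≠ q → Disjoint (J p) (J q) := by
    have u : ∀ i < ρ, C r0 i ⊆ ⋃ i < ρ, C r0 i := fun i a =>
      subset_iUnion₂ (s := fun i (_ : i < ρ) => C r0 i) i a
    by_cases d2 : h * h * 2 ≤ (X.image ec).card
    · exact pairing (S := C r0) (L := ρ - 1) (fun j a => ⟨c1 _ r1 j (by omega), u j (by omega)⟩)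
        (fun j a => c3 _ r1 j (by omega)) (fun i a j b c => c2 _ r1 i (by omega) _ r1 j (by omega)
          fun f => c (congrArg Prod.snd f)) e ec X
        (fun x a => ⟨by have := k1 x; omega, (x1 x a).1 ▸ (k1 x).2.2.2.2⟩) d2
    · obtain ⟨i0, h3⟩ := fiber ec X _ _ (not_le.1 d2).le h2
      obtain ⟨p1, hp1⟩ := Finset.card_pos.1 (show 0 < (X.filter fun x => ec x = i0).card by omega)
      have i1 : i0 < ρ := (Finset.mem_filter.1 hp1).2 ▸ (k1 p1).2.2.2.1
      obtain ⟨f, l, f1, f2⟩ := c6 r0 r1 i0 i1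
      have : ∀ p, ∃ t j, p ∈ (X.filter fun x => ec x = i0) → j ≤ l t ∧ f t j = e p := fun p => by
        by_cases c : p ∈ X.filter fun x => ec x = i0
        · obtain ⟨a, b⟩ := Finset.mem_filter.1 c
          obtain ⟨t, j, c⟩ := f2 (e p) ((x1 p a).1 ▸ b ▸ (k1 p).2.2.2.2)
          exact ⟨t, j, fun _ => c⟩
        · exact ⟨0, 0, fun a => absurd a c⟩
      choose t j hj using this
      obtain ⟨t0, h4⟩ := fiber t _ 3 _ ((Finset.card_le_univ _).trans (by simp)) h3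
      have y1 : ∀ p ∈ (X.filter fun x => ec x = i0).filter fun x => t x = t0,
          j p ≤ l t0 ∧ f t0 (j p) = e p := fun p a =>
        (Finset.mem_filter.1 a).2 ▸ hj p (Finset.mem_filter.1 a).1
      obtain ⟨g, J, g1, g2, g3⟩ := pairing (S := fun x => {f t0 x}) (L := l t0) (n := h * h)
        (U := ⋃ i < ρ, C r0 i) (fun x a => ⟨conn_singleton _ _,
          singleton_subset_iff.2 (u i0 i1 ((f1 t0).1 x a))⟩)
        (fun x a => ⟨_, rfl, _, rfl, (f1 t0).2.1 x a⟩)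
        (fun x a y b c => disjoint_singleton.2 fun z => c ((f1 t0).2.2 x a y b z)) e j _
        (fun x a => ⟨(y1 x a).1, (y1 x a).2.symm⟩) (by
          rw [Finset.card_image_of_injOn fun x a y b c => k0 (by
            rw [← (y1 x a).2, ← (y1 y b).2, c])]
          exact h4.le)
      exact ⟨g, J, g1, fun x => ⟨(Finset.mem_filter.1 (Finset.mem_filter.1 (g2 x).1).1).1, (g2 x).2⟩,
        g3⟩
  choose K' q1 q2 q3 using fun p => flip (c1 _ (k1 p).1 _ (k1 p).2.1).1 (k6 p).1 (k6 p).2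
  have j1 : ∀ p q, Disjoint (K p) (J q) := fun p q => Disjoint.mono_right (g3 q).2 (by
    simp only [disjoint_iUnion_right]
    exact k4 p r0 r1)
  obtain ⟨a, M, a1, a2, a3⟩ : ∃ a M, M ≤ N ∧ (∀ r, a ≤ r → r < M → r ≠ r0) ∧
      ∀ p ∈ X, a ≤ sr p ∧ sr p < M := by
    cases σ
    · refine ⟨r0 + 1, N, le_rfl, fun r a _ => by omega, fun p a => ?_⟩
      have := k3 p p
      have := k1 p
      have := x1 p a
      simp only [decide_eq_false_iff_not] at this
      omega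
    · refine ⟨0, r0, r1.le, fun r _ a => by omega, fun p a => ?_⟩
      simpa using (x1 p a).2
  have g5 : ∀ p q σ τ, p ≠ q → g (ν p, σ) ≠ g (ν q, τ) := fun p q σ τ c f =>
    c (ν.injective (congrArg Prod.fst (g1 f)))
  refine bus (a := a) (N := M) hρ (fun r _ b => c1 r (by omega))
    (fun r _ b i c r' _ d => c2 r (by omega) i c r' (by omega)) (fun r _ b => c3 r (by omega))
    (fun r _ b => c4 r (by omega)) (fun r _ b => c5 r (by omega))
    (fun x => sr (g (ν x.1, x.2))) (fun x => sc (g (ν x.1, x.2)))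
    (fun p => K (g (ν p, true)) ∪ (J (ν p) ∪ K' (g (ν p, false))))
    (fun x => ⟨(a3 _ (g2 _).1).1, (a3 _ (g2 _).1).2, (k1 _).2.1⟩)
    (fun x y c => k2 _ _ fun f => c ?_) (fun p r b c i d => ?_) (fun p q c => ?_) fun p => ⟨?_, ?_⟩
  · have := g1 f
    exact Prod.ext (ν.injective (Prod.mk.inj this).1) (Prod.mk.inj this).2
  · refine disjoint_union_left.2 ⟨k4 _ r (by omega) i d, disjoint_union_left.2
      ⟨Disjoint.mono_left (g3 _).2 ?_, (k4 _ r (by omega) i d).mono_left (q1 _)⟩⟩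
    simp only [disjoint_iUnion_left]
    exact fun j e => c2 _ r1 j e r (by omega) i d fun f => a2 r b c (congrArg Prod.fst f).symm
  · simp only [disjoint_union_left, disjoint_union_right]
    exact ⟨⟨k5 _ _ (g5 p q _ _ c), (j1 _ _).symm, (k5 _ _ (g5 p q _ _ c)).mono_left (q1 _)⟩,
      ⟨j1 _ _, g4 _ _ (ν.injective.ne c), (j1 _ _).mono_left (q1 _)⟩,
      (k5 _ _ (g5 p q _ _ c)).mono_right (q1 _), (j1 _ _).symm.mono_right (q1 _),
      (k5 _ _ (g5 p q _ _ c)).mono (q1 _) (q1 _)⟩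
  · have := pl.conn_union (g3 (ν p)).1 (q2 _) (g2 (ν p, false)).2 (mem_insert _ _)
    rw [union_insert, insert_eq_of_mem (mem_union_left _ (g2 (ν p, false)).2)] at this
    rw [← union_assoc]
    exact conn_union_touch (k6 _).1 this ((k6 _).2.mono Subset.rfl
      (singleton_subset_iff.2 (Or.inl (g2 (ν p, true)).2)))
  · exact (q3 _).mono (insert_subset (Or.inr (Or.inr (Or.inl (g2 (ν p, false)).2)))
      fun v a => Or.inr (Or.inr (Or.inr a))) Subset.rfl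

end BusCore

end Pool.Agent.MP_9d78a0_co.fb

end MrgPart3

-- ======== part 4: formerly Pool.Agent.MP_9d78a0_co.fb.Bus
section MrgPart4

/-! Jumps between distant rows of a cylinder give clique minors. -/

set_option autoImplicit false

namespace Pool.Agent.MP_9d78a0_co.fb

open Set Function

namespace Bus

variable {V : Type} {G : SimpleGraph V} {U : Set V} {N p : ℕ} {C : ℕ → ℕ → Set V}

theorem inner {M J : Set V} {u v : V} (h : Conn G J) (hu : u ∈ J) (hv : v ∈ J)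
    (hM : ∀ x ∈ J, x ∈ M → x = u ∨ x = v) (e : u ≠ v) :
    ∃ K ⊆ J, Disjoint K M ∧ Conn G (insert u K) ∧ Touch G (insert u K) {v} := by
  obtain ⟨x, y, -, -, -, y2, xy, l⟩ := link_exit (T := {v}ᶜ) (h.2 u hu v hv) e (not_not.2 rfl)
  have u1 : u ∈ J ∩ {v}ᶜ := ⟨hu, e⟩
  have k : insert u (cp G (J ∩ {v}ᶜ) u \ {u}) = cp G (J ∩ {v}ᶜ) u :=
    insert_sdiff_self_of_mem (cp_self u1)
  refine ⟨cp G (J ∩ {v}ᶜ) u \ {u}, fun z a => a.1.1.1, disjoint_left.2 fun z a b => ?_,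
    k.symm ▸ cp_conn u1, x, k.symm ▸ ⟨l.mem u1, l⟩, y, not_not.1 y2, xy⟩
  exact (hM z a.1.1.1 b).elim a.2 a.1.1.2

theorem rows (h : Cyl G U N p C) {r r' : ℕ} (a : r < N) (b : r' < N) (c : r ≠ r') :
    Disjoint (Row C p r) (Row C p r') := by
  refine disjoint_left.2 ?_
  rintro x ⟨i, i1, i2⟩ ⟨j, j1, j2⟩
  exact disjoint_left.1 (h.dis r a i i1 r' b j j1 fun f => c (congrArg Prod.fst f)) i2 j2

theorem core {h a M : ℕ} (hp : 2 * h ≤ p) (hC : Cyl G U N p C) (hM : M ≤ N)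
    (row : (Fin h × Fin h) × Bool → ℕ) (x : (Fin h × Fin h) × Bool → V)
    (K : Fin h × Fin h → Set V) (k1 : ∀ y, a ≤ row y ∧ row y < M ∧ x y ∈ Row C p (row y))
    (k2 : ∀ y z, y ≠ z → row y + 2 * h ≤ row z ∨ row z + 2 * h ≤ row y)
    (k3 : ∀ q, ∀ r, a ≤ r → r < M → Disjoint (K q) (Row C p r))
    (k4 : ∀ q q', q ≠ q' → Disjoint (K q) (K q'))
    (k5 : ∀ q, Conn G (insert (x (q, true)) (K q)) ∧
      Touch G (insert (x (q, true)) (K q)) {x (q, false)}) :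
    IsMinor (⊤ : SimpleGraph (Fin h)) G := by
  rcases Nat.eq_zero_or_pos h with rfl | hh
  · exact ⟨fun _ => ∅, fun w => w.elim0, fun w => w.elim0, fun w => w.elim0⟩
  choose col c1 c2 using fun y => (k1 y).2.2
  refine BusCore.bus (a := a) (N := M) hp (fun r _ b i c => (hC.conn r (by omega) i c).2)
    (fun r _ b i c r' _ d => hC.dis r (by omega) i c r' (by omega)) (fun r _ b i c => ?_)
    (fun r _ b => ?_) (fun r _ b => hC.ver r (by omega)) row col K
    (fun y => ⟨(k1 y).1, (k1 y).2.1, c1 y⟩) k2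
    (fun q r b c i d => (k3 q r b c).mono_right fun z e => Exists.intro i (And.intro d e)) k4 fun q => ⟨?_, ?_⟩
  · have := hC.hor r (by omega) i (by omega)
    rwa [Nat.mod_eq_of_lt c] at this
  · have := hC.hor r (by omega) (p - 1) (by omega)
    rwa [Nat.sub_add_cancel (by omega), Nat.mod_self] at this
  · have := pl.conn_union (hC.conn _ (by have := k1 (q, true); omega) _ (c1 (q, true))).2 (k5 q).1
      (c2 (q, true)) (mem_insert _ _)
    rwa [union_insert, insert_eq_of_mem (mem_union_left _ (c2 (q, true)))] at this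
  · exact (k5 q).2.mono (insert_subset (Or.inl (c2 _)) subset_union_right)
      (singleton_subset_iff.2 (c2 _))

theorem direct {h n : ℕ} (hp : 2 * h ≤ p) (hC : Cyl G U N p C) {J : ℕ → Set V} {u v : ℕ → V}
    {r r' : ℕ → ℕ} (k1 : ∀ e < n, Jump G (Mesh C N p) (J e) (u e) (v e) ∧ r e < N ∧ r' e < N ∧
      u e ∈ Row C p (r e) ∧ v e ∈ Row C p (r' e)) (g : Fin h × Fin h → ℕ) (g1 : ∀ q, g q < n)
    (k2 : ∀ q q', (r (g q) + 2 * h ≤ r' (g q') ∨ r' (g q') + 2 * h ≤ r (g q)) ∧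
      (q ≠ q' → Disjoint (J (g q)) (J (g q')) ∧
        (r (g q) + 2 * h ≤ r (g q') ∨ r (g q') + 2 * h ≤ r (g q)) ∧
        (r' (g q) + 2 * h ≤ r' (g q') ∨ r' (g q') + 2 * h ≤ r' (g q)))) :
    IsMinor (⊤ : SimpleGraph (Fin h)) G := by
  choose K q1 q2 q3 using fun q : Fin h × Fin h => by
    obtain ⟨⟨a1, a2, a3, a4⟩, b1, b2, b3, b4⟩ := k1 _ (g1 q)
    exact inner a1 a2 a3 a4 fun e => disjoint_left.1 (rows hC b1 b2 (by
      have := (k2 q q).1
      have := q.1.2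
      omega)) b3 (e ▸ b4)
  refine core (a := 0) hp hC le_rfl (fun y => if y.2 then r (g y.1) else r' (g y.1))
    (fun y => if y.2 then u (g y.1) else v (g y.1)) K ?_ ?_
    (fun q x _ b => (q2 q).mono_right fun z e => Exists.intro x (And.intro b e))
    (fun q q' c => ((k2 q q').2 c).1.mono (q1 q) (q1 q')) q3
  · rintro ⟨q, _ | _⟩
    exacts [⟨Nat.zero_le _, (k1 _ (g1 q)).2.2.1, (k1 _ (g1 q)).2.2.2.2⟩,
      ⟨Nat.zero_le _, (k1 _ (g1 q)).2.1, (k1 _ (g1 q)).2.2.2.1⟩]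
  · rintro ⟨q, _ | _⟩ ⟨q', _ | _⟩ c
    exacts [((k2 q q').2 fun f => c (f ▸ rfl)).2.2, (k2 q' q).1.symm, (k2 q q').1,
      ((k2 q q').2 fun f => c (f ▸ rfl)).2.1]

end Bus

open Bus in
theorem busS : BusS := by
  intro h V G U N p C J u v r r' hp _ hC k1 k2
  let ν : Fin h × Fin h ≃ Fin (h * h) := finProdFinEquiv
  exact direct hp hC k1 (fun q => ν q) (fun q => (ν q).2) fun q q' =>
    ⟨(k2 _ (ν q).2 _ (ν q').2).1, fun c => (k2 _ (ν q).2 _ (ν q').2).2 fun f =>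
      c (ν.injective (Fin.ext f))⟩

open Bus in
theorem jumpsS : JumpsS := by
  intro h
  obtain ⟨κ, hκ⟩ := BusCore.jumps h
  refine ⟨κ, fun V G U N p C J u v r r' hp _ hC k1 k2 => ?_⟩
  rcases Nat.eq_zero_or_pos h with rfl | hh
  · exact ⟨fun _ => ∅, fun w => w.elim0, fun w => w.elim0, fun w => w.elim0⟩
  choose sc s1 s2 using fun e : Fin κ => (k1 e e.2).2.2.2.1
  choose ec e1 e2 using fun e : Fin κ => (k1 e e.2).2.2.2.2
  choose K q1 q2 q3 q4 using fun e : Fin κ => by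
    obtain ⟨⟨a1, a2, a3, a4⟩, b1, b2, b3, b4⟩ := k1 e e.2
    exact inner a1 a2 a3 a4 fun f => disjoint_left.1 (rows hC b1 b2 (by
      have := (k2 e e.2 e e.2).1
      omega)) b3 (f ▸ b4)
  have k3 : ∀ e e' : Fin κ, e ≠ e' → _ := fun e e' c =>
    (k2 e e.2 e' e'.2).2 fun f => c (Fin.ext f)
  refine hκ (N := N) hp (fun x b i c => (hC.conn x b i c).2) hC.dis (fun x b i c => ?_)
    (fun x b => ?_) hC.ver hC.three (fun e => r e) sc (fun e => r' e) ec K (fun e => v e)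
    (fun e e' c => not_not.1 fun f => disjoint_left.1 (k3 e e' f).1 (k1 e e.2).1.2.2.1
      ((show v e = v e' from c) ▸ (k1 e' e'.2).1.2.2.1))
    (fun e => ⟨(k1 e e.2).2.1, s1 e, (k1 e e.2).2.2.1, e1 e, e2 e⟩) (fun e e' c => (k3 e e' c).2)
    (fun e e' => (k2 e e.2 e' e'.2).1)
    (fun e x a i b => (q2 e).mono_right fun z c =>
      Exists.intro x (And.intro a (Exists.intro i (And.intro b c))))
    (fun e e' c => (k3 e e' c).1.mono (q1 e) (q1 e')) fun e => ⟨?_, ?_⟩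
  · have := hC.hor x b i (by omega)
    rwa [Nat.mod_eq_of_lt c] at this
  · have := hC.hor x b (p - 1) (by omega)
    rwa [Nat.sub_add_cancel (by omega), Nat.mod_self] at this
  · have := pl.conn_union (hC.conn _ (k1 e e.2).2.1 _ (s1 e)).2 (q3 e) (s2 e) (mem_insert _ _)
    rwa [union_insert, insert_eq_of_mem (mem_union_left _ (s2 e))] at this
  · exact (q4 e).mono (insert_subset (Or.inl (s2 e)) subset_union_right) Subset.rfl

end Pool.Agent.MP_9d78a0_co.fb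

end MrgPart4

-- ======== part 5: formerly Pool.Agent.MP_9d78a0_co.fb.Levb
section MrgPart5

/-! Bands from quiet ranges of rows. -/

set_option autoImplicit false

namespace Pool.Agent.MP_9d78a0_co.fb

open Set Function

namespace Levb

variable {V : Type} {G : SimpleGraph V} {U A : Set V} {N p : ℕ} {C : ℕ → ℕ → Set V}

theorem row_uniq (h : Cyl G U N p C) {x : V} {r r' : ℕ} (h1 : r < N) (h2 : r' < N)
    (hx : x ∈ Row C p r) (hx' : x ∈ Row C p r') : r = r' := by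
  obtain ⟨j, hj, hx⟩ := hx
  obtain ⟨j', hj', hx'⟩ := hx'
  by_contra c
  exact disjoint_left.1 (h.dis r h1 j hj r' h2 j' hj' fun e => c (congrArg Prod.fst e)) hx hx'

theorem row_conn (h : Cyl G U N p C) (hp : 0 < p) {r : ℕ} (hr : r < N) : Conn G (Row C p r) := by
  have e : Row C p r = ⋃ j ∈ Icc 0 (p - 1), C r j := by
    ext x
    simp only [Row, mem_iUnion, mem_Icc, exists_prop]
    exact exists_congr fun j => and_congr_left' (by omega)
  rw [e]
  refine conn_chain (Nat.zero_le _) (fun j hj => (h.conn r hr j (by have := hj.2; omega)).2)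
    fun j _ hj => .inr ?_
  have := h.hor r hr j (by omega)
  rwa [Nat.mod_eq_of_lt (by omega)] at this

theorem col_conn (h : Cyl G U N p C) {j a b : ℕ} (hj : j < p) (hab : a ≤ b) (hb : b < N) :
    Conn G (⋃ r ∈ Icc a b, C r j) :=
  conn_chain (S := fun r => C r j) hab (fun r hr => (h.conn r (by have := hr.2; omega) j hj).2)
    fun r _ hr => .inr (h.ver r (by omega) j hj)

theorem rows_conn (h : Cyl G U N p C) (hp : 0 < p) {a b : ℕ} (hab : a ≤ b) (hb : b < N) :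
    Conn G (⋃ r ∈ Icc a b, Row C p r) :=
  conn_chain hab (fun r hr => row_conn h hp (by have := hr.2; omega)) fun r _ hr =>
    .inr ((h.ver r (by omega) 0 hp).mono (fun _ hx => ⟨0, hp, hx⟩) fun _ hx => ⟨0, hp, hx⟩)

theorem free_col [Finite V] (h : Cyl G U N p C) (hA : A.ncard < p) :
    ∃ j < p, ∀ i < N, Disjoint A (C i j) := by
  by_contra c
  push Not at c
  simp only [not_disjoint_iff] at c
  haveI : Nonempty V := (c 0 (by omega)).elim fun _ h => h.2.elim fun x _ => ⟨x⟩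
  choose! i hi x hx hx' using c
  have := ncard_le_ncard_of_injOn (s := Iio p) (t := A) x (fun j hj => hx j hj)
    fun j hj j' hj' e => by
      by_contra c
      exact disjoint_left.1 (h.dis _ (hi j hj) j hj _ (hi j' hj') j' hj'
        fun e => c (congrArg Prod.snd e)) (hx' j hj) (e ▸ hx' j' hj')
  rw [← Finset.coe_range, ncard_coe_finset, Finset.card_range] at this
  omega

/-- the component of `x` off the mesh has a neighbour in row `r` -/
def Att (G : SimpleGraph V) (A : Set V) (C : ℕ → ℕ → Set V) (N p : ℕ) (x : V) (r : ℕ) : Prop :=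
  x ∈ (Mesh C N p ∪ A)ᶜ ∧ ∃ z ∈ cp G (Mesh C N p ∪ A)ᶜ x, ∃ u ∈ Row C p r, u ∉ A ∧ G.Adj z u

/-- the rows that belong to a vertex -/
def At (G : SimpleGraph V) (A : Set V) (C : ℕ → ℕ → Set V) (N p : ℕ) (x : V) (r : ℕ) : Prop :=
  x ∈ Row C p r ∨ Att G A C N p x r

theorem att_link {x y : V} {r : ℕ} (h : Att G A C N p x r) (hy : y ∈ cp G (Mesh C N p ∪ A)ᶜ x) :
    Att G A C N p y r := by
  obtain ⟨_, z, hz, h⟩ := h
  exact ⟨hy.1, z, ⟨hz.1, hy.2.symm.trans hz.2⟩, h⟩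

theorem att_adj {x y : V} {r : ℕ} (h : Att G A C N p x r) (hy : y ∈ (Mesh C N p ∪ A)ᶜ)
    (e : G.Adj x y) : Att G A C N p y r := att_link h (cp_closed (cp_self h.1) hy e)

theorem att_of {x u : V} {r : ℕ} (hx : x ∈ (Mesh C N p ∪ A)ᶜ) (hu : u ∈ Row C p r) (hA : u ∉ A)
    (e : G.Adj x u) : Att G A C N p x r := ⟨hx, x, cp_self hx, u, hu, hA, e⟩

theorem att_near {lo hi lam : ℕ} (hq : Quiet G C N p A lo hi lam) {x : V} {r r' : ℕ}
    (h : Att G A C N p x r) (h' : Att G A C N p x r') (h1 : lo ≤ r) (h2 : r < hi) (h3 : r' < N) :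
    r < r' + lam ∧ r' < r + lam := by
  obtain ⟨hx, z, hz, u, hu, huA, e⟩ := h
  obtain ⟨-, z', hz', v, hv, hvA, e'⟩ := h'
  refine hq (insert u (insert v (cp G (Mesh C N p ∪ A)ᶜ x))) u v r r'
    ⟨?_, .inl rfl, .inr (.inl rfl), ?_⟩ ?_ h1 h2 h3 hu hv
  · exact conn_union_touch (conn_singleton G u) (conn_union_touch (conn_singleton G v)
      (cp_conn hx) ⟨v, rfl, z', hz', e'.symm⟩) ⟨u, rfl, z, .inr hz, e.symm⟩
  · rintro y (c | c | c) hy
    exacts [.inl c, .inr c, absurd (.inl hy) c.1]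
  · rw [disjoint_left]
    rintro y (rfl | rfl | c) hy
    exacts [huA hy, hvA hy, c.1 (.inr hy)]

theorem edge_near {lo hi lam : ℕ} (hq : Quiet G C N p A lo hi lam) {u v : V} {r r' : ℕ}
    (hu : u ∈ Row C p r) (hv : v ∈ Row C p r') (huA : u ∉ A) (hvA : v ∉ A) (e : G.Adj u v)
    (h1 : lo ≤ r) (h2 : r < hi) (h3 : r' < N) : r < r' + lam ∧ r' < r + lam := by
  refine hq {u, v} u v r r' ⟨conn_pair e, .inl rfl, .inr rfl, fun _ h _ => h⟩ ?_ h1 h2 h3 hu hv
  rw [disjoint_left]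
  rintro y (rfl | rfl) hy
  exacts [huA hy, hvA hy]

theorem div_near {a b lam : ℕ} (h : a < b + lam) : a / lam ≤ b / lam + 1 := by
  rcases Nat.eq_zero_or_pos lam with rfl | h0
  · simp
  · rw [← Nat.add_div_right _ h0]
    exact Nat.div_le_div_right h.le

/-- the least row that belongs to a vertex -/
noncomputable def rw (G : SimpleGraph V) (A : Set V) (C : ℕ → ℕ → Set V) (N p : ℕ) (x : V) : ℕ :=
  sInf {r | r < N ∧ At G A C N p x r}

theorem rw_le {x : V} {r : ℕ} (hr : r < N) (h : At G A C N p x r) : rw G A C N p x ≤ r :=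
  Nat.sInf_le ⟨hr, h⟩

theorem rw_mem {x : V} {r : ℕ} (hr : r < N) (h : At G A C N p x r) :
    rw G A C N p x < N ∧ At G A C N p x (rw G A C N p x) :=
  Nat.sInf_mem (s := {r | r < N ∧ At G A C N p x r}) ⟨r, hr, h⟩

theorem rw_row (h : Cyl G U N p C) {x : V} {r : ℕ} (hr : r < N) (hx : x ∈ Row C p r) :
    rw G A C N p x = r := by
  obtain ⟨h1, h2 | h2⟩ := rw_mem (G := G) (A := A) hr (.inl hx)
  · exact row_uniq h h1 hr h2 hx
  · exact absurd (.inl ⟨r, hr, hx⟩) h2.1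

theorem rw_att {x : V} {r : ℕ} (hr : r < N) (hx : Att G A C N p x r) :
    rw G A C N p x < N ∧ Att G A C N p x (rw G A C N p x) := by
  obtain ⟨h1, h2 | h2⟩ := rw_mem hr (.inr hx)
  · exact absurd (.inl ⟨_, h1, h2⟩) hx.1
  · exact ⟨h1, h2⟩

theorem rw_adj {x y : V} {r : ℕ} (hr : r < N) (hx : Att G A C N p x r)
    (hy : y ∈ (Mesh C N p ∪ A)ᶜ) (e : G.Adj x y) : rw G A C N p y = rw G A C N p x := by
  have a := rw_att hr hx
  have b := rw_att hr (att_adj hx hy e)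
  exact le_antisymm (rw_le a.1 (.inr (att_adj a.2 hy e)))
    (rw_le b.1 (.inr (att_adj b.2 hx.1 e.symm)))

theorem band (h : Cyl G U N p C) (hp : 0 < p) {lam s t a : ℕ} (hl : 0 < lam) (ht : t ≤ p)
    (hN : a + (s + 1) * lam ≤ N) (hq : Quiet G C N p A a (a + (s + 1) * lam) lam)
    (hA : ∀ r, a ≤ r → r < a + (s + 1) * lam → Disjoint A (Row C p r)) :
    LBand G A {x | ∃ r, a ≤ r ∧ r < a + (s + 1) * lam ∧ At G A C N p x r}
      (fun x => (rw G A C N p x - a) / lam)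
      (fun l => ⋃ r ∈ Icc (a + l * lam) (a + l * lam + (lam - 1)), Row C p r)
      (fun i l => ⋃ r ∈ Icc (a + l * lam) (a + l * lam + (lam - 1)), C r i) s t := by
  have m1 : (s + 1) * lam = s * lam + lam := by ring
  have m2 : ∀ l ≤ s, l * lam ≤ s * lam := fun l hl => Nat.mul_le_mul_right _ hl
  have nA : ∀ {x r}, a ≤ r → r < a + (s + 1) * lam → x ∈ Row C p r → x ∉ A :=
    fun h1 h2 hx c => disjoint_left.1 (hA _ h1 h2) c hx
  refine ⟨?_, ?_, ?_, ?_, fun l hs => ⟨?_, ?_⟩, fun i hi l hs => ⟨?_, ?_⟩, ?_, ?_⟩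
  · rw [disjoint_left]
    rintro x ⟨r, h1, h2, h3 | h3⟩
    exacts [nA h1 h2 h3, fun c => h3.1 (.inr c)]
  · rintro x ⟨r, h1, h2, h3⟩
    have := rw_le (by omega) h3
    exact Nat.lt_add_one_iff.1 ((Nat.div_lt_iff_lt_mul hl).2 (by omega))
  · rintro v ⟨r, h1, h2, h3⟩ l1 l2 y e
    have l3 := (Nat.le_div_iff_mul_le hl).1 (Nat.succ_le_of_lt l1)
    have l4 := (Nat.div_lt_iff_lt_mul hl).1 l2
    refine or_iff_not_imp_left.2 fun hy => ?_
    have key : ∀ r', r' < N → At G A C N p y r' → rw G A C N p v < r' + lam →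
        r' < rw G A C N p v + lam → rw G A C N p v < rw G A C N p y + lam →
        (∃ r, a ≤ r ∧ r < a + (s + 1) * lam ∧ At G A C N p y r) ∧
          (rw G A C N p y - a) / lam ≤ (rw G A C N p v - a) / lam + 1 ∧
          (rw G A C N p v - a) / lam ≤ (rw G A C N p y - a) / lam + 1 := fun r' k1 k2 k3 k4 k5 =>
      have := rw_le k1 k2
      ⟨⟨r', by omega, by omega, k2⟩, div_near (by omega), div_near (by omega)⟩
    by_cases c : y ∈ Mesh C N p
    · obtain ⟨r', k1, k2⟩ := c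
      have k3 := rw_row (A := A) h k1 k2
      rcases h3 with h3 | h3
      · have k4 := rw_row (A := A) h (by omega) h3
        have := edge_near hq h3 k2 (nA h1 h2 h3) hy e h1 h2 k1
        exact key r' k1 (.inl k2) (by omega) (by omega) (by omega)
      · have k4 := rw_att (by omega) h3
        have := att_near hq k4.2 (att_of h3.1 k2 hy e) (by omega) (by omega) k1
        exact key r' k1 (.inl k2) (by omega) (by omega) (by omega)
    · have c' : y ∈ (Mesh C N p ∪ A)ᶜ := fun k => k.elim c hy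
      rcases h3 with h3 | h3
      · have k4 := rw_row (A := A) h (by omega) h3
        have k5 := att_of c' h3 (nA h1 h2 h3) e.symm
        have k6 := rw_att (by omega) k5
        have := att_near hq k5 k6.2 h1 h2 k6.1
        exact key r (by omega) (.inr k5) (by omega) (by omega) (by omega)
      · have k4 := rw_att (by omega) h3
        have k5 := rw_adj (by omega) h3 c' e
        exact key _ k4.1 (.inr (att_adj k4.2 c' e)) (by omega) (by omega) (by omega)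
  · rintro u ⟨r, h1, h2, h3⟩ v ⟨r', k1, k2, k3 | k3⟩ e l1
    · have k4 := rw_row (A := A) h (by omega) k3
      have k5 := Nat.div_add_mod (r' - a) lam
      have k6 := Nat.mod_lt (r' - a) hl
      simp only [k4]
      rw [mul_comm] at k5
      exact mem_biUnion (⟨by omega, by omega⟩ : r' ∈ Icc _ _) k3
    · exfalso
      rcases h3 with h3 | h3
      · have k4 := rw_row (A := A) h (by omega) h3
        have k5 := rw_le (by omega) (.inr (att_of k3.1 h3 (nA h1 h2 h3) e.symm))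
        have := Nat.div_le_div_right (c := lam) (Nat.sub_le_sub_right k5 a)
        rw [k4] at l1
        omega
      · rw [rw_adj (by omega) h3 k3.1 e] at l1
        omega
  · have := m2 l hs
    exact rows_conn h hp (by omega) (by omega)
  · intro v hv
    obtain ⟨r, ⟨h1, h2⟩, h3⟩ := mem_iUnion₂.1 hv
    have := m2 l hs
    refine ⟨⟨r, by omega, by omega, .inl h3⟩, ?_⟩
    simp only [rw_row (A := A) h (by omega : r < N) h3]
    exact Nat.div_eq_of_lt_le (by omega) (by rw [Nat.succ_mul]; omega)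
  · have := m2 l hs
    exact col_conn h (by omega) (by omega) (by omega)
  · exact iUnion₂_mono fun r _ x hx => ⟨i, by omega, hx⟩
  · intro i hi j hj e l hs
    have := m2 l hs
    simp only [disjoint_iUnion_left, disjoint_iUnion_right]
    exact fun r h1 r' h2 => h.dis _ (by have := h2.2; omega) i (by omega) _
      (by have := h1.2; omega) j (by omega) fun c => e (congrArg Prod.snd c)
  · intro i hi l hs
    have h1 := m2 (l + 1) hs
    have h2 : (l + 1) * lam = l * lam + lam := by ring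
    refine (h.ver (a + l * lam + (lam - 1)) (by omega) i (by omega)).mono ?_ ?_
    · exact subset_biUnion_of_mem (u := fun r => C r i) ⟨by omega, by omega⟩
    · exact subset_biUnion_of_mem (u := fun r => C r i) ⟨by omega, by omega⟩

end Levb

open Levb in
theorem levbS : LevbS := by
  intro V _ G U A N p lam s t q C α hl hq hA ht h h1 h2
  obtain ⟨j0, hj, hc⟩ := free_col h hA
  have hp : 0 < p := by omega
  have hN : 0 < N := by have := h1 0 hq; omega
  have col := col_conn h hj (Nat.zero_le (N - 1)) (by omega)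
  refine ⟨{x | ∃ e < q, ∃ r, α e ≤ r + lam ∧ r < α e + (s + 1) * lam + lam ∧ x ∈ Row C p r} ∪
    ⋃ r ∈ Icc 0 (N - 1), C r j0,
    fun e => {x | ∃ r, α e ≤ r ∧ r < α e + (s + 1) * lam ∧ At G A C N p x r}, ?_, ?_, ?_, ?_,
    fun e he => ⟨⟨_, _, _, band h hp hl ht (by have := h1 e he; omega) (h1 e he).2.2.1
      fun r k1 k2 => (h1 e he).2.2.2 r (by omega) (by omega)⟩, ?_, ?_⟩⟩
  · rintro x (⟨e, he, r, k1, k2, j, k3, k4⟩ | hx)
    · exact (h.conn r (by have := h1 e he; omega) j k3).1 k4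
    · obtain ⟨r, k1, k2⟩ := mem_iUnion₂.1 hx
      exact (h.conn r (by have := k1.2; omega) j0 hj).1 k2
  · obtain ⟨a, ha⟩ := col.1
    refine conn_of_center (.inr ha) ?_
    rintro x (⟨e, he, r, k1, k2, k3⟩ | hx)
    · have hr : r < N := by have := h1 e he; omega
      obtain ⟨y, hy⟩ := (h.conn r hr j0 hj).2.1
      exact ((col.2 a ha y (mem_biUnion (⟨by omega, by omega⟩ : r ∈ Icc _ _) hy)).mono
        subset_union_right).trans (((row_conn h hp hr).2 y ⟨j0, hj, hy⟩ x k3).mono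
          fun z hz => .inl ⟨e, he, r, k1, k2, hz⟩)
    · exact (col.2 a ha x hx).mono subset_union_right
  · rw [disjoint_left]
    rintro x hx (⟨e, he, r, k1, k2, k3⟩ | k)
    · exact disjoint_left.1 ((h1 e he).2.2.2 r k1 k2) hx k3
    · obtain ⟨r, k1, k2⟩ := mem_iUnion₂.1 k
      exact disjoint_left.1 (hc r (by have := k1.2; omega)) hx k2
  · intro e he e' he' c
    rw [disjoint_left]
    rintro x ⟨r, k1, k2, k3⟩ ⟨r', l1, l2, l3⟩
    have a := h1 e he
    have b := h1 e' he'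
    have d : α e + (s + 1) * lam + 2 * lam ≤ α e' ∨ α e' + (s + 1) * lam + 2 * lam ≤ α e :=
      (Nat.lt_or_gt_of_ne c).imp (fun k => h2 e e' k he') fun k => h2 e' e k he
    rcases k3 with k3 | k3 <;> rcases l3 with l3 | l3
    · have := row_uniq h (by omega) (by omega) k3 l3
      omega
    · exact l3.1 (.inl ⟨r, by omega, k3⟩)
    · exact k3.1 (.inl ⟨r', by omega, l3⟩)
    · have := att_near a.2.2.1 k3 l3 k1 k2 (by omega)
      omega
  · rintro x ⟨r, k1, k2, k3 | k3⟩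
    · exact ⟨x, .inl ⟨e, he, r, by omega, by omega, k3⟩, ⟨r, k1, k2, .inl k3⟩, Link.refl _ _ _⟩
    · obtain ⟨hx, z, hz, u, hu, -, k4⟩ := id k3
      exact ⟨u, .inl ⟨e, he, r, by omega, by omega, hu⟩, ⟨r, k1, k2, .inl hu⟩,
        (((cp_conn hx).2 x (cp_self hx) z hz).mono
          fun y hy => by exact ⟨r, k1, k2, .inr (att_link k3 hy)⟩).trans
          (Link.single ⟨r, k1, k2, .inr (att_link k3 hz)⟩ ⟨r, k1, k2, .inl hu⟩ k4)⟩
  · rintro x ⟨r, k1, k2, k3 | k3⟩ hx y k4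
    · exact (hx (.inl ⟨e, he, r, by omega, by omega, k3⟩)).elim
    · by_cases c : y ∈ A
      · exact .inr (.inl c)
      · by_cases c' : y ∈ Mesh C N p
        · obtain ⟨r', l1, l2⟩ := c'
          have := att_near (h1 e he).2.2.1 k3 (att_of k3.1 l2 c k4) k1 k2 l1
          exact .inr (.inr (.inl ⟨e, he, r', by omega, by omega, l2⟩))
        · exact .inl ⟨r, k1, k2, .inr (att_adj k3 (fun k => k.elim c' c) k4)⟩

end Pool.Agent.MP_9d78a0_co.fb

end MrgPart5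

-- ======== part 6: formerly Pool.Agent.MP_9d78a0_co.fb.Ast
section MrgPart6

/-! Small separators in graphs with no large clique minor. -/

set_option autoImplicit false

namespace Pool.Agent.MP_9d78a0_co.fb

open Set Function

namespace Ast

variable {V : Type} {G : SimpleGraph V}

theorem ncard_biU [Finite V] {ι : Type} {C : Set ι} (hC : C.Finite) (f : ι → Set V) (b : ℕ)
    (h : ∀ c ∈ C, (f c).ncard ≤ b) : (⋃ c ∈ C, f c).ncard ≤ C.ncard * b := by
  induction C, hC using Set.Finite.induction_on with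
  | empty => simp
  | @insert a s ha hs ih =>
    rw [biUnion_insert, ncard_insert_of_notMem ha hs, Nat.succ_mul]
    have h1 := ih fun c hc => h c (Or.inr hc)
    have h2 := h a (Or.inl rfl)
    have h3 := ncard_union_le (f a) (⋃ c ∈ s, f c)
    omega

/-- balls around a set -/
def Bl (G : SimpleGraph V) (U A : Set V) : ℕ → Set V
  | 0 => ∅
  | j + 1 => A ∪ Bl G U A j ∪ {y | y ∈ U ∧ ∃ x ∈ Bl G U A j, G.Adj y x}

variable {U A : Set V}

theorem bl_sub (hA : A ⊆ U) (j : ℕ) : Bl G U A j ⊆ U := by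
  induction j with
  | zero => exact empty_subset _
  | succ j ih =>
    rintro v ((hv | hv) | hv)
    exacts [hA hv, ih hv, hv.1]

theorem bl_tree [Finite V] (hA : A ⊆ U) (j : ℕ) {v : V} (hv : v ∈ Bl G U A j) :
    ∃ T ⊆ U, Conn G T ∧ v ∈ T ∧ (T ∩ A).Nonempty ∧ T.ncard ≤ j := by
  induction j generalizing v with
  | zero => exact absurd hv (notMem_empty _)
  | succ j ih =>
    rcases hv with (hv | hv) | ⟨h1, x, hx, e⟩
    · exact ⟨{v}, singleton_subset_iff.2 (hA hv), conn_singleton _ _, rfl, ⟨v, rfl, hv⟩, by simp⟩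
    · obtain ⟨T, a1, a2, a3, a4, a5⟩ := ih hv
      exact ⟨T, a1, a2, a3, a4, by omega⟩
    · obtain ⟨T, a1, a2, a3, a4, a5⟩ := ih hx
      refine ⟨insert v T, insert_subset h1 a1, a2.insert a3 e, Or.inl rfl,
        a4.mono (inter_subset_inter_left _ (subset_insert _ _)), ?_⟩
      have := ncard_insert_le v T
      omega

theorem bl_thin [Finite V] (hA : A ⊆ U) {l : ℕ} (hl : 1 ≤ l) (hU : U.ncard ≤ l ^ 2) :
    ∃ j < l, (Bl G U A (j + 1) \ Bl G U A j).ncard ≤ l := by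
  by_contra hc
  push Not at hc
  have key : ∀ j ≤ l, j * (l + 1) ≤ (Bl G U A j).ncard := by
    intro j hj
    induction j with
    | zero => simp
    | succ j ih =>
      have h1 := ih (by omega)
      have h2 := hc j (by omega)
      have h3 : Bl G U A j ⊆ Bl G U A (j + 1) := fun v hv => Or.inl (Or.inr hv)
      have h4 := ncard_diff_add_ncard_of_subset h3
      rw [Nat.succ_mul]
      omega
  have h1 := key l le_rfl
  have h2 := ncard_le_ncard (bl_sub (G := G) hA l)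
  nlinarith

theorem bl_in {j : ℕ} {Q : Set V} (hQ : Conn G Q) (h1 : Q ⊆ U)
    (h2 : ∀ x ∈ Q, x ∈ Bl G U A (j + 1) → x ∈ Bl G U A j) (h3 : (Q ∩ A).Nonempty) :
    Q ⊆ Bl G U A j := by
  obtain ⟨a, ha, ha'⟩ := h3
  intro v hv
  by_contra c
  obtain ⟨x, y, -, hy, hx, hy', e, -⟩ :=
    link_exit (hQ.2 a ha v hv) (h2 a ha (Or.inl (Or.inl ha'))) c
  exact hy' (h2 y hy (Or.inr ⟨h1 hy, x, hx, e.symm⟩))

theorem dicho [Finite V] {ι : Type} {C : Set ι} (hC : C.Finite) (A : ι → Set V)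
    (hA : ∀ c, A c ⊆ U) {l : ℕ} (hl : 1 ≤ l) (hU : U.ncard ≤ l ^ 2) :
    (∃ T ⊆ U, Conn G T ∧ (∀ c ∈ C, (T ∩ A c).Nonempty) ∧ T.ncard ≤ C.ncard * l + 1) ∨
    ∃ Y ⊆ U, Y.ncard ≤ C.ncard * l ∧ ∀ Q ⊆ U \ Y, Conn G Q → ∃ c ∈ C, Disjoint Q (A c) := by
  choose j hj hj' using fun c => bl_thin (G := G) (hA c) hl hU
  by_cases hc : ∀ Q ⊆ U \ ⋃ c ∈ C, (Bl G U (A c) (j c + 1) \ Bl G U (A c) (j c)),
      Conn G Q → ∃ c ∈ C, Disjoint Q (A c)
  · refine Or.inr ⟨_, iUnion₂_subset fun c _ => diff_subset.trans (bl_sub (hA c) _),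
      ncard_biU hC (fun c => Bl G U (A c) (j c + 1) \ Bl G U (A c) (j c)) l fun c _ => hj' c, hc⟩
  push Not at hc
  obtain ⟨Q, h1, h2, h3⟩ := hc
  obtain ⟨v, hv⟩ := h2.1
  have key : ∀ c, c ∈ C → ∃ T ⊆ U, Conn G T ∧ v ∈ T ∧ (T ∩ A c).Nonempty ∧ T.ncard ≤ j c := by
    intro c hc
    refine bl_tree (hA c) _ (bl_in h2 (h1.trans diff_subset) (fun x hx k => ?_)
      (not_disjoint_iff_nonempty_inter.1 (h3 c hc)) hv)
    by_contra d
    exact (h1 hx).2 (mem_biUnion hc ⟨k, d⟩)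
  choose! T a1 a2 a3 a4 a5 using key
  refine Or.inl ⟨insert v (⋃ c ∈ C, T c), insert_subset (h1 hv).1 (iUnion₂_subset a1),
    conn_of_center (Or.inl rfl) ?_, fun c hc => (a4 c hc).mono (inter_subset_inter_left _
      ((subset_biUnion_of_mem (u := T) hc).trans (subset_insert _ _))), ?_⟩
  · rintro x (rfl | hx)
    · exact Link.refl _ _ _
    · obtain ⟨c, hc, hx⟩ := mem_iUnion₂.1 hx
      exact ((a2 c hc).2 v (a3 c hc) x hx).mono
        ((subset_biUnion_of_mem (u := T) hc).trans (subset_insert _ _))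
  · have b1 := ncard_insert_le v (⋃ c ∈ C, T c)
    have b2 := ncard_biU hC T l fun c hc => (a5 c hc).trans (hj c).le
    omega

theorem clique_card [Finite V] {h : ℕ} (k : KF h G) {N : Set (Set V)} (h1 : ∀ c ∈ N, Conn G c)
    (h2 : ∀ c ∈ N, ∀ d ∈ N, c ≠ d → Disjoint c d ∧ Touch G c d) : N.ncard ≤ h + 1 := by
  by_contra c
  have := Fintype.ofFinite N
  have e : Fintype.card (Fin (h + 2)) ≤ Fintype.card N := by
    rw [Fintype.card_fin, ← Nat.card_eq_fintype_card, Nat.card_coe_set_eq]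
    omega
  obtain ⟨f⟩ := Function.Embedding.nonempty_of_card_le e
  have hf : ∀ i j, i ≠ j → (f i).1 ≠ (f j).1 := fun i j d d' => d (f.injective (Subtype.ext d'))
  exact k (Model.isMinor (S := univ) (B := fun i => (f i).1) ⟨fun _ => subset_univ _,
    fun i => h1 _ (f i).2, fun i j d => (h2 _ (f i).2 _ (f j).2 (hf i j d)).1,
    fun i j d => (h2 _ (f i).2 _ (f j).2 (hf i j d.ne)).2⟩)

/-- a big connected set surrounded by a clique model -/
structure St (G : SimpleGraph V) (X : Set V) (r : ℕ) (U : Set V) (C : Set (Set V)) : Prop where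
  sub : U ⊆ X
  conn : Conn G U
  big : X.ncard < 2 * U.ncard
  mem : ∀ c ∈ C, Conn G c ∧ Disjoint c U ∧ (nbs G U ∩ c).ncard ≤ r
  pair : ∀ c ∈ C, ∀ d ∈ C, c ≠ d → Disjoint c d ∧ Touch G c d
  cov : ∀ y ∈ nbs G U, y ∈ X → ∃ c ∈ C, y ∈ c

variable {X : Set V} {r : ℕ} {C : Set (Set V)}

theorem St.drop (h : St G X r U C) : St G X r U {c | c ∈ C ∧ Touch G U c} := by
  refine ⟨h.sub, h.conn, h.big, fun c hc => h.mem c hc.1, fun c hc d hd => h.pair c hc.1 d hd.1,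
    fun y hy hy' => ?_⟩
  obtain ⟨c, hc, k⟩ := h.cov y hy hy'
  obtain ⟨x, hx, e⟩ := hy.2
  exact ⟨c, ⟨hc, x, hx, y, k, e⟩, k⟩

theorem St.repl [Finite V] (h : St G X r U C) {U' e : Set V} {D : Set (Set V)} (hD : D ⊆ C)
    (h1 : U' ⊆ U) (h2 : Conn G U') (h3 : X.ncard < 2 * U'.ncard) (h4 : Conn G e)
    (h5 : Disjoint e U') (h6 : (nbs G U' ∩ e).ncard ≤ r)
    (h7 : ∀ d ∈ D, Disjoint e d ∧ Touch G e d) (h8 : ∀ y ∈ nbs G U', y ∈ U → y ∈ e)
    (h9 : ∀ c ∈ C, c ∈ D ∨ c ⊆ e) : St G X r U' (insert e D) := by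
  refine ⟨h1.trans h.sub, h2, h3, ?_, ?_, fun y hy hy' => ?_⟩
  · rintro c (rfl | hc)
    · exact ⟨h4, h5, h6⟩
    · obtain ⟨a1, a2, a3⟩ := h.mem c (hD hc)
      refine ⟨a1, a2.mono_right h1, le_trans (ncard_le_ncard ?_) a3⟩
      rintro y ⟨⟨-, x, hx, k⟩, hy⟩
      exact ⟨⟨disjoint_left.1 a2 hy, x, h1 hx, k⟩, hy⟩
  · rintro c (rfl | hc) d (rfl | hd) k
    · exact absurd rfl k
    · exact h7 d hd
    · exact ⟨(h7 c hc).1.symm, (h7 c hc).2.symm⟩
    · exact h.pair c (hD hc) d (hD hd) k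
  · by_cases k : y ∈ U
    · exact ⟨e, Or.inl rfl, h8 y hy k⟩
    · obtain ⟨x, hx, k'⟩ := hy.2
      obtain ⟨c, hc, b⟩ := h.cov y ⟨k, x, h1 hx, k'⟩ hy'
      rcases h9 c hc with d | d
      exacts [⟨c, Or.inr d, b⟩, ⟨e, Or.inl rfl, d b⟩]

theorem cp_conn' {v : V} (h : (cp G U v).Nonempty) : Conn G (cp G U v) := by
  obtain ⟨x, h1, h2⟩ := h
  exact cp_conn (h2.symm.mem h1)

/-- either a separator or a big component inside -/
theorem St.split [Finite V] (h : St G X r U C) (Y : Set V) :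
    (∀ v, 2 * (cp G (X \ (nbs G U ∩ X ∪ Y)) v).ncard ≤ X.ncard) ∨
    ∃ U1 ⊆ U \ Y, Conn G U1 ∧ X.ncard < 2 * U1.ncard ∧ ∀ y ∈ nbs G U1, y ∈ U → y ∈ Y := by
  by_cases hc : ∀ v, 2 * (cp G (X \ (nbs G U ∩ X ∪ Y)) v).ncard ≤ X.ncard
  · exact Or.inl hc
  push Not at hc
  obtain ⟨v, hv⟩ := hc
  have h1 : cp G (X \ (nbs G U ∩ X ∪ Y)) v ⊆ X \ (nbs G U ∩ X ∪ Y) := cp_sub
  have h2 : ¬ Disjoint (cp G (X \ (nbs G U ∩ X ∪ Y)) v) U := by
    intro d
    have a1 := ncard_union_eq d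
    have a2 := ncard_le_ncard (union_subset (h1.trans diff_subset) h.sub)
    have a3 := h.big
    omega
  obtain ⟨x, hx, hx'⟩ := not_disjoint_iff.1 h2
  have h3 := cp_conn' ⟨x, hx⟩
  refine Or.inr ⟨_, fun y hy => ⟨?_, fun d => (h1 hy).2 (Or.inr d)⟩, h3, hv, fun y hy k => ?_⟩
  · by_contra c
    obtain ⟨a, b, -, hb, ha, hb', e, -⟩ := link_exit (h3.2 x hx y hy) hx' c
    exact (h1 hb).2 (Or.inl ⟨⟨hb', a, ha, e⟩, (h1 hb).1⟩)
  · by_contra c
    obtain ⟨a, ha, e⟩ := hy.2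
    exact hy.1 (cp_closed ha ⟨h.sub k, fun d => d.elim (fun d => d.1.1 k) c⟩ e)

theorem St.sep_card [Finite V] (h : St G X r U C) {k : ℕ} (hk : C.ncard ≤ k) {Y : Set V}
    (hY : Y.ncard ≤ r) : (nbs G U ∩ X ∪ Y).ncard ≤ (k + 1) * r := by
  have h1 : nbs G U ∩ X ⊆ ⋃ c ∈ C, nbs G U ∩ c := by
    rintro y ⟨hy, hy'⟩
    obtain ⟨c, hc, b⟩ := h.cov y hy hy'
    exact mem_biUnion hc ⟨hy, b⟩
  have h2 := ncard_le_ncard h1
  have h3 := ncard_biU (toFinite C) (fun c => nbs G U ∩ c) r fun c hc => (h.mem c hc).2.2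
  have h4 := ncard_union_le (nbs G U ∩ X) Y
  have h5 := Nat.mul_le_mul_right r hk
  rw [Nat.succ_mul]
  omega

/-- the case of a cut -/
theorem St.cut [Finite V] (h : St G X r U C) {Y U1 c : Set V} (hY : Y.ncard ≤ r) (h1 : U1 ⊆ U)
    (h2 : Conn G U1) (h3 : X.ncard < 2 * U1.ncard) (h4 : ∀ y ∈ nbs G U1, y ∈ U → y ∈ Y)
    (hc : c ∈ C) (ht : Touch G U c) (hn : ¬ Touch G U1 c) :
    ∃ U' C', St G X r U' C' ∧ U'.ncard < U.ncard := by
  obtain ⟨m1, m2, -⟩ := h.mem c hc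
  obtain ⟨c0, h0⟩ := m1.1
  obtain ⟨v, hv⟩ := h2.1
  have s1 : c ⊆ (c ∪ U) \ U1 := fun x hx => ⟨Or.inl hx, fun d => disjoint_left.1 m2 hx (h1 d)⟩
  have s2 : c ⊆ cp G ((c ∪ U) \ U1) c0 := conn_sub_cp m1 s1 h0 (cp_self (s1 h0))
  have s3 : cp G ((c ∪ U) \ U1) c0 ⊆ (c ∪ U) \ U1 := cp_sub
  have s4 : ∀ x ∈ cp G ((c ∪ U) \ U1) c0, ∀ y ∈ U, y ∉ U1 → G.Adj x y →
      y ∈ cp G ((c ∪ U) \ U1) c0 := fun x hx y hy hy' e => cp_closed hx ⟨Or.inr hy, hy'⟩ e
  have s5 : Conn G (cp G ((c ∪ U) \ U1) c0) := cp_conn (s1 h0)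
  generalize cp G ((c ∪ U) \ U1) c0 = e at s2 s3 s4 s5
  have t1 : U1 ⊆ U \ e := fun x hx => ⟨h1 hx, fun d => (s3 d).2 hx⟩
  have t2 : U1 ⊆ cp G (U \ e) v := conn_sub_cp h2 t1 hv (cp_self (t1 hv))
  have t3 : cp G (U \ e) v ⊆ U \ e := cp_sub
  have t4 := ncard_le_ncard t2
  refine ⟨cp G (U \ e) v, insert e (C \ {c}), h.repl diff_subset (t3.trans diff_subset)
    (cp_conn (t1 hv)) (by omega) s5 (disjoint_left.2 fun x hx d => (t3 d).2 hx)
    (le_trans (ncard_le_ncard ?_) hY) (fun d hd => ?_) (fun y hy k => ?_) fun d hd => ?_, ?_⟩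
  · rintro y ⟨⟨-, x, hx, k⟩, hy⟩
    have b1 : x ∈ U1 := by
      by_contra d
      exact (t3 hx).2 (s4 y hy x (t3 hx).1 d k.symm)
    have b2 : y ∈ U := (s3 hy).1.resolve_left fun d => hn ⟨x, b1, y, d, k⟩
    exact h4 y ⟨(s3 hy).2, x, b1, k⟩ b2
  · obtain ⟨b1, b2⟩ := h.pair c hc d hd.1 fun k => hd.2 k.symm
    refine ⟨disjoint_left.2 fun x hx k => ?_, b2.mono s2 subset_rfl⟩
    rcases (s3 hx).1 with b | b
    exacts [disjoint_left.1 b1 b k, disjoint_left.1 (h.mem d hd.1).2.1 k b]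
  · by_contra d
    obtain ⟨x, hx, b⟩ := hy.2
    exact hy.1 (cp_closed hx ⟨k, d⟩ b)
  · by_cases k : d = c
    · exact Or.inr (k ▸ s2)
    · exact Or.inl ⟨hd, k⟩
  · obtain ⟨x, hx, y, hy, b⟩ := ht
    refine ncard_lt_ncard ⟨t3.trans diff_subset, fun d => (t3 (d hx)).2 ?_⟩
    exact s4 y (s2 hy) x hx (fun k => hn ⟨x, k, y, hy, b⟩) b.symm

theorem St.step [Finite V] {n l : ℕ} (k : KF n G) (hl : 1 ≤ l) (hX : X.ncard ≤ l ^ 2)
    (h : St G X ((n + 1) * l) U C) (ht : ∀ c ∈ C, Touch G U c) :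
    (∃ Z ⊆ X, Z.ncard ≤ (n + 1) * ((n + 1) * l) ∧ ∀ v, 2 * (cp G (X \ Z) v).ncard ≤ X.ncard) ∨
    ∃ U' C', St G X ((n + 1) * l) U' C' ∧ U'.ncard < U.ncard := by
  have hU : U ∉ C := fun d => by
    obtain ⟨x, hx⟩ := h.conn.1
    exact disjoint_left.1 (h.mem U d).2.1 hx hx
  have hC : C.ncard ≤ n := by
    have := clique_card k (N := insert U C) ?_ ?_
    · rw [ncard_insert_of_notMem hU] at this
      omega
    · rintro c (rfl | hc)
      exacts [h.conn, (h.mem c hc).1]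
    · rintro c (rfl | hc) d (rfl | hd) e
      exacts [absurd rfl e, ⟨(h.mem d hd).2.1.symm, ht d hd⟩, ⟨(h.mem c hc).2.1, (ht c hc).symm⟩,
        h.pair c hc d hd e]
  have hm := Nat.mul_le_mul_right l hC
  have hs : (n + 1) * l = n * l + l := Nat.succ_mul _ _
  rcases dicho (G := G) (U := U) (toFinite C) (fun c => {x | x ∈ U ∧ ∃ y ∈ c, G.Adj x y})
    (fun _ _ hx => hx.1) hl ((ncard_le_ncard h.sub).trans hX) with
    ⟨T, a1, a2, a3, a4⟩ | ⟨Y, a1, a2, a3⟩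
  · rcases h.split T with b | ⟨U1, b1, b2, b3, b4⟩
    · exact Or.inl ⟨_, union_subset inter_subset_right (a1.trans h.sub),
        h.sep_card hC (by omega), b⟩
    refine Or.inr ⟨U1, insert T C, h.repl subset_rfl (b1.trans diff_subset) b2 b3 a2
      (disjoint_left.2 fun x hx d => (b1 d).2 hx)
      ((ncard_le_ncard inter_subset_right).trans (by omega)) (fun d hd => ?_) b4
      fun c hc => Or.inl hc, ?_⟩
    · obtain ⟨x, hx, -, y, hy, e⟩ := a3 d hd
      exact ⟨((h.mem d hd).2.1.mono_right a1).symm, x, hx, y, hy, e⟩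
    · obtain ⟨x, hx⟩ := a2.1
      exact ncard_lt_ncard ⟨b1.trans diff_subset, fun d => (b1 (d (a1 hx))).2 hx⟩
  · rcases h.split Y with b | ⟨U1, b1, b2, b3, b4⟩
    · exact Or.inl ⟨_, union_subset inter_subset_right (a1.trans h.sub),
        h.sep_card hC (by omega), b⟩
    obtain ⟨c, hc, d⟩ := a3 U1 b1 b2
    refine Or.inr (h.cut (Y := Y) (by omega) (b1.trans diff_subset) b2 b3 b4 hc (ht c hc) ?_)
    rintro ⟨x, hx, y, hy, e⟩
    exact disjoint_left.1 d hx ⟨(b1 hx).1, y, hy, e⟩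

theorem St.fin [Finite V] {n l : ℕ} (k : KF n G) (hl : 1 ≤ l) (hX : X.ncard ≤ l ^ 2) (m : ℕ) :
    ∀ U C, U.ncard ≤ m → St G X ((n + 1) * l) U C →
    ∃ Z ⊆ X, Z.ncard ≤ (n + 1) * ((n + 1) * l) ∧ ∀ v, 2 * (cp G (X \ Z) v).ncard ≤ X.ncard := by
  induction m with
  | zero =>
    intro U C h1 h2
    have := h2.big
    omega
  | succ m ih =>
    intro U C h1 h2
    rcases h2.drop.step k hl hX fun c hc => hc.2 with b | ⟨U', C', b1, b2⟩
    exacts [b, ih U' C' (by omega) b1]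

end Ast

theorem astS : AstS := by
  intro h l V _ G X k hl hX
  by_cases hc : ∀ v, 2 * (cp G (X \ ∅) v).ncard ≤ X.ncard
  · exact ⟨∅, empty_subset _, by simp, hc⟩
  push Not at hc
  obtain ⟨v, hv⟩ := hc
  rw [diff_empty] at hv
  have h1 : (cp G X v).Nonempty := by
    rw [← ncard_pos]
    omega
  obtain ⟨Z, a1, a2, a3⟩ := Ast.St.fin k hl hX _ (cp G X v) ∅ le_rfl
    ⟨cp_sub, Ast.cp_conn' h1, hv, fun _ d => absurd d (notMem_empty _),
      fun _ d => absurd d (notMem_empty _), fun y hy hy' => by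
        obtain ⟨x, hx, e⟩ := hy.2
        exact absurd (cp_closed hx hy' e) hy.1⟩
  exact ⟨Z, a1, a2.trans (by nlinarith), a3⟩

end Pool.Agent.MP_9d78a0_co.fb

end MrgPart6

-- ======== part 7: formerly Pool.Agent.MP_9d78a0_co.fb.Trf
section MrgPart7

/-! Patterns are kept by maps, and models are transferred to a graph with another piece. -/

set_option autoImplicit false

namespace Pool.Agent.MP_9d78a0_co.fb

open Set Function

theorem pmapS : PmapS := by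
  rintro U ι V V' G G' P P' n n' f hi hm ha hn t ⟨D, h1, h2, h3, h4, h5, h6⟩
  have hl : ∀ w x y, Link G (D w) x y → Link G' (f '' D w) (f x) (f y) := fun w x y h =>
    Link.map f (fun a ma b mb k => Link.single (mem_image_of_mem f ma) (mem_image_of_mem f mb)
      (ha a (h1 w ma) b (h1 w mb) k)) h
  have hr : ∀ w i x, x ∈ D w ∩ n i → f x ∈ f '' D w ∩ n' i := fun w i x h =>
    ⟨mem_image_of_mem f h.1, hn i x (h1 w h.1) h.2⟩
  refine ⟨fun w => f '' D w, ?_, fun w w' k => ?_, fun w i j k => ?_, fun w w' k => ?_,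
    fun w k => ⟨(h5 w k).1.image f, ?_⟩, ?_⟩
  · rintro w _ ⟨x, hx, rfl⟩
    exact hm (h1 w hx)
  · exact disjoint_image_image fun a ma b mb c =>
      disjoint_left.1 (h2 w w' k) ma (hi (h1 w ma) (h1 w' mb) c ▸ mb)
  · obtain ⟨x, hx, x', hx', l⟩ := h3 w i j k
    exact ⟨_, hr w i x hx, _, hr w j x' hx', hl w x x' l⟩
  · obtain ⟨u, hu, v, hv, c⟩ := h4 w w' k
    exact ⟨_, mem_image_of_mem f hu, _, mem_image_of_mem f hv, ha u (h1 w hu) v (h1 w' hv) c⟩
  · rintro _ ⟨u, hu, rfl⟩ _ ⟨v, hv, rfl⟩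
    exact hl w u v ((h5 w k).2 u hu v hv)
  · rintro w k _ ⟨x, hx, rfl⟩
    obtain ⟨i, a, x', hx', l⟩ := h6 w k x hx
    exact ⟨i, a, _, hr w i x' hx', hl w x x' l⟩

theorem trfS : TrfS := by
  rintro U ι V V' H G G' O P P' e r n n' B hOP hi he hO hr hr' hp ⟨b1, b2, b3, b4⟩
  have hB : ∀ w x, x ∈ B w → x ∉ P → x ∈ O := fun w x hx k => (b1 w hx).resolve_right k
  obtain ⟨D, h1, h2, h3, h4, h5, h6⟩ := hp (a := ({p | r p.1 ∈ B p.2 ∩ O},
      {q | ∃ x ∈ (B q.1 ∩ P) ∩ n q.2.1, ∃ x' ∈ (B q.1 ∩ P) ∩ n q.2.2, Link G (B q.1 ∩ P) x x'},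
      {p | Touch G (B p.1 ∩ P) (B p.2 ∩ P)}, {w | B w ⊆ P}))
    ⟨fun w => B w ∩ P, fun _ => inter_subset_right,
      fun w w' k => (b3 w w' k).mono inter_subset_left inter_subset_left, fun _ _ _ k => k,
      fun _ _ k => k, fun w k => by
        show Conn G (B w ∩ P)
        rw [inter_eq_left.2 k]
        exact b2 w, fun w k x hx => by
        obtain ⟨z, hz, hz'⟩ := not_subset.1 k
        obtain ⟨x', y, a1, a2, a3, a4, a5, a6⟩ := link_exit ((b2 w).2 x hx.1 z hz) hx.2 hz'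
        obtain ⟨i, rfl, c⟩ := hr x' a3 y (hB w y a2 a4) a5
        exact ⟨i, ⟨a2, hB w _ a2 a4⟩, x', ⟨⟨a1, a3⟩, c⟩, a6⟩⟩
  have mix : ∀ w w', ∀ u ∈ B w, ∀ v ∈ B w', u ∈ P → v ∈ O → G.Adj u v →
      ∃ x ∈ D w, G'.Adj x (e v) := by
    intro w w' u hu v _ a1 a2 c
    obtain ⟨i, rfl, k⟩ := hr u a1 v a2 c
    obtain ⟨x, hx, -⟩ := h3 w i i ⟨u, ⟨⟨hu, a1⟩, k⟩, u, ⟨⟨hu, a1⟩, k⟩, Link.refl _ _ _⟩
    exact ⟨x, hx.1, hr' i a2 x (h1 w hx.1) hx.2⟩
  refine ⟨fun w => e '' (B w ∩ O) ∪ D w,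
    fun w => union_subset_union (image_mono inter_subset_right) (h1 w), fun w => ?_,
    fun w w' k => ?_, fun w w' k => ?_⟩
  · by_cases k : B w ⊆ P
    · have : B w ∩ O = ∅ := eq_empty_of_forall_notMem fun x hx =>
        disjoint_left.1 hOP hx.2 (k hx.1)
      show Conn G' (e '' (B w ∩ O) ∪ D w)
      rw [this, image_empty, empty_union]
      exact h5 w k
    obtain ⟨z, hz, hz'⟩ := not_subset.1 k
    have me : ∀ y, y ∈ B w → y ∈ O → e y ∈ e '' (B w ∩ O) ∪ D w := fun y a b =>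
      Or.inl (mem_image_of_mem e ⟨a, b⟩)
    have edge : ∀ i x, r i ∈ B w ∩ O → x ∈ D w ∩ n' i →
        Link G' (e '' (B w ∩ O) ∪ D w) x (e (r i)) := fun i x a b =>
      Link.single (Or.inr b.1) (me _ a.1 a.2) (hr' i a.2 x (h1 w b.1) b.2)
    have key : ∀ y, Link G (B w) z y →
        (y ∈ O ∧ Link G' (e '' (B w ∩ O) ∪ D w) (e z) (e y)) ∨
        (y ∈ P ∧ ∃ i, r i ∈ B w ∩ O ∧ Link G' (e '' (B w ∩ O) ∪ D w) (e z) (e (r i)) ∧
          ∃ x ∈ (B w ∩ P) ∩ n i, Link G (B w ∩ P) x y) := by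
      intro y l
      induction l with
      | refl => exact Or.inl ⟨hB w z hz hz', Link.refl _ _ _⟩
      | @tail y y' _ c ih =>
        obtain ⟨c1, c2, c3⟩ := c
        rcases ih with ⟨a1, a2⟩ | ⟨a1, i, a2, a3, x, a4, a5⟩
        · rcases b1 w c2 with d | d
          · exact Or.inl ⟨d, a2.trans (Link.single (me y c1 a1) (me y' c2 d) (hO y a1 y' d c3))⟩
          · obtain ⟨i, rfl, f⟩ := hr y' d y a1 c3.symm
            exact Or.inr ⟨d, i, ⟨c1, a1⟩, a2, y', ⟨⟨c2, d⟩, f⟩, Link.refl _ _ _⟩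
        · rcases b1 w c2 with d | d
          · obtain ⟨j, rfl, f⟩ := hr y a1 y' d c3
            obtain ⟨x1, g1, x2, g2, g3⟩ := h3 w i j ⟨x, a4, y, ⟨⟨c1, a1⟩, f⟩, a5⟩
            exact Or.inl ⟨d, a3.trans ((edge i x1 a2 g1).symm.trans
              ((g3.mono subset_union_right).trans (edge j x2 ⟨c2, d⟩ g2)))⟩
          · exact Or.inr ⟨d, i, a2, a3, x, a4, a5.trans (Link.single ⟨c1, a1⟩ ⟨c2, d⟩ c3)⟩
    have out : ∀ y ∈ B w ∩ O, Link G' (e '' (B w ∩ O) ∪ D w) (e z) (e y) := fun y hy =>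
      ((key y ((b2 w).2 z hz y hy.1)).resolve_right fun a =>
        disjoint_left.1 hOP hy.2 a.1).2
    refine conn_of_center (me z hz (hB w z hz hz')) ?_
    rintro v (⟨y, hy, rfl⟩ | hv)
    · exact out y hy
    · obtain ⟨i, a1, x, a2, a3⟩ := h6 w k v hv
      exact (out _ a1).trans ((a3.mono subset_union_right).trans (edge i x a1 a2)).symm
  · refine disjoint_left.2 ?_
    rintro v (⟨y, hy, rfl⟩ | hv) (⟨y', hy', c⟩ | hv')
    · exact disjoint_left.1 (b3 w w' k) hy.1 (hi hy'.2 hy.2 c ▸ hy'.1)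
    · exact he y hy.2 (h1 w' hv')
    · exact he y' hy'.2 (c ▸ h1 w hv)
    · exact disjoint_left.1 (h2 w w' k) hv hv'
  · obtain ⟨u, hu, v, hv, c⟩ := b4 w w' k
    rcases b1 w hu with a | a <;> rcases b1 w' hv with a' | a'
    · exact ⟨_, Or.inl (mem_image_of_mem e ⟨hu, a⟩), _, Or.inl (mem_image_of_mem e ⟨hv, a'⟩),
        hO u a v a' c⟩
    · obtain ⟨x, hx, d⟩ := mix w' w v hv u hu a' a c.symm
      exact ⟨_, Or.inl (mem_image_of_mem e ⟨hu, a⟩), x, Or.inr hx, d.symm⟩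
    · obtain ⟨x, hx, d⟩ := mix w w' u hu v hv a a' c
      exact ⟨x, Or.inr hx, _, Or.inl (mem_image_of_mem e ⟨hv, a'⟩), d⟩
    · obtain ⟨x, hx, x', hx', d⟩ := h4 w w' ⟨u, ⟨hu, a⟩, v, ⟨hv, a'⟩, c⟩
      exact ⟨x, Or.inr hx, x', Or.inr hx', d⟩

end Pool.Agent.MP_9d78a0_co.fb

end MrgPart7

-- marker of a merged file
example : 731051 + 884536 = 731051 + 884536 := rfl
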