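import Pool.Agent.MP_9d78a0_co.fb.S2
import Mathlib.Data.Nat.Nth
import Mathlib.Combinatorics.Pigeonhole
import Mathlib.Data.Finset.Sort

-- ======== part 0: formerly Pool.Agent.MP_9d78a0_co.fb.U3a
section MrgPart0

/-! Nested or crossing families of runs do not occur in minimal instances. -/

set_option autoImplicit false

namespace Pool.Agent.MP_9d78a0_co.fb

open Set Function

namespace U3a

theorem mem_hull (x : ℕ → ℕ) {M i : ℕ} (h : i < M) : x i ∈ hull x M :=
  ⟨i, h, i, h, le_rfl, le_rfl⟩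

theorem hull_oc (x : ℕ → ℕ) (M : ℕ) : (hull x M).OrdConnected :=
  ⟨fun _ ⟨i, hi, _, _, h1, _⟩ _ ⟨_, _, j, hj, _, h2⟩ _ hz =>
    ⟨i, hi, j, hj, h1.trans hz.1, hz.2.trans h2⟩⟩

theorem hull_sub {x X : ℕ → ℕ} {M r : ℕ} (h : ∀ m < M, x m ∈ hull X r) :
    hull x M ⊆ hull X r := fun _ ⟨i, hi, j, hj, h1, h2⟩ =>
  (hull_oc X r).out (h i hi) (h j hj) ⟨h1, h2⟩

theorem phi_add {φ : ℕ → ℕ} {M : ℕ} (h : ∀ i j, i < j → j < M → φ i < φ j) (i t : ℕ)
    (ht : i + t < M) : φ i + t ≤ φ (i + t) := by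
  induction t with
  | zero => simp
  | succ t ih =>
    have h1 := ih (by omega)
    have h2 := h (i + t) (i + (t + 1)) (by omega) ht
    omega

variable {k n w r : ℕ} {σ X : ℕ → ℕ} {T : Finset (ℕ × ℕ)}

theorem sepX (hF : Fam σ n w r X) {i j : ℕ} (hij : i < j) (hj : j < r) : X i + w ≤ X j := by
  by_contra hh
  have h1 := hF.mono i j hij hj
  obtain ⟨h2, -, h3⟩ := hF.run j hj
  exact (hF.brk i (by omega)).2 (h3 (X i) (by omega) (by omega))

theorem dirs (hM : MinS) (hI : MinI k n σ T) (hF : Fam σ n w r X) (hw : 2 ≤ w) :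
    (∀ i < r, ∀ j < w, σ (X i - j) + j = σ (X i)) ∨
      ∀ i < r, ∀ j < w, σ (X i - j) = σ (X i) + j := by
  have key : ∀ i < r, (∀ j < w, σ (X i - j) + j = σ (X i)) ∨
      ∀ j < w, σ (X i - j) = σ (X i) + j := fun i hi => by
    obtain ⟨h1, h2⟩ := hF.run i hi
    have e : ∀ j < w, X i + 1 - w + (w - 1 - j) = X i - j := fun j hj => by omega
    rcases ((hM k n σ T hI).2.2.2.2 w _ hw h2).2 with ⟨h3, -⟩ | ⟨h3, -⟩
    · refine Or.inl fun j hj => ?_
      have a := h3 (w - 1 - j) (by omega)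
      have b := h3 (w - 1 - 0) (by omega)
      rw [e j hj] at a
      rw [e 0 (by omega), Nat.sub_zero] at b
      omega
    · refine Or.inr fun j hj => ?_
      have a := h3 (w - 1 - j) (by omega)
      have b := h3 (w - 1 - 0) (by omega)
      rw [e j hj] at a
      rw [e 0 (by omega), Nat.sub_zero] at b
      omega
  rcases hF.dir with h | h
  · refine Or.inl fun i hi => (key i hi).resolve_right fun h2 => ?_
    have := h i hi
    have := h2 1 (by omega)
    omega
  · refine Or.inr fun i hi => (key i hi).resolve_left fun h2 => ?_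
    have := h i hi
    have := h2 1 (by omega)
    omega

theorem sepY (hinv : Involutive σ) (hF : Fam σ n w r X)
    (hd : (∀ i < r, ∀ j < w, σ (X i - j) + j = σ (X i)) ∨
      ∀ i < r, ∀ j < w, σ (X i - j) = σ (X i) + j) {i j : ℕ} (hi : i < r) (hj : j < r)
    (h : σ (X i) < σ (X j)) : σ (X i) + w ≤ σ (X j) := by
  by_contra hh
  have hne : i ≠ j := by rintro rfl; omega
  have hs : X i + w ≤ X j ∨ X j + w ≤ X i := by
    rcases lt_or_gt_of_ne hne with h1 | h1
    exacts [Or.inl (sepX hF h1 hj), Or.inr (sepX hF h1 hi)]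
  have r1 := (hF.run i hi).1
  have r2 := (hF.run j hj).1
  rcases hd with hd | hd
  · have a := hd j hj (σ (X j) - σ (X i)) (by omega)
    have b : X j - (σ (X j) - σ (X i)) = X i := hinv.injective (by omega)
    omega
  · have a := hd i hi (σ (X j) - σ (X i)) (by omega)
    have b : X i - (σ (X j) - σ (X i)) = X j := hinv.injective (by omega)
    omega

/-- the runs have the direction of the band -/
theorem same (hM : MinS) (hx : MaxS) {Q W : ℕ}
    (hb : ∀ (M : ℕ) (x g : ℕ → ℕ), Band σ T M x → MaxB σ M x → (∀ j < M, x j < 2 * n) →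
      (∀ s < Q, W ≤ g s ∧ g s + W < M ∧ Dirty σ x (g s)) →
      (∀ s t, s < t → t < Q → g s + W ≤ g t) → False)
    (hI : MinI k n σ T) (hF : Fam σ n w r X) (hB : Band σ T r X) (hw : W + 2 ≤ w)
    (hr : Q + 3 ≤ r)
    (hd : ((∀ i < r, ∀ j < w, σ (X i - j) + j = σ (X i)) ∧
        ∀ i j, i < j → j < r → σ (X i) + w ≤ σ (X j)) ∨
      ((∀ i < r, ∀ j < w, σ (X i - j) = σ (X i) + j) ∧
        ∀ i j, i < j → j < r → σ (X j) + w ≤ σ (X i))) : False := by
  have hw0 : 0 < w := by omega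
  let z : ℕ → ℕ := fun m => X (1 + m / w) - (w - 1 - m % w)
  have hq : ∀ m < (r - 2) * w, 1 + m / w + 1 < r := fun m hm => by
    have := (Nat.div_lt_iff_lt_mul hw0).2 hm
    omega
  have hmod : ∀ m, m % w < w := fun m => Nat.mod_lt m hw0
  have hlex : ∀ m m', m < m' → m / w < m' / w ∨ (m / w = m' / w ∧ m % w < m' % w) := by
    intro m m' h
    have h1 : m / w ≤ m' / w := Nat.div_le_div_right h.le
    rcases h1.lt_or_eq with h2 | h2
    · exact Or.inl h2
    · refine Or.inr ⟨h2, ?_⟩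
      have a := Nat.div_add_mod m w
      have b := Nat.div_add_mod m' w
      rw [h2] at a
      omega
  have zmono : ∀ m m', m < m' → m' < (r - 2) * w → z m < z m' := by
    intro m m' h h'
    have a := hq m' h'
    have b := hmod m
    have c := hmod m'
    have d := (hF.run (1 + m' / w) (by omega)).1
    rcases hlex m m' h with h1 | ⟨h1, h2⟩
    · have := sepX hF (show 1 + m / w < 1 + m' / w by omega) (by omega)
      simp only [z]; omega
    · simp only [z, h1]; omega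
  have zin : ∀ m < (r - 2) * w, z m ∈ hull X r := fun m hm => by
    have a := hq m hm
    have := sepX hF (Nat.add_pos_left one_pos (m / w)) (by omega)
    exact ⟨0, by omega, 1 + m / w, by omega, by simp only [z]; omega, by simp only [z]; omega⟩
  have zin' : ∀ m < (r - 2) * w, (σ ∘ z) m ∈ hull (σ ∘ X) r := fun m hm => by
    have a := hq m hm
    have b := hmod m
    rcases hd with ⟨h1, h2⟩ | ⟨h1, h2⟩
    · have c := h1 (1 + m / w) (by omega) (w - 1 - m % w) (by omega)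
      have d := h2 0 (1 + m / w) (Nat.add_pos_left one_pos _) (by omega)
      exact ⟨0, by omega, 1 + m / w, by omega, by simp only [z, comp]; omega,
        by simp only [z, comp]; omega⟩
    · have c := h1 (1 + m / w) (by omega) (w - 1 - m % w) (by omega)
      have d := h2 0 (1 + m / w) (Nat.add_pos_left one_pos _) (by omega)
      exact ⟨1 + m / w, by omega, 0, by omega, by simp only [z, comp]; omega,
        by simp only [z, comp]; omega⟩
  have zmo : Mo (σ ∘ z) ((r - 2) * w) := by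
    rcases hd with ⟨h1, h2⟩ | ⟨h1, h2⟩
    · refine Or.inl fun m m' h h' => ?_
      have a := hq m' h'
      have a' := hq m (by omega)
      have b := hmod m
      have c := hmod m'
      have d := h1 (1 + m / w) (by omega) (w - 1 - m % w) (by omega)
      have e := h1 (1 + m' / w) (by omega) (w - 1 - m' % w) (by omega)
      rcases hlex m m' h with h3 | ⟨h3, h4⟩
      · have := h2 (1 + m / w) (1 + m' / w) (by omega) (by omega)
        simp only [z, comp]; omega
      · rw [h3] at d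
        simp only [z, comp, h3]; omega
    · refine Or.inr fun m m' h h' => ?_
      have a := hq m' h'
      have a' := hq m (by omega)
      have b := hmod m
      have c := hmod m'
      have d := h1 (1 + m / w) (by omega) (w - 1 - m % w) (by omega)
      have e := h1 (1 + m' / w) (by omega) (w - 1 - m' % w) (by omega)
      rcases hlex m m' h with h3 | ⟨h3, h4⟩
      · have := h2 (1 + m / w) (1 + m' / w) (by omega) (by omega)
        simp only [z, comp]; omega
      · rw [h3] at d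
        simp only [z, comp, h3]; omega
  have hBz : Band σ T ((r - 2) * w) z :=
    ⟨Or.inl zmono, zmo, hB.dis.mono (hull_sub zin) (hull_sub zin'),
      hB.noend.mono_right (hull_sub zin), hB.noend'.mono_right (hull_sub zin')⟩
  obtain ⟨M', x', φ, hB', hmax, hφ, hφ', hsub⟩ := hx σ T _ z hI.term.inv hBz
  have hidx : ∀ s ≤ Q, s * w + (w - 1) < (r - 2) * w := fun s hs => by
    have : (s + 1) * w ≤ (r - 2) * w := Nat.mul_le_mul_right w (by omega)
    rw [Nat.succ_mul] at this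
    omega
  have hz : ∀ s, z (s * w + (w - 1)) = X (1 + s) := fun s => by
    have a : (s * w + (w - 1)) / w = s := by
      rw [Nat.add_comm, Nat.add_mul_div_right _ _ hw0, Nat.div_eq_of_lt (by omega), Nat.zero_add]
    have b : (s * w + (w - 1)) % w = w - 1 := by
      rw [Nat.add_comm, Nat.add_mul_mod_self_right, Nat.mod_eq_of_lt (by omega)]
    simp only [z, a, b, Nat.sub_self, Nat.sub_zero]
  have hstep : ∀ s t, s < t → t ≤ Q → φ (s * w + (w - 1)) + w ≤ φ (t * w + (w - 1)) := by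
    intro s t hst ht
    have a : (s + 1) * w ≤ t * w := Nat.mul_le_mul_right w hst
    rw [Nat.succ_mul] at a
    have b := hidx t ht
    have c := phi_add hφ (s * w + (w - 1)) (t * w - s * w) (by omega)
    rw [show s * w + (w - 1) + (t * w - s * w) = t * w + (w - 1) by omega] at c
    omega
  have hinc : ∀ i j, i < j → j < M' → x' i < x' j := by
    refine hB'.mo.resolve_right fun h => ?_
    have a := hidx 0 (by omega)
    have b := h (φ 0) (φ 1) (hφ 0 1 one_pos (by omega)) (hφ' 1 (by omega)).1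
    rw [(hφ' 0 (by omega)).2, (hφ' 1 (by omega)).2] at b
    have := zmono 0 1 one_pos (by omega)
    omega
  refine hb M' x' (fun s => φ (s * w + (w - 1))) hB' hmax (fun j hj => ?_) (fun s hs => ?_)
    fun s t hst ht => ?_
  · obtain ⟨-, -, i, hi, -, h⟩ := hull_sub zin (hsub (mem_hull x' hj))
    have := (hF.brk i hi).1
    omega
  · have a := hidx s hs.le
    have b := phi_add hφ 0 (s * w + (w - 1)) (by omega)
    rw [Nat.zero_add] at b
    have c := hstep s (s + 1) (by omega) hs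
    have d := (hφ' _ (hidx (s + 1) hs)).1
    refine ⟨by omega, by omega, ?_⟩
    by_contra hn
    rw [Dirty, not_or, not_exists, not_exists, (hφ' _ a).2, hz] at hn
    obtain ⟨n1, n2⟩ := hn
    have e := hinc (φ (s * w + (w - 1))) (φ (s * w + (w - 1)) + 1) (by omega) (by omega)
    rw [(hφ' _ a).2, hz] at e
    have f : x' (φ (s * w + (w - 1)) + 1) = X (1 + s) + 1 := by
      by_contra hne
      exact n1 (X (1 + s) + 1) (Or.inl ⟨by omega, by omega⟩)
    rw [f] at n2
    have hs' : 1 + s < r := by omega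
    refine (hF.brk _ hs').2 ⟨?_, ?_, ?_⟩
    · obtain ⟨r1, r2⟩ := hF.run _ hs'
      exact (((hM k n σ T hI).2.2.2.2 w _ (by omega) r2).1 _ ⟨by omega, by omega⟩).1
    · intro h
      have m1 := mem_hull x' (show φ (s * w + (w - 1)) + 1 < M' by omega)
      have m2 := mem_hull (σ ∘ x') (show φ (s * w + (w - 1)) + 1 < M' by omega)
      rw [comp_apply, f, h] at m2
      rw [f] at m1
      exact disjoint_left.1 hB'.dis m1 m2
    · have hne : σ (X (1 + s)) ≠ σ (X (1 + s) + 1) := fun h => by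
        have := hI.term.inv.injective h
        omega
      by_contra hc
      rcases lt_or_gt_of_ne hne with h | h
      · exact n2 (σ (X (1 + s)) + 1) (Or.inl ⟨by omega, by omega⟩)
      · exact n2 (σ (X (1 + s) + 1) + 1) (Or.inr ⟨by omega, by omega⟩)
  · have := hstep s t hst ht.le
    omega

/-- the runs have the opposite direction -/
theorem opp {Q : ℕ}
    (h0 : ∀ (ν : ℕ → ℕ) (x ρ : ℕ → ℕ → ℕ) (A A' P : Set ℕ),
      Involutive ν → NC ν → (∀ z, ν z ≠ z → z ∈ P) → Mo2 x Q (4 * k + 4) → Mo2 ρ Q (4 * k + 4) →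
      A.OrdConnected → A'.OrdConnected → Disjoint A A' → Disjoint (ends T) A →
      Disjoint (ends T) A' → (∀ s < Q, ∀ i < 4 * k + 4, x s i ∈ A ∧ ρ s i ∈ A') →
      (∀ y, (y ∈ ends T ∨ ∃ s < Q, ∃ i < 4 * k + 4, y = x s i ∨ y = ρ s i) →
        y ∈ P ∧ ν y = y ∧ ∀ z, z < y → ν z ≤ y) →
      (∀ s < Q, ∀ i < 4 * k + 4, CC σ ν (x s i) (ρ s (Equiv.swap (2 * k) (2 * k + 1) i))) →
      Good σ T P)
    (hI : MinI k n σ T) (hF : Fam σ n w r X) (hB : Band σ T r X) (hw : 2 ≤ w)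
    (hr : Q * (4 * k + 4) + 3 ≤ r)
    (hd : ((∀ i < r, σ (X i) < σ (X i - 1)) ∧ ∀ i j, i < j → j < r → σ (X i - 1) < σ (X j)) ∨
      ((∀ i < r, σ (X i - 1) < σ (X i)) ∧ ∀ i j, i < j → j < r → σ (X j) < σ (X i - 1))) :
    False := by
  let x : ℕ → ℕ → ℕ := fun s i =>
    if i = 2 * k then X (1 + s * (4 * k + 4) + (2 * k + 1)) - 1 else X (1 + s * (4 * k + 4) + i)
  let ρ : ℕ → ℕ → ℕ := fun s i => σ (x s (Equiv.swap (2 * k) (2 * k + 1) i))
  have hq : ∀ s t, s < t → s * (4 * k + 4) + (4 * k + 4) ≤ t * (4 * k + 4) := fun s t h => by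
    have : (s + 1) * (4 * k + 4) ≤ t * (4 * k + 4) := Nat.mul_le_mul_right _ h
    rwa [Nat.succ_mul] at this
  have hmle : ∀ i j, i ≤ j → j < r → X i ≤ X j := fun i j h hj => by
    rcases h.lt_or_eq with h | rfl
    exacts [(hF.mono i j h hj).le, le_rfl]
  have hxb : ∀ s < Q, ∀ i < 4 * k + 4, X (1 + s * (4 * k + 4) + i) ≤ x s i ∧
      x s i < X (1 + s * (4 * k + 4) + i + 1) := fun s hs i hi => by
    have a := hq s Q hs
    have b := sepX hF (show 1 + s * (4 * k + 4) + i < 1 + s * (4 * k + 4) + i + 1 by omega)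
      (by omega)
    by_cases h : i = 2 * k
    · subst h
      simp only [x, if_true, ← Nat.add_assoc]
      omega
    · simp only [x, if_neg h]
      omega
  have hρ : ∀ s i, ρ s i = if i = 2 * k then σ (X (1 + s * (4 * k + 4) + i + 1)) else
      if i = 2 * k + 1 then σ (X (1 + s * (4 * k + 4) + i) - 1) else
      σ (X (1 + s * (4 * k + 4) + i)) := fun s i => by
    by_cases h : i = 2 * k
    · subst h
      simp [ρ, x, Nat.add_assoc]
    · by_cases h' : i = 2 * k + 1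
      · subst h'
        simp [ρ, x]
      · simp [ρ, x, Equiv.swap_apply_of_ne_of_ne h h', h, h']
  have hxA : ∀ s < Q, ∀ i < 4 * k + 4, x s i ∈ hull X r := fun s hs i hi => by
    have a := hq s Q hs
    exact ⟨_, by omega, _, by omega, (hxb s hs i hi).1, (hxb s hs i hi).2.le⟩
  have hρA : ∀ s < Q, ∀ i < 4 * k + 4, ρ s i ∈ hull (σ ∘ X) r := fun s hs i hi => by
    have a := hq s Q hs
    rw [hρ]
    split_ifs with h1 h2
    · exact mem_hull (σ ∘ X) (by omega)
    · rcases hd with ⟨d1, d2⟩ | ⟨d1, d2⟩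
      · exact ⟨_, by omega, 1 + s * (4 * k + 4) + i + 1, by omega, (d1 _ (by omega)).le,
          (d2 _ _ (by omega) (by omega)).le⟩
      · exact ⟨1 + s * (4 * k + 4) + i + 1, by omega, _, by omega,
          (d2 _ _ (by omega) (by omega)).le, (d1 _ (by omega)).le⟩
    · exact mem_hull (σ ∘ X) (by omega)
  have hr0 : 0 < r := by omega
  have hX0 : X 0 < 2 * n := by have := (hF.brk 0 hr0).1; omega
  have hxn : ∀ s < Q, ∀ i < 4 * k + 4, x s i < 2 * n := fun s hs i hi => by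
    obtain ⟨-, -, j, hj, -, h⟩ := hxA s hs i hi
    have := (hF.brk j hj).1
    omega
  refine hI.min ⟨X 0, hX0, h0 id x ρ (hull X r) (hull (σ ∘ X) r) _ (fun _ => rfl)
    (fun a b h1 h2 => absurd h2 (not_lt.2 h1.le)) (fun z h => absurd rfl h) ?_ ?_ (hull_oc _ _)
    (hull_oc _ _) hB.dis hB.noend hB.noend' (fun s hs i hi => ⟨hxA s hs i hi, hρA s hs i hi⟩)
    (fun y hy => ⟨?_, rfl, fun z hz => hz.le⟩) fun s hs i hi => ?_⟩
  · refine Or.inl fun s hs i hi t ht j hj h => ?_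
    have a := hq t Q ht
    have b : 1 + s * (4 * k + 4) + i + 1 ≤ 1 + t * (4 * k + 4) + j := by
      rcases h with h | ⟨rfl, h⟩
      · have := hq s t h; omega
      · omega
    exact (hxb s hs i hi).2.trans_le ((hmle _ _ b (by omega)).trans (hxb t ht j hj).1)
  · have key : ∀ s < Q, ∀ i < 4 * k + 4, ∀ t < Q, ∀ j < 4 * k + 4, s < t ∨ (s = t ∧ i < j) →
        ∀ R : ℕ → ℕ → Prop, (∀ a b c, R a b → R b c → R a c) →
        (∀ i < r, R (σ (X i)) (σ (X i - 1))) →
        (∀ i j, i < j → j < r → R (σ (X i - 1)) (σ (X j))) → R (ρ s i) (ρ t j) := by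
      intro s hs i hi t ht j hj h R tr d1 d2
      have a := hq t Q ht
      have d3 : ∀ i j, i < j → j < r → R (σ (X i)) (σ (X j)) := fun i j h hj =>
        tr _ _ _ (d1 i (by omega)) (d2 i j h hj)
      have b : 1 + s * (4 * k + 4) + i + 1 ≤ 1 + t * (4 * k + 4) + j ∧
          (i = 2 * k → j ≠ 2 * k + 1 →
            1 + s * (4 * k + 4) + i + 1 < 1 + t * (4 * k + 4) + j) := by
        rcases h with h | ⟨rfl, h⟩
        · have := hq s t h; omega
        · omega
      rw [hρ, hρ]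
      split_ifs with h1 h2 h3 h4 h5 h6 h7 h8
      · exact d3 _ _ (by omega) (by omega)
      · rcases b.1.lt_or_eq with c | c
        · exact tr _ _ _ (d3 _ _ c (by omega)) (d1 _ (by omega))
        · rw [c]; exact d1 _ (by omega)
      · exact d3 _ _ (b.2 h1 h3) (by omega)
      · exact d2 _ _ (by omega) (by omega)
      · exact tr _ _ _ (d2 _ _ (by omega) (by omega)) (d1 _ (by omega))
      · exact d2 _ _ (by omega) (by omega)
      · exact d3 _ _ (by omega) (by omega)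
      · exact tr _ _ _ (d3 _ _ (by omega) (by omega)) (d1 _ (by omega))
      · exact d3 _ _ (by omega) (by omega)
    rcases hd with ⟨d1, d2⟩ | ⟨d1, d2⟩
    · exact Or.inl fun s hs i hi t ht j hj h =>
        key s hs i hi t ht j hj h (· < ·) (fun _ _ _ => lt_trans) d1 d2
    · exact Or.inr fun s hs i hi t ht j hj h =>
        key s hs i hi t ht j hj h (· > ·) (fun _ _ _ => gt_trans) d1 d2
  · rcases hy with hy | ⟨s, hs, i, hi, rfl | rfl⟩
    · exact ⟨hI.elt y hy, fun h => disjoint_left.1 hB.noend hy (h ▸ mem_hull X hr0)⟩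
    · refine ⟨hxn s hs i hi, fun h => ?_⟩
      have a := hq s Q hs
      have b := hF.mono 0 (1 + s * (4 * k + 4) + i) (by omega) (by omega)
      have c := (hxb s hs i hi).1
      rw [mem_singleton_iff] at h
      omega
    · refine ⟨hI.lt _ (hxn s hs _ ?_), fun h =>
        disjoint_left.1 hB.dis (mem_hull X hr0) (h ▸ hρA s hs i hi)⟩
      rw [Equiv.swap_apply_def]
      split_ifs <;> omega
  · exact Relation.ReflTransGen.single (Or.inl (by simp [ρ]))

end U3a

open U3a in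
theorem u3aS (hM : MinS) (h0 : B0S) (hx : MaxS) (hb : BstarS) : U3aS := by
  intro k
  obtain ⟨Q0, h0⟩ := h0 k
  obtain ⟨Q, W, hb⟩ := hb k
  refine ⟨W + 2, Q + Q0 * (4 * k + 4) + 3, fun w hw n σ T X hI hF hB => ?_⟩
  have hw2 : 2 ≤ w := by omega
  have hd := dirs hM hI hF hw2
  have hs := fun i j hi hj h => sepY (i := i) (j := j) hI.term.inv hF hd hi hj h
  have hb' := fun M x g => hb n σ T M x g hI
  have h0' := fun ν x ρ A A' P => h0 σ ν T x ρ A A' P hI.term
  rcases hd with hd | hd <;> rcases hB.mo' with hy | hy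
  · exact same hM hx hb' hI hF hB hw (by omega)
      (Or.inl ⟨hd, fun i j h hj => hs i j (by omega) hj (hy i j h hj)⟩)
  · refine opp h0' hI hF hB hw2 (by omega) (Or.inr ⟨fun i hi => ?_, fun i j h hj => ?_⟩)
    · have := hd i hi 1 (by omega); omega
    · have := hd i (by omega) 1 (by omega)
      have := hs j i hj (by omega) (hy i j h hj)
      omega
  · refine opp h0' hI hF hB hw2 (by omega) (Or.inl ⟨fun i hi => ?_, fun i j h hj => ?_⟩)
    · have := hd i hi 1 (by omega); omega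
    · have := hd i (by omega) 1 (by omega)
      have := hs i j (by omega) hj (hy i j h hj)
      omega
  · exact same hM hx hb' hI hF hB hw (by omega)
      (Or.inr ⟨hd, fun i j h hj => hs j i hj (by omega) (hy i j h hj)⟩)

end Pool.Agent.MP_9d78a0_co.fb

end MrgPart0

-- ======== part 1: formerly Pool.Agent.MP_9d78a0_co.fb.U3
section MrgPart1

/-! Few break gaps, and few chords leave a free interval. -/

set_option autoImplicit false

namespace Pool.Agent.MP_9d78a0_co.fb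

open Set Function

namespace U3

theorem enum (S : Set ℕ) (m : ℕ) (h : m ≤ S.ncard) :
    ∃ e : ℕ → ℕ, (∀ i j, i < j → j < m → e i < e j) ∧ ∀ i < m, e i ∈ S := by
  rcases Nat.eq_zero_or_pos m with rfl | hm
  · exact ⟨id, fun i j _ hj => absurd hj (Nat.not_lt_zero _),
      fun i hi => absurd hi (Nat.not_lt_zero _)⟩
  have hf : S.Finite := Set.finite_of_ncard_pos (lt_of_lt_of_le hm h)
  have hf' : {x | x ∈ S}.Finite := hf
  have hc : m ≤ hf'.toFinset.card := by
    rw [Set.ncard_eq_toFinset_card S hf] at h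
    exact h
  refine ⟨Nat.nth fun x => x ∈ S, fun i j hij hj => ?_, fun i hi => ?_⟩
  · exact Nat.nth_lt_nth_of_lt_card hf' hij (lt_of_lt_of_le hj hc)
  · exact Nat.nth_mem_of_lt_card hf' (lt_of_lt_of_le hi hc)

/-- the ends as a finite set -/
def en (T : Finset (ℕ × ℕ)) : Finset ℕ := T.image Prod.fst ∪ T.image Prod.snd

theorem mem_en (T : Finset (ℕ × ℕ)) (a : ℕ) (h : a ∈ ends T) : a ∈ en T := by
  obtain ⟨p, hp, h | h⟩ := h
  · exact Finset.mem_union_left _ (Finset.mem_image.2 ⟨p, hp, h.symm⟩)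
  · exact Finset.mem_union_right _ (Finset.mem_image.2 ⟨p, hp, h.symm⟩)

/-- the number of ends up to `x` -/
def cnt (T : Finset (ℕ × ℕ)) (x : ℕ) : ℕ := ((en T).filter fun a => a ≤ x).card

theorem cnt_lt (k : ℕ) (T : Finset (ℕ × ℕ)) (h : T.card ≤ k) (x : ℕ) : cnt T x < 2 * k + 1 := by
  have h1 : cnt T x ≤ (en T).card := Finset.card_filter_le _ _
  have h2 : (en T).card ≤ (T.image Prod.fst).card + (T.image Prod.snd).card :=
    Finset.card_union_le _ _
  have h3 : (T.image Prod.fst).card ≤ T.card := Finset.card_image_le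
  have h4 : (T.image Prod.snd).card ≤ T.card := Finset.card_image_le
  omega

theorem cnt_ne (T : Finset (ℕ × ℕ)) (a x y : ℕ) (ha : a ∈ ends T) (h1 : x < a) (h2 : a ≤ y) :
    cnt T x ≠ cnt T y := by
  refine ne_of_lt (Finset.card_lt_card ⟨fun b hb => ?_, fun hs => ?_⟩)
  · rw [Finset.mem_filter] at hb ⊢
    exact ⟨hb.1, by omega⟩
  · have := hs (Finset.mem_filter.2 ⟨mem_en T a ha, h2⟩)
    rw [Finset.mem_filter] at this
    omega

theorem noend (σ : ℕ → ℕ) (T : Finset (ℕ × ℕ)) (hT : ∀ a ∈ ends T, σ a = a) (r : ℕ) (X : ℕ → ℕ)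
    (c : ℕ) (h1 : ∀ i < r, σ (X i) ≠ X i) (h2 : ∀ i < r, cnt T (X i) = c) :
    Disjoint (ends T) (hull X r) := by
  rw [Set.disjoint_left]
  rintro a ha ⟨i, hi, j, hj, h3, h4⟩
  have h5 : X i ≠ a := fun h => h1 i hi (by rw [h]; exact hT a ha)
  exact cnt_ne T a (X i) (X j) ha (lt_of_le_of_ne h3 h5) h4 ((h2 i hi).trans (h2 j hj).symm)

theorem hull_mono (X : ℕ → ℕ) (r r' : ℕ) (h : r' ≤ r) : hull X r' ⊆ hull X r := by
  rintro a ⟨i, hi, j, hj, h1⟩
  exact ⟨i, by omega, j, by omega, h1⟩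

theorem mo_mono (X : ℕ → ℕ) (r r' : ℕ) (h : r' ≤ r) (hX : Mo X r) : Mo X r' := by
  rcases hX with hX | hX
  · exact Or.inl fun i j hij hj => hX i j hij (by omega)
  · exact Or.inr fun i j hij hj => hX i j hij (by omega)

/-- a large set of chords contains a uniform family -/
theorem sel (hR : RamseyS) (k r : ℕ) : ∃ m : ℕ, ∀ (σ : ℕ → ℕ) (T : Finset (ℕ × ℕ)) (S : Set ℕ),
    Term k σ T → m ≤ S.ncard → (∀ x ∈ S, σ x ≠ x) → ∃ X : ℕ → ℕ,
      (∀ i j, i < j → j < r → X i < X j) ∧ (∀ i < r, X i ∈ S) ∧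
      Disjoint (ends T) (hull X r) ∧ Disjoint (ends T) (hull (σ ∘ X) r) ∧ Mo (σ ∘ X) r ∧
      ((∀ i < r, σ (X i - 1) < σ (X i)) ∨ ∀ i < r, ¬ σ (X i - 1) < σ (X i)) ∧
      ((∀ i < r, X i < σ (X i)) ∨ ∀ i < r, σ (X i) < X i) ∧
      ((∀ i j, i < j → j < r → σ (X i) < X j ∧ X i < σ (X j)) ∨
        Disjoint (hull X r) (hull (σ ∘ X) r)) := by
  obtain ⟨m, hm⟩ := hR (Prop × Prop × Fin (2 * k + 1) × Fin (2 * k + 1) × Prop × Prop × Prop)
    (r + 3)
  refine ⟨m, fun σ T S hT hS hfix => ?_⟩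
  obtain ⟨e, he, heS⟩ := enum S m hS
  obtain ⟨s, γ, hs, hsm, hc⟩ := hm fun i j => (σ (e i - 1) < σ (e i), e i < σ (e i),
    ⟨cnt T (e i), cnt_lt k T hT.card _⟩, ⟨cnt T (σ (e i)), cnt_lt k T hT.card _⟩,
    σ (e i) < σ (e j), σ (e i) < e j, e i < σ (e j))
  obtain ⟨g1, g2, g3, g4, g5, g6, g7⟩ := γ
  have hY : ∀ i j, i < j → j < r + 3 → e (s i) < e (s j) := fun i j hij hj =>
    he _ _ (hs i j hij hj) (hsm j hj)
  have hYS : ∀ i < r + 3, e (s i) ∈ S := fun i hi => heS _ (hsm i hi)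
  have hc' : ∀ i j, i < j → j < r + 3 →
      ((σ (e (s i) - 1) < σ (e (s i))) = g1 ∧ (e (s i) < σ (e (s i))) = g2 ∧
        cnt T (e (s i)) = g3.val ∧ cnt T (σ (e (s i))) = g4.val) ∧
      (σ (e (s i)) < σ (e (s j))) = g5 ∧ (σ (e (s i)) < e (s j)) = g6 ∧
        (e (s i) < σ (e (s j))) = g7 := by
    intro i j hij hj
    have h := hc i j hij hj
    simp only [Prod.mk.injEq] at h
    obtain ⟨a1, a2, a3, a4, a5, a6, a7⟩ := h
    exact ⟨⟨a1, a2, congrArg Fin.val a3, congrArg Fin.val a4⟩, a5, a6, a7⟩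
  have hu := fun i (hi : i < r) => (hc' (i + 1) (r + 2) (by omega) (by omega)).1
  have hb := fun i j (hij : i < j) (hj : j < r) =>
    (hc' (i + 1) (j + 1) (by omega) (by omega)).2
  have hne : ∀ i < r, σ (e (s (i + 1))) ≠ e (s (i + 1)) := fun i hi =>
    hfix _ (hYS _ (by omega))
  refine ⟨fun i => e (s (i + 1)), fun i j hij hj => hY _ _ (by omega) (by omega),
    fun i hi => hYS _ (by omega), ?_, ?_, ?_, ?_, ?_, ?_⟩
  · exact noend σ T hT.fix r _ g3.val hne fun i hi => (hu i hi).2.2.1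
  · refine noend σ T hT.fix r _ g4.val (fun i hi => ?_) fun i hi => (hu i hi).2.2.2
    show σ (σ (e (s (i + 1)))) ≠ σ (e (s (i + 1)))
    rw [hT.inv]
    exact (hne i hi).symm
  · by_cases h : g5
    · exact Or.inl fun i j hij hj => (hb i j hij hj).1.mpr h
    · refine Or.inr fun i j hij hj => ?_
      have h1 : ¬ σ (e (s (i + 1))) < σ (e (s (j + 1))) := fun h' => h ((hb i j hij hj).1.mp h')
      have h2 : e (s (i + 1)) < e (s (j + 1)) := hY _ _ (by omega) (by omega)
      have h3 : σ (e (s (i + 1))) ≠ σ (e (s (j + 1))) := fun h' => h2.ne (hT.inv.injective h')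
      show σ (e (s (j + 1))) < σ (e (s (i + 1)))
      omega
  · by_cases h : g1
    · exact Or.inl fun i hi => (hu i hi).1.mpr h
    · exact Or.inr fun i hi h' => h ((hu i hi).1.mp h')
  · by_cases h : g2
    · exact Or.inl fun i hi => (hu i hi).2.1.mpr h
    · refine Or.inr fun i hi => ?_
      have h1 : ¬ e (s (i + 1)) < σ (e (s (i + 1))) := fun h' => h ((hu i hi).2.1.mp h')
      have h2 := hne i hi
      show σ (e (s (i + 1))) < e (s (i + 1))
      omega
  · by_cases h6 : g6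
    · by_cases h7 : g7
      · exact Or.inl fun i j hij hj => ⟨(hb i j hij hj).2.1.mpr h6, (hb i j hij hj).2.2.mpr h7⟩
      · refine Or.inr (Set.disjoint_left.2 ?_)
        rintro a ⟨i, hi, -, -, h1, -⟩ ⟨-, -, j, hj, -, h2⟩
        have h3 : ¬ e (s 0) < σ (e (s (j + 1))) := fun h' =>
          h7 ((hc' 0 (j + 1) (by omega) (by omega)).2.2.2.mp h')
        have h4 : e (s 0) < e (s (i + 1)) := hY _ _ (by omega) (by omega)
        have h5 : a ≤ σ (e (s (j + 1))) := h2
        have h1' : e (s (i + 1)) ≤ a := h1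
        omega
    · refine Or.inr (Set.disjoint_left.2 ?_)
      rintro a ⟨-, -, i, hi, -, h1⟩ ⟨j, hj, -, -, h2, -⟩
      have h3 : ¬ σ (e (s (j + 1))) < e (s (r + 1)) := fun h' =>
        h6 ((hc' (j + 1) (r + 1) (by omega) (by omega)).2.2.1.mp h')
      have h4 : e (s (i + 1)) < e (s (r + 1)) := hY _ _ (by omega) (by omega)
      have h5 : σ (e (s (j + 1))) ≤ a := h2
      have h1' : a ≤ e (s (i + 1)) := h1
      omega

/-- break gaps that close a run -/
def B1 (σ : ℕ → ℕ) (n w : ℕ) : Set ℕ := {x | x + 1 < 2 * n ∧ ¬ Clean σ x ∧ Wide σ n w x}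

theorem b1_run (σ : ℕ → ℕ) (n w x : ℕ) (hw : 2 ≤ w) (h : x ∈ B1 σ n w) :
    (w ≤ x + 1 ∧ Run σ n w (x + 1 - w)) ∧ σ x ≠ x ∧
      (σ x = σ (x - 1) + 1 ∨ σ (x - 1) = σ x + 1) := by
  obtain ⟨-, h2, a, hr, h3, h4⟩ := h
  have h5 : x + 1 = a + w := by
    by_contra h5
    exact h2 (hr.2 x h3 (by omega))
  have h6 : x + 1 - w = a := by omega
  have h7 := hr.2 (x - 1) (by omega) (by omega)
  have h8 : x - 1 + 1 = x := by omega
  unfold Clean at h7
  rw [h8] at h7
  exact ⟨⟨by omega, by rw [h6]; exact hr⟩, h7.2.1, h7.2.2⟩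

theorem b1_le (hR : RamseyS) (ha : U3aS) (hc : U3cS) (k : ℕ) : ∃ w m, 2 ≤ w ∧
    ∀ (n : ℕ) (σ : ℕ → ℕ) (T : Finset (ℕ × ℕ)), MinI k n σ T → (B1 σ n w).ncard ≤ m := by
  obtain ⟨w0, r0, ha⟩ := ha k
  obtain ⟨w1, r1, hc⟩ := hc k
  obtain ⟨m, hm⟩ := sel hR k (r0 + r1)
  refine ⟨w0 + w1 + 2, m, by omega, fun n σ T hI => ?_⟩
  by_contra hlt
  obtain ⟨X, h1, h2, h3, h4, h5, h6, h7, h8⟩ := hm σ T (B1 σ n (w0 + w1 + 2)) hI.term (by omega)
    fun x hx => (b1_run σ n _ x (by omega) hx).2.1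
  have hF : ∀ r ≤ r0 + r1, Fam σ n (w0 + w1 + 2) r X := by
    intro r hr
    refine ⟨fun i j hij hj => h1 i j hij (by omega),
      fun i hi => (b1_run σ n _ _ (by omega) (h2 i (by omega))).1,
      fun i hi => ⟨(h2 i (by omega)).1, (h2 i (by omega)).2.1⟩, ?_⟩
    rcases h6 with h6 | h6
    · exact Or.inl fun i hi => h6 i (by omega)
    · refine Or.inr fun i hi => ?_
      have a1 := h6 i (by omega)
      have a2 := (b1_run σ n _ _ (by omega) (h2 i (by omega))).2.2
      omega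
  rcases h8 with h8 | h8
  · refine hc _ (by omega) n σ T X hI (hF r1 (by omega))
      (h3.mono_right (hull_mono X _ _ (by omega))) ?_ fun i j hij hj => h8 i j hij (by omega)
    rcases h7 with h7 | h7
    · exact Or.inl fun i hi => h7 i (by omega)
    · exact Or.inr fun i hi => h7 i (by omega)
  · exact ha _ (by omega) n σ T X hI (hF r0 (by omega))
      ⟨Or.inl fun i j hij hj => h1 i j hij (by omega), mo_mono _ _ _ (by omega) h5,
        h8.mono (hull_mono _ _ _ (by omega)) (hull_mono _ _ _ (by omega)),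
        h3.mono_right (hull_mono _ _ _ (by omega)), h4.mono_right (hull_mono _ _ _ (by omega))⟩

theorem clean_refl (σ : ℕ → ℕ) (n y y' : ℕ) (hlt : ∀ x < 2 * n, σ x < 2 * n)
    (h : y' + y + 2 = 2 * n) : Clean (io n ∘ σ ∘ io n) y' ↔ Clean σ y := by
  have e1 : io n y' = y + 1 := by unfold io; rw [if_pos (by omega)]; omega
  have e2 : io n (y' + 1) = y := by unfold io; rw [if_pos (by omega)]; omega
  have l1 := hlt y (by omega)
  have l2 := hlt (y + 1) (by omega)
  have e3 : io n (σ y) = 2 * n - 1 - σ y := if_pos l1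
  have e4 : io n (σ (y + 1)) = 2 * n - 1 - σ (y + 1) := if_pos l2
  unfold Clean
  simp only [Function.comp_apply, e1, e2, e3, e4]
  omega

theorem phi_ge (φ : ℕ → ℕ) (r : ℕ) (h : ∀ i j, i < j → j < r → φ i < φ j) :
    ∀ i < r, i ≤ φ i := by
  intro i
  induction i with
  | zero => intro _; exact Nat.zero_le _
  | succ i ih =>
    intro hi
    have h1 := ih (by omega)
    have h2 := h i (i + 1) (by omega) hi
    omega

theorem dirty (σ : ℕ → ℕ) (T : Finset (ℕ × ℕ)) (n w M : ℕ) (x : ℕ → ℕ) (hw : 2 ≤ w)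
    (hB : Band σ T M x) (hx : ∀ i j, i < j → j < M → x i < x j) (hn : ∀ j < M, x j < 2 * n)
    (hW : ∀ j < M, ¬ Wide σ n w (x j)) (j0 : ℕ) (hj : j0 + w ≤ M) :
    ∃ j, j0 ≤ j ∧ j + 2 ≤ j0 + w ∧ Dirty σ x j := by
  by_contra hcon
  have hnd : ∀ j, j0 ≤ j → j + 2 ≤ j0 + w → ¬ Dirty σ x j := fun j h1 h2 h3 =>
    hcon ⟨j, h1, h2, h3⟩
  have hfix : ∀ j < M, σ (x j) ≠ x j := by
    intro j hj' h
    have a1 : x j ∈ hull x M := ⟨j, hj', j, hj', le_rfl, le_rfl⟩
    exact Set.disjoint_left.1 hB.dis a1 ⟨j, hj', j, hj', h.le, h.ge⟩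
  have hstep : ∀ j, j0 ≤ j → j + 2 ≤ j0 + w → x (j + 1) = x j + 1 ∧ Clean σ (x j) := by
    intro j h1 h2
    have h3 := hnd j h1 h2
    have h4 := hx j (j + 1) (by omega) (by omega)
    have h5 : x (j + 1) = x j + 1 := by
      by_contra h5
      exact h3 (Or.inl ⟨x j + 1, Or.inl ⟨by omega, by omega⟩⟩)
    refine ⟨h5, hfix j (by omega), ?_, ?_⟩
    · rw [← h5]; exact hfix (j + 1) (by omega)
    · rw [← h5]
      have h6 : σ (x j) ≠ σ (x (j + 1)) := by
        rcases hB.mo' with h | h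
        · exact (h j (j + 1) (by omega) (by omega)).ne
        · exact (h j (j + 1) (by omega) (by omega)).ne'
      by_contra h7
      rcases lt_or_gt_of_ne h6 with h8 | h8
      · exact h3 (Or.inr ⟨σ (x j) + 1, Or.inl ⟨by omega, by omega⟩⟩)
      · exact h3 (Or.inr ⟨σ (x (j + 1)) + 1, Or.inr ⟨by omega, by omega⟩⟩)
  have hlin : ∀ t, t + 1 ≤ w → x (j0 + t) = x j0 + t := by
    intro t
    induction t with
    | zero => intro _; rfl
    | succ t ih =>
      intro ht
      have h1 := ih (by omega)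
      have h2 := (hstep (j0 + t) (by omega) (by omega)).1
      rw [← Nat.add_assoc, h2, h1, Nat.add_assoc]
  refine hW j0 (by omega) ⟨x j0, ⟨?_, fun y h1 h2 => ?_⟩, le_rfl, by omega⟩
  · have h1 := hlin (w - 1) (by omega)
    have h2 := hn (j0 + (w - 1)) (by omega)
    omega
  · have h3 := hlin (y - x j0) (by omega)
    have h4 := (hstep (j0 + (y - x j0)) (by omega) (by omega)).2
    have h5 : x (j0 + (y - x j0)) = y := by omega
    rwa [h5] at h4

end U3

theorem u3S (hR : RamseyS) (hM : MinS) (ha : U3aS) (hc : U3cS) : U3S := by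
  intro k
  obtain ⟨w, m, hw, hm⟩ := U3.b1_le hR ha hc k
  refine ⟨w, m + m, hw, fun n σ T hI => ?_⟩
  have h1 := hm n σ T hI
  have h2 := hm n _ _ (hM k n σ T hI).2.2.2.1
  have hf : ∀ τ : ℕ → ℕ, (U3.B1 τ n w).Finite := fun τ =>
    (Set.finite_Iio (2 * n)).subset fun x hx => lt_trans (Nat.lt_succ_self x) hx.1
  have hsub : Brk σ n w ⊆ U3.B1 σ n w ∪
      (fun x => 2 * n - 2 - x) '' U3.B1 (io n ∘ σ ∘ io n) n w := by
    rintro x ⟨a1, a2, a3 | ⟨a, hr, a3, a4⟩⟩
    · exact Or.inl ⟨a1, a2, a3⟩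
    · have a5 := hr.1
      refine Or.inr ⟨2 * n - 2 - x, ⟨by omega, fun h => a2 ?_, 2 * n - (a + w),
        ⟨by omega, fun y b1 b2 => ?_⟩, by omega, by omega⟩, ?_⟩
      · exact (U3.clean_refl σ n x _ hI.lt (by omega)).1 h
      · exact (U3.clean_refl σ n (2 * n - 2 - y) y hI.lt (by omega)).2
          (hr.2 _ (by omega) (by omega))
      · show 2 * n - 2 - (2 * n - 2 - x) = x
        omega
  have h3 := Set.ncard_le_ncard hsub ((hf _).union ((hf _).image _))
  have h4 := Set.ncard_union_le (U3.B1 σ n w)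
    ((fun x => 2 * n - 2 - x) '' U3.B1 (io n ∘ σ ∘ io n) n w)
  have h5 := Set.ncard_image_le (f := fun x => 2 * n - 2 - x) (hf (io n ∘ σ ∘ io n))
  omega

theorem depthS (hR : RamseyS) (hx : MaxS) (hb : BstarS) : DepthS := by
  intro k w hw
  obtain ⟨Q, W, hb⟩ := hb k
  obtain ⟨m, hm⟩ := U3.sel hR k ((Q + 1) * (W + w))
  refine ⟨m, fun n σ T hI a b hb2 hfree => ?_⟩
  by_contra hlt
  obtain ⟨X, h1, h2, h3, h4, h5, -, h7, -⟩ := hm σ T {x | x ∈ Ico a b ∧ σ x ∉ Ico a b} hI.term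
    (by omega) fun x hx h => hx.2 (by rw [h]; exact hx.1)
  have hr : W + w ≤ (Q + 1) * (W + w) := Nat.le_mul_of_pos_left _ (Nat.succ_pos Q)
  have hh : hull X ((Q + 1) * (W + w)) ⊆ Ico a b := by
    rintro y ⟨i, hi, j, hj, a1, a2⟩
    exact ⟨le_trans (h2 i hi).1.1 a1, lt_of_le_of_lt a2 (h2 j hj).1.2⟩
  have hB : Band σ T ((Q + 1) * (W + w)) X := by
    refine ⟨Or.inl h1, h5, Set.disjoint_left.2 fun y hy => ?_, h3, h4⟩
    rintro ⟨i, hi, j, hj, a1, a2⟩
    obtain ⟨a3, a4⟩ := hh hy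
    have a1' : σ (X i) ≤ y := a1
    have a2' : y ≤ σ (X j) := a2
    rcases h7 with h7 | h7
    · have b1 := h7 i hi
      have b2 := (h2 i hi).1.1
      exact (h2 i hi).2 ⟨by omega, by omega⟩
    · have b1 := h7 j hj
      have b2 := (h2 j hj).1.2
      exact (h2 j hj).2 ⟨by omega, by omega⟩
  obtain ⟨M, x, φ, hB', hmax, hφ, hφ', hsub⟩ := hx σ T _ X hI.term.inv hB
  have hM : (Q + 1) * (W + w) ≤ M := by
    have a1 := U3.phi_ge φ _ hφ ((Q + 1) * (W + w) - 1) (by omega)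
    have a2 := (hφ' ((Q + 1) * (W + w) - 1) (by omega)).1
    omega
  have hin : ∀ j < M, x j ∈ Ico a b := fun j hj => hh (hsub ⟨j, hj, j, hj, le_rfl, le_rfl⟩)
  have hn : ∀ j < M, x j < 2 * n := fun j hj => lt_of_lt_of_le (hin j hj).2 hb2
  have hinc : ∀ i j, i < j → j < M → x i < x j := by
    rcases hB'.mo with h | h
    · exact h
    · have a1 := h (φ 0) (φ 1) (hφ 0 1 (by omega) (by omega)) (hφ' 1 (by omega)).1
      rw [(hφ' 0 (by omega)).2, (hφ' 1 (by omega)).2] at a1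
      exact absurd (h1 0 1 (by omega) (by omega)) (not_lt.2 a1.le)
  have hle : ∀ s t, s < t → (s + 1) * (W + w) + (W + w) ≤ (t + 1) * (W + w) := by
    intro s t hst
    have := Nat.mul_le_mul_right (W + w) (show s + 1 + 1 ≤ t + 1 by omega)
    rwa [Nat.succ_mul (s + 1)] at this
  have hg : ∀ s, ∃ j, s < Q → (s + 1) * (W + w) ≤ j ∧ j + 2 ≤ (s + 1) * (W + w) + w ∧
      Dirty σ x j := by
    intro s
    by_cases hs : s < Q
    · have a1 := hle s Q hs
      obtain ⟨j, hj⟩ := U3.dirty σ T n w M x hw hB' hinc hn (fun j hj => hfree _ (hin j hj))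
        ((s + 1) * (W + w)) (by omega)
      exact ⟨j, fun _ => hj⟩
    · exact ⟨0, fun h => absurd h hs⟩
  choose g hg using hg
  refine hb n σ T M x g hI hB' hmax hn (fun s hs => ?_) fun s t hst ht => ?_
  · obtain ⟨a1, a2, a3⟩ := hg s hs
    have a4 := hle s Q hs
    have a5 : W + w ≤ (s + 1) * (W + w) := Nat.le_mul_of_pos_left _ (Nat.succ_pos s)
    exact ⟨by omega, by omega, a3⟩
  · obtain ⟨-, a2, -⟩ := hg s (by omega)
    obtain ⟨a3, -, -⟩ := hg t ht
    have a4 := hle s t hst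
    omega

end Pool.Agent.MP_9d78a0_co.fb

end MrgPart1

-- ======== part 2: formerly Pool.Agent.MP_9d78a0_co.fb.Ret
section MrgPart2

/-! Chord diagrams: a minimal instance has no long interval of free points. -/

set_option autoImplicit false

namespace Pool.Agent.MP_9d78a0_co.fb

open Set Function

namespace Ret

lemma io_inv (n : ℕ) : Involutive (io n) := by
  intro x; unfold io; split_ifs <;> omega

lemma io_of_lt {n x : ℕ} (h : x < 2 * n) : io n x = 2 * n - 1 - x := if_pos h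

lemma iw_inv {n a b : ℕ} (hab : a ≤ b) (hb : b ≤ n) : Involutive (iw n a b) := by
  intro x; unfold iw io; split_ifs <;> omega

lemma iw_of_mem {n a b x : ℕ} (h : x ∈ Win n a b) : iw n a b x = x := if_pos h

lemma iw_of_not {n a b x : ℕ} (h : x ∉ Win n a b) : iw n a b x = io n x := if_neg h

lemma cc_swap {σ μ : ℕ → ℕ} {x y : ℕ} (h : CC σ μ x y) : CC μ σ x y := by
  induction h with
  | refl => exact Relation.ReflTransGen.refl
  | tail _ e ih => exact ih.tail e.symm

lemma cc_symm {σ μ : ℕ → ℕ} (hσ : Involutive σ) (hμ : Involutive μ) {x y : ℕ} (h : CC σ μ x y) :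
    CC σ μ y x := by
  induction h with
  | refl => exact Relation.ReflTransGen.refl
  | tail _ e ih =>
    refine Relation.ReflTransGen.head ?_ ih
    rcases e with rfl | rfl
    · exact Or.inl (hσ _).symm
    · exact Or.inr (hμ _).symm

/-- neighbours -/
def Adj (a b : ℕ) : Prop := b = a + 1 ∨ a = b + 1

lemma line {g : ℕ → ℕ} (hg : Injective g) {u l : ℕ}
    (h : ∀ x, u ≤ x → x < u + l → Adj (g x) (g (x + 1))) :
    (∀ j, j ≤ l → g (u + j) = g u + j) ∨ ∀ j, j ≤ l → g (u + j) + j = g u := by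
  rcases Nat.eq_zero_or_pos l with rfl | hl
  · left; intro j hj; obtain rfl : j = 0 := by omega
    rfl
  have key : ∀ j, j + 1 < l → g (u + j + 1 + 1) ≠ g (u + j) := fun j _ e => by
    have := hg e; omega
  rcases h u le_rfl (by omega) with h0 | h0
  · have : ∀ j, j < l → g (u + j) = g u + j ∧ g (u + j + 1) = g u + j + 1 := by
      intro j
      induction j with
      | zero => exact fun _ => ⟨rfl, h0⟩
      | succ j ih =>
        intro hj
        obtain ⟨a1, a2⟩ := ih (by omega)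
        have := key j hj
        have := h (u + j + 1) (by omega) (by omega)
        unfold Adj at this
        rw [← add_assoc]
        omega
    left; intro j hj
    cases j with
    | zero => rfl
    | succ j => exact (this j hj).2
  · have : ∀ j, j < l → g (u + j) + j = g u ∧ g (u + j + 1) + j + 1 = g u := by
      intro j
      induction j with
      | zero => exact fun _ => ⟨rfl, h0.symm⟩
      | succ j ih =>
        intro hj
        obtain ⟨a1, a2⟩ := ih (by omega)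
        have := key j hj
        have := h (u + j + 1) (by omega) (by omega)
        unfold Adj at this
        simp only [← add_assoc]
        omega
    right; intro j hj
    cases j with
    | zero => rfl
    | succ j => exact (this j hj).2

lemma wide_iff {σ : ℕ → ℕ} {n w g : ℕ} (hc : Clean σ g) (hg : g + 1 < 2 * n) :
    Wide σ n w g ↔ Wide σ n w (g + 1) := by
  constructor
  · rintro ⟨a, ⟨h1, h2⟩, h3, h4⟩
    by_cases h : g + 1 < a + w
    · exact ⟨a, ⟨h1, h2⟩, by omega, h⟩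
    · refine ⟨a + 1, ⟨by omega, fun y h5 h6 => ?_⟩, by omega, by omega⟩
      by_cases e : y = g
      · exact e ▸ hc
      · exact h2 y (by omega) (by omega)
  · rintro ⟨a, ⟨h1, h2⟩, h3, h4⟩
    by_cases h : a ≤ g
    · exact ⟨a, ⟨h1, h2⟩, h, by omega⟩
    · refine ⟨g, ⟨by omega, fun y h5 h6 => ?_⟩, le_rfl, by omega⟩
      by_cases e : y = g
      · exact e ▸ hc
      · exact h2 y (by omega) (by omega)

/-- what is used of a minimal instance -/
structure Ctx (σ : ℕ → ℕ) (n w : ℕ) : Prop where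
  inv : Involutive σ
  lt : ∀ x < 2 * n, σ x < 2 * n
  nf : ∀ x, Wide σ n w x → σ x ≠ x
  ws : ∀ x, Wide σ n w x → Wide σ n w (σ x)
  acyc : ∀ x < 2 * n, ∃ m, σ ((io n ∘ σ)^[m] x) = (io n ∘ σ)^[m] x

lemma ctx (hM : MinS) {k n w : ℕ} {σ : ℕ → ℕ} {T : Finset (ℕ × ℕ)} (h : MinI k n σ T)
    (hw : 2 ≤ w) : Ctx σ n w where
  inv := h.term.inv
  lt := h.lt
  nf := fun x ⟨a, h1, h2⟩ => (((hM k n σ T h).2.2.2.2 w a hw h1).1 x h2).1
  ws := fun x ⟨a, h1, h2, h3⟩ => by
    obtain ⟨i, rfl⟩ := Nat.exists_eq_add_of_le h2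
    rcases ((hM k n σ T h).2.2.2.2 w a hw h1).2 with ⟨a1, a2⟩ | ⟨a1, a2⟩
    · have := a1 i (by omega)
      exact ⟨_, a2, by omega, by omega⟩
    · have := a1 i (by omega)
      have := a1 (w - 1) (by omega)
      exact ⟨_, a2, by omega, by omega⟩
  acyc := (hM k n σ T h).1

namespace Ctx
variable {σ : ℕ → ℕ} {n w : ℕ} (C : Ctx σ n w)
include C

lemma inj (m : ℕ) : Injective (io n ∘ σ)^[m] :=
  ((io_inv n).injective.comp C.inv.injective).iterate m

lemma it_lt {x : ℕ} (hx : x < 2 * n) (m : ℕ) : (io n ∘ σ)^[m] x < 2 * n := by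
  induction m with
  | zero => exact hx
  | succ m ih =>
    have := C.lt _ ih
    rw [iterate_succ_apply', comp_apply, io_of_lt this]
    omega

lemma turn (m x : ℕ) : (io n ∘ σ)^[m] (io n ((io n ∘ σ)^[m] x)) = io n x := by
  induction m with
  | zero => rfl
  | succ m ih =>
    rw [iterate_succ_apply, iterate_succ_apply' _ m x, comp_apply, comp_apply, io_inv n, C.inv, ih]

lemma fold (b : ℕ) : ∀ a x, σ ((io n ∘ σ)^[a + 2 * b] x) = x →
    σ ((io n ∘ σ)^[a] ((io n ∘ σ)^[b] x)) = (io n ∘ σ)^[b] x := by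
  induction b with
  | zero => exact fun a x h => h
  | succ b ih =>
    intro a x h
    rw [iterate_succ_apply]
    refine ih a _ ?_
    rw [show a + 2 * (b + 1) = (a + 2 * b + 1) + 1 by ring, iterate_succ_apply',
      iterate_succ_apply] at h
    have h1 := congrArg (fun z => io n (σ z)) h
    simp only [comp_apply, C.inv _, io_inv n _] at h1
    exact h1

lemma no_fix {x s : ℕ} (hx : x < 2 * n) (hw : ∀ m, m ≤ s → Wide σ n w ((io n ∘ σ)^[m] x)) :
    σ ((io n ∘ σ)^[s] x) ≠ x := by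
  intro h
  obtain ⟨b, rfl | rfl⟩ := Nat.even_or_odd' s
  · exact C.nf _ (hw b (by omega)) (C.fold b 0 x (by rwa [zero_add]))
  · have h1 := congrArg σ (C.fold b 1 x (by rwa [add_comm]))
    have h2 := C.lt _ (C.it_lt hx b)
    rw [C.inv, iterate_one, comp_apply, io_of_lt h2] at h1
    omega

lemma back {z z' m m' : ℕ} (hz : ¬ Wide σ n w (io n z))
    (hw : ∀ j < m', Wide σ n w ((io n ∘ σ)^[j] z')) (hm : m ≤ m')
    (h : (io n ∘ σ)^[m] z = (io n ∘ σ)^[m'] z') : z = z' := by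
  obtain ⟨e, rfl⟩ := Nat.exists_eq_add_of_le hm
  rw [iterate_add_apply] at h
  have h1 := C.inj m h
  cases e with
  | zero => exact h1
  | succ e =>
    rw [h1, iterate_succ_apply', comp_apply, io_inv n] at hz
    exact absurd (C.ws _ (hw e (by omega))) hz

lemma stop {x : ℕ} (hx : x + 1 < 2 * n) : ∃ m,
    (∀ j < m, Wide σ n w ((io n ∘ σ)^[j] x) ∧ Wide σ n w ((io n ∘ σ)^[j] (x + 1))) ∧
    Adj ((io n ∘ σ)^[m] x) ((io n ∘ σ)^[m] (x + 1)) ∧
    ((¬ Wide σ n w ((io n ∘ σ)^[m] x) ∧ ¬ Wide σ n w ((io n ∘ σ)^[m] (x + 1))) ∨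
      min ((io n ∘ σ)^[m] x) ((io n ∘ σ)^[m] (x + 1)) ∈ Brk σ n w) := by
  classical
  have hex : ∃ m, ¬ (Wide σ n w ((io n ∘ σ)^[m] x) ∧ Wide σ n w ((io n ∘ σ)^[m] (x + 1)) ∧
      Adj (σ ((io n ∘ σ)^[m] x)) (σ ((io n ∘ σ)^[m] (x + 1)))) := by
    obtain ⟨m, hm⟩ := C.acyc x (by omega)
    exact ⟨m, fun a => C.nf _ a.1 hm⟩
  have h1 := Nat.find_spec hex
  have h2 := fun j (hj : j < Nat.find hex) => not_not.1 (Nat.find_min hex hj)
  generalize Nat.find hex = m at h1 h2
  have ha : Adj ((io n ∘ σ)^[m] x) ((io n ∘ σ)^[m] (x + 1)) := by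
    cases m with
    | zero => exact Or.inl rfl
    | succ j =>
      have a := (h2 j (by omega)).2.2
      have b := C.lt _ (C.it_lt (show x < 2 * n by omega) j)
      have c := C.lt _ (C.it_lt hx j)
      rw [iterate_succ_apply', iterate_succ_apply', comp_apply, comp_apply, io_of_lt b,
        io_of_lt c]
      unfold Adj at a ⊢
      omega
  refine ⟨m, fun j hj => ⟨(h2 j hj).1, (h2 j hj).2.1⟩, ha, or_iff_not_imp_left.2 fun hn => ?_⟩
  have b := C.it_lt (show x < 2 * n by omega) m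
  have c := C.it_lt hx m
  generalize (io n ∘ σ)^[m] x = p at *
  generalize (io n ∘ σ)^[m] (x + 1) = q at *
  rcases ha with rfl | rfl
  · rw [min_eq_left (Nat.le_succ p)]
    refine ⟨c, fun hc => ?_, by tauto⟩
    have := wide_iff (w := w) hc c
    exact h1 ⟨by tauto, by tauto, hc.2.2⟩
  · rw [min_eq_right (Nat.le_succ q)]
    refine ⟨b, fun hc => ?_, by tauto⟩
    have := wide_iff (w := w) hc b
    exact h1 ⟨by tauto, by tauto, hc.2.2.symm⟩

lemma block {r q l : ℕ} (hr : (Brk σ n w).ncard ≤ r) (hq : q + (r + 1) * l < 2 * n)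
    (hf : ∀ x, q ≤ x → x ≤ q + (r + 1) * l → ¬ Wide σ n w (io n x)) :
    ∃ u, q ≤ u ∧ u + l ≤ q + (r + 1) * l ∧ ∀ x, u ≤ x → x < u + l → ∃ m,
      (∀ j < m, Wide σ n w ((io n ∘ σ)^[j] x) ∧ Wide σ n w ((io n ∘ σ)^[j] (x + 1))) ∧
      Adj ((io n ∘ σ)^[m] x) ((io n ∘ σ)^[m] (x + 1)) ∧
      ¬ Wide σ n w ((io n ∘ σ)^[m] x) ∧ ¬ Wide σ n w ((io n ∘ σ)^[m] (x + 1)) := by
  by_contra hc
  have key : ∀ c, c < r + 1 → ∃ x m, q + c * l ≤ x ∧ x < q + c * l + l ∧
      x + 1 ≤ q + (r + 1) * l ∧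
      (∀ j < m, Wide σ n w ((io n ∘ σ)^[j] x) ∧ Wide σ n w ((io n ∘ σ)^[j] (x + 1))) ∧
      Adj ((io n ∘ σ)^[m] x) ((io n ∘ σ)^[m] (x + 1)) ∧
      min ((io n ∘ σ)^[m] x) ((io n ∘ σ)^[m] (x + 1)) ∈ Brk σ n w := by
    intro c hcr
    have hle : c * l + l ≤ (r + 1) * l := by
      rw [← Nat.succ_mul]; exact Nat.mul_le_mul_right l hcr
    by_contra hn
    refine hc ⟨q + c * l, by omega, by omega, fun x h1 h2 => ?_⟩
    obtain ⟨m, a1, a2, a3 | a3⟩ := C.stop (x := x) (by omega)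
    · exact ⟨m, a1, a2, a3⟩
    · exact absurd ⟨x, m, h1, h2, by omega, a1, a2, a3⟩ hn
  choose! X m h1 h2 h3 h4 h5 h6 using key
  have same : ∀ c, c < r + 1 → ∀ c', c' < r + 1 → m c ≤ m c' →
      min ((io n ∘ σ)^[m c] (X c)) ((io n ∘ σ)^[m c] (X c + 1)) =
        min ((io n ∘ σ)^[m c'] (X c')) ((io n ∘ σ)^[m c'] (X c' + 1)) → X c = X c' := by
    intro c hc c' hc' hm e
    have a := h5 c hc
    have b := h5 c' hc'
    have q1 : q ≤ X c := le_trans (Nat.le_add_right _ _) (h1 c hc)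
    have q2 := h3 c hc
    have f1 := hf (X c) q1 (by omega)
    have f2 := hf (X c + 1) (by omega) q2
    have b1 := C.back f1 (fun j hj => (h4 c' hc' j hj).1) hm
    have b2 := C.back f1 (fun j hj => (h4 c' hc' j hj).2) hm
    have b3 := C.back f2 (fun j hj => (h4 c' hc' j hj).1) hm
    have b4 := C.back f2 (fun j hj => (h4 c' hc' j hj).2) hm
    unfold Adj at a b
    omega
  have hfin : (Brk σ n w).Finite := (finite_Iio (2 * n)).subset fun x hx => by
    have := hx.1
    exact mem_Iio.2 (by omega)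
  have := ncard_le_ncard_of_injOn (s := Iio (r + 1)) (t := Brk σ n w)
    (fun c => min ((io n ∘ σ)^[m c] (X c)) ((io n ∘ σ)^[m c] (X c + 1))) h6 (fun c hc c' hc' e => by
      have e' : X c = X c' := by
        rcases le_total (m c) (m c') with h | h
        · exact same c hc c' hc' h e
        · exact (same c' hc' c hc h e.symm).symm
      have a1 := h1 c hc
      have a2 := h2 c hc
      have a3 := h1 c' hc'
      have a4 := h2 c' hc'
      by_contra hne
      rcases Nat.lt_or_gt_of_ne hne with h | h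
      · have := Nat.mul_le_mul_right l (show c + 1 ≤ c' from h)
        rw [Nat.succ_mul] at this
        omega
      · have := Nat.mul_le_mul_right l (show c' + 1 ≤ c from h)
        rw [Nat.succ_mul] at this
        omega) hfin
  rw [← Finset.coe_Iio, ncard_coe_finset, Nat.card_Iio] at this
  omega

/-- a long interval of parallel strands that end at the same time in free points -/
lemma strands {r q l : ℕ} (hr : (Brk σ n w).ncard ≤ r) (hq : q + (r + 1) * l < 2 * n)
    (hf : ∀ x, q ≤ x → x ≤ q + (r + 1) * l → ¬ Wide σ n w (io n x)) :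
    ∃ u t, q ≤ u ∧ u + l ≤ q + (r + 1) * l ∧
      (∀ j, j ≤ l → (∀ m < t, Wide σ n w ((io n ∘ σ)^[m] (u + j))) ∧
        ¬ Wide σ n w ((io n ∘ σ)^[t] (u + j))) ∧
      ((∀ j, j ≤ l → (io n ∘ σ)^[t] (u + j) = (io n ∘ σ)^[t] u + j) ∨
        ∀ j, j ≤ l → (io n ∘ σ)^[t] (u + j) + j = (io n ∘ σ)^[t] u) := by
  classical
  obtain ⟨u, h1, h2, h3⟩ := C.block hr hq hf
  have hex : ∃ m, ¬ Wide σ n w ((io n ∘ σ)^[m] u) := by
    obtain ⟨m, hm⟩ := C.acyc u (by omega)
    exact ⟨m, fun a => C.nf _ a hm⟩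
  have a1 := Nat.find_spec hex
  have a2 := fun j (hj : j < Nat.find hex) => not_not.1 (Nat.find_min hex hj)
  generalize Nat.find hex = t at a1 a2
  have step : ∀ x, u ≤ x → x < u + l → (∀ m < t, Wide σ n w ((io n ∘ σ)^[m] x)) →
      ¬ Wide σ n w ((io n ∘ σ)^[t] x) → ((∀ m < t, Wide σ n w ((io n ∘ σ)^[m] (x + 1))) ∧
        ¬ Wide σ n w ((io n ∘ σ)^[t] (x + 1))) ∧
        Adj ((io n ∘ σ)^[t] x) ((io n ∘ σ)^[t] (x + 1)) := by
    intro x b1 b2 b3 b4
    obtain ⟨m, c1, c2, c3, c4⟩ := h3 x b1 b2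
    obtain rfl : m = t := by
      rcases lt_trichotomy m t with h | h | h
      · exact absurd (b3 m h) c3
      · exact h
      · exact absurd (c1 t h).1 b4
    exact ⟨⟨fun j hj => (c1 j hj).2, c4⟩, c2⟩
  have all : ∀ j, j ≤ l → (∀ m < t, Wide σ n w ((io n ∘ σ)^[m] (u + j))) ∧
      ¬ Wide σ n w ((io n ∘ σ)^[t] (u + j)) := by
    intro j
    induction j with
    | zero => exact fun _ => ⟨a2, a1⟩
    | succ j ih =>
      intro hj
      exact (step (u + j) (by omega) (by omega) (ih (by omega)).1 (ih (by omega)).2).1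
  refine ⟨u, t, h1, h2, all, line (C.inj t) fun x b1 b2 => ?_⟩
  obtain ⟨j, rfl⟩ := Nat.exists_eq_add_of_le b1
  exact (step _ b1 b2 (all j (by omega)).1 (all j (by omega)).2).2

end Ctx

/-- the points of an interval are joined to the points of an interval of free points -/
def Nice (σ μ : ℕ → ℕ) (n w u v : ℕ) : Prop :=
  ∃ g : ℕ → ℕ, Injective g ∧
    (∀ x ∈ Ico u v, μ x = x ∧ CC σ μ x (g x) ∧ ¬ Wide σ n w (g x) ∧ g x < 2 * n) ∧
    ((∃ c c', ∀ x ∈ Ico u v, g x + c = x + c') ∨ ∃ c, ∀ x ∈ Ico u v, g x + x = c)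

lemma Nice.mono {σ μ : ℕ → ℕ} {n w u v u' v' : ℕ} (h : Nice σ μ n w u v) (h1 : u ≤ u')
    (h2 : v' ≤ v) : Nice σ μ n w u' v' := by
  obtain ⟨g, a1, a2, a3⟩ := h
  have hs := Ico_subset_Ico h1 h2
  exact ⟨g, a1, fun x hx => a2 x (hs hx), a3.imp
    (fun ⟨c, c', b⟩ => ⟨c, c', fun x hx => b x (hs hx)⟩) fun ⟨c, b⟩ => ⟨c, fun x hx => b x (hs hx)⟩⟩

lemma Nice.count (hD : DiS) {σ μ : ℕ → ℕ} {n w d u v : ℕ} (hσ : Involutive σ)
    (hμ : Involutive μ) (hs : Shallow σ n w d) (h : Nice σ μ n w u v) {B : Set ℕ}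
    (hB : ∀ y ∈ B, μ y = y ∧ y ∉ Ico u v) :
    {x | x ∈ Ico u v ∧ ∃ y ∈ B, CC σ μ x y}.ncard ≤ d := by
  rcases le_or_gt v u with huv | huv
  · rw [Ico_eq_empty_of_le huv]; simp
  obtain ⟨g, a1, a2, a3⟩ := h
  obtain ⟨k1, k2, b1, b2⟩ : ∃ k1 k2, k2 ≤ 2 * n ∧ ∀ z, z ∈ Ico k1 k2 ↔ ∃ x ∈ Ico u v, g x = z := by
    have m1 : u ∈ Ico u v := ⟨le_rfl, huv⟩
    have m2 : v - 1 ∈ Ico u v := ⟨by omega, by omega⟩
    rcases a3 with ⟨c, c', e⟩ | ⟨c, e⟩
    · have e1 := e u m1
      have e2 := e _ m2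
      have e3 := (a2 _ m2).2.2.2
      refine ⟨g u, g (v - 1) + 1, e3, fun z => ⟨fun hz => ?_, ?_⟩⟩
      · have hz1 := hz.1
        have hz2 := hz.2
        have m3 : z + c - c' ∈ Ico u v := ⟨by omega, by omega⟩
        have := e _ m3
        exact ⟨_, m3, by omega⟩
      · rintro ⟨x, hx, rfl⟩
        have := e x hx
        have := hx.1
        have := hx.2
        exact ⟨by omega, by omega⟩
    · have e1 := e u m1
      have e2 := e _ m2
      have e3 := (a2 _ m1).2.2.2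
      refine ⟨g (v - 1), g u + 1, e3, fun z => ⟨fun hz => ?_, ?_⟩⟩
      · have hz1 := hz.1
        have hz2 := hz.2
        have m3 : c - z ∈ Ico u v := ⟨by omega, by omega⟩
        have := e _ m3
        exact ⟨_, m3, by omega⟩
      · rintro ⟨x, hx, rfl⟩
        have := e x hx
        have := hx.1
        have := hx.2
        exact ⟨by omega, by omega⟩
  refine le_trans (ncard_le_ncard_of_injOn g ?_ a1.injOn
    ((finite_Ico k1 k2).subset fun _ hx => hx.1)) (hs k1 k2 b1 fun z hz => ?_)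
  · rintro x ⟨hx, y, hy, hc⟩
    refine ⟨(b2 _).2 ⟨x, hx, rfl⟩, fun hz => ?_⟩
    obtain ⟨x', hx', e⟩ := (b2 _).1 hz
    have hxy : ∀ z ∈ Ico u v, z ≠ y := fun z hz e => (hB y hy).2 (e ▸ hz)
    by_cases hne : x = x'
    · subst hne
      exact hxy x hx ((hD μ σ hμ hσ).2 x y (g x) (a2 x hx).1 (hB y hy).1 e.symm (cc_swap hc)
        (cc_swap (a2 x hx).2.1))
    · have c1 : CC σ μ x x' :=
        ((a2 x hx).2.1.tail (Or.inl e)).trans (cc_symm hσ hμ (a2 x' hx').2.1)
      rcases (hD μ σ hμ hσ).1 x x' y (a2 x hx).1 (a2 x' hx').1 (hB y hy).1 (cc_swap c1)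
        (cc_swap hc) with h | h | h
      · exact hne h
      · exact hxy x hx h
      · exact hxy x' hx' h
  · obtain ⟨x, hx, rfl⟩ := (b2 z).1 hz
    exact (a2 x hx).2.2.1

/-- both halves of a window are nice -/
lemma finish (hD : DiS) {σ : ℕ → ℕ} {n w d a b : ℕ} (hσ : Involutive σ) (hs : Shallow σ n w d)
    (hb : b ≤ n) (h1 : Nice σ (iw n a b) n w a b)
    (h2 : Nice σ (iw n a b) n w (2 * n - b) (2 * n - a)) (j : ℕ) (ha : a ≤ j) (hj : j ≤ b) :
    {x | x ∈ Win n j b ∧ ∃ y ∈ Win n a j, CC σ (iw n a b) x y}.ncard ≤ d + d := by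
  have hB : ∀ y ∈ Win n a j, iw n a b y = y ∧ y ∉ Ico j b ∧ y ∉ Ico (2 * n - b) (2 * n - j) := by
    intro y hy
    simp only [Win, mem_union, mem_Ico] at hy
    refine ⟨iw_of_mem ?_, ?_, ?_⟩ <;> simp only [Win, mem_union, mem_Ico] <;> omega
  have c1 := (h1.mono ha le_rfl).count hD hσ (iw_inv (ha.trans hj) hb) hs (B := Win n a j)
    fun y hy => ⟨(hB y hy).1, (hB y hy).2.1⟩
  have c2 := (h2.mono (v' := 2 * n - j) le_rfl (by omega)).count hD hσ (iw_inv (ha.trans hj) hb)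
    hs (B := Win n a j) fun y hy => ⟨(hB y hy).1, (hB y hy).2.2⟩
  refine le_trans (le_of_eq ?_) ((ncard_union_le _ _).trans (add_le_add c1 c2))
  congr 1
  ext x
  simp only [Win, mem_union, mem_ofPred_eq, or_and_right]

/-- the strands of an interval run outside the window -/
lemma Ctx.nice {σ μ : ℕ → ℕ} {n w u v t : ℕ} (C : Ctx σ n w) (hv : v ≤ 2 * n)
    (hf : ∀ x ∈ Ico u v, ¬ Wide σ n w (io n x))
    (hw : ∀ x ∈ Ico u v, (∀ m < t, Wide σ n w ((io n ∘ σ)^[m] x)) ∧
      ¬ Wide σ n w ((io n ∘ σ)^[t] x))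
    (hl : (∃ c c', ∀ x ∈ Ico u v, (io n ∘ σ)^[t] x + c = x + c') ∨
      ∃ c, ∀ x ∈ Ico u v, (io n ∘ σ)^[t] x + x = c)
    (hψ : 0 < t → ∀ x ∈ Ico u v, io n ((io n ∘ σ)^[t] x) ∉ Ico u v)
    (hμ : ∀ x ∈ Ico u v, μ x = x) (hμ' : ∀ x, x ∉ Ico u v → io n x ∉ Ico u v → μ x = io n x) :
    Nice σ μ n w u v := by
  refine ⟨_, C.inj t, fun x hx => ⟨hμ x hx, ?_, (hw x hx).2, C.it_lt (hx.2.trans_le hv) t⟩, hl⟩
  have : ∀ m, m ≤ t → CC σ μ x ((io n ∘ σ)^[m] x) := by
    intro m
    induction m with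
    | zero => exact fun _ => Relation.ReflTransGen.refl
    | succ m ih =>
      intro hm
      have w1 := C.ws _ ((hw x hx).1 m hm)
      have e : io n ((io n ∘ σ)^[m + 1] x) = σ ((io n ∘ σ)^[m] x) := by
        rw [iterate_succ_apply', comp_apply, io_inv n]
      refine ((ih (by omega)).tail (Or.inl rfl)).tail (Or.inr ?_)
      rw [hμ', iterate_succ_apply', comp_apply]
      · intro hz
        rcases Nat.lt_or_eq_of_le hm with h | h
        · refine hf _ hz ?_
          rw [← e, io_inv n]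
          exact (hw x hx).1 _ h
        · exact hψ (by omega) x hx (by rw [← h, e]; exact hz)
      · intro hz
        exact hf _ hz (by rw [io_inv n]; exact w1)
  exact this t le_rfl

/-- an interval whose mirror image is free contains a long interval with good strands -/
lemma Ctx.half {σ : ℕ → ℕ} {n w r q l : ℕ} (C : Ctx σ n w) (hr : (Brk σ n w).ncard ≤ r)
    (hq : q + (r + 1) * (2 * l) < 2 * n)
    (hf : ∀ x, q ≤ x → x ≤ q + (r + 1) * (2 * l) → ¬ Wide σ n w (io n x)) :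
    ∃ u, q ≤ u ∧ u + l ≤ q + (r + 1) * (2 * l) ∧ ∀ μ : ℕ → ℕ, (∀ x ∈ Ico u (u + l), μ x = x) →
      (∀ x, x ∉ Ico u (u + l) → io n x ∉ Ico u (u + l) → μ x = io n x) →
      Nice σ μ n w u (u + l) := by
  obtain ⟨u, t, h1, h2, h3, h4⟩ := C.strands hr hq hf
  have h3' : ∀ x, u ≤ x → x ≤ u + 2 * l → (∀ m < t, Wide σ n w ((io n ∘ σ)^[m] x)) ∧
      ¬ Wide σ n w ((io n ∘ σ)^[t] x) := fun x a b => by
    obtain ⟨j, rfl⟩ := Nat.exists_eq_add_of_le a
    exact h3 j (by omega)
  have hlt : ∀ x, x ≤ u + 2 * l → (io n ∘ σ)^[t] x < 2 * n := fun x b => C.it_lt (by omega) t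
  rcases h4 with h4 | h4
  · have h5 : ∀ x, u ≤ x → x ≤ u + 2 * l → (io n ∘ σ)^[t] x + u = x + (io n ∘ σ)^[t] u :=
      fun x a b => by
        obtain ⟨j, rfl⟩ := Nat.exists_eq_add_of_le a
        have := h4 j (by omega)
        omega
    obtain ⟨u', b1, b2, b3⟩ : ∃ u', u ≤ u' ∧ u' + l ≤ u + 2 * l ∧ ∀ x ∈ Ico u' (u' + l),
        io n ((io n ∘ σ)^[t] x) ∉ Ico u' (u' + l) := by
      by_cases hc : (io n ∘ σ)^[t] u + u + 2 * l ≤ 2 * n
      · refine ⟨u, le_rfl, by omega, fun x ⟨a, b⟩ ⟨c, e⟩ => ?_⟩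
        have := h5 x a (by omega)
        have := hlt x (by omega)
        rw [io_of_lt this] at c e
        omega
      · refine ⟨u + l, by omega, by omega, fun x ⟨a, b⟩ ⟨c, e⟩ => ?_⟩
        have := h5 x (by omega) (by omega)
        have := hlt x (by omega)
        rw [io_of_lt this] at c e
        omega
    exact ⟨u', by omega, by omega, fun μ m1 m2 => C.nice (t := t) (by omega)
      (fun x ⟨a, b⟩ => hf x (by omega) (by omega)) (fun x ⟨a, b⟩ => h3' x (by omega) (by omega))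
      (Or.inl ⟨u, _, fun x ⟨a, b⟩ => h5 x (by omega) (by omega)⟩) (fun _ => b3) m1 m2⟩
  · have h5 : ∀ x, u ≤ x → x ≤ u + 2 * l → (io n ∘ σ)^[t] x + x = (io n ∘ σ)^[t] u + u :=
      fun x a b => by
        obtain ⟨j, rfl⟩ := Nat.exists_eq_add_of_le a
        have := h4 j (by omega)
        omega
    refine ⟨u, h1, by omega, fun μ m1 m2 => C.nice (t := t) (by omega)
      (fun x ⟨a, b⟩ => hf x (by omega) (by omega)) (fun x ⟨a, b⟩ => h3' x (by omega) (by omega))
      (Or.inr ⟨_, fun x ⟨a, b⟩ => h5 x (by omega) (by omega)⟩) ?_ m1 m2⟩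
    rintro ht x ⟨a, b⟩ ⟨c, e⟩
    obtain ⟨s, rfl⟩ : ∃ s, t = s + 1 := ⟨t - 1, by omega⟩
    have e1 := h5 x a (by omega)
    have e2 := h5 _ c (by omega)
    have e3 := hlt x (by omega)
    have hx : x < 2 * n := by omega
    rw [C.turn, io_of_lt hx] at e2
    refine C.no_fix (s := s) hx (fun m hm => (h3' x a (by omega)).1 m (by omega)) ?_
    have e4 : io n ((io n ∘ σ)^[s + 1] x) = σ ((io n ∘ σ)^[s] x) := by
      rw [iterate_succ_apply', comp_apply, io_inv n]
    rw [← e4]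
    rw [io_of_lt e3] at e2 ⊢
    omega

lemma nice_id {σ μ : ℕ → ℕ} {n w u v : ℕ} (hv : v ≤ 2 * n)
    (h : ∀ x ∈ Ico u v, μ x = x ∧ ¬ Wide σ n w x) : Nice σ μ n w u v :=
  ⟨id, injective_id, fun x hx => ⟨(h x hx).1, Relation.ReflTransGen.refl, (h x hx).2,
    hx.2.trans_le hv⟩, Or.inl ⟨0, 0, fun _ _ => rfl⟩⟩

end Ret

open Ret in
theorem retS (hD : DiS) (hM : MinS) (h : F1wS) : RetS := by
  intro k w r d hw
  obtain ⟨l, hl⟩ := h k (d + d)
  refine ⟨2 * ((r + 1) * (2 * l) + 1), fun n σ T a hm hr hs ha hf => ?_⟩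
  have C := ctx hM hm hw
  generalize hL : (r + 1) * (2 * l) = L at ha hf
  by_cases hc : a + L + 1 ≤ n
  · obtain ⟨u, h1, h2, h3⟩ := C.half (q := 2 * n - 1 - a - L) (l := l) hr (by omega)
      fun x b1 b2 => hf _ (by rw [io_of_lt (by omega)]; exact ⟨by omega, by omega⟩)
    refine hl n σ T (2 * n - u - l) (2 * n - u) hm (by omega) (by omega)
      (finish hD C.inv hs (by omega) (nice_id (by omega) fun x hx => ⟨iw_of_mem (Or.inl hx),
        hf x ⟨by have := hx.1; omega, by have := hx.2; omega⟩⟩) ?_)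
    rw [show 2 * n - (2 * n - u) = u by omega, show 2 * n - (2 * n - u - l) = u + l by omega]
    refine h3 _ (fun x hx => iw_of_mem (Or.inr ⟨by have := hx.1; omega, by have := hx.2; omega⟩))
      fun x b1 b2 => iw_of_not ?_
    simp only [Win, mem_union, mem_Ico, io] at b1 b2 ⊢
    split_ifs at b2 <;> omega
  · obtain ⟨u, h1, h2, h3⟩ := C.half (q := 2 * n - 2 - a - 2 * L) (l := l) hr (by omega)
      fun x b1 b2 => hf _ (by rw [io_of_lt (by omega)]; exact ⟨by omega, by omega⟩)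
    refine hl n σ T u (u + l) hm le_rfl (by omega)
      (finish hD C.inv hs (by omega) ?_ (nice_id (by omega) fun x hx => ⟨iw_of_mem (Or.inr hx),
        hf x ⟨by have := hx.1; omega, by have := hx.2; omega⟩⟩))
    refine h3 _ (fun x hx => iw_of_mem (Or.inl hx)) fun x b1 b2 => iw_of_not ?_
    simp only [Win, mem_union, mem_Ico, io] at b1 b2 ⊢
    split_ifs at b2 <;> omega

end Pool.Agent.MP_9d78a0_co.fb

end MrgPart2

-- ======== part 3: formerly Pool.Agent.MP_9d78a0_co.fb.MaxC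
section MrgPart3

/-! Rows MAX, C1 and CORE of part 1. -/

set_option autoImplicit false

namespace Pool.Agent.MP_9d78a0_co.fb

open Set Function

namespace MaxC

/-- insert `y` after index `j` -/
def ins (x : ℕ → ℕ) (j y i : ℕ) : ℕ := if i ≤ j then x i else if i = j + 1 then y else x (i - 1)

lemma comp_ins (σ x : ℕ → ℕ) (j y : ℕ) : σ ∘ ins x j y = ins (σ ∘ x) j (σ y) := by
  funext i
  simp only [comp, ins]
  split_ifs <;> rfl

lemma mo_ins {x : ℕ → ℕ} {M j y : ℕ} (hj : j + 1 < M) (h : Mo x M)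
    (hb : Btw (x j) (x (j + 1)) y) : Mo (ins x j y) (M + 1) := by
  unfold Btw at hb
  rcases h with h | h
  · have h0 := h j (j + 1) (by omega) hj
    have le : ∀ a b, a ≤ b → b < M → x a ≤ x b := fun a b hab hb => by
      rcases hab.eq_or_lt with rfl | hab
      · exact le_rfl
      · exact (h a b hab hb).le
    refine Or.inl fun a b hab hbM => ?_
    unfold ins
    split_ifs with h1 h2 h3 h4 h5 h6 h7 h8
    · exact h a b hab (by omega)
    · have := le a j h1 (by omega); omega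
    · exact h a (b - 1) (by omega) (by omega)
    · omega
    · omega
    · have := le (j + 1) (b - 1) (by omega) (by omega); omega
    · omega
    · omega
    · exact h (a - 1) (b - 1) (by omega) (by omega)
  · have h0 := h j (j + 1) (by omega) hj
    have le : ∀ a b, a ≤ b → b < M → x b ≤ x a := fun a b hab hb => by
      rcases hab.eq_or_lt with rfl | hab
      · exact le_rfl
      · exact (h a b hab hb).le
    refine Or.inr fun a b hab hbM => ?_
    unfold ins
    split_ifs with h1 h2 h3 h4 h5 h6 h7 h8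
    · exact h a b hab (by omega)
    · omega
    · omega
    · have := le a j (by omega) (by omega); omega
    · omega
    · omega
    · exact h a (b - 1) (by omega) (by omega)
    · have := le (j + 1) (b - 1) (by omega) (by omega); omega
    · exact h (a - 1) (b - 1) (by omega) (by omega)

lemma self_mem {x : ℕ → ℕ} {M i : ℕ} (hi : i < M) : x i ∈ hull x M :=
  ⟨i, hi, i, hi, le_rfl, le_rfl⟩

lemma btw_mem {x : ℕ → ℕ} {M j y : ℕ} (hj : j + 1 < M) (hb : Btw (x j) (x (j + 1)) y) :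
    y ∈ hull x M := by
  rcases hb with hb | hb
  · exact ⟨j, by omega, j + 1, hj, hb.1.le, hb.2.le⟩
  · exact ⟨j + 1, hj, j, by omega, hb.1.le, hb.2.le⟩

lemma hull_conv {x : ℕ → ℕ} {M a b c : ℕ} (ha : a ∈ hull x M) (hb : b ∈ hull x M)
    (h1 : a ≤ c) (h2 : c ≤ b) : c ∈ hull x M := by
  obtain ⟨i, hi, -, -, h, -⟩ := ha
  obtain ⟨-, -, j, hj, -, h'⟩ := hb
  exact ⟨i, hi, j, hj, h.trans h1, h2.trans h'⟩

lemma hull_ins {x : ℕ → ℕ} {M j y : ℕ} (hj : j + 1 < M) (hb : Btw (x j) (x (j + 1)) y) :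
    hull (ins x j y) (M + 1) ⊆ hull x M := by
  have key : ∀ i < M + 1, ins x j y i ∈ hull x M := by
    intro i hi
    unfold ins
    split_ifs with h1 h2
    · exact self_mem (by omega)
    · exact btw_mem hj hb
    · exact self_mem (by omega)
  rintro a ⟨i, hi, i', hi', h1, h2⟩
  exact hull_conv (key i hi) (key i' hi') h1 h2

lemma mo_bound {x : ℕ → ℕ} {M B : ℕ} (h : Mo x M) (hB : ∀ i < M, x i < B) : M ≤ B := by
  rcases Nat.eq_zero_or_pos M with rfl | hM
  · omega
  rcases h with h | h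
  · have : ∀ i, i < M → i ≤ x i := by
      intro i
      induction i with
      | zero => omega
      | succ i ih =>
        intro hi
        have := h i (i + 1) (by omega) hi
        have := ih (by omega)
        omega
    have h1 := this (M - 1) (by omega)
    have h2 := hB (M - 1) (by omega)
    omega
  · have : ∀ i, i < M → i + x i ≤ x 0 := by
      intro i
      induction i with
      | zero => omega
      | succ i ih =>
        intro hi
        have := h i (i + 1) (by omega) hi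
        have := ih (by omega)
        omega
    have h1 := this (M - 1) (by omega)
    have h2 := hB 0 hM
    omega

lemma max_aux (σ : ℕ → ℕ) (T : Finset (ℕ × ℕ)) (M : ℕ) (x : ℕ → ℕ) (B : ℕ)
    (hB : ∀ a ∈ hull x M, a < B) (m : ℕ) :
    ∀ (M' : ℕ) (x' φ : ℕ → ℕ), Band σ T M' x' → (∀ i j, i < j → j < M → φ i < φ j) →
      (∀ i < M, φ i < M' ∧ x' (φ i) = x i) → hull x' M' ⊆ hull x M → B ≤ M' + m →
      ∃ (M' : ℕ) (x' φ : ℕ → ℕ), Band σ T M' x' ∧ MaxB σ M' x' ∧
        (∀ i j, i < j → j < M → φ i < φ j) ∧ (∀ i < M, φ i < M' ∧ x' (φ i) = x i) ∧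
        hull x' M' ⊆ hull x M := by
  induction m with
  | zero =>
    intro M' x' φ hb h1 h2 h3 hm
    refine ⟨M', x', φ, hb, fun j hj y hy _ => ?_, h1, h2, h3⟩
    have := mo_bound (mo_ins hj hb.mo hy) fun i hi =>
      hB _ (h3 (hull_ins hj hy (self_mem hi)))
    omega
  | succ m ih =>
    intro M' x' φ hb h1 h2 h3 hm
    by_cases hx : MaxB σ M' x'
    · exact ⟨M', x', φ, hb, hx, h1, h2, h3⟩
    unfold MaxB at hx
    push Not at hx
    obtain ⟨j, hj, y, hy, hy'⟩ := hx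
    have s1 := hull_ins hj hy
    have s2 : hull (σ ∘ ins x' j y) (M' + 1) ⊆ hull (σ ∘ x') M' := by
      rw [comp_ins]; exact hull_ins (x := σ ∘ x') hj hy'
    refine ih (M' + 1) (ins x' j y) (fun i => if φ i ≤ j then φ i else φ i + 1)
      ⟨mo_ins hj hb.mo hy, ?_, hb.dis.mono s1 s2, hb.noend.mono_right s1,
        hb.noend'.mono_right s2⟩ ?_ ?_ (s1.trans h3) (by omega)
    · rw [comp_ins]; exact mo_ins (x := σ ∘ x') hj hb.mo' hy'
    · intro a b hab hbM
      have := h1 a b hab hbM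
      split_ifs <;> omega
    · intro i hi
      obtain ⟨e1, e2⟩ := h2 i hi
      by_cases h : φ i ≤ j
      · rw [if_pos h]
        exact ⟨by omega, by rw [ins, if_pos h, e2]⟩
      · rw [if_neg h]
        refine ⟨by omega, ?_⟩
        rw [ins, if_neg (by omega), if_neg (by omega), Nat.add_sub_cancel, e2]

lemma wide_succ {σ : ℕ → ℕ} {n w x : ℕ} (h : Wide σ n w x) (hx : x + 1 < 2 * n)
    (hc : Clean σ x) : Wide σ n w (x + 1) := by
  obtain ⟨a, ⟨h1, h2⟩, h3, h4⟩ := h
  by_cases h5 : x + 1 < a + w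
  · exact ⟨a, ⟨h1, h2⟩, by omega, h5⟩
  · refine ⟨a + 1, ⟨by omega, fun y hy hy' => ?_⟩, by omega, by omega⟩
    by_cases h6 : y = x
    · exact h6 ▸ hc
    · exact h2 y (by omega) (by omega)

lemma free_start {σ : ℕ → ℕ} {n w : ℕ} (x : ℕ) : x < 2 * n → ¬ Wide σ n w x →
    ∃ a ≤ x, (a = 0 ∨ ∃ y ∈ Brk σ n w, a = y + 1) ∧ ∀ z, a ≤ z → z ≤ x → ¬ Wide σ n w z := by
  induction x with
  | zero =>
    intro _ h
    exact ⟨0, le_rfl, Or.inl rfl, fun z _ hz => by rwa [Nat.le_zero.1 hz]⟩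
  | succ x ih =>
    intro hx h
    by_cases hw : Wide σ n w x
    · refine ⟨x + 1, le_rfl, Or.inr ⟨x, ⟨hx, fun hc => h (wide_succ hw hx hc), Or.inl hw⟩, rfl⟩,
        fun z h1 h2 => ?_⟩
      rwa [le_antisymm h2 h1]
    · obtain ⟨a, h1, h2, h3⟩ := ih (by omega) hw
      refine ⟨a, by omega, h2, fun z h4 h5 => ?_⟩
      rcases h5.eq_or_lt with rfl | h5
      · exact h
      · exact h3 z h4 (by omega)

lemma mo_inj {x : ℕ → ℕ} {M i j : ℕ} (h : Mo x M) (hi : i < M) (hj : j < M) (e : x i = x j) :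
    i = j := by
  rcases lt_trichotomy i j with hij | hij | hij
  · rcases h with h | h <;> have := h i j hij hj <;> omega
  · exact hij
  · rcases h with h | h <;> have := h j i hij hi <;> omega

lemma btw_ne {x : ℕ → ℕ} {M g y j : ℕ} (h : Mo x M) (hg : g + 1 < M)
    (hb : Btw (x g) (x (g + 1)) y) (hj : j < M) : x j ≠ y := by
  rintro rfl
  unfold Btw at hb
  rcases lt_trichotomy j g with h1 | rfl | h1
  · rcases h with h | h <;> have := h j g h1 (by omega) <;>
      have := h g (g + 1) (by omega) hg <;> omega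
  · omega
  · rcases (show j = g + 1 ∨ g + 1 < j by omega) with rfl | h2
    · omega
    · rcases h with h | h <;> have := h (g + 1) j h2 hj <;>
        have := h g (g + 1) (by omega) hg <;> omega

lemma hull_congr {x y : ℕ → ℕ} {M : ℕ} (h : ∀ i < M, x i = y i) : hull x M = hull y M := by
  ext a
  constructor
  · rintro ⟨i, hi, j, hj, h1, h2⟩
    exact ⟨i, hi, j, hj, h i hi ▸ h1, h j hj ▸ h2⟩
  · rintro ⟨i, hi, j, hj, h1, h2⟩
    exact ⟨i, hi, j, hj, (h i hi).symm ▸ h1, (h j hj).symm ▸ h2⟩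

lemma mo_congr {x y : ℕ → ℕ} {M : ℕ} (h : ∀ i < M, x i = y i) (hm : Mo y M) : Mo x M := by
  rcases hm with hm | hm
  · exact Or.inl fun i j hij hj => by rw [h i (by omega), h j hj]; exact hm i j hij hj
  · exact Or.inr fun i j hij hj => by rw [h i (by omega), h j hj]; exact hm i j hij hj

/-- the other index of the pair `2 s, 2 s + 1` -/
def par (s : ℕ) : ℕ := if s % 2 = 0 then s + 1 else s - 1

lemma par_par (s : ℕ) : par (par s) = s := by
  unfold par
  split_ifs <;> omega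

lemma par_lt {s Q : ℕ} (h : s < 2 * Q) : par s < 2 * Q := by
  unfold par
  split_ifs <;> omega

open Classical in
/-- join the jumps in pairs and forget their landings -/
noncomputable def sw (σ u : ℕ → ℕ) (Q z : ℕ) : ℕ :=
  if h : ∃ s < Q, z = u s then u (par h.choose) else if ∃ s < Q, z = σ (u s) then z else σ z

lemma sw_u {σ u : ℕ → ℕ} {Q s : ℕ} (hu : ∀ i < Q, ∀ j < Q, u i = u j → i = j) (hs : s < Q) :
    sw σ u Q (u s) = u (par s) := by
  have h : ∃ t < Q, u s = u t := ⟨s, hs, rfl⟩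
  rw [sw, dif_pos h, ← hu s hs _ h.choose_spec.1 h.choose_spec.2]

lemma sw_v {σ u : ℕ → ℕ} {Q z : ℕ} (h1 : ¬ ∃ s < Q, z = u s) (h2 : ∃ s < Q, z = σ (u s)) :
    sw σ u Q z = z := by
  rw [sw, dif_neg h1, if_pos h2]

lemma sw_o {σ u : ℕ → ℕ} {Q z : ℕ} (h1 : ¬ ∃ s < Q, z = u s) (h2 : ¬ ∃ s < Q, z = σ (u s)) :
    sw σ u Q z = σ z := by
  rw [sw, dif_neg h1, if_neg h2]

lemma sw_inv {σ u : ℕ → ℕ} {Q : ℕ} (hσ : Involutive σ)
    (hu : ∀ i < 2 * Q, ∀ j < 2 * Q, u i = u j → i = j) : Involutive (sw σ u (2 * Q)) := by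
  intro z
  by_cases h1 : ∃ s < 2 * Q, z = u s
  · obtain ⟨s, hs, rfl⟩ := h1
    rw [sw_u hu hs, sw_u hu (par_lt hs), par_par]
  by_cases h2 : ∃ s < 2 * Q, z = σ (u s)
  · rw [sw_v h1 h2, sw_v h1 h2]
  · rw [sw_o h1 h2, sw_o, hσ]
    · rintro ⟨s, hs, e⟩
      exact h2 ⟨s, hs, by rw [← e, hσ]⟩
    · rintro ⟨s, hs, e⟩
      exact h1 ⟨s, hs, hσ.injective e⟩

end MaxC

open MaxC

theorem maxS : MaxS := by
  intro σ T M x _ hb
  refine max_aux σ T M x ((Finset.range M).sup x + 1) ?_ ((Finset.range M).sup x + 1) M x id hb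
    (fun i j h _ => h) (fun i hi => ⟨hi, rfl⟩) subset_rfl (by omega)
  rintro a ⟨-, -, j, hj, -, h⟩
  have : x j ≤ (Finset.range M).sup x := Finset.le_sup (Finset.mem_range.2 hj)
  omega

theorem coreS (h1 : U3S) (h2 : DepthS) (h3 : RetS) (h4 : F2S) : CoreS := by
  classical
  intro k
  obtain ⟨w, r, hw, hr⟩ := h1 k
  obtain ⟨d, hd⟩ := h2 k w hw
  obtain ⟨V, hV⟩ := h3 k w r d hw
  obtain ⟨n0, hn⟩ := h4 k (r + V + r * V)
  refine ⟨n0, fun n σ T hm => hn n σ T hm ?_⟩
  have hfin : (Brk σ n w).Finite := (finite_Iio (2 * n)).subset fun x hx => by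
    have := hx.1
    simp only [mem_Iio]
    omega
  have hcard : hfin.toFinset.card ≤ r := by
    rw [← ncard_eq_toFinset_card _ hfin]; exact hr n σ T hm
  have hsub : {x | x + 1 < 2 * n ∧ ¬ Clean σ x} ⊆
      ((hfin.toFinset ∪ Finset.range V ∪
        hfin.toFinset.biUnion fun y => Finset.Ico (y + 1) (y + 1 + V) : Finset ℕ) : Set ℕ) := by
    rintro x ⟨hx, hc⟩
    simp only [Finset.coe_union, mem_union, Finset.mem_coe, Finite.mem_toFinset, Finset.mem_range,
      Finset.mem_biUnion, Finset.mem_Ico]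
    by_cases hW : Wide σ n w x
    · exact Or.inl (Or.inl ⟨hx, hc, Or.inl hW⟩)
    obtain ⟨a, ha, h5, h6⟩ := free_start x (by omega) hW
    have hlt : x < a + V := by
      by_contra hge
      exact hV n σ T a hm (hr n σ T hm) (hd n σ T hm) (by omega) fun z hz =>
        h6 z hz.1 (by have := hz.2; omega)
    rcases h5 with rfl | ⟨y, hy, rfl⟩
    · exact Or.inl (Or.inr (by omega))
    · exact Or.inr ⟨y, hy, ha, hlt⟩
  refine (ncard_le_ncard hsub (Finset.finite_toSet _)).trans ?_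
  rw [ncard_coe_finset]
  refine (Finset.card_union_le _ _).trans (add_le_add ((Finset.card_union_le _ _).trans
    (add_le_add hcard (by simp))) ?_)
  refine (Finset.card_biUnion_le_card_mul _ _ V fun y _ => by simp).trans ?_
  exact Nat.mul_le_mul_right _ hcard

theorem c1S (h1 : SimS) (h2 : CapS) (h3 : B31S) : C1S := by
  intro k
  obtain ⟨Q, W, h3⟩ := h3 k
  refine ⟨2 * Q, W + 1, fun σ T M x g u P ht hb hs hg hgg hmo d1 d2 d3 => ?_⟩
  have hσ := ht.inv
  have hu : ∀ i < 2 * Q, ∀ j < 2 * Q, u i = u j → i = j := fun i hi j hj e =>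
    mo_inj hmo hi hj (congrArg σ e)
  have hg1 : ∀ s < 2 * Q, g s + 1 < M := fun s hs => by have := (hg s hs).2.1; omega
  have uh : ∀ s < 2 * Q, u s ∈ hull x M := fun s hs => btw_mem (hg1 s hs) (hg s hs).2.2.1
  have vh : ∀ s < 2 * Q, σ (u s) ∈ hull (σ ∘ u) (2 * Q) := fun s hs =>
    self_mem (x := σ ∘ u) hs
  have sx : ∀ j < M, sw σ u (2 * Q) (x j) = σ (x j) := fun j hj => by
    refine sw_o ?_ ?_
    · rintro ⟨s, hs, e⟩
      exact btw_ne hb.mo (hg1 s hs) (hg s hs).2.2.1 hj e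
    · rintro ⟨s, hs, e⟩
      exact disjoint_left.1 d1 (vh s hs) (e ▸ self_mem hj)
  have hc : hull (sw σ u (2 * Q) ∘ x) M = hull (σ ∘ x) M := hull_congr sx
  let P' : Set ℕ := {z | z ∈ P ∧ z ∉ hull (σ ∘ u) (2 * Q)}
  have uP : ∀ s < 2 * Q, u s ∈ P' := fun s hs =>
    ⟨(hg s hs).2.2.2.1, fun h => disjoint_left.1 d1 h (uh s hs)⟩
  have p0 : ∀ s, par (2 * s) = 2 * s + 1 := fun s => by rw [par, if_pos (by omega)]
  have p1 : ∀ s, par (2 * s + 1) = 2 * s := fun s => by rw [par, if_neg (by omega)]; rfl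
  have G : Good (sw σ u (2 * Q)) T P' := by
    refine h3 _ T M x (fun s => g (2 * s)) (fun s => g (2 * s + 1)) (fun s => u (2 * s)) P'
      ⟨sw_inv hσ hu, ht.card, fun a ha => ?_, ht.ne, ht.dis⟩
      ⟨hb.mo, mo_congr sx hb.mo', hc ▸ hb.dis, hb.noend, hc ▸ hb.noend'⟩
      ⟨fun a ha => ⟨hs.1 ha, disjoint_left.1 d3 ha⟩, fun j h0 hj => ?_⟩ (fun s hs => ?_)
      (fun s t hst ht => ?_)
    · rw [sw_o, ht.fix a ha]
      · rintro ⟨s, hs, rfl⟩
        exact disjoint_left.1 hb.noend ha (uh s hs)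
      · rintro ⟨s, hs, rfl⟩
        exact disjoint_left.1 d3 ha (vh s hs)
    · rw [sx j hj]
      exact ⟨⟨(hs.2 j h0 hj).1, fun h => disjoint_left.1 d1 h (self_mem hj)⟩,
        (hs.2 j h0 hj).2, fun h => disjoint_left.1 d2 h (self_mem (x := σ ∘ x) hj)⟩
    · have a0 := hg (2 * s) (by omega)
      have a1 := hg (2 * s + 1) (by omega)
      have a2 := hgg (2 * s) (2 * s + 1) (by omega) (by omega)
      rw [sw_u hu (by omega : 2 * s < 2 * Q), p0]
      exact ⟨by omega, by omega, by omega, a0.2.2.1, a1.2.2.1, uP _ (by omega), uP _ (by omega)⟩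
    · have := hgg (2 * s + 1) (2 * t) (by omega) (by omega)
      omega
  have four : ∀ i j, i < j → j < Q →
      (σ (u (2 * i)) < σ (u (2 * i + 1)) ∧ σ (u (2 * i + 1)) < σ (u (2 * j)) ∧
        σ (u (2 * j)) < σ (u (2 * j + 1))) ∨
      (σ (u (2 * i + 1)) < σ (u (2 * i)) ∧ σ (u (2 * j)) < σ (u (2 * i + 1)) ∧
        σ (u (2 * j + 1)) < σ (u (2 * j))) := fun i j hij hj => by
    rcases hmo with h | h
    · exact Or.inl ⟨h _ _ (by omega) (by omega), h _ _ (by omega) (by omega),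
        h _ _ (by omega) (by omega)⟩
    · exact Or.inr ⟨h _ _ (by omega) (by omega), h _ _ (by omega) (by omega),
        h _ _ (by omega) (by omega)⟩
  have two : ∀ i < Q, σ (u (2 * i)) ≠ σ (u (2 * i + 1)) := fun i hi e => by
    have := hu _ (by omega) _ (by omega) (hσ.injective e)
    omega
  obtain ⟨ν, n1, n2, n3, n4⟩ := h2 ℕ (Iio Q)
    (fun s => min (σ (u (2 * s))) (σ (u (2 * s + 1))))
    (fun s => max (σ (u (2 * s))) (σ (u (2 * s + 1))))
    (fun i hi => by have := two i hi; omega)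
    (fun i hi j hj hij => by
      rcases lt_or_gt_of_ne hij with h | h
      · have := four i j h hj; omega
      · have := four j i h hi; omega)
    (fun i hi j hj => by
      rcases lt_trichotomy i j with h | rfl | h
      · have := four i j h hj; omega
      · omega
      · have := four j i h hi; omega)
  have nv : ∀ z, ν z ≠ z → ∃ s < 2 * Q, z = σ (u s) := fun z hz => by
    obtain ⟨i, hi, h⟩ := n4 z hz
    have hi' : i < Q := hi
    rcases (show z = σ (u (2 * i)) ∨ z = σ (u (2 * i + 1)) by omega) with h | h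
    · exact ⟨_, by omega, h⟩
    · exact ⟨_, by omega, h⟩
  have npar : ∀ s < 2 * Q, ν (σ (u s)) = σ (u (par s)) := fun s hs => by
    obtain ⟨i, rfl | rfl⟩ := Nat.even_or_odd' s
    · have h := n3 i (show i < Q by omega)
      rw [p0]
      rcases le_total (σ (u (2 * i))) (σ (u (2 * i + 1))) with hle | hle
      · rw [min_eq_left hle, max_eq_right hle] at h; exact h.1
      · rw [min_eq_right hle, max_eq_left hle] at h; exact h.2
    · have h := n3 i (show i < Q by omega)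
      rw [p1]
      rcases le_total (σ (u (2 * i))) (σ (u (2 * i + 1))) with hle | hle
      · rw [min_eq_left hle, max_eq_right hle] at h; exact h.2
      · rw [min_eq_right hle, max_eq_left hle] at h; exact h.1
  refine h1 σ ν (sw σ u (2 * Q)) id T T P P' univ hσ n1 n2 (fun z hz => ?_) (fun z hz => ?_)
    (injOn_id _) (fun a _ b _ c _ d _ e1 e2 e3 => ?_) (fun z y hy y' _ e1 e2 => ?_)
    (subset_univ _) (fun z _ => ⟨mem_univ _, ?_⟩)
    (fun p hp => Or.inr ⟨p, hp, mem_univ _, Or.inl ⟨.refl, .refl⟩⟩) G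
  · obtain ⟨s, hs, rfl⟩ := nv z hz
    exact (hg s hs).2.2.2.2
  · refine ⟨hz.1, ?_⟩
    by_contra hne
    obtain ⟨s, hs, e⟩ := nv z hne
    exact hz.2 (e ▸ vh s hs)
  · simp only [id] at e1 e2 e3
    unfold Btw
    omega
  · simp only [id] at e1 e2
    obtain ⟨s, hs, rfl⟩ := nv z (by omega)
    rw [npar s hs] at e2
    exact absurd (hull_conv (vh s hs) (vh _ (par_lt hs)) e1.le e2.le) hy.2
  · simp only [id]
    by_cases c1 : ∃ s < 2 * Q, z = u s
    · obtain ⟨s, hs, rfl⟩ := c1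
      rw [sw_u hu hs]
      refine ((Relation.ReflTransGen.single (b := σ (u s)) (Or.inl rfl)).tail
        (c := σ (u (par s))) (Or.inr (npar s hs).symm)).tail (Or.inl (hσ _).symm)
    by_cases c2 : ∃ s < 2 * Q, z = σ (u s)
    · rw [sw_v c1 c2]; exact .refl
    · rw [sw_o c1 c2]; exact .single (Or.inl rfl)

end Pool.Agent.MP_9d78a0_co.fb

end MrgPart3

-- ======== part 4: formerly Pool.Agent.MP_9d78a0_co.fb.Rl
section MrgPart4

/-! Relinking of parallel paths around a vertex. -/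

set_option autoImplicit false

namespace Pool.Agent.MP_9d78a0_co.fb

open Set Function

namespace Rl

/-- a small set misses a member of a large disjoint family -/
theorem avoid {κ V : Type} (J : Finset κ) (D : κ → Set V) {X : Set V} (hX : X.Finite)
    (hd : ∀ i ∈ J, ∀ j ∈ J, i ≠ j → Disjoint (D i) (D j)) (h : X.ncard < J.card) :
    ∃ j ∈ J, Disjoint (D j) X := by
  by_contra hc
  push Not at hc
  rcases J.eq_empty_or_nonempty with rfl | ⟨j0, h0⟩
  · simp at h
  obtain ⟨v0, -⟩ := not_disjoint_iff.1 (hc j0 h0)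
  have k : ∀ j, ∃ v, j ∈ J → v ∈ D j ∧ v ∈ X := fun j => by
    by_cases c : j ∈ J
    · obtain ⟨v, hv⟩ := not_disjoint_iff.1 (hc j c)
      exact ⟨v, fun _ => hv⟩
    · exact ⟨v0, fun c' => absurd c' c⟩
  choose x hx using k
  have := ncard_le_ncard_of_injOn (s := (J : Set κ)) (t := X) x (fun j hj => (hx j hj).2)
    (fun i hi j hj e => by
      by_contra c
      exact disjoint_left.1 (hd i hi j hj c) (hx i hi).1 (e ▸ (hx j hj).1)) hX
  rw [ncard_coe_finset] at this
  omega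

end Rl

open Rl in
theorem rlS (h : MengerPS) : RlS := by
  classical
  intro ι _
  have := Fintype.ofFinite ι
  obtain ⟨c, hc⟩ : ∃ c, c = Nat.card ι := ⟨_, rfl⟩
  refine ⟨4 * c + 1, Fintype.card (Fin (4 * c + 1) → Bool) * c + 1, by omega, ?_⟩
  intro V G U f l lev side base l0 D hU hP hdis hmono hslab hbase hD hDd
  have k1 : ∀ j : Fin (Fintype.card (Fin (4 * c + 1) → Bool) * c + 1), ∀ x : Fin (4 * c + 1),
      ∃ y ∈ D j, lev y = l0 + x := fun j x => (hD j j.2).2.2 x x.2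
  choose y hy hy' using k1
  obtain ⟨σ, hσ⟩ := Fintype.exists_lt_card_fiber_of_mul_lt_card (fun j x => side (y j x))
    (n := c) (by simp)
  obtain ⟨s, hs⟩ := Fintype.exists_lt_card_fiber_of_mul_lt_card σ (n := 2 * c) (by simp; omega)
  let e := Finset.orderEmbOfCardLe _ (Nat.succ_le_of_lt hs)
  have he : ∀ i, σ (e i) = s := fun i =>
    (Finset.mem_filter.1 (Finset.orderEmbOfCardLe_mem _ (Nat.succ_le_of_lt hs) i)).2
  obtain ⟨jv, hjv, hlv⟩ := hbase s (e ⟨c, by omega⟩) (e ⟨c, by omega⟩).2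
  refine ⟨f (base s) jv, (hP _).1 jv hjv, ?_⟩
  suffices H : ∀ X ⊆ U \ {f (base s) jv}, X.ncard < Nat.card ι →
      ∃ S ⊆ (U \ {f (base s) jv}) \ X, Conn G S ∧ (∃ b, f b 0 ∈ S) ∧ ∃ b, f b (l b) ∈ S by
    obtain ⟨θ, R, h1, h2⟩ := h V ι G (U \ {f (base s) jv}) (fun b => f b 0) (fun b => f b (l b))
      (hU.subset sdiff_subset) H
    exact ⟨θ, R, h2, h1⟩
  intro X hX hXc
  have hXf : X.Finite := hU.subset (hX.trans sdiff_subset)
  obtain ⟨b0, -, hb0⟩ := avoid Finset.univ (fun b => f b '' Icc 0 (l b)) hXf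
    (fun b _ b' _ hb => disjoint_left.2 (by
      rintro _ ⟨i, hi, rfl⟩ ⟨j, hj, e⟩
      exact hdis b b' hb i hi.2 j hj.2 e.symm))
    (by rwa [Finset.card_univ, ← Nat.card_eq_fintype_card])
  have seg : ∀ a a', a ≤ a' → a' ≤ l b0 → Conn G (f b0 '' Icc a a') := fun a a' h1 h2 =>
    conn_seg h1 fun i _ hi => (hP b0).2.1 i (by omega)
  have pm : ∀ i ≤ l b0, f b0 i ≠ f (base s) jv → f b0 i ∈ (U \ {f (base s) jv}) \ X :=
    fun i hi hne => ⟨⟨(hP b0).1 i hi, hne⟩, disjoint_left.1 hb0 ⟨i, ⟨Nat.zero_le _, hi⟩, rfl⟩⟩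
  by_cases hb : b0 = base s
  swap
  · refine ⟨_, ?_, seg 0 (l b0) (Nat.zero_le _) le_rfl, ⟨b0, 0, ⟨le_rfl, Nat.zero_le _⟩, rfl⟩,
      b0, l b0, ⟨Nat.zero_le _, le_rfl⟩, rfl⟩
    rintro _ ⟨i, hi, rfl⟩
    exact pm i hi.2 (hdis _ _ hb i hi.2 jv hjv)
  subst hb
  obtain ⟨j, hj, hjX⟩ := avoid _ (fun j : Fin _ => D j) (hXf.insert (f (base s) jv))
    (fun i _ j _ hij => hDd i i.2 j j.2 fun e => hij (Fin.ext e))
    (lt_of_le_of_lt ((ncard_insert_le _ _).trans (by omega)) hσ)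
  have hside : ∀ i, side (y j (e i)) = s := fun i =>
    (congrFun (Finset.mem_filter.1 hj).2 (e i)).trans (he i)
  have slab : ∀ w : Fin c → Fin (2 * c + 1), Injective w → (∀ i, (w i : ℕ) ≠ c) →
      ∃ i, ∃ S ⊆ (U \ {f (base s) jv}) \ X, Conn G S ∧ (S ∩ D j).Nonempty ∧
        ∃ p ≤ l (base s), f (base s) p ∈ S ∧ lev (f (base s) p) = l0 + e (w i) := by
    intro w hw hwc
    obtain ⟨i, -, hi⟩ := avoid Finset.univ (fun i => {z | lev z = l0 + e (w i)}) hXf
      (fun i _ i' _ hi => disjoint_left.2 fun z h1 h2 => hi (hw (e.injective (Fin.ext (by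
        simp only [mem_ofPred_eq] at h1 h2
        omega)))))
      (by simpa [hc] using hXc)
    obtain ⟨S, h1, h2, h3, h4, p, h5, h6⟩ := hslab (y j (e (w i))) ((hD j j.2).1 (hy _ _))
    rw [hside] at h5 h6
    refine ⟨i, S, fun z hz => ⟨⟨h1 hz, fun hz' => ?_⟩,
      disjoint_left.1 hi ((h4 z hz).trans (hy' _ _))⟩, h2, ⟨_, h3, hy _ _⟩, p, h5, h6,
      (h4 _ h6).trans (hy' _ _)⟩
    have h7 := (h4 z hz).trans (hy' _ _)
    rw [mem_singleton_iff.1 hz', hlv] at h7
    exact hwc i (congrArg Fin.val (e.injective (Fin.ext (by omega)) : w i = ⟨c, by omega⟩))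
  obtain ⟨i1, S1, a1, a2, a3, p1, a4, a5, a6⟩ := slab (fun i => ⟨i, by omega⟩)
    (fun i i' e => Fin.ext (by simpa using e)) fun i => i.2.ne
  obtain ⟨i2, S2, b1, b2, b3, p2, b4, b5, b6⟩ := slab (fun i => ⟨c + 1 + i, by omega⟩)
    (fun i i' e => Fin.ext (by simpa using e)) fun i => by simp; omega
  have c1 : (e ⟨i1, by omega⟩ : ℕ) < e ⟨c, by omega⟩ := e.strictMono (by simp)
  have c2 : (e ⟨c, by omega⟩ : ℕ) < e ⟨c + 1 + i2, by omega⟩ := e.strictMono (by simp; omega)
  refine ⟨(f (base s) '' Icc 0 p1 ∪ S1 ∪ D j) ∪ (S2 ∪ f (base s) '' Icc p2 (l (base s))), ?_, ?_,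
    ⟨base s, Or.inl (Or.inl (Or.inl ⟨0, ⟨le_rfl, Nat.zero_le _⟩, rfl⟩))⟩,
    base s, Or.inr (Or.inr ⟨_, ⟨b4, le_rfl⟩, rfl⟩)⟩
  · rintro z (((⟨i, hi, rfl⟩ | hz) | hz) | hz | ⟨i, hi, rfl⟩)
    · refine pm i (hi.2.trans a4) fun e' => ?_
      have := hmono _ i p1 hi.2 a4
      rw [e', hlv, a6] at this
      omega
    · exact a1 hz
    · have := disjoint_left.1 hjX hz
      exact ⟨⟨(hD j j.2).1 hz, fun e' => this (Or.inl e')⟩, fun e' => this (Or.inr e')⟩
    · exact b1 hz
    · refine pm i hi.2 fun e' => ?_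
      have := hmono _ p2 i hi.1 hi.2
      rw [e', hlv, b6] at this
      omega
  · obtain ⟨z, z1, z2⟩ := a3
    obtain ⟨z', z3, z4⟩ := b3
    exact pl.conn_union (pl.conn_union (pl.conn_union (seg 0 p1 (Nat.zero_le _) a4) a2
      ⟨p1, ⟨Nat.zero_le _, le_rfl⟩, rfl⟩ a5) (hD j j.2).2.1 (Or.inr z1) z2)
      (pl.conn_union b2 (seg p2 _ b4 le_rfl) b5 ⟨p2, ⟨le_rfl, b4⟩, rfl⟩) (Or.inr z4) (Or.inl z3)

end Pool.Agent.MP_9d78a0_co.fb

end MrgPart4

-- ======== part 5: formerly Pool.Agent.MP_9d78a0_co.fb.Ult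
section MrgPart5

/-! The unique linkage theorem from the grid, extension and star lemmas. -/

set_option autoImplicit false

namespace Pool.Agent.MP_9d78a0_co.fb

open Set Function

namespace Ult

/-- a large forest with few children at each node has a deep node -/
theorem deep (c d : ℕ) : ∃ n, 0 < n ∧ ∀ par : ℕ → ℕ, (∀ a < n, 0 < a → par a < a) →
    (∀ a < n, {b | b < n ∧ 0 < b ∧ par b = a}.ncard ≤ c) →
    ∃ a < n, ∀ j ≤ d, 0 < par^[j] a := by
  classical
  have key : ∀ d : ℕ, ∃ f : ℕ, ∀ (n : ℕ) (par : ℕ → ℕ), (∀ a < n, 0 < a → par a < a) →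
      (∀ a < n, {b | b < n ∧ 0 < b ∧ par b = a}.ncard ≤ c) →
      ((Finset.range n).filter fun a => ∃ j ≤ d, par^[j] a = 0).card ≤ f := by
    intro d
    induction d with
    | zero =>
      refine ⟨1, fun n par _ _ => Finset.card_le_one.2 fun a ha b hb => ?_⟩
      simp only [Finset.mem_filter, Nat.le_zero, exists_eq_left, iterate_zero, id] at ha hb
      rw [ha.2, hb.2]
    | succ d ih =>
      obtain ⟨f, hf⟩ := ih
      refine ⟨c * f + 1, fun n par h1 h2 => ?_⟩
      have h3 : (((Finset.range n).filter fun a => ∃ j ≤ d + 1, par^[j] a = 0).erase 0).card ≤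
          c * ((Finset.range n).filter fun a => ∃ j ≤ d, par^[j] a = 0).card := by
        refine Finset.card_le_mul_card_image_of_maps_to (f := par) (fun a ha => ?_) c
          fun b hb => ?_
        · simp only [Finset.mem_erase, Finset.mem_filter, Finset.mem_range] at ha ⊢
          obtain ⟨h0, hn, j, hj, e⟩ := ha
          refine ⟨(h1 a hn (by omega)).trans hn, ?_⟩
          cases j with
          | zero => exact absurd e h0
          | succ j => exact ⟨j, by omega, e⟩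
        · simp only [Finset.mem_filter, Finset.mem_range] at hb
          refine le_trans ?_ (h2 b hb.1)
          rw [← ncard_coe_finset]
          refine ncard_le_ncard (fun a ha => ?_) ((finite_Iio n).subset fun a ha => ha.1)
          simp only [Finset.coe_filter, Finset.mem_erase, Finset.mem_filter, Finset.mem_range,
            mem_ofPred_eq] at ha
          exact ⟨ha.1.2.1, Nat.pos_of_ne_zero ha.1.1, ha.2⟩
      have h4 := Finset.pred_card_le_card_erase
        (s := (Finset.range n).filter fun a => ∃ j ≤ d + 1, par^[j] a = 0) (a := 0)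
      have h5 := Nat.mul_le_mul_left c (hf n par h1 h2)
      omega
  obtain ⟨f, hf⟩ := key d
  refine ⟨f + 1, by omega, fun par h1 h2 => ?_⟩
  by_contra hc
  push Not at hc
  have h3 := hf (f + 1) par h1 h2
  rw [Finset.filter_true_of_mem fun a ha => ?_, Finset.card_range] at h3
  · omega
  · obtain ⟨j, hj, e⟩ := hc a (Finset.mem_range.1 ha)
    exact ⟨j, hj, by omega⟩

/-- the tree of lanes grows to its full size -/
theorem grow (h2 : ExtaS) (h3 : ExtbS) (k n h : ℕ) (hh : 0 < h) (r : ℕ) :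
    ∀ i, 0 < i → i + r = n → ∃ T, 0 < T ∧ ∀ (len : Fin k → ℕ) (E : SimpleGraph (Vx k))
      (I : ℕ → Iv k) (T0 : ℕ) (D : ℕ → Set (Vx k)) (L : ℕ → Iv k) (tm : Vx k → ℕ)
      (par dj : ℕ → ℕ), Vital len E → Setup len E n I T0 D →
      Config len E n I T0 D i T L tm par dj →
      ∃ L' tm' par' dj', Config len E n I T0 D n h L' tm' par' dj' := by
  induction r with
  | zero =>
    rintro i - rfl
    exact ⟨h, hh, fun len E I T0 D L tm par dj _ _ c => ⟨L, tm, par, dj, c⟩⟩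
  | succ r ih =>
    intro i hi e
    obtain ⟨T', hT', ih⟩ := ih (i + 1) (by omega) (by omega)
    obtain ⟨m, hm⟩ := h2 k i n T' hi hT'
    obtain ⟨T, hT, hb⟩ := h3 k i m hi
    refine ⟨T, hT, fun len E I T0 D L tm par dj hV hS c => ?_⟩
    obtain ⟨L', tm', par', dj', c'⟩ := hm len E I T0 D T L tm par dj hS.ivs c
      (hb len E n I T0 D L tm par dj hV hS (by omega) c)
    exact ih len E I T0 D L' tm' par' dj' hV hS c'

/-- the first lane -/
theorem start {k n T : ℕ} {len : Fin k → ℕ} {E : SimpleGraph (Vx k)} {I : ℕ → Iv k}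
    {D : ℕ → Set (Vx k)} (hn : 0 < n) (hT : 0 < T) (hS : Setup len E n I T D) :
    ∃ tm dj, Config len E n I T D 1 T (fun _ => I 0) tm (fun _ => 0) dj := by
  classical
  have h1 : ∀ j, ∃ v : Vx k, j < T → v ∈ D j ∧ v ∈ (I 0).set := by
    intro j
    by_cases c : j < T
    · obtain ⟨v, hv⟩ := (hS.conn j c).2.2 0 hn
      exact ⟨v, fun _ => hv⟩
    · exact ⟨((I 0).p, 0), fun h => absurd h c⟩
  choose v hv using h1
  set cnt : ℕ → ℕ := fun p => ((Finset.range T).filter fun j => (v j).2 ≤ p).card with hcnt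
  have mono : ∀ p q, p ≤ q → cnt p ≤ cnt q := fun p q h =>
    Finset.card_le_card fun j hj => by
      simp only [Finset.mem_filter] at hj ⊢
      exact ⟨hj.1, hj.2.trans h⟩
  have le : ∀ p, cnt p ≤ T := fun p => (Finset.card_filter_le _ _).trans (Finset.card_range T).le
  have pos : ∀ j < T, 0 < cnt (v j).2 := fun j hj =>
    Finset.card_pos.2 ⟨j, Finset.mem_filter.2 ⟨Finset.mem_range.2 hj, le_rfl⟩⟩
  have lt : ∀ i, ∀ j < T, (v i).2 < (v j).2 → cnt (v i).2 < cnt (v j).2 := by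
    intro i j hj h
    refine Finset.card_lt_card ⟨fun x hx => ?_, fun hs => ?_⟩
    · simp only [Finset.mem_filter] at hx ⊢
      exact ⟨hx.1, hx.2.trans h.le⟩
    · have := hs (Finset.mem_filter.2 ⟨Finset.mem_range.2 hj, le_rfl⟩)
      simp only [Finset.mem_filter] at this
      omega
  have inj : InjOn (fun j => cnt (v j).2 - 1) (Finset.range T) := by
    intro i hi j hj e
    simp only [Finset.coe_range, mem_Iio] at hi hj e
    have p1 := pos i hi
    have p2 := pos j hj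
    have e2 : (v i).2 = (v j).2 := by
      rcases lt_trichotomy (v i).2 (v j).2 with c | c | c
      · have := lt i j hj c
        omega
      · exact c
      · have := lt j i hi c
        omega
    have e1 : v i = v j := Prod.ext ((hv i hi).2.1.trans (hv j hj).2.1.symm) e2
    by_contra c
    exact disjoint_left.1 (hS.dis i hi j hj c) (hv i hi).1 (e1 ▸ (hv j hj).1)
  have sur : SurjOn (fun j => cnt (v j).2 - 1) (Finset.range T) (Finset.range T) := by
    refine Finset.surjOn_of_injOn_of_card_le _ (fun j _ => ?_) inj le_rfl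
    have := le (v j).2
    simp only [Finset.coe_range, mem_Iio]
    omega
  have h2 : ∀ t, ∃ j, t < T → j < T ∧ cnt (v j).2 - 1 = t := by
    intro t
    by_cases c : t < T
    · obtain ⟨j, hj, e⟩ := sur (show t ∈ (Finset.range T : Set ℕ) by simpa using c)
      exact ⟨j, fun _ => ⟨by simpa using hj, e⟩⟩
    · exact ⟨0, fun h => absurd h c⟩
  choose dj hdj using h2
  have only : ∀ b < n, ((I 0).set ∩ (I b).set).Nonempty → b = 0 := by
    rintro b hb ⟨x, hx, hx'⟩
    by_contra c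
    exact disjoint_left.1 (hS.ivs.2 b hb 0 hn c) hx' hx
  refine ⟨fun u => cnt u.2 - 1, dj, ⟨fun _ _ => hS.ivs.1 0 hn, fun a ha b hb c => by omega⟩,
    fun a _ b hb b' hb' c c' => (only b hb c).trans (only b' hb' c').symm,
    fun a _ => ⟨fun u _ => ?_, Or.inl fun u _ w _ c => ?_⟩, fun a ha h0 => by omega,
    fun t ht => ⟨(hdj t ht).1, v (dj t), (hv _ (hdj t ht).1).2, (hdj t ht).2,
      (hv _ (hdj t ht).1).1⟩, fun t ht t' ht' e => ?_⟩
  · have := le u.2
    show cnt u.2 - 1 < T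
    omega
  · exact Nat.sub_le_sub_right (mono _ _ c) 1
  · rw [← (hdj t ht).2, e, (hdj t' ht').2]

end Ult

theorem ultS (h1 : GridvS) (h2 : ExtaS) (h3 : ExtbS) (h4 : StarS) : UltS := by
  intro k
  obtain ⟨ng, hg⟩ := h1 k
  rcases Nat.eq_zero_or_pos ng with rfl | hng
  · exact ⟨0, 0, fun len E I D hV hS => hg len E I (fun _ => 0) hV hS.ivs
      (fun c hc => by omega) fun c hc => by omega⟩
  obtain ⟨n, hn, hd⟩ := Ult.deep (2 * k) ng
  obtain ⟨T, hT, hgrow⟩ := Ult.grow h2 h3 k n (3 * ng + 3) (by omega) (n - 1) 1 (by omega)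
    (by omega)
  refine ⟨n, T, fun len E I D hV hS => ?_⟩
  obtain ⟨tm0, dj0, c0⟩ := Ult.start hn hT hS
  obtain ⟨L, tm, par, dj, c⟩ := hgrow len E I T D _ _ _ _ hV hS c0
  obtain ⟨a, ha, hpos⟩ := hd par (fun a ha h0 => (c.rungs a ha h0).1) fun a ha => by
    refine le_trans (ncard_le_ncard ?_ ((finite_Iio n).subset fun b hb => hb.1))
      (h4 k len E n (3 * ng + 3) L tm a hV (by omega) c.ivs c.timed ha)
    rintro b ⟨hb, h0, rfl⟩
    exact ⟨hb, (c.rungs b hb h0).1.ne', (c.rungs b hb h0).2⟩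
  have lt : ∀ j ≤ ng, par^[j] a < n := by
    intro j
    induction j with
    | zero => exact fun _ => ha
    | succ j ih =>
      intro hj
      rw [iterate_succ_apply']
      exact (c.rungs _ (ih (by omega)) (hpos j (by omega))).1.trans (ih (by omega))
  have dec : ∀ i j, i < j → j ≤ ng → par^[j] a < par^[i] a := by
    intro i j hij
    induction j, hij using Nat.le_induction with
    | base =>
      intro hj
      rw [iterate_succ_apply']
      exact (c.rungs _ (lt i (by omega)) (hpos i (by omega))).1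
    | succ j _ ih =>
      intro hj
      rw [iterate_succ_apply']
      exact (c.rungs _ (lt j (by omega)) (hpos j (by omega))).1.trans (ih (by omega))
  refine hg len E (fun j => L (par^[j] a)) tm hV ⟨fun j hj => c.ivs.1 _ (lt j hj.le),
    fun i hi j hj e => c.ivs.2 _ (lt i hi.le) _ (lt j hj.le) ?_⟩
    (fun j hj => c.timed _ (lt j hj.le)) fun j hj => ?_
  · rcases Nat.lt_or_gt_of_ne e with h | h
    · exact (dec i j h hj.le).ne'
    · exact (dec j i h hi.le).ne
  · rw [iterate_succ_apply']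
    exact (c.rungs _ (lt j (by omega)) (hpos j (by omega))).2

end Pool.Agent.MP_9d78a0_co.fb

end MrgPart5

-- marker of a merged file
example : 731051 + 396470 = 731051 + 396470 := rfl
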