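import Pool.Agent.MP_9d78a0_co.fb.S2
import Mathlib.Combinatorics.Pigeonhole
import Mathlib.Order.WellQuasiOrder
import Pool.Agent.MP_9d78a0_co.st.Kh
import Pool.Agent.MP_9d78a0_co.st.Jg
import Pool.Agent.MP_9d78a0_co.fb.B31
import Pool.Agent.MP_9d78a0_co.fb.Ult
import Pool.Agent.MP_9d78a0_co.fb.Extb
import Pool.Agent.MP_9d78a0_co.gm.BGrid
import Pool.Agent.MP_9d78a0_co.fb.Conv

-- ======== part 0: formerly Pool.Agent.MP_9d78a0_co.fb.Bstar
section MrgPart0

/-! Row BSTAR: a maximal band in a minimal instance has few dirty gaps. -/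

set_option autoImplicit false

namespace Pool.Agent.MP_9d78a0_co.fb

open Set Function

namespace Bstar

theorem mo_le {x : ℕ → ℕ} {M : ℕ} (h : Mo x M) :
    (∀ i j, i ≤ j → j < M → x i ≤ x j) ∨ (∀ i j, i ≤ j → j < M → x j ≤ x i) := by
  rcases h with h | h
  · left
    intro i j hij hj
    rcases hij.lt_or_eq with h1 | rfl
    · exact (h i j h1 hj).le
    · exact le_rfl
  · right
    intro i j hij hj
    rcases hij.lt_or_eq with h1 | rfl
    · exact (h i j h1 hj).le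
    · exact le_rfl

theorem gap_ne {x : ℕ → ℕ} {M j u : ℕ} (h : Mo x M) (hj : j + 1 < M)
    (hu : Btw (x j) (x (j + 1)) u) {i : ℕ} (hi : i < M) : u ≠ x i := by
  unfold Btw at hu
  rcases mo_le h with h1 | h1
  · have a := h1 j (j + 1) (by omega) hj
    rcases Nat.lt_or_ge j i with hji | hji
    · have := h1 (j + 1) i hji hi
      omega
    · have := h1 i j hji (by omega)
      omega
  · have a := h1 j (j + 1) (by omega) hj
    rcases Nat.lt_or_ge j i with hji | hji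
    · have := h1 (j + 1) i hji hi
      omega
    · have := h1 i j hji (by omega)
      omega

theorem gap_hull {x : ℕ → ℕ} {M j u : ℕ} (hj : j + 1 < M) (hu : Btw (x j) (x (j + 1)) u) :
    u ∈ hull x M := by
  rcases hu with hu | hu
  · exact ⟨j, by omega, j + 1, hj, hu.1.le, hu.2.le⟩
  · exact ⟨j + 1, hj, j, by omega, hu.1.le, hu.2.le⟩

theorem mem_hull {x : ℕ → ℕ} {M j : ℕ} (hj : j < M) : x j ∈ hull x M :=
  ⟨j, hj, j, hj, le_rfl, le_rfl⟩

theorem gap_lt_ne {x : ℕ → ℕ} {M j j' u u' : ℕ} (h : Mo x M) (hjj : j < j') (hj' : j' + 1 < M)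
    (hu : Btw (x j) (x (j + 1)) u) (hu' : Btw (x j') (x (j' + 1)) u') : u ≠ u' := by
  unfold Btw at hu hu'
  rcases mo_le h with h1 | h1
  · have a := h1 j (j + 1) (by omega) (by omega)
    have b := h1 j' (j' + 1) (by omega) hj'
    have c := h1 (j + 1) j' hjj (by omega)
    omega
  · have a := h1 j (j + 1) (by omega) (by omega)
    have b := h1 j' (j' + 1) (by omega) hj'
    have c := h1 (j + 1) j' hjj (by omega)
    omega

theorem hull_gap {x : ℕ → ℕ} {M v : ℕ} (h : Mo x M) (hv : v ∈ hull x M)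
    (hne : ∀ i < M, v ≠ x i) : ∃ j, j + 1 < M ∧ Btw (x j) (x (j + 1)) v := by
  classical
  obtain ⟨i, hi, j, hj, h1, h2⟩ := hv
  have e1 := hne i hi
  have e2 := hne j hj
  rcases mo_le h with h3 | h3
  · have ex : ∃ t, t < M ∧ v < x t := ⟨j, hj, by omega⟩
    obtain ⟨t, ht, hmin⟩ : ∃ t, (t < M ∧ v < x t) ∧ ∀ t' < t, ¬ (t' < M ∧ v < x t') :=
      ⟨Nat.find ex, Nat.find_spec ex, fun t' h' => Nat.find_min ex h'⟩
    rcases t with _ | t
    · have := h3 0 i (by omega) hi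
      omega
    · have a := hmin t (by omega)
      have b := hne t (by omega)
      exact ⟨t, ht.1, Or.inl ⟨by omega, ht.2⟩⟩
  · have ex : ∃ t, t < M ∧ x t < v := ⟨i, hi, by omega⟩
    obtain ⟨t, ht, hmin⟩ : ∃ t, (t < M ∧ x t < v) ∧ ∀ t' < t, ¬ (t' < M ∧ x t' < v) :=
      ⟨Nat.find ex, Nat.find_spec ex, fun t' h' => Nat.find_min ex h'⟩
    rcases t with _ | t
    · have := h3 0 j (by omega) hj
      omega
    · have a := hmin t (by omega)
      have b := hne t (by omega)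
      exact ⟨t, ht.1, Or.inr ⟨ht.2, by omega⟩⟩

theorem hull_shift {x : ℕ → ℕ} {M M' c : ℕ} (h : M' + c ≤ M) :
    hull (fun j => x (j + c)) M' ⊆ hull x M := by
  rintro a ⟨i, hi, j, hj, h1, h2⟩
  exact ⟨i + c, by omega, j + c, by omega, h1, h2⟩

theorem mo_shift {x : ℕ → ℕ} {M M' c : ℕ} (hx : Mo x M) (h : M' + c ≤ M) :
    Mo (fun j => x (j + c)) M' := by
  rcases hx with hx | hx
  · exact Or.inl fun i j hij hj => hx _ _ (by omega) (by omega)
  · exact Or.inr fun i j hij hj => hx _ _ (by omega) (by omega)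

theorem band_shift {σ : ℕ → ℕ} {T : Finset (ℕ × ℕ)} {M M' c : ℕ} {x : ℕ → ℕ}
    (hb : Band σ T M x) (h : M' + c ≤ M) : Band σ T M' (fun j => x (j + c)) :=
  ⟨mo_shift hb.mo h, mo_shift (x := σ ∘ x) hb.mo' h,
    hb.dis.mono (hull_shift h) (hull_shift (x := σ ∘ x) h), hb.noend.mono_right (hull_shift h),
    hb.noend'.mono_right (hull_shift (x := σ ∘ x) h)⟩

theorem hull_sub {v z : ℕ → ℕ} {Q M : ℕ} (h : ∀ s < Q, v s ∈ hull z M) :
    hull v Q ⊆ hull z M := by
  rintro a ⟨i, hi, j, hj, h1, h2⟩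
  obtain ⟨i1, hi1, -, -, h3, -⟩ := h i hi
  obtain ⟨-, -, j1, hj1, -, h4⟩ := h j hj
  exact ⟨i1, hi1, j1, hj1, by omega, by omega⟩

/-- landings in gaps before or after the cut band -/
theorem hull_away {v z γ : ℕ → ℕ} {Q M M' c : ℕ} (hz : Mo z M) (h : M' + c ≤ M)
    (hv : ∀ s < Q, γ s + 1 < M ∧ Btw (z (γ s)) (z (γ s + 1)) (v s))
    (hγ : (∀ s < Q, γ s + 1 ≤ c) ∨ ∀ s < Q, M' + c ≤ γ s + 1) :
    Disjoint (hull v Q) (hull (fun j => z (j + c)) M') := by
  rw [Set.disjoint_left]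
  rintro a ⟨i, hi, j, hj, h1, h2⟩ ⟨i1, hi1, j1, hj1, h3, h4⟩
  obtain ⟨a1, a2⟩ := hv i hi
  obtain ⟨b1, b2⟩ := hv j hj
  unfold Btw at a2 b2
  dsimp only at h3 h4
  rcases mo_le hz with h5 | h5
  · have c1 := h5 (γ i) (γ i + 1) (by omega) a1
    have c2 := h5 (γ j) (γ j + 1) (by omega) b1
    rcases hγ with h6 | h6
    · have := h5 (γ j + 1) (i1 + c) (by have := h6 j hj; omega) (by omega)
      omega
    · have := h5 (j1 + c) (γ i) (by have := h6 i hi; omega) (by omega)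
      omega
  · have c1 := h5 (γ i) (γ i + 1) (by omega) a1
    have c2 := h5 (γ j) (γ j + 1) (by omega) b1
    rcases hγ with h6 | h6
    · have := h5 (γ i + 1) (j1 + c) (by have := h6 i hi; omega) (by omega)
      omega
    · have := h5 (i1 + c) (γ j) (by have := h6 j hj; omega) (by omega)
      omega

/-- the body of `C1S` -/
def C1b (k Q W : ℕ) : Prop :=
  ∀ (σ : ℕ → ℕ) (T : Finset (ℕ × ℕ)) (M : ℕ) (x g u : ℕ → ℕ) (P : Set ℕ),
    Term k σ T → Band σ T M x → Sup σ T M x P →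
    (∀ s < Q, W ≤ g s ∧ g s + W < M ∧ Btw (x (g s)) (x (g s + 1)) (u s) ∧
      u s ∈ P ∧ σ (u s) ∈ P) →
    (∀ s t, s < t → t < Q → g s + W ≤ g t) → Mo (σ ∘ u) Q →
    Disjoint (hull (σ ∘ u) Q) (hull x M) → Disjoint (hull (σ ∘ u) Q) (hull (σ ∘ x) M) →
    Disjoint (ends T) (hull (σ ∘ u) Q) → Good σ T P

theorem c1_cut {k Q W : ℕ} (hc : C1b k Q W) {σ : ℕ → ℕ} {T : Finset (ℕ × ℕ)} {M M' c : ℕ}
    {x z g γ u : ℕ → ℕ} {P : Set ℕ} (ht : Term k σ T) (hb : Band σ T M x) (hs : Sup σ T M x P)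
    (hz : z = x ∨ z = σ ∘ x) (hM : M' + c ≤ M)
    (h1 : ∀ s < Q, W + c ≤ g s ∧ g s + W < M' + c ∧ Btw (x (g s)) (x (g s + 1)) (u s) ∧
      u s ∈ P ∧ σ (u s) ∈ P)
    (h2 : ∀ s t, s < t → t < Q → g s + W ≤ g t) (h3 : Mo (σ ∘ u) Q)
    (hv : ∀ s < Q, γ s + 1 < M ∧ Btw (z (γ s)) (z (γ s + 1)) (σ (u s)))
    (hγ : (∀ s < Q, γ s + 1 ≤ c) ∨ ∀ s < Q, M' + c ≤ γ s + 1) : Good σ T P := by
  have hsub : hull (σ ∘ u) Q ⊆ hull z M :=
    hull_sub fun s hs => gap_hull (hv s hs).1 (hv s hs).2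
  refine hc σ T M' (fun j => x (j + c)) (fun s => g s - c) u P ht (band_shift hb hM)
    ⟨hs.1, fun j hj hj' => hs.2 (j + c) (by omega) (by omega)⟩ ?_ ?_ h3 ?_ ?_ ?_
  · intro s hs
    obtain ⟨a1, a2, a3, a4⟩ := h1 s hs
    refine ⟨by omega, by omega, ?_, a4⟩
    have e1 : g s - c + c = g s := by omega
    have e2 : g s - c + 1 + c = g s + 1 := by omega
    simp only [e1, e2]
    exact a3
  · intro s t hst ht
    have := h2 s t hst ht
    have := (h1 s (by omega)).1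
    omega
  · rcases hz with rfl | rfl
    · exact hull_away (v := σ ∘ u) hb.mo hM hv hγ
    · exact hb.dis.symm.mono hsub (hull_shift hM)
  · rcases hz with rfl | rfl
    · exact hb.dis.mono hsub (hull_shift (x := σ ∘ z) hM)
    · exact hull_away (v := σ ∘ u) (z := σ ∘ x) hb.mo' hM hv hγ
  · rcases hz with rfl | rfl
    · exact hb.noend.mono_right hsub
    · exact hb.noend'.mono_right hsub

theorem mo_of_col {v : ℕ → ℕ} {r : ℕ} (p : Prop) (h : ∀ i j, i < j → j < r → (v i < v j) = p)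
    (hne : ∀ i j, i < j → j < r → v i ≠ v j) : Mo v r := by
  by_cases hp : p
  · left
    intro i j hij hj
    rw [h i j hij hj]
    exact hp
  · right
    intro i j hij hj
    have a := h i j hij hj
    have b := hne i j hij hj
    have : ¬ v i < v j := by rw [a]; exact hp
    omega

/-- landings in gaps of the band: either done, or the jumps are short -/
theorem gap_case (hR : RamseyS) (hc : C1S) (k r0 W0 : ℕ) :
    ∃ Q W, ∀ (σ : ℕ → ℕ) (T : Finset (ℕ × ℕ)) (M : ℕ) (x z g γ u : ℕ → ℕ) (P : Set ℕ),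
      Term k σ T → Band σ T M x → Sup σ T M x P → (z = x ∨ z = σ ∘ x) →
      (∀ s < Q, W ≤ g s ∧ g s + W < M ∧ γ s + 1 < M ∧ Btw (x (g s)) (x (g s + 1)) (u s) ∧
        Btw (z (γ s)) (z (γ s + 1)) (σ (u s)) ∧ u s ∈ P ∧ σ (u s) ∈ P) →
      (∀ s t, s < t → t < Q → g s + W ≤ g t) →
      Good σ T P ∨ ∃ φ : ℕ → ℕ, (∀ i < r0, φ i < Q ∧ W0 ≤ min (g (φ i)) (γ (φ i)) ∧
        max (g (φ i)) (γ (φ i)) + W0 < M) ∧
        ∀ i j, i < j → j < r0 → max (g (φ i)) (γ (φ i)) + W0 ≤ min (g (φ j)) (γ (φ j)) := by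
  obtain ⟨Q4, W4, h4⟩ := hc k
  obtain ⟨m, hm⟩ := hR (Prop × Prop × Prop) (Q4 + 3 * r0 + 3)
  refine ⟨m, W4 + W0 + 1, ?_⟩
  intro σ T M x z g γ u P ht hb hs hz h1 h2
  obtain ⟨φ, ⟨c1, c2, c3⟩, hφ, hφm, hcol⟩ :=
    hm fun s t => (σ (u s) < σ (u t), g t ≤ γ s, γ t ≤ g s)
  have hsp : ∀ i j, i < j → j < Q4 + 3 * r0 + 3 → g (φ i) + (W4 + W0 + 1) ≤ g (φ j) :=
    fun i j hij hj => h2 _ _ (hφ i j hij hj) (hφm j hj)
  have hne : ∀ i j, i < j → j < Q4 + 3 * r0 + 3 → σ (u (φ i)) ≠ σ (u (φ j)) := by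
    intro i j hij hj he
    have a := h1 _ (hφm i (by omega))
    have b := h1 _ (hφm j hj)
    have c := hsp i j hij hj
    exact gap_lt_ne hb.mo (by omega) (by omega) a.2.2.2.1 b.2.2.2.1 (ht.inv.injective he)
  have hmo : Mo (fun i => σ (u (φ i))) (Q4 + 3 * r0 + 3) :=
    mo_of_col c1 (fun i j hij hj => congrArg Prod.fst (hcol i j hij hj)) hne
  have e2 : ∀ i j, i < j → j < Q4 + 3 * r0 + 3 → (g (φ j) ≤ γ (φ i)) = c2 :=
    fun i j hij hj => congrArg (fun t => t.2.1) (hcol i j hij hj)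
  have e3 : ∀ i j, i < j → j < Q4 + 3 * r0 + 3 → (γ (φ j) ≤ g (φ i)) = c3 :=
    fun i j hij hj => congrArg (fun t => t.2.2) (hcol i j hij hj)
  by_cases hc2 : c2
  · left
    have hl := h1 _ (hφm Q4 (by omega))
    refine c1_cut (M' := g (φ Q4) + 1) (c := 0) (z := z) (g := fun i => g (φ (i + 0)))
      (γ := fun i => γ (φ (i + 0))) (u := fun i => u (φ (i + 0))) h4 ht hb hs hz (by omega) ?_ ?_
      (mo_shift (x := fun i => σ (u (φ i))) hmo (by omega)) ?_ (Or.inr ?_)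
    · intro s hs
      obtain ⟨a1, a2, a3, a4, a5, a6⟩ := h1 _ (hφm s (by omega))
      have := hsp s Q4 hs (by omega)
      exact ⟨by simp only [Nat.add_zero]; omega, by simp only [Nat.add_zero]; omega, a4, a6⟩
    · intro s t hst ht
      have := hsp s t hst (by omega)
      simp only [Nat.add_zero]
      omega
    · intro s hs
      obtain ⟨a1, a2, a3, a4, a5, a6⟩ := h1 _ (hφm s (by omega))
      exact ⟨a3, a5⟩
    · intro s hs
      have : g (φ Q4) ≤ γ (φ s) := by rw [e2 s Q4 hs (by omega)]; exact hc2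
      simp only [Nat.add_zero]
      omega
  by_cases hc3 : c3
  · left
    have hl := h1 _ (hφm 0 (by omega))
    refine c1_cut (M' := M - (g (φ 0) + 1)) (c := g (φ 0) + 1) (z := z)
      (g := fun i => g (φ (i + 1))) (γ := fun i => γ (φ (i + 1))) (u := fun i => u (φ (i + 1)))
      h4 ht hb hs hz (by omega) ?_ ?_
      (mo_shift (x := fun i => σ (u (φ i))) hmo (by omega)) ?_ (Or.inl ?_)
    · intro s hs
      obtain ⟨a1, a2, a3, a4, a5, a6⟩ := h1 _ (hφm (s + 1) (by omega))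
      have := hsp 0 (s + 1) (by omega) (by omega)
      exact ⟨by omega, by omega, a4, a6⟩
    · intro s t hst ht
      have := hsp (s + 1) (t + 1) (by omega) (by omega)
      omega
    · intro s hs
      obtain ⟨a1, a2, a3, a4, a5, a6⟩ := h1 _ (hφm (s + 1) (by omega))
      exact ⟨a3, a5⟩
    · intro s hs
      have : γ (φ (s + 1)) ≤ g (φ 0) := by rw [e3 0 (s + 1) (by omega) (by omega)]; exact hc3
      omega
  right
  have f2 : ∀ i j, i < j → j < Q4 + 3 * r0 + 3 → γ (φ i) < g (φ j) := by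
    intro i j hij hj
    have : ¬ g (φ j) ≤ γ (φ i) := by rw [e2 i j hij hj]; exact hc2
    omega
  have f3 : ∀ i j, i < j → j < Q4 + 3 * r0 + 3 → g (φ i) < γ (φ j) := by
    intro i j hij hj
    have : ¬ γ (φ j) ≤ g (φ i) := by rw [e3 i j hij hj]; exact hc3
    omega
  refine ⟨fun i => φ (3 * i + 1), ?_, ?_⟩
  · intro i hi
    have a0 := h1 _ (hφm 0 (by omega))
    have a1 := h1 _ (hφm (3 * i + 1) (by omega))
    have a2 := h1 _ (hφm (3 * i + 2) (by omega))
    have b1 := f3 0 (3 * i + 1) (by omega) (by omega)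
    have b2 := f2 (3 * i + 1) (3 * i + 2) (by omega) (by omega)
    dsimp only
    exact ⟨hφm _ (by omega), by omega, by omega⟩
  · intro i j hij hj
    have b1 := f2 (3 * i + 1) (3 * i + 2) (by omega) (by omega)
    have b2 := hsp (3 * i + 1) (3 * i + 2) (by omega) (by omega)
    have b3 := hsp (3 * i + 2) (3 * i + 3) (by omega) (by omega)
    have b4 := hsp (3 * i + 3) (3 * j + 1) (by omega) (by omega)
    have b5 := f3 (3 * i + 3) (3 * j + 1) (by omega) (by omega)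
    dsimp only
    omega

/-- the common shape of the three jump cases -/
def Jump (k : ℕ) (C : (ℕ → ℕ) → ℕ → (ℕ → ℕ) → ℕ → ℕ → Prop) : Prop :=
  ∃ Q W, ∀ (σ : ℕ → ℕ) (T : Finset (ℕ × ℕ)) (M : ℕ) (x g : ℕ → ℕ) (P : Set ℕ),
    Term k σ T → Band σ T M x → Sup σ T M x P →
    (∀ s < Q, W ≤ g s ∧ g s + W < M ∧ ∃ u, Btw (x (g s)) (x (g s + 1)) u ∧ u ∈ P ∧ σ u ∈ P ∧
      C σ M x (g s) u) →
    (∀ s t, s < t → t < Q → g s + W ≤ g t) → Good σ T P

def CX (σ : ℕ → ℕ) (M : ℕ) (x : ℕ → ℕ) (g u : ℕ) : Prop :=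
  ∃ γ, γ + 1 < M ∧ g ≠ γ ∧ Btw (x γ) (x (γ + 1)) (σ u)

def CR (σ : ℕ → ℕ) (M : ℕ) (x : ℕ → ℕ) (g u : ℕ) : Prop :=
  ∃ γ, γ + 1 < M ∧ g ≠ γ ∧ Btw (σ (x γ)) (σ (x (γ + 1))) (σ u)

def CO (σ : ℕ → ℕ) (M : ℕ) (x : ℕ → ℕ) (_ u : ℕ) : Prop :=
  σ u ∉ hull x M ∧ σ u ∉ hull (σ ∘ x) M

theorem jump_x (hR : RamseyS) (h31 : B31S) (hc : C1S) (k : ℕ) : Jump k CX := by
  obtain ⟨Q1, W1, h1⟩ := h31 k
  obtain ⟨Q, W, h⟩ := gap_case hR hc k Q1 W1
  refine ⟨Q, W, ?_⟩
  intro σ T M x g P ht hb hs h2 h3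
  have h4 : ∀ s, ∃ u γ, s < Q → W ≤ g s ∧ g s + W < M ∧ Btw (x (g s)) (x (g s + 1)) u ∧ u ∈ P ∧
      σ u ∈ P ∧ γ + 1 < M ∧ g s ≠ γ ∧ Btw (x γ) (x (γ + 1)) (σ u) := by
    intro s
    by_cases hs : s < Q
    · obtain ⟨a1, a2, u, a3, a4, a5, γ, a6⟩ := h2 s hs
      exact ⟨u, γ, fun _ => ⟨a1, a2, a3, a4, a5, a6⟩⟩
    · exact ⟨0, 0, fun h => absurd h hs⟩
  choose u γ h4 using h4
  rcases h σ T M x x g γ u P ht hb hs (Or.inl rfl) (fun s hs => by
    obtain ⟨a1, a2, a3, a4, a5, a6, a7, a8⟩ := h4 s hs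
    exact ⟨a1, a2, a6, a3, a8, a4, a5⟩) h3 with h5 | ⟨φ, h5, h6⟩
  · exact h5
  refine h1 σ T M x (fun i => min (g (φ i)) (γ (φ i))) (fun i => max (g (φ i)) (γ (φ i)))
    (fun i => if g (φ i) < γ (φ i) then u (φ i) else σ (u (φ i))) P ht hb hs ?_ h6
  intro s hs
  obtain ⟨b1, b2, b3⟩ := h5 s hs
  obtain ⟨a1, a2, a3, a4, a5, a6, a7, a8⟩ := h4 _ b1
  refine ⟨b2, by omega, b3, ?_⟩
  by_cases hlt : g (φ s) < γ (φ s)
  · simp only [if_pos hlt, min_eq_left hlt.le, max_eq_right hlt.le]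
    exact ⟨a3, a8, a4, a5⟩
  · have hle : γ (φ s) ≤ g (φ s) := by omega
    simp only [if_neg hlt, min_eq_right hle, max_eq_left hle, ht.inv (u (φ s))]
    exact ⟨a8, a3, a5, a4⟩

theorem jump_r (hR : RamseyS) (hx : BxS) (hc : C1S) (k : ℕ) : Jump k CR := by
  obtain ⟨Q1, W1, h1⟩ := hx k
  obtain ⟨Q, W, h⟩ := gap_case hR hc k Q1 W1
  refine ⟨Q, W, ?_⟩
  intro σ T M x g P ht hb hs h2 h3
  have h4 : ∀ s, ∃ u γ, s < Q → W ≤ g s ∧ g s + W < M ∧ Btw (x (g s)) (x (g s + 1)) u ∧ u ∈ P ∧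
      σ u ∈ P ∧ γ + 1 < M ∧ g s ≠ γ ∧ Btw (σ (x γ)) (σ (x (γ + 1))) (σ u) := by
    intro s
    by_cases hs : s < Q
    · obtain ⟨a1, a2, u, a3, a4, a5, γ, a6⟩ := h2 s hs
      exact ⟨u, γ, fun _ => ⟨a1, a2, a3, a4, a5, a6⟩⟩
    · exact ⟨0, 0, fun h => absurd h hs⟩
  choose u γ h4 using h4
  rcases h σ T M x (σ ∘ x) g γ u P ht hb hs (Or.inr rfl) (fun s hs => by
    obtain ⟨a1, a2, a3, a4, a5, a6, a7, a8⟩ := h4 s hs
    exact ⟨a1, a2, a6, a3, a8, a4, a5⟩) h3 with h5 | ⟨φ, h5, h6⟩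
  · exact h5
  refine h1 σ T M x (fun i => g (φ i)) (fun i => γ (φ i)) (fun i => u (φ i)) P ht hb hs ?_ h6
  intro s hs
  obtain ⟨b1, b2, b3⟩ := h5 s hs
  obtain ⟨a1, a2, a3, a4, a5, a6, a7, a8⟩ := h4 _ b1
  exact ⟨b2, a7, b3, a3, a8, a4, a5⟩

theorem ends_fin (T : Finset (ℕ × ℕ)) : (ends T).Finite ∧ (ends T).ncard ≤ 2 * T.card := by
  classical
  have e : ends T = ↑(T.image Prod.fst ∪ T.image Prod.snd) := by
    ext a
    simp only [ends, mem_ofPred_eq, Finset.coe_union, Finset.coe_image, mem_union, mem_image,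
      Finset.mem_coe]
    constructor
    · rintro ⟨p, hp, rfl | rfl⟩
      · exact Or.inl ⟨p, hp, rfl⟩
      · exact Or.inr ⟨p, hp, rfl⟩
    · rintro (⟨p, hp, rfl⟩ | ⟨p, hp, rfl⟩)
      · exact ⟨p, hp, Or.inl rfl⟩
      · exact ⟨p, hp, Or.inr rfl⟩
  rw [e, Set.ncard_coe_finset]
  refine ⟨Finset.finite_toSet _, (Finset.card_union_le _ _).trans ?_⟩
  have a := Finset.card_image_le (s := T) (f := Prod.fst)
  have b := Finset.card_image_le (s := T) (f := Prod.snd)
  omega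

theorem side_dis {v z : ℕ → ℕ} {Q M : ℕ} (p : Prop) (h1 : ∀ s < Q, v s ∉ hull z M)
    (h2 : ∀ s < Q, (v s < z 0) = p) : Disjoint (hull v Q) (hull z M) := by
  rw [Set.disjoint_left]
  rintro a ⟨i, hi, j, hj, h3, h4⟩ ⟨i1, hi1, j1, hj1, h5, h6⟩
  by_cases hp : p
  · have : v j < z 0 := by rw [h2 j hj]; exact hp
    exact h1 j hj ⟨i1, hi1, 0, by omega, by omega, by omega⟩
  · have : ¬ v i < z 0 := by rw [h2 i hi]; exact hp
    exact h1 i hi ⟨0, by omega, j1, hj1, by omega, by omega⟩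

theorem jump_o (hR : RamseyS) (hc : C1S) (k : ℕ) : Jump k CO := by
  obtain ⟨Q4, W4, h4⟩ := hc k
  obtain ⟨m, hm⟩ := hR (Fin (2 * k + 1) × Prop × Prop × Prop) (Q4 + 1)
  refine ⟨m, W4 + 1, ?_⟩
  intro σ T M x g P ht hb hs h2 h3
  have h5 : ∀ s, ∃ u, s < m → W4 + 1 ≤ g s ∧ g s + (W4 + 1) < M ∧
      Btw (x (g s)) (x (g s + 1)) u ∧ u ∈ P ∧ σ u ∈ P ∧ σ u ∉ hull x M ∧
      σ u ∉ hull (σ ∘ x) M := by
    intro s
    by_cases hs : s < m
    · obtain ⟨a1, a2, u, a3⟩ := h2 s hs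
      exact ⟨u, fun _ => ⟨a1, a2, a3⟩⟩
    · exact ⟨0, fun h => absurd h hs⟩
  choose u h5 using h5
  obtain ⟨hfin, hcard⟩ := ends_fin T
  have hle : ∀ v, {a | a ∈ ends T ∧ a < v}.ncard < 2 * k + 1 := by
    intro v
    have a : {a | a ∈ ends T ∧ a < v}.ncard ≤ (ends T).ncard :=
      Set.ncard_le_ncard (fun a ha => ha.1) hfin
    have b := ht.card
    omega
  obtain ⟨φ, ⟨c0, c1, c2, c3⟩, hφ, hφm, hcol⟩ :=
    hm fun s t => (⟨_, hle (σ (u s))⟩, σ (u s) < σ (u t), σ (u s) < x 0, σ (u s) < σ (x 0))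
  have hsp : ∀ i j, i < j → j < Q4 + 1 → g (φ i) + (W4 + 1) ≤ g (φ j) :=
    fun i j hij hj => h3 _ _ (hφ i j hij hj) (hφm j hj)
  have hne : ∀ i j, i < j → j < Q4 → σ (u (φ i)) ≠ σ (u (φ j)) := by
    intro i j hij hj he
    have a := h5 _ (hφm i (by omega))
    have b := h5 _ (hφm j (by omega))
    have c := hsp i j hij (by omega)
    exact gap_lt_ne hb.mo (by omega) (by omega) a.2.2.1 b.2.2.1 (ht.inv.injective he)
  have e0 : ∀ i < Q4, {a | a ∈ ends T ∧ a < σ (u (φ i))}.ncard = c0.1 :=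
    fun i hi => congrArg (fun t => t.1.1) (hcol i Q4 hi (by omega))
  refine h4 σ T M x (fun i => g (φ i)) (fun i => u (φ i)) P ht hb hs ?_ ?_
    (mo_of_col c1 (fun i j hij hj => congrArg (fun t => t.2.1) (hcol i j hij (by omega))) hne)
    (side_dis c2 (fun s hs => (h5 _ (hφm s (by omega))).2.2.2.2.2.1)
      fun s hs => congrArg (fun t => t.2.2.1) (hcol s Q4 hs (by omega)))
    (side_dis c3 (fun s hs => (h5 _ (hφm s (by omega))).2.2.2.2.2.2)
      fun s hs => congrArg (fun t => t.2.2.2) (hcol s Q4 hs (by omega))) ?_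
  · intro s hs
    obtain ⟨a1, a2, a3, a4, a5, a6⟩ := h5 _ (hφm s (by omega))
    exact ⟨by omega, by omega, a3, a4, a5⟩
  · intro s t hst ht
    have := hsp s t hst (by omega)
    omega
  · rw [Set.disjoint_left]
    rintro a ha ⟨i, hi, j, hj, h6, h7⟩
    simp only [comp_apply] at h6 h7
    obtain ⟨a1, a2, a3, a4, a5, a6, a7⟩ := h5 _ (hφm j (by omega))
    have hlt : a < σ (u (φ j)) := by
      rcases h7.lt_or_eq with h8 | h8
      · exact h8
      · exfalso
        have h9 := ht.fix a ha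
        rw [h8, ht.inv] at h9
        exact a6 (h9 ▸ gap_hull (by omega) a3)
    have hss : {b | b ∈ ends T ∧ b < σ (u (φ i))} ⊂ {b | b ∈ ends T ∧ b < σ (u (φ j))} := by
      refine ⟨fun b hb => ⟨hb.1, by have := hb.2; omega⟩, fun hh => ?_⟩
      have := (hh (show a ∈ {b | b ∈ ends T ∧ b < σ (u (φ j))} from ⟨ha, hlt⟩)).2
      omega
    have := Set.ncard_lt_ncard hss (hfin.subset fun b hb => hb.1)
    rw [e0 i hi, e0 j hj] at this
    omega

/-- crossing hairpins in gap `g` -/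
def CH (σ x : ℕ → ℕ) (g : ℕ) (P : Set ℕ) : Prop :=
  ∃ p q, Btw (x g) (x (g + 1)) p ∧ Btw (x g) (x (g + 1)) (σ q) ∧ p < q ∧ q < σ p ∧ σ p < σ q ∧
    p ∈ P ∧ σ p ∈ P ∧ q ∈ P ∧ σ q ∈ P

theorem classify (hM : MinS) {k n : ℕ} {σ : ℕ → ℕ} {T : Finset (ℕ × ℕ)} {M : ℕ} {x : ℕ → ℕ}
    {g : ℕ} {P : Set ℕ} (hm : MinI k n σ T) (hb : Band σ T M x) (hx : MaxB σ M x)
    (hlt : ∀ j < M, x j < 2 * n) (hg : g + 1 < M)
    (hP : ∀ u, Btw (x g) (x (g + 1)) u → u ∈ P ∧ σ u ∈ P)
    (hd : ∃ y, Btw (x g) (x (g + 1)) y) :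
    CH σ x g P ∨ ∃ u, Btw (x g) (x (g + 1)) u ∧ u ∈ P ∧ σ u ∈ P ∧
      (CX σ M x g u ∨ CR σ M x g u ∨ CO σ M x g u) := by
  have hI : ∀ y, Btw (x g) (x (g + 1)) y ↔
      y ∈ Ico (min (x g) (x (g + 1)) + 1) (max (x g) (x (g + 1))) := by
    intro y
    unfold Btw
    rw [mem_Ico]
    omega
  have l1 := hlt g (by omega)
  have l2 := hlt (g + 1) hg
  by_cases hcl : ∀ y, Btw (x g) (x (g + 1)) y → Btw (x g) (x (g + 1)) (σ y)
  · left
    obtain ⟨y, hy⟩ := hd
    obtain ⟨p, hp, q, hq, h1, h2, h3⟩ := (hM k n σ T hm).2.2.1 (min (x g) (x (g + 1)) + 1)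
      (max (x g) (x (g + 1))) (by have := (hI y).1 hy; rw [mem_Ico] at this; omega) (by omega)
      (by
        intro z hz
        have hz' := (hI z).2 hz
        refine ⟨(hI _).1 (hcl z hz'), fun he => ?_⟩
        have := hm.all z (by rw [mem_Ico] at hz; omega) he
        exact Set.disjoint_left.1 hb.noend this (gap_hull hg hz'))
    have hp' := (hI p).2 hp
    have hq' := (hI q).2 hq
    exact ⟨p, q, hp', hcl q hq', h1, h2, h3, (hP p hp').1, (hP p hp').2, (hP q hq').1,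
      (hP q hq').2⟩
  · right
    push Not at hcl
    obtain ⟨u, hu, hv⟩ := hcl
    refine ⟨u, hu, (hP u hu).1, (hP u hu).2, ?_⟩
    by_cases h1 : σ u ∈ hull x M
    · left
      obtain ⟨γ, h2, h3⟩ := hull_gap hb.mo h1 (by
        intro i hi he
        have : u = σ (x i) := by rw [← he, hm.term.inv]
        exact Set.disjoint_left.1 hb.dis (gap_hull hg hu)
          (this ▸ mem_hull (x := σ ∘ x) hi))
      exact ⟨γ, h2, fun he => hv (he ▸ h3), h3⟩
    by_cases h2 : σ u ∈ hull (σ ∘ x) M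
    · right
      left
      obtain ⟨γ, h3, h4⟩ := hull_gap hb.mo' h2 (by
        intro i hi he
        exact gap_ne hb.mo hg hu hi (hm.term.inv.injective he))
      exact ⟨γ, h3, fun he => hx g hg u hu (he ▸ h4), h4⟩
    · exact Or.inr (Or.inr ⟨h1, h2⟩)

theorem jump_use {k : ℕ} {C : (ℕ → ℕ) → ℕ → (ℕ → ℕ) → ℕ → ℕ → Prop} (h : Jump k C) :
    ∃ Q W, ∀ Q' W', Q ≤ Q' → W ≤ W' →
      ∀ (σ : ℕ → ℕ) (T : Finset (ℕ × ℕ)) (M : ℕ) (x g : ℕ → ℕ) (P : Set ℕ),
      Term k σ T → Band σ T M x → Sup σ T M x P →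
      (∀ s < Q', W' ≤ g s ∧ g s + W' < M ∧ ∃ u, Btw (x (g s)) (x (g s + 1)) u ∧ u ∈ P ∧ σ u ∈ P ∧
        C σ M x (g s) u) →
      (∀ s t, s < t → t < Q' → g s + W' ≤ g t) → Good σ T P := by
  obtain ⟨Q, W, h⟩ := h
  refine ⟨Q, W, fun Q' W' hQ hW σ T M x g P ht hb hs h1 h2 => h σ T M x g P ht hb hs ?_ ?_⟩
  · intro s hs
    obtain ⟨a1, a2, a3⟩ := h1 s (by omega)
    exact ⟨by omega, by omega, a3⟩
  · intro s t hst ht
    have := h2 s t hst (by omega)
    omega

theorem one_side (hR : RamseyS) (hM : MinS) (h31 : B31S) (h40 : B40S) (hx : BxS) (hc : C1S)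
    (k : ℕ) :
    ∃ Q W, ∀ (n : ℕ) (σ : ℕ → ℕ) (T : Finset (ℕ × ℕ)) (M : ℕ) (x g : ℕ → ℕ), MinI k n σ T →
      Band σ T M x → MaxB σ M x → (∀ j < M, x j < 2 * n) →
      (∀ s < Q + 1, W ≤ g s ∧ g s + W < M ∧ ∃ y, Btw (x (g s)) (x (g s + 1)) y) →
      (∀ s t, s < t → t < Q + 1 → g s + W ≤ g t) → False := by
  obtain ⟨Q1, W1, j1⟩ := jump_use (jump_x hR h31 hc k)
  obtain ⟨Q2, W2, j2⟩ := jump_use (jump_r hR hx hc k)
  obtain ⟨Q3, W3, j3⟩ := jump_use (jump_o hR hc k)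
  obtain ⟨Q4, W4, j4⟩ := h40 k
  obtain ⟨m, hm⟩ := hR (Prop × Prop × Prop) (Q1 + Q2 + Q3 + Q4 + 1)
  refine ⟨m, W1 + W2 + W3 + W4 + 1, ?_⟩
  intro n σ T M x g hI hb hmx hlt h1 h2
  have hM0 : 0 < M := by have := h1 0 (by omega); omega
  refine hI.min ⟨x 0, hlt 0 hM0, ?_⟩
  have hdis := Set.disjoint_left.1 hb.dis
  have hP : ∀ j, j + 1 < M → ∀ u, Btw (x j) (x (j + 1)) u →
      u ∈ Iio (2 * n) \ {x 0} ∧ σ u ∈ Iio (2 * n) \ {x 0} := by
    intro j hj u hu
    have l1 := hlt j (by omega)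
    have l2 := hlt (j + 1) hj
    have l3 : u < 2 * n := by unfold Btw at hu; omega
    refine ⟨⟨l3, gap_ne hb.mo hj hu hM0⟩, hI.lt u l3, fun he => ?_⟩
    have : u = σ (x 0) := by rw [← mem_singleton_iff.1 he, hI.term.inv]
    exact hdis (gap_hull hj hu) (this ▸ mem_hull (x := σ ∘ x) hM0)
  have hs : Sup σ T M x (Iio (2 * n) \ {x 0}) := by
    refine ⟨fun a ha => ⟨hI.elt a ha, fun he => ?_⟩, fun j hj hj' => ⟨⟨hlt j hj', fun he => ?_⟩,
      hI.lt _ (hlt j hj'), fun he => ?_⟩⟩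
    · exact Set.disjoint_left.1 hb.noend ha (mem_singleton_iff.1 he ▸ mem_hull hM0)
    · have := mem_singleton_iff.1 he
      rcases hb.mo with h | h
      · have := h 0 j hj hj'
        omega
      · have := h 0 j hj hj'
        omega
    · exact hdis (mem_hull hM0) (mem_singleton_iff.1 he ▸ mem_hull (x := σ ∘ x) hj')
  generalize Iio (2 * n) \ {x 0} = P at hP hs ⊢
  obtain ⟨φ, ⟨c1, c2, c3⟩, hφ, hφm, hcol⟩ := hm fun s _ => (CH σ x (g s) P,
    ∃ u, Btw (x (g s)) (x (g s + 1)) u ∧ u ∈ P ∧ σ u ∈ P ∧ CX σ M x (g s) u,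
    ∃ u, Btw (x (g s)) (x (g s + 1)) u ∧ u ∈ P ∧ σ u ∈ P ∧ CR σ M x (g s) u)
  have hsp : ∀ i j, i < j → j < Q1 + Q2 + Q3 + Q4 →
      g (φ i) + (W1 + W2 + W3 + W4 + 1) ≤ g (φ j) :=
    fun i j hij hj => h2 _ _ (hφ i j hij (by omega)) (by have := hφm j (by omega); omega)
  have hg : ∀ i < Q1 + Q2 + Q3 + Q4, W1 + W2 + W3 + W4 + 1 ≤ g (φ i) ∧
      g (φ i) + (W1 + W2 + W3 + W4 + 1) < M ∧ ∃ y, Btw (x (g (φ i))) (x (g (φ i) + 1)) y :=
    fun i hi => h1 _ (by have := hφm i (by omega); omega)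
  have e1 : ∀ i < Q1 + Q2 + Q3 + Q4, CH σ x (g (φ i)) P = c1 :=
    fun i hi => congrArg (fun t => t.1) (hcol i _ hi (by omega))
  have e2 : ∀ i < Q1 + Q2 + Q3 + Q4, (∃ u, Btw (x (g (φ i))) (x (g (φ i) + 1)) u ∧ u ∈ P ∧
      σ u ∈ P ∧ CX σ M x (g (φ i)) u) = c2 :=
    fun i hi => congrArg (fun t => t.2.1) (hcol i _ hi (by omega))
  have e3 : ∀ i < Q1 + Q2 + Q3 + Q4, (∃ u, Btw (x (g (φ i))) (x (g (φ i) + 1)) u ∧ u ∈ P ∧
      σ u ∈ P ∧ CR σ M x (g (φ i)) u) = c3 :=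
    fun i hi => congrArg (fun t => t.2.2) (hcol i _ hi (by omega))
  by_cases hc1 : c1
  · have h3 : ∀ i, ∃ p q, i < Q4 → Btw (x (g (φ i))) (x (g (φ i) + 1)) p ∧
        Btw (x (g (φ i))) (x (g (φ i) + 1)) (σ q) ∧ p < q ∧ q < σ p ∧ σ p < σ q ∧
        p ∈ P ∧ σ p ∈ P ∧ q ∈ P ∧ σ q ∈ P := by
      intro i
      by_cases hi : i < Q4
      · obtain ⟨p, q, h⟩ : CH σ x (g (φ i)) P := by rw [e1 i (by omega)]; exact hc1
        exact ⟨p, q, fun _ => h⟩
      · exact ⟨0, 0, fun h => absurd h hi⟩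
    choose p q h3 using h3
    refine j4 σ T M x (fun i => g (φ i)) p q P hI.term hb hs ?_ ?_
    · intro s hs
      obtain ⟨a1, a2, -⟩ := hg s (by omega)
      exact ⟨by omega, by omega, h3 s hs⟩
    · intro s t hst ht
      have := hsp s t hst (by omega)
      omega
  by_cases hc2 : c2
  · refine j1 (Q1 + Q2 + Q3 + Q4) (W1 + W2 + W3 + W4 + 1) (by omega) (by omega) σ T M x
      (fun i => g (φ i)) P hI.term hb hs (fun s hs => ⟨(hg s hs).1, (hg s hs).2.1, ?_⟩) hsp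
    rw [e2 s hs]
    exact hc2
  by_cases hc3 : c3
  · refine j2 (Q1 + Q2 + Q3 + Q4) (W1 + W2 + W3 + W4 + 1) (by omega) (by omega) σ T M x
      (fun i => g (φ i)) P hI.term hb hs (fun s hs => ⟨(hg s hs).1, (hg s hs).2.1, ?_⟩) hsp
    rw [e3 s hs]
    exact hc3
  refine j3 (Q1 + Q2 + Q3 + Q4) (W1 + W2 + W3 + W4 + 1) (by omega) (by omega) σ T M x
    (fun i => g (φ i)) P hI.term hb hs (fun s hs => ⟨(hg s hs).1, (hg s hs).2.1, ?_⟩) hsp
  obtain ⟨a1, a2, a3⟩ := hg s hs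
  rcases classify hM hI hb hmx hlt (g := g (φ s)) (by omega) (hP _ (by omega)) a3 with
    h | ⟨u, b1, b2, b3, h | h | h⟩
  · exact absurd (e1 s hs ▸ h) hc1
  · exact absurd (e2 s hs ▸ ⟨u, b1, b2, b3, h⟩) hc2
  · exact absurd (e3 s hs ▸ ⟨u, b1, b2, b3, h⟩) hc3
  · exact ⟨u, b1, b2, b3, h⟩

end Bstar

theorem bstarS (hR : RamseyS) (hM : MinS) (h31 : B31S) (h40 : B40S) (hx : BxS) (hc : C1S) :
    BstarS := by
  intro k
  obtain ⟨Q, W, h⟩ := Bstar.one_side hR hM h31 h40 hx hc k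
  obtain ⟨m, hm⟩ := hR Prop (Q + 2)
  refine ⟨m, W, ?_⟩
  intro n σ T M x g hI hb hmx hlt h1 h2
  obtain ⟨φ, c, hφ, hφm, hcol⟩ := hm fun s _ => ∃ y, Btw (x (g s)) (x (g s + 1)) y
  have hsp : ∀ i j, i < j → j < Q + 1 → g (φ i) + W ≤ g (φ j) :=
    fun i j hij hj => h2 _ _ (hφ i j hij (by omega)) (hφm j (by omega))
  have e : ∀ i < Q + 1, (∃ y, Btw (x (g (φ i))) (x (g (φ i) + 1)) y) = c :=
    fun i hi => hcol i (Q + 1) hi (by omega)
  by_cases hc : c
  · refine h n σ T M x (fun i => g (φ i)) hI hb hmx hlt (fun s hs => ?_) hsp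
    obtain ⟨a1, a2, -⟩ := h1 _ (hφm s (by omega))
    exact ⟨a1, a2, by rw [e s hs]; exact hc⟩
  · have hinv := hI.term.inv
    have ee : σ ∘ σ ∘ x = x := funext fun j => hinv (x j)
    refine h n σ T M (σ ∘ x) (fun i => g (φ i)) hI
      ⟨hb.mo', by rw [ee]; exact hb.mo, by rw [ee]; exact hb.dis.symm, hb.noend',
        by rw [ee]; exact hb.noend⟩ ?_ (fun j hj => hI.lt _ (hlt j hj)) (fun s hs => ?_) hsp
    · intro j hj y hy hy'
      simp only [comp_apply, hinv (x j), hinv (x (j + 1))] at hy hy'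
      exact hmx j hj (σ y) hy' (by rw [hinv y]; exact hy)
    · obtain ⟨a1, a2, a3 | a3⟩ := h1 _ (hφm s (by omega))
      · exact absurd (e s hs ▸ a3) hc
      · exact ⟨a1, a2, a3⟩

end Pool.Agent.MP_9d78a0_co.fb

end MrgPart0

-- ======== part 1: formerly Pool.Agent.MP_9d78a0_co.fb.F1
section MrgPart1

/-! Row F1: diagrams of bounded cut width are reducible. -/

set_option autoImplicit false

namespace Pool.Agent.MP_9d78a0_co.fb

open Set Function

namespace F1

/-- membership in the ring `[j, 2 n - j)` -/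
def R (n j x : ℕ) : Prop := j ≤ x ∧ x < 2 * n - j

instance (n j x : ℕ) : Decidable (R n j x) := by unfold R; infer_instance

theorem R_mono {n j j' x : ℕ} (h : j ≤ j') (hx : R n j' x) : R n j x := by
  unfold R at *; omega

theorem R_io {n j x : ℕ} : R n j (io n x) ↔ R n j x := by
  unfold R io; split_ifs <;> omega

theorem io_inv (n : ℕ) : Involutive (io n) := by
  intro x; unfold io; split_ifs <;> omega

theorem io_nc (n : ℕ) : NC (io n) := by
  intro x y; unfold io; split_ifs <;> omega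

theorem cc_symm {σ μ : ℕ → ℕ} (hσ : Involutive σ) (hμ : Involutive μ) {a b : ℕ}
    (h : CC σ μ a b) : CC σ μ b a := by
  induction h with
  | refl => exact Relation.ReflTransGen.refl
  | tail _ hs ih =>
    refine Relation.ReflTransGen.head ?_ ih
    rcases hs with rfl | rfl
    · exact Or.inl (hσ _).symm
    · exact Or.inr (hμ _).symm

/-- gluing two non-crossing involutions along a ring -/
theorem glue (n j : ℕ) (ν ν' : ℕ → ℕ) (h1 : Involutive ν) (h2 : NC ν) (h3 : ∀ x, R n j x → ν x = x)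
    (h4 : Involutive ν') (h5 : NC ν') (h6 : ∀ x, R n j x → R n j (ν' x)) :
    Involutive (fun x => if R n j x then ν' x else ν x) ∧
      NC (fun x => if R n j x then ν' x else ν x) := by
  have hout : ∀ x, ¬ R n j x → ¬ R n j (ν x) := by
    intro x hx hr
    have := h3 _ hr
    rw [h1 x] at this
    exact hx (this ▸ hr)
  constructor
  · intro x
    by_cases hx : R n j x
    · simp only [hx, if_true, h6 x hx, h4 x]
    · simp only [hx, if_false, hout x hx, h1 x]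
  · intro x y hxy hy
    by_cases hx : R n j x
    · have hx' := h6 x hx
      simp only [hx, if_true] at hy ⊢
      have hyR : R n j y := by unfold R at *; omega
      simp only [hyR, if_true]
      exact h5 x y hxy hy
    · have hx' := hout x hx
      simp only [hx, if_false] at hy ⊢
      by_cases hyR : R n j y
      · have hy' := h6 y hyR
        simp only [hyR, if_true]
        unfold R at *; omega
      · simp only [hyR, if_false]
        exact h2 x y hxy hy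

/-- an involution supported in a window -/
structure Rew (n j j' : ℕ) (ν : ℕ → ℕ) : Prop where
  inv : Involutive ν
  nc : NC ν
  sup : ∀ x, ν x ≠ x → R n j x ∧ ¬ R n j' x

theorem Rew.fix {n j j' : ℕ} {ν : ℕ → ℕ} (h : Rew n j j' ν) {x : ℕ} (hx : R n j' x) : ν x = x := by
  by_contra hne
  exact (h.sup x hne).2 hx

theorem Rew.pres {n j j' : ℕ} {ν : ℕ → ℕ} (h : Rew n j j' ν) {x : ℕ} (hx : R n j x) :
    R n j (ν x) := by
  by_cases he : ν x = x
  · rwa [he]
  · refine (h.sup (ν x) ?_).1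
    rw [h.inv x]
    exact fun e => he e.symm

/-- the points of the ring whose chord leaves the ring -/
def X (σ : ℕ → ℕ) (n j : ℕ) : Finset ℕ :=
  (Finset.range (2 * n)).filter fun x => R n j x ∧ ¬ R n j (σ x)

theorem mem_X {σ : ℕ → ℕ} {n j x : ℕ} : x ∈ X σ n j ↔ R n j x ∧ ¬ R n j (σ x) := by
  unfold X
  rw [Finset.mem_filter, Finset.mem_range]
  constructor
  · exact fun h => h.2
  · intro h
    refine ⟨?_, h⟩
    have := h.1
    unfold R at this; omega

/-- one window -/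
theorem step (h : NcmS) (σ : ℕ → ℕ) (hσ : Involutive σ) (n D j j' : ℕ) (hj : j + (2 * D + 1) ≤ j')
    (hj' : j' ≤ n) (hD : (X σ n j).card ≤ D) (hc : (X σ n j).card = (X σ n j').card) :
    ∃ ν β : ℕ → ℕ, Rew n j j' ν ∧ (∃ x, R n j x ∧ ¬ R n j' x ∧ ν x = x) ∧
      (∀ y ∈ X σ n j', ∃ x ∈ X σ n j, β x = y) ∧ (∀ x, σ x = x → β x = x) ∧
      ∀ μ : ℕ → ℕ, (∀ x, R n j x → ¬ R n j' x → μ x = ν x) → ∀ x, CC σ μ x (β x) := by
  classical
  have hjj : j ≤ j' := by omega
  set A := (X σ n j).filter fun x => ¬ R n j' x with hA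
  set C := (X σ n j).filter fun x => R n j' x with hC
  set B := (Finset.range (2 * n)).filter fun x => R n j x ∧ ¬ R n j' x ∧ R n j' (σ x) with hB
  have mA : ∀ x, x ∈ A ↔ R n j x ∧ ¬ R n j (σ x) ∧ ¬ R n j' x := by
    intro x; rw [hA, Finset.mem_filter, mem_X, and_assoc]
  have mC : ∀ x, x ∈ C ↔ ¬ R n j (σ x) ∧ R n j' x := by
    intro x; rw [hC, Finset.mem_filter, mem_X]
    exact ⟨fun h => ⟨h.1.2, h.2⟩, fun h => ⟨⟨R_mono hjj h.2, h.1⟩, h.2⟩⟩
  have mB : ∀ x, x ∈ B ↔ R n j x ∧ ¬ R n j' x ∧ R n j' (σ x) := by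
    intro x; rw [hB, Finset.mem_filter, Finset.mem_range]
    refine ⟨fun h => h.2, fun h => ⟨?_, h⟩⟩
    have := h.1
    unfold R at this; omega
  have e1 : C.card + A.card = (X σ n j).card := Finset.card_filter_add_card_filter_not _
  have e2 : X σ n j' = C ∪ B.image σ := by
    ext y
    rw [mem_X, Finset.mem_union, mC, Finset.mem_image]
    constructor
    · rintro ⟨h1, h2⟩
      by_cases h3 : R n j (σ y)
      · exact Or.inr ⟨σ y, (mB _).2 ⟨h3, h2, by rwa [hσ y]⟩, hσ y⟩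
      · exact Or.inl ⟨h3, h1⟩
    · rintro (⟨h1, h2⟩ | ⟨x, hx, rfl⟩)
      · exact ⟨h2, fun h3 => h1 (R_mono hjj h3)⟩
      · obtain ⟨_, h2, h3⟩ := (mB _).1 hx
        exact ⟨h3, by rwa [hσ x]⟩
  have e3 : (X σ n j').card = C.card + B.card := by
    rw [e2, Finset.card_union_of_disjoint, Finset.card_image_of_injective _ hσ.injective]
    rw [Finset.disjoint_left]
    intro y hy hy'
    obtain ⟨x, hx, rfl⟩ := Finset.mem_image.1 hy'
    exact ((mC _).1 hy).1 (by rw [hσ x]; exact ((mB _).1 hx).1)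
  have hAB : A.card = B.card := by omega
  have hdis : Disjoint A B := by
    rw [Finset.disjoint_left]
    intro x hx hx'
    exact ((mA _).1 hx).2.1 (R_mono hjj ((mB _).1 hx').2.2)
  obtain ⟨ν, n1, n2, n3, n4, n5⟩ := h A B hdis hAB
  refine ⟨ν, fun x => if x ∈ A then σ (ν x) else x, ⟨n1, n2, ?_⟩, ?_, ?_, ?_, ?_⟩
  · intro x hx
    by_cases ha : x ∈ A
    · exact ⟨((mA _).1 ha).1, ((mA _).1 ha).2.2⟩
    · by_cases hb : x ∈ B
      · exact ⟨((mB _).1 hb).1, ((mB _).1 hb).2.1⟩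
      · exact absurd (n5 x ha hb) hx
  · have hlt : (A ∪ B).card < (Finset.Ico j j').card := by
      have := Finset.card_union_le A B
      rw [Nat.card_Ico]; omega
    obtain ⟨x, hx, hx'⟩ := Finset.exists_mem_notMem_of_card_lt_card hlt
    rw [Finset.mem_union, not_or] at hx'
    rw [Finset.mem_Ico] at hx
    exact ⟨x, by unfold R; omega, by unfold R; omega, n5 x hx'.1 hx'.2⟩
  · intro y hy
    rw [e2, Finset.mem_union] at hy
    rcases hy with hy | hy
    · refine ⟨y, (Finset.mem_filter.1 hy).1, ?_⟩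
      have : y ∉ A := fun ha => ((mA _).1 ha).2.2 ((mC _).1 hy).2
      simp only [this, if_false]
    · obtain ⟨b, hb, rfl⟩ := Finset.mem_image.1 hy
      have := n4 b hb
      refine ⟨ν b, (Finset.mem_filter.1 this).1, ?_⟩
      simp only [this, if_true, n1 b]
  · intro x hx
    have : x ∉ A := fun ha => ((mA _).1 ha).2.1 (by rw [hx]; exact ((mA _).1 ha).1)
    simp only [this, if_false]
  · intro μ hμ x
    by_cases ha : x ∈ A
    · simp only [ha, if_true]
      have := hμ x ((mA _).1 ha).1 ((mA _).1 ha).2.2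
      exact Relation.ReflTransGen.head (Or.inr this.symm) (Relation.ReflTransGen.single (Or.inl rfl))
    · simp only [ha, if_false]
      exact Relation.ReflTransGen.refl

/-- connected inside a ring -/
def In (σ : ℕ → ℕ) (n j : ℕ) : ℕ → ℕ → Prop :=
  Relation.ReflTransGen fun x y => R n j x ∧ R n j y ∧ (y = σ x ∨ y = io n x)

/-- two cuts with the same pattern give a reduction -/
theorem final {L : Type} (σ : ℕ → ℕ) (hσ : Involutive σ) (n j j' : ℕ) (hjj : j ≤ j')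
    (T : Finset (ℕ × ℕ)) (hT : ∀ p ∈ T, CC σ (io n) p.1 p.2) (ν : ℕ → ℕ) (hν : Rew n j j' ν)
    (x0 : ℕ) (h0 : R n j x0) (h0' : ¬ R n j' x0) (h0'' : ν x0 = x0) (l l' : L → ℕ)
    (hX : ∀ u ∈ X σ n j, ∃ a, l a = u) (hE : ∀ u ∈ ends T, R n j u → ∃ a, l a = u)
    (hc : ∀ μ : ℕ → ℕ, (∀ x, R n j x → ¬ R n j' x → μ x = ν x) → ∀ a, CC σ μ (l a) (l' a))
    (hp : ∀ a b, In σ n j (l a) (l b) → In σ n j' (l' a) (l' b)) : Red n σ T := by
  obtain ⟨g1, g2⟩ := glue n j' ν (io n) hν.inv hν.nc (fun x hx => hν.fix hx) (io_inv n) (io_nc n)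
    (fun x hx => R_io.2 hx)
  have o1 : Involutive (fun x => if R n j x then x else io n x) := by
    intro x
    by_cases hx : R n j x
    · simp only [hx, if_true]
    · simp only [hx, if_false, R_io, io_inv n x]
  have o2 : NC (fun x => if R n j x then x else io n x) := by
    intro x y
    simp only [R, io]
    split_ifs <;> omega
  obtain ⟨m1, m2⟩ := glue n j _ _ o1 o2 (fun x hx => by simp only [hx, if_true]) g1 g2 (by
    intro x hx
    by_cases hx' : R n j' x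
    · simp only [hx', if_true]; exact R_io.2 hx
    · simp only [hx', if_false]; exact hν.pres hx)
  set μ : ℕ → ℕ := fun x => if R n j x then (if R n j' x then io n x else ν x)
    else (if R n j x then x else io n x) with hμ
  have k1 : ∀ x, ¬ R n j x → μ x = io n x := fun x hx => by simp only [hμ, hx, if_false]
  have k2 : ∀ x, R n j' x → μ x = io n x := fun x hx => by
    simp only [hμ, hx, R_mono hjj hx, if_true]
  have k3 : ∀ x, R n j x → ¬ R n j' x → μ x = ν x := fun x hx hx' => by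
    simp only [hμ, hx, hx', if_true, if_false]
  have hin : ∀ a b, In σ n j' a b → CC σ μ a b := by
    intro a b hab
    induction hab with
    | refl => exact Relation.ReflTransGen.refl
    | tail _ hs ih =>
      refine ih.tail ?_
      rcases hs with ⟨h1, _, h3 | h3⟩
      · exact Or.inl h3
      · exact Or.inr (by rw [k2 _ h1]; exact h3)
  have hanch : ∀ a b, In σ n j (l a) (l b) → CC σ μ (l a) (l b) := fun a b hab =>
    ((hc μ k3 a).trans (hin _ _ (hp a b hab))).trans (cc_symm hσ m1 (hc μ k3 b))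
  refine ⟨x0, by unfold R at h0; omega, μ, m1, m2, ?_, ?_⟩
  · intro x hx
    refine ⟨?_, ?_⟩
    · by_cases hr : R n j x
      · unfold R at hr; simp only [mem_Iio]; omega
      · rw [k1 x hr] at hx
        unfold io at hx
        by_contra hlt
        simp only [mem_Iio] at hlt
        simp only [hlt, if_false, ne_eq, not_true_eq_false] at hx
    · rintro rfl
      exact hx (by rw [k3 _ h0 h0', h0''])
  · intro p hpT
    have inv : ∀ z, CC σ (io n) p.1 z → (¬ R n j z → CC σ μ p.1 z) ∧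
        (R n j z → ∃ a, In σ n j (l a) z ∧ CC σ μ p.1 (l a)) := by
      intro z hz
      induction hz with
      | refl =>
        refine ⟨fun _ => Relation.ReflTransGen.refl, fun hr => ?_⟩
        obtain ⟨a, ha⟩ := hE p.1 ⟨p, hpT, Or.inl rfl⟩ hr
        exact ⟨a, by rw [ha]; exact Relation.ReflTransGen.refl,
          by rw [ha]; exact Relation.ReflTransGen.refl⟩
      | @tail z z' _ hs ih =>
        by_cases hr : R n j z
        · obtain ⟨a, ha, ha'⟩ := ih.2 hr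
          refine ⟨fun hr' => ?_, fun hr' => ⟨a, ha.tail ⟨hr, hr', hs⟩, ha'⟩⟩
          rcases hs with rfl | rfl
          · obtain ⟨b, rfl⟩ := hX z (mem_X.2 ⟨hr, hr'⟩)
            exact (ha'.trans (hanch a b ha)).tail (Or.inl rfl)
          · exact absurd (R_io.2 hr) hr'
        · have hz' : CC σ μ p.1 z' := by
            refine (ih.1 hr).tail ?_
            rcases hs with rfl | rfl
            · exact Or.inl rfl
            · exact Or.inr (k1 z hr).symm
          refine ⟨fun _ => hz', fun hr' => ?_⟩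
          rcases hs with rfl | rfl
          · obtain ⟨b, hb⟩ := hX (σ z) (mem_X.2 ⟨hr', by rwa [hσ z]⟩)
            exact ⟨b, by rw [hb]; exact Relation.ReflTransGen.refl, by rwa [hb]⟩
          · exact absurd (R_io.1 hr') hr
    by_cases hr : R n j p.2
    · obtain ⟨a, ha, ha'⟩ := (inv _ (hT p hpT)).2 hr
      obtain ⟨b, hb⟩ := hE p.2 ⟨p, hpT, Or.inr rfl⟩ hr
      rw [← hb] at ha ⊢
      exact ha'.trans (hanch a b ha)
    · exact (inv _ (hT p hpT)).1 hr

theorem enum (A : Finset ℕ) (N : ℕ) (h : A.card ≤ N) : ∃ l : Fin N → ℕ, ∀ u ∈ A, ∃ a, l a = u := by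
  refine ⟨fun a => if ha : a.1 < A.card then (A.equivFin.symm ⟨a.1, ha⟩).1 else 0, fun u hu => ?_⟩
  refine ⟨⟨(A.equivFin ⟨u, hu⟩).1, lt_of_lt_of_le (A.equivFin ⟨u, hu⟩).2 h⟩, ?_⟩
  simp only [(A.equivFin ⟨u, hu⟩).2, dif_pos, Fin.eta, Equiv.symm_apply_apply]

end F1

open F1 in
theorem f1S (h : NcmS) : F1S := by
  classical
  intro k D
  set m := Fintype.card (Fin (D + 2 * k) × Fin (D + 2 * k) → Bool) with hm
  refine ⟨((D + 1) * (2 * k + 1) * m + 1) * (2 * D + 1), ?_⟩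
  intro n σ T hn hσ _ hk hfix hT hD
  set E : Finset ℕ := T.image Prod.fst ∪ T.image Prod.snd with hE
  have mE : ∀ a, a ∈ E ↔ a ∈ ends T := by
    intro a
    simp only [hE, Finset.mem_union, Finset.mem_image, ends, mem_ofPred_eq]
    constructor
    · rintro (⟨p, hp, rfl⟩ | ⟨p, hp, rfl⟩)
      · exact ⟨p, hp, Or.inl rfl⟩
      · exact ⟨p, hp, Or.inr rfl⟩
    · rintro ⟨p, hp, rfl | rfl⟩
      · exact Or.inl ⟨p, hp, rfl⟩
      · exact Or.inr ⟨p, hp, rfl⟩
  have cE : E.card ≤ 2 * k := by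
    have h1 := Finset.card_union_le (T.image Prod.fst) (T.image Prod.snd)
    have h2 : (T.image Prod.fst).card ≤ T.card := Finset.card_image_le
    have h3 : (T.image Prod.snd).card ≤ T.card := Finset.card_image_le
    rw [hE]; omega
  have cX : ∀ j ≤ n, (X σ n j).card ≤ D := by
    intro j hj
    have := hD j hj
    have e : {x | x ∈ Ico j (2 * n - j) ∧ σ x ∉ Ico j (2 * n - j)} = ↑(X σ n j) := by
      ext x
      rw [Finset.mem_coe, mem_X]
      rfl
    rwa [e, Set.ncard_coe_finset] at this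
  have hle : ∀ t ∈ Finset.range ((D + 1) * (2 * k + 1) * m + 1), t * (2 * D + 1) ≤ n := by
    intro t ht
    exact le_trans (Nat.mul_le_mul_right _ (Finset.mem_range.1 ht).le) hn
  obtain ⟨y, _, hy⟩ := Finset.exists_lt_card_fiber_of_mul_lt_card_of_maps_to
    (s := Finset.range ((D + 1) * (2 * k + 1) * m + 1))
    (t := Finset.range (D + 1) ×ˢ Finset.range (2 * k + 1))
    (f := fun t => ((X σ n (t * (2 * D + 1))).card, (E.filter (R n (t * (2 * D + 1)))).card))
    (n := m) (by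
      intro t ht
      rw [Finset.mem_product, Finset.mem_range, Finset.mem_range]
      exact ⟨Nat.lt_succ_of_le (cX _ (hle t ht)),
        Nat.lt_succ_of_le (le_trans (Finset.card_filter_le _ _) cE)⟩) (by
      rw [Finset.card_product, Finset.card_range, Finset.card_range, Finset.card_range]
      exact Nat.lt_succ_self _)
  set S := (Finset.range ((D + 1) * (2 * k + 1) * m + 1)).filter fun t =>
    ((X σ n (t * (2 * D + 1))).card, (E.filter (R n (t * (2 * D + 1)))).card) = y with hS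
  let e := S.orderEmbOfCardLe (k := m + 1) hy
  let c : ℕ → ℕ := fun i => if hi : i < m + 1 then e ⟨i, hi⟩ * (2 * D + 1) else 0
  have c1 : ∀ i, i + 1 ≤ m → c i + (2 * D + 1) ≤ c (i + 1) := by
    intro i hi
    have h1 : i < m + 1 := by omega
    have h2 : i + 1 < m + 1 := by omega
    have : e ⟨i, h1⟩ < e ⟨i + 1, h2⟩ := e.strictMono (by simp)
    simp only [c, h1, h2, dif_pos]
    nlinarith
  have c2 : ∀ i ≤ m, c i ≤ n ∧ (X σ n (c i)).card = y.1 ∧ (E.filter (R n (c i))).card = y.2 := by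
    intro i hi
    have h1 : i < m + 1 := by omega
    have := Finset.mem_filter.1 (S.orderEmbOfCardLe_mem hy ⟨i, h1⟩)
    simp only [c, h1, dif_pos]
    exact ⟨hle _ this.1, congrArg Prod.fst this.2, congrArg Prod.snd this.2⟩
  have c3 : ∀ i d, i + d ≤ m → c i ≤ c (i + d) := by
    intro i d
    induction d with
    | zero => exact fun _ => le_rfl
    | succ d ih =>
      intro hd
      have := c1 (i + d) hd
      have := ih (by omega)
      rw [← add_assoc]; omega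
  have hstep : ∀ i, ∃ ν β : ℕ → ℕ, i + 1 ≤ m → Rew n (c i) (c (i + 1)) ν ∧
      (∃ x, R n (c i) x ∧ ¬ R n (c (i + 1)) x ∧ ν x = x) ∧
      (∀ y ∈ X σ n (c (i + 1)), ∃ x ∈ X σ n (c i), β x = y) ∧ (∀ x, σ x = x → β x = x) ∧
      ∀ μ : ℕ → ℕ, (∀ x, R n (c i) x → ¬ R n (c (i + 1)) x → μ x = ν x) → ∀ x, CC σ μ x (β x) := by
    intro i
    by_cases hi : i + 1 ≤ m
    · obtain ⟨ν, β, hh⟩ := step h σ hσ n D (c i) (c (i + 1)) (c1 i hi) (c2 _ hi).1
        (cX _ (c2 i (by omega)).1) (by rw [(c2 i (by omega)).2.1, (c2 _ hi).2.1])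
      exact ⟨ν, β, fun _ => hh⟩
    · exact ⟨id, id, fun hh => absurd hh hi⟩
  choose ν β hs using hstep
  obtain ⟨l0, hl0⟩ := enum (X σ n (c 0) ∪ E) (D + 2 * k) (by
    have := Finset.card_union_le (X σ n (c 0)) E
    have := cX _ (c2 0 (by omega)).1
    omega)
  let l : ℕ → Fin (D + 2 * k) → ℕ := fun i => Nat.rec l0 (fun i f => β i ∘ f) i
  have lX : ∀ i ≤ m, (∀ u ∈ X σ n (c i), ∃ a, l i a = u) ∧ ∀ u ∈ ends T, ∃ a, l i a = u := by
    intro i
    induction i with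
    | zero =>
      exact fun _ => ⟨fun u hu => hl0 u (Finset.mem_union_left _ hu),
        fun u hu => hl0 u (Finset.mem_union_right _ ((mE u).2 hu))⟩
    | succ i ih =>
      intro hi
      obtain ⟨_, _, s3, s4, _⟩ := hs i hi
      refine ⟨fun u hu => ?_, fun u hu => ?_⟩
      · obtain ⟨x, hx, rfl⟩ := s3 u hu
        obtain ⟨a, rfl⟩ := (ih (by omega)).1 x hx
        exact ⟨a, rfl⟩
      · obtain ⟨a, ha⟩ := (ih (by omega)).2 u hu
        exact ⟨a, by
          show β i (l i a) = u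
          rw [ha, s4 u (hfix u hu).1]⟩
  have chain : ∀ i d, i + d ≤ m → ∃ ρ : ℕ → ℕ, Rew n (c i) (c (i + d)) ρ ∧
      (0 < d → ∃ x, R n (c i) x ∧ ¬ R n (c (i + d)) x ∧ ρ x = x) ∧
      ∀ μ : ℕ → ℕ, (∀ x, R n (c i) x → ¬ R n (c (i + d)) x → μ x = ρ x) →
        ∀ a, CC σ μ (l i a) (l (i + d) a) := by
    intro i d
    induction d with
    | zero =>
      intro _
      refine ⟨id, ⟨fun _ => rfl, fun x y h1 h2 => ?_, fun x hx => absurd rfl hx⟩,
        fun h0 => absurd h0 (lt_irrefl _), fun _ _ _ => Relation.ReflTransGen.refl⟩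
      exact absurd (lt_trans h1 h2) (lt_irrefl _)
    | succ d ih =>
      intro hd
      obtain ⟨ρ, r1, _, r3⟩ := ih (by omega)
      obtain ⟨s1, ⟨x, x1, x2, x3⟩, _, _, s5⟩ := hs (i + d) hd
      have hc := c3 i d (by omega)
      have hc' : c (i + d) ≤ c (i + d + 1) := c3 (i + d) 1 hd
      obtain ⟨g1, g2⟩ := glue n (c (i + d)) ρ (ν (i + d)) r1.inv r1.nc (fun x hx => r1.fix hx)
        s1.inv s1.nc (fun x hx => s1.pres hx)
      refine ⟨_, ⟨g1, g2, fun z hz => ?_⟩, fun _ => ⟨x, R_mono hc x1, x2, ?_⟩, fun μ hμ a => ?_⟩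
      · by_cases hr : R n (c (i + d)) z
        · simp only [hr, if_true] at hz
          exact ⟨R_mono hc hr, (s1.sup z hz).2⟩
        · simp only [hr, if_false] at hz
          exact ⟨(r1.sup z hz).1, fun hr' => hr (R_mono hc' hr')⟩
      · simp only [x1, if_true, x3]
      · refine (r3 μ (fun z z1 z2 => ?_) a).trans (s5 μ (fun z z1 z2 => ?_) _)
        · rw [hμ z z1 (fun hr' => z2 (R_mono hc' hr'))]
          simp only [z2, if_false]
        · rw [hμ z (R_mono hc z1) z2]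
          simp only [z1, if_true]
  have key : ∀ i j : Fin (m + 1), i < j →
      (fun q : Fin (D + 2 * k) × Fin (D + 2 * k) => decide (In σ n (c i) (l i q.1) (l i q.2))) =
      (fun q => decide (In σ n (c j) (l j q.1) (l j q.2))) → Red n σ T := by
    intro i j hij he
    obtain ⟨d, hd⟩ : ∃ d, j.1 = i.1 + d := ⟨j.1 - i.1, by have : i.1 < j.1 := hij; omega⟩
    have hj : i.1 + d ≤ m := by have := j.2; omega
    obtain ⟨ρ, r1, r2, r3⟩ := chain i d hj
    obtain ⟨x, x1, x2, x3⟩ := r2 (by have : i.1 < j.1 := hij; omega)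
    refine final σ hσ n (c i) (c (i + d)) (c3 i d hj) T hT ρ r1 x x1 x2 x3 (l i) (l (i + d))
      (lX i (by omega)).1 (fun u hu _ => (lX i (by omega)).2 u hu) r3 (fun a b hab => ?_)
    have := congrFun he (a, b)
    rw [hd] at this
    simpa only [hab, decide_true, true_eq_decide_iff] using this
  obtain ⟨i, j, hne, he⟩ := Fintype.exists_ne_map_eq_of_card_lt
    (fun (i : Fin (m + 1)) (q : Fin (D + 2 * k) × Fin (D + 2 * k)) =>
      decide (In σ n (c i) (l i q.1) (l i q.2))) (by rw [Fintype.card_fin]; exact Nat.lt_succ_self _)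
  rcases lt_or_gt_of_ne hne with hlt | hlt
  · exact key i j hlt he
  · exact key j i hlt he.symm

end Pool.Agent.MP_9d78a0_co.fb

end MrgPart1

-- ======== part 2: formerly Pool.Agent.MP_9d78a0_co.fb.F1w
section MrgPart2

/-! Row F1W: reduction of a window of columns to a smaller chord diagram. -/

set_option autoImplicit false

namespace Pool.Agent.MP_9d78a0_co.fb

open Set Function

namespace F1w

theorem cc_swap {σ μ : ℕ → ℕ} {x y : ℕ} (h : CC σ μ x y) : CC μ σ x y := by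
  unfold CC at h ⊢
  induction h with
  | refl => exact Relation.ReflTransGen.refl
  | tail _ huv ih => exact Relation.ReflTransGen.tail ih (Or.symm huv)

theorem cc_refl (σ μ : ℕ → ℕ) (x : ℕ) : CC σ μ x x := Relation.ReflTransGen.refl

theorem cc_trans {σ μ : ℕ → ℕ} {x y z : ℕ} (h : CC σ μ x y) (h' : CC σ μ y z) : CC σ μ x z :=
  Relation.ReflTransGen.trans h h'

theorem cc_l (σ μ : ℕ → ℕ) (x : ℕ) : CC σ μ x (σ x) := Relation.ReflTransGen.single (Or.inl rfl)

theorem cc_r (σ μ : ℕ → ℕ) (x : ℕ) : CC σ μ x (μ x) := Relation.ReflTransGen.single (Or.inr rfl)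

theorem cc_symm {σ μ : ℕ → ℕ} (hσ : Involutive σ) (hμ : Involutive μ) {x y : ℕ}
    (h : CC σ μ x y) : CC σ μ y x := by
  unfold CC at h
  induction h with
  | refl => exact cc_refl _ _ _
  | @tail u v _ huv ih =>
    refine cc_trans ?_ ih
    rcases huv with rfl | rfl
    · have := cc_l σ μ (σ u)
      rwa [hσ u] at this
    · have := cc_r σ μ (μ u)
      rwa [hμ u] at this

/-- the increasing enumeration of the window -/
def en (n a b x : ℕ) : ℕ := if x < b - a then a + x else 2 * n - b + (x - (b - a))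

theorem en_lt {n a b : ℕ} (hab : a ≤ b) (hb : b ≤ n) {x y : ℕ} :
    en n a b x < en n a b y ↔ x < y := by
  unfold en
  split_ifs <;> omega

theorem en_inj {n a b : ℕ} (hab : a ≤ b) (hb : b ≤ n) {x y : ℕ}
    (h : en n a b x = en n a b y) : x = y := by
  have h1 := en_lt hab hb (x := x) (y := y)
  have h2 := en_lt hab hb (x := y) (y := x)
  omega

theorem iw_inv {n a b : ℕ} (hab : a ≤ b) (hb : b ≤ n) : Involutive (iw n a b) := by
  intro x
  unfold iw io
  split_ifs <;> omega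

theorem iw_nc (n a b : ℕ) : NC (iw n a b) := by
  intro x y
  unfold iw io
  split_ifs <;> omega

theorem iw_en {n a b : ℕ} (hab : a ≤ b) (hb : b ≤ n) {x : ℕ} (hx : x < 2 * (b - a)) :
    iw n a b (en n a b x) = en n a b x := by
  unfold iw io en
  split_ifs <;> omega

theorem en_bd {n a b : ℕ} (hab : a ≤ b) (hb : b ≤ n) {x : ℕ} (hx : x < 2 * (b - a)) :
    en n a b x < 2 * n := by
  unfold en
  split_ifs <;> omega

theorem io_cases {n a b : ℕ} (hab : a ≤ b) (hb : b ≤ n) (z : ℕ) :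
    io n z = iw n a b z ∨ ∃ y < 2 * (b - a), z = en n a b y ∧ io (b - a) y < 2 * (b - a) ∧
      io n z = en n a b (io (b - a) y) := by
  by_cases h1 : a ≤ z ∧ z < b
  · refine Or.inr ⟨z - a, by omega, ?_, ?_, ?_⟩
    · unfold en
      split_ifs <;> omega
    · unfold io
      split_ifs <;> omega
    · unfold en io
      split_ifs <;> omega
  · by_cases h2 : 2 * n - b ≤ z ∧ z < 2 * n - a
    · refine Or.inr ⟨z - (2 * n - b) + (b - a), by omega, ?_, ?_, ?_⟩
      · unfold en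
        split_ifs <;> omega
      · unfold io
        split_ifs <;> omega
      · unfold en io
        split_ifs <;> omega
    · left
      unfold iw
      rw [if_neg (by tauto)]

/-- the induced matching on the window -/
theorem exists_ind (hD : DiS) {σ ν e : ℕ → ℕ} {N : ℕ} (hσ : Involutive σ) (hν : Involutive ν)
    (he : Injective e) (hf : ∀ x < N, ν (e x) = e x) :
    ∃ s : ℕ → ℕ, Involutive s ∧ (∀ x < N, s x < N ∧ CC σ ν (e x) (e (s x))) ∧
      ∀ x < N, ∀ y < N, y ≠ x → CC σ ν (e x) (e y) → s x = y := by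
  classical
  have key : ∀ x, ∃ y, (x < N → y < N ∧ CC σ ν (e x) (e y)) ∧ (¬ x < N → y = x) ∧
      (x < N → ∀ y' < N, y' ≠ x → CC σ ν (e x) (e y') → y = y') := by
    intro x
    by_cases hx : x < N
    · by_cases h : ∃ y < N, y ≠ x ∧ CC σ ν (e x) (e y)
      · obtain ⟨y, hy, hne, hc⟩ := h
        refine ⟨y, fun _ => ⟨hy, hc⟩, fun h => absurd hx h, fun _ y' hy' hne' hc' => ?_⟩
        rcases (hD ν σ hν hσ).1 _ _ _ (hf x hx) (hf y hy) (hf y' hy') (cc_swap hc) (cc_swap hc')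
          with h | h | h
        · exact absurd (he h).symm hne
        · exact absurd (he h).symm hne'
        · exact he h
      · exact ⟨x, fun _ => ⟨hx, cc_refl _ _ _⟩, fun _ => rfl,
          fun _ y' hy' hne' hc' => absurd ⟨y', hy', hne', hc'⟩ h⟩
    · exact ⟨x, fun h => absurd h hx, fun _ => rfl, fun h => absurd h hx⟩
  choose s h1 h2 h3 using key
  refine ⟨s, fun x => ?_, h1, h3⟩
  by_cases hx : x < N
  · by_cases h : s x = x
    · rw [h, h]
    · exact h3 (s x) (h1 x hx).1 x hx (Ne.symm h) (cc_symm hσ hν (h1 x hx).2)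
  · rw [h2 x hx, h2 x hx]

/-- the walk invariant -/
theorem walk {σ s : ℕ → ℕ} {n a b : ℕ} (hab : a ≤ b) (hb : b ≤ n) (hσ : Involutive σ)
    (h3 : ∀ x < 2 * (b - a), ∀ y < 2 * (b - a), y ≠ x →
      CC σ (iw n a b) (en n a b x) (en n a b y) → s x = y)
    {u z : ℕ} (h : CC σ (io n) u z) :
    CC σ (iw n a b) u z ∨ ∃ x < 2 * (b - a), ∃ y < 2 * (b - a),
      CC σ (iw n a b) u (en n a b x) ∧ CC σ (iw n a b) z (en n a b y) ∧
        CC s (io (b - a)) x y := by
  have hν := iw_inv hab hb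
  unfold CC at h
  induction h with
  | refl => exact Or.inl (cc_refl _ _ _)
  | @tail v w _ hvw ih =>
    have step : CC σ (iw n a b) v w → (CC σ (iw n a b) u w ∨ ∃ x < 2 * (b - a),
        ∃ y < 2 * (b - a), CC σ (iw n a b) u (en n a b x) ∧ CC σ (iw n a b) w (en n a b y) ∧
          CC s (io (b - a)) x y) := by
      intro hc
      rcases ih with h | ⟨x, hx, y, hy, c1, c2, c3⟩
      · exact Or.inl (cc_trans h hc)
      · exact Or.inr ⟨x, hx, y, hy, c1, cc_trans (cc_symm hσ hν hc) c2, c3⟩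
    rcases hvw with rfl | rfl
    · exact step (cc_l _ _ _)
    · rcases io_cases hab hb v with h | ⟨t, ht, hv, ht', hio⟩
      · rw [h]
        rw [h] at step
        exact step (cc_r _ _ _)
      · right
        rw [hio]
        rcases ih with h | ⟨x, hx, y, hy, c1, c2, c3⟩
        · exact ⟨t, ht, _, ht', hv ▸ h, cc_refl _ _ _, cc_r _ _ _⟩
        · refine ⟨x, hx, _, ht', c1, cc_refl _ _ _, cc_trans c3 (cc_trans ?_ (cc_r _ _ t))⟩
          by_cases hty : t = y
          · rw [hty]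
            exact cc_refl _ _ _
          · rw [← h3 y hy t ht hty (cc_symm hσ hν (hv ▸ c2))]
            exact cc_l _ _ _

end F1w

open F1w in
theorem f1wS (hD : DiS) (hS : SimS) (h : F1S) : F1wS := by
  classical
  intro k D
  obtain ⟨n0, h0⟩ := h k D
  refine ⟨n0, fun n σ T a b hM hab' hb H => ?_⟩
  have hab : a ≤ b := by omega
  have hσ := hM.term.inv
  have hν := iw_inv hab hb
  have he : Injective (en n a b) := fun _ _ h => en_inj hab hb h
  have hf : ∀ x < 2 * (b - a), iw n a b (en n a b x) = en n a b x := fun x hx => iw_en hab hb hx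
  obtain ⟨s, s0, s1, s2⟩ := exists_ind hD hσ hν he hf
  -- the window point reached from a fixed point is unique
  have uniq : ∀ u, σ u = u → ∀ x < 2 * (b - a), ∀ y < 2 * (b - a),
      CC σ (iw n a b) u (en n a b x) → CC σ (iw n a b) u (en n a b y) → x = y := by
    intro u hu x hx y hy c1 c2
    have c1' := cc_symm hσ hν c1
    exact he ((hD _ _ hν hσ).2 _ _ u (hf x hx) (hf y hy) hu (cc_swap (cc_trans c1' c2))
      (cc_swap c1'))
  have key : ∀ u, ∃ x, (∃ y < 2 * (b - a), CC σ (iw n a b) u (en n a b y)) →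
      x < 2 * (b - a) ∧ CC σ (iw n a b) u (en n a b x) := by
    intro u
    by_cases hu : ∃ y < 2 * (b - a), CC σ (iw n a b) u (en n a b y)
    · obtain ⟨y, hy, hc⟩ := hu
      exact ⟨y, fun _ => ⟨hy, hc⟩⟩
    · exact ⟨0, fun h => absurd h hu⟩
  choose φ hφ using key
  set T0 := T.filter fun p => (∃ y < 2 * (b - a), CC σ (iw n a b) p.1 (en n a b y)) ∧
    ∃ y < 2 * (b - a), CC σ (iw n a b) p.2 (en n a b y) with hT0
  set T' := T0.image fun p => (φ p.1, φ p.2) with hT'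
  have f1 : ∀ p ∈ T, σ p.1 = p.1 := fun p hp => hM.term.fix _ ⟨p, hp, Or.inl rfl⟩
  have f2 : ∀ p ∈ T, σ p.2 = p.2 := fun p hp => hM.term.fix _ ⟨p, hp, Or.inr rfl⟩
  have fixs : ∀ u, σ u = u → (∃ y < 2 * (b - a), CC σ (iw n a b) u (en n a b y)) →
      s (φ u) = φ u ∧ φ u < 2 * (b - a) := by
    intro u hu hy
    obtain ⟨h1, h2⟩ := hφ u hy
    exact ⟨uniq u hu _ (s1 _ h1).1 _ h1 (cc_trans h2 (s1 _ h1).2) h2, h1⟩
  have hR : Red (b - a) s T' := by
    refine h0 (b - a) s T' (by omega) s0 (fun x hx => (s1 x hx).1) ?_ ?_ ?_ ?_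
    · exact Finset.card_image_le.trans ((Finset.card_filter_le _ _).trans hM.term.card)
    · rintro x ⟨q, hq, hx⟩
      obtain ⟨p, hp, rfl⟩ := Finset.mem_image.1 hq
      obtain ⟨hp, h1, h2⟩ := Finset.mem_filter.1 hp
      rcases hx with rfl | rfl
      · exact fixs _ (f1 p hp) h1
      · exact fixs _ (f2 p hp) h2
    · intro q hq
      obtain ⟨p, hp, rfl⟩ := Finset.mem_image.1 hq
      obtain ⟨hp, h1, h2⟩ := Finset.mem_filter.1 hp
      obtain ⟨a1, a2⟩ := hφ _ h1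
      obtain ⟨b1, b2⟩ := hφ _ h2
      rcases walk hab hb hσ s2 (hM.route p hp) with hc | ⟨x, hx, y, hy, c1, c2, c3⟩
      · exact absurd ((hD _ _ hσ hν).2 _ _ _ (f1 p hp) (f2 p hp) (hf _ a1) hc a2)
          (hM.term.ne p hp)
      · rw [← uniq _ (f1 p hp) _ a1 _ hx a2 c1, ← uniq _ (f2 p hp) _ b1 _ hy b2 c2] at c3
        exact c3
    · intro j hj
      refine le_trans (ncard_le_ncard_of_injOn (en n a b) ?_ he.injOn ?_)
        (H (a + j) (by omega) (by omega))
      · rintro x ⟨hx, hsx⟩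
        simp only [mem_Ico] at hx hsx
        have hx' : x < 2 * (b - a) := by omega
        obtain ⟨c1, c2⟩ := s1 x hx'
        refine ⟨?_, en n a b (s x), ?_, c2⟩
        · simp only [Win, mem_union, mem_Ico, en]
          split_ifs <;> omega
        · simp only [Win, mem_union, mem_Ico, en]
          split_ifs <;> omega
      · refine Finite.subset (s := Win n (a + j) b) ?_ fun x hx => hx.1
        exact (finite_Ico _ _).union (finite_Ico _ _)
  obtain ⟨x0, hx0, hG⟩ := hR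
  refine hM.min ⟨en n a b x0, en_bd hab hb hx0, ?_⟩
  refine hS σ (iw n a b) s (en n a b) T T' _ _ (Iio (2 * (b - a))) hσ hν (iw_nc n a b) ?_ ?_
    he.injOn ?_ ?_ sdiff_subset s1 ?_ hG
  · intro x hx
    refine ⟨?_, fun h => hx ?_⟩
    · by_contra hlt
      apply hx
      simp only [mem_Iio] at hlt
      unfold iw io
      split_ifs <;> omega
    · rw [mem_singleton_iff.1 h]
      exact hf _ hx0
  · rintro x ⟨hx, hne⟩
    exact ⟨⟨en_bd hab hb hx, fun h => hne (he h)⟩, hf _ hx⟩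
  · intro p _ q _ c _ d _ h1 h2 h3
    rw [en_lt hab hb] at h1 h2
    rw [en_lt hab hb, en_lt hab hb] at h3
    unfold Btw
    omega
  · rintro z x ⟨hx, -⟩ y ⟨hy, -⟩
    simp only [mem_Iio] at hx hy
    unfold iw io en
    split_ifs <;> omega
  · intro p hp
    rcases walk hab hb hσ s2 (hM.route p hp) with hc | ⟨x, hx, y, hy, c1, c2, -⟩
    · exact Or.inl hc
    · obtain ⟨a1, a2⟩ := hφ _ ⟨x, hx, c1⟩
      obtain ⟨-, b2⟩ := hφ _ ⟨y, hy, c2⟩
      exact Or.inr ⟨(φ p.1, φ p.2), Finset.mem_image.2 ⟨p, Finset.mem_filter.2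
        ⟨hp, ⟨x, hx, c1⟩, ⟨y, hy, c2⟩⟩, rfl⟩, a1, Or.inl ⟨a2, b2⟩⟩

end Pool.Agent.MP_9d78a0_co.fb

end MrgPart2

-- ======== part 3: formerly Pool.Agent.MP_9d78a0_co.fb.F2
section MrgPart3

/-! Chord diagrams: minimal instances with few unclean gaps are small. -/

set_option autoImplicit false

namespace Pool.Agent.MP_9d78a0_co.fb

open Set Function

namespace F2

/-- a decomposition of `[0, 2 n)` into segments that are matched by `σ` -/
structure Dec (B n : ℕ) (σ seg st sb : ℕ → ℕ) (anc : ℕ → Prop) : Prop where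
  le : ∀ x < 2 * n, seg x ≤ B
  mem : ∀ x < 2 * n, ∀ c, st c ≤ x ↔ c ≤ seg x
  top : ∀ c, st c ≤ 2 * n
  sbs : ∀ x < 2 * n, seg (σ x) = sb (seg x)
  fix : ∀ x < 2 * n, σ x = x → st (seg x) = x ∧ st (seg x + 1) = x + 1
  tt : ∀ x < 2 * n, anc (seg x) → anc (sb (seg x)) → σ x + st (seg x) = x + st (sb (seg x))
  tf : ∀ x < 2 * n, anc (seg x) → ¬ anc (sb (seg x)) →
    σ x + x + 1 = st (seg x) + st (sb (seg x) + 1)
  ft : ∀ x < 2 * n, ¬ anc (seg x) → anc (sb (seg x)) ∧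
    σ x + x + 1 = st (seg x + 1) + st (sb (seg x))

variable {B n : ℕ} {σ seg st sb : ℕ → ℕ} {anc : ℕ → Prop}

lemma Dec.lo (h : Dec B n σ seg st sb anc) {x : ℕ} (hx : x < 2 * n) : st (seg x) ≤ x :=
  (h.mem x hx _).2 le_rfl

lemma Dec.hi (h : Dec B n σ seg st sb anc) {x : ℕ} (hx : x < 2 * n) : x < st (seg x + 1) := by
  by_contra hc
  have := (h.mem x hx _).1 (not_lt.1 hc)
  omega

lemma Dec.mono (h : Dec B n σ seg st sb anc) {c d : ℕ} (hcd : c ≤ d) : st c ≤ st d := by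
  rcases Nat.lt_or_ge (st d) (2 * n) with h1 | h1
  · exact (h.mem _ h1 _).2 (hcd.trans ((h.mem _ h1 _).1 le_rfl))
  · exact (h.top c).trans h1

lemma Dec.seg_eq (h : Dec B n σ seg st sb anc) {c x : ℕ} (h1 : st c ≤ x) (h2 : x < st (c + 1)) :
    x < 2 * n ∧ seg x = c := by
  have hx : x < 2 * n := lt_of_lt_of_le h2 (h.top _)
  have h3 := (h.mem x hx c).1 h1
  have h4 := (h.mem x hx (c + 1)).2
  refine ⟨hx, ?_⟩
  by_contra hc
  have := h4 (by omega)
  omega

/-- a smaller instance of the same shape embeds in a larger one -/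
lemma embed {n' : ℕ} {σ' seg' st' sb' : ℕ → ℕ} {anc' : ℕ → Prop}
    (h : Dec B n σ seg st sb anc) (h' : Dec B n' σ' seg' st' sb' anc')
    (hlt : ∀ x < 2 * n, σ x < 2 * n)
    (hsb : ∀ c ≤ B, ∀ d ≤ B, sb c = d → sb' c = d) (hanc : ∀ c ≤ B, (anc c ↔ anc' c))
    (hlen : ∀ c ≤ B, st (c + 1) - st c ≤ st' (c + 1) - st' c) :
    ∃ e : ℕ → ℕ, (∀ x < 2 * n, e x < 2 * n' ∧ seg' (e x) = seg x ∧ σ' (e x) = e (σ x)) ∧
      ∀ x y, x < y → y < 2 * n → e x < e y := by
  classical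
  let e : ℕ → ℕ := fun x =>
    if anc (seg x) then st' (seg x) + (x - st (seg x)) else st' (seg x + 1) - (st (seg x + 1) - x)
  have hin : ∀ x < 2 * n, st' (seg x) ≤ e x ∧ e x < st' (seg x + 1) := by
    intro x hx
    have h1 := h.lo hx
    have h2 := h.hi hx
    have h3 := hlen _ (h.le x hx)
    simp only [e]
    split_ifs <;> omega
  refine ⟨e, fun x hx => ?_, fun x y hxy hy => ?_⟩
  · obtain ⟨h1, h2⟩ := h'.seg_eq (hin x hx).1 (hin x hx).2
    refine ⟨h1, h2, ?_⟩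
    have hs := h.sbs x hx
    have hsx := hlt x hx
    have hb : sb (seg x) ≤ B := hs ▸ h.le _ hsx
    have hs' : sb' (seg x) = sb (seg x) := hsb _ (h.le x hx) _ hb rfl
    have a1 := hanc _ (h.le x hx)
    have a2 := hanc _ hb
    have l1 := h.lo hx
    have l2 := h.hi hx
    have l3 := h.lo hsx
    have l4 := h.hi hsx
    have l5 := hlen _ (h.le x hx)
    have l6 := hlen _ hb
    have tt' := h'.tt _ h1
    have tf' := h'.tf _ h1
    have ft' := h'.ft _ h1
    rw [h2, hs'] at tt' tf' ft'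
    rw [hs] at l3 l4
    by_cases c1 : anc (seg x)
    · have e1 : e x = st' (seg x) + (x - st (seg x)) := if_pos c1
      by_cases c2 : anc (sb (seg x))
      · have e2 : e (σ x) = st' (sb (seg x)) + (σ x - st (sb (seg x))) := by
          simp only [e, hs, if_pos c2]
        have t1 := h.tt x hx c1 c2
        have t2 := tt' (a1.1 c1) (a2.1 c2)
        omega
      · have e2 : e (σ x) = st' (sb (seg x) + 1) - (st (sb (seg x) + 1) - σ x) := by
          simp only [e, hs, if_neg c2]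
        have t1 := h.tf x hx c1 c2
        have t2 := tf' (a1.1 c1) fun hh => c2 (a2.2 hh)
        omega
    · have e1 : e x = st' (seg x + 1) - (st (seg x + 1) - x) := if_neg c1
      obtain ⟨c2, t1⟩ := h.ft x hx c1
      have e2 : e (σ x) = st' (sb (seg x)) + (σ x - st (sb (seg x))) := by
        simp only [e, hs, if_pos c2]
      have t2 := (ft' fun hh => c1 (a1.2 hh)).2
      omega
  · have hx : x < 2 * n := hxy.trans hy
    have h1 : seg x ≤ seg y := (h.mem y hy _).1 ((h.lo hx).trans hxy.le)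
    rcases Nat.eq_or_lt_of_le h1 with h2 | h2
    · have l1 := h.lo hx
      have l2 := h.hi hy
      have l3 := hlen _ (h.le x hx)
      simp only [e, ← h2] at l2 ⊢
      split_ifs <;> omega
    · exact lt_of_lt_of_le (hin x hx).2 ((h'.mono h2).trans (hin y hy).1)

/-- segments exist -/
lemma exists_seg (hB : {x | x + 1 < 2 * n ∧ ¬ Clean σ x}.ncard ≤ B) :
    ∃ seg st : ℕ → ℕ, (∀ x, seg x ≤ B) ∧ (∀ x < 2 * n, ∀ c, st c ≤ x ↔ c ≤ seg x) ∧
      (∀ c, st c ≤ 2 * n) ∧ Monotone seg ∧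
      ∀ x, x + 1 < 2 * n → (seg (x + 1) = seg x ↔ Clean σ x) := by
  classical
  have hfin : {x | x + 1 < 2 * n ∧ ¬ Clean σ x}.Finite :=
    (Set.finite_Iio (2 * n)).subset fun x hx => by
      have := hx.1
      simp only [Set.mem_Iio]
      omega
  let U := hfin.toFinset
  have hU : U.card ≤ B := by rwa [Set.ncard_eq_toFinset_card _ hfin] at hB
  let seg : ℕ → ℕ := fun x => (U.filter (· < x)).card
  have hmono : Monotone seg := fun x y hxy => Finset.card_le_card fun z hz => by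
    simp only [Finset.mem_filter] at hz ⊢
    exact ⟨hz.1, lt_of_lt_of_le hz.2 hxy⟩
  have hex : ∀ c, ∃ x, 2 * n ≤ x ∨ c ≤ seg x := fun c => ⟨2 * n, Or.inl le_rfl⟩
  refine ⟨seg, fun c => Nat.find (hex c), fun x => (Finset.card_filter_le _ _).trans hU,
    fun x hx c => ⟨fun h => ?_, fun h => Nat.find_min' _ (Or.inr h)⟩,
    fun c => Nat.find_min' _ (Or.inl le_rfl), hmono, fun x hx => ⟨fun h => ?_, fun h => ?_⟩⟩
  · rcases Nat.find_spec (hex c) with h1 | h1
    · exact absurd (h1.trans h) (not_le.2 hx)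
    · exact h1.trans (hmono h)
  · by_contra hc
    have hss : U.filter (· < x) ⊂ U.filter (· < x + 1) := by
      refine Finset.ssubset_iff_subset_ne.2 ⟨fun z hz => ?_, fun he => ?_⟩
      · simp only [Finset.mem_filter] at hz ⊢
        exact ⟨hz.1, by omega⟩
      · have : x ∈ U.filter (· < x + 1) :=
          Finset.mem_filter.2 ⟨hfin.mem_toFinset.2 ⟨hx, hc⟩, by omega⟩
        rw [← he] at this
        exact lt_irrefl _ (Finset.mem_filter.1 this).2
    have := Finset.card_lt_card hss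
    simp only [seg] at h
    omega
  · show (U.filter (· < x + 1)).card = (U.filter (· < x)).card
    refine congrArg _ (Finset.filter_congr fun z hz => ⟨fun h1 => ?_, fun h1 => by omega⟩)
    have h2 := (hfin.mem_toFinset.1 hz).2
    by_contra hc
    have : z = x := by omega
    exact h2 (this ▸ h)

lemma exists_dec {k : ℕ} {T : Finset (ℕ × ℕ)} (hM : MinS) (h : MinI k n σ T)
    (hB : {x | x + 1 < 2 * n ∧ ¬ Clean σ x}.ncard ≤ B) :
    ∃ seg st sb anc, Dec B n σ seg st sb anc := by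
  obtain ⟨seg, st, hle, hmem, htop, hmono, hcl⟩ := exists_seg hB
  have inv := h.term.inv
  have lo : ∀ x < 2 * n, st (seg x) ≤ x := fun x hx => (hmem x hx _).2 le_rfl
  have hi : ∀ x < 2 * n, x < st (seg x + 1) := fun x hx => by
    by_contra hc
    have := (hmem x hx _).1 (not_lt.1 hc)
    omega
  have seq : ∀ c x, st c ≤ x → x < st (c + 1) → x < 2 * n ∧ seg x = c := by
    intro c x h1 h2
    have hx : x < 2 * n := lt_of_lt_of_le h2 (htop _)
    have h3 := (hmem x hx c).1 h1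
    have h4 := (hmem x hx (c + 1)).2
    refine ⟨hx, ?_⟩
    by_contra hc
    have := h4 (by omega)
    omega
  have step : ∀ x, x + 1 < 2 * n → Clean σ x → seg (σ (x + 1)) = seg (σ x) := by
    intro x hx hc
    have h1 := h.lt x (by omega)
    have h2 := h.lt (x + 1) hx
    obtain ⟨c1, c2, c3 | c3⟩ := hc
    · rw [c3]
      refine (hcl _ (by omega)).2 ⟨?_, ?_, Or.inl ?_⟩
      · rw [inv x]; exact c1.symm
      · rw [← c3, inv]; exact c2.symm
      · rw [← c3, inv, inv]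
    · rw [c3]
      refine ((hcl _ (by omega)).2 ⟨?_, ?_, Or.inr ?_⟩).symm
      · rw [inv]; exact c2.symm
      · rw [← c3, inv]; exact c1.symm
      · rw [← c3, inv, inv]
  have cln : ∀ c y, st c ≤ y → y + 1 < st (c + 1) → Clean σ y := by
    intro c y h1 h2
    have a1 := seq c y h1 (by omega)
    have a2 := seq c (y + 1) (by omega) h2
    exact (hcl y a2.1).1 (a2.2.trans a1.2.symm)
  have sbs : ∀ x < 2 * n, seg (σ x) = seg (σ (st (seg x))) := by
    intro x hx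
    have key : ∀ y, st (seg x) ≤ y → y ≤ x → seg (σ y) = seg (σ (st (seg x))) := by
      intro y hy
      induction y, hy using Nat.le_induction with
      | base => intro _; rfl
      | succ y hy ih =>
        intro hyx
        have := hi x hx
        rw [step y (by omega) (cln (seg x) y hy (by omega))]
        exact ih (by omega)
    exact key x (lo x hx) le_rfl
  let sb : ℕ → ℕ := fun c => seg (σ (st c))
  have sbs' : ∀ x < 2 * n, seg (σ x) = sb (seg x) := sbs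
  have sb2 : ∀ x < 2 * n, sb (sb (seg x)) = seg x := by
    intro x hx
    rw [← sbs' x hx, ← sbs' _ (h.lt x hx), inv]
  -- points of the partner segment come from the segment
  have back : ∀ x < 2 * n, ∀ y, st (sb (seg x)) ≤ y → y < st (sb (seg x) + 1) →
      st (seg x) ≤ σ y ∧ σ y < st (seg x + 1) := by
    intro x hx y h1 h2
    obtain ⟨a1, a2⟩ := seq _ y h1 h2
    have a3 := sbs' y a1
    rw [a2, sb2 x hx] at a3
    have a4 := h.lt y a1
    exact ⟨a3 ▸ lo _ a4, a3 ▸ hi _ a4⟩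
  have forw : ∀ x < 2 * n, ∀ y, st (seg x) ≤ y → y < st (seg x + 1) →
      st (sb (seg x)) ≤ σ y ∧ σ y < st (sb (seg x) + 1) := by
    intro x hx y h1 h2
    obtain ⟨a1, a2⟩ := seq _ y h1 h2
    have a3 := sbs' y a1
    rw [a2] at a3
    have a4 := h.lt y a1
    exact ⟨a3 ▸ lo _ a4, a3 ▸ hi _ a4⟩
  let dir : ℕ → Prop := fun c => ∀ y, st c ≤ y → y < st (c + 1) → σ y + st c = y + st (sb c)
  have dsym : ∀ x < 2 * n, dir (seg x) → dir (sb (seg x)) := by
    intro x hx hd y h1 h2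
    obtain ⟨b1, b2⟩ := back x hx y h1 h2
    have := hd _ b1 b2
    rw [inv] at this
    rw [sb2 x hx]
    omega
  have refl : ∀ x < 2 * n, ¬ dir (seg x) → sb (seg x) ≠ seg x ∧
      σ x + x + 1 = st (seg x) + st (sb (seg x) + 1) ∧
      σ x + x + 1 = st (seg x + 1) + st (sb (seg x)) := by
    intro x hx hd
    have l1 := lo x hx
    have l2 := hi x hx
    have tr : (∀ i < st (seg x + 1) - st (seg x), σ (st (seg x) + i) = σ (st (seg x)) + i) →
        dir (seg x) := by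
      intro ht y h1 h2
      have a1 := ht (y - st (seg x)) (by omega)
      rw [Nat.add_sub_cancel' h1] at a1
      obtain ⟨f1, f2⟩ := forw x hx (st (seg x)) le_rfl (by omega)
      obtain ⟨b1, b2⟩ := back x hx (st (sb (seg x))) le_rfl (by omega)
      have a2 := ht (σ (st (sb (seg x))) - st (seg x)) (by omega)
      rw [Nat.add_sub_cancel' b1, inv] at a2
      omega
    have hw : 2 ≤ st (seg x + 1) - st (seg x) := by
      by_contra hc
      refine hd (tr fun i hi' => ?_)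
      have : i = 0 := by omega
      rw [this]; rfl
    have hrun : Run σ n (st (seg x + 1) - st (seg x)) (st (seg x)) :=
      ⟨by have := htop (seg x + 1); omega, fun y h1 h2 => cln (seg x) y h1 (by omega)⟩
    obtain ⟨r1, r2 | r2⟩ := (hM k n σ T h).2.2.2.2 _ _ hw hrun
    · exact absurd (tr r2.1) hd
    · have ht := r2.1
      refine ⟨fun he => ?_, ?_⟩
      · obtain ⟨f1, f2⟩ := forw x hx x l1 l2
        rw [he] at f1 f2
        exact (r1 x ⟨l1, by omega⟩).2 ⟨f1, by omega⟩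
      · have a1 := ht (x - st (seg x)) (by omega)
        rw [Nat.add_sub_cancel' l1] at a1
        obtain ⟨f1, f2⟩ := forw x hx (st (seg x)) le_rfl (by omega)
        obtain ⟨f3, f4⟩ := forw x hx (st (seg x + 1) - 1) (by omega) (by omega)
        obtain ⟨b1, b2⟩ := back x hx (st (sb (seg x))) le_rfl (by omega)
        obtain ⟨b3, b4⟩ := back x hx (st (sb (seg x) + 1) - 1) (by omega) (by omega)
        have a2 := ht (σ (st (sb (seg x))) - st (seg x)) (by omega)
        rw [Nat.add_sub_cancel' b1, inv] at a2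
        have a3 := ht (σ (st (sb (seg x) + 1) - 1) - st (seg x)) (by omega)
        rw [Nat.add_sub_cancel' b3, inv] at a3
        have a4 := ht (st (seg x + 1) - 1 - st (seg x)) (by omega)
        rw [Nat.add_sub_cancel' (by omega)] at a4
        omega
  refine ⟨seg, st, sb, fun c => dir c ∨ c < sb c, fun x _ => hle x, hmem, htop, sbs',
    fun x hx hf => ?_, fun x hx c1 c2 => ?_, fun x hx c1 c2 => ?_, fun x hx c1 => ?_⟩
  · have l1 := lo x hx
    have l2 := hi x hx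
    constructor
    · by_contra hc
      have := (cln (seg x) (x - 1) (by omega) (by omega)).2.1
      rw [Nat.sub_add_cancel (by omega)] at this
      exact this hf
    · by_contra hc
      exact (cln (seg x) x l1 (by omega)).1 hf
  · by_cases hd : dir (seg x)
    · exact hd x (lo x hx) (hi x hx)
    · exfalso
      have c3 := c1.resolve_left hd
      rcases c2 with c2 | c2
      · have := dsym _ (h.lt x hx) (by rw [sbs' x hx]; exact c2)
        rw [sbs' x hx, sb2 x hx] at this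
        exact hd this
      · rw [sb2 x hx] at c2
        omega
  · exact (refl x hx fun hd => c2 (Or.inl (dsym x hx hd))).2.1
  · obtain ⟨a1, -, a2⟩ := refl x hx fun hd => c1 (Or.inl hd)
    refine ⟨Or.inr ?_, a2⟩
    rw [sb2 x hx]
    have : ¬ seg x < sb (seg x) := fun hh => c1 (Or.inr hh)
    omega

lemma good_io {k : ℕ} {T : Finset (ℕ × ℕ)} (h : MinI k n σ T) : Good σ T (Iio (2 * n)) := by
  refine ⟨io n, fun x => ?_, fun x y h1 h2 => ?_, fun x hx => ?_, h.route⟩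
  · unfold io
    split_ifs <;> omega
  · unfold io at h2 ⊢
    split_ifs at h2 ⊢ <;> omega
  · by_contra hc
    exact hx (if_neg hc)

end F2

open F2 in
theorem f2S (hS : SimS) (hM : MinS) : F2S := by
  classical
  intro k B
  by_contra hc
  push Not at hc
  choose n σ T hmin hB hn using hc
  choose seg st sb anc hdec using fun i => exists_dec hM (hmin i) (hB i)
  let Γ := (Fin (B + 1) → Fin (B + 1) → Prop) × (Fin (B + 1) → Prop) ×
    (Fin (B + 1) → Fin (B + 1) → Prop)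
  let colr : ℕ → Γ := fun i => (fun c d => sb i c = d, fun c => anc i c,
    fun c d => ∃ p ∈ T i, seg i p.1 = c ∧ seg i p.2 = d)
  let f : ℕ → (Γ → ℕ) × (Fin (B + 1) → ℕ) := fun i =>
    (fun γ => if colr i = γ then 1 else 0, fun c => st i (c + 1) - st i c)
  obtain ⟨g, hg⟩ := wellQuasiOrdered_le.exists_monotone_subseq f
  obtain ⟨i, j, hij, hf⟩ : ∃ i j, n i < n j ∧ f i ≤ f j :=
    ⟨g 0, g (n (g 0)), lt_of_le_of_lt (g.strictMono.id_le _) (hn _), hg _ _ (Nat.zero_le _)⟩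
  have hcol : colr j = colr i := by
    have h1 : (if colr i = colr i then 1 else 0) ≤ (if colr j = colr i then 1 else 0) :=
      hf.1 (colr i)
    by_contra hne
    rw [if_pos rfl, if_neg hne] at h1
    omega
  obtain ⟨e, he1, he2⟩ := embed (hdec i) (hdec j) (hmin i).lt
    (fun c hc d hd h => by
      have := congrFun (congrFun (congrArg Prod.fst hcol) ⟨c, by omega⟩) ⟨d, by omega⟩
      exact this.mpr h)
    (fun c hc => by
      have := congrFun (congrArg (fun γ : Γ => γ.2.1) hcol) ⟨c, by omega⟩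
      exact (iff_of_eq this).symm)
    (fun c hc => hf.2 ⟨c, by omega⟩)
  obtain ⟨x0, hx0, hx1⟩ := Finset.exists_mem_notMem_of_card_lt_card
    (s := (Finset.range (2 * n i)).image e) (t := Finset.range (2 * n j))
    (lt_of_le_of_lt Finset.card_image_le (by simp only [Finset.card_range]; omega))
  have refl : ∀ x < 2 * n i, ∀ y < 2 * n i, e x < e y → x < y := by
    intro x hx y hy hxy
    rcases lt_trichotomy x y with h | h | h
    · exact h
    · rw [h] at hxy; omega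
    · have := he2 y x h hx; omega
  have hend : ∀ a ∈ ends (T j), ∀ b < 2 * n i, seg i b = seg j a → e b = a := by
    intro a ha b hb hs
    obtain ⟨f1, f2⟩ := (hdec j).fix a ((hmin j).elt a ha) ((hmin j).term.fix a ha)
    obtain ⟨e1, e2, -⟩ := he1 b hb
    have l1 := (hdec j).lo e1
    have l2 := (hdec j).hi e1
    rw [e2, hs] at l1 l2
    omega
  refine (hmin j).min ⟨x0, Finset.mem_range.1 hx0, hS (σ j) id (σ i) e (T j) (T i) _
    (Iio (2 * n i)) (Iio (2 * n i)) (hmin j).term.inv (fun _ => rfl) (fun x y h1 h2 => ?_)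
    (fun x hx => absurd rfl hx) (fun x hx => ⟨⟨(he1 x hx).1, fun hh => hx1 ?_⟩, rfl⟩)
    (fun x hx y hy hxy => ?_) (fun a ha b hb c hc d hd h1 h2 h3 => ?_)
    (fun z x _ y _ h1 h2 => ?_) subset_rfl (fun x hx => ⟨(hmin i).lt x hx, ?_⟩)
    (fun p hp => Or.inr ?_) (good_io (hmin i))⟩
  · simp only [id] at h2; omega
  · exact Finset.mem_image.2 ⟨x, Finset.mem_range.2 hx, hh⟩
  · rcases lt_trichotomy x y with h | h | h
    · have := he2 x y h hy; omega
    · exact h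
    · have := he2 y x h hx; omega
  · have a1 := refl a ha c hc h1
    have a2 := refl c hc b hb h2
    have a3 : d < a ∨ b < d := h3.imp (refl d hd a ha) (refl b hb d hd)
    unfold Btw
    omega
  · simp only [id] at h2; omega
  · exact Relation.ReflTransGen.single (Or.inl (he1 x hx).2.2.symm)
  · have p1 : p.1 ∈ ends (T j) := ⟨p, hp, Or.inl rfl⟩
    have p2 : p.2 ∈ ends (T j) := ⟨p, hp, Or.inr rfl⟩
    have b1 := (hdec j).le _ ((hmin j).elt _ p1)
    have b2 := (hdec j).le _ ((hmin j).elt _ p2)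
    have := congrFun (congrFun (congrArg (fun γ : Γ => γ.2.2) hcol) ⟨seg j p.1, by omega⟩)
      ⟨seg j p.2, by omega⟩
    obtain ⟨q, hq, q1, q2⟩ := this.mp ⟨p, hp, rfl, rfl⟩
    have r1 := (hmin i).elt q.1 ⟨q, hq, Or.inl rfl⟩
    have r2 := (hmin i).elt q.2 ⟨q, hq, Or.inr rfl⟩
    refine ⟨q, hq, r1, Or.inl ⟨?_, ?_⟩⟩
    · rw [hend _ p1 _ r1 q1]
      exact Relation.ReflTransGen.refl
    · rw [hend _ p2 _ r2 q2]
      exact Relation.ReflTransGen.refl

end Pool.Agent.MP_9d78a0_co.fb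

end MrgPart3

-- ======== part 4: formerly Pool.Agent.MP_9d78a0_co.fb.Exta
section MrgPart4

/-! Unique linkages: a new lane when the edges leaving a run of times have no small cover. -/

set_option autoImplicit false

namespace Pool.Agent.MP_9d78a0_co.fb

open Set Function

namespace Exta

variable {k : ℕ}

/-- the vertices of a lane with time in a range -/
def part (L : Iv k) (tm : Vx k → ℕ) (c d : ℕ) : Set (Vx k) := {v | v ∈ L.set ∧ c ≤ tm v ∧ tm v ≤ d}

theorem part_convex {L : Iv k} {tm : Vx k → ℕ} {T c d : ℕ} (h : Timed L tm T) {u u' v : Vx k}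
    (hu : u ∈ part L tm c d) (hu' : u' ∈ part L tm c d) (hv : v.1 = L.p) (h1 : u.2 ≤ v.2)
    (h2 : v.2 ≤ u'.2) : v ∈ part L tm c d := by
  have hs : v ∈ L.set := ⟨hv, hu.1.2.1.trans h1, h2.trans hu'.1.2.2⟩
  rcases h.2 with m | m
  · exact ⟨hs, hu.2.1.trans (m u hu.1 v hs h1), (m v hs u' hu'.1 h2).trans hu'.2.2⟩
  · exact ⟨hs, hu'.2.1.trans (m v hs u' hu'.1 h2), (m u hu.1 v hs h1).trans hu.2.2⟩

theorem sub_iv {L : Iv k} {tm : Vx k → ℕ} {T c d : ℕ} (h : Timed L tm T)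
    (hne : (part L tm c d).Nonempty) :
    ∃ J : Iv k, J.lo ≤ J.hi ∧ J.p = L.p ∧ J.hi ≤ L.hi ∧ J.set = part L tm c d := by
  set P : Set ℕ := {x | (L.p, x) ∈ part L tm c d} with hP
  have mem : ∀ v ∈ part L tm c d, v.2 ∈ P := fun v hv => by
    have : (L.p, v.2) = v := Prod.ext hv.1.1.symm rfl
    simpa only [hP, mem_ofPred_eq, this] using hv
  obtain ⟨w, hw⟩ := hne
  have hn : P.Nonempty := ⟨_, mem w hw⟩
  have hb : BddAbove P := ⟨L.hi, fun x hx => hx.1.2.2⟩
  have h1 := Nat.sInf_mem hn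
  have h2 := Nat.sSup_mem hn hb
  refine ⟨⟨L.p, sInf P, sSup P⟩, le_csSup hb h1, rfl, h2.1.2.2, ?_⟩
  ext v
  constructor
  · rintro ⟨e, a, b⟩
    exact part_convex h h1 h2 e a b
  · intro hv
    exact ⟨hv.1.1, Nat.sInf_le (mem v hv), le_csSup hb (mem v hv)⟩

open Classical in
/-- the number of indices in `[1, T)` with a property -/
noncomputable def cnt (T : ℕ) (p : ℕ → Prop) : ℕ := ((Finset.Ico 1 T).filter p).card

theorem cnt_lt {T : ℕ} (hT : 0 < T) (p : ℕ → Prop) : cnt T p < T := by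
  classical
  have := Finset.card_filter_le (Finset.Ico 1 T) p
  rw [Nat.card_Ico] at this
  unfold cnt
  convert lt_of_le_of_lt this (by omega : T - 1 < T)

theorem cnt_mono {T : ℕ} {p q : ℕ → Prop} (h : ∀ r, p r → q r) : cnt T p ≤ cnt T q := by
  classical
  unfold cnt
  refine Finset.card_le_card fun r hr => ?_
  simp only [Finset.mem_filter] at hr ⊢
  exact ⟨hr.1, h r hr.2⟩

theorem cnt_eq {T r : ℕ} {p : ℕ → Prop} (hr : r < T) (h : ∀ s < T, p s ↔ s ≤ r) :
    cnt T p = r := by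
  classical
  unfold cnt
  have : r = (Finset.Icc 1 r).card := by simp
  rw [this]
  congr 1
  ext s
  simp only [Finset.mem_filter, Finset.mem_Ico, Finset.mem_Icc]
  constructor
  · rintro ⟨⟨h1, h2⟩, h3⟩
    exact ⟨h1, (h s h2).1 h3⟩
  · rintro ⟨h1, h2⟩
    exact ⟨⟨h1, by omega⟩, (h s (by omega)).2 h2⟩

theorem le_iff_of_inc {T : ℕ} {f : ℕ → ℕ} (h : ∀ r s, r < s → s < T → f r < f s) {r s : ℕ}
    (hr : r < T) (hs : s < T) : f s ≤ f r ↔ s ≤ r := by
  rcases lt_trichotomy r s with c | rfl | c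
  · have := h r s c hs
    omega
  · simp
  · have := h s r c hr
    omega

theorem le_iff_of_dec {T : ℕ} {f : ℕ → ℕ} (h : ∀ r s, r < s → s < T → f s < f r) {r s : ℕ}
    (hr : r < T) (hs : s < T) : f r ≤ f s ↔ s ≤ r := by
  rcases lt_trichotomy r s with c | rfl | c
  · have := h r s c hs
    omega
  · simp
  · have := h s r c hr
    omega

/-- the hull of a monotone sequence of vertices on one path, with its step function -/
theorem new_lane {T : ℕ} (hT : 0 < T) (q : Fin k) (v : ℕ → Vx k) (hq : ∀ r < T, (v r).1 = q)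
    (hm : Mo (fun r => (v r).2) T) :
    ∃ (J : Iv k) (st : Vx k → ℕ), J.p = q ∧ (∃ r < T, (v r).2 = J.lo) ∧ (∃ r < T, (v r).2 = J.hi) ∧
      (∀ r < T, v r ∈ J.set ∧ st (v r) = r) ∧ Timed J st T := by
  have hl : T - 1 < T := by omega
  rcases hm with m | m
  · refine ⟨⟨q, (v 0).2, (v (T - 1)).2⟩, fun u => cnt T fun r => (v r).2 ≤ u.2, rfl, ⟨0, hT, rfl⟩,
      ⟨T - 1, hl, rfl⟩, fun r hr => ⟨⟨hq r hr, ?_, ?_⟩, ?_⟩, fun u _ => cnt_lt hT _,
      Or.inl fun u _ u' _ h => cnt_mono fun r hr => hr.trans h⟩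
    · exact (le_iff_of_inc m hr hT).2 (Nat.zero_le _)
    · exact (le_iff_of_inc m hl hr).2 (by omega)
    · exact cnt_eq hr fun s hs => le_iff_of_inc m hr hs
  · refine ⟨⟨q, (v (T - 1)).2, (v 0).2⟩, fun u => cnt T fun r => u.2 ≤ (v r).2, rfl,
      ⟨T - 1, hl, rfl⟩, ⟨0, hT, rfl⟩, fun r hr => ⟨⟨hq r hr, ?_, ?_⟩, ?_⟩, fun u _ => cnt_lt hT _,
      Or.inr fun u _ u' _ h => cnt_mono fun r hr => h.trans hr⟩
    · exact (le_iff_of_dec m hl hr).2 (by omega)
    · exact (le_iff_of_dec m hr hT).2 (Nat.zero_le _)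
    · exact cnt_eq hr fun s hs => le_iff_of_dec m hr hs

/-- the new configuration from a homogeneous sequence of edges -/
theorem build {len : Fin k → ℕ} {E : SimpleGraph (Vx k)} {n : ℕ} {I : ℕ → Iv k} {T0 : ℕ}
    {D : ℕ → Set (Vx k)} {i T : ℕ} {L : ℕ → Iv k} {tm : Vx k → ℕ} {par dj : ℕ → ℕ}
    (hI : Ivs len I n) (C : Config len E n I T0 D i T L tm par dj) (hi : 0 < i) {T' : ℕ}
    (hT : 0 < T') {t1 t2 a0 : ℕ} (ha0 : a0 < i) (q : Fin k) (w v : ℕ → Vx k)
    (hw : ∀ r < T', w r ∈ part (L a0) tm t1 t2)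
    (hτ : ∀ r s, r < s → s < T' → tm (w r) < tm (w s))
    (hv : ∀ r < T', v r ∈ Vs len ∧ E.Adj (w r) (v r) ∧ (v r).1 = q ∧
      ∀ a < i, v r ∉ part (L a) tm t1 t2)
    (hm : Mo (fun r => (v r).2) T')
    (h5 : ∀ b < n, ∀ r < T', ∀ s < T', ((I b).lo ≤ (v r).2 → (I b).lo ≤ (v s).2) ∧
      ((v r).2 ≤ (I b).hi → (v s).2 ≤ (I b).hi))
    (h6 : ∀ a < i, ∀ r < T', ∀ s < T', (∃ u ∈ part (L a) tm t1 t2, u.2 < (v r).2) →
      ∃ u ∈ part (L a) tm t1 t2, u.2 < (v s).2) :
    ∃ L' tm' par' dj', Config len E n I T0 D (i + 1) T' L' tm' par' dj' := by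
  classical
  have hl : T' - 1 < T' := by omega
  set τ : ℕ → ℕ := fun r => tm (w r) with hτd
  have τT : ∀ r < T', τ r < T := fun r hr => (C.timed a0 ha0).1 _ (hw r hr).1
  have τ0 : ∀ r < T', τ 0 ≤ τ r := fun r hr => (le_iff_of_inc hτ hr hT).2 (Nat.zero_le _)
  have τ1 : ∀ r < T', τ r ≤ τ (T' - 1) := fun r hr => (le_iff_of_inc hτ hl hr).2 (by omega)
  have inp : ∀ a, ∀ r < T', ∀ u ∈ (L a).set, tm u = τ r →
      u ∈ part (L a) tm (τ 0) (τ (T' - 1)) := fun a r hr u hu e =>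
    ⟨hu, e ▸ τ0 r hr, e ▸ τ1 r hr⟩
  have ex : ∀ a, a < i → ∃ J : Iv k, J.lo ≤ J.hi ∧ J.p = (L a).p ∧ J.hi ≤ (L a).hi ∧
      J.set = part (L a) tm (τ 0) (τ (T' - 1)) := by
    intro a ha
    refine sub_iv (C.timed a ha) ?_
    rcases Nat.eq_zero_or_pos a with rfl | h
    · obtain ⟨-, u, hu, e, -⟩ := C.meet _ (τT 0 hT)
      exact ⟨u, inp 0 0 hT u hu e⟩
    · obtain ⟨u, hu, -, -, e, -⟩ := (C.rungs a ha h).2 _ (τT 0 hT)
      exact ⟨u, inp a 0 hT u hu e⟩
  have : Nonempty (Iv k) := ⟨L 0⟩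
  choose! J hJ1 hJ2 hJ3 hJ4 using ex
  obtain ⟨N, st, hNp, ⟨r1, hr1, e1⟩, ⟨r2, hr2, e2⟩, hN, hNt⟩ :=
    new_lane hT q v (fun r hr => (hv r hr).2.2.1) hm
  have sub : ∀ a < i, (J a).set ⊆ (L a).set := fun a ha u hu => by
    rw [hJ4 a ha] at hu
    exact hu.1
  have dis : ∀ a < i, ∀ u ∈ (J a).set, u ∉ N.set := by
    intro a ha u hu hN'
    rw [hJ4 a ha] at hu
    have hu' : u ∈ part (L a) tm t1 t2 :=
      ⟨hu.1, (hw 0 hT).2.1.trans hu.2.1, hu.2.2.trans (hw _ hl).2.2⟩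
    have hq : ∀ r < T', (v r).1 = (L a).p := fun r hr =>
      (hv r hr).2.2.1.trans (hNp.symm.trans (hN'.1.symm.trans hu.1.1))
    have b1 : (v r1).2 ≤ u.2 := e1 ▸ hN'.2.1
    have b2 : u.2 ≤ (v r2).2 := e2 ▸ hN'.2.2
    rcases b2.eq_or_lt with e | b2
    · exact (hv r2 hr2).2.2.2 a ha (part_convex (C.timed a ha) hu' hu' (hq r2 hr2) e.le e.ge)
    · obtain ⟨u', hu'', b3⟩ := h6 a ha r2 hr2 r1 hr1 ⟨u, hu', b2⟩
      exact (hv r1 hr1).2.2.2 a ha (part_convex (C.timed a ha) hu'' hu' (hq r1 hr1) b3.le b1)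
  set L' : ℕ → Iv k := fun a => if a < i then J a else N with hL'
  set tm' : Vx k → ℕ := fun u => if u ∈ N.set then st u else cnt T' fun r => τ r ≤ tm u with htm'
  have Lo : ∀ a < i, L' a = J a := fun a ha => if_pos ha
  have Ln : L' i = N := if_neg (lt_irrefl i)
  have tO : ∀ a < i, ∀ u ∈ (J a).set, tm' u = cnt T' fun r => τ r ≤ tm u :=
    fun a ha u hu => if_neg (dis a ha u hu)
  have tn : ∀ u ∈ N.set, tm' u = st u := fun u hu => if_pos hu
  have key : ∀ a < i, ∀ r < T', ∀ u ∈ (L a).set, tm u = τ r → u ∈ (J a).set ∧ tm' u = r := by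
    intro a ha r hr u hu e
    have h1 : u ∈ (J a).set := by
      rw [hJ4 a ha]
      exact inp a r hr u hu e
    refine ⟨h1, ?_⟩
    rw [tO a ha u h1, e]
    exact cnt_eq hr fun s hs => le_iff_of_inc hτ hr hs
  refine ⟨L', tm', fun a => if a < i then par a else a0, fun r => dj (τ r), ⟨fun a ha => ?_,
    fun a ha b hb hab => ?_⟩, fun a ha b hb b' hb' => ?_, fun a ha => ?_, fun a ha h0 => ?_,
    fun r hr => ?_, fun r hr s hs e => ?_⟩
  · rcases Nat.lt_succ_iff_lt_or_eq.1 ha with ha | rfl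
    · rw [Lo a ha, hJ2 a ha]
      exact ⟨hJ1 a ha, (hJ3 a ha).trans (C.ivs.1 a ha).2⟩
    · rw [Ln]
      refine ⟨(hN 0 hT).1.2.1.trans (hN 0 hT).1.2.2, ?_⟩
      rw [← e2, hNp, ← (hv r2 hr2).2.2.1]
      exact (hv r2 hr2).1
  · rcases Nat.lt_succ_iff_lt_or_eq.1 ha with ha | rfl <;>
      rcases Nat.lt_succ_iff_lt_or_eq.1 hb with hb | rfl
    · rw [Lo a ha, Lo b hb]
      exact (C.ivs.2 a ha b hb hab).mono (sub a ha) (sub b hb)
    · rw [Lo a ha, Ln]
      exact disjoint_left.2 (dis a ha)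
    · rw [Lo b hb, Ln]
      exact (disjoint_left.2 (dis b hb)).symm
    · exact absurd rfl hab
  · rcases Nat.lt_succ_iff_lt_or_eq.1 ha with ha | rfl
    · rw [Lo a ha]
      exact fun h h' => C.one a ha b hb b' hb' (h.mono (inter_subset_inter_left _ (sub a ha)))
        (h'.mono (inter_subset_inter_left _ (sub a ha)))
    · rw [Ln]
      have inI : ∀ c < n, (N.set ∩ (I c).set).Nonempty → v r1 ∈ (I c).set := by
        rintro c hc ⟨u, hu, hu'⟩
        have b1 : (v r1).2 ≤ u.2 := e1 ▸ hu.2.1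
        have b2 : u.2 ≤ (v r2).2 := e2 ▸ hu.2.2
        exact ⟨(hN r1 hr1).1.1.trans (hu.1.symm.trans hu'.1),
          (h5 c hc r2 hr2 r1 hr1).1 (hu'.2.1.trans b2), b1.trans hu'.2.2⟩
      intro h h'
      by_contra hne
      exact disjoint_left.1 (hI.2 b hb b' hb' hne) (inI b hb h) (inI b' hb' h')
  · rcases Nat.lt_succ_iff_lt_or_eq.1 ha with ha | rfl
    · rw [Lo a ha]
      refine ⟨fun u hu => by rw [tO a ha u hu]; exact cnt_lt hT _, ?_⟩
      rcases (C.timed a ha).2 with m | m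
      · refine Or.inl fun u hu u' hu' h => ?_
        rw [tO a ha u hu, tO a ha u' hu']
        exact cnt_mono fun r hr => hr.trans (m u (sub a ha hu) u' (sub a ha hu') h)
      · refine Or.inr fun u hu u' hu' h => ?_
        rw [tO a ha u hu, tO a ha u' hu']
        exact cnt_mono fun r hr => hr.trans (m u (sub a ha hu) u' (sub a ha hu') h)
    · rw [Ln]
      refine ⟨fun u hu => by rw [tn u hu]; exact hNt.1 u hu, ?_⟩
      rcases hNt.2 with m | m
      · exact Or.inl fun u hu u' hu' h => by rw [tn u hu, tn u' hu']; exact m u hu u' hu' h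
      · exact Or.inr fun u hu u' hu' h => by rw [tn u hu, tn u' hu']; exact m u hu u' hu' h
  · rcases Nat.lt_succ_iff_lt_or_eq.1 ha with ha | rfl
    · obtain ⟨hp, hr⟩ := C.rungs a ha h0
      simp only [if_pos ha]
      rw [Lo a ha, Lo _ (hp.trans ha)]
      refine ⟨hp, fun r hr' => ?_⟩
      obtain ⟨u, hu, u', hu', c1, c2, c3⟩ := hr _ (τT r hr')
      obtain ⟨d1, d2⟩ := key a ha r hr' u hu c1
      obtain ⟨d3, d4⟩ := key _ (hp.trans ha) r hr' u' hu' c2
      exact ⟨u, d1, u', d3, d2, d4, c3⟩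
    · simp only [if_neg (lt_irrefl a)]
      rw [Ln, Lo a0 ha0]
      refine ⟨ha0, fun r hr => ?_⟩
      obtain ⟨d1, d2⟩ := key a0 ha0 r hr (w r) (hw r hr).1 rfl
      exact ⟨v r, (hN r hr).1, w r, d1, (tn _ (hN r hr).1).trans (hN r hr).2, d2,
        (hv r hr).2.1.symm⟩
  · obtain ⟨c1, u, hu, c2, c3⟩ := C.meet _ (τT r hr)
    obtain ⟨d1, d2⟩ := key 0 hi r hr u hu c2
    rw [Lo 0 hi]
    exact ⟨c1, u, d1, d2, c3⟩
  · have := C.inj _ (τT r hr) _ (τT s hs) e
    exact le_antisymm ((le_iff_of_inc hτ hs hr).1 this.le) ((le_iff_of_inc hτ hr hs).1 this.ge)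

/-- greedy choice of objects with different values of two maps -/
theorem greedy {α β γ : Type} (P : α → Prop) (f : α → β) (g : α → γ) (m : ℕ)
    (h : ∀ (X : Finset β) (Z : Finset γ), X.card ≤ m → Z.card ≤ m →
      ∃ x, P x ∧ f x ∉ X ∧ g x ∉ Z) :
    ∀ j ≤ m, ∃ e : ℕ → α, (∀ r < j, P (e r)) ∧
      ∀ r s, r < s → s < j → f (e r) ≠ f (e s) ∧ g (e r) ≠ g (e s) := by
  classical
  intro j
  induction j with
  | zero =>
    intro _
    obtain ⟨x, -⟩ := h ∅ ∅ (by simp) (by simp)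
    exact ⟨fun _ => x, fun _ h => by omega, fun _ _ _ h => by omega⟩
  | succ j ih =>
    intro hj
    obtain ⟨e, h1, h2⟩ := ih (by omega)
    obtain ⟨x, hx, h3, h4⟩ := h ((Finset.range j).image fun r => f (e r))
      ((Finset.range j).image fun r => g (e r))
      (Finset.card_image_le.trans (by simp; omega)) (Finset.card_image_le.trans (by simp; omega))
    refine ⟨fun r => if r < j then e r else x, fun r _ => ?_, fun r s hrs hs => ?_⟩
    · by_cases c : r < j
      · simpa [c] using h1 r c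
      · simpa [c] using hx
    · have c : r < j := by omega
      by_cases d : s < j
      · simpa [c, d] using h2 r s hrs d
      · simp only [c, d, if_true, if_false]
        exact ⟨fun e' => h3 (Finset.mem_image.2 ⟨r, Finset.mem_range.2 c, e'⟩),
          fun e' => h4 (Finset.mem_image.2 ⟨r, Finset.mem_range.2 c, e'⟩)⟩

end Exta

open Exta in
theorem extaS (hR : RamseyS) : ExtaS := by
  intro k i n T' hi hT
  obtain ⟨m, hm⟩ := hR (Fin i × Fin k × (Fin n → Prop × Prop) × (Fin i → Prop) × Prop × Prop)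
    (T' + 1)
  refine ⟨m, fun len E I T0 D T L tm par dj hI C hC => ?_⟩
  unfold Cov at hC
  push Not at hC
  obtain ⟨t1, t2, hC⟩ := hC
  obtain ⟨e, he, hd⟩ := greedy
    (fun x : Fin i × Vx k × Vx k => x.2.1 ∈ part (L x.1) tm t1 t2 ∧ x.2.2 ∈ Vs len ∧
      E.Adj x.2.1 x.2.2 ∧ ∀ a < i, x.2.2 ∉ part (L a) tm t1 t2)
    (fun x => tm x.2.1) (fun x => x.2.2) m (fun X Z hX hZ => by
      obtain ⟨a, ha, w, hw, h1, h2, v, hv, h3, h4, h5, h6⟩ := hC X Z hX hZ
      exact ⟨(⟨a, ha⟩, w, v), ⟨⟨hw, h1, h2⟩, hv, h3, fun b hb c =>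
        absurd c.2.2 (not_le.2 (h4 b hb c.1 c.2.1))⟩, h5, h6⟩) m le_rfl
  obtain ⟨s, γ, s1, s2, s3⟩ := hm fun r r' => ((e r).1, (e r).2.2.1,
    fun b => ((I b).lo ≤ (e r).2.2.2, (e r).2.2.2 ≤ (I b).hi),
    fun a => ∃ u ∈ part (L a) tm t1 t2, u.2 < (e r).2.2.2,
    tm (e r).2.1 < tm (e r').2.1, (e r).2.2.2 < (e r').2.2.2)
  obtain ⟨γ1, γ2, γ3, γ4, γ5, γ6⟩ := γ
  simp only [Prod.mk.injEq] at s3
  have lt : ∀ r < T', s r < m := fun r hr => s2 r (by omega)
  have u := fun r (hr : r < T') => s3 r T' hr (Nat.lt_succ_self _)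
  have ne := fun r r' (h : r < r') (hr : r' < T') =>
    hd (s r) (s r') (s1 r r' h (by omega)) (lt r' hr)
  have pos : Mo (fun r => (e (s r)).2.2.2) T' := by
    by_cases c : γ6
    · exact Or.inl fun r r' h hr => ((s3 r r' h (by omega)).2.2.2.2.2 ▸ c :)
    · refine Or.inr fun r r' h hr => ?_
      have h1 : ¬ (e (s r)).2.2.2 < (e (s r')).2.2.2 := fun h1 =>
        c ((s3 r r' h (by omega)).2.2.2.2.2 ▸ h1)
      refine lt_of_le_of_ne (not_lt.1 h1) fun h2 => (ne r r' h hr).2 ?_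
      exact Prod.ext ((u r (by omega)).2.1.trans (u r' hr).2.1.symm) h2.symm
  have fin : ∀ ρ : ℕ → ℕ, (∀ r < T', ρ r < T') →
      (∀ r r', r < r' → r' < T' → tm (e (s (ρ r))).2.1 < tm (e (s (ρ r'))).2.1) →
      Mo (fun r => (e (s (ρ r))).2.2.2) T' →
      ∃ L' tm' par' dj', Config len E n I T0 D (i + 1) T' L' tm' par' dj' := by
    intro ρ h1 h2 h3
    refine build hI C hi hT (t1 := t1) (t2 := t2) γ1.2 γ2 (fun r => (e (s (ρ r))).2.1)
      (fun r => (e (s (ρ r))).2.2) (fun r hr => ?_) h2 (fun r hr => ?_) h3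
      (fun b hb r hr r' hr' => ?_) (fun a ha r hr r' hr' => ?_)
    · have := (he _ (lt _ (h1 r hr))).1
      rwa [(u _ (h1 r hr)).1] at this
    · have := (he _ (lt _ (h1 r hr))).2
      exact ⟨this.1, this.2.1, (u _ (h1 r hr)).2.1, this.2.2⟩
    · have := congrFun ((u _ (h1 r hr)).2.2.1.trans (u _ (h1 r' hr')).2.2.1.symm) ⟨b, hb⟩
      simp only [Prod.mk.injEq, eq_iff_iff] at this
      exact ⟨this.1.1, this.2.1⟩
    · have := congrFun ((u _ (h1 r hr)).2.2.2.1.trans (u _ (h1 r' hr')).2.2.2.1.symm) ⟨a, ha⟩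
      exact (iff_of_eq this).1
  by_cases c : γ5
  · exact fin id (fun _ h => h) (fun r r' h hr => ((s3 r r' h (by omega)).2.2.2.2.1 ▸ c :)) pos
  · refine fin (fun r => T' - 1 - r) (fun r _ => by omega) (fun r r' h hr => ?_) ?_
    · have h0 : T' - 1 - r' < T' - 1 - r := by omega
      have h1 : ¬ tm (e (s (T' - 1 - r'))).2.1 < tm (e (s (T' - 1 - r))).2.1 := fun h1 =>
        c ((s3 _ _ h0 (by omega)).2.2.2.2.1 ▸ h1)
      exact lt_of_le_of_ne (not_lt.1 h1) (ne _ _ h0 (by omega)).1.symm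
    · rcases pos with p | p
      · exact Or.inr fun r r' h hr => p _ _ (by omega) (by omega)
      · exact Or.inl fun r r' h hr => p _ _ (by omega) (by omega)

end Pool.Agent.MP_9d78a0_co.fb

end MrgPart4

-- ======== part 5: formerly Pool.Agent.MP_9d78a0_co.fb.Part12
section MrgPart5

/-! The chord diagram lemma and the unique linkage theorem. -/

set_option autoImplicit false

namespace Pool.Agent.MP_9d78a0_co.fb

theorem min_thm : MinS := minS simS

theorem ua_thm : UaS := uaS simS capS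

theorem b0_thm : B0S := b0S simS capS gadS ua_thm

theorem b31_thm : B31S := b31S capS b0_thm

theorem bstar_thm : BstarS :=
  bstarS ramseyS min_thm b31_thm (b40S capS b0_thm) (bxS b0_thm) (c1S simS capS b31_thm)

theorem core_thm : CoreS :=
  coreS (u3S ramseyS min_thm (u3aS min_thm b0_thm maxS bstar_thm)
      (u3cS ramseyS min_thm gadS ua_thm b31_thm))
    (depthS ramseyS maxS bstar_thm) (retS diS min_thm (f1wS diS simS (f1S ncmS)))
    (f2S simS min_thm)

theorem ult_thm : UltS :=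
  ultS (gridvS core_thm diS drawS) (extaS ramseyS) (extbS xpS (rlS mengerPS) chainS repS)
    (starS repS)

end Pool.Agent.MP_9d78a0_co.fb

end MrgPart5

-- marker of a merged file
example : 731051 + 583909 = 731051 + 583909 := rfl
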