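import Pool.Agent.MP_9d78a0_co.fb.Part12
import Pool.Agent.MP_9d78a0_co.gm.BGrid
import Pool.Agent.MP_9d78a0_co.st.Riv
import Pool.Agent.MP_9d78a0_co.fb.Trf
import Pool.Agent.MP_9d78a0_co.st.TRd
import Pool.Agent.MP_9d78a0_co.fb.StepB
import Pool.Agent.MP_9d78a0_co.st.Sit
import Pool.Agent.MP_9d78a0_co.st.Ord
import Pool.Agent.MP_9d78a0_co.fb.Conv

/-! All parts put together. -/

set_option autoImplicit false

namespace Pool.Agent.MP_9d78a0_co.fb

open Filter Topology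

theorem comb_thm : CombS :=
  combS (blobS ult_thm) riverS (stageS (oneS (mengerQS mengerS) mengerPS) chain2S)

theorem irr_thm : IrrS := irrS (homS ramseyS) (centreS skS comb_thm subS quoS (trS skS)) subS

theorem black_thm : BlackS :=
  blackS gridS (bbS cylS (levaS (cutS mengerS jumpsS) busS) levbS irr_thm) grid_conn

theorem lim_thm : LimS :=
  limS (regS (rdivS astS)) (replS (dichS black_thm (rdivS astS) (plS ncS partS) leakS
    (redS pmapS trfS) delS) finS) (stepS black_thm)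

theorem fin_thm (F : Family) (hF : F.Nonempty) (he : ∀ H ∈ F, H.2 ≠ ⊥)
    (hb : ∃ F₀ : Family, F₀.Finite ∧ ∀ (n : ℕ) (G : SimpleGraph (Fin n)), Free F G ↔ Free F₀ G) :
    ∃ a b : ℝ, Tendsto (fun n : ℕ => (Mminus F n : ℝ) / n) atTop (𝓝 a) ∧
      Tendsto (fun n : ℕ => (Mplus F n : ℝ) / n) atTop (𝓝 b) ∧
      Tendsto (fun n : ℕ => (gap F n : ℝ) / n) atTop (𝓝 (b - a)) := by
  obtain ⟨F₀, h0, h⟩ := hb
  obtain ⟨⟨a, ha⟩, b, hb⟩ := lim_basis lim_thm hF he h0 h
  exact ⟨a, b, ha, hb, gap_tendsto he ha hb⟩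

end Pool.Agent.MP_9d78a0_co.fb
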